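import Pool.Agent.Lib.MP_c37a72_al.NI.Spec

/-!
# MP_c37a72_al, block NI (nilpotent step), part 2: the core

Text: `/team-store/MP_c37a72_NIL.md`, sections 2, 4, 5. Module `XXX` is the file
`Pool/Agent/Lib/MP_c37a72_al/NI/XXX.lean`, which imports `Pool.Agent.Lib.MP_c37a72_al.NI.SpecC`, with
`theorem specXXX (hYYY : SpecYYY) .. : SpecXXX`; every Spec of `NI/Spec.lean`, `NI/SpecC.lean` may be taken
as a hypothesis; own lemmas in the namespace `Pool.Agent.Lib.MP_c37a72_al.NI.XXXM`.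
-/

set_option autoImplicit false

open Module

namespace Pool.Agent.Lib.MP_c37a72_al.NI

universe u v w

/-- **ECH** (80 lines). Echelon bases, and their entries if the subspace is stable under left
multiplication by the elements of `C`.

PROOF. `PURM.echelon` / `echelon` of `Pool/Agent/Lib/MP_c37a72_al/PUR.lean` gives `J`, `u` (import it, or copy).
The `u j` are a basis of `X1` over `Qᵐᵒᵖ` (dimension). Last statement: `x := c * u j ∈ X1`, so
`c * u j i = ∑_{j'} u j' i * (c * u j j') = u j i * c`. -/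
def SpecECH : Prop :=
  ∀ (Q : Type v) [DivisionRing Q] (n : ℕ) (X1 : Submodule Qᵐᵒᵖ (Fin n → Q)) (C : Set Q),
    (∀ c ∈ C, ∀ x ∈ X1, (fun i => c * x i) ∈ X1) →
    ∃ (J : Finset (Fin n)) (u : Fin n → Fin n → Q), (∀ j ∈ J, u j ∈ X1) ∧
      (∀ j ∈ J, ∀ j' ∈ J, u j j' = if j' = j then 1 else 0) ∧
      (∀ x ∈ X1, ∀ i, x i = ∑ j ∈ J, u j i * x j) ∧
      finrank Qᵐᵒᵖ X1 = J.card ∧ ∀ j ∈ J, ∀ i, ∀ c ∈ C, c * u j i = u j i * c

/-- **POS** (150 lines). The maximal slope is positive.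

PROOF. `K0 = ker p`, `I0 = range p`. For the good `t` (eventually): `0 = deg ⊤ = deg K0 + deg (V/K0)` (WTA (6),
FDB (2) with `V1 = K0`, `W = ⊤`). `p` induces `V / K0 ≅ I0` and maps `M̄ a` (`M a = wt (N t) a`, image in `V / K0`)
into `I0 ∩ M (a+1)`, so `dim (I0 ∩ M (a+1)) ≥ dim M̄ a`; `M̄ (-B) = ⊤`, `M B = ⊥` (`N^B = 0`). Hence
`deg I0 ≥ deg (V/K0) + dim I0 = - deg K0 + dim I0`, `dim I0 > 0`. If `μ ≤ 0` then eventually `deg I0 ≤ 0` and
`deg K0 ≤ 0`, a contradiction. -/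
def SpecPOS : Prop :=
  ∀ (D V : Type v) [DivisionRing D] [AddCommGroup V] [Module D V] [Module.Finite D V]
    (𝒯 : Type w) (l : Filter 𝒯) [l.NeBot] (B : ℕ) (N : 𝒯 → Module.End D V) (p : Module.End D V)
    (μ : ℚ) (V1 : Submodule D V), (∀ t, N t ^ B = 0) →
    (∀ᶠ t in l, ∀ (a : ℤ) (x : V), x ∈ wt (N t) a → p x ∈ wt (N t) (a + 1)) → p ≠ 0 →
    IsMx l B (fun t => wt (N t)) μ V1 → 0 < μ

/-- **MUZ** (100 lines). A map which kills the `N t` kills `V1`.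

PROOF. Suppose not: `dim (V1 ⊓ ker m) < dim V1`. FDB (2) with `ker m`: `deg V1 ≤ deg (V1 ⊓ ker m) + deg W̄`,
`W̄` the image of `V1` in `V / ker m`; the image of `wt (N t) a` is `⊥` for `a ≥ 1`
(`wt (N t) a ≤ range (N t) ≤ ker m`), so `deg W̄ ≤ 0`. Eventually
`μ dim V1 = deg V1 ≤ μ dim (V1 ⊓ ker m) < μ dim V1`. -/
def SpecMUZ : Prop :=
  ∀ (D V V' : Type v) [DivisionRing D] [AddCommGroup V] [Module D V] [Module.Finite D V]
    [AddCommGroup V'] [Module D V'] (𝒯 : Type w) (l : Filter 𝒯) [l.NeBot] (B : ℕ)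
    (N : 𝒯 → Module.End D V) (m : V →ₗ[D] V') (μ : ℚ) (V1 : Submodule D V), (∀ t, N t ^ B = 0) →
    (∀ t x, m (N t x) = 0) → IsMx l B (fun t => wt (N t)) μ V1 → 0 < μ → V1 ≤ LinearMap.ker m

/-- **RBC** (300 lines). Base change of degrees from `Q` to `M` for data with entries in `O`.

PROOF. `O` is a division ring (`o ∈ O`, `o ≠ 0`: left multiplication on the finite-dimensional `O` is
injective). Let `X' := O^n` (right `O`-space), `W' := {x | x i = ∑_{j ∈ J} u j i * x j}`, of dimension `#J` (basis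
`u j`). (a) `M` as left `O`-space through `ℓ`, `K`-space: `S := M^n`, `β(x, v) i = ℓ(x i) v`, `IsBal` (BAL with the
standard basis), `T = mop K (ν.map ℓ)`: `T β(x, v) = β(ν x, v)`. COV with `s = 0`, TDG with `V' = ⊤`:
`deg_K(W) = dim_K M · deg_O(W')`, since `W = tns β W' ⊤` and `deg (wt 0) ⊤ = 0`; `dim W = #J dim M`. (The bound
`2B` in COV/TDG is changed to `B` by FDA (4): `(mop ..)^B = 0`.) (b) the same with `Q` as left `O`-space and
`Z`-space: `deg_Z(X1) = [Q : Z] deg_O(W')`. (c) `deg_Z(X1) = [Q : Z] deg_{Qᵐᵒᵖ}(X1)`: the sets `wt` over `Z` and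
over `Qᵐᵒᵖ` are equal (`wt_map` with `φ = id`), and `dim_Z = [Q : Z] dim_{Qᵐᵒᵖ}`
(`Module.finrank_mul_finrank`). (`Q` has characteristic `0`: `O → M`, `K ⊆ M`.) -/
def SpecRBC : Prop :=
  ∀ (Z Q K M : Type v) [Field Z] [CharZero Z] [DivisionRing Q] [Algebra Z Q] [Module.Finite Z Q]
    [Field K] [CharZero K] [Ring M] [Nontrivial M] [Algebra K M] [Module.Finite K M]
    (O : Subalgebra Z Q) (ℓ : O →+* M) (n B : ℕ) (ν : Matrix (Fin n) (Fin n) O) (J : Finset (Fin n))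
    (u : Fin n → Fin n → O), (∀ j ∈ J, ∀ j' ∈ J, u j j' = if j' = j then 1 else 0) → ν ^ B = 0 →
    ∀ (X1 : Submodule Qᵐᵒᵖ (Fin n → Q)) (W : Submodule K (Fin n → M)),
      (∀ x, x ∈ X1 ↔ ∀ i, x i = ∑ j ∈ J, (u j i : Q) * x j) →
      (∀ z, z ∈ W ↔ ∀ i, z i = ∑ j ∈ J, ℓ (u j i) * z j) →
      finrank K W = finrank K M * J.card ∧
      deg B (wt (mop K (ν.map ℓ))) W =
        finrank K M * deg B (wt (mop Qᵐᵒᵖ (ν.map (fun o : O => (o : Q))))) X1

/-- The span of the `ρ(y) w`, `y ∈ Y`, `w ∈ W`. -/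
def prm {K M : Type v} [Field K] [Ring M] [Algebra K M] {n : ℕ}
    (ρ : M →+* Matrix (Fin n) (Fin n) M) (Y : Submodule K M) (W : Submodule K (Fin n → M)) :
    Submodule K (Fin n → M) :=
  Submodule.span K {z | ∃ y ∈ Y, ∃ w ∈ W, z = mop K (ρ y) w}

/-- **XSD** (250 lines). The other side.

PROOF. Let `S := ↥W`, `r : M → End_K(S)`, `r m = ` restriction of `mop K (ρ m)` (`K`-linear, a ring
homomorphism), `R c := wt (mulLeft s) c` (right ideals: right multiplications commute with left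
multiplication by `s`, `wt_map`), `G c := (wt (mop a) c).comap W.subtype` (stable under `r`, since `ρ m`
commutes with `a`). WED: the dimension formula, and
`dim M · deg (P) (prd r Y ⊤) = dim W · deg B R Y + dim Y · deg B G ⊤`, `P c = ⨆ prd r (R a) (G (c - a))`. The
image of `prd r Y ⊤` in `M^n` is `prm ρ Y W`. With `T := mop (ρ s + a)`: `T (ρ(m) z) = ρ(s m) z + ρ(m) (a z)`, so
TWT: `ρ(m) z ∈ wt T (b + c)` for `m ∈ wt s b`, `z ∈ wt a c`: `P c` is mapped into `wt T c`, and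
`deg (2B) (wt T) (prm ..) ≥ deg (2B) P (prd ..)` (FDA (5), termwise). `T^(2B) = 0` is not needed for `≥` of the
sums over `(-2B, 2B]`. -/
def SpecXSD : Prop :=
  ∀ (K M : Type v) [Field K] [CharZero K] [Ring M] [Algebra K M] [Module.Finite K M]
    [IsSimpleRing M] (n B : ℕ) (ρ : M →+* Matrix (Fin n) (Fin n) M) (s : M)
    (a : Matrix (Fin n) (Fin n) M) (W : Submodule K (Fin n → M)) (Y : Submodule K M),
    s ^ B = 0 → a ^ B = 0 → (∀ m, ρ m * a = a * ρ m) → (∀ z ∈ W, ∀ m, mop K (ρ m) z ∈ W) →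
    (∀ y ∈ Y, ∀ m, y * m ∈ Y) →
    prm ρ Y W ≤ W ∧ finrank K M * finrank K (prm ρ Y W) = finrank K Y * finrank K W ∧
    finrank K W * deg B (wt (LinearMap.mulLeft K s)) Y + finrank K Y * deg B (wt (mop K a)) W ≤
      finrank K M * deg (2 * B) (wt (mop K (ρ s + a))) (prm ρ Y W)

/-- **NCO** (400 lines; helper80). The core of the nilpotent step. `O ⊆ Q`; `Δ : Q → M`, `ℓ : O → M`
(`o ↦ o ⊗ 1`), `T` (`= Δ_U`), `ρ` (`= Δ_U ⊗ 1`), `ν i = n_{f_i}`, `s i`, `a i`; text, sections 2, 4, 5. -/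
def SpecNCO : Prop :=
  ∀ (k : Type u) (Z Q K M : Type v) [Field k] [CharZero k] [Field Z] [Algebra k Z] [DivisionRing Q]
    [Algebra k Q] [Algebra Z Q] [IsScalarTower k Z Q] [Module.Finite Z Q] [Field K] [Algebra k K]
    [Ring M] [Algebra k M] [Algebra K M] [IsScalarTower k K M] [Module.Finite K M] [IsSimpleRing M]
    (O : Subalgebra Z Q) (Δ : Q →ₐ[k] M) (ℓ : O →ₐ[k] M) (n : ℕ)
    (T : Q →ₐ[k] Matrix (Fin n) (Fin n) Q) (ρ : M →ₐ[k] Matrix (Fin n) (Fin n) M) (R : ℕ)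
    (ν : Fin R → Matrix (Fin n) (Fin n) O) (s : Fin R → M) (a : Fin R → Matrix (Fin n) (Fin n) M)
    (e : Fin n → Q),
    (∀ q : Q, (∀ c : Q, (∀ o ∈ O, o * c = c * o) → c * q = q * c) → q ∈ O) →
    (∀ i, IsNilpotent (ν i)) → (∀ i j, ν i * ν j = ν j * ν i) →
    (∀ i, IsNilpotent (s i)) → (∀ i j, s i * s j = s j * s i) → (∀ i q, s i * Δ q = Δ q * s i) →
    (∀ i, IsNilpotent (a i)) → (∀ i j, a i * a j = a j * a i) → (∀ i m, ρ m * a i = a i * ρ m) →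
    (∀ i, (ν i).map (fun o : O => Δ (o : Q)) + Matrix.scalar (Fin n) (s i) = ρ (s i) + a i) →
    (∀ i q, (ν i).map (fun o : O => (o : Q)) * T q = T q * (ν i).map (fun o : O => (o : Q))) →
    Submodule.span K (Set.range a) = Submodule.span K (Set.range fun i => (ν i).map ℓ) →
    (∀ (J : Finset (Fin n)) (u : Fin n → Fin n → O),
      (∀ j ∈ J, ∀ j' ∈ J, u j j' = if j' = j then 1 else 0) →
      (∀ (q : Q), ∀ j ∈ J, ∀ i, ∑ l, T q i l * (u j l : Q) =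
        ∑ j' ∈ J, (u j' i : Q) * ∑ l, T q j' l * (u j l : Q)) →
      ∀ (m : M), ∀ j ∈ J, ∀ i, ∑ l, ρ m i l * ℓ (u j l) =
        ∑ j' ∈ J, ℓ (u j' i) * ∑ l, ρ m j' l * ℓ (u j l)) →
    (∀ (q : O) (Y : Submodule K M), Y ≠ ⊥ → (∀ y ∈ Y, ∀ q' : Q, Δ q' * y ∈ Y) →
      (∀ y ∈ Y, Δ (q : Q) * y = ℓ q * y) → ∃ c : k, algebraMap k Q c = q) →
    LinearIndependent k e → (∀ i l, ∑ p, e p * (ν i p l : Q) = 0) → ∀ i, ν i = 0

end Pool.Agent.Lib.MP_c37a72_al.NI
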