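import Pool.Agent.Lib.MP_c37a72_al.LB.Spec
import Pool.Agent.Lib.MP_c37a72_al.NI.SpecC

/-!
# MP_c37a72_al, block NI (nilpotent step), part 3: the Hopf algebra application

Text: `/team-store/MP_c37a72_NIL.md`. Module `XXX` is the file `Pool/Agent/Lib/MP_c37a72_al/NI/XXX.lean`,
which imports `Pool.Agent.Lib.MP_c37a72_al.NI.SpecN`, with `theorem specXXX (hYYY : SpecYYY) .. : SpecXXX`;
every Spec of `NI/*.lean`, `LB/Spec.lean`, `EG/Spec.lean` may be taken as a hypothesis (all the Specs of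
`LB/Spec.lean` are proved in `LB/All.lean`); own lemmas in the namespace
`Pool.Agent.Lib.MP_c37a72_al.NI.XXXM`.

Notation as in `LB/Spec.lean`: `H ⊆ Q ⊇ Z`, `R2 ⊇ Q ⊗ Q` (map `j`), `D : Q → R2` the coproduct, `F2` central
in `R2`, `M2`, `K2`. `T : Q → M_n(Q)` (`IsTl`: `T(ι h) = f(h₁) h₂`, text `Δ_U`), `τ : R2 → M_n(R2)`
(`τ(j(a ⊗ b)) = T(a) ⊗ b`, `τ(D q) = D(T q)`, text `ρ`; TAL of `LB/Spec.lean`).
-/

set_option autoImplicit false

open scoped TensorProduct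
open Coalgebra HopfAlgebra Module
open Pool.Agent.Lib.MP_c37a72_al.LB

namespace Pool.Agent.Lib.MP_c37a72_al.NI

universe u v w

/-- The output of the labels: `E ≤ Z` of finite index, `δ : E → K` with `D f - δ f` nilpotent. -/
structure IsDel {k : Type u} {Z Q F2 R2 : Type v} [Field k] [Field Z] [Algebra k Z] [DivisionRing Q]
    [Algebra k Q] [Algebra Z Q] [Field F2] [Ring R2] [Algebra k R2] [Algebra F2 R2]
    (D : Q →ₐ[k] R2) (K : Subalgebra F2 R2) (E : IntermediateField k Z) (δ : E →ₐ[k] R2) : Prop where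
  fin : Module.Finite E Z
  mem : ∀ f : E, δ f ∈ K
  nil : ∀ f : E, IsNilpotent (D (algebraMap Z Q (f : Z)) - δ f)

/-- **OLM** (200 lines). `T(O_l) ⊆ M_n(O_l)`.

PROOF. `q = ι h`, `h ∈ H`, `ι h ∈ O_l`: `Δ h = ∑ x_i ⊗ y_i` with independent `x_i`; `T(ι h) p l =
∑ f(x_i) p l • ι(y_i)` and `ι(y_i) ∈ O_l` by LEG (second part, `LB.SpecLEG`). General `q ∈ O_l`: `ι c q = ι h`,
`0 ≠ c` central in `H` (`IsCQ.frac`), `ι c ∈ Z ⊆ O_l` (`IsCQ.cent`), so `ι h ∈ O_l`, `T(ι c), T(ι h) ∈ M_n(O_l)`.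
`T(ι c)` is invertible in `M_n(Q)`; left multiplication by it is injective on the finite-dimensional
`Z`-space `M_n(O_l)`, so surjective, so the inverse is in `M_n(O_l)`. `T(q) = T(ι c)⁻¹ T(ι h)`. -/
def SpecOLM : Prop :=
  ∀ (k : Type u) (H Z Q : Type v) [Field k] [Ring H] [IsDomain H] [HopfAlgebra k H] [Field Z]
    [Algebra k Z] [DivisionRing Q] [Algebra k Q] [Algebra Z Q] [IsScalarTower k Z Q]
    (ι : H →ₐ[k] Q), IsCQ k H Z Q ι → Function.Bijective (antipode k (A := H)) →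
    ∀ (n : ℕ) (f : H →ₐ[k] Matrix (Fin n) (Fin n) k) (T : Q →ₐ[k] Matrix (Fin n) (Fin n) Q),
      IsTl ι f T → ∀ q ∈ EG.Ol k Z ι, ∀ p l, T q p l ∈ EG.Ol k Z ι

/-- **TRM** (200 lines). `τ(M2) ⊆ M_n(M2)`.

PROOF. `P := {r | ∀ p l, τ r p l ∈ M2}` is a subring of `R2`, and closed under inverses of units `r` of `R2`
(`M_n(M2)` is a finite-dimensional `F2`-space, as in OLM; `Module.Finite F2 R2`: `IsCL.finite_iZ`). It
contains `j(a ⊗ b)` for `a ∈ O_l`, `b ∈ Z` (OLM: `τ(j(a ⊗ b)) p l = j(T(a) p l ⊗ 1) j(1 ⊗ b)`,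
`j(1 ⊗ b) ∈ F2 ⊆ M2`), `D q` (`D(T q p l) ∈ M2`), so the image of `jF (Z ⊗ Z)`
(`IsCL.comm`-type field: `j ∘ iZ = algebraMap ∘ jF`), so `F2` (fractions, `IsFrc`). So `M2 ≤ P`
(`Algebra.adjoin_induction`). -/
def SpecTRM : Prop :=
  ∀ (k : Type u) (H Z Q F2 R2 : Type v) [Field k] [Ring H] [IsDomain H] [HopfAlgebra k H]
    [Field Z] [Algebra k Z] [DivisionRing Q] [Algebra k Q] [Algebra Z Q] [IsScalarTower k Z Q]
    [Field F2] [Algebra k F2] [Ring R2] [Algebra k R2] [Algebra F2 R2] [IsScalarTower k F2 R2]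
    (ι : H →ₐ[k] Q) (jF : Z ⊗[k] Z →ₐ[k] F2) (j : Q ⊗[k] Q →ₐ[k] R2) (D : Q →ₐ[k] R2),
    IsCQ k H Z Q ι → IsR2 ι jF j D → Function.Bijective (antipode k (A := H)) →
    ∀ (n : ℕ) (f : H →ₐ[k] Matrix (Fin n) (Fin n) k) (T : Q →ₐ[k] Matrix (Fin n) (Fin n) Q),
    IsTl ι f T → ∀ τ : R2 →ₐ[k] Matrix (Fin n) (Fin n) R2,
      (∀ a b p l, τ (j (a ⊗ₜ b)) p l = j (T a p l ⊗ₜ b)) → (∀ q p l, τ (D q) p l = D (T q p l)) →
      ∀ r ∈ M2 Z F2 ι j D, ∀ p l, τ r p l ∈ M2 Z F2 ι j D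

/-- **NLF** (150 lines). `N_f = T(f) - f` is nilpotent if `D(f) - d` is, `d ∈ K`.

PROOF. Let `X` be the row of the `j(e_i ⊗ 1)`. Hypothesis: `D(q) X = X D(T(q))`. For `z ∈ Z`, with
`N = T(z) - z · 1` (commutes with `z · 1`): `D(z) X - X D(z) = X D(N)`, and by induction (`D(z)` on the left, and on
the right) `∑ binom ± D(z)^i X D(z)^(m-i) = X D(N^m)`, i.e. `ad(D z)^m (X) = X D(N^m)`.
`ad(D z) = ad(D z - d)` on `M` (`d` commutes with `M`), which is nilpotent. So `X D(N^m) = 0` for large `m`: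
`N^m = 0` by MIS (first formula, `LB.SpecMIS`). -/
def SpecNLF : Prop :=
  ∀ (k : Type u) (H Z Q F2 R2 : Type v) [Field k] [Ring H] [IsDomain H] [HopfAlgebra k H]
    [Field Z] [Algebra k Z] [DivisionRing Q] [Algebra k Q] [Algebra Z Q] [IsScalarTower k Z Q]
    [Field F2] [Algebra k F2] [Ring R2] [Algebra k R2] [Algebra F2 R2] [IsScalarTower k F2 R2]
    (ι : H →ₐ[k] Q) (jF : Z ⊗[k] Z →ₐ[k] F2) (j : Q ⊗[k] Q →ₐ[k] R2) (D : Q →ₐ[k] R2),
    IsCQ k H Z Q ι → IsR2 ι jF j D → Function.Bijective (antipode k (A := H)) →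
    ∀ (M K : Subalgebra F2 R2), IsMK D M K → ∀ (n : ℕ) (T : Q →ₐ[k] Matrix (Fin n) (Fin n) Q)
      (e : Fin n → Q), LinearIndependent k e → (∀ i, j (e i ⊗ₜ 1) ∈ M) →
      (∀ q i, D q * j (e i ⊗ₜ 1) = ∑ l, j (e l ⊗ₜ 1) * D (T q l i)) →
      ∀ (z : Z) (d : R2), d ∈ K → IsNilpotent (D (algebraMap Z Q z) - d) →
        IsNilpotent (T (algebraMap Z Q z) - Matrix.scalar (Fin n) (algebraMap Z Q z))

/-- **MUL** (80 lines). `∑_p e_p T(q)_{pl} = q e_l`.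

PROOF. `q = ι h`: `∑_p e_p f(h₁)_{pl} h₂ = (h₁ ▷ e_l) h₂ = h e_l` (`EG.SpecADB` (1)). `q = c⁻¹ h`, `c` central: the
row `e` satisfies `e T(ι h) = ι h e`, `e T(ι c) = ι c e`, so `e T(q) = e T(ι c)⁻¹ T(ι h)
= (ι c)⁻¹ e T(ι h) = q e` (`ι c` is central in `Q`). -/
def SpecMUL : Prop :=
  ∀ (k : Type u) (H Z Q : Type v) [Field k] [Ring H] [IsDomain H] [HopfAlgebra k H] [Field Z]
    [Algebra k Z] [DivisionRing Q] [Algebra k Q] [Algebra Z Q] [IsScalarTower k Z Q]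
    (ι : H →ₐ[k] Q), IsCQ k H Z Q ι →
    ∀ (n : ℕ) (f : H →ₐ[k] Matrix (Fin n) (Fin n) k) (T : Q →ₐ[k] Matrix (Fin n) (Fin n) Q),
      IsTl ι f T → ∀ e : Fin n → Q, (∀ h i, EG.adlQ k Z ι h (e i) = ∑ l, f h l i • e l) →
      ∀ q l, ∑ p, e p * T q p l = q * e l

/-- **T1R** (200 lines). T1'': `Δ(q) = q ⊗ 1` on a nonzero `D(Q)`-stable subspace implies `q ∈ k`.

PROOF. `D(q)^i y = j(q^i ⊗ 1) y` for `y ∈ Y` (`D(q) y ∈ Y`). Let `m` be the minimal polynomial of `q` over `Z`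
(`q` is integral, `Q` finite over `Z`). On `Y` the operator `θ = ` left multiplication by `j(q ⊗ 1)` is
killed by `m ⊗ 1` (coefficients `j(z ⊗ 1)`, central) and by `D(m)` (coefficients `D(z)`). The resultant of
`m ⊗ 1` and `1 ⊗ m` is in the ideal generated by both in `(Z ⊗ Z)[X]`; let `ρ ∈ Z ⊗ Z` be this resultant:
`Φ(ρ) Y = 0`, where `Φ(a ⊗ b) = j(a ⊗ 1) D(b)` (a homomorphism on `Z ⊗ Z`). If `ρ ≠ 0` then `Φ(ρ)` is a unit of
`R2`: right multiplication by `Φ(ρ)` is injective on `R2` (clear denominators, `Phi_surj`, `Phi_injective`,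
`Phi_mul_left`, `Phi_mul_right` of `DR2.lean`, and `Q ⊗ Q` is free over the domain `Z ⊗ Z`), `R2` is finite
over `F2`; contradiction with `Y ≠ 0`. So `ρ = 0`, and `m ⊗ 1`, `1 ⊗ m` have a common root `θ` in an
algebraic closure `Ω` of `F2 = Frac (Z ⊗ Z)`; `θ` is algebraic over `Z ⊗ 1` and over `1 ⊗ Z`, so `θ ∈ k`
(`k` algebraically closed: if `θ ∉ k`, its powers are `k`-independent, `θ ∈ F ⊗ 1`, `θ ∈ 1 ⊗ F` for the
algebraic closures `F` of `Z`, and `F ⊗ F → Ω` is injective (`LB.SpecXIP`, `noZeroDivisors_tensor`):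
`θ' ⊗ 1 - 1 ⊗ θ'' ↦ 0` implies `θ' ∈ k`). So `m` has a root in `k`, `m` is irreducible (`Q` division ring),
`q ∈ k`. (Alternative without resultants: `Z[X]/(m) ⊗_k Z[X]/(m)` is a domain-like argument; any proof is
welcome.) -/
def SpecT1R : Prop :=
  ∀ (k : Type u) (H Z Q F2 R2 : Type v) [Field k] [IsAlgClosed k] [Ring H] [IsDomain H]
    [HopfAlgebra k H]
    [Field Z] [Algebra k Z] [DivisionRing Q] [Algebra k Q] [Algebra Z Q] [IsScalarTower k Z Q]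
    [Field F2] [Algebra k F2] [Ring R2] [Algebra k R2] [Algebra F2 R2] [IsScalarTower k F2 R2]
    (ι : H →ₐ[k] Q) (jF : Z ⊗[k] Z →ₐ[k] F2) (j : Q ⊗[k] Q →ₐ[k] R2) (D : Q →ₐ[k] R2),
    IsCQ k H Z Q ι → IsR2 ι jF j D → ∀ (q : Q) (Y : Submodule k R2), Y ≠ ⊥ →
      (∀ y ∈ Y, ∀ q' : Q, D q' * y ∈ Y) → (∀ y ∈ Y, D q * y = j (q ⊗ₜ 1) * y) →
      ∃ c : k, algebraMap k Q c = q

/-- **STB** (200 lines). Stability under `τ(R2)` of the space `(W ⊗ 1) R2`.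

PROOF. `𝒲 := {z : Fin n → R2 | z i = ∑_{j' ∈ J} j(u j' i ⊗ 1) z j'}`, a right `R2`-submodule, `F2`-subspace, the
sums `∑_j (j(u j ⊗ 1)) r_j`. `τ(j(a ⊗ b))` maps the vector `j(u j ⊗ 1)` to
`(j((T(a) u_j)_i ⊗ b))_i`, in `𝒲` by the hypothesis; `τ(r)` commutes with right multiplications, so
`τ(j(x)) 𝒲 ≤ 𝒲` for `x ∈ Q ⊗ Q`. For `r ∈ R2` there is `0 ≠ t ∈ Z ⊗ Z` with `jF(t) r = j(x)`
(`IsCL.common`-type); `τ(jF t)` is a unit of `M_n(R2)` and maps the finite-dimensional `F2`-space `𝒲` into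
itself, injectively, so onto, and `τ(r) = τ(jF t)⁻¹ τ(j x)` maps `𝒲` into `𝒲`. -/
def SpecSTB : Prop :=
  ∀ (k : Type u) (H Z Q F2 R2 : Type v) [Field k] [Ring H] [IsDomain H] [HopfAlgebra k H]
    [Field Z] [Algebra k Z] [DivisionRing Q] [Algebra k Q] [Algebra Z Q] [IsScalarTower k Z Q]
    [Field F2] [Algebra k F2] [Ring R2] [Algebra k R2] [Algebra F2 R2] [IsScalarTower k F2 R2]
    (ι : H →ₐ[k] Q) (jF : Z ⊗[k] Z →ₐ[k] F2) (j : Q ⊗[k] Q →ₐ[k] R2) (D : Q →ₐ[k] R2),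
    IsCQ k H Z Q ι → IsR2 ι jF j D →
    ∀ (n : ℕ) (T : Q →ₐ[k] Matrix (Fin n) (Fin n) Q) (τ : R2 →ₐ[k] Matrix (Fin n) (Fin n) R2),
      (∀ a b p l, τ (j (a ⊗ₜ b)) p l = j (T a p l ⊗ₜ b)) →
      ∀ (J : Finset (Fin n)) (u : Fin n → Fin n → Q),
      (∀ i ∈ J, ∀ i' ∈ J, u i i' = if i' = i then 1 else 0) →
      (∀ (q : Q), ∀ i ∈ J, ∀ p, ∑ l, T q p l * u i l = ∑ i' ∈ J, u i' p * ∑ l, T q i' l * u i l) →
      ∀ (r : R2), ∀ i ∈ J, ∀ p, ∑ l, τ r p l * j (u i l ⊗ₜ 1) =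
        ∑ i' ∈ J, j (u i' p ⊗ₜ 1) * ∑ l, τ r i' l * j (u i l ⊗ₜ 1)

/-- **AL2** (300 lines). Algebraicity. `Kf` is the field `K2` (`κ : Kf → R2` with range `K2`), `l z = z ⊗ 1`,
`r z = 1 ⊗ z`.

PROOF. (1) `z = ι c`, `c` central in `H`: `ψ : Q ⊗ Q → R2`, `a ⊗ b ↦ D(a) j(1 ⊗ b)`, is injective (MIS (4)).
`j(ι c ⊗ 1) = ∑ D(c₁) j(1 ⊗ S(c₂))` is central in `R2`, so
`j(ι c ⊗ 1) ψ(a ⊗ b) = D(a) j(ι c ⊗ 1) j(1 ⊗ b) = ψ(θ(a ⊗ b))`, `θ(a ⊗ b) = ∑ a c₁ ⊗ S(c₂) b`, an `E ⊗ Z`-linear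
endomorphism of the finitely generated `E ⊗ Z`-module `Q ⊗ Q` (`E`, `Z` are central in `Q`,
`ψ((f ⊗ z) x) = D(f) j(1 ⊗ z) ψ(x)`). Cayley-Hamilton (`LinearMap.exists_monic_and_aeval_eq_zero`), applied to
`1 ⊗ 1`: `∑ P_i g^i = 0` in `R2`, `g = j(ι c ⊗ 1)`, `P_i = ∑ D(f_il) j(1 ⊗ z_il)`, monic. Replace `D(f)` by
`κ(δ f)`: the difference is a sum of commuting nilpotents (all `D(f)`, `κ(..)` commute), and it is equal to
`∑ P'_i g^i ∈ κ(Kf)`, so it is nilpotent in a field: `0`. So `l z` is integral over the subring generated by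
`δ(E)`, `r(Z)`. General `z`: quotient of two such elements (`IsCQ.frac`: `Z` consists of quotients
`c' / c`, `c, c'` central in `H`). (2) `Kf` is algebraic over the image of `F2` (`R2` is finite over `F2`),
`F2` is generated as a field by `l(Z)`, `r(Z)`, and `Z` is algebraic over `E` (`Module.Finite E Z`). -/
def SpecAL2 : Prop :=
  ∀ (k : Type u) (H Z Q F2 R2 : Type v) [Field k] [Ring H] [IsDomain H] [HopfAlgebra k H]
    [Field Z] [Algebra k Z] [DivisionRing Q] [Algebra k Q] [Algebra Z Q] [IsScalarTower k Z Q]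
    [Field F2] [Algebra k F2] [Ring R2] [Algebra k R2] [Algebra F2 R2] [IsScalarTower k F2 R2]
    (ι : H →ₐ[k] Q) (jF : Z ⊗[k] Z →ₐ[k] F2) (j : Q ⊗[k] Q →ₐ[k] R2) (D : Q →ₐ[k] R2),
    IsCQ k H Z Q ι → IsR2 ι jF j D → Function.Bijective (antipode k (A := H)) →
    ∀ (Kf : Type v) [Field Kf] [Algebra k Kf] (κ : Kf →ₐ[k] R2),
      (∀ x, x ∈ K2 Z F2 ι j D ↔ ∃ c, κ c = x) → (∀ c q, κ c * D q = D q * κ c) →
      ∀ (E : IntermediateField k Z) (δ : E →ₐ[k] Kf) (l r : Z →ₐ[k] Kf), Module.Finite E Z →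
      (∀ z, κ (l z) = j (algebraMap Z Q z ⊗ₜ 1)) → (∀ z, κ (r z) = j (1 ⊗ₜ algebraMap Z Q z)) →
      (∀ f : E, IsNilpotent (D (algebraMap Z Q (f : Z)) - κ (δ f))) →
      (∀ z : Z, IsAlgebraic (IntermediateField.adjoin k (Set.range δ ∪ Set.range r)) (l z)) ∧
      ∀ f : E, IsAlgebraic
        (IntermediateField.adjoin k ((Set.range fun g : E => l (g : Z)) ∪ Set.range r)) (δ f)

/-- **SPN** (350 lines). Span lemma. `A(c) := ρ(c) - c`, `c ∈ K`.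

PROOF. `A` is additive, `A(cc') = A(c) A(c') + c A(c') + c' A(c)`; all the `ρ(c)` and scalars commute.
`V := span_K {A(d f)}`: closed under products (`A(d f) A(d g) = A(d (f g)) - d f A(d g) - d g A(d f)`), consists of
nilpotent elements (commuting). (1) `V = V' := span_K {ulog ((d f)⁻¹ A(d f))}`: `≥`: LOG (`ulog x ∈ V`);
`≤`: LOG (6) with `c = d f`, `y = A(d f)`: `A(d f + λ) = A(d f)`, `d f + λ = d (f + λ)`; if `d f ∈ k` then
`A(d f) = 0` (`ρ` is a homomorphism of `k`-algebras). (2) `{c ∈ K | A(c) ∈ V}` is a subfield: sums and products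
clear; inverse: `A(c⁻¹)(1 + c⁻¹ A(c)) = - c⁻² A(c)`, so `A(c⁻¹) = - c⁻² A(c) (1 + c⁻¹ A(c))⁻¹`, a polynomial in
`A(c)` without constant term. It contains `d(E)` and `Z1` (`A = 0`), so it contains `L`.
(3) `c` algebraic over `L`, `A(c)` nilpotent: let `m` be the minimal polynomial, `m'(c) ≠ 0` (`CharZero`).
`0 = ρ(m(c)) = ∑ ρ(l_i) (c + A(c))^i = ∑ l_i (c + A(c))^i + ∑ A(l_i) ρ(c)^i
= m'(c) A(c) + A(c)² (..) + ∑ A(l_i) ρ(c)^i`, with `..` in `K[A(c)]`; so `A(c) = A(c) x + ∑ v_i ρ(c)^i`, `x` a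
nilpotent polynomial in `A(c)`, `v_i ∈ V`: `A(c) ∈ V K[A(c)] = V + V A(c) K[A(c)]`. Iterate:
`A(c) ∈ V + V^m K[A(c)]`, and `V^m = 0` for large `m` (`V` is a nil commutative finite-dimensional algebra, or:
`A` is finite over `K`). So `A(c) ∈ V` and `ulog (c⁻¹ A(c)) ∈ V` (LOG). -/
def SpecSPN : Prop :=
  ∀ (k : Type u) (E K A : Type v) [Field k] [Infinite k] [Field E] [Algebra k E] [Field K]
    [CharZero K] [Algebra k K] [Ring A] [Algebra ℚ A] [Algebra K A] [Algebra k A]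
    [IsScalarTower k K A] [Module.Finite K A] (ρ : K →ₐ[k] A) (d : E →ₐ[k] K) (Z1 : Set K),
    (∀ z ∈ Z1, ρ z = algebraMap K A z) →
    (∀ f : E, IsNilpotent (ρ (d f) - algebraMap K A (d f))) →
    ∀ c : K, c ≠ 0 → IsAlgebraic (IntermediateField.adjoin k (Set.range d ∪ Z1)) c →
      IsNilpotent (ρ c - algebraMap K A c) →
      ulog (c⁻¹ • (ρ c - algebraMap K A c)) ∈ Submodule.span K
        {x | ∃ f : E, f ≠ 0 ∧ x = ulog ((d f)⁻¹ • (ρ (d f) - algebraMap K A (d f)))}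

/-- **LGI** (350 lines). The logarithms `ν f`, `s f`, `a f` and their relations.

PROOF. All are `ulog` of nilpotents: `ρ(δf) - δf = (ρ(Δf) - δf) - ρ(Δf - δf)`, `ρ(Δf) - δf = (T f - f).map Δ +
(Δf - δf) · 1`, commuting summands (`Δf · 1` commutes with `(T f).map Δ` since `f` is central in `Q`, `δf` is
a central scalar, `ρ(δf)` commutes with `ρ(M)`; `(TO f - f).map ..` nilpotent). Commutation: LOG (2).
Identity: with `x = Δ(f)⁻¹ (ρ(Δf) - Δf · 1)` (`= (f⁻¹ (T f - f)).map Δ`), `y = (δf)⁻¹(Δf - δf) · 1`: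
`(1 + x)(1 + y) = (δf)⁻¹ ρ(Δf)`; with `x' = ρ((δf)⁻¹ (Δf - δf))`, `y' = (δf)⁻¹ (ρ(δf) - δf)`:
`(1 + x')(1 + y') = (δf)⁻¹ ρ(Δf)`. LOG (additivity) for both, and LOG (3) for the homomorphisms
`Matrix.map Δ`, `Matrix.scalar`, `ρ`, `Matrix.map ℓ`. (ν f) kills `e`: `∑_p e_p (TO f - f)_{pl} = f e_l - f e_l = 0`,
and `ν f = (TO f - f) · (..)`. `ν f = 0` implies `TO f = f` (LOG (4)). -/
def SpecLGI : Prop :=
  ∀ (k : Type u) (Z Q K M : Type v) [Field k] [CharZero k] [Field Z] [Algebra k Z] [DivisionRing Q]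
    [Algebra k Q] [Algebra Z Q] [IsScalarTower k Z Q] [Field K] [Algebra k K]
    [Ring M] [Algebra k M] [Algebra K M] [IsScalarTower k K M] (O : Subalgebra Z Q)
    [Algebra ℚ O] [Algebra ℚ M] (Δ : Q →ₐ[k] M) (ℓ : O →ₐ[k] M) (l : Z →ₐ[k] K) (n : ℕ)
    (T : Q →ₐ[k] Matrix (Fin n) (Fin n) Q) (TO : O → Matrix (Fin n) (Fin n) O)
    (ρ : M →ₐ[k] Matrix (Fin n) (Fin n) M) (E : IntermediateField k Z) (δ : E →ₐ[k] K)
    (e : Fin n → Q),
    (∀ o i j, (TO o i j : Q) = T (o : Q) i j) → (∀ q, ρ (Δ q) = (T q).map Δ) →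
    (∀ o, ρ (ℓ o) = (TO o).map ℓ) → (∀ z, ℓ (algebraMap Z O z) = algebraMap K M (l z)) →
    (∀ q i, ∑ p, e p * T q p i = q * e i) →
    (∀ f : E, IsNilpotent (TO (algebraMap Z O (f : Z)) -
      algebraMap Z (Matrix (Fin n) (Fin n) O) (f : Z))) →
    (∀ f : E, IsNilpotent (Δ (algebraMap Z Q (f : Z)) - algebraMap K M (δ f))) →
    ∀ (ν : E → Matrix (Fin n) (Fin n) O) (s : E → M) (a : E → Matrix (Fin n) (Fin n) M),
    (∀ f, ν f = ulog ((f : Z)⁻¹ • (TO (algebraMap Z O (f : Z)) -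
      algebraMap Z (Matrix (Fin n) (Fin n) O) (f : Z)))) →
    (∀ f, s f = ulog ((δ f)⁻¹ • (Δ (algebraMap Z Q (f : Z)) - algebraMap K M (δ f)))) →
    (∀ f, a f = ulog ((δ f)⁻¹ • (ρ (algebraMap K M (δ f)) - algebraMap K (Matrix (Fin n) (Fin n) M) (δ f)))) →
    (∀ f, IsNilpotent (ν f) ∧ IsNilpotent (s f) ∧ IsNilpotent (a f) ∧
      IsNilpotent (ρ (algebraMap K M (δ f)) - algebraMap K (Matrix (Fin n) (Fin n) M) (δ f))) ∧
    (∀ f g, ν f * ν g = ν g * ν f ∧ s f * s g = s g * s f ∧ a f * a g = a g * a f) ∧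
    (∀ f q, s f * Δ q = Δ q * s f) ∧ (∀ f m, ρ m * a f = a f * ρ m) ∧
    (∀ f, f ≠ 0 → (ν f).map (fun o : O => Δ (o : Q)) + Matrix.scalar (Fin n) (s f) =
      ρ (s f) + a f) ∧
    (∀ f q, (ν f).map (fun o : O => (o : Q)) * T q = T q * (ν f).map (fun o : O => (o : Q))) ∧
    (∀ f, (ν f).map ℓ =
      ulog ((l f)⁻¹ • (ρ (algebraMap K M (l f)) - algebraMap K (Matrix (Fin n) (Fin n) M) (l (f : Z))))) ∧
    (∀ f : E, IsNilpotent (ρ (algebraMap K M (l (f : Z))) - algebraMap K (Matrix (Fin n) (Fin n) M) (l (f : Z)))) ∧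
    (∀ f i, ∑ p, e p * (ν f p i : Q) = 0) ∧
    ∀ f : E, f ≠ 0 → ν f = 0 → T (algebraMap Z Q (f : Z)) =
      algebraMap Z (Matrix (Fin n) (Fin n) Q) (f : Z)

/-- **DCO** (150 lines). Double centraliser for a division subring `O ⊇ Z` of `Q`.

PROOF. `𝓛 ⊆ End_Z(Q)`: the maps `x ↦ ∑ o_i x b_i`, `o_i ∈ O`, `b_i ∈ Q`, a subring. `Q` is a simple
`𝓛`-module (right multiplications), `End_𝓛(Q)` is the set of the left multiplications by elements of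
`C(O)` (`φ(x) = φ(1) x`, `φ(o) = o φ(1)`). Left multiplication by `q` commutes with it, so by the density
theorem (`jacobson_density`, as in `CO/DCT.lean`), applied to a `Z`-basis of `Q`, it is in `𝓛`:
`q x = ∑ o_i x b_i`, `o_i` a `Z`-basis of `O`. If `q ∉ O` then the `o_i`, `q` are `Z`-independent, and
`∑ o_i x b_i - q x = 0` for all `x` gives `1 = 0` (`LB.SpecJD` for `q`: `∑_l a_l q c_l = 1`,
`∑_l a_l o_i c_l = 0`; put `x = c_l x'`, multiply by `a_l` on the left, sum over `l`). -/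
def SpecDCO : Prop :=
  ∀ (Z Q : Type v) [Field Z] [DivisionRing Q] [Algebra Z Q] [Module.Finite Z Q],
    (∀ q : Q, (∀ x : Q, x * q = q * x) → ∃ z : Z, algebraMap Z Q z = q) →
    ∀ O : Subalgebra Z Q, (∀ x ∈ O, x⁻¹ ∈ O) → ∀ q : Q,
      (∀ c : Q, (∀ o ∈ O, o * c = c * o) → c * q = q * c) → q ∈ O

/-- **SEL** (100 lines). Finite selections.

PROOF. Each span is finite-dimensional, so it is spanned by finitely many members of the family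
(`Submodule.fg_span..`, `exists_linearIndependent`); take the union of three finite subsets of `ι`, enumerate
it by `Fin R` (`R = 0` if it is empty). -/
def SpecSEL : Prop :=
  ∀ (K Z A C : Type v) [Field K] [Field Z] [AddCommGroup A] [Module K A] [Module.Finite K A]
    [AddCommGroup C] [Module Z C] [Module.Finite Z C] (ι : Type v) (a b : ι → A) (c : ι → C),
    ∃ (R : ℕ) (i : Fin R → ι), Submodule.span K (Set.range (a ∘ i)) = Submodule.span K (Set.range a) ∧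
      Submodule.span K (Set.range (b ∘ i)) = Submodule.span K (Set.range b) ∧
      Submodule.span Z (Set.range (c ∘ i)) = Submodule.span Z (Set.range c)

/-- **NIS** (400 lines; helper80). THE NILPOTENT STEP. -/
def SpecNIS : Prop :=
  ∀ (k : Type u) (H Z Q F2 R2 : Type v) [Field k] [IsAlgClosed k] [CharZero k] [Ring H] [IsDomain H]
    [HopfAlgebra k H]
    [Field Z] [Algebra k Z] [DivisionRing Q] [Algebra k Q] [Algebra Z Q] [IsScalarTower k Z Q]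
    [Field F2] [Algebra k F2] [Ring R2] [Algebra k R2] [Algebra F2 R2] [IsScalarTower k F2 R2]
    (ι : H →ₐ[k] Q) (jF : Z ⊗[k] Z →ₐ[k] F2) (j : Q ⊗[k] Q →ₐ[k] R2) (D : Q →ₐ[k] R2),
    IsCQ k H Z Q ι → IsR2 ι jF j D → Function.Bijective (antipode k (A := H)) →
    IsMK D (M2 Z F2 ι j D) (K2 Z F2 ι j D) →
    ∀ (E : IntermediateField k Z) (δ : E →ₐ[k] R2), IsDel D (K2 Z F2 ι j D) E δ →
      EG.HF0 k Z ι

end Pool.Agent.Lib.MP_c37a72_al.NI
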