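import Pool.Agent.Lib.MP_c37a72_al.CO.Spec
import Pool.Agent.Lib.MP_c37a72_al.LB.Spec
import Pool.Agent.Lib.MP_c37a72_al.EG.Spec
import Pool.Agent.Lib.MP_c37a72_al.SpecH
import Pool.Agent.Lib.MP_c37a72_al.PU.Spec
import Pool.Agent.Lib.MP_c37a72_al.NI.SpecN

section
/-!
# MP_c37a72_al, block KC (from the constancy package to `K_2`): definitions

`CPkg k Z ι ρ ψ θ`: `A` a right `H`-module algebra (`ρ h a = a ◁ h`), `ψ : O'' → A ⊗ P`, `θ γ ∈ Aut_H(A)`,
`(id ⊗ γ) ψ = (θ_γ ⊗ id) ψ`.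

* `eX Ω e = e ⊗ id : A ⊗ Ω → A ⊗ Ω`, `xX A x = id ⊗ x : A ⊗ P → A ⊗ Ω`, `rX ρ Ω h = ρ(h) ⊗ id`;
* `tau sQ : O'' ⊗ O'' → Q ⊗ Q`, `a ⊗ c ↦ a ⊗ sQ(c)`;
* `Nm ψ x y e : O'' ⊗ O'' → A ⊗ Ω`, `a ⊗ c ↦ (e ⊗ 1)(ψ_y(c)) ψ_x(a)`, `ψ_x = (id ⊗ x) ψ`;
* `IsRD sQ o r`: the descent elements `r_i(c) ∈ Rcom` of `CO.SpecDES`.
-/
set_option autoImplicit false

open scoped TensorProduct
open Coalgebra HopfAlgebra
open Pool.Agent.Lib.MP_c37a72_al.EG Pool.Agent.Lib.MP_c37a72_al.CO

namespace Pool.Agent.Lib.MP_c37a72_al.KC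

universe u v w

section A

variable {k : Type u} {H P Ω : Type v} {AA : Type w} [Field k] [Ring AA] [Algebra k AA] [Field P]
  [Algebra k P] [Field Ω] [Algebra k Ω]

/-- `e ⊗ id` on `A ⊗ Ω`. -/
noncomputable def eX (Ω : Type v) [Field Ω] [Algebra k Ω] (e : AA →ₐ[k] AA) :
    AA ⊗[k] Ω →ₐ[k] AA ⊗[k] Ω :=
  Algebra.TensorProduct.map e (AlgHom.id k Ω)

@[simp] theorem eX_tmul (e : AA →ₐ[k] AA) (a : AA) (ω : Ω) :
    eX Ω e (a ⊗ₜ[k] ω) = e a ⊗ₜ[k] ω := rfl

/-- `id ⊗ x : A ⊗ P → A ⊗ Ω`. -/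
noncomputable def xX (AA : Type w) [Ring AA] [Algebra k AA] (x : P →ₐ[k] Ω) :
    AA ⊗[k] P →ₐ[k] AA ⊗[k] Ω :=
  Algebra.TensorProduct.map (AlgHom.id k AA) x

@[simp] theorem xX_tmul (x : P →ₐ[k] Ω) (a : AA) (p : P) :
    xX AA x (a ⊗ₜ[k] p) = a ⊗ₜ[k] x p := rfl

/-- `ρ(h) ⊗ id` on `A ⊗ Ω`. -/
noncomputable def rX [Ring H] [HopfAlgebra k H] (ρ : H →ₗ[k] Module.End k AA) (Ω : Type v)
    [Field Ω] [Algebra k Ω] (h : H) : AA ⊗[k] Ω →ₗ[k] AA ⊗[k] Ω :=
  TensorProduct.map (ρ h) LinearMap.id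

@[simp] theorem rX_tmul [Ring H] [HopfAlgebra k H] (ρ : H →ₗ[k] Module.End k AA) (h : H) (a : AA)
    (ω : Ω) : rX ρ Ω h (a ⊗ₜ[k] ω) = ρ h a ⊗ₜ[k] ω := rfl

end A

section Q

variable (k : Type u) (Z : Type v) {H Q : Type v} [Field k] [Ring H] [HopfAlgebra k H]
  [Field Z] [Algebra k Z] [DivisionRing Q] [Algebra k Q] [Algebra Z Q] [IsScalarTower k Z Q]
  (ι : H →ₐ[k] Q)

/-- `a ⊗ c ↦ a ⊗ sQ(c)`. -/
noncomputable def tau (sQ : Q →ₗ[k] Q) :
    ↥(Opp k Z ι) ⊗[k] ↥(Opp k Z ι) →ₗ[k] Q ⊗[k] Q :=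
  TensorProduct.map ((Opp k Z ι).val.restrictScalars k).toLinearMap
    (sQ ∘ₗ ((Opp k Z ι).val.restrictScalars k).toLinearMap)

@[simp] theorem tau_tmul (sQ : Q →ₗ[k] Q) (a c : ↥(Opp k Z ι)) :
    tau k Z ι sQ (a ⊗ₜ[k] c) = (a : Q) ⊗ₜ[k] sQ (c : Q) := rfl

/-- `a ⊗ c ↦ (e ⊗ 1)(ψ_y(c)) · ψ_x(a)`. -/
noncomputable def Nm {AA : Type w} {P Ω : Type v} [Ring AA] [Algebra k AA] [Field P] [Algebra k P]
    [Field Ω] [Algebra k Ω] (ψ : ↥(Opp k Z ι) →ₐ[k] AA ⊗[k] P) (x y : P →ₐ[k] Ω)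
    (e : AA →ₐ[k] AA) : ↥(Opp k Z ι) ⊗[k] ↥(Opp k Z ι) →ₗ[k] AA ⊗[k] Ω :=
  LinearMap.mul' k (AA ⊗[k] Ω) ∘ₗ
    TensorProduct.map ((eX Ω e).comp ((xX AA y).comp ψ)).toLinearMap
      ((xX AA x).comp ψ).toLinearMap ∘ₗ
    (TensorProduct.comm k ↥(Opp k Z ι) ↥(Opp k Z ι)).toLinearMap

@[simp] theorem Nm_tmul {AA : Type w} {P Ω : Type v} [Ring AA] [Algebra k AA] [Field P]
    [Algebra k P] [Field Ω] [Algebra k Ω] (ψ : ↥(Opp k Z ι) →ₐ[k] AA ⊗[k] P) (x y : P →ₐ[k] Ω)
    (e : AA →ₐ[k] AA) (a c : ↥(Opp k Z ι)) :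
    Nm k Z ι ψ x y e (a ⊗ₜ[k] c) = eX Ω e (xX AA y (ψ c)) * xX AA x (ψ a) := rfl

/-- The elements `r_i(c) ∈ Rcom` with `1 ⊗ sQ(c) = ∑ r_i(c) (o_i ⊗ 1)` (`CO.SpecDES`). -/
structure IsRD (sQ : Q →ₗ[k] Q) {m : ℕ} (o : Module.Basis (Fin m) Z ↥(Opp k Z ι))
    (r : Fin m → ↥(Opp k Z ι) → Q ⊗[k] Q) : Prop where
  mem : ∀ i c, r i c ∈ Rcom k Z ι
  eq : ∀ (h : H) (c : ↥(Opp k Z ι)),
    ∑ i, r i c * (adrQ k Z ι h (o i : Q) ⊗ₜ[k] (1 : Q)) = 1 ⊗ₜ[k] sQ (adrQ k Z ι h (c : Q))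

end Q

end Pool.Agent.Lib.MP_c37a72_al.KC
end

section
/-!
# MP_c37a72_al, block LB, module E0X: existence of `E_0` and `E_r`
-/
set_option autoImplicit false

open scoped TensorProduct
open Coalgebra HopfAlgebra

namespace Pool.Agent.Lib.MP_c37a72_al.LB

universe u v w

namespace E0XM

theorem build {k : Type u} {H Z Q : Type v} [Field k] [Ring H] [HopfAlgebra k H] [Field Z]
    [Algebra k Z] [DivisionRing Q] [Algebra k Q] [Algebra Z Q] [IsScalarTower k Z Q]
    [Module.Finite Z Q] (ad : H →ₗ[k] Module.End Z Q) (O : Subalgebra Z Q)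
    (hlf : ∀ q ∈ O, Module.Finite k (Submodule.span k (Set.range fun h : H => ad h q)))
    (hst : ∀ (h : H), ∀ q ∈ O, ad h q ∈ O) (hone : ad 1 = 1)
    (hmul : ∀ g h : H, ∃ m : H, ∀ q, ad g (ad h q) = ad m q) :
    ∃ E : Submodule k Q, Module.Finite k E ∧ (1 : Q) ∈ E ∧ (∀ e ∈ E, e ∈ O) ∧
      (∀ (h : H), ∀ e ∈ E, ad h e ∈ E) ∧ ∀ q ∈ O, q ∈ Submodule.span Z (E : Set Q) := by
  have : Module.Finite Z ↥(Subalgebra.toSubmodule O) := inferInstance
  obtain ⟨s, b, hb⟩ := (Submodule.fg_iff_exists_fin_generating_family).1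
    ((Submodule.fg_iff_finiteDimensional _).2 ‹_› : (Subalgebra.toSubmodule O).FG)
  have hbO : ∀ l, b l ∈ O := fun l => by
    have : b l ∈ Subalgebra.toSubmodule O := hb ▸ Submodule.subset_span ⟨l, rfl⟩
    exact this
  obtain ⟨b', hn, hs⟩ : ∃ b' : Option (Fin s) → Q, b' none = 1 ∧ ∀ l, b' (some l) = b l :=
    ⟨fun o => o.elim 1 b, rfl, fun _ => rfl⟩
  have hb'O : ∀ o, b' o ∈ O := by
    rintro (_ | l)
    · rw [hn]; exact O.one_mem
    · rw [hs]; exact hbO l
  obtain ⟨W₀, hW₀⟩ : ∃ W₀ : Submodule k Q,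
      W₀ = ⨆ o, Submodule.span k (Set.range fun h : H => ad h (b' o)) := ⟨_, rfl⟩
  have hfin : Module.Finite k W₀ := by
    rw [hW₀]
    have : ∀ o, Module.Finite k (Submodule.span k (Set.range fun h : H => ad h (b' o))) :=
      fun o => hlf _ (hb'O o)
    exact Submodule.finiteDimensional_iSup _
  have hbW : ∀ o, b' o ∈ W₀ := fun o => by
    rw [hW₀]
    refine Submodule.mem_iSup_of_mem o (Submodule.subset_span ⟨1, ?_⟩)
    simp [hone]
  have hWO : ∀ q ∈ W₀, q ∈ O := by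
    intro q hq
    have hle : W₀ ≤ (Subalgebra.toSubmodule O).restrictScalars k := by
      rw [hW₀]
      refine iSup_le fun o => Submodule.span_le.2 ?_
      rintro _ ⟨h, rfl⟩
      exact hst h _ (hb'O o)
    exact hle hq
  have hWs : ∀ (g : H), ∀ q ∈ W₀, ad g q ∈ W₀ := by
    intro g q hq
    have hle : W₀ ≤ W₀.comap ((ad g).restrictScalars k) := by
      conv_lhs => rw [hW₀]
      refine iSup_le fun o => Submodule.span_le.2 ?_
      rintro _ ⟨h, rfl⟩
      change ad g (ad h (b' o)) ∈ W₀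
      obtain ⟨m, hm⟩ := hmul g h
      rw [hm, hW₀]
      exact Submodule.mem_iSup_of_mem o (Submodule.subset_span ⟨m, rfl⟩)
    exact hle hq
  refine ⟨W₀, hfin, ?_, hWO, hWs, fun q hq => ?_⟩
  · have := hbW none
    rwa [hn] at this
  · have hq' : q ∈ Submodule.span Z (Set.range b) := by rw [hb]; exact hq
    refine (Submodule.span_mono ?_) hq'
    rintro _ ⟨l, rfl⟩
    have := hbW (some l)
    rwa [hs] at this

end E0XM

theorem specE0X (hADA : EG.SpecADA.{u, v}) (hOLF : EG.SpecOLF.{u, v}) : SpecE0X.{u, v} := by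
  intro k H Z Q _ _ _ _ _ _ _ _ _ ι hQ
  obtain ⟨⟨hl1, hr1⟩, hmul, -, -⟩ := hADA k H Z Q ι
  obtain ⟨hlf, hrf, -, -, hlst, hrst, -⟩ := hOLF k H Z Q ι hQ
  have := hQ.fin
  obtain ⟨El, l1, l2, l3, l4, l5⟩ := E0XM.build (EG.adlQ k Z ι) (EG.Ol k Z ι)
    (fun q hq => (hlf q).1 hq) hlst hl1 (fun g h => ⟨g * h, fun q => by
      rw [(hmul g h).1]; rfl⟩)
  obtain ⟨Er, r1, r2, r3, r4, r5⟩ := E0XM.build (EG.adrQ k Z ι) (EG.Or k Z ι)
    (fun q hq => (hrf q).1 hq) hrst hr1 (fun g h => ⟨h * g, fun q => by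
      rw [(hmul h g).2]; rfl⟩)
  exact ⟨El, Er, ⟨l1, l2, l3, l4, l5⟩, ⟨r1, r2, r3, r4, r5⟩⟩

end Pool.Agent.Lib.MP_c37a72_al.LB
end

section
/-!
# MP_c37a72_al, block LB, module LEG: legs of locally finite elements of `H`
-/
set_option autoImplicit false

open scoped TensorProduct
open Coalgebra HopfAlgebra WithConv

namespace Pool.Agent.Lib.MP_c37a72_al.LB

universe u v w

namespace LEGM

section Conv

variable {k : Type u} {H : Type v} {A : Type w} [Field k] [Ring H] [HopfAlgebra k H] [Ring A]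
  [Algebra k A]

/-- every tensor is a finite sum -/
lemma exists_fin {M N : Type*} [AddCommGroup M] [Module k M] [AddCommGroup N] [Module k N]
    (t : M ⊗[k] N) : ∃ (n : ℕ) (x : Fin n → M) (y : Fin n → N), t = ∑ i, x i ⊗ₜ[k] y i := by
  induction t with
  | zero => exact ⟨0, Fin.elim0, Fin.elim0, by simp⟩
  | tmul a b => exact ⟨1, fun _ => a, fun _ => b, by simp⟩
  | add s t hs ht =>
    obtain ⟨n, x, y, e⟩ := hs
    obtain ⟨m, x', y', e'⟩ := ht
    refine ⟨n + m, Fin.append x x', Fin.append y y', ?_⟩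
    rw [Fin.sum_univ_add, e, e']
    simp

lemma conv_app {n : ℕ} {h : H} {x y : Fin n → H} (e : comul (R := k) h = ∑ i, x i ⊗ₜ[k] y i)
    (f g : WithConv (H →ₗ[k] A)) : (f * g) h = ∑ i, f (x i) * g (y i) := by
  rw [LinearMap.convMul_apply, e, map_sum, map_sum]
  rfl

lemma inv_right (j : H →ₐ[k] A) :
    toConv j.toLinearMap * toConv (j.toLinearMap ∘ₗ antipode k) = 1 := by
  ext h
  obtain ⟨n, x, y, e⟩ := exists_fin (comul (R := k) h)
  have h1 : (toConv (LinearMap.id : H →ₗ[k] H) * toConv (antipode k (A := H))) h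
      = (1 : WithConv (H →ₗ[k] H)) h := by rw [LinearMap.id_mul_antipode]
  rw [conv_app e] at h1
  have h2 := congrArg j h1
  rw [map_sum] at h2
  change (toConv j.toLinearMap * toConv (j.toLinearMap ∘ₗ antipode k)) h
    = (1 : WithConv (H →ₗ[k] A)) h
  rw [conv_app e]
  simp only [map_mul, LinearMap.convOne_apply, AlgHom.commutes] at h2 ⊢
  exact h2

lemma inv_left (j : H →ₐ[k] A) :
    toConv (j.toLinearMap ∘ₗ antipode k) * toConv j.toLinearMap = 1 := by
  ext h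
  obtain ⟨n, x, y, e⟩ := exists_fin (comul (R := k) h)
  have h1 : (toConv (antipode k (A := H)) * toConv (LinearMap.id : H →ₗ[k] H)) h
      = (1 : WithConv (H →ₗ[k] H)) h := by rw [LinearMap.antipode_mul_id]
  rw [conv_app e] at h1
  have h2 := congrArg j h1
  rw [map_sum] at h2
  change (toConv (j.toLinearMap ∘ₗ antipode k) * toConv j.toLinearMap) h
    = (1 : WithConv (H →ₗ[k] A)) h
  rw [conv_app e]
  simp only [map_mul, LinearMap.convOne_apply, AlgHom.commutes] at h2 ⊢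
  exact h2

/-- left multiplication by `w` -/
noncomputable def lm (w : A) (f : WithConv (H →ₗ[k] A)) : WithConv (H →ₗ[k] A) :=
  toConv (LinearMap.mulLeft k w ∘ₗ f.ofConv)

lemma lm_apply (w : A) (f : WithConv (H →ₗ[k] A)) (h : H) : lm w f h = w * f h := rfl

lemma lm_mul (w : A) (f g : WithConv (H →ₗ[k] A)) : lm w (f * g) = lm w f * g := by
  ext h
  obtain ⟨n, x, y, e⟩ := exists_fin (comul (R := k) h)
  change lm w (f * g) h = (lm w f * g) h
  rw [lm_apply, conv_app e, conv_app e, Finset.mul_sum]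
  simp only [lm_apply, mul_assoc]

end Conv

section Hopf

variable {k : Type u} {H : Type v} [Field k] [Ring H] [HopfAlgebra k H]

/-- `a ↦ a ⊗ 1` -/
noncomputable abbrev i1 : H →ₐ[k] H ⊗[k] H := Algebra.TensorProduct.includeLeft
/-- `a ↦ 1 ⊗ a` -/
noncomputable abbrev i2 : H →ₐ[k] H ⊗[k] H := Algebra.TensorProduct.includeRight
/-- `Δ` -/
noncomputable abbrev dH : H →ₐ[k] H ⊗[k] H := Bialgebra.comulAlgHom k H

noncomputable abbrev j1 : WithConv (H →ₗ[k] H ⊗[k] H) := toConv (i1 (k := k) (H := H)).toLinearMap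
noncomputable abbrev j2 : WithConv (H →ₗ[k] H ⊗[k] H) := toConv (i2 (k := k) (H := H)).toLinearMap
noncomputable abbrev jD : WithConv (H →ₗ[k] H ⊗[k] H) := toConv (dH (k := k) (H := H)).toLinearMap
noncomputable abbrev j1S : WithConv (H →ₗ[k] H ⊗[k] H) :=
  toConv ((i1 (k := k) (H := H)).toLinearMap ∘ₗ antipode k)
noncomputable abbrev j2S : WithConv (H →ₗ[k] H ⊗[k] H) :=
  toConv ((i2 (k := k) (H := H)).toLinearMap ∘ₗ antipode k)
noncomputable abbrev jDS : WithConv (H →ₗ[k] H ⊗[k] H) :=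
  toConv ((dH (k := k) (H := H)).toLinearMap ∘ₗ antipode k)

lemma j1_apply (a : H) : j1 (k := k) a = a ⊗ₜ[k] 1 := rfl
lemma j2_apply (a : H) : j2 (k := k) a = 1 ⊗ₜ[k] a := rfl
lemma jD_apply (a : H) : jD (k := k) a = comul a := rfl
lemma j1S_apply (a : H) : j1S (k := k) a = antipode k a ⊗ₜ[k] 1 := rfl
lemma j2S_apply (a : H) : j2S (k := k) a = 1 ⊗ₜ[k] antipode k a := rfl
lemma jDS_apply (a : H) : jDS (k := k) a = comul (antipode k a) := rfl

lemma jD_eq : jD (k := k) (H := H) = j1 * j2 := by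
  ext h
  obtain ⟨n, x, y, e⟩ := exists_fin (comul (R := k) h)
  change jD (k := k) h = (j1 * j2 : WithConv (H →ₗ[k] H ⊗[k] H)) h
  rw [conv_app e, jD_apply, e]
  refine Finset.sum_congr rfl fun i _ => ?_
  change _ = (x i ⊗ₜ[k] (1 : H)) * ((1 : H) ⊗ₜ[k] y i)
  rw [Algebra.TensorProduct.tmul_mul_tmul, mul_one, one_mul]

lemma jDS_eq : jDS (k := k) (H := H) = j2S * j1S := by
  have h1 : jD (k := k) (H := H) * (j2S * j1S) = 1 := by
    rw [jD_eq]
    calc (j1 * j2 * (j2S * j1S) : WithConv (H →ₗ[k] H ⊗[k] H)) = j1 * ((j2 * j2S) * j1S) := by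
          simp only [mul_assoc]
      _ = 1 := by rw [inv_right, one_mul, inv_right]
  calc jDS (k := k) (H := H) = jDS * (jD * (j2S * j1S)) := by rw [h1, mul_one]
    _ = (jDS * jD) * (j2S * j1S) := by rw [mul_assoc]
    _ = _ := by rw [inv_left, one_mul]

/-- `g ↦ S(g₁) v g₂` -/
noncomputable def aR (v : H) : WithConv (H →ₗ[k] H) :=
  toConv (antipode k (A := H)) * lm v (toConv (LinearMap.id : H →ₗ[k] H))

/-- `g ↦ g₁ v S(g₂)` -/
noncomputable def aL (v : H) : WithConv (H →ₗ[k] H) :=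
  toConv (LinearMap.id : H →ₗ[k] H) * lm v (toConv (antipode k (A := H)))

lemma aR_eq {n : ℕ} {g : H} {x y : Fin n → H} (e : comul (R := k) g = ∑ i, x i ⊗ₜ[k] y i) (v : H) :
    aR (k := k) v g = ∑ i, antipode k (x i) * v * y i := by
  rw [aR, conv_app e]
  simp only [lm_apply, mul_assoc]
  rfl

lemma aL_eq {n : ℕ} {g : H} {x y : Fin n → H} (e : comul (R := k) g = ∑ i, x i ⊗ₜ[k] y i) (v : H) :
    aL (k := k) v g = ∑ i, x i * v * antipode k (y i) := by
  rw [aL, conv_app e]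
  simp only [lm_apply, mul_assoc]
  rfl

/-- `id ⊗ φ` -/
noncomputable def sq (φ : H →ₗ[k] k) : H ⊗[k] H →ₗ[k] H :=
  (TensorProduct.rid k H).toLinearMap ∘ₗ LinearMap.lTensor H φ

/-- `φ ⊗ id` -/
noncomputable def sp (φ : H →ₗ[k] k) : H ⊗[k] H →ₗ[k] H :=
  (TensorProduct.lid k H).toLinearMap ∘ₗ LinearMap.rTensor H φ

@[simp] lemma sq_tmul (φ : H →ₗ[k] k) (a b : H) : sq φ (a ⊗ₜ[k] b) = φ b • a := by
  simp [sq]

@[simp] lemma sp_tmul (φ : H →ₗ[k] k) (a b : H) : sp φ (a ⊗ₜ[k] b) = φ a • b := by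
  simp [sp]

lemma sq_mid (φ : H →ₗ[k] k) (x y : H) (w : H ⊗[k] H) :
    sq φ ((x ⊗ₜ[k] (1 : H)) * (w * (y ⊗ₜ[k] (1 : H)))) = x * sq φ w * y := by
  induction w with
  | zero => simp
  | tmul a b => simp [mul_assoc]
  | add s t hs ht => simp only [add_mul, mul_add, map_add, hs, ht]

lemma sp_mid (φ : H →ₗ[k] k) (x y : H) (w : H ⊗[k] H) :
    sp φ (((1 : H) ⊗ₜ[k] x) * (w * ((1 : H) ⊗ₜ[k] y))) = x * sp φ w * y := by
  induction w with
  | zero => simp
  | tmul a b => simp [mul_assoc]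
  | add s t hs ht => simp only [add_mul, mul_add, map_add, hs, ht]

lemma sq_out_l (φ : H →ₗ[k] k) (x : H) (w : H ⊗[k] H) :
    sq φ (((1 : H) ⊗ₜ[k] x) * w) = sq (φ ∘ₗ LinearMap.mulLeft k x) w := by
  induction w with
  | zero => simp
  | tmul a b => simp
  | add s t hs ht => simp only [mul_add, map_add, hs, ht]

lemma sq_out_r (φ : H →ₗ[k] k) (x : H) (w : H ⊗[k] H) :
    sq φ (w * ((1 : H) ⊗ₜ[k] x)) = sq (φ ∘ₗ LinearMap.mulRight k x) w := by
  induction w with
  | zero => simp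
  | tmul a b => simp
  | add s t hs ht => simp only [add_mul, map_add, hs, ht]

lemma sp_out_l (φ : H →ₗ[k] k) (x : H) (w : H ⊗[k] H) :
    sp φ ((x ⊗ₜ[k] (1 : H)) * w) = sp (φ ∘ₗ LinearMap.mulLeft k x) w := by
  induction w with
  | zero => simp
  | tmul a b => simp
  | add s t hs ht => simp only [mul_add, map_add, hs, ht]

lemma sp_out_r (φ : H →ₗ[k] k) (x : H) (w : H ⊗[k] H) :
    sp φ (w * (x ⊗ₜ[k] (1 : H))) = sp (φ ∘ₗ LinearMap.mulRight k x) w := by
  induction w with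
  | zero => simp
  | tmul a b => simp
  | add s t hs ht => simp only [add_mul, map_add, hs, ht]

/-- `g ↦ Δ(v ◁ g)` -/
lemma F_R (v : H) : toConv ((dH (k := k) (H := H)).toLinearMap ∘ₗ (aR (k := k) v).ofConv)
    = jDS * lm (comul (R := k) v) jD := by
  ext g
  obtain ⟨n, x, y, e⟩ := exists_fin (comul (R := k) g)
  change comul (R := k) (aR (k := k) v g) =
    (jDS * lm (comul (R := k) v) jD : WithConv (H →ₗ[k] H ⊗[k] H)) g
  rw [conv_app e, aR_eq e, map_sum]
  refine Finset.sum_congr rfl fun i _ => ?_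
  rw [lm_apply, jDS_apply, jD_apply, Bialgebra.comul_mul, Bialgebra.comul_mul, mul_assoc]

lemma F_L (v : H) : toConv ((dH (k := k) (H := H)).toLinearMap ∘ₗ (aL (k := k) v).ofConv)
    = jD * lm (comul (R := k) v) jDS := by
  ext g
  obtain ⟨n, x, y, e⟩ := exists_fin (comul (R := k) g)
  change comul (R := k) (aL (k := k) v g) =
    (jD * lm (comul (R := k) v) jDS : WithConv (H →ₗ[k] H ⊗[k] H)) g
  rw [conv_app e, aL_eq e, map_sum]
  refine Finset.sum_congr rfl fun i _ => ?_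
  rw [lm_apply, jDS_apply, jD_apply, Bialgebra.comul_mul, Bialgebra.comul_mul, mul_assoc]

/-- `(v₁ ◁ g) ⊗ v₂ = (1 ⊗ g₁) Δ(v ◁ g₂)(1 ⊗ S(g₃))` -/
lemma G_R (v : H) : (j1S * lm (comul (R := k) v) j1 : WithConv (H →ₗ[k] H ⊗[k] H))
    = j2 * toConv ((dH (k := k) (H := H)).toLinearMap ∘ₗ (aR (k := k) v).ofConv) * j2S := by
  rw [F_R, jDS_eq, jD_eq, lm_mul]
  calc (j1S * lm (comul (R := k) v) j1 : WithConv (H →ₗ[k] H ⊗[k] H))
      = (j2 * j2S) * (j1S * lm (comul (R := k) v) j1) * (j2 * j2S) := by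
        rw [inv_right, one_mul, mul_one]
    _ = _ := by simp only [mul_assoc]

/-- `v₁ ⊗ (g ▷ v₂) = (S(g₁) ⊗ 1) Δ(g₂ ▷ v)(g₃ ⊗ 1)` -/
lemma G_L (v : H) : (j2 * lm (comul (R := k) v) j2S : WithConv (H →ₗ[k] H ⊗[k] H))
    = j1S * toConv ((dH (k := k) (H := H)).toLinearMap ∘ₗ (aL (k := k) v).ofConv) * j1 := by
  rw [F_L, jDS_eq, jD_eq, lm_mul]
  calc (j2 * lm (comul (R := k) v) j2S : WithConv (H →ₗ[k] H ⊗[k] H))
      = (j1S * j1) * (j2 * lm (comul (R := k) v) j2S) * (j1S * j1) := by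
        rw [inv_left, one_mul, mul_one]
    _ = _ := by simp only [mul_assoc]

lemma mem_R (v : H) (V : Submodule k H)
    (hV : ∀ (c : H) (φ : H →ₗ[k] k), sq φ (comul (R := k) (aR (k := k) v c)) ∈ V)
    (φ : H →ₗ[k] k) (g : H) : aR (k := k) (sq φ (comul (R := k) v)) g ∈ V := by
  obtain ⟨n, x, y, e⟩ := exists_fin (comul (R := k) g)
  have h1 : aR (k := k) (sq φ (comul (R := k) v)) g
      = sq φ ((j1S * lm (comul (R := k) v) j1 : WithConv (H →ₗ[k] H ⊗[k] H)) g) := by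
    rw [aR_eq e, conv_app e, map_sum]
    refine Finset.sum_congr rfl fun i _ => ?_
    rw [lm_apply, j1S_apply, j1_apply, sq_mid]
  rw [h1, G_R, conv_app e, map_sum]
  refine Submodule.sum_mem _ fun i _ => ?_
  rw [j2S_apply, sq_out_r]
  obtain ⟨m, p, q, e'⟩ := exists_fin (comul (R := k) (x i))
  rw [conv_app e', map_sum]
  refine Submodule.sum_mem _ fun l _ => ?_
  rw [j2_apply, sq_out_l]
  exact hV _ _

lemma mem_L (v : H) (V : Submodule k H)
    (hV : ∀ (c : H) (φ : H →ₗ[k] k), sp φ (comul (R := k) (aL (k := k) v c)) ∈ V)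
    (φ : H →ₗ[k] k) (g : H) : aL (k := k) (sp φ (comul (R := k) v)) g ∈ V := by
  obtain ⟨n, x, y, e⟩ := exists_fin (comul (R := k) g)
  have h1 : aL (k := k) (sp φ (comul (R := k) v)) g
      = sp φ ((j2 * lm (comul (R := k) v) j2S : WithConv (H →ₗ[k] H ⊗[k] H)) g) := by
    rw [aL_eq e, conv_app e, map_sum]
    refine Finset.sum_congr rfl fun i _ => ?_
    rw [lm_apply, j2_apply, j2S_apply, sp_mid]
  rw [h1, G_L, conv_app e, map_sum]
  refine Submodule.sum_mem _ fun i _ => ?_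
  rw [j1_apply, sp_out_r]
  obtain ⟨m, p, q, e'⟩ := exists_fin (comul (R := k) (x i))
  rw [conv_app e', map_sum]
  refine Submodule.sum_mem _ fun l _ => ?_
  rw [j1S_apply, sp_out_l]
  exact hV _ _

/-- the legs of a finite-dimensional space span a finite-dimensional space -/
lemma legs (V : Submodule k H) (hV : Module.Finite k V) :
    ∃ P : Submodule k H, Module.Finite k P ∧ ∀ v ∈ V, ∀ φ : H →ₗ[k] k,
      sq φ (comul (R := k) v) ∈ P ∧ sp φ (comul (R := k) v) ∈ P := by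
  obtain ⟨s, hs⟩ := (Module.Finite.iff_fg.1 hV)
  have h1 : ∀ v : H, ∃ (n : ℕ) (x : Fin n → H) (y : Fin n → H),
      comul (R := k) v = ∑ i, x i ⊗ₜ[k] y i := fun v => exists_fin _
  choose n x y e using h1
  let T : Set H := ⋃ v ∈ (s : Set H), (Set.range (x v) ∪ Set.range (y v))
  have hT : T.Finite := s.finite_toSet.biUnion fun v _ => (Set.finite_range _).union (Set.finite_range _)
  refine ⟨Submodule.span k T, Module.Finite.iff_fg.2 ⟨hT.toFinset, by simp⟩, ?_⟩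
  intro v hv φ
  rw [← hs] at hv
  refine Submodule.span_induction (p := fun v _ => sq φ (comul (R := k) v) ∈ Submodule.span k T ∧
    sp φ (comul (R := k) v) ∈ Submodule.span k T) ?_ ?_ ?_ ?_ hv
  · intro v hv
    rw [e v]
    simp only [map_sum, sq_tmul, sp_tmul]
    constructor
    · refine Submodule.sum_mem _ fun i _ => Submodule.smul_mem _ _ (Submodule.subset_span ?_)
      exact Set.mem_biUnion hv (Or.inl ⟨i, rfl⟩)
    · refine Submodule.sum_mem _ fun i _ => Submodule.smul_mem _ _ (Submodule.subset_span ?_)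
      exact Set.mem_biUnion hv (Or.inr ⟨i, rfl⟩)
  · simp
  · intro a b _ _ ha hb
    simp only [map_add]
    exact ⟨Submodule.add_mem _ ha.1 hb.1, Submodule.add_mem _ ha.2 hb.2⟩
  · intro c a _ ha
    simp only [map_smul]
    exact ⟨Submodule.smul_mem _ _ ha.1, Submodule.smul_mem _ _ ha.2⟩

/-- dual functionals of an independent family -/
lemma dual {n : ℕ} {y : Fin n → H} (hy : LinearIndependent k y) (i : Fin n) :
    ∃ φ : H →ₗ[k] k, ∀ l, φ (y l) = if l = i then 1 else 0 := by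
  have h1 : LinearMap.ker (Fintype.linearCombination k y) = ⊥ :=
    LinearMap.ker_eq_bot.2 (hy.fintypeLinearCombination_injective)
  obtain ⟨g, hg⟩ := (Fintype.linearCombination k y).exists_leftInverse_of_injective h1
  refine ⟨LinearMap.proj i ∘ₗ g, fun l => ?_⟩
  have h2 : y l = Fintype.linearCombination k y (Pi.single l 1) := by
    rw [Fintype.linearCombination_apply_single, one_smul]
  rw [LinearMap.comp_apply, h2]
  have h3 := LinearMap.congr_fun hg (Pi.single l 1)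
  rw [LinearMap.comp_apply] at h3
  rw [h3]
  simp [Pi.single_apply, eq_comm]

/-- `aR v` has finite-dimensional range -/
def FR (v : H) : Prop := ∃ V : Submodule k H, Module.Finite k V ∧ ∀ g, aR (k := k) v g ∈ V
def FL (v : H) : Prop := ∃ V : Submodule k H, Module.Finite k V ∧ ∀ g, aL (k := k) v g ∈ V

lemma FR_leg {v : H} (hv : FR (k := k) v) (φ : H →ₗ[k] k) : FR (k := k) (sq φ (comul (R := k) v)) := by
  obtain ⟨V, hV, hVm⟩ := hv
  obtain ⟨P, hP, hPm⟩ := legs V hV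
  exact ⟨P, hP, fun g => mem_R v P (fun c ψ => (hPm _ (hVm c) ψ).1) φ g⟩

lemma FL_leg {v : H} (hv : FL (k := k) v) (φ : H →ₗ[k] k) : FL (k := k) (sp φ (comul (R := k) v)) := by
  obtain ⟨V, hV, hVm⟩ := hv
  obtain ⟨P, hP, hPm⟩ := legs V hV
  exact ⟨P, hP, fun g => mem_L v P (fun c ψ => (hPm _ (hVm c) ψ).2) φ g⟩

end Hopf

section Main

variable {k : Type u} {H Z Q : Type v} [Field k] [Ring H] [HopfAlgebra k H] [Field Z]
    [Algebra k Z] [DivisionRing Q] [Algebra k Q] [Algebra Z Q] [IsScalarTower k Z Q]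
    {ι : H →ₐ[k] Q}

lemma ad_R (g v : H) : EG.adrQ k Z ι g (ι v) = ι (aR (k := k) v g) := by
  obtain ⟨n, x, y, e⟩ := exists_fin (comul (R := k) g)
  rw [EG.adrQ_eq k Z ι e, aR_eq e, map_sum]
  simp only [map_mul]

lemma ad_L (g v : H) : EG.adlQ k Z ι g (ι v) = ι (aL (k := k) v g) := by
  obtain ⟨n, x, y, e⟩ := exists_fin (comul (R := k) g)
  rw [EG.adlQ_eq k Z ι e, aL_eq e, map_sum]
  simp only [map_mul]

lemma comul_S (hHAN : SpecHAN.{u, v}) {n : ℕ} {g : H} {x y : Fin n → H}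
    (e : comul (R := k) g = ∑ i, x i ⊗ₜ[k] y i) :
    comul (R := k) (antipode k g) = ∑ i, antipode k (y i) ⊗ₜ[k] antipode k (x i) := by
  rw [hHAN k H g, e]
  simp only [map_sum, TensorProduct.map_tmul, TensorProduct.comm_tmul]

lemma ad_LS (hHAN : SpecHAN.{u, v}) (g v : H) :
    EG.adlQ k Z ι (antipode k g) (ι (antipode k v)) = ι (antipode k (aR (k := k) v g)) := by
  obtain ⟨n, x, y, e⟩ := exists_fin (comul (R := k) g)
  rw [EG.adlQ_eq k Z ι (comul_S hHAN e), aR_eq e, map_sum, map_sum]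
  refine Finset.sum_congr rfl fun i _ => ?_
  rw [antipode_mul_antidistrib, antipode_mul_antidistrib, map_mul, map_mul, mul_assoc]

lemma ad_RS (hHAN : SpecHAN.{u, v}) (g v : H) :
    EG.adrQ k Z ι (antipode k g) (ι (antipode k v)) = ι (antipode k (aL (k := k) v g)) := by
  obtain ⟨n, x, y, e⟩ := exists_fin (comul (R := k) g)
  rw [EG.adrQ_eq k Z ι (comul_S hHAN e), aL_eq e, map_sum, map_sum]
  refine Finset.sum_congr rfl fun i _ => ?_
  rw [antipode_mul_antidistrib, antipode_mul_antidistrib, map_mul, map_mul, mul_assoc]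

lemma fin_of_le (f : H →ₗ[k] Q) (V : Submodule k H) (hV : Module.Finite k V) (w : H → Q)
    (h : ∀ g, ∃ a ∈ V, f a = w g) : Module.Finite k (Submodule.span k (Set.range w)) := by
  have h1 : Submodule.span k (Set.range w) ≤ V.map f := by
    rw [Submodule.span_le]
    rintro _ ⟨g, rfl⟩
    obtain ⟨a, ha, e⟩ := h g
    exact ⟨a, ha, e⟩
  have h2 : (V.map f).FG := (Module.Finite.iff_fg.1 hV).map f
  have h3 : Module.Finite k (V.map f) := Module.Finite.iff_fg.2 h2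
  exact Module.Finite.of_injective (Submodule.inclusion h1) (Submodule.inclusion_injective h1)

lemma FR_of (hι : Function.Injective ι) {v : H} (h : EG.LFr k Z ι (ι v)) : FR (k := k) v := by
  refine ⟨Submodule.span k (Set.range fun g => aR (k := k) v g), ?_,
    fun g => Submodule.subset_span ⟨g, rfl⟩⟩
  have h1 : (Submodule.span k (Set.range fun g => aR (k := k) v g)).map ι.toLinearMap
      = Submodule.span k (Set.range fun h : H => EG.adrQ k Z ι h (ι v)) := by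
    rw [Submodule.map_span, ← Set.range_comp]
    congr 2
    funext g
    exact (ad_R g v).symm
  have h2 : Module.Finite k ((Submodule.span k (Set.range fun g => aR (k := k) v g)).map
      ι.toLinearMap) := by rw [h1]; exact h
  exact Module.Finite.equiv (Submodule.equivMapOfInjective ι.toLinearMap hι _).symm

lemma FL_of (hι : Function.Injective ι) {v : H} (h : EG.LFl k Z ι (ι v)) : FL (k := k) v := by
  refine ⟨Submodule.span k (Set.range fun g => aL (k := k) v g), ?_,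
    fun g => Submodule.subset_span ⟨g, rfl⟩⟩
  have h1 : (Submodule.span k (Set.range fun g => aL (k := k) v g)).map ι.toLinearMap
      = Submodule.span k (Set.range fun h : H => EG.adlQ k Z ι h (ι v)) := by
    rw [Submodule.map_span, ← Set.range_comp]
    congr 2
    funext g
    exact (ad_L g v).symm
  have h2 : Module.Finite k ((Submodule.span k (Set.range fun g => aL (k := k) v g)).map
      ι.toLinearMap) := by rw [h1]; exact h
  exact Module.Finite.equiv (Submodule.equivMapOfInjective ι.toLinearMap hι _).symm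

lemma to_R {v : H} (h : FR (k := k) v) : EG.LFr k Z ι (ι v) := by
  obtain ⟨V, hV, hVm⟩ := h
  exact fin_of_le ι.toLinearMap V hV _ fun g => ⟨_, hVm g, (ad_R g v).symm⟩

lemma to_L {v : H} (h : FL (k := k) v) : EG.LFl k Z ι (ι v) := by
  obtain ⟨V, hV, hVm⟩ := h
  exact fin_of_le ι.toLinearMap V hV _ fun g => ⟨_, hVm g, (ad_L g v).symm⟩

lemma to_LS (hHAN : SpecHAN.{u, v}) (hS : Function.Surjective (antipode k (A := H))) {v : H}
    (h : FR (k := k) v) : EG.LFl k Z ι (ι (antipode k v)) := by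
  obtain ⟨V, hV, hVm⟩ := h
  refine fin_of_le (ι.toLinearMap ∘ₗ antipode k) V hV _ fun g => ?_
  obtain ⟨g', rfl⟩ := hS g
  exact ⟨_, hVm g', (ad_LS hHAN g' v).symm⟩

lemma to_RS (hHAN : SpecHAN.{u, v}) (hS : Function.Surjective (antipode k (A := H))) {v : H}
    (h : FL (k := k) v) : EG.LFr k Z ι (ι (antipode k v)) := by
  obtain ⟨V, hV, hVm⟩ := h
  refine fin_of_le (ι.toLinearMap ∘ₗ antipode k) V hV _ fun g => ?_
  obtain ⟨g', rfl⟩ := hS g
  exact ⟨_, hVm g', (ad_RS hHAN g' v).symm⟩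

end Main

end LEGM

open LEGM in
theorem specLEG (hOLF : EG.SpecOLF.{u, v}) (hHAN : SpecHAN.{u, v}) : SpecLEG.{u, v} := by
  intro k H Z Q _ _ _ _ _ _ _ _ _ ι hQ hS h n x y e
  obtain ⟨hl, hr, -⟩ := hOLF k H Z Q ι hQ
  constructor
  · intro hh hy i
    obtain ⟨φ, hφ⟩ := dual hy i
    have h1 : sq φ (comul (R := k) h) = x i := by
      rw [e, map_sum]
      simp [hφ]
    have h2 : FR (k := k) (x i) := by
      rw [← h1]
      exact FR_leg (FR_of hQ.inj ((hr _).1 hh)) φ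
    exact ⟨(hr _).2 (to_R h2), (hl _).2 (to_LS hHAN hS.2 h2)⟩
  · intro hh hx i
    obtain ⟨φ, hφ⟩ := dual hx i
    have h1 : sp φ (comul (R := k) h) = y i := by
      rw [e, map_sum]
      simp [hφ]
    have h2 : FL (k := k) (y i) := by
      rw [← h1]
      exact FL_leg (FL_of hQ.inj ((hl _).1 hh)) φ
    exact ⟨(hl _).2 (to_L h2), (hr _).2 (to_RS hHAN hS.2 h2)⟩

end Pool.Agent.Lib.MP_c37a72_al.LB
end

section
/-!
# MP_c37a72_al, block LB, module M2D: `M2` is spanned by `(E_0 ⊗ 1) D(Q)` and by `(1 ⊗ E_r) D(Q)`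
-/
set_option autoImplicit false
set_option linter.unusedSectionVars false

open scoped TensorProduct
open Coalgebra HopfAlgebra WithConv

namespace Pool.Agent.Lib.MP_c37a72_al.LB

universe u v w

namespace M2DM

section Gen

/-- representation of a tensor with independent right legs -/
theorem repr_right {k M N : Type*} [Field k] [AddCommGroup M] [Module k M] [AddCommGroup N]
    [Module k N] (t : M ⊗[k] N) : ∃ (n : ℕ) (x : Fin n → M) (y : Fin n → N),
      LinearIndependent k y ∧ t = ∑ i, x i ⊗ₜ[k] y i := by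
  classical
  let B := Module.Basis.ofVectorSpace k N
  obtain ⟨b, hb⟩ := TensorProduct.eq_repr_basis_right B t
  let e := b.support.equivFin
  refine ⟨b.support.card, fun i => b (e.symm i), fun i => B (e.symm i), ?_, ?_⟩
  · exact B.linearIndependent.comp (fun i => ((e.symm i : b.support) : _))
      (fun i j h => e.symm.injective (Subtype.ext h))
  · rw [← hb, Finsupp.sum, ← Finset.sum_coe_sort b.support (fun i => b i ⊗ₜ[k] B i)]
    exact (Equiv.sum_comp e.symm (fun i : b.support => b i ⊗ₜ[k] B i)).symm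

/-- representation of a tensor with independent left legs -/
theorem repr_left {k M N : Type*} [Field k] [AddCommGroup M] [Module k M] [AddCommGroup N]
    [Module k N] (t : M ⊗[k] N) : ∃ (n : ℕ) (x : Fin n → M) (y : Fin n → N),
      LinearIndependent k x ∧ t = ∑ i, x i ⊗ₜ[k] y i := by
  obtain ⟨n, x, y, h, e⟩ := repr_right (TensorProduct.comm k M N t)
  refine ⟨n, y, x, h, ?_⟩
  have := congrArg (TensorProduct.comm k M N).symm e
  rw [LinearEquiv.symm_apply_apply, map_sum] at this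
  simpa using this

/-- a subspace with `1`, stable under left multiplication by the generators, contains the algebra
generated. -/
theorem adjoin_le {F R : Type*} [Field F] [Ring R] [Algebra F R] (N : Submodule F R) (s : Set R)
    (h1 : (1 : R) ∈ N) (hs : ∀ g ∈ s, ∀ x ∈ N, g * x ∈ N) :
    Subalgebra.toSubmodule (Algebra.adjoin F s) ≤ N := by
  intro a ha
  have key : ∀ a ∈ Algebra.adjoin F s, ∀ x ∈ N, a * x ∈ N := by
    intro a ha
    induction ha using Algebra.adjoin_induction with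
    | mem g hg => exact hs g hg
    | algebraMap r =>
      intro x hx
      rw [← Algebra.smul_def]
      exact N.smul_mem r hx
    | add a b _ _ iha ihb =>
      intro x hx
      rw [add_mul]
      exact N.add_mem (iha x hx) (ihb x hx)
    | mul a b _ _ iha ihb =>
      intro x hx
      rw [mul_assoc]
      exact iha _ (ihb x hx)
  have := key a ha 1 h1
  rwa [mul_one] at this

end Gen

section R2

variable {k : Type u} {Q F2 R2 : Type v} [Field k] [DivisionRing Q]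
  [Algebra k Q] [Field F2] [Algebra k F2] [Ring R2] [Algebra k R2] [Algebra F2 R2]
  [IsScalarTower k F2 R2]

theorem wd_mul (D : Q →ₐ[k] R2) (W : Submodule k R2) (q : Q) {r : R2} (hr : r ∈ WD D W) :
    r * D q ∈ WD D W := by
  unfold WD at hr ⊢
  induction hr using Submodule.span_induction with
  | mem y hy =>
    obtain ⟨w, hw, q', rfl⟩ := hy
    exact Submodule.subset_span ⟨w, hw, q' * q, by rw [map_mul, mul_assoc]⟩
  | zero => rw [zero_mul]; exact Submodule.zero_mem _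
  | add y z _ _ hy hz => rw [add_mul]; exact Submodule.add_mem _ hy hz
  | smul b y _ hy => rw [smul_mul_assoc]; exact Submodule.smul_mem _ _ hy

theorem dw_mul (D : Q →ₐ[k] R2) (W : Submodule k R2) (q : Q) {r : R2} (hr : r ∈ DW D W) :
    D q * r ∈ DW D W := by
  unfold DW at hr ⊢
  induction hr using Submodule.span_induction with
  | mem y hy =>
    obtain ⟨w, hw, q', rfl⟩ := hy
    exact Submodule.subset_span ⟨w, hw, q * q', by rw [map_mul, mul_assoc]⟩
  | zero => rw [mul_zero]; exact Submodule.zero_mem _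
  | add y z _ _ hy hz => rw [mul_add]; exact Submodule.add_mem _ hy hz
  | smul b y _ hy => rw [mul_smul_comm]; exact Submodule.smul_mem _ _ hy

/-- right multiplication by `D q` preserves the span of `W D(Q)` -/
theorem span_right (D : Q →ₐ[k] R2) (W : Submodule k R2) (q : Q) (x : R2)
    (hx : x ∈ Submodule.span F2 (WD D W : Set R2)) :
    x * D q ∈ Submodule.span F2 (WD D W : Set R2) := by
  induction hx using Submodule.span_induction with
  | mem y hy =>
    apply Submodule.subset_span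
    exact wd_mul D W q hy
  | zero => rw [zero_mul]; exact Submodule.zero_mem _
  | add y z _ _ hy hz => rw [add_mul]; exact Submodule.add_mem _ hy hz
  | smul b y _ hy => rw [smul_mul_assoc]; exact Submodule.smul_mem _ _ hy

/-- left multiplication by `D q` preserves the span of `W D(Q)` -/
theorem span_left (D : Q →ₐ[k] R2) (W : Submodule k R2) (hW : Bif D W) (q : Q) (x : R2)
    (hx : x ∈ Submodule.span F2 (WD D W : Set R2)) :
    D q * x ∈ Submodule.span F2 (WD D W : Set R2) := by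
  induction hx using Submodule.span_induction with
  | mem y hy =>
    apply Submodule.subset_span
    have hy' : y ∈ WD D W := hy
    rw [hW.eq] at hy'
    show D q * y ∈ WD D W
    rw [hW.eq]
    exact dw_mul D W q hy'
  | zero => rw [mul_zero]; exact Submodule.zero_mem _
  | add y z _ _ hy hz => rw [mul_add]; exact Submodule.add_mem _ hy hz
  | smul b y _ hy => rw [mul_smul_comm]; exact Submodule.smul_mem _ _ hy

/-- stability of the span of `W D(Q)` under left multiplication by `g` -/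
theorem span_stab (D : Q →ₐ[k] R2) (W : Submodule k R2) (g : R2)
    (hg : ∀ w ∈ W, g * w ∈ Submodule.span F2 (WD D W : Set R2)) (x : R2)
    (hx : x ∈ Submodule.span F2 (WD D W : Set R2)) :
    g * x ∈ Submodule.span F2 (WD D W : Set R2) := by
  induction hx using Submodule.span_induction with
  | mem y hy =>
    have hy' : y ∈ WD D W := hy
    clear hy
    unfold WD at hy'
    induction hy' using Submodule.span_induction with
    | mem y hy =>
      obtain ⟨w, hw, q', rfl⟩ := hy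
      rw [← mul_assoc]
      exact span_right D W q' _ (hg w hw)
    | zero => rw [mul_zero]; exact Submodule.zero_mem _
    | add y z _ _ hy hz =>
      rw [mul_add]
      exact Submodule.add_mem _ hy hz
    | smul b y _ hy =>
      have h1 : b • y = algebraMap k F2 b • y := by
        rw [algebraMap_smul]
      rw [h1, mul_smul_comm]
      exact Submodule.smul_mem _ _ hy
  | zero => rw [mul_zero]; exact Submodule.zero_mem _
  | add y z _ _ hy hz => rw [mul_add]; exact Submodule.add_mem _ hy hz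
  | smul b y _ hy => rw [mul_smul_comm]; exact Submodule.smul_mem _ _ hy

/-- `φ(x)` is in the span of `φ(E) D(Q)` if `x` is in the `Z`-span of `E`. -/
theorem emb_mem {Z : Type v} [Field Z] [Algebra k Z] [Algebra Z Q] [IsScalarTower k Z Q]
    (D : Q →ₐ[k] R2) (φ : Q →ₐ[k] R2) (f : Z → F2)
    (hf : ∀ z : Z, φ (algebraMap Z Q z) = algebraMap F2 R2 (f z)) (E : Submodule k Q) (x : Q)
    (hx : x ∈ Submodule.span Z (E : Set Q)) :
    φ x ∈ Submodule.span F2 (WD D (E.map φ.toLinearMap) : Set R2) := by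
  induction hx using Submodule.span_induction with
  | mem y hy =>
    apply Submodule.subset_span
    apply Submodule.subset_span
    refine ⟨φ y, ⟨y, hy, rfl⟩, 1, ?_⟩
    rw [map_one, mul_one]
  | zero => rw [map_zero]; exact Submodule.zero_mem _
  | add y z _ _ hy hz => rw [map_add]; exact Submodule.add_mem _ hy hz
  | smul b y _ hy =>
    rw [Algebra.smul_def, map_mul, hf, ← Algebra.smul_def]
    exact Submodule.smul_mem _ _ hy

end R2

end M2DM

open M2DM in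
theorem specM2D (hBIF : SpecBIF.{u, v}) (hLEG : SpecLEG.{u, v}) : SpecM2D.{u, v} := by
  intro k H Z Q F2 R2 _ _ _ _ _ _ _ _ _ _ _ _ _ _ _ _ ι jF j D hQ hR hS El Er hEl hEr
  classical
  obtain ⟨bL, bR⟩ := hBIF k H Z Q F2 R2 ι jF j D hQ hR hS El Er hEl hEr
  set φ1 : Q →ₐ[k] R2 := j.comp (Algebra.TensorProduct.includeLeft : Q →ₐ[k] Q ⊗[k] Q) with hφ1
  set φ2 : Q →ₐ[k] R2 := j.comp (Algebra.TensorProduct.includeRight : Q →ₐ[k] Q ⊗[k] Q) with hφ2
  have h1a : ∀ a : Q, φ1 a = j (a ⊗ₜ 1) := fun a => rfl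
  have h2a : ∀ a : Q, φ2 a = j (1 ⊗ₜ a) := fun a => rfl
  have h12 : ∀ a b : Q, φ1 a * φ2 b = j (a ⊗ₜ b) := by
    intro a b
    show j (a ⊗ₜ 1) * j (1 ⊗ₜ b) = _
    rw [← map_mul, Algebra.TensorProduct.tmul_mul_tmul, mul_one, one_mul]
  have hDι : ∀ (h : H) (n : ℕ) (x y : Fin n → H), comul (R := k) h = ∑ i, x i ⊗ₜ[k] y i →
      D (ι h) = ∑ i, j (ι (x i) ⊗ₜ ι (y i)) := by
    intro h n x y e
    rw [hR.D_ι, dQ_apply, e, map_sum, map_sum]
    rfl
  -- convolution identities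
  have hd : toConv ((D.comp ι).toLinearMap) =
      toConv ((φ1.comp ι).toLinearMap) * toConv ((φ2.comp ι).toLinearMap) := by
    ext h
    obtain ⟨n, x, y, e⟩ := LEGM.exists_fin (comul (R := k) h)
    change D (ι h) = (toConv ((φ1.comp ι).toLinearMap) * toConv ((φ2.comp ι).toLinearMap)) h
    rw [LEGM.conv_app e, hDι h n x y e]
    exact Finset.sum_congr rfl fun i _ => (h12 _ _).symm
  have hA : toConv ((φ1.comp ι).toLinearMap ∘ₗ antipode k) * toConv ((D.comp ι).toLinearMap)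
      = toConv ((φ2.comp ι).toLinearMap) := by
    rw [hd, ← mul_assoc, LEGM.inv_left, one_mul]
  have hB : toConv ((D.comp ι).toLinearMap) * toConv ((φ2.comp ι).toLinearMap ∘ₗ antipode k)
      = toConv ((φ1.comp ι).toLinearMap) := by
    rw [hd, mul_assoc, LEGM.inv_right, mul_one]
  have hA' : ∀ (h : H) (n : ℕ) (x y : Fin n → H), comul (R := k) h = ∑ i, x i ⊗ₜ[k] y i →
      φ2 (ι h) = ∑ i, φ1 (ι (antipode k (x i))) * D (ι (y i)) := by
    intro h n x y e
    have h1 := congrArg (fun f => f h) hA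
    simp only at h1
    rw [LEGM.conv_app e] at h1
    exact h1.symm
  have hB' : ∀ (h : H) (n : ℕ) (x y : Fin n → H), comul (R := k) h = ∑ i, x i ⊗ₜ[k] y i →
      φ1 (ι h) = ∑ i, D (ι (x i)) * φ2 (ι (antipode k (y i))) := by
    intro h n x y e
    have h1 := congrArg (fun f => f h) hB
    simp only at h1
    rw [LEGM.conv_app e] at h1
    exact h1.symm
  -- `Z` in `F2`
  have hf1 : ∀ z : Z, φ1 (algebraMap Z Q z) = algebraMap F2 R2 (jF (z ⊗ₜ 1)) := by
    intro z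
    rw [← hR.cl.comp, iZ_tmul, map_one]
    rfl
  have hf2 : ∀ z : Z, φ2 (algebraMap Z Q z) = algebraMap F2 R2 (jF (1 ⊗ₜ z)) := by
    intro z
    rw [← hR.cl.comp, iZ_tmul, map_one]
    rfl
  have hne1 : ∀ z : Z, z ≠ 0 → (jF (z ⊗ₜ 1) : F2) ≠ 0 := by
    intro z hz h0
    have h1 : (jF (z ⊗ₜ 1) : F2) * jF (z⁻¹ ⊗ₜ 1) = 1 := by
      rw [← map_mul, Algebra.TensorProduct.tmul_mul_tmul, mul_inv_cancel₀ hz, mul_one]
      exact map_one jF
    rw [h0, zero_mul] at h1
    exact zero_ne_one h1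
  have hne2 : ∀ z : Z, z ≠ 0 → (jF (1 ⊗ₜ z) : F2) ≠ 0 := by
    intro z hz h0
    have h1 : (jF (1 ⊗ₜ z) : F2) * jF (1 ⊗ₜ z⁻¹) = 1 := by
      rw [← map_mul, Algebra.TensorProduct.tmul_mul_tmul, mul_inv_cancel₀ hz, mul_one]
      exact map_one jF
    rw [h0, zero_mul] at h1
    exact zero_ne_one h1
  have hcentral : ∀ c : H, Cent c → ∃ z : Z, algebraMap Z Q z = ι c := fun c hc =>
    hQ.cent (ι c) (fun q => REGM.cent_image hQ hc q)
  set N1 : Submodule F2 R2 := Submodule.span F2 (WD D (embL j El) : Set R2) with hN1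
  set N2 : Submodule F2 R2 := Submodule.span F2 (WD D (embR j Er) : Set R2) with hN2
  have hD_mem : ∀ q, D q ∈ M2 Z F2 ι j D := fun q =>
    Algebra.subset_adjoin (Or.inr ⟨q, rfl⟩)
  have hl_mem : ∀ e ∈ EG.Ol k Z ι, φ1 e ∈ M2 Z F2 ι j D := fun e he =>
    Algebra.subset_adjoin (Or.inl ⟨e, he, rfl⟩)
  have hone1 : (1 : R2) ∈ N1 := by
    apply Submodule.subset_span
    apply Submodule.subset_span
    exact ⟨φ1 1, ⟨1, hEl.one, rfl⟩, 1, by rw [map_one, map_one, mul_one]⟩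
  have hone2 : (1 : R2) ∈ N2 := by
    apply Submodule.subset_span
    apply Submodule.subset_span
    exact ⟨φ2 1, ⟨1, hEr.one, rfl⟩, 1, by rw [map_one, map_one, mul_one]⟩
  -- left multiplication by `φ1 a`, `a ∈ O_l`, on `N1`
  have hs1 : ∀ a ∈ EG.Ol k Z ι, ∀ x ∈ N1, φ1 a * x ∈ N1 := by
    intro a ha x hx
    refine span_stab D (embL j El) (φ1 a) ?_ x hx
    rintro _ ⟨e, he, rfl⟩
    show φ1 a * φ1 e ∈ _
    rw [← map_mul]
    exact emb_mem D φ1 _ hf1 El (a * e) (hEl.gen _ (mul_mem ha (hEl.sub e he)))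
  have hs2 : ∀ a ∈ EG.Or k Z ι, ∀ x ∈ N2, φ2 a * x ∈ N2 := by
    intro a ha x hx
    refine span_stab D (embR j Er) (φ2 a) ?_ x hx
    rintro _ ⟨e, he, rfl⟩
    show φ2 a * φ2 e ∈ _
    rw [← map_mul]
    exact emb_mem D φ2 _ hf2 Er (a * e) (hEr.gen _ (mul_mem ha (hEr.sub e he)))
  -- left multiplication by `φ1 a`, `a ∈ O_l`, on `N2`
  have hs3 : ∀ a ∈ EG.Ol k Z ι, ∀ x ∈ N2, φ1 a * x ∈ N2 := by
    intro a ha x hx
    obtain ⟨c, h, hc0, hc, hch⟩ := hQ.frac a
    obtain ⟨z, hz⟩ := hcentral c hc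
    have hz0 : z ≠ 0 := by
      rintro rfl
      rw [map_zero] at hz
      exact hc0 (hQ.inj (by rw [← hz, map_zero]))
    have hh : ι h ∈ EG.Ol k Z ι := by
      rw [← hch, ← hz, ← Algebra.smul_def]
      exact Subalgebra.smul_mem _ ha z
    obtain ⟨n, p, q, hind, e⟩ := repr_left (comul (R := k) h)
    have hleg := (hLEG k H Z Q ι hQ hS h n p q e).2 hh hind
    have h1 : φ1 (ι h) * x ∈ N2 := by
      rw [hB' h n p q e, Finset.sum_mul]
      refine Submodule.sum_mem _ fun i _ => ?_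
      rw [mul_assoc]
      exact span_left D (embR j Er) bR _ _ (hs2 _ (hleg i).2 x hx)
    rw [← hch, ← hz, map_mul, hf1, mul_assoc] at h1
    have h2 := IsCL.inv_mul (φ1 a * x) (hne1 z hz0)
    rw [← h2, ← Algebra.smul_def]
    exact Submodule.smul_mem _ _ h1
  -- `φ2 b ∈ M2`
  have hr_mem : ∀ b ∈ EG.Or k Z ι, φ2 b ∈ M2 Z F2 ι j D := by
    intro a ha
    obtain ⟨c, h, hc0, hc, hch⟩ := hQ.frac a
    obtain ⟨z, hz⟩ := hcentral c hc
    have hz0 : z ≠ 0 := by
      rintro rfl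
      rw [map_zero] at hz
      exact hc0 (hQ.inj (by rw [← hz, map_zero]))
    have hh : ι h ∈ EG.Or k Z ι := by
      rw [← hch, ← hz, ← Algebra.smul_def]
      exact Subalgebra.smul_mem _ ha z
    obtain ⟨n, p, q, hind, e⟩ := repr_right (comul (R := k) h)
    have hleg := (hLEG k H Z Q ι hQ hS h n p q e).1 hh hind
    have h1 : φ2 (ι h) ∈ M2 Z F2 ι j D := by
      rw [hA' h n p q e]
      exact Subalgebra.sum_mem _ fun i _ => mul_mem (hl_mem _ (hleg i).2) (hD_mem _)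
    rw [← hch, ← hz, map_mul, hf2] at h1
    have h2 := IsCL.inv_mul (φ2 a) (hne2 z hz0)
    rw [← h2]
    exact mul_mem (Subalgebra.algebraMap_mem _ _) h1
  constructor
  · refine le_antisymm (Submodule.span_le.2 ?_) ?_
    · intro r hr
      have hr' : r ∈ WD D (embL j El) := hr
      clear hr
      unfold WD at hr'
      show r ∈ M2 Z F2 ι j D
      induction hr' using Submodule.span_induction with
      | mem y hy =>
        obtain ⟨_, ⟨e, he, rfl⟩, q, rfl⟩ := hy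
        exact mul_mem (hl_mem e (hEl.sub e he)) (hD_mem q)
      | zero => exact zero_mem _
      | add y z _ _ hy hz => exact add_mem hy hz
      | smul b y _ hy =>
        have h1 : b • y = algebraMap k F2 b • y := by
          rw [algebraMap_smul]
        rw [h1]
        exact Subalgebra.smul_mem _ hy _
    · refine adjoin_le N1 _ hone1 ?_
      rintro g (⟨e, he, rfl⟩ | ⟨q, rfl⟩) x hx
      · exact hs1 e he x hx
      · exact span_left D (embL j El) bL q x hx
  · refine le_antisymm (Submodule.span_le.2 ?_) ?_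
    · intro r hr
      have hr' : r ∈ WD D (embR j Er) := hr
      clear hr
      unfold WD at hr'
      show r ∈ M2 Z F2 ι j D
      induction hr' using Submodule.span_induction with
      | mem y hy =>
        obtain ⟨_, ⟨e, he, rfl⟩, q, rfl⟩ := hy
        exact mul_mem (hr_mem e (hEr.sub e he)) (hD_mem q)
      | zero => exact zero_mem _
      | add y z _ _ hy hz => exact add_mem hy hz
      | smul b y _ hy =>
        have h1 : b • y = algebraMap k F2 b • y := by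
          rw [algebraMap_smul]
        rw [h1]
        exact Subalgebra.smul_mem _ hy _
    · refine adjoin_le N2 _ hone2 ?_
      rintro g (⟨e, he, rfl⟩ | ⟨q, rfl⟩) x hx
      · exact hs3 e he x hx
      · exact span_left D (embR j Er) bR q x hx

end Pool.Agent.Lib.MP_c37a72_al.LB
end

section
/-!
# MP_c37a72_al, block LB, module R1L: (1.3), left
-/
set_option autoImplicit false

open scoped TensorProduct
open Coalgebra HopfAlgebra

namespace Pool.Agent.Lib.MP_c37a72_al.LB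

universe u v w

namespace R1LM

variable {k : Type u} {H Z Q : Type v} [Field k] [Ring H] [HopfAlgebra k H]
  [Field Z] [Algebra k Z] [DivisionRing Q] [Algebra k Q] [Algebra Z Q] [IsScalarTower k Z Q]
  {ι : H →ₐ[k] Q}

/-- The action of `H` on a stable subspace as a homomorphism of algebras. -/
noncomputable def act (E : Submodule k Q) (A : H →ₗ[k] Module.End k Q)
    (hst : ∀ (h : H), ∀ e ∈ E, A h e ∈ E) (h1 : A 1 = 1) (hm : ∀ g h : H, A (g * h) = A g * A h) :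
    H →ₐ[k] Module.End k E :=
  AlgHom.ofLinearMap
    { toFun := fun h => (A h).restrict (hst h)
      map_add' := fun x y => by
        ext e
        simp [LinearMap.restrict_apply]
      map_smul' := fun c x => by
        ext e
        simp [LinearMap.restrict_apply] }
    (by
      ext e
      simp [LinearMap.restrict_apply, h1])
    (fun g h => by
      ext e
      simp [LinearMap.restrict_apply, hm])

theorem act_apply (E : Submodule k Q) (A : H →ₗ[k] Module.End k Q)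
    (hst : ∀ (h : H), ∀ e ∈ E, A h e ∈ E) (h1 : A 1 = 1) (hm : ∀ g h : H, A (g * h) = A g * A h)
    (h : H) (e : E) : ((act E A hst h1 hm h e : E) : Q) = A h e := rfl

/-- The matrix of a stable finite-dimensional subspace. -/
theorem exists_mat (E : Submodule k Q) [Module.Finite k E] (A : H →ₗ[k] Module.End k Q)
    (hst : ∀ (h : H), ∀ e ∈ E, A h e ∈ E) (h1 : A 1 = 1) (hm : ∀ g h : H, A (g * h) = A g * A h) :
    ∃ (n : ℕ) (e : Fin n → Q) (f : H →ₐ[k] Matrix (Fin n) (Fin n) k), LinearIndependent k e ∧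
      Submodule.span k (Set.range e) = E ∧ ∀ h i, A h (e i) = ∑ l, f h l i • e l := by
  let B := Module.finBasis k E
  refine ⟨Module.finrank k E, fun i => (B i : Q),
    (LinearMap.toMatrixAlgEquiv B).toAlgHom.comp (act E A hst h1 hm), ?_, ?_, ?_⟩
  · exact B.linearIndependent.map' E.subtype (Submodule.ker_subtype _)
  · have h2 := B.span_eq
    have h3 : Submodule.map E.subtype (Submodule.span k (Set.range B)) = E := by
      rw [h2, Submodule.map_top, Submodule.range_subtype]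
    rw [Submodule.map_span, ← Set.range_comp] at h3
    exact h3
  · intro h i
    have h2 := B.sum_repr (act E A hst h1 hm h (B i))
    have h3 := congrArg (Subtype.val) h2
    rw [act_apply] at h3
    simp only [AddSubmonoidClass.coe_finsetSum, SetLike.val_smul] at h3
    rw [← h3]
    refine Finset.sum_congr rfl fun l _ => ?_
    have h4 : ((LinearMap.toMatrixAlgEquiv B).toAlgHom.comp (act E A hst h1 hm)) h l i =
        (B.repr (act E A hst h1 hm h (B i))) l := LinearMap.toMatrixAlgEquiv_apply B _ l i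
    rw [h4]

end R1LM

theorem specR1L (hADA : EG.SpecADA.{u, v}) (hR2S : SpecR2S.{u, v}) (hTEL : SpecTEL.{u, v})
    (hTAL : SpecTAL.{u, v}) (hRTL : SpecRTL.{u, v}) (hCHL : SpecCHL.{u, v})
    (hR13 : SpecR13.{u, v}) : SpecR1L.{u, v} := by
  intro k H Z Q F2 R2 _ _ _ _ _ _ _ _ _ _ _ _ _ _ _ _ ι jF j D hQ hR hS E hE Ω _ _ _ x y z ξ ξ'
    hξ hξ' hrel w hw
  obtain ⟨⟨hone, -⟩, hmul, -, -⟩ := hADA k H Z Q ι
  have := hE.fin
  have hst := hE.stab
  let A : H →ₗ[k] Module.End k Q :=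
    { toFun := fun h => (EG.adlQ k Z ι h).restrictScalars k
      map_add' := fun x y => by ext q; simp
      map_smul' := fun c x => by ext q; simp }
  obtain ⟨n, e, f, hind, hspan, hf⟩ := R1LM.exists_mat E A hst
    (by
      ext q
      change EG.adlQ k Z ι 1 q = q
      rw [hone]; rfl)
    (fun g h => by
      ext q
      change EG.adlQ k Z ι (g * h) q = EG.adlQ k Z ι g (EG.adlQ k Z ι h q)
      rw [(hmul g h).1]; rfl)
  obtain ⟨T, hT⟩ := hTEL k H Z Q ι hQ hS n f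
  obtain ⟨τ, hτ1, hτ2⟩ := hTAL k H Z Q F2 R2 ι jF j D hQ hR n f T hT
  obtain ⟨-, hrt⟩ := hRTL k H Z Q F2 R2 ι jF j D hQ hR hS n f T hT e hind hf
  rw [hspan] at hrt
  have hk := hCHL k Z Q F2 R2 jF j hR.frc hR.cl n T τ hτ1 Ω x y z ξ ξ' hξ hξ' ((hrt Ω z x).2 hrel)
  obtain ⟨hfin, hsim, hcen⟩ := hR2S k H Z Q F2 R2 ι jF j D hQ hR
  obtain ⟨w₀, h1, h2⟩ := hR13 k Z Q F2 R2 Ω hcen D n T τ hτ2 ξ ξ' hk w hw
  exact ⟨w₀, h1, (hrt Ω w w₀).1 h2⟩

end Pool.Agent.Lib.MP_c37a72_al.LB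
end

section
/-!
# MP_c37a72_al, block LB, module R1R: (1.3), right
-/
set_option autoImplicit false

open scoped TensorProduct
open Coalgebra HopfAlgebra

namespace Pool.Agent.Lib.MP_c37a72_al.LB

universe u v w

namespace R1RM

variable {k : Type u} {H : Type v} [Field k] [Ring H] [HopfAlgebra k H]

/-- The inverse of the antipode. -/
theorem exists_sinv (hS : Function.Bijective (antipode k (A := H))) :
    ∃ s : H →ₗ[k] H, (∀ h, antipode k (s h) = h) ∧ (∀ h, s (antipode k h) = h) ∧ s 1 = 1 ∧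
      ∀ g h, s (g * h) = s h * s g := by
  obtain ⟨e, he⟩ : ∃ e : H ≃ₗ[k] H, ∀ h, e h = antipode k h :=
    ⟨LinearEquiv.ofBijective (antipode k) hS, fun _ => rfl⟩
  have h1 : ∀ h, antipode k (e.symm h) = h := fun h => by rw [← he, e.apply_symm_apply]
  refine ⟨e.symm.toLinearMap, h1, fun h => ?_, ?_, fun g h => ?_⟩
  · change e.symm (antipode k h) = h
    rw [← he, e.symm_apply_apply]
  · apply hS.1
    change antipode k (e.symm 1) = _
    rw [h1, HopfAlgebra.antipode_one]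
  · apply hS.1
    change antipode k (e.symm (g * h)) = antipode k (e.symm h * e.symm g)
    rw [h1, HopfAlgebra.antipode_mul_antidistrib, h1, h1]

end R1RM

theorem specR1R (hADA : EG.SpecADA.{u, v}) (hR2S : SpecR2S.{u, v}) (hTER : SpecTER.{u, v})
    (hTAR : SpecTAR.{u, v}) (hRTR : SpecRTR.{u, v}) (hCHR : SpecCHR.{u, v})
    (hR13 : SpecR13.{u, v}) : SpecR1R.{u, v} := by
  intro k H Z Q F2 R2 _ _ _ _ _ _ _ _ _ _ _ _ _ _ _ _ ι jF j D hQ hR hS E hE Ω _ _ _ x y z ξ ξ'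
    hξ hξ' hrel w hw
  obtain ⟨⟨-, hone⟩, hmul, -, -⟩ := hADA k H Z Q ι
  have := hE.fin
  have hst := hE.stab
  obtain ⟨s, hs1, hs2, hs3, hs4⟩ := R1RM.exists_sinv hS
  let A : H →ₗ[k] Module.End k Q :=
    { toFun := fun h => (EG.adrQ k Z ι (s h)).restrictScalars k
      map_add' := fun x y => by ext q; simp
      map_smul' := fun c x => by ext q; simp }
  obtain ⟨n, e, f, hind, hspan, hf⟩ := R1LM.exists_mat E A (fun h e he => hst (s h) e he)
    (by
      ext q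
      change EG.adrQ k Z ι (s 1) q = q
      rw [hs3, hone]; rfl)
    (fun g h => by
      ext q
      change EG.adrQ k Z ι (s (g * h)) q = EG.adrQ k Z ι (s g) (EG.adrQ k Z ι (s h) q)
      rw [hs4, (hmul (s h) (s g)).2]; rfl)
  have hf' : ∀ h i, EG.adrQ k Z ι h (e i) = ∑ l, f (antipode k h) l i • e l := by
    intro h i
    rw [← hf (antipode k h) i]
    change _ = EG.adrQ k Z ι (s (antipode k h)) (e i)
    rw [hs2]
  obtain ⟨T, hT⟩ := hTER k H Z Q ι hQ hS n f
  obtain ⟨τ, hτ1, hτ2⟩ := hTAR k H Z Q F2 R2 ι jF j D hQ hR n f T hT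
  obtain ⟨-, hrt⟩ := hRTR k H Z Q F2 R2 ι jF j D hQ hR hS n f T hT e hind hf'
  rw [hspan] at hrt
  have hk := hCHR k Z Q F2 R2 jF j hR.frc hR.cl n T τ hτ1 Ω x y z ξ ξ' hξ hξ' ((hrt Ω z y).2 hrel)
  obtain ⟨hfin, hsim, hcen⟩ := hR2S k H Z Q F2 R2 ι jF j D hQ hR
  obtain ⟨w₀, h1, h2⟩ := hR13 k Z Q F2 R2 Ω hcen D n T τ hτ2 ξ ξ' hk w hw
  exact ⟨w₀, h1, (hrt Ω w w₀).1 h2⟩

end Pool.Agent.Lib.MP_c37a72_al.LB
end

section
/-!
# MP_c37a72_al, block PU, module P31: formula (3.1), assembly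
-/
set_option autoImplicit false

open scoped TensorProduct
open Coalgebra HopfAlgebra Module
open Pool.Agent.Lib.MP_c37a72_al.LB

namespace Pool.Agent.Lib.MP_c37a72_al.PU

universe u v w

namespace P31M

theorem assoc_aux {R : Type*} [Semigroup R] (p ϖ x : R) (hA : ϖ * x = x) (hB : p * ϖ = ϖ) :
    p * x = x := by
  rw [← hA, ← mul_assoc, hB]

theorem comm_aux {k : Type u} {Z Q F2 R2 : Type v} [Field k] [Field Z] [Algebra k Z]
    [DivisionRing Q] [Algebra k Q] [Algebra Z Q] [IsScalarTower k Z Q] [Field F2] [Algebra k F2]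
    [Ring R2] [Algebra k R2] [Algebra F2 R2] [IsScalarTower k F2 R2] (D : Q →ₐ[k] R2)
    (M K : Subalgebra F2 R2) (hMK : IsMK D M K) (te : K ⊗[k] Z) (q : Q) :
    mu k (K.val.restrictScalars k) (DZ D Z) te * D q =
      D q * mu k (K.val.restrictScalars k) (DZ D Z) te := by
  induction te using TensorProduct.induction_on with
  | zero => rw [map_zero, zero_mul, mul_zero]
  | add x y hx hy => rw [map_add, add_mul, mul_add, hx, hy]
  | tmul c z =>
    have hDz : D (algebraMap Z Q z) * D q = D q * D (algebraMap Z Q z) := by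
      rw [← map_mul, ← map_mul, Algebra.commutes]
    have hc : (c : R2) * D q = D q * (c : R2) := hMK.comm c c.2 (D q) (hMK.D_mem q)
    show (c : R2) * D (algebraMap Z Q z) * D q = D q * ((c : R2) * D (algebraMap Z Q z))
    rw [mul_assoc, hDz, ← mul_assoc, hc, mul_assoc]

end P31M

theorem specP31 (hADA : EG.SpecADA.{u, v}) (hR2S : SpecR2S.{u, v}) (hE0X : SpecE0X.{u, v})
    (hTEL : SpecTEL.{u, v}) (hTAL : SpecTAL.{u, v}) (hRTL : SpecRTL.{u, v})
    (hLAB : SpecLAB.{u, v}) (hLCL : SpecLCL.{u, v}) (hBIF : SpecBIF.{u, v})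
    (hM2D : SpecM2D.{u, v}) (hMUL : NI.SpecMUL.{u, v}) (hALF : SpecALF.{u, v})
    (hLWD : SpecLWD.{u, v}) (hTPX : SpecTPX.{u, v}) (hEID : SpecEID.{u, v})
    (hPID : SpecPID.{u, v}) (hVID : SpecVID.{u, v}) (hP3A : SpecP3A.{u, v})
    (hP3B : SpecP3B.{u, v}) : SpecP31.{u, v} := by
  intro k H Z Q F2 R2 F _ _ _ _ _ _ _ _ _ _ _ _ _ _ _ _ _ _ _ _ _ _ ι jF j D hQ hR hS K hMK E
    hE lam hlam hH21 m hm
  obtain ⟨⟨hone, -⟩, hmul, -, -⟩ := hADA k H Z Q ι
  have := hE.fin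
  have hst := hE.stab
  let A : H →ₗ[k] Module.End k Q :=
    { toFun := fun h => (EG.adlQ k Z ι h).restrictScalars k
      map_add' := fun x y => by ext q; simp
      map_smul' := fun c x => by ext q; simp }
  obtain ⟨n, ev, f, hind, hspan, hf⟩ := R1LM.exists_mat E A hst
    (by
      ext q
      change EG.adlQ k Z ι 1 q = q
      rw [hone]; rfl)
    (fun g h => by
      ext q
      change EG.adlQ k Z ι (g * h) q = EG.adlQ k Z ι g (EG.adlQ k Z ι h q)
      rw [(hmul g h).1]; rfl)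
  obtain ⟨T, hT⟩ := hTEL k H Z Q ι hQ hS n f
  obtain ⟨τ, hτ1, hτ2⟩ := hTAL k H Z Q F2 R2 ι jF j D hQ hR n f T hT
  obtain ⟨-, hrt⟩ := hRTL k H Z Q F2 R2 ι jF j D hQ hR hS n f T hT ev hind hf
  rw [hspan] at hrt
  obtain ⟨hfin, hsim, hcen⟩ := hR2S k H Z Q F2 R2 ι jF j D hQ hR
  have hfinZ : Module.Finite Z Q := hQ.fin
  obtain ⟨El', Er, hEl', hEr⟩ := hE0X k H Z Q ι hQ
  have hbif := (hBIF k H Z Q F2 R2 ι jF j D hQ hR hS E Er hE hEr).1
  have hspanM := (hM2D k H Z Q F2 R2 ι jF j D hQ hR hS E Er hE hEr).1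
  have hLG : ∀ a ∈ Lab F Z D (embL j E), a ∈ G0 F Z D (embL j E) := fun a ha =>
    Subgroup.subset_closure (Or.inl ha)
  have hgG : gZ k Z F ≤ G0 F Z D (embL j E) := fun a ha => Subgroup.subset_closure (Or.inr ha)
  have hvia : ∀ (Ω : Type v) [Field Ω] [IsAlgClosed Ω] [Algebra k Ω] (z x : Z →ₐ[k] Ω),
      RelT T z x → ∃ a ∈ Lab F Z D (embL j E), Via a z x := by
    intro Ω _ _ _ z x hrel
    obtain ⟨xt, hxt⟩ := hALF.2.2.2 k Z F Ω x
    obtain ⟨a, ha, h1⟩ := (hLAB k Z Q F2 R2 D (embL j E) hbif F Ω z x xt hxt).1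
      ((hrt Ω z x).1 hrel)
    exact ⟨a, ha, xt, hxt, h1⟩
  have hvid : ∀ a : F ≃ₐ[k] F, Via a (rs Z a) (rs Z (1 : F ≃ₐ[k] F)) := fun a =>
    ⟨AlgHom.id k F, fun _ => rfl, fun _ => rfl⟩
  obtain ⟨te, hne, hide, hvale⟩ := hEID k Z Q F2 R2 F D (M2 Z F2 ι j D) K hMK
    (G0 F Z D (embL j E)) lam
    (hTPX k Z Q F2 R2 F D (M2 Z F2 ι j D) K hMK (embL j E) hbif hspanM lam hlam)
  obtain ⟨tp, hidp, hvalp⟩ := hPID k Z Q F (Lab F Z D (embL j E)) lam m n T
  obtain ⟨tv, hidv, hvalv⟩ := hVID k Z Q F2 R2 F D (M2 Z F2 ι j D) K hMK (Lab F Z D (embL j E))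
    (G0 F Z D (embL j E)) lam m n T
  have hA := hP3A k Z Q F2 R2 F D (M2 Z F2 ι j D) K hMK (Lab F Z D (embL j E))
    (G0 F Z D (embL j E)) lam m n T te tp tv _ _ _ rfl rfl rfl hide hidp hidv
    (fun Ω _ _ _ kap w hw => (hvale Ω kap w hw).2) (fun Ω _ _ _ z x hz => (hvalp Ω z x hz).2)
    (fun Ω _ _ _ kap v hv => (hvalv Ω kap v hv).1)
  have hB := hP3B k H Z Q F2 R2 F ι jF j D hQ hR hS K hMK n f T hT τ hτ1 hτ2 (embL j E) lam m tp tv
    _ _ hH21 hm hvia rfl rfl hidp hidv (fun Ω _ _ _ z x hz => (hvalp Ω z x hz).1)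
    (fun Ω _ _ _ kap v hv => (hvalv Ω kap v hv).2)
  have hnt : Nontrivial R2 := inferInstance
  have h1E : (1 : R2) ∈ embL j E := by
    refine ⟨1, hE.one, ?_⟩
    show j ((1 : Q) ⊗ₜ[k] (1 : Q)) = 1
    exact map_one j
  have h1Lab : (1 : F ≃ₐ[k] F) ∈ Lab F Z D (embL j E) :=
    (hLCL k Z Q F2 R2 D (embL j E) hbif F).2.2 hnt h1E
  have hlam1 : lam 1 = 0 := hlam.gz 1 (one_mem _)
  refine ⟨n, ev, T, tp, _, _, hind, ?_, hne, ?_, rfl, hidp, ?_, ?_, ?_⟩
  · exact hMUL k H Z Q ι hQ n f T hT ev hf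
  · -- `e` commutes with `D(Q)`
    exact fun q => P31M.comm_aux D _ K hMK te q
  · exact P31M.assoc_aux _ _ _ hA hB
  · intro hm0
    refine (hvalp F (rs Z 1) (rs Z 1) ((hrt F _ _).2 h1Lab)).2 ?_
    rintro ⟨b, hb, hlamb, hviab⟩
    apply hm0
    rw [← hlamb, ← hlam1]
    exact ((hLWD k Z F F (G0 F Z D (embL j E)) lam hgG hlam (rs Z 1) (rs Z 1) (rs Z 1)).1 b
      (hLG b hb) 1 (one_mem _) hviab (hvid 1))
  · rintro ⟨a, ha, hlama⟩ hp0
    have h1 := (hvalp F (rs Z a) (rs Z 1) ((hrt F _ _).2 ha)).1 ⟨a, ha, hlama, hvid a⟩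
    have h2 := ((hrt F (rs Z a) (rs Z 1)).2 ha) tp hp0
    rw [h2] at h1
    exact zero_ne_one h1

end Pool.Agent.Lib.MP_c37a72_al.PU
end

section
/-!
# MP_c37a72_al, block PU, module VID (helper60)

The idempotent of the points `(kap, v)` with `IsUp`.
-/
set_option autoImplicit false

open scoped TensorProduct
open Coalgebra HopfAlgebra Module
open Pool.Agent.Lib.MP_c37a72_al.LB

namespace Pool.Agent.Lib.MP_c37a72_al.PU

universe u v w

/-- **VID**. -/
theorem specVID (hIDR : SpecIDR.{u, v}) (hINV : SpecINV.{u, v}) : SpecVID.{u, v} := by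
  intro k Z Q F2 R2 F _ _ _ _ _ _ _ _ _ _ _ _ _ _ _ _ _ _ _ D M K hMK L G lam m n T
  have hK : ∀ (c : K) (q : Q), (c : R2) * D q = D q * c := fun c q =>
    hMK.comm c c.2 (D q) (hMK.D_mem q)
  have := hIDR k F2 (Matrix (Fin n) (Fin n) R2) K Z ((sc k n R2).comp (K.val.restrictScalars k))
    ((DT D T).comp (zQ k Z Q)) ?_ ?_ ?_ ?_
    (fun Ω _ _ kap v => IsUp L G lam m D K kap v) ?_
  · exact this
  · intro a a'
    rw [← map_mul, ← map_mul]
    congr 1
    apply Subtype.ext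
    exact hMK.comm a a.2 a' (hMK.le a'.2)
  · intro b b'
    rw [← map_mul, ← map_mul, mul_comm]
  · intro a b
    show Matrix.scalar (Fin n) (a : R2) * DT D T (zQ k Z Q b) =
      DT D T (zQ k Z Q b) * Matrix.scalar (Fin n) (a : R2)
    ext i l
    rw [Matrix.scalar_apply, Matrix.diagonal_mul, Matrix.mul_diagonal, DT_apply, hK]
  · intro x
    refine ⟨algebraMap F2 K x ⊗ₜ[k] 1, ?_⟩
    rw [mu_tmul, map_one, mul_one]
    show Matrix.scalar (Fin n) (algebraMap F2 R2 x) = _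
    rw [Matrix.algebraMap_eq_diagonal]
    rfl
  · intro Ω₁ Ω _ _ _ _ _ _ φ f g _
    exact ((hINV k Z Q F2 R2 F D K L G lam m Ω₁ Ω φ).2 f g).2

end Pool.Agent.Lib.MP_c37a72_al.PU
end

section
/-!
# MP_c37a72_al, block NI, module NIS: the nilpotent step
-/
set_option autoImplicit false

open scoped TensorProduct
open Coalgebra HopfAlgebra Module
open Pool.Agent.Lib.MP_c37a72_al.LB

namespace Pool.Agent.Lib.MP_c37a72_al.NI

universe u v w

namespace NISM

/-- A commutative ring which is a field, as a field. -/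
theorem exF {k : Type u} {A : Type v} [Field k] [Ring A] [Algebra k A] (hA : IsField A) :
    ∃ (Kf : Type v) (_ : Field Kf) (_ : Algebra k Kf) (e : Kf ≃+* A),
      ∀ c : k, e (algebraMap k Kf c) = algebraMap k A c := by
  let F : Field A := hA.toField
  let φ : k →+* A := algebraMap k A
  refine ⟨A, F, (by exact (φ : k →+* A).toAlgebra' (fun c x => Algebra.commutes c x)),
    RingEquiv.refl A, fun c => rfl⟩


theorem nilp_of_inj {A B : Type*} [Ring A] [Ring B] (φ : A →+* B) (hφ : Function.Injective φ)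
    {x : A} (h : IsNilpotent (φ x)) : IsNilpotent x := by
  obtain ⟨m, hm⟩ := h
  refine ⟨m, hφ ?_⟩
  rw [map_pow, hm, map_zero]

section Core

variable {k : Type u} {H Z Q F2 R2 : Type v} [Field k] [IsAlgClosed k] [CharZero k] [Ring H]
  [IsDomain H] [HopfAlgebra k H]
  [Field Z] [Algebra k Z] [DivisionRing Q] [Algebra k Q] [Algebra Z Q] [IsScalarTower k Z Q]
  [Field F2] [Algebra k F2] [Ring R2] [Algebra k R2] [Algebra F2 R2] [IsScalarTower k F2 R2]
  {ι : H →ₐ[k] Q} {jF : Z ⊗[k] Z →ₐ[k] F2} {j : Q ⊗[k] Q →ₐ[k] R2} {D : Q →ₐ[k] R2}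

theorem core (hNCO : SpecNCO.{u, v}) (hR2S : LB.SpecR2S.{u, v})
    (hOLF : EG.SpecOLF.{u, v}) (hDCO : SpecDCO.{v})
    (hOLM : SpecOLM.{u, v}) (hTRM : SpecTRM.{u, v}) (hNLF : SpecNLF.{u, v})
    (hMUL : SpecMUL.{u, v}) (hT1R : SpecT1R.{u, v}) (hSTB : SpecSTB.{u, v})
    (hAL2 : SpecAL2.{u, v}) (hSPN : SpecSPN.{u, v}) (hLGI : SpecLGI.{u, v}) (hSEL : SpecSEL.{v})
    (hQ : IsCQ k H Z Q ι) (hR : IsR2 ι jF j D) (hS : Function.Bijective (antipode k (A := H)))
    (hMK : IsMK D (M2 Z F2 ι j D) (K2 Z F2 ι j D)) (E : IntermediateField k Z) (δ : E →ₐ[k] R2)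
    (hE : IsDel D (K2 Z F2 ι j D) E δ) {n : ℕ} (f : H →ₐ[k] Matrix (Fin n) (Fin n) k)
    (T : Q →ₐ[k] Matrix (Fin n) (Fin n) Q) (hT : IsTl ι f T)
    (τ : R2 →ₐ[k] Matrix (Fin n) (Fin n) R2)
    (hτ1 : ∀ a b p l, τ (j (a ⊗ₜ b)) p l = j (T a p l ⊗ₜ b))
    (hτ2 : ∀ q p l, τ (D q) p l = D (T q p l)) (e : Fin n → Q) (he : LinearIndependent k e)
    (hadl : ∀ h i, EG.adlQ k Z ι h (e i) = ∑ l, f h l i • e l)
    (heO : ∀ i, e i ∈ EG.Ol k Z ι)
    (hrt : ∀ q i, D q * j (e i ⊗ₜ 1) = ∑ l, j (e l ⊗ₜ 1) * D (T q l i)) :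
    ∀ g : E, T (algebraMap Z Q (g : Z)) = algebraMap Z (Matrix (Fin n) (Fin n) Q) (g : Z) := by
  classical
  have hfinZ := hQ.fin
  obtain ⟨hfin, hsim, hcen⟩ := hR2S k H Z Q F2 R2 ι jF j D hQ hR
  have hjO : ∀ o ∈ EG.Ol k Z ι, j (o ⊗ₜ 1) ∈ M2 Z F2 ι j D := fun o ho =>
    Algebra.subset_adjoin (Or.inl ⟨o, ho, rfl⟩)
  obtain ⟨Kf, _, _, e', he'⟩ := exF (k := k) hMK.fieldK
  let κ : Kf →ₐ[k] R2 :=
    { toFun := fun c => (e' c : R2)
      map_one' := by rw [map_one]; rfl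
      map_mul' := fun x y => by rw [map_mul]; rfl
      map_zero' := by rw [map_zero]; rfl
      map_add' := fun x y => by rw [map_add]; rfl
      commutes' := fun c => by
        rw [he']
        rfl }
  have hκ : ∀ c, κ c = (e' c : R2) := fun c => rfl
  have hκi : Function.Injective κ := fun x y h => e'.injective (Subtype.ext h)
  let aF : Algebra F2 Kf :=
    ((e'.symm : K2 Z F2 ι j D →+* Kf).comp (algebraMap F2 (K2 Z F2 ι j D))).toAlgebra
  have haF : ∀ x : F2, κ (algebraMap F2 Kf x) = algebraMap F2 R2 x := by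
    intro x
    show ((e' (e'.symm (algebraMap F2 (K2 Z F2 ι j D) x)) : K2 Z F2 ι j D) : R2) = _
    rw [e'.apply_symm_apply]
    rfl
  let φ : Kf →+* M2 Z F2 ι j D :=
    (Subalgebra.inclusion hMK.le).toRingHom.comp (e' : Kf →+* K2 Z F2 ι j D)
  have hφ : ∀ c, ((φ c : M2 Z F2 ι j D) : R2) = κ c := fun c => rfl
  let aK : Algebra Kf (M2 Z F2 ι j D) := φ.toAlgebra' (fun c x => by
    apply Subtype.ext
    exact hMK.comm _ (e' c).2 _ x.2)
  have haK : ∀ c, ((algebraMap Kf (M2 Z F2 ι j D) c : M2 Z F2 ι j D) : R2) = κ c := fun c => rfl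
  have t1 : IsScalarTower F2 Kf (M2 Z F2 ι j D) := by
    refine IsScalarTower.of_algebraMap_eq fun x => ?_
    apply Subtype.ext
    rw [haK, haF]
    rfl
  have t2 : IsScalarTower k Kf (M2 Z F2 ι j D) := by
    refine IsScalarTower.of_algebraMap_eq fun x => ?_
    apply Subtype.ext
    rw [haK, AlgHom.commutes]
    rfl
  have hfM : Module.Finite F2 (M2 Z F2 ι j D) := by
    have : Module.Finite F2 (Subalgebra.toSubmodule (M2 Z F2 ι j D)) := inferInstance
    exact this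
  have hfK : Module.Finite Kf (M2 Z F2 ι j D) :=
    Module.Finite.of_restrictScalars_finite F2 Kf (M2 Z F2 ι j D)
  have hsimM : IsSimpleRing (M2 Z F2 ι j D) := hMK.simple
  have hkF : IsScalarTower k F2 Kf := by
    refine IsScalarTower.of_algebraMap_eq fun x => hκi ?_
    rw [haF, AlgHom.commutes, ← IsScalarTower.algebraMap_apply]
  -- the maps
  obtain ⟨Δ, hΔ⟩ : ∃ Δ : Q →ₐ[k] M2 Z F2 ι j D, ∀ q, ((Δ q : M2 Z F2 ι j D) : R2) = D q :=
    ⟨{ toFun := fun q => ⟨D q, hMK.D_mem q⟩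
       map_one' := Subtype.ext (map_one D)
       map_mul' := fun x y => Subtype.ext (map_mul D x y)
       map_zero' := Subtype.ext (map_zero D)
       map_add' := fun x y => Subtype.ext (map_add D x y)
       commutes' := fun c => Subtype.ext (D.commutes c) }, fun q => rfl⟩
  obtain ⟨ℓ, hℓ⟩ : ∃ ℓ : EG.Ol k Z ι →ₐ[k] M2 Z F2 ι j D,
      ∀ o, ((ℓ o : M2 Z F2 ι j D) : R2) = j ((o : Q) ⊗ₜ 1) :=
    ⟨{ toFun := fun o => ⟨j ((o : Q) ⊗ₜ 1), hjO _ o.2⟩
       map_one' := Subtype.ext (map_one j)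
       map_mul' := fun x y => Subtype.ext (by
         show j (((x : Q) * (y : Q)) ⊗ₜ 1) = j ((x : Q) ⊗ₜ 1) * j ((y : Q) ⊗ₜ 1)
         rw [← map_mul, Algebra.TensorProduct.tmul_mul_tmul, one_mul])
       map_zero' := Subtype.ext (by
         show j ((0 : Q) ⊗ₜ 1) = 0
         rw [TensorProduct.zero_tmul, map_zero])
       map_add' := fun x y => Subtype.ext (by
         show j (((x : Q) + (y : Q)) ⊗ₜ 1) = j ((x : Q) ⊗ₜ 1) + j ((y : Q) ⊗ₜ 1)
         rw [TensorProduct.add_tmul, map_add])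
       commutes' := fun c => Subtype.ext (j.commutes c) }, fun o => rfl⟩
  obtain ⟨TO, hTO⟩ : ∃ TO : EG.Ol k Z ι → Matrix (Fin n) (Fin n) (EG.Ol k Z ι),
      ∀ o p l, ((TO o p l : EG.Ol k Z ι) : Q) = T (o : Q) p l :=
    ⟨fun o => Matrix.of fun p l => ⟨T (o : Q) p l, hOLM k H Z Q ι hQ hS n f T hT _ o.2 p l⟩,
      fun o p l => rfl⟩
  have hτM := hTRM k H Z Q F2 R2 ι jF j D hQ hR hS n f T hT τ hτ1 hτ2
  obtain ⟨ρ, hρ⟩ : ∃ ρ : M2 Z F2 ι j D →ₐ[k] Matrix (Fin n) (Fin n) (M2 Z F2 ι j D),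
      ∀ m p l, ((ρ m p l : M2 Z F2 ι j D) : R2) = τ (m : R2) p l :=
    ⟨{ toFun := fun m => Matrix.of fun p l => ⟨τ (m : R2) p l, hτM _ m.2 p l⟩
       map_one' := by
         ext p l
         show τ 1 p l = _
         rw [map_one, Matrix.one_apply, Matrix.one_apply]
         split_ifs <;> rfl
       map_mul' := fun x y => by
         ext p l
         show τ ((x : R2) * (y : R2)) p l = _
         rw [map_mul, Matrix.mul_apply, Matrix.mul_apply, AddSubmonoidClass.coe_finsetSum]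
         rfl
       map_zero' := by
         ext p l
         show τ 0 p l = _
         rw [map_zero]
         rfl
       map_add' := fun x y => by
         ext p l
         show τ ((x : R2) + (y : R2)) p l = _
         rw [map_add]
         rfl
       commutes' := fun c => by
         ext p l
         show τ (algebraMap k R2 c) p l = _
         rw [AlgHom.commutes, Matrix.algebraMap_matrix_apply, Matrix.algebraMap_matrix_apply]
         split_ifs <;> rfl }, fun m p l => rfl⟩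
  have hcomp : ∀ t : Z ⊗[k] Z, κ (algebraMap F2 Kf (jF t)) = j (iZ k Z Z Q Q t) := fun t => by
    rw [haF, hR.cl.comp]
  obtain ⟨l, hl⟩ : ∃ l : Z →ₐ[k] Kf, ∀ z, κ (l z) = j (algebraMap Z Q z ⊗ₜ 1) :=
    ⟨(IsScalarTower.toAlgHom k F2 Kf).comp (jF.comp Algebra.TensorProduct.includeLeft), fun z => by
      show κ (algebraMap F2 Kf (jF (z ⊗ₜ 1))) = _
      rw [hcomp, iZ_tmul, map_one]⟩
  obtain ⟨r, hr⟩ : ∃ r : Z →ₐ[k] Kf, ∀ z, κ (r z) = j (1 ⊗ₜ algebraMap Z Q z) :=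
    ⟨(IsScalarTower.toAlgHom k F2 Kf).comp (jF.comp Algebra.TensorProduct.includeRight), fun z => by
      show κ (algebraMap F2 Kf (jF (1 ⊗ₜ z))) = _
      rw [hcomp, iZ_tmul, map_one]⟩
  obtain ⟨δ', hδ'⟩ : ∃ δ' : E →ₐ[k] Kf, ∀ g, κ (δ' g) = δ g :=
    ⟨{ toFun := fun g => e'.symm ⟨δ g, hE.mem g⟩
       map_one' := by
         apply hκi
         rw [hκ, e'.apply_symm_apply, map_one κ]
         exact map_one δ
       map_mul' := fun x y => by
         apply hκi
         rw [map_mul κ, hκ, hκ, hκ, e'.apply_symm_apply, e'.apply_symm_apply, e'.apply_symm_apply]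
         exact map_mul δ x y
       map_zero' := by
         apply hκi
         rw [hκ, e'.apply_symm_apply, map_zero κ]
         exact map_zero δ
       map_add' := fun x y => by
         apply hκi
         rw [map_add κ, hκ, hκ, hκ, e'.apply_symm_apply, e'.apply_symm_apply, e'.apply_symm_apply]
         exact map_add δ x y
       commutes' := fun c => by
         apply hκi
         rw [hκ, e'.apply_symm_apply, AlgHom.commutes κ]
         exact δ.commutes c }, fun g => by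
      rw [hκ]
      show ((e' (e'.symm ⟨δ g, hE.mem g⟩) : K2 Z F2 ι j D) : R2) = δ g
      rw [e'.apply_symm_apply]⟩
  have hκD : ∀ c q, κ c * D q = D q * κ c := fun c q =>
    hMK.comm _ (e' c).2 _ (hMK.D_mem q)
  -- rational structures
  let aQO : Algebra ℚ (EG.Ol k Z ι) :=
    ((algebraMap k (EG.Ol k Z ι)).comp (algebraMap ℚ k)).toAlgebra'
      (fun c x => Algebra.commutes (algebraMap ℚ k c) x)
  let aQM : Algebra ℚ (M2 Z F2 ι j D) :=
    ((algebraMap k (M2 Z F2 ι j D)).comp (algebraMap ℚ k)).toAlgebra'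
      (fun c x => Algebra.commutes (algebraMap ℚ k c) x)
  have hcK : CharZero Kf := charZero_of_injective_algebraMap (algebraMap k Kf).injective
  -- nilpotency
  have hν0 : ∀ g : E, IsNilpotent (TO (algebraMap Z (EG.Ol k Z ι) (g : Z)) -
      algebraMap Z (Matrix (Fin n) (Fin n) (EG.Ol k Z ι)) (g : Z)) := by
    intro g
    have h1 := hNLF k H Z Q F2 R2 ι jF j D hQ hR hS _ _ hMK n T e he (fun i => hjO _ (heO i)) hrt
      (g : Z) (δ g) (hE.mem g) (hE.nil g)
    refine nilp_of_inj ((EG.Ol k Z ι).val.toRingHom.mapMatrix) ?_ ?_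
    · intro x y h
      ext p l
      exact congrFun (congrFun h p) l
    · have h2 : (EG.Ol k Z ι).val.toRingHom.mapMatrix (TO (algebraMap Z (EG.Ol k Z ι) (g : Z)) -
          algebraMap Z (Matrix (Fin n) (Fin n) (EG.Ol k Z ι)) (g : Z)) =
          T (algebraMap Z Q (g : Z)) - Matrix.scalar (Fin n) (algebraMap Z Q (g : Z)) := by
        ext p l
        show ((TO (algebraMap Z (EG.Ol k Z ι) (g : Z)) p l -
          algebraMap Z (Matrix (Fin n) (Fin n) (EG.Ol k Z ι)) (g : Z) p l : EG.Ol k Z ι) : Q) = _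
        rw [AddSubgroupClass.coe_sub, hTO, Matrix.algebraMap_matrix_apply, Matrix.sub_apply,
          Matrix.scalar_apply, Matrix.diagonal_apply]
        congr 1
        split_ifs <;> rfl
      rw [h2]
      exact h1
  have hs0 : ∀ g : E, IsNilpotent (Δ (algebraMap Z Q (g : Z)) -
      algebraMap Kf (M2 Z F2 ι j D) (δ' g)) := by
    intro g
    refine nilp_of_inj ((M2 Z F2 ι j D).val.toRingHom) Subtype.val_injective ?_
    show IsNilpotent (((Δ (algebraMap Z Q (g : Z)) - algebraMap Kf (M2 Z F2 ι j D) (δ' g) :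
      M2 Z F2 ι j D) : R2))
    rw [AddSubgroupClass.coe_sub, hΔ, haK, hδ']
    exact hE.nil g
  have hρΔ : ∀ q, ρ (Δ q) = (T q).map Δ := by
    intro q
    ext p l
    rw [hρ, hΔ, hτ2, Matrix.map_apply, hΔ]
  have hρℓ : ∀ o, ρ (ℓ o) = (TO o).map ℓ := by
    intro o
    ext p l
    rw [hρ, hℓ, hτ1, Matrix.map_apply, hℓ, hTO]
  have hℓl : ∀ z, ℓ (algebraMap Z (EG.Ol k Z ι) z) = algebraMap Kf (M2 Z F2 ι j D) (l z) := by
    intro z
    apply Subtype.ext
    rw [hℓ, haK, hl]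
    rfl
  obtain ⟨ν, hν⟩ : ∃ ν : E → Matrix (Fin n) (Fin n) (EG.Ol k Z ι), ∀ g, ν g =
      ulog ((g : Z)⁻¹ • (TO (algebraMap Z (EG.Ol k Z ι) (g : Z)) -
        algebraMap Z (Matrix (Fin n) (Fin n) (EG.Ol k Z ι)) (g : Z))) := ⟨_, fun _ => rfl⟩
  obtain ⟨s, hs⟩ : ∃ s : E → M2 Z F2 ι j D, ∀ g, s g =
      ulog ((δ' g)⁻¹ • (Δ (algebraMap Z Q (g : Z)) - algebraMap Kf (M2 Z F2 ι j D) (δ' g))) :=
    ⟨_, fun _ => rfl⟩
  obtain ⟨a, ha⟩ : ∃ a : E → Matrix (Fin n) (Fin n) (M2 Z F2 ι j D), ∀ g, a g =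
      ulog ((δ' g)⁻¹ • (ρ (algebraMap Kf (M2 Z F2 ι j D) (δ' g)) -
        algebraMap Kf (Matrix (Fin n) (Fin n) (M2 Z F2 ι j D)) (δ' g))) := ⟨_, fun _ => rfl⟩
  obtain ⟨hn, hc, hsΔ, hρa, hid, hνT, hνℓ, hnl, hkill, hfin0⟩ :=
    hLGI k Z Q Kf (M2 Z F2 ι j D) (EG.Ol k Z ι) Δ ℓ l n T TO ρ E δ' e hTO hρΔ hρℓ hℓl
      (hMUL k H Z Q ι hQ n f T hT e hadl) hν0 hs0 ν s a hν hs ha
  have hu0 : ∀ (A : Type v) [Ring A] [Algebra ℚ A], ulog (0 : A) = 0 := by
    intro A _ _
    unfold ulog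
    exact Finset.sum_eq_zero fun i _ => by rw [zero_pow (Nat.succ_ne_zero i), smul_zero]
  have hν00 : ν 0 = 0 := by
    rw [hν, ZeroMemClass.coe_zero, inv_zero, zero_smul, hu0]
  have hs00 : s 0 = 0 := by
    rw [hs, map_zero, inv_zero, zero_smul, hu0]
  have ha00 : a 0 = 0 := by
    rw [ha, map_zero, inv_zero, zero_smul, hu0]
  -- the two spans
  obtain ⟨ρK, hρK⟩ : ∃ ρK : Kf →ₐ[k] Matrix (Fin n) (Fin n) (M2 Z F2 ι j D),
      ∀ c, ρK c = ρ (algebraMap Kf (M2 Z F2 ι j D) c) :=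
    ⟨ρ.comp (IsScalarTower.toAlgHom k Kf (M2 Z F2 ι j D)), fun c => rfl⟩
  have hρr : ∀ c ∈ Set.range r, ρK c = algebraMap Kf (Matrix (Fin n) (Fin n) (M2 Z F2 ι j D)) c := by
    rintro _ ⟨z, rfl⟩
    rw [hρK]
    ext p q
    rw [hρ, haK, hr, hτ1, map_one, Matrix.algebraMap_matrix_apply, Matrix.one_apply]
    split_ifs
    · rw [haK, hr]
    · rw [TensorProduct.zero_tmul, map_zero]
      rfl
  obtain ⟨hal1, hal2⟩ := hAL2 k H Z Q F2 R2 ι jF j D hQ hR hS Kf κ
    (fun x => ⟨fun hx => ⟨e'.symm ⟨x, hx⟩, by rw [hκ, e'.apply_symm_apply]⟩, fun ⟨c, hc⟩ => by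
      rw [← hc, hκ]
      exact (e' c).2⟩) hκD E δ' l r hE.fin hl hr (fun g => by rw [hδ']; exact hE.nil g)
  have hfA : Module.Finite Kf (Matrix (Fin n) (Fin n) (M2 Z F2 ι j D)) := inferInstance
  have sp1 : Submodule.span Kf (Set.range fun g => (ν g).map ℓ) ≤ Submodule.span Kf (Set.range a) := by
    rw [Submodule.span_le]
    rintro _ ⟨g, rfl⟩
    show (ν g).map ℓ ∈ Submodule.span Kf (Set.range a)
    by_cases hg : g = 0
    · rw [hg, hν00]
      have : (0 : Matrix (Fin n) (Fin n) (EG.Ol k Z ι)).map ℓ = 0 := by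
        ext p q
        rw [Matrix.map_apply, Matrix.zero_apply, map_zero, Matrix.zero_apply]
      rw [this]
      exact Submodule.zero_mem _
    · have h1 := hSPN k E Kf (Matrix (Fin n) (Fin n) (M2 Z F2 ι j D)) ρK δ' (Set.range r) hρr
        (fun f => by rw [hρK]; exact (hn f).2.2.2) (l (g : Z))
        (by
          rw [Ne, map_eq_zero]
          exact fun h => hg (Subtype.ext h)) (hal1 _) (by rw [hρK]; exact hnl g)
      rw [hνℓ, ← hρK]
      refine Submodule.span_mono ?_ h1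
      rintro _ ⟨f, -, rfl⟩
      exact ⟨f, by rw [ha, hρK]⟩
  have sp2 : Submodule.span Kf (Set.range a) ≤ Submodule.span Kf (Set.range fun g => (ν g).map ℓ) := by
    rw [Submodule.span_le]
    rintro _ ⟨g, rfl⟩
    show a g ∈ Submodule.span Kf (Set.range fun g => (ν g).map ℓ)
    by_cases hg : g = 0
    · rw [hg, ha00]
      exact Submodule.zero_mem _
    · have h1 := hSPN k E Kf (Matrix (Fin n) (Fin n) (M2 Z F2 ι j D)) ρK (l.comp E.val)
        (Set.range r) hρr (fun f => by rw [hρK]; exact hnl f) (δ' g)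
        (by
          rw [Ne, map_eq_zero]
          exact hg) (hal2 g) (by rw [hρK]; exact (hn g).2.2.2)
      rw [ha, ← hρK]
      refine Submodule.span_mono ?_ h1
      rintro _ ⟨f, -, rfl⟩
      exact ⟨f, by
        show (ν f).map ℓ = _
        rw [hνℓ, ← hρK]
        rfl⟩
  have sp : Submodule.span Kf (Set.range a) = Submodule.span Kf (Set.range fun g => (ν g).map ℓ) :=
    le_antisymm sp2 sp1
  -- selection
  obtain ⟨R, i, hi1, hi2, hi3⟩ := hSEL Kf Z (Matrix (Fin n) (Fin n) (M2 Z F2 ι j D))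
    (Matrix (Fin n) (Fin n) (EG.Ol k Z ι)) E a (fun g => (ν g).map ℓ) ν
  obtain ⟨-, -, hOinv, -⟩ := hOLF k H Z Q ι hQ
  have hmain := hNCO k Z Q Kf (M2 Z F2 ι j D) (EG.Ol k Z ι) Δ ℓ n T ρ R (ν ∘ i) (s ∘ i) (a ∘ i) e
    (hDCO Z Q hQ.cent (EG.Ol k Z ι) hOinv)
    (fun m => (hn (i m)).1) (fun m m' => (hc (i m) (i m')).1)
    (fun m => (hn (i m)).2.1) (fun m m' => (hc (i m) (i m')).2.1) (fun m => hsΔ (i m))
    (fun m => (hn (i m)).2.2.1) (fun m m' => (hc (i m) (i m')).2.2) (fun m => hρa (i m))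
    (fun m => by
      by_cases hg : i m = 0
      · show (ν (i m)).map (fun o : EG.Ol k Z ι => Δ (o : Q)) + Matrix.scalar (Fin n) (s (i m)) =
          ρ (s (i m)) + a (i m)
        rw [hg, hν00, hs00, ha00, map_zero, map_zero, add_zero, add_zero]
        ext p q
        rw [Matrix.map_apply, Matrix.zero_apply, Matrix.zero_apply, ZeroMemClass.coe_zero, map_zero]
      · exact hid (i m) hg)
    (fun m => hνT (i m)) (by rw [hi1, sp, ← hi2]; rfl)
    (by
      intro J u hJ hst m j₀ hj₀ p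
      apply Subtype.ext
      have h1 := hSTB k H Z Q F2 R2 ι jF j D hQ hR n T τ hτ1 J (fun p l => (u p l : Q))
        (fun p hp l hl => by
          rw [hJ p hp l hl]
          split_ifs <;> rfl) hst (m : R2) j₀ hj₀ p
      rw [AddSubmonoidClass.coe_finsetSum, AddSubmonoidClass.coe_finsetSum]
      simp only [MulMemClass.coe_mul, AddSubmonoidClass.coe_finsetSum, hρ, hℓ]
      exact h1)
    (by
      intro q Y hY hst hq
      let V : M2 Z F2 ι j D →ₗ[k] R2 :=
        { toFun := Subtype.val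
          map_add' := fun _ _ => rfl
          map_smul' := fun _ _ => rfl }
      have hV : Function.Injective V := Subtype.val_injective
      refine hT1R k H Z Q F2 R2 ι jF j D hQ hR (q : Q) ((Y.restrictScalars k).map V) ?_ ?_ ?_
      · intro h0
        apply hY
        rw [Submodule.eq_bot_iff]
        intro y hy
        have h1 : V y ∈ (Y.restrictScalars k).map V := ⟨y, hy, rfl⟩
        rw [h0, Submodule.mem_bot] at h1
        exact hV (h1.trans (map_zero V).symm)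
      · rintro _ ⟨y, hy, rfl⟩ q'
        refine ⟨Δ q' * y, hst y hy q', ?_⟩
        show ((Δ q' * y : M2 Z F2 ι j D) : R2) = D q' * (y : R2)
        rw [MulMemClass.coe_mul, hΔ]
      · rintro _ ⟨y, hy, rfl⟩
        show D (q : Q) * (y : R2) = j ((q : Q) ⊗ₜ 1) * (y : R2)
        have h1 := congrArg (Subtype.val) (hq y hy)
        rw [MulMemClass.coe_mul, MulMemClass.coe_mul, hΔ, hℓ] at h1
        exact h1)
    he (fun m l => hkill (i m) l)
  have hspan0 : Submodule.span Z (Set.range ν) = ⊥ := by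
    rw [← hi3, Submodule.span_eq_bot]
    rintro _ ⟨m, rfl⟩
    exact hmain m
  intro g
  by_cases hg : g = 0
  · rw [hg, ZeroMemClass.coe_zero, map_zero, map_zero, map_zero]
  · refine hfin0 g hg ?_
    have : ν g ∈ Submodule.span Z (Set.range ν) := Submodule.subset_span ⟨g, rfl⟩
    rw [hspan0] at this
    exact this

end Core

end NISM

theorem specNIS (hNCO : SpecNCO.{u, v}) (hR2S : LB.SpecR2S.{u, v})
    (hOLF : EG.SpecOLF.{u, v}) (hDCO : SpecDCO.{v})
    (hOLM : SpecOLM.{u, v}) (hTRM : SpecTRM.{u, v}) (hNLF : SpecNLF.{u, v})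
    (hMUL : SpecMUL.{u, v}) (hT1R : SpecT1R.{u, v}) (hSTB : SpecSTB.{u, v})
    (hAL2 : SpecAL2.{u, v}) (hSPN : SpecSPN.{u, v}) (hLGI : SpecLGI.{u, v}) (hSEL : SpecSEL.{v})
    (hE0X : LB.SpecE0X.{u, v}) (hADA : EG.SpecADA.{u, v}) (hTEL : LB.SpecTEL.{u, v})
    (hTAL : LB.SpecTAL.{u, v}) (hRTL : LB.SpecRTL.{u, v}) : SpecNIS.{u, v} := by
  classical
  intro k H Z Q F2 R2 _ _ _ _ _ _ _ _ _ _ _ _ _ _ _ _ _ _ ι jF j D hQ hR hS hMK E δ hE
  obtain ⟨⟨hone, -⟩, hmul, -, -⟩ := hADA k H Z Q ι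
  obtain ⟨El, Er, hEl, -⟩ := hE0X k H Z Q ι hQ
  have := hEl.fin
  have hst := hEl.stab
  let A : H →ₗ[k] Module.End k Q :=
    { toFun := fun h => (EG.adlQ k Z ι h).restrictScalars k
      map_add' := fun x y => by ext q; simp
      map_smul' := fun c x => by ext q; simp }
  obtain ⟨n, e, f, hind, hspan, hf⟩ := LB.R1LM.exists_mat El A hst
    (by
      ext q
      change EG.adlQ k Z ι 1 q = q
      rw [hone]; rfl)
    (fun g h => by
      ext q
      change EG.adlQ k Z ι (g * h) q = EG.adlQ k Z ι g (EG.adlQ k Z ι h q)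
      rw [(hmul g h).1]; rfl)
  obtain ⟨T, hT⟩ := hTEL k H Z Q ι hQ hS n f
  obtain ⟨τ, hτ1, hτ2⟩ := hTAL k H Z Q F2 R2 ι jF j D hQ hR n f T hT
  obtain ⟨hrt, -⟩ := hRTL k H Z Q F2 R2 ι jF j D hQ hR hS n f T hT e hind hf
  have heE : ∀ i, e i ∈ El := fun i => by
    rw [← hspan]
    exact Submodule.subset_span ⟨i, rfl⟩
  have key := NISM.core hNCO hR2S hOLF hDCO hOLM hTRM hNLF hMUL hT1R hSTB hAL2 hSPN hLGI hSEL hQ hR
    hS hMK E δ hE f T hT τ hτ1 hτ2 e hind hf (fun i => hEl.sub _ (heE i)) hrt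
  have h1 : ∀ (g : E) (i : Fin n), D (algebraMap Z Q (g : Z)) * j (e i ⊗ₜ 1) =
      j (e i ⊗ₜ 1) * D (algebraMap Z Q (g : Z)) := by
    intro g i
    rw [hrt, key, Finset.sum_eq_single i]
    · rw [Matrix.algebraMap_matrix_apply, if_pos rfl]
    · intro l _ hl
      rw [Matrix.algebraMap_matrix_apply, if_neg hl, map_zero, mul_zero]
    · exact fun h => absurd (Finset.mem_univ i) h
  have h2 : ∀ g : E, ∀ x ∈ El, D (algebraMap Z Q (g : Z)) * j (x ⊗ₜ 1) =
      j (x ⊗ₜ 1) * D (algebraMap Z Q (g : Z)) := by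
    intro g x hx
    rw [← hspan] at hx
    induction hx using Submodule.span_induction with
    | mem x hx =>
      obtain ⟨i, rfl⟩ := hx
      exact h1 g i
    | zero => rw [TensorProduct.zero_tmul, map_zero, mul_zero, zero_mul]
    | add x y _ _ hx hy => rw [TensorProduct.add_tmul, map_add, mul_add, add_mul, hx, hy]
    | smul c x _ hx =>
      rw [← TensorProduct.smul_tmul', map_smul, mul_smul_comm, smul_mul_assoc, hx]
  have hz : ∀ z : Z, ∀ r : R2, r * j (algebraMap Z Q z ⊗ₜ 1) = j (algebraMap Z Q z ⊗ₜ 1) * r := by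
    intro z r
    have h3 : j (algebraMap Z Q z ⊗ₜ 1) = algebraMap F2 R2 (jF (z ⊗ₜ 1)) := by
      rw [← hR.cl.comp, iZ_tmul, map_one]
    rw [h3, Algebra.commutes]
  have h3 : ∀ g : E, ∀ x ∈ EG.Ol k Z ι, D (algebraMap Z Q (g : Z)) * j (x ⊗ₜ 1) =
      j (x ⊗ₜ 1) * D (algebraMap Z Q (g : Z)) := by
    intro g x hx
    have hx' := hEl.gen x hx
    clear hx
    induction hx' using Submodule.span_induction with
    | mem x hx => exact h2 g x hx
    | zero => rw [TensorProduct.zero_tmul, map_zero, mul_zero, zero_mul]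
    | add x y _ _ hx hy => rw [TensorProduct.add_tmul, map_add, mul_add, add_mul, hx, hy]
    | smul z x _ hx =>
      have h4 : j ((z • x) ⊗ₜ 1) = j (algebraMap Z Q z ⊗ₜ 1) * j (x ⊗ₜ 1) := by
        rw [← map_mul, Algebra.TensorProduct.tmul_mul_tmul, one_mul, Algebra.smul_def]
      rw [h4, ← mul_assoc, hz, mul_assoc, hx, mul_assoc]
  refine ⟨E, hE.fin, fun F hF => ?_⟩
  obtain ⟨c, h, hc, hcc, hch⟩ := hQ.frac (algebraMap Z Q F)
  refine ⟨c, h, hc, hcc, hch, fun x hx => hR.cl.inj ?_⟩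
  have hDc : j (EG.dd k ι c) = D (ι c) := (hR.D_ι c).symm
  have hDh : j (EG.dd k ι h) = D (ι h) := (hR.D_ι h).symm
  rw [map_mul, map_mul, map_mul, map_mul, hDc, hDh, ← hch, map_mul]
  have h5 : D (ι c) * D (algebraMap Z Q F) = D (algebraMap Z Q F) * D (ι c) := by
    rw [← map_mul, ← map_mul, Algebra.commutes]
  have h6 := h3 ⟨F, hF⟩ x hx
  change D (algebraMap Z Q F) * j (x ⊗ₜ 1) = j (x ⊗ₜ 1) * D (algebraMap Z Q F) at h6
  calc D (ι c) * j (x ⊗ₜ[k] 1) * (D (ι c) * D (algebraMap Z Q F))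
      = D (ι c) * j (x ⊗ₜ[k] 1) * (D (algebraMap Z Q F) * D (ι c)) := by rw [h5]
    _ = D (ι c) * (j (x ⊗ₜ[k] 1) * D (algebraMap Z Q F)) * D (ι c) := by
        rw [mul_assoc, mul_assoc, mul_assoc]
    _ = D (ι c) * (D (algebraMap Z Q F) * j (x ⊗ₜ[k] 1)) * D (ι c) := by rw [h6]
    _ = D (ι c) * D (algebraMap Z Q F) * j (x ⊗ₜ[k] 1) * D (ι c) := by
        rw [mul_assoc, mul_assoc, mul_assoc, mul_assoc]

end Pool.Agent.Lib.MP_c37a72_al.NI
end
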