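import Pool.Agent.Lib.MP_c37a72_al.NI.SpecN

/-!
# MP_c37a72_al, block NI, module AL2: algebraicity
-/

set_option autoImplicit false
set_option linter.unusedSectionVars false

open scoped TensorProduct
open Coalgebra HopfAlgebra Module
open Pool.Agent.Lib.MP_c37a72_al.LB

namespace Pool.Agent.Lib.MP_c37a72_al.NI

universe u v w

namespace AL2M

section CH

open Polynomial

/-- Cayley-Hamilton for a family `v` in a noncommutative ring, `χ` commuting with `g`. -/
theorem cayley {S R ι : Type*} [CommRing S] [Ring R] [Fintype ι] [DecidableEq ι] (χ : S →+* R)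
    (g : R) (hg : ∀ s, Commute (χ s) g) (v : ι → R) (A : ι → ι → S)
    (hA : ∀ i, g * v i = ∑ l, χ (A i l) * v l) (a : ι → S) (h1 : ∑ l, χ (a l) * v l = 1) :
    ∃ p : S[X], p.Monic ∧ p.eval₂ χ g = 0 := by
  set ev : S[X] →+* R := Polynomial.eval₂RingHom' χ g hg with hev
  have hevX : ev X = g := Polynomial.eval₂_X χ g
  have hevC : ∀ s, ev (C s) = χ s := fun s => Polynomial.eval₂_C χ g
  set M : Matrix ι ι S[X] := (Matrix.of A).charmatrix with hM
  have key : ∀ i, ∑ l, ev (M i l) * v l = 0 := by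
    intro i
    have h2 : ∀ l, ev (M i l) * v l = (if l = i then g * v l else 0) - χ (A i l) * v l := by
      intro l
      rw [hM, Matrix.charmatrix_apply, map_sub, hevC, sub_mul, Matrix.diagonal_apply]
      by_cases h : i = l
      · rw [if_pos h, if_pos h.symm, hevX]
        rfl
      · rw [if_neg h, if_neg (fun h' => h h'.symm), map_zero, zero_mul]
        rfl
    rw [Finset.sum_congr rfl (fun l _ => h2 l), Finset.sum_sub_distrib,
      Finset.sum_ite_eq' Finset.univ i, if_pos (Finset.mem_univ i), hA i, sub_self]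
  have hdet : ∀ i, ev M.det * v i = 0 := by
    intro i
    have h2 : ∀ l, ev (if l = i then M.det else 0) = ∑ m, ev (M.adjugate i m) * ev (M m l) := by
      intro l
      have h3 := congrArg (fun N : Matrix ι ι S[X] => N i l) (Matrix.adjugate_mul M)
      simp only [Matrix.mul_apply, Matrix.smul_apply, Matrix.one_apply, smul_eq_mul, mul_ite,
        mul_one, mul_zero] at h3
      rw [← Finset.sum_congr rfl (fun m _ => map_mul ev (M.adjugate i m) (M m l)), ← map_sum, h3]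
      by_cases h : i = l
      · rw [if_pos h, if_pos h.symm]
      · rw [if_neg h, if_neg (fun h' => h h'.symm)]
    have h4 : ev M.det * v i = ∑ l, ev (if l = i then M.det else 0) * v l := by
      rw [Finset.sum_eq_single i]
      · rw [if_pos rfl]
      · intro l _ hl
        rw [if_neg hl, map_zero, zero_mul]
      · intro h
        exact absurd (Finset.mem_univ i) h
    rw [h4]
    calc ∑ l, ev (if l = i then M.det else 0) * v l
        = ∑ l, ∑ m, ev (M.adjugate i m) * (ev (M m l) * v l) := by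
          refine Finset.sum_congr rfl (fun l _ => ?_)
          rw [h2 l, Finset.sum_mul]
          exact Finset.sum_congr rfl (fun m _ => mul_assoc _ _ _)
      _ = ∑ m, ev (M.adjugate i m) * ∑ l, ev (M m l) * v l := by
          rw [Finset.sum_comm]
          exact Finset.sum_congr rfl (fun m _ => (Finset.mul_sum _ _ _).symm)
      _ = 0 := Finset.sum_eq_zero (fun m _ => by rw [key m, mul_zero])
  refine ⟨M.det, Matrix.charpoly_monic (Matrix.of A), ?_⟩
  change ev M.det = 0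
  calc ev M.det = ev M.det * ∑ l, χ (a l) * v l := by rw [h1, mul_one]
    _ = ∑ l, χ (a l) * (ev M.det * v l) := by
        rw [Finset.mul_sum]
        refine Finset.sum_congr rfl (fun l _ => ?_)
        rw [← hevC, ← mul_assoc, ← mul_assoc, ← map_mul, ← map_mul, mul_comm]
    _ = 0 := Finset.sum_eq_zero (fun l _ => by rw [hdet l, mul_zero])

/-- transfer of an equation modulo commuting nilpotents -/
theorem transfer {S R K : Type*} [CommRing S] [Ring R] [Field K] (T : Subring R)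
    (hT : ∀ x ∈ T, ∀ y ∈ T, x * y = y * x) (κ : K →+* R) (hκ : ∀ c, κ c ∈ T)
    (hinj : Function.Injective κ) (χ : S →+* R) (χ' : S →+* K) (hχ : ∀ s, χ s ∈ T)
    (hnil : ∀ s, IsNilpotent (χ s - κ (χ' s))) (x : K) (p : S[X])
    (hp : p.eval₂ χ (κ x) = 0) : p.eval₂ χ' x = 0 := by
  have key : ∀ p : S[X], p.eval₂ χ (κ x) ∈ T ∧
      IsNilpotent (p.eval₂ χ (κ x) - κ (p.eval₂ χ' x)) := by
    intro p
    induction p using Polynomial.induction_on' with
    | add p q hp hq =>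
      rw [Polynomial.eval₂_add, Polynomial.eval₂_add, map_add]
      refine ⟨T.add_mem hp.1 hq.1, ?_⟩
      rw [add_sub_add_comm]
      refine Commute.isNilpotent_add ?_ hp.2 hq.2
      exact hT _ (T.sub_mem hp.1 (hκ _)) _ (T.sub_mem hq.1 (hκ _))
    | monomial n s =>
      rw [Polynomial.eval₂_monomial, Polynomial.eval₂_monomial, map_mul, map_pow]
      refine ⟨T.mul_mem (hχ s) (T.pow_mem (hκ x) n), ?_⟩
      rw [← sub_mul]
      refine Commute.isNilpotent_mul_right ?_ (hnil s)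
      exact hT _ (T.sub_mem (hχ s) (hκ _)) _ (T.pow_mem (hκ x) n)
  have h1 := (key p).2
  rw [hp, zero_sub, isNilpotent_neg_iff] at h1
  obtain ⟨n, hn⟩ := h1
  rw [← map_pow] at hn
  have h2 : (p.eval₂ χ' x) ^ n = 0 := hinj (by rw [hn, map_zero])
  exact isNilpotent_iff_eq_zero.1 ⟨n, h2⟩

end CH

section Hopf

variable {k : Type u} {H Z Q F2 R2 : Type v} [Field k] [Ring H] [HopfAlgebra k H]
    [Field Z] [Algebra k Z] [DivisionRing Q] [Algebra k Q] [Algebra Z Q] [IsScalarTower k Z Q]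
    [Field F2] [Algebra k F2] [Ring R2] [Algebra k R2] [Algebra F2 R2] [IsScalarTower k F2 R2]
    {ι : H →ₐ[k] Q} {j : Q ⊗[k] Q →ₐ[k] R2} {D : Q →ₐ[k] R2}

/-- `x ⊗ y ↦ D(ι x) j(1 ⊗ ι S y)` -/
noncomputable def Lam (ι : H →ₐ[k] Q) (j : Q ⊗[k] Q →ₐ[k] R2) (D : Q →ₐ[k] R2) :
    H ⊗[k] H →ₗ[k] R2 :=
  TensorProduct.lift ((LinearMap.mul k R2).compl₁₂ (D.toLinearMap ∘ₗ ι.toLinearMap)
    ((j.comp (Algebra.TensorProduct.includeRight : Q →ₐ[k] Q ⊗[k] Q)).toLinearMap ∘ₗ
      ι.toLinearMap ∘ₗ antipode k))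

theorem Lam_tmul (x y : H) :
    Lam ι j D (x ⊗ₜ y) = D (ι x) * j (1 ⊗ₜ ι (antipode k y)) := rfl

/-- `(x ⊗ y) ⊗ z ↦ ι x ⊗ ι (y S z)` -/
noncomputable def G3 (ι : H →ₐ[k] Q) : H ⊗[k] (H ⊗[k] H) →ₗ[k] Q ⊗[k] Q :=
  TensorProduct.map ι.toLinearMap (ι.toLinearMap ∘ₗ LinearMap.mul' k H ∘ₗ
    (antipode k).lTensor H)

theorem G3_tmul (x y z : H) : G3 ι (x ⊗ₜ (y ⊗ₜ z)) = ι x ⊗ₜ ι (y * antipode k z) := rfl

theorem Lam_eq (hD : ∀ h, D (ι h) = j (dQ ι h)) (t : H ⊗[k] H) :
    Lam ι j D t = j (G3 ι (TensorProduct.assoc k H H H ((comul (R := k)).rTensor H t))) := by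
  induction t using TensorProduct.induction_on with
  | zero => simp
  | add x y hx hy => simp only [map_add, hx, hy]
  | tmul x y =>
    have hd : dQ ι x = TensorProduct.map ι.toLinearMap ι.toLinearMap (comul (R := k) x) := rfl
    rw [Lam_tmul, LinearMap.rTensor_tmul, hD, hd, ← map_mul]
    congr 1
    generalize comul (R := k) x = t
    induction t using TensorProduct.induction_on with
    | zero => simp
    | add a b ha hb =>
      rw [map_add, add_mul, ha, hb, TensorProduct.add_tmul, map_add, map_add]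
    | tmul a b =>
      rw [TensorProduct.map_tmul, Algebra.TensorProduct.tmul_mul_tmul, mul_one,
        TensorProduct.assoc_tmul, G3_tmul, map_mul]
      rfl

theorem Lam_comul (hD : ∀ h, D (ι h) = j (dQ ι h)) (h : H) :
    Lam ι j D (comul (R := k) h) = j (ι h ⊗ₜ 1) := by
  rw [Lam_eq hD, coassoc_apply]
  congr 1
  have h1 : ∀ t : H ⊗[k] H, G3 ι ((comul (R := k)).lTensor H t) =
      (ι h ⊗ₜ 1 : Q ⊗[k] Q) - ι h ⊗ₜ 1 + TensorProduct.map ι.toLinearMap
        ((Algebra.linearMap k Q) ∘ₗ counit) t := by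
    intro t
    rw [sub_self, zero_add]
    induction t using TensorProduct.induction_on with
    | zero => simp
    | add a b ha hb => simp only [map_add, ha, hb]
    | tmul a b =>
      rw [LinearMap.lTensor_tmul, TensorProduct.map_tmul]
      change ι a ⊗ₜ[k] ι (LinearMap.mul' k H ((antipode k).lTensor H (comul (R := k) b))) = _
      rw [mul_antipode_lTensor_comul_apply, AlgHom.commutes]
      rfl
  rw [h1, sub_self, zero_add]
  have h2 : ∀ t : H ⊗[k] H, TensorProduct.map ι.toLinearMap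
      ((Algebra.linearMap k Q) ∘ₗ counit (R := k)) t =
      TensorProduct.map ι.toLinearMap (Algebra.linearMap k Q)
        ((counit (R := k)).lTensor H t) := by
    intro t
    induction t using TensorProduct.induction_on with
    | zero => simp
    | add a b ha hb => simp only [map_add, ha, hb]
    | tmul a b => rfl
  rw [h2, lTensor_counit_comul, TensorProduct.map_tmul]
  simp

end Hopf

section Fields

open Polynomial

/-- a root of a monic polynomial with coefficients in `L` is algebraic over `L` -/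
theorem alg_of_root {k : Type u} {Kf : Type v} [Field k] [Field Kf] [Algebra k Kf]
    (L : IntermediateField k Kf) {S : Type w} [CommRing S] (f : S →+* Kf) (hf : ∀ s, f s ∈ L)
    (x : Kf) (p : S[X]) (hp : p.Monic) (hx : p.eval₂ f x = 0) : IsAlgebraic L x := by
  have h1 : IsIntegral L x := by
    refine ⟨p.map (f.codRestrict L hf), hp.map _, ?_⟩
    rw [Polynomial.eval₂_map]
    exact hx
  exact h1.isAlgebraic

end Fields

section Main

variable {k : Type u} {H Z Q F2 R2 : Type v} [Field k] [Ring H] [IsDomain H] [HopfAlgebra k H]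
    [Field Z] [Algebra k Z] [DivisionRing Q] [Algebra k Q] [Algebra Z Q] [IsScalarTower k Z Q]
    [Field F2] [Algebra k F2] [Ring R2] [Algebra k R2] [Algebra F2 R2] [IsScalarTower k F2 R2]
    {ι : H →ₐ[k] Q} {jF : Z ⊗[k] Z →ₐ[k] F2} {j : Q ⊗[k] Q →ₐ[k] R2} {D : Q →ₐ[k] R2}

theorem central_left (hR : IsR2 ι jF j D) (z : Z) (x : R2) :
    j (algebraMap Z Q z ⊗ₜ 1) * x = x * j (algebraMap Z Q z ⊗ₜ 1) := by
  have h1 : j (algebraMap Z Q z ⊗ₜ 1) = algebraMap F2 R2 (jF (z ⊗ₜ 1)) := by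
    rw [← hR.cl.comp, iZ_tmul, map_one]
  rw [h1, Algebra.commutes]

theorem central_right (hR : IsR2 ι jF j D) (z : Z) (x : R2) :
    j (1 ⊗ₜ algebraMap Z Q z) * x = x * j (1 ⊗ₜ algebraMap Z Q z) := by
  have h1 : j (1 ⊗ₜ algebraMap Z Q z) = algebraMap F2 R2 (jF (1 ⊗ₜ z)) := by
    rw [← hR.cl.comp, iZ_tmul, map_one]
  rw [h1, Algebra.commutes]

theorem nontriv (hR : IsR2 ι jF j D) : Nontrivial R2 := by
  by_contra hcon
  rw [not_nontrivial_iff_subsingleton] at hcon
  have h1 : (1 : Q) ⊗ₜ[k] (1 : Q) = 0 := hR.cl.inj (Subsingleton.elim _ _)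
  have h6 := (Module.Flat.rTensor_preserves_injective_linearMap (M := Q)
    (Algebra.linearMap k Q) (algebraMap k Q).injective)
  have h7 : (1 : k) ⊗ₜ[k] (1 : Q) = 0 := h6 (by
    rw [map_zero, LinearMap.rTensor_tmul, Algebra.linearMap_apply, map_one]; exact h1)
  have h8 := congrArg (TensorProduct.lid k Q) h7
  rw [TensorProduct.lid_tmul, one_smul, map_zero] at h8
  exact one_ne_zero h8

variable {E : Type v} [Field E] [Algebra k E] (inc : E →ₐ[k] Z)

/-- `f ⊗ z ↦ D(f) j(1 ⊗ z)` -/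
noncomputable def chi (hR : IsR2 ι jF j D) : E ⊗[k] Z →ₐ[k] R2 :=
  Algebra.TensorProduct.lift ((D.comp (zQ k Z Q)).comp inc)
    ((j.comp (Algebra.TensorProduct.includeRight : Q →ₐ[k] Q ⊗[k] Q)).comp (zQ k Z Q))
    (fun _ y => (central_right hR y _).symm)

theorem chi_tmul (hR : IsR2 ι jF j D) (f : E) (z : Z) :
    chi inc hR (f ⊗ₜ z) = D (algebraMap Z Q (inc f)) * j (1 ⊗ₜ algebraMap Z Q z) :=
  Algebra.TensorProduct.lift_tmul _ _ _ _ _

/-- membership in the span of the family `D(e i) j(1 ⊗ e' l)` -/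
def InV (hR : IsR2 ι jF j D) {n m : ℕ} (e : Fin n → Q) (e' : Fin m → Q) (x : R2) : Prop :=
  ∃ s : Fin n × Fin m → E ⊗[k] Z,
    ∑ p, chi inc hR (s p) * (D (e p.1) * j (1 ⊗ₜ e' p.2)) = x

theorem InV.zero (hR : IsR2 ι jF j D) {n m : ℕ} (e : Fin n → Q) (e' : Fin m → Q) :
    InV inc hR e e' 0 := ⟨0, by simp⟩

theorem InV.add {hR : IsR2 ι jF j D} {n m : ℕ} {e : Fin n → Q} {e' : Fin m → Q} {x y : R2}
    (hx : InV inc hR e e' x) (hy : InV inc hR e e' y) : InV inc hR e e' (x + y) := by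
  obtain ⟨s, hs⟩ := hx
  obtain ⟨t, ht⟩ := hy
  refine ⟨s + t, ?_⟩
  rw [← hs, ← ht, ← Finset.sum_add_distrib]
  refine Finset.sum_congr rfl (fun p _ => ?_)
  rw [Pi.add_apply, map_add, add_mul]

theorem InV.mk (hR : IsR2 ι jF j D) {n m : ℕ} {e : Fin n → Q} {e' : Fin m → Q}
    (he : ∀ q : Q, ∃ c : Fin n → E, ∑ i, algebraMap Z Q (inc (c i)) * e i = q)
    (he' : ∀ q : Q, ∃ c : Fin m → Z, ∑ i, algebraMap Z Q (c i) * e' i = q) (a b : Q) :
    InV inc hR e e' (D a * j (1 ⊗ₜ b)) := by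
  obtain ⟨c, rfl⟩ := he a
  obtain ⟨c', rfl⟩ := he' b
  refine ⟨fun p => c p.1 ⊗ₜ c' p.2, ?_⟩
  rw [map_sum, TensorProduct.tmul_sum, map_sum, Finset.sum_mul_sum, Fintype.sum_prod_type]
  refine Finset.sum_congr rfl (fun i _ => Finset.sum_congr rfl (fun l _ => ?_))
  rw [chi_tmul, map_mul]
  have h1 : j ((1 : Q) ⊗ₜ[k] (algebraMap Z Q (c' l) * e' l)) =
      j (1 ⊗ₜ algebraMap Z Q (c' l)) * j (1 ⊗ₜ e' l) := by
    rw [← map_mul, Algebra.TensorProduct.tmul_mul_tmul, mul_one]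
  rw [h1]
  have h2 := central_right hR (c' l) (D (e i))
  calc D (algebraMap Z Q (inc (c i))) * j (1 ⊗ₜ algebraMap Z Q (c' l)) *
        (D (e i) * j (1 ⊗ₜ e' l))
      = D (algebraMap Z Q (inc (c i))) * (j (1 ⊗ₜ algebraMap Z Q (c' l)) * D (e i)) *
        j (1 ⊗ₜ e' l) := by simp only [mul_assoc]
    _ = D (algebraMap Z Q (inc (c i))) * D (e i) *
        (j (1 ⊗ₜ algebraMap Z Q (c' l)) * j (1 ⊗ₜ e' l)) := by rw [h2]; simp only [mul_assoc]

theorem exists_span (E : IntermediateField k Z) (hQ : IsCQ k H Z Q ι) (hE : Module.Finite E Z) :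
    ∃ (n : ℕ) (e : Fin n → Q), ∀ q : Q, ∃ c : Fin n → E,
      ∑ i, algebraMap Z Q (E.val (c i)) * e i = q := by
  have := hQ.fin
  obtain ⟨n, e, he⟩ := Module.Finite.exists_fin (R := Z) (M := Q)
  obtain ⟨m, f, hf⟩ := Module.Finite.exists_fin (R := E) (M := Z)
  have h1 : ∀ q : Q, ∃ c : Fin n → Z, ∑ i, c i • e i = q := fun q =>
    (Submodule.mem_span_range_iff_exists_fun Z).1 (he ▸ Submodule.mem_top)
  have h2 : ∀ z : Z, ∃ c : Fin m → E, ∑ i, c i • f i = z := fun z =>
    (Submodule.mem_span_range_iff_exists_fun E).1 (hf ▸ Submodule.mem_top)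
  refine ⟨n * m, fun p => algebraMap Z Q (f (finProdFinEquiv.symm p).2) *
    e (finProdFinEquiv.symm p).1, fun q => ?_⟩
  obtain ⟨c, rfl⟩ := h1 q
  choose d hd using fun i => h2 (c i)
  refine ⟨fun p => d (finProdFinEquiv.symm p).1 (finProdFinEquiv.symm p).2, ?_⟩
  rw [← finProdFinEquiv.sum_comp, Fintype.sum_prod_type]
  refine Finset.sum_congr rfl (fun i _ => ?_)
  simp only [Equiv.symm_apply_apply]
  rw [Algebra.smul_def, ← hd i, map_sum, Finset.sum_mul]
  refine Finset.sum_congr rfl (fun l _ => ?_)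
  rw [← mul_assoc, ← map_mul]
  rfl

theorem exists_span' (hQ : IsCQ k H Z Q ι) :
    ∃ (n : ℕ) (e : Fin n → Q), ∀ q : Q, ∃ c : Fin n → Z,
      ∑ i, algebraMap Z Q (c i) * e i = q := by
  have := hQ.fin
  obtain ⟨n, e, he⟩ := Module.Finite.exists_fin (R := Z) (M := Q)
  refine ⟨n, e, fun q => ?_⟩
  obtain ⟨c, hc⟩ := (Submodule.mem_span_range_iff_exists_fun Z).1
    (he ▸ Submodule.mem_top : q ∈ Submodule.span Z (Set.range e))
  refine ⟨c, ?_⟩
  rw [← hc]
  exact Finset.sum_congr rfl (fun i _ => (Algebra.smul_def _ _).symm)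

open Polynomial in
/-- the equation of `j(ι c ⊗ 1)` -/
theorem equation (hQ : IsCQ k H Z Q ι) (hR : IsR2 ι jF j D)
    (hE : ∃ (n : ℕ) (e : Fin n → Q), ∀ q : Q, ∃ c : Fin n → E,
      ∑ i, algebraMap Z Q (inc (c i)) * e i = q) (c : H)
    (z : Z) (hz : algebraMap Z Q z = ι c) :
    ∃ p : (E ⊗[k] Z)[X], p.Monic ∧
      p.eval₂ (chi inc hR).toRingHom (j (ι c ⊗ₜ 1)) = 0 := by
  classical
  obtain ⟨n, e, he⟩ := hE
  obtain ⟨m, e', he'⟩ := exists_span' hQ
  have hg : ∀ x, j (ι c ⊗ₜ 1) * x = x * j (ι c ⊗ₜ 1) := by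
    intro x
    rw [← hz]
    exact central_left hR z x
  have hst : ∀ (a b : Q) (t : H ⊗[k] H), InV inc hR e e' (D a * Lam ι j D t * j (1 ⊗ₜ b)) := by
    intro a b t
    induction t using TensorProduct.induction_on with
    | zero =>
      rw [map_zero, mul_zero, zero_mul]
      exact InV.zero inc hR e e'
    | add x y hx hy =>
      rw [map_add, mul_add, add_mul]
      exact InV.add inc hx hy
    | tmul x y =>
      have h1 : D a * Lam ι j D (x ⊗ₜ y) * j (1 ⊗ₜ b) =
          D (a * ι x) * j (1 ⊗ₜ (ι (antipode k y) * b)) := by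
        rw [Lam_tmul, map_mul, mul_assoc, mul_assoc, mul_assoc, ← map_mul j,
          Algebra.TensorProduct.tmul_mul_tmul, mul_one]
      rw [h1]
      exact InV.mk inc hR he he' _ _
  have hA : ∀ p : Fin n × Fin m, InV inc hR e e' (j (ι c ⊗ₜ 1) * (D (e p.1) * j (1 ⊗ₜ e' p.2))) := by
    intro p
    have h1 := hst (e p.1) (e' p.2) (comul (R := k) c)
    rw [Lam_comul hR.D_ι, ← hg, mul_assoc] at h1
    exact h1
  choose A hA using hA
  obtain ⟨a, ha⟩ := InV.mk inc hR he he' 1 1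
  have h1 : D 1 * j ((1 : Q) ⊗ₜ[k] (1 : Q)) = 1 := by
    rw [map_one, one_mul]
    exact map_one j
  rw [h1] at ha
  exact cayley (chi inc hR).toRingHom (j (ι c ⊗ₜ 1)) (fun s => (hg _).symm)
    (fun p : Fin n × Fin m => D (e p.1) * j (1 ⊗ₜ e' p.2)) A (fun p => (hA p).symm) a ha

section Second

variable {Kf : Type v} [Field Kf] [Algebra k Kf] {κ : Kf →ₐ[k] R2}
    {δ : E →ₐ[k] Kf} {l r : Z →ₐ[k] Kf} {inc}

open Polynomial

/-- the commutative ring of `D(E)` and `κ(Kf)` -/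
def TT (inc : E →ₐ[k] Z) (D : Q →ₐ[k] R2) (κ : Kf →ₐ[k] R2) : Subring R2 :=
  Subring.centralizer (Set.centralizer
    (Set.range (fun f : E => D (algebraMap Z Q (inc f))) ∪ Set.range κ))

theorem TT_comm (hκD : ∀ c q, κ c * D q = D q * κ c) :
    ∀ x ∈ TT inc D κ, ∀ y ∈ TT inc D κ, x * y = y * x := by
  have h1 : ∀ x ∈ (Set.range (fun f : E => D (algebraMap Z Q (inc f))) ∪ Set.range κ),
      ∀ y ∈ (Set.range (fun f : E => D (algebraMap Z Q (inc f))) ∪ Set.range κ),
        x * y = y * x := by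
    rintro x (⟨f, rfl⟩ | ⟨c, rfl⟩) y (⟨g, rfl⟩ | ⟨d, rfl⟩)
    · change D (algebraMap Z Q (inc f)) * D (algebraMap Z Q (inc g)) =
        D (algebraMap Z Q (inc g)) * D (algebraMap Z Q (inc f))
      rw [← map_mul, Algebra.commutes, map_mul]
    · exact (hκD d _).symm
    · exact hκD c _
    · rw [← map_mul, ← map_mul, mul_comm]
  exact Set.centralizer_centralizer_comm_of_comm h1

theorem TT_κ (c : Kf) : κ c ∈ TT inc D κ :=
  Set.subset_centralizer_centralizer (Or.inr ⟨c, rfl⟩)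

theorem TT_D (f : E) : D (algebraMap Z Q (inc f)) ∈ TT inc D κ :=
  Set.subset_centralizer_centralizer (Or.inl ⟨f, rfl⟩)

/-- `f ⊗ z ↦ δ(f) r(z)` -/
noncomputable def chi' (δ : E →ₐ[k] Kf) (r : Z →ₐ[k] Kf) : E ⊗[k] Z →ₐ[k] Kf :=
  Algebra.TensorProduct.lift δ r (fun _ _ => mul_comm _ _)

theorem chi'_tmul (f : E) (z : Z) : chi' δ r (f ⊗ₜ z) = δ f * r z :=
  Algebra.TensorProduct.lift_tmul _ _ _ _ _

theorem chi'_mem (s : E ⊗[k] Z) :
    chi' δ r s ∈ IntermediateField.adjoin k (Set.range δ ∪ Set.range r) := by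
  induction s using TensorProduct.induction_on with
  | zero => rw [map_zero]; exact zero_mem _
  | add x y hx hy => rw [map_add]; exact add_mem hx hy
  | tmul f z =>
    rw [chi'_tmul]
    exact mul_mem (IntermediateField.subset_adjoin _ _ (Or.inl ⟨f, rfl⟩))
      (IntermediateField.subset_adjoin _ _ (Or.inr ⟨z, rfl⟩))

theorem chi_mem (hR : IsR2 ι jF j D) (hr : ∀ z, κ (r z) = j (1 ⊗ₜ algebraMap Z Q z))
    (s : E ⊗[k] Z) : chi inc hR s ∈ TT inc D κ := by
  induction s using TensorProduct.induction_on with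
  | zero => rw [map_zero]; exact zero_mem _
  | add x y hx hy => rw [map_add]; exact add_mem hx hy
  | tmul f z =>
    rw [chi_tmul, ← hr]
    exact mul_mem (TT_D f) (TT_κ _)

theorem chi_nil (hR : IsR2 ι jF j D) (hκD : ∀ c q, κ c * D q = D q * κ c)
    (hr : ∀ z, κ (r z) = j (1 ⊗ₜ algebraMap Z Q z))
    (hδ : ∀ f : E, IsNilpotent (D (algebraMap Z Q (inc f)) - κ (δ f))) (s : E ⊗[k] Z) :
    IsNilpotent (chi inc hR s - κ (chi' δ r s)) := by
  induction s using TensorProduct.induction_on with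
  | zero => rw [map_zero, map_zero, map_zero, sub_zero]; exact IsNilpotent.zero
  | add x y hx hy =>
    rw [map_add, map_add, map_add, add_sub_add_comm]
    refine Commute.isNilpotent_add ?_ hx hy
    exact TT_comm (inc := inc) hκD _ (sub_mem (chi_mem hR hr x) (TT_κ _)) _
      (sub_mem (chi_mem hR hr y) (TT_κ _))
  | tmul f z =>
    rw [chi_tmul, chi'_tmul, ← hr, map_mul, ← sub_mul]
    refine Commute.isNilpotent_mul_right ?_ (hδ f)
    exact TT_comm (inc := inc) hκD _ (sub_mem (TT_D f) (TT_κ _)) _ (TT_κ _)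

theorem κ_inj (hR : IsR2 ι jF j D) : Function.Injective κ := by
  have := nontriv hR
  exact (κ : Kf →+* R2).injective

/-- part (1), for `c` central in `H` -/
theorem alg_cent (hQ : IsCQ k H Z Q ι) (hR : IsR2 ι jF j D) 
    (hE : ∃ (n : ℕ) (e : Fin n → Q), ∀ q : Q, ∃ c : Fin n → E,
      ∑ i, algebraMap Z Q (inc (c i)) * e i = q)
    (hκD : ∀ c q, κ c * D q = D q * κ c)
    (hl : ∀ z, κ (l z) = j (algebraMap Z Q z ⊗ₜ 1))
    (hr : ∀ z, κ (r z) = j (1 ⊗ₜ algebraMap Z Q z))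
    (hδ : ∀ f : E, IsNilpotent (D (algebraMap Z Q (inc f)) - κ (δ f))) (c : H) (z : Z)
    (hz : algebraMap Z Q z = ι c) :
    IsAlgebraic (IntermediateField.adjoin k (Set.range δ ∪ Set.range r)) (l z) := by
  obtain ⟨p, hp, hp0⟩ := equation inc hQ hR hE c z hz
  rw [← hz, ← hl] at hp0
  have hp1 : p.eval₂ (chi inc hR).toRingHom (κ.toRingHom (l z)) = 0 := hp0
  have h1 := transfer (TT inc D κ) (TT_comm hκD) κ.toRingHom TT_κ (κ_inj hR)
    (chi inc hR).toRingHom (chi' δ r).toRingHom (chi_mem hR hr) (chi_nil hR hκD hr hδ) (l z) p hp1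
  exact alg_of_root _ (chi' δ r).toRingHom chi'_mem (l z) p hp h1

/-- part (1) -/
theorem part1 (hQ : IsCQ k H Z Q ι) (hR : IsR2 ι jF j D) 
    (hE : ∃ (n : ℕ) (e : Fin n → Q), ∀ q : Q, ∃ c : Fin n → E,
      ∑ i, algebraMap Z Q (inc (c i)) * e i = q)
    (hκD : ∀ c q, κ c * D q = D q * κ c)
    (hl : ∀ z, κ (l z) = j (algebraMap Z Q z ⊗ₜ 1))
    (hr : ∀ z, κ (r z) = j (1 ⊗ₜ algebraMap Z Q z))
    (hδ : ∀ f : E, IsNilpotent (D (algebraMap Z Q (inc f)) - κ (δ f))) (z : Z) :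
    IsAlgebraic (IntermediateField.adjoin k (Set.range δ ∪ Set.range r)) (l z) := by
  obtain ⟨c, h, hc0, hc, hch⟩ := hQ.frac (algebraMap Z Q z)
  obtain ⟨zc, hzc⟩ := hQ.cent (ι c) (fun x => REGM.cent_image hQ hc x)
  have hzc0 : zc ≠ 0 := by
    rintro rfl
    rw [map_zero] at hzc
    exact hc0 (hQ.inj (by rw [← hzc, map_zero]))
  have hzh : algebraMap Z Q (zc * z) = ι h := by rw [map_mul, hzc, hch]
  have h1 := alg_cent hQ hR hE hκD hl hr hδ c zc hzc
  have h2 := alg_cent hQ hR hE hκD hl hr hδ h (zc * z) hzh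
  have h3 : l z = (l zc)⁻¹ * l (zc * z) := by
    have h4 : l zc ≠ 0 := by
      intro h0
      exact hzc0 ((l : Z →+* Kf).injective (by rw [map_zero]; exact h0))
    rw [map_mul, ← mul_assoc, inv_mul_cancel₀ h4, one_mul]
  rw [h3]
  exact h1.inv.mul h2

/-- part (2) -/
theorem part2 {E : IntermediateField k Z} {δ : E →ₐ[k] Kf} (hQ : IsCQ k H Z Q ι) (hR : IsR2 ι jF j D) (hE : Module.Finite E Z)
    (hK : ∀ x, x ∈ K2 Z F2 ι j D ↔ ∃ c, κ c = x)
    (hl : ∀ z, κ (l z) = j (algebraMap Z Q z ⊗ₜ 1))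
    (hr : ∀ z, κ (r z) = j (1 ⊗ₜ algebraMap Z Q z)) (f : E) :
    IsAlgebraic (IntermediateField.adjoin k
      ((Set.range fun g : E => l (g : Z)) ∪ Set.range r)) (δ f) := by
  classical
  set L := IntermediateField.adjoin k ((Set.range fun g : E => l (g : Z)) ∪ Set.range r) with hL
  have hκ : Function.Injective κ := κ_inj hR
  -- `l z`, `r z` are algebraic over `L`
  have hlE : ∀ g : E, l (g : Z) ∈ L := fun g =>
    IntermediateField.subset_adjoin _ _ (Or.inl ⟨g, rfl⟩)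
  have hlz : ∀ z : Z, IsAlgebraic L (l z) := by
    intro z
    obtain ⟨p, hp, hp0⟩ := Algebra.IsIntegral.isIntegral (R := E) z
    refine alg_of_root L ((l.comp E.val).toRingHom) hlE (l z) p hp ?_
    have h1 := congrArg l hp0
    rw [map_zero] at h1
    rw [← h1]
    exact (Polynomial.hom_eval₂ p (algebraMap E Z) (l : Z →+* Kf) z).symm
  have hrz : ∀ z : Z, IsAlgebraic L (r z) := by
    intro z
    have h1 : r z ∈ L := IntermediateField.subset_adjoin _ _ (Or.inr ⟨z, rfl⟩)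
    exact isAlgebraic_algebraMap (⟨r z, h1⟩ : L)
  -- the embedding `F2 → Kf`
  have hF : ∀ x : F2, ∃ y : Kf, κ y = algebraMap F2 R2 x := fun x =>
    (hK _).1 ((K2 Z F2 ι j D).algebraMap_mem x)
  choose φ hφ using hF
  let Φ : F2 →+* Kf :=
    { toFun := φ
      map_one' := hκ (by rw [hφ, map_one, map_one])
      map_mul' := fun a b => hκ (by rw [hφ, map_mul, map_mul, hφ, hφ])
      map_zero' := hκ (by rw [hφ, map_zero, map_zero])
      map_add' := fun a b => hκ (by rw [hφ, map_add, map_add, hφ, hφ]) }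
  have hΦ : ∀ x, κ (Φ x) = algebraMap F2 R2 x := hφ
  let lam : Z ⊗[k] Z →ₐ[k] Kf := Algebra.TensorProduct.lift l r (fun _ _ => mul_comm _ _)
  have hlam : ∀ t, Φ (jF t) = lam t := by
    intro t
    apply hκ
    rw [hΦ, ← hR.cl.comp]
    induction t using TensorProduct.induction_on with
    | zero => simp
    | add x y hx hy => rw [map_add, map_add, map_add, map_add, hx, hy]
    | tmul a b =>
      have h1 : lam (a ⊗ₜ b) = l a * r b := Algebra.TensorProduct.lift_tmul _ _ _ _ _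
      rw [h1, map_mul, hl, hr, iZ_tmul, ← map_mul, Algebra.TensorProduct.tmul_mul_tmul, mul_one,
        one_mul]
  have hlamalg : ∀ t, IsAlgebraic L (lam t) := by
    intro t
    induction t using TensorProduct.induction_on with
    | zero => rw [map_zero]; exact isAlgebraic_zero
    | add x y hx hy => rw [map_add]; exact hx.add hy
    | tmul a b =>
      have h1 : lam (a ⊗ₜ b) = l a * r b := Algebra.TensorProduct.lift_tmul _ _ _ _ _
      rw [h1]
      exact (hlz a).mul (hrz b)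
  have hΦalg : ∀ x, IsAlgebraic L (Φ x) := by
    intro x
    obtain ⟨a, b, hb, hab⟩ := hR.frc.surj x
    have h1 : Φ x * lam b = lam a := by rw [← hlam, ← hlam, ← map_mul, hab]
    have h2 : lam b ≠ 0 := by
      rw [← hlam]
      intro h0
      exact hR.frc.ne' hb (Φ.injective (by rw [h0, map_zero]))
    have h3 : Φ x = lam a * (lam b)⁻¹ := by
      rw [← h1, mul_assoc, mul_inv_cancel₀ h2, mul_one]
    rw [h3]
    exact (hlamalg a).mul (hlamalg b).inv
  -- `δ f` is a root of a monic polynomial over `F2`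
  have hfin := hQ.fin
  have hfin2 : Module.Finite F2 R2 := hR.cl.finite_iZ hR.frc
  obtain ⟨p, hp, hp0⟩ := Algebra.IsIntegral.isIntegral (R := F2) (κ (δ f))
  have hroot : p.eval₂ Φ (δ f) = 0 := by
    apply hκ
    rw [map_zero, ← hp0]
    have h1 := Polynomial.hom_eval₂ p Φ (κ : Kf →+* R2) (δ f)
    have h2 : (κ : Kf →+* R2).comp Φ = algebraMap F2 R2 := RingHom.ext hΦ
    rw [h2] at h1
    exact h1
  -- algebraic over the relative algebraic closure
  set M := algebraicClosure L Kf with hM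
  have hΦM : ∀ x, Φ x ∈ M := fun x => mem_algebraicClosure_iff.2 (hΦalg x)
  have h5 : IsAlgebraic M (δ f) := alg_of_root M Φ hΦM (δ f) p hp hroot
  exact h5.restrictScalars L

end Second

end Main

end AL2M

open AL2M in
theorem specAL2 : SpecAL2 := by
  intro k H Z Q F2 R2 _ _ _ _ _ _ _ _ _ _ _ _ _ _ _ _ ι jF j D hQ hR _ Kf _ _ κ hK hκD E δ l r hE
    hl hr hδ
  exact ⟨part1 (inc := E.val) hQ hR (exists_span E hQ hE) hκD hl hr hδ,
    part2 hQ hR hE hK hl hr⟩

end Pool.Agent.Lib.MP_c37a72_al.NI
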