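import Pool.Agent.Lib.MP_c37a72_al.NI.Spec

/-!
# MP_c37a72_al, block NI: module LOG (logarithms of unipotent elements)
-/

set_option autoImplicit false

open Module

namespace Pool.Agent.Lib.MP_c37a72_al.NI

universe u v w

namespace LOGM

/-- the coefficients of the logarithm -/
noncomputable def cf (j : ℕ) : ℚ := (-1) ^ j / (j + 1)

lemma cf_mul (j : ℕ) : cf j * (j + 1) = (-1) ^ j := by
  unfold cf
  have : (j : ℚ) + 1 ≠ 0 := by positivity
  field_simp

section
variable {A : Type v} [Ring A] [Algebra ℚ A]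

/-- the truncated logarithm -/
noncomputable def L (m : ℕ) (x : A) : A := ∑ j ∈ Finset.range m, cf j • x ^ (j + 1)

lemma ulog_eq {x : A} {m : ℕ} (h : x ^ m = 0) : ulog x = L m x := by
  have hn : IsNilpotent x := ⟨m, h⟩
  have hle : nilpotencyClass x ≤ m := Nat.sInf_le h
  unfold ulog L
  apply Finset.sum_subset (Finset.range_mono hle)
  intro j _ hj
  have hj' : nilpotencyClass x ≤ j := by simpa using hj
  have : x ^ (j + 1) = 0 := pow_eq_zero_of_le (by omega) (pow_nilpotencyClass hn)
  rw [this, smul_zero]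

lemma L_succ (m : ℕ) (x : A) :
    L (m + 1) x = x * (1 + x * ∑ j ∈ Finset.range m, cf (j + 1) • x ^ j) := by
  unfold L
  rw [Finset.sum_range_succ']
  have h0 : cf 0 • x ^ (0 + 1) = x := by
    unfold cf
    simp
  rw [h0, mul_add, mul_one, add_comm, Finset.mul_sum, Finset.mul_sum]
  congr 1
  refine Finset.sum_congr rfl fun j _ => ?_
  rw [mul_smul_comm, mul_smul_comm, ← pow_succ', ← pow_succ']

lemma comm_L {x y : A} (h : Commute x y) (m : ℕ) : Commute (L m x) y := by
  unfold L
  apply Commute.sum_left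
  intro j _
  exact (h.pow_left _).smul_left _

lemma map_L {A' : Type w} [Ring A'] [Algebra ℚ A'] (φ : A →+* A') (m : ℕ) (x : A) :
    φ (L m x) = L m (φ x) := by
  unfold L
  rw [map_sum]
  refine Finset.sum_congr rfl fun j _ => ?_
  rw [map_rat_smul, map_pow]

/-- the first four facts -/
lemma nil_ulog {x : A} (hx : IsNilpotent x) : IsNilpotent (ulog x) := by
  obtain ⟨m, hm⟩ := hx
  have hm' : x ^ (m + 1) = 0 := by rw [pow_succ, hm, zero_mul]
  rw [ulog_eq hm', L_succ]
  refine Commute.isNilpotent_mul_right ?_ ⟨m, hm⟩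
  refine (Commute.one_right x).add_right ((Commute.refl x).mul_right ?_)
  apply Commute.sum_right
  intro j _
  exact ((Commute.refl x).pow_right _).smul_right _

lemma comm_ulog {x : A} (hx : IsNilpotent x) {y : A} (h : x * y = y * x) :
    ulog x * y = y * ulog x := by
  obtain ⟨m, hm⟩ := hx
  rw [ulog_eq hm]
  exact comm_L h m

lemma inj_ulog {x : A} (hx : IsNilpotent x) (h : ulog x = 0) : x = 0 := by
  obtain ⟨m, hm⟩ := hx
  have hm' : x ^ (m + 1) = 0 := by rw [pow_succ, hm, zero_mul]
  rw [ulog_eq hm', L_succ] at h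
  have hc : Commute x (∑ j ∈ Finset.range m, cf (j + 1) • x ^ j) := by
    apply Commute.sum_right
    intro j _
    exact ((Commute.refl x).pow_right _).smul_right _
  have hn : IsNilpotent (x * ∑ j ∈ Finset.range m, cf (j + 1) • x ^ j) :=
    hc.isNilpotent_mul_right ⟨m, hm⟩
  exact (hn.isUnit_one_add.mul_left_eq_zero).mp h

lemma mem_ulog {x : A} (hx : IsNilpotent x) {T : Submodule ℚ A} (h1 : x ∈ T)
    (h2 : ∀ y ∈ T, x * y ∈ T) : ulog x ∈ T := by
  obtain ⟨m, hm⟩ := hx
  rw [ulog_eq hm]
  have hp : ∀ j : ℕ, x ^ (j + 1) ∈ T := by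
    intro j
    induction j with
    | zero => simpa using h1
    | succ j ih =>
      rw [pow_succ']
      exact h2 _ ih
  exact Submodule.sum_mem _ fun j _ => T.smul_mem _ (hp j)

end

/-! ### Additivity in a commutative algebra -/

section
variable {R : Type v} [CommRing R] [Algebra ℚ R]

open Polynomial in
lemma der (p : R[X]) (M : ℕ) :
    derivative (L M p) = derivative p * ∑ j ∈ Finset.range M, (-p) ^ j := by
  unfold L
  rw [derivative_sum, Finset.mul_sum]
  refine Finset.sum_congr rfl fun j _ => ?_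
  rw [derivative_smul, derivative_pow, Nat.add_sub_cancel]
  have h1 : C ((j + 1 : ℕ) : R) * p ^ j * derivative p =
      ((j : ℚ) + 1) • (p ^ j * derivative p) := by
    have h2 : ((j : ℚ) + 1) • (p ^ j * derivative p) = (j + 1 : ℕ) • (p ^ j * derivative p) := by
      rw [← Nat.cast_smul_eq_nsmul ℚ]
      push_cast
      rfl
    rw [h2, nsmul_eq_mul, mul_assoc]
    congr 1
  rw [h1, smul_smul, cf_mul, neg_pow p j]
  have h3 : ((-1 : ℚ) ^ j) • (p ^ j * derivative p) = (-1 : R[X]) ^ j * (p ^ j * derivative p) := by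
    rcases neg_one_pow_eq_or ℚ j with h | h
    · have h4 : (-1 : R[X]) ^ j = 1 := by
        rcases Nat.even_or_odd j with hj | hj
        · exact hj.neg_one_pow
        · rw [hj.neg_one_pow] at h; norm_num at h
      rw [h, h4, one_smul, one_mul]
    · have h4 : (-1 : R[X]) ^ j = -1 := by
        rcases Nat.even_or_odd j with hj | hj
        · rw [hj.neg_one_pow] at h; norm_num at h
        · exact hj.neg_one_pow
      rw [h, h4, neg_smul, one_smul, neg_one_mul]
  rw [h3]
  ring

open Polynomial in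
lemma der_zero (p q : R[X]) (M : ℕ) (hp : p ^ M = 0) (hq : q ^ M = 0)
    (hw : (p + q + p * q) ^ M = 0) :
    derivative (L M (p + q + p * q) - L M p - L M q) = 0 := by
  have hgeo : ∀ r : R[X], r ^ M = 0 → (1 + r) * ∑ j ∈ Finset.range M, (-r) ^ j = 1 := by
    intro r hr
    have h := mul_neg_geom_sum (-r) M
    rw [sub_neg_eq_add, neg_pow, hr, mul_zero, sub_zero] at h
    exact h
  have hP := hgeo p hp
  have hQ := hgeo q hq
  have hW := hgeo _ hw
  rw [derivative_sub, derivative_sub, der, der, der]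
  set P := ∑ j ∈ Finset.range M, (-p) ^ j
  set Q := ∑ j ∈ Finset.range M, (-q) ^ j
  set W := ∑ j ∈ Finset.range M, (-(p + q + p * q)) ^ j
  rw [derivative_add, derivative_add, derivative_mul]
  set p' := derivative p
  set q' := derivative q
  have key : (1 + (p + q + p * q)) *
      ((p' + q' + (p' * q + p * q')) * W - p' * P - q' * Q) = 0 := by
    linear_combination (p' + q' + (p' * q + p * q')) * hW - (1 + q) * p' * hP -
      (1 + p) * q' * hQ
  calc (p' + q' + (p' * q + p * q')) * W - p' * P - q' * Q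
      = ((1 + (p + q + p * q)) * W) * ((p' + q' + (p' * q + p * q')) * W - p' * P - q' * Q) := by
        rw [hW, one_mul]
    _ = W * ((1 + (p + q + p * q)) *
      ((p' + q' + (p' * q + p * q')) * W - p' * P - q' * Q)) := by ring
    _ = 0 := by rw [key, mul_zero]

open Polynomial in
lemma comm_add {x y : R} (hx : IsNilpotent x) (hy : IsNilpotent y) :
    ulog (x + y + x * y) = ulog x + ulog y := by
  have hX : IsNilpotent (X * C x : R[X]) := by
    obtain ⟨m, hm⟩ := hx
    exact ⟨m, by rw [mul_pow, ← C_pow, hm, C_0, mul_zero]⟩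
  have hY : IsNilpotent (X * C y : R[X]) := by
    obtain ⟨m, hm⟩ := hy
    exact ⟨m, by rw [mul_pow, ← C_pow, hm, C_0, mul_zero]⟩
  set p : R[X] := X * C x with hp
  set q : R[X] := X * C y with hq
  have hW : IsNilpotent (p + q + p * q) := by
    apply Commute.isNilpotent_add (Commute.all _ _)
    · exact Commute.isNilpotent_add (Commute.all _ _) hX hY
    · exact Commute.isNilpotent_mul_right (Commute.all _ _) hX
  obtain ⟨m1, h1⟩ := hX
  obtain ⟨m2, h2⟩ := hY
  obtain ⟨m3, h3⟩ := hW
  obtain ⟨M, hM⟩ : ∃ M : ℕ, M = m1 + m2 + m3 := ⟨_, rfl⟩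
  have h1' : p ^ M = 0 := pow_eq_zero_of_le (by omega) h1
  have h2' : q ^ M = 0 := pow_eq_zero_of_le (by omega) h2
  have h3' : (p + q + p * q) ^ M = 0 := pow_eq_zero_of_le (by omega) h3
  have hd := der_zero p q M h1' h2' h3'
  have : IsAddTorsionFree R := IsAddTorsionFree.of_module_rat _
  have hC := eq_C_of_derivative_eq_zero hd
  set g := L M (p + q + p * q) - L M p - L M q with hg
  have hev : ∀ s : R, g.eval s = L M (s * x + s * y + s * x * (s * y)) - L M (s * x) -
      L M (s * y) := by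
    intro s
    have e : ∀ r : R[X], (L M r).eval s = L M (r.eval s) := fun r => map_L (evalRingHom s) M r
    rw [hg, eval_sub, eval_sub, e, e, e, hp, hq]
    simp only [eval_add, eval_mul, eval_X, eval_C]
  have h0 : g.eval 0 = 0 := by
    rw [hev]
    have hL0 : L M (0 : R) = 0 := by
      unfold L
      exact Finset.sum_eq_zero fun j _ => by simp
    simp [hL0]
  have hg0 : g = 0 := by
    rw [hC, eval_C] at h0
    rw [hC, h0, C_0]
  have h4 := hev 1
  rw [hg0, eval_zero] at h4
  simp only [one_mul] at h4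
  have hpe : ∀ r : R[X], r ^ M = 0 → (r.eval 1) ^ M = 0 := by
    intro r hr
    rw [← eval_pow, hr, eval_zero]
  have h5 := hpe _ h1'
  have h6 := hpe _ h2'
  have h7 := hpe _ h3'
  simp only [hp, hq, eval_mul, eval_X, eval_C, one_mul, eval_add] at h5 h6 h7
  rw [ulog_eq h5, ulog_eq h6, ulog_eq h7]
  linear_combination -h4

end

section
variable {A : Type v} [Ring A] [Algebra ℚ A]

lemma map_ulog {A' : Type w} [Ring A'] [Algebra ℚ A'] (φ : A →+* A') {x : A}
    (hx : IsNilpotent x) : φ (ulog x) = ulog (φ x) := by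
  obtain ⟨m, hm⟩ := hx
  have hm' : φ x ^ m = 0 := by rw [← map_pow, hm, map_zero]
  rw [ulog_eq hm, ulog_eq hm', map_L]

open scoped IsMulCommutative in
lemma ulog_add {x y : A} (hx : IsNilpotent x) (hy : IsNilpotent y) (h : x * y = y * x) :
    ulog (x + y + x * y) = ulog x + ulog y := by
  have hcomm : ∀ a ∈ ({x, y} : Set A), ∀ b ∈ ({x, y} : Set A), a * b = b * a := by
    rintro a (rfl | rfl) b (rfl | rfl)
    · rfl
    · exact h
    · exact h.symm
    · rfl
  have hc := Algebra.isMulCommutative_adjoin ℚ hcomm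
  let S := Algebra.adjoin ℚ ({x, y} : Set A)
  have hxS : x ∈ S := Algebra.subset_adjoin (by simp)
  have hyS : y ∈ S := Algebra.subset_adjoin (by simp)
  have hxn : IsNilpotent (⟨x, hxS⟩ : S) := by
    obtain ⟨m, hm⟩ := hx
    exact ⟨m, Subtype.ext (by simpa using hm)⟩
  have hyn : IsNilpotent (⟨y, hyS⟩ : S) := by
    obtain ⟨m, hm⟩ := hy
    exact ⟨m, Subtype.ext (by simpa using hm)⟩
  have key := comm_add hxn hyn
  have hwn : IsNilpotent ((⟨x, hxS⟩ : S) + ⟨y, hyS⟩ + ⟨x, hxS⟩ * ⟨y, hyS⟩) := by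
    apply Commute.isNilpotent_add (Commute.all _ _)
    · exact Commute.isNilpotent_add (Commute.all _ _) hxn hyn
    · exact Commute.isNilpotent_mul_right (Commute.all _ _) hxn
  have k2 := congrArg (S.val : S →+* A) key
  rw [map_add, map_ulog _ hwn, map_ulog _ hxn, map_ulog _ hyn] at k2
  exact k2

end

/-! ### The span -/

section
variable {k : Type u} {K A : Type v} [Field k] [Infinite k] [Field K] [Algebra k K] [CharZero K]
  [Ring A] [Algebra ℚ A] [Algebra K A]

omit [CharZero K] in
lemma smul_comm' (q : ℚ) (t : K) (x : A) : q • t • x = t • q • x := by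
  exact (map_rat_smul (LinearMap.lsmul K A t) q x).symm

omit [CharZero K] in
lemma L_smul (m : ℕ) (t : K) (x : A) :
    L m (t • x) = ∑ j ∈ Finset.range m, t ^ (j + 1) • cf j • x ^ (j + 1) := by
  unfold L
  refine Finset.sum_congr rfl fun j _ => ?_
  rw [smul_pow, smul_comm']

omit [CharZero K] in
lemma exists_coeff (m : ℕ) (θ : Fin (m + 1) → K) (hinj : Function.Injective θ)
    (h0 : ∀ i, θ i ≠ 0) :
    ∃ κ : Fin (m + 1) → K, ∀ j : Fin (m + 1),
      ∑ i, κ i * θ i ^ ((j : ℕ) + 1) = if j = 0 then 1 else 0 := by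
  classical
  let M : Matrix (Fin (m + 1)) (Fin (m + 1)) K := Matrix.diagonal θ * Matrix.vandermonde θ
  have hdet : M.det ≠ 0 := by
    rw [Matrix.det_mul, Matrix.det_diagonal]
    exact mul_ne_zero (Finset.prod_ne_zero_iff.mpr fun i _ => h0 i)
      (Matrix.det_vandermonde_ne_zero_iff.mpr hinj)
  refine ⟨Matrix.vecMul (Pi.single 0 1) M⁻¹, fun j => ?_⟩
  have h1 : Matrix.vecMul (Matrix.vecMul (Pi.single 0 1) M⁻¹) M = Pi.single 0 1 := by
    rw [Matrix.vecMul_vecMul, Matrix.nonsing_inv_mul _ (isUnit_iff_ne_zero.mpr hdet),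
      Matrix.vecMul_one]
  have h2 := congrFun h1 j
  rw [Matrix.vecMul, dotProduct] at h2
  have h3 : ∀ i, M i j = θ i ^ ((j : ℕ) + 1) := by
    intro i
    show (Matrix.diagonal θ * Matrix.vandermonde θ) i j = _
    rw [Matrix.diagonal_mul, Matrix.vandermonde_apply, pow_succ']
  simp only [h3] at h2
  rw [h2, Pi.single_apply]

omit [CharZero K] in
lemma mem_span {y : A} {c : K} (hy : IsNilpotent y) (hc : ∀ l : k, algebraMap k K l ≠ c) :
    y ∈ Submodule.span K {z | ∃ l : k, z = ulog ((c + algebraMap k K l)⁻¹ • y)} := by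
  obtain ⟨m, hm⟩ := hy
  have hm' : y ^ (m + 1) = 0 := by rw [pow_succ, hm, zero_mul]
  let e := Infinite.natEmbedding k
  have hne : ∀ l : k, c + algebraMap k K l ≠ 0 := by
    intro l h
    apply hc (-l)
    rw [map_neg]
    exact (eq_neg_of_add_eq_zero_left h).symm
  let θ : Fin (m + 1) → K := fun i => (c + algebraMap k K (e i))⁻¹
  have hθ0 : ∀ i, θ i ≠ 0 := fun i => inv_ne_zero (hne _)
  have hθ : Function.Injective θ := by
    intro i j hij
    have h1 := inv_injective hij
    have h2 := (algebraMap k K).injective (add_left_cancel h1)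
    exact Fin.ext (e.injective h2)
  obtain ⟨κ, hκ⟩ := exists_coeff m θ hθ hθ0
  have h1 : ∀ i, ulog (θ i • y) =
      ∑ j : Fin (m + 1), θ i ^ ((j : ℕ) + 1) • cf j • y ^ ((j : ℕ) + 1) := by
    intro i
    have h2 : (θ i • y) ^ (m + 1) = 0 := by rw [smul_pow, hm', smul_zero]
    rw [ulog_eq h2, L_smul]
    exact Finset.sum_range _
  have h2 : y = ∑ i, κ i • ulog (θ i • y) := by
    simp only [h1, Finset.smul_sum, smul_smul (κ _)]
    rw [Finset.sum_comm]
    simp only [← Finset.sum_smul, hκ]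
    rw [Finset.sum_eq_single (0 : Fin (m + 1))]
    · simp [cf]
    · intro j _ hj
      rw [if_neg hj, zero_smul]
    · intro h
      exact absurd (Finset.mem_univ _) h
  have h3 : ∑ i, κ i • ulog (θ i • y) ∈
      Submodule.span K {z | ∃ l : k, z = ulog ((c + algebraMap k K l)⁻¹ • y)} :=
    Submodule.sum_mem _ fun i _ => Submodule.smul_mem _ _ (Submodule.subset_span ⟨e i, rfl⟩)
  rw [← h2] at h3
  exact h3

end

end LOGM

open LOGM in
theorem specLOG : SpecLOG.{u, v} := by
  refine ⟨?_, ?_, ?_⟩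
  · intro A _ _ x hx
    exact ⟨nil_ulog hx, fun y h => comm_ulog hx h, inj_ulog hx, fun T h1 h2 => mem_ulog hx h1 h2,
      fun y hy h => ulog_add hx hy h⟩
  · intro A A' _ _ _ _ φ x hx
    exact map_ulog φ hx
  · intro k K A _ _ _ _ _ _ _ _ y c hy hc
    exact mem_span hy hc

end Pool.Agent.Lib.MP_c37a72_al.NI
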