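import Pool.Agent.Lib.MP_c37a72_al.NI.SpecC

section
/-!
# MP_c37a72_al, block NI, module ECH: echelon bases
-/
set_option autoImplicit false

open Module

namespace Pool.Agent.Lib.MP_c37a72_al.NI

universe u v w

namespace ECHM

open Finset

variable {D : Type*} [DivisionRing D] {n : ℕ}

/-- Reduced echelon basis of a right subspace. -/
theorem ech (T : Submodule Dᵐᵒᵖ (Fin n → D)) : ∃ (J : Finset (Fin n)) (u : Fin n → Fin n → D),
    (∀ j ∈ J, u j ∈ T) ∧ (∀ j ∈ J, ∀ j' ∈ J, u j j' = if j' = j then 1 else 0) ∧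
    ∀ t ∈ T, ∀ i, t i = ∑ j ∈ J, u j i * t j := by
  classical
  let P : Finset (Finset (Fin n)) := univ.filter fun J => ∀ t ∈ T, (∀ j ∈ J, t j = 0) → t = 0
  have hP : P.Nonempty := ⟨univ, by
    simp only [P, mem_filter, mem_univ, true_and]
    intro t _ ht
    funext i
    exact ht i trivial⟩
  obtain ⟨J, hJ, hmin⟩ := P.exists_min_image Finset.card hP
  have hJ' : ∀ t ∈ T, (∀ j ∈ J, t j = 0) → t = 0 := by
    simpa only [P, mem_filter, mem_univ, true_and] using hJ
  have h1 : ∀ j ∈ J, ∃ u ∈ T, ∀ j' ∈ J, u j' = if j' = j then 1 else 0 := by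
    intro j hj
    have h2 : J.erase j ∉ P := fun h => by
      have := hmin _ h
      have h3 := Finset.card_erase_lt_of_mem hj
      omega
    have h3 : ∃ t ∈ T, (∀ j' ∈ J.erase j, t j' = 0) ∧ t ≠ 0 := by
      by_contra hcon
      push Not at hcon
      apply h2
      simp only [P, mem_filter, mem_univ, true_and]
      exact hcon
    obtain ⟨t, htT, ht0, htn⟩ := h3
    have h4 : t j ≠ 0 := fun h0 => htn (hJ' t htT fun j' hj' => by
      by_cases h : j' = j
      · rw [h, h0]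
      · exact ht0 j' (mem_erase.2 ⟨h, hj'⟩))
    refine ⟨MulOpposite.op (t j)⁻¹ • t, T.smul_mem _ htT, fun j' hj' => ?_⟩
    rw [Pi.smul_apply, op_smul_eq_mul]
    by_cases h : j' = j
    · rw [h, mul_inv_cancel₀ h4, if_pos rfl]
    · rw [ht0 j' (mem_erase.2 ⟨h, hj'⟩), zero_mul, if_neg h]
  choose! u huT hu using h1
  refine ⟨J, u, huT, hu, fun t ht i => ?_⟩
  have h5 : t - ∑ j ∈ J, MulOpposite.op (t j) • u j = 0 := by
    apply hJ'
    · exact T.sub_mem ht (T.sum_mem fun j hj => T.smul_mem _ (huT j hj))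
    · intro j' hj'
      rw [Pi.sub_apply, Finset.sum_apply]
      simp only [Pi.smul_apply, op_smul_eq_mul]
      rw [Finset.sum_congr rfl fun j hj => by rw [hu j hj j' hj', ite_mul, one_mul, zero_mul]]
      rw [Finset.sum_ite_eq, if_pos hj', sub_self]
  have h6 := congrFun h5 i
  rw [Pi.sub_apply, Finset.sum_apply, Pi.zero_apply, sub_eq_zero] at h6
  rw [h6]
  rfl

end ECHM

theorem specECH : SpecECH.{v} := by
  intro Q _ n X1 C hC
  classical
  obtain ⟨J, u, huT, hu, hX⟩ := ECHM.ech X1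
  refine ⟨J, u, huT, hu, hX, ?_, ?_⟩
  · let b : J → (Fin n → Q) := fun j => u j
    have hspan : Submodule.span Qᵐᵒᵖ (Set.range b) = X1 := by
      apply le_antisymm
      · rw [Submodule.span_le]
        rintro _ ⟨j, rfl⟩
        exact huT j j.2
      · intro t ht
        have h1 : t = ∑ j ∈ J, MulOpposite.op (t j) • u j := by
          funext i
          rw [Finset.sum_apply, hX t ht i]
          rfl
        rw [h1]
        exact Submodule.sum_mem _ fun j hj => Submodule.smul_mem _ _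
          (Submodule.subset_span ⟨⟨j, hj⟩, rfl⟩)
    have hli : LinearIndependent Qᵐᵒᵖ b := by
      rw [Fintype.linearIndependent_iff]
      intro g hg k
      have h1 := congrFun hg k
      rw [Finset.sum_apply, Pi.zero_apply, Finset.sum_eq_single k] at h1
      · have h2 : (g k • b k) (k : Fin n) = MulOpposite.unop (g k) := by
          change u k k * MulOpposite.unop (g k) = _
          rw [hu k k.2 k k.2, if_pos rfl, one_mul]
        rw [h2] at h1
        exact (MulOpposite.unop_eq_zero_iff _).1 h1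
      · intro j _ hj
        change u j k * MulOpposite.unop (g j) = 0
        rw [hu j j.2 k k.2, if_neg (fun h => hj (Subtype.ext h.symm)), zero_mul]
      · intro h; exact absurd (Finset.mem_univ _) h
    rw [← hspan, finrank_span_eq_card hli, Fintype.card_coe]
  · intro j hj i c hc
    have h1 := hX _ (hC c hc (u j) (huT j hj)) i
    rw [h1, Finset.sum_eq_single j]
    · rw [hu j hj j hj, if_pos rfl, mul_one]
    · intro k hk hkj
      rw [hu j hj k hk, if_neg hkj, mul_zero, mul_zero]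
    · intro h; exact absurd hj h

end Pool.Agent.Lib.MP_c37a72_al.NI
end

section
/-! # MP_c37a72_al, block NI, module MUZ (helper64) -/
set_option autoImplicit false

open Module

namespace Pool.Agent.Lib.MP_c37a72_al.NI

universe u v w

namespace MUZM

/-- the degree is not positive if `F a = ⊥` for `a ≥ 1` -/
theorem deg_nonpos {D : Type u} {V : Type v} [DivisionRing D] [AddCommGroup V] [Module D V]
    [Module.Finite D V] (B : ℕ) (F : ℤ → Submodule D V) (hF : ∀ a : ℤ, 1 ≤ a → F a = ⊥)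
    (W : Submodule D V) : deg B F W ≤ 0 := by
  unfold deg
  have h1 : ∑ a ∈ Finset.Ioc (-(B : ℤ)) B, (finrank D ↥(W ⊓ F a) : ℤ) ≤
      ∑ a ∈ Finset.Ioc (-(B : ℤ)) B, if a ≤ 0 then (finrank D W : ℤ) else 0 := by
    refine Finset.sum_le_sum fun a _ => ?_
    split_ifs with h
    · exact_mod_cast Submodule.finrank_mono (inf_le_left : W ⊓ F a ≤ W)
    · rw [hF a (by omega), inf_bot_eq, finrank_bot]
      simp
  have h2 : ∑ a ∈ Finset.Ioc (-(B : ℤ)) B, (if a ≤ 0 then (finrank D W : ℤ) else 0) =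
      B * finrank D W := by
    rw [← Finset.sum_filter, Finset.sum_const]
    have h3 : (Finset.Ioc (-(B : ℤ)) B).filter (fun a => a ≤ 0) = Finset.Ioc (-(B : ℤ)) 0 := by
      ext a
      simp only [Finset.mem_filter, Finset.mem_Ioc]
      omega
    rw [h3, Int.card_Ioc]
    simp
  omega

end MUZM

open MUZM in
theorem specMUZ (hFDB : SpecFDB.{v}) (hWTA : SpecWTA.{v}) : SpecMUZ.{v, w} := by
  intro D V V' _ _ _ _ _ _ 𝒯 l _ B N m μ V1 hN hm hMx hμ
  by_contra hle
  set K : Submodule D V := LinearMap.ker m with hK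
  obtain ⟨t, h1, h2⟩ := (hMx.eq.and (hMx.le (V1 ⊓ K))).exists
  obtain ⟨hfil, -⟩ := hWTA.2.2 D V (N t) B (hN t)
  obtain ⟨-, hq, -⟩ := hFDB D V B (wt (N t)) hfil
  have h3 := ((hq K).2 V1).1
  have hr : ∀ a : ℤ, 1 ≤ a → (wt (N t) a).map K.mkQ = ⊥ := by
    intro a ha
    have h4 : wt (N t) a ≤ K := by
      refine ((hWTA.1 D V (N t)).2.2.1 a ha).trans ?_
      rintro x ⟨y, rfl⟩
      exact hm t y
    exact eq_bot_iff.2 ((Submodule.map_mono h4).trans_eq (Submodule.mkQ_map_self K))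
  have h4 := deg_nonpos B (fun a => (wt (N t) a).map K.mkQ) hr (V1.map K.mkQ)
  have h5 : (deg B (wt (N t)) V1 : ℚ) ≤ (deg B (wt (N t)) (V1 ⊓ K) : ℚ) := by
    exact_mod_cast (by omega : deg B (wt (N t)) V1 ≤ deg B (wt (N t)) (V1 ⊓ K))
  have h6 : finrank D ↥(V1 ⊓ K) < finrank D V1 := by
    refine Submodule.finrank_lt_finrank_of_lt (lt_of_le_of_ne inf_le_left ?_)
    intro h
    exact hle (inf_eq_left.1 h)
  have h7 : (finrank D ↥(V1 ⊓ K) : ℚ) < finrank D V1 := by exact_mod_cast h6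
  have h8 := mul_lt_mul_of_pos_left h7 hμ
  have h9 : (deg B (wt (N t)) V1 : ℚ) = μ * finrank D V1 := h1
  have h10 : (deg B (wt (N t)) (V1 ⊓ K) : ℚ) ≤ μ * finrank D ↥(V1 ⊓ K) := h2
  linarith

end Pool.Agent.Lib.MP_c37a72_al.NI
end

section
/-!
# MP_c37a72_al, block NI, module NCO: the core of the nilpotent step
-/
set_option autoImplicit false

open Module MulOpposite

namespace Pool.Agent.Lib.MP_c37a72_al.NI

universe u v w

namespace NCOM

/-! ## The operators `mop` -/

section Mop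

variable {A B E : Type*} [Ring A] [Ring E] [AddCommGroup B] [Module A B] [Module E B]
  [SMulCommClass A E B] {n : ℕ}

theorem mop_mul (P P' : Matrix (Fin n) (Fin n) A) :
    mop E (P * P') = (mop E P * mop E P' : Module.End E (Fin n → B)) := by
  refine LinearMap.ext fun v => funext fun i => ?_
  simp only [mop_apply, Module.End.mul_apply, Matrix.mul_apply, Finset.sum_smul, Finset.smul_sum,
    mul_smul]
  exact Finset.sum_comm

theorem mop_one : mop E (1 : Matrix (Fin n) (Fin n) A) = (1 : Module.End E (Fin n → B)) := by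
  refine LinearMap.ext fun v => funext fun i => ?_
  simp [Matrix.one_apply]

theorem mop_add (P P' : Matrix (Fin n) (Fin n) A) :
    mop E (P + P') = (mop E P + mop E P' : Module.End E (Fin n → B)) := by
  refine LinearMap.ext fun v => funext fun i => ?_
  simp [add_smul, Finset.sum_add_distrib]

theorem mop_zero : mop E (0 : Matrix (Fin n) (Fin n) A) = (0 : Module.End E (Fin n → B)) := by
  refine LinearMap.ext fun v => funext fun i => ?_
  simp

variable (E B) in
/-- `mop` as a ring homomorphism. -/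
def mopR : Matrix (Fin n) (Fin n) A →+* Module.End E (Fin n → B) where
  toFun P := mop E P
  map_one' := mop_one
  map_mul' := mop_mul
  map_zero' := mop_zero
  map_add' := mop_add

@[simp] theorem mopR_apply (P : Matrix (Fin n) (Fin n) A) : mopR B E P = mop E P := rfl

end Mop

/-- Uniform nilpotency of linear combinations of commuting nilpotent elements. -/
theorem unif {C A : Type*} [CommRing C] [Ring A] [Algebra C A] {R : ℕ} (x : Fin R → A)
    (h1 : ∀ i, IsNilpotent (x i)) (h2 : ∀ i j, x i * x j = x j * x i) :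
    ∃ B : ℕ, ∀ c : Fin R → C, (∑ i, c i • x i) ^ B = 0 := by
  classical
  have key : ∀ S : Finset (Fin R), ∃ B : ℕ, ∀ c : Fin R → C, (∑ i ∈ S, c i • x i) ^ B = 0 := by
    intro S
    induction S using Finset.induction_on with
    | empty => exact ⟨1, fun c => by simp⟩
    | insert a S ha ih =>
      obtain ⟨B, hB⟩ := ih
      obtain ⟨m, hm⟩ := h1 a
      refine ⟨m + B, fun c => ?_⟩
      rw [Finset.sum_insert ha]
      refine Commute.add_pow_eq_zero_of_add_le_succ_of_pow_eq_zero (m := m) (n := B) ?_ ?_ (hB c)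
        (by omega)
      · refine Commute.sum_right _ _ _ fun i _ => ?_
        show c a • x a * (c i • x i) = c i • x i * (c a • x a)
        rw [smul_mul_smul_comm, smul_mul_smul_comm, h2, mul_comm]
      · rw [smul_pow, hm, smul_zero]
  obtain ⟨B, hB⟩ := key Finset.univ
  exact ⟨B, hB⟩

/-- The same for a bound which can be increased. -/
theorem pow_le {A : Type*} [Ring A] {x : A} {B B' : ℕ} (h : x ^ B = 0) (h' : B ≤ B') : x ^ B' = 0 :=
  pow_eq_zero_of_le h' h


/-! ## Stability of the maximal subspaces -/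

theorem stabK (hMAX : SpecMAX.{v, w}) (hWTA : SpecWTA.{v}) {K V : Type v} [Field K] [Infinite K]
    [AddCommGroup V] [Module K V] [Module.Finite K V] [Nontrivial V] {𝒯 : Type w}
    {l : Ultrafilter 𝒯} {B : ℕ} {N : 𝒯 → Module.End K V} (hB : ∀ t, N t ^ B = 0) {μ : ℚ}
    {V1 : Submodule K V} (hV1 : IsMx (l : Filter 𝒯) B (fun t => wt (N t)) μ V1)
    (g : Module.End K V) (hg : ∀ t x, g (N t x) = N t (g x)) : ∀ y ∈ V1, g y ∈ V1 := by
  obtain ⟨c, hc⟩ := (Module.End.finite_spectrum g).exists_notMem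
  have hu : IsUnit (algebraMap K (Module.End K V) c - g) := spectrum.notMem_iff.1 hc
  obtain ⟨u, hu⟩ := hu
  let e : V ≃ₗ[K] V := LinearMap.GeneralLinearGroup.generalLinearEquiv K V u
  have he : ∀ x, e x = c • x - g x := by
    intro x
    have h1 : e x = (u : Module.End K V) x := rfl
    rw [h1, hu]
    simp [Module.algebraMap_end_apply]
  have h2 := (hMAX K V 𝒯 l B (fun t => wt (N t)) (fun t => (hWTA.2.2 K V (N t) B (hB t)).1)).2
    μ V1 hV1 e (fun t a => (hWTA.1 K V (N t)).2.2.2.2 e (fun x => by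
      rw [he, he, map_sub, map_smul, hg]) a)
  intro y hy
  have h3 : e y ∈ V1 := by
    rw [← h2]
    exact ⟨y, hy, rfl⟩
  rw [he] at h3
  have h4 := V1.sub_mem (V1.smul_mem c hy) h3
  simpa using h4

theorem stabQ (hMAX : SpecMAX.{v, w}) (hWTA : SpecWTA.{v}) {Q : Type v} [DivisionRing Q] {n : ℕ}
    [Module.Finite Qᵐᵒᵖ (Fin n → Q)] [Nontrivial (Fin n → Q)] {𝒯 : Type w}
    {l : Ultrafilter 𝒯} {B : ℕ} {N : 𝒯 → Matrix (Fin n) (Fin n) Q}
    (hB : ∀ t, (mop Qᵐᵒᵖ (N t) : Module.End Qᵐᵒᵖ (Fin n → Q)) ^ B = 0) {μ : ℚ}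
    {V1 : Submodule Qᵐᵒᵖ (Fin n → Q)}
    (hV1 : IsMx (l : Filter 𝒯) B (fun t => wt (mop Qᵐᵒᵖ (N t))) μ V1)
    (P P' : Matrix (Fin n) (Fin n) Q) (h1 : P * P' = 1) (h2 : P' * P = 1)
    (hP : ∀ t, P * N t = N t * P) : ∀ y ∈ V1, mop Qᵐᵒᵖ P y ∈ V1 := by
  have e1 : (mop Qᵐᵒᵖ P * mop Qᵐᵒᵖ P' : Module.End Qᵐᵒᵖ (Fin n → Q)) = 1 := by
    rw [← mop_mul, h1, mop_one]
  have e2 : (mop Qᵐᵒᵖ P' * mop Qᵐᵒᵖ P : Module.End Qᵐᵒᵖ (Fin n → Q)) = 1 := by
    rw [← mop_mul, h2, mop_one]
  let e : (Fin n → Q) ≃ₗ[Qᵐᵒᵖ] (Fin n → Q) :=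
    LinearEquiv.ofLinearMap (mop Qᵐᵒᵖ P) (mop Qᵐᵒᵖ P') e1 e2
  have he : ∀ x, e x = mop Qᵐᵒᵖ P x := fun x => rfl
  have h3 := (hMAX Qᵐᵒᵖ (Fin n → Q) 𝒯 l B (fun t => wt (mop Qᵐᵒᵖ (N t)))
    (fun t => (hWTA.2.2 Qᵐᵒᵖ (Fin n → Q) (mop Qᵐᵒᵖ (N t)) B (hB t)).1)).2
    μ V1 hV1 e (fun t a => (hWTA.1 Qᵐᵒᵖ (Fin n → Q) (mop Qᵐᵒᵖ (N t))).2.2.2.2 e (fun x => by
      rw [he, he, ← Module.End.mul_apply, ← mop_mul, hP, mop_mul, Module.End.mul_apply]) a)
  intro y hy
  rw [← h3]
  exact ⟨y, hy, rfl⟩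

/-! ## The basis of `Q^n` over `Qᵐᵒᵖ` -/

section Basis

variable (Q : Type v) [DivisionRing Q] (n : ℕ)

/-- `Q^n` as a space over `Qᵐᵒᵖ`. -/
def opE : (Fin n → Q) ≃ₗ[Qᵐᵒᵖ] (Fin n → Qᵐᵒᵖ) where
  toFun x i := op (x i)
  invFun y i := unop (y i)
  left_inv x := rfl
  right_inv y := rfl
  map_add' x y := rfl
  map_smul' q x := by
    funext i
    simp [smul_eq_mul]

/-- The standard basis. -/
noncomputable def stdB : Basis (Fin n) Qᵐᵒᵖ (Fin n → Q) := Basis.ofEquivFun (opE Q n)

theorem stdB_apply (i l : Fin n) : stdB Q n i l = if l = i then 1 else 0 := by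
  classical
  have h : stdB Q n i = (opE Q n).symm (Pi.single i 1) := by
    simp [stdB, Basis.coe_ofEquivFun]
  rw [h]
  show unop ((Pi.single i (1 : Qᵐᵒᵖ) : Fin n → Qᵐᵒᵖ) l) = _
  by_cases hl : l = i
  · subst hl; simp
  · simp [hl]

theorem finQ : Module.Finite Qᵐᵒᵖ (Fin n → Q) := Module.Finite.of_basis (stdB Q n)

end Basis


/-! ## The pairing -/

section Pair

variable {k : Type u} {Q K M : Type v} [Field k] [DivisionRing Q] [Algebra k Q] [Field K]
  [Ring M] [Algebra k M] [Algebra K M] (Δ : Q →ₐ[k] M) (n : ℕ)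

variable (K) in
/-- The left action of `Q` on `M` through `Δ`. -/
noncomputable def lac : Q →+* Module.End K M :=
  (Algebra.lmul K M).toRingHom.comp Δ.toRingHom

theorem lac_apply (q : Q) (m : M) : lac K Δ q m = Δ q * m := rfl

variable (K) in
/-- `β(x, v) i = Δ(x i) v`. -/
def bet : (Fin n → Q) →+ M →ₗ[K] (Fin n → M) where
  toFun x :=
    { toFun := fun v i => Δ (x i) * v
      map_add' := fun v v' => by
        funext i
        simp [mul_add]
      map_smul' := fun c v => by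
        funext i
        simp }
  map_zero' := by
    refine LinearMap.ext fun v => funext fun i => ?_
    simp
  map_add' x y := by
    refine LinearMap.ext fun v => funext fun i => ?_
    simp [add_mul]

@[simp] theorem bet_apply (x : Fin n → Q) (v : M) (i : Fin n) :
    bet K Δ n x v i = Δ (x i) * v := rfl

theorem isBal (hBAL : SpecBAL.{v}) : IsBal (lac K Δ) (bet K Δ n) := by
  refine hBAL Q K (Fin n → Q) M (Fin n → M) (lac K Δ) (bet K Δ n) ?_ n (stdB Q n) ?_
  · intro x q v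
    funext i
    simp [lac_apply, mul_assoc]
  · have : (fun v : Fin n → M => ∑ i, bet K Δ n (stdB Q n i) (v i)) = id := by
      funext v l
      rw [Finset.sum_apply]
      simp only [bet_apply, stdB_apply]
      rw [Finset.sum_eq_single l]
      · simp
      · intro i _ hi
        simp [Ne.symm hi]
      · intro h
        exact absurd (Finset.mem_univ l) h
    rw [this]
    exact Function.bijective_id

theorem op_bet (P : Matrix (Fin n) (Fin n) Q) (s : M) (hs : ∀ q, s * Δ q = Δ q * s)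
    (x : Fin n → Q) (y : M) :
    mop K (P.map (fun q => Δ q) + Matrix.scalar (Fin n) s) (bet K Δ n x y) =
      bet K Δ n (mop Qᵐᵒᵖ P x) y + bet K Δ n x (LinearMap.mulLeft K s y) := by
  classical
  funext i
  simp only [mop_apply, Matrix.add_apply, Matrix.map_apply, bet_apply, Pi.add_apply, add_mul,
    Finset.sum_add_distrib, smul_eq_mul, map_sum, map_mul, LinearMap.mulLeft_apply,
    Matrix.scalar_apply, Matrix.diagonal_apply, ite_mul, zero_mul, Finset.sum_ite_eq,
    Finset.mem_univ, if_true, Finset.sum_mul]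
  rw [← mul_assoc, hs, mul_assoc]
  congr 1
  exact Finset.sum_congr rfl fun j _ => (mul_assoc _ _ _).symm

end Pair


/-! ## The space `(W ⊗ 1) M` -/

section Wsp

variable {K M : Type v} [Field K] [Ring M] [Algebra K M] {n : ℕ}

variable (K) in
/-- The space of the `z` with `z i = ∑_{j ∈ J} v j i * z j`. -/
def Wsp (J : Finset (Fin n)) (v : Fin n → Fin n → M) : Submodule K (Fin n → M) where
  carrier := {z | ∀ i, z i = ∑ j ∈ J, v j i * z j}
  add_mem' := by
    intro a b ha hb i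
    simp only [Pi.add_apply, mul_add, Finset.sum_add_distrib]
    rw [← ha i, ← hb i]
  zero_mem' := fun i => by simp
  smul_mem' := by
    intro c z hz i
    simp only [Pi.smul_apply, mul_smul_comm]
    rw [← Finset.smul_sum, ← hz i]

theorem mem_Wsp {J : Finset (Fin n)} {v : Fin n → Fin n → M} {z : Fin n → M} :
    z ∈ Wsp K J v ↔ ∀ i, z i = ∑ j ∈ J, v j i * z j := Iff.rfl

theorem Wsp_stab {J : Finset (Fin n)} {v : Fin n → Fin n → M} {P : Matrix (Fin n) (Fin n) M}
    (h : ∀ j ∈ J, ∀ i, ∑ l, P i l * v j l = ∑ j' ∈ J, v j' i * ∑ l, P j' l * v j l)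
    {z : Fin n → M} (hz : z ∈ Wsp K J v) : mop K P z ∈ Wsp K J v := by
  have key : ∀ i, mop K P z i = ∑ j ∈ J, (∑ l, P i l * v j l) * z j := by
    intro i
    rw [mop_apply]
    simp only [smul_eq_mul]
    calc ∑ l, P i l * z l = ∑ l, ∑ j ∈ J, P i l * v j l * z j := by
          refine Finset.sum_congr rfl fun l _ => ?_
          conv_lhs => rw [mem_Wsp.1 hz l]
          rw [Finset.mul_sum]
          exact Finset.sum_congr rfl fun j _ => (mul_assoc _ _ _).symm
      _ = _ := by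
          rw [Finset.sum_comm]
          exact Finset.sum_congr rfl fun j _ => (Finset.sum_mul _ _ _).symm
  intro i
  rw [key i]
  calc ∑ j ∈ J, (∑ l, P i l * v j l) * z j
      = ∑ j ∈ J, ∑ j' ∈ J, v j' i * ((∑ l, P j' l * v j l) * z j) := by
        refine Finset.sum_congr rfl fun j hj => ?_
        rw [h j hj i, Finset.sum_mul]
        exact Finset.sum_congr rfl fun j' _ => mul_assoc _ _ _
    _ = ∑ j' ∈ J, v j' i * mop K P z j' := by
        rw [Finset.sum_comm]
        refine Finset.sum_congr rfl fun j' _ => ?_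
        rw [key j', Finset.mul_sum]

end Wsp

/-! ## Raising for generic parameters -/

theorem raise (hGRR : SpecGRR.{u, v}) (hRSE : SpecRSE.{u, v}) {k : Type u} {Z V : Type v} [Field k]
    [CharZero k] [Field Z] [Algebra k Z] [AddCommGroup V] [Module Z V] [Module.Finite Z V] {R B : ℕ}
    (n : Fin R → Module.End Z V) (hc : ∀ i j, n i * n j = n j * n i)
    (hB : ∀ c : Fin R → Z, (∑ i, c i • n i) ^ B = 0) (i0 : Fin R) :
    ∀ᶠ t in gen k R, ∀ (a : ℤ) (x : V), x ∈ wt (∑ i, algebraMap k Z (t i) • n i) a →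
      n i0 x ∈ wt (∑ i, algebraMap k Z (t i) • n i) (a + 1) := by
  classical
  have h1 : ∀ᶠ t in gen k R, ∀ m ∈ Finset.range B, ∀ t' : Fin R → k,
      finrank Z (LinearMap.range ((∑ i, algebraMap k Z (t' i) • n i) ^ m)) ≤
        finrank Z (LinearMap.range ((∑ i, algebraMap k Z (t i) • n i) ^ m)) := by
    rw [Filter.eventually_all_finset]
    intro m _
    exact hGRR k Z V R n m
  filter_upwards [h1] with t ht
  refine hRSE k Z V _ (n i0) ?_ ?_
  · rw [Finset.sum_mul, Finset.mul_sum]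
    refine Finset.sum_congr rfl fun i _ => ?_
    rw [smul_mul_assoc, mul_smul_comm, hc]
  · intro m c
    by_cases hm : m < B
    · have h2 := ht m (Finset.mem_range.2 hm) (fun i => t i + if i = i0 then c else 0)
      have h3 : (∑ i, algebraMap k Z (t i + if i = i0 then c else 0) • n i) =
          (∑ i, algebraMap k Z (t i) • n i) + algebraMap k Z c • n i0 := by
        simp only [map_add, add_smul, Finset.sum_add_distrib]
        congr 1
        rw [Finset.sum_eq_single i0]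
        · simp
        · intro i _ hi
          simp [hi]
        · intro h
          exact absurd (Finset.mem_univ i0) h
      rw [h3] at h2
      exact h2
    · have h2 := hB (fun i => algebraMap k Z (t i + if i = i0 then c else 0))
      have h3 : (∑ i, algebraMap k Z (t i + if i = i0 then c else 0) • n i) =
          (∑ i, algebraMap k Z (t i) • n i) + algebraMap k Z c • n i0 := by
        simp only [map_add, add_smul, Finset.sum_add_distrib]
        congr 1
        rw [Finset.sum_eq_single i0]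
        · simp
        · intro i _ hi
          simp [hi]
        · intro h
          exact absurd (Finset.mem_univ i0) h
      rw [h3] at h2
      rw [pow_eq_zero_of_le (not_lt.1 hm) h2]
      have h4 : finrank Z (LinearMap.range (0 : V →ₗ[Z] V)) = 0 := by
        rw [LinearMap.range_zero]
        exact finrank_bot Z V
      exact h4.le.trans (Nat.zero_le _)


theorem wt_zq {Z Q : Type*} [Field Z] [DivisionRing Q] [Algebra Z Q] {n : ℕ}
    (P : Matrix (Fin n) (Fin n) Q) {b : ℤ} {x : Fin n → Q}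
    (hx : x ∈ wt (mop Z P : Module.End Z (Fin n → Q)) b) :
    x ∈ wt (mop Qᵐᵒᵖ P : Module.End Qᵐᵒᵖ (Fin n → Q)) b :=
  wt_map (mop Z P : Module.End Z (Fin n → Q)) (mop Qᵐᵒᵖ P : Module.End Qᵐᵒᵖ (Fin n → Q))
    (AddMonoidHom.id _) (fun _ => rfl) hx

theorem wt_qz {Z Q : Type*} [Field Z] [DivisionRing Q] [Algebra Z Q] {n : ℕ}
    (P : Matrix (Fin n) (Fin n) Q) {b : ℤ} {x : Fin n → Q}
    (hx : x ∈ wt (mop Qᵐᵒᵖ P : Module.End Qᵐᵒᵖ (Fin n → Q)) b) :
    x ∈ wt (mop Z P : Module.End Z (Fin n → Q)) b :=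
  wt_map (mop Qᵐᵒᵖ P : Module.End Qᵐᵒᵖ (Fin n → Q)) (mop Z P : Module.End Z (Fin n → Q))
    (AddMonoidHom.id _) (fun _ => rfl) hx

/-! ## The other side -/

theorem mop_sum_smul {k : Type u} {K M : Type v} [Field k] [Field K] [Algebra k K] [Ring M]
    [Algebra k M] [Algebra K M] [IsScalarTower k K M] {n R : ℕ} (t : Fin R → k)
    (a : Fin R → Matrix (Fin n) (Fin n) M) :
    (mop K (∑ i, t i • a i) : Module.End K (Fin n → M)) =
      ∑ i, algebraMap k K (t i) • mop K (a i) := by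
  refine LinearMap.ext fun v => funext fun p => ?_
  rw [LinearMap.sum_apply, Finset.sum_apply, mop_apply]
  simp only [Matrix.sum_apply, Matrix.smul_apply, LinearMap.smul_apply, Pi.smul_apply, mop_apply,
    smul_eq_mul, algebraMap_smul, Finset.sum_mul, Finset.smul_sum, smul_mul_assoc]
  exact Finset.sum_comm

theorem xside (hRBC : SpecRBC.{v}) (hXSD : SpecXSD.{v}) (hGDG : SpecGDG.{u, v})
    {k : Type u} {Z Q K M : Type v} [Field k] [CharZero k] [Field Z] [Algebra k Z]
    [DivisionRing Q] [Algebra k Q] [Algebra Z Q] [IsScalarTower k Z Q] [Module.Finite Z Q]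
    [Field K] [Algebra k K] [Ring M] [Algebra k M] [Algebra K M] [IsScalarTower k K M]
    [Module.Finite K M] [IsSimpleRing M] (O : Subalgebra Z Q) (ℓ : O →ₐ[k] M) {n : ℕ}
    (ρ : M →ₐ[k] Matrix (Fin n) (Fin n) M) {R B : ℕ}
    (ν : Fin R → Matrix (Fin n) (Fin n) O) (s : Fin R → M) (a : Fin R → Matrix (Fin n) (Fin n) M)
    (ha3 : ∀ i m, ρ m * a i = a i * ρ m)
    (hspan : Submodule.span K (Set.range a) = Submodule.span K (Set.range fun i => (ν i).map ℓ))
    (hB1 : ∀ c : Fin R → k, (∑ i, c i • ν i) ^ B = 0) (hB2 : ∀ c : Fin R → k, (∑ i, c i • s i) ^ B = 0)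
    (hB3 : ∀ c : Fin R → k, (∑ i, c i • a i) ^ B = 0)
    (hB4 : ∀ c : Fin R → K, (∑ i, c i • (mop K (a i) : Module.End K (Fin n → M))) ^ B = 0)
    (l : Ultrafilter (Fin R → k)) (hl : (l : Filter (Fin R → k)) ≤ gen k R)
    (X1 : Submodule Qᵐᵒᵖ (Fin n → Q)) (Y1 : Submodule K M) (μ σ : ℚ)
    (J : Finset (Fin n)) (u : Fin n → Fin n → O)
    (hu : ∀ j ∈ J, ∀ j' ∈ J, u j j' = if j' = j then 1 else 0)
    (hX : ∀ x, x ∈ X1 ↔ ∀ i, x i = ∑ j ∈ J, (u j i : Q) * x j)
    (hXd : finrank Qᵐᵒᵖ X1 = J.card)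
    (hXe : ∀ᶠ t in (l : Filter (Fin R → k)),
      (deg B (wt (mop Qᵐᵒᵖ ((∑ i, t i • ν i).map (fun o : O => (o : Q))))) X1 : ℚ) =
        μ * finrank Qᵐᵒᵖ X1)
    (hYe : ∀ᶠ t in (l : Filter (Fin R → k)),
      (deg B (wt (LinearMap.mulLeft K (∑ i, t i • s i))) Y1 : ℚ) = σ * finrank K Y1)
    (hYr : ∀ y ∈ Y1, ∀ m, y * m ∈ Y1)
    (hW : ∀ z ∈ Wsp K J (fun j i => ℓ (u j i)), ∀ m,
      mop K (ρ m) z ∈ Wsp K J (fun j i => ℓ (u j i))) :
    prm (ρ : M →+* Matrix (Fin n) (Fin n) M) Y1 (Wsp K J fun j i => ℓ (u j i)) ≤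
      Wsp K J (fun j i => ℓ (u j i)) ∧
    finrank K (prm (ρ : M →+* Matrix (Fin n) (Fin n) M) Y1 (Wsp K J fun j i => ℓ (u j i))) =
      J.card * finrank K Y1 ∧
    ∀ᶠ t in (l : Filter (Fin R → k)),
      (μ + σ) *
        finrank K (prm (ρ : M →+* Matrix (Fin n) (Fin n) M) Y1 (Wsp K J fun j i => ℓ (u j i))) ≤
      (deg (2 * B) (wt (mop K (ρ (∑ i, t i • s i) + ∑ i, t i • a i)))
        (prm (ρ : M →+* Matrix (Fin n) (Fin n) M) Y1 (Wsp K J fun j i => ℓ (u j i))) : ℚ) := by
  classical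
  have : CharZero K := charZero_of_injective_algebraMap (algebraMap k K).injective
  have : CharZero Z := charZero_of_injective_algebraMap (algebraMap k Z).injective
  have : Infinite k := inferInstance
  set W := Wsp K J (fun j i => ℓ (u j i)) with hWdef
  have hM0 : 0 < finrank K M := finrank_pos
  have hM0' : (0 : ℚ) < finrank K M := by exact_mod_cast hM0
  have hrbc := fun t : Fin R → k => hRBC Z Q K M O (ℓ : O →+* M) n B (∑ i, t i • ν i) J u hu
    (hB1 t) X1 W hX (fun z => mem_Wsp)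
  have hWd : finrank K W = finrank K M * J.card := (hrbc 0).1
  have hxsd := fun t : Fin R → k => hXSD K M n B (ρ : M →+* Matrix (Fin n) (Fin n) M)
    (∑ i, t i • s i) (∑ i, t i • a i) W Y1 (hB2 t) (hB3 t) (fun m => by
      show ρ m * _ = _ * ρ m
      rw [Finset.mul_sum, Finset.sum_mul]
      refine Finset.sum_congr rfl fun i _ => ?_
      rw [mul_smul_comm, smul_mul_assoc, ha3]) hW hYr
  have hS1 := (hxsd 0).1
  have hS2 : finrank K (prm (ρ : M →+* Matrix (Fin n) (Fin n) M) Y1 W) =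
      J.card * finrank K Y1 := by
    have h := (hxsd 0).2.1
    rw [hWd] at h
    apply Nat.eq_of_mul_eq_mul_left hM0
    rw [h]
    ring
  refine ⟨hS1, hS2, ?_⟩
  -- generic degrees
  have hspan' : Submodule.span K (Set.range fun i => (mop K (a i) : Module.End K (Fin n → M))) =
      Submodule.span K (Set.range fun i =>
        (mop K ((ν i).map ℓ) : Module.End K (Fin n → M))) := by
    let ψ : Matrix (Fin n) (Fin n) M →ₗ[K] Module.End K (Fin n → M) :=
      { toFun := fun P => mop K P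
        map_add' := mop_add
        map_smul' := fun c P => by
          refine LinearMap.ext fun v => funext fun p => ?_
          simp [Finset.smul_sum] }
    have h1 : (Set.range fun i => (mop K (a i) : Module.End K (Fin n → M))) =
        ψ '' Set.range a := by
      rw [← Set.range_comp]
      rfl
    have h2 : (Set.range fun i => (mop K ((ν i).map ℓ) : Module.End K (Fin n → M))) =
        ψ '' Set.range (fun i => (ν i).map ℓ) := by
      rw [← Set.range_comp]
      rfl
    rw [h1, h2, Submodule.span_image, Submodule.span_image, hspan]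
  obtain ⟨d, hd1, hd2⟩ := hGDG k K (Fin n → M) R B (fun i => mop K (a i))
    (fun i => mop K ((ν i).map ℓ)) hspan' hB4 W
  filter_upwards [hXe, hYe, hl hd1, hl hd2] with t h1 h2 h3 h4
  have h5 := (hxsd t).2.2
  have h6 := (hrbc t).2
  have h7 : ((∑ i, t i • ν i).map (ℓ : O →+* M)) = ∑ i, t i • (ν i).map ℓ := by
    ext p q
    rw [Matrix.map_apply, Matrix.sum_apply, Matrix.sum_apply]
    simp only [Matrix.smul_apply, Matrix.map_apply]
    exact (map_sum ℓ _ _).trans (Finset.sum_congr rfl fun i _ => map_smul ℓ _ _)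
  rw [h7, mop_sum_smul, h4] at h6
  rw [mop_sum_smul (K := K) t a, h3] at h5
  have h8 : (finrank K M : ℚ) * ((μ + σ) *
      finrank K (prm (ρ : M →+* Matrix (Fin n) (Fin n) M) Y1 W)) ≤ finrank K M *
      (deg (2 * B) (wt (mop K ((ρ : M →+* Matrix (Fin n) (Fin n) M) (∑ i, t i • s i) +
        ∑ i, t i • a i))) (prm (ρ : M →+* Matrix (Fin n) (Fin n) M) Y1 W) : ℚ) := by
    have h9 : ((finrank K W : ℤ) * deg B (wt (LinearMap.mulLeft K (∑ i, t i • s i))) Y1 +
      (finrank K Y1 : ℤ) * d : ℚ) ≤ finrank K M *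
      (deg (2 * B) (wt (mop K ((ρ : M →+* Matrix (Fin n) (Fin n) M) (∑ i, t i • s i) +
        ∑ i, t i • a i))) (prm (ρ : M →+* Matrix (Fin n) (Fin n) M) Y1 W) : ℚ) := by
      exact_mod_cast h5
    refine le_trans (le_of_eq ?_) h9
    have h10 : (d : ℚ) = finrank K M * (μ * J.card) := by
      rw [h6]
      push_cast
      rw [h1, hXd]
    rw [h10, h2, hS2]
    push_cast
    rw [hWd]
    push_cast
    ring
  exact le_of_mul_le_mul_left h8 hM0'

end NCOM

open NCOM in
/-- Module NCO. -/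
theorem specNCO (hMAX : SpecMAX.{v, u}) (hWTA : SpecWTA.{v}) (hTPB : SpecTPB.{v})
    (hTMX : SpecTMX.{v, u}) (hCOV : SpecCOV.{v}) (hBAL : SpecBAL.{v}) (hGRR : SpecGRR.{u, v})
    (hRSE : SpecRSE.{u, v}) (hGDG : SpecGDG.{u, v}) (hPOS : SpecPOS.{v, u})
    (hMUZ : SpecMUZ.{v, u}) (hECH : SpecECH.{v}) (hRBC : SpecRBC.{v}) (hXSD : SpecXSD.{v}) :
    SpecNCO.{u, v} := by
  classical
  intro k Z Q K M _ _ _ _ _ _ _ _ _ _ _ _ _ _ _ _ _ O Δ ℓ n T ρ R ν s a e hO hν1 hν2 hs1 hs2 hs3
    ha1 ha2 ha3 hid hνT hspan hSTB hT1 he1 he2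
  by_contra hne
  push Not at hne
  obtain ⟨i0, hi0⟩ := hne
  have hn : Nonempty (Fin n) := by
    by_contra h
    rw [not_nonempty_iff] at h
    exact hi0 (Subsingleton.elim _ _)
  have : CharZero K := charZero_of_injective_algebraMap (algebraMap k K).injective
  have : CharZero Z := charZero_of_injective_algebraMap (algebraMap k Z).injective
  have hinfK : Infinite K := inferInstance
  have hinfk : Infinite k := inferInstance
  have hfQ : Module.Finite Qᵐᵒᵖ (Fin n → Q) := finQ Q n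
  have hntQ : Nontrivial (Fin n → Q) := inferInstance
  -- matrices over `Q`
  let oQ : O →ₐ[k] Q := (O.val.restrictScalars k)
  have hoQ : ∀ o : O, oQ o = (o : Q) := fun o => rfl
  let νQ : Fin R → Matrix (Fin n) (Fin n) Q := fun i => (ν i).map (fun o : O => (o : Q))
  let mQ : Matrix (Fin n) (Fin n) O →ₐ[k] Matrix (Fin n) (Fin n) Q := oQ.mapMatrix
  have hmQ : ∀ P, mQ P = P.map (fun o : O => (o : Q)) := fun P => rfl
  have hmQi : Function.Injective mQ := by
    intro P P' h
    ext p q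
    have := congrFun (congrFun h p) q
    exact this
  have hνQ2 : ∀ i j, νQ i * νQ j = νQ j * νQ i := by
    intro i j
    show mQ (ν i) * mQ (ν j) = mQ (ν j) * mQ (ν i)
    rw [← map_mul, ← map_mul, hν2]
  have hνQ1 : ∀ i, IsNilpotent (νQ i) := fun i => (hν1 i).map mQ
  -- uniform bounds
  obtain ⟨B1, hB1⟩ := unif (C := k) ν hν1 hν2
  obtain ⟨B2, hB2⟩ := unif (C := k) s hs1 hs2
  obtain ⟨B3, hB3⟩ := unif (C := k) a ha1 ha2
  obtain ⟨B4, hB4⟩ := unif (C := K) (fun i => (mop K (a i) : Module.End K (Fin n → M)))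
    (fun i => (ha1 i).map (mopR M K)) (fun i j => by
      rw [← mop_mul, ← mop_mul, ha2])
  obtain ⟨B5, hB5⟩ := unif (C := Z) (fun i => (mop Z (νQ i) : Module.End Z (Fin n → Q)))
    (fun i => (hνQ1 i).map (mopR Q Z)) (fun i j => by
      rw [← mop_mul, ← mop_mul, hνQ2])
  set B := B1 + B2 + B3 + B4 + B5 with hBdef
  replace hB1 : ∀ c : Fin R → k, (∑ i, c i • ν i) ^ B = 0 :=
    fun c => pow_eq_zero_of_le (by omega) (hB1 c)
  replace hB2 : ∀ c : Fin R → k, (∑ i, c i • s i) ^ B = 0 :=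
    fun c => pow_eq_zero_of_le (by omega) (hB2 c)
  replace hB3 : ∀ c : Fin R → k, (∑ i, c i • a i) ^ B = 0 :=
    fun c => pow_eq_zero_of_le (by omega) (hB3 c)
  replace hB4 : ∀ c : Fin R → K, (∑ i, c i • (mop K (a i) : Module.End K (Fin n → M))) ^ B = 0 :=
    fun c => pow_eq_zero_of_le (by omega) (hB4 c)
  replace hB5 : ∀ c : Fin R → Z, (∑ i, c i • (mop Z (νQ i) : Module.End Z (Fin n → Q))) ^ B = 0 :=
    fun c => pow_eq_zero_of_le (by omega) (hB5 c)
  -- the families
  let NQ : (Fin R → k) → Matrix (Fin n) (Fin n) Q := fun t => mQ (∑ i, t i • ν i)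
  let st : (Fin R → k) → M := fun t => ∑ i, t i • s i
  have hNQ : ∀ t, NQ t = ∑ i, t i • νQ i := by
    intro t
    show mQ _ = _
    rw [map_sum]
    exact Finset.sum_congr rfl fun i _ => map_smul mQ _ _
  have hNB : ∀ t, (mop Qᵐᵒᵖ (NQ t) : Module.End Qᵐᵒᵖ (Fin n → Q)) ^ B = 0 := by
    intro t
    have h : (mop Qᵐᵒᵖ (NQ t) : Module.End Qᵐᵒᵖ (Fin n → Q)) = mopR Q Qᵐᵒᵖ (mQ (∑ i, t i • ν i)) :=
      rfl
    rw [h, ← map_pow, ← map_pow, hB1, map_zero, map_zero]
  have hsB : ∀ t, (LinearMap.mulLeft K (st t)) ^ B = 0 := by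
    intro t
    rw [LinearMap.pow_mulLeft, hB2]
    simp
  -- ultrafilter and maximal subspaces
  let l : Ultrafilter (Fin R → k) := Ultrafilter.of (gen k R)
  have hl : (l : Filter (Fin R → k)) ≤ gen k R := Ultrafilter.of_le _
  obtain ⟨μ, X1, hX1⟩ := (hMAX Qᵐᵒᵖ (Fin n → Q) (Fin R → k) l B (fun t => wt (mop Qᵐᵒᵖ (NQ t)))
    (fun t => (hWTA.2.2 Qᵐᵒᵖ (Fin n → Q) _ B (hNB t)).1)).1
  obtain ⟨σ, Y1, hY1⟩ := (hMAX K M (Fin R → k) l B (fun t => wt (LinearMap.mulLeft K (st t)))
    (fun t => (hWTA.2.2 K M _ B (hsB t)).1)).1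
  -- stability of `X1`
  have hνNQ : ∀ (P : Matrix (Fin n) (Fin n) Q), (∀ i, νQ i * P = P * νQ i) →
      ∀ t, P * NQ t = NQ t * P := by
    intro P hP t
    rw [hNQ, Finset.sum_mul, Finset.mul_sum]
    refine Finset.sum_congr rfl fun i _ => ?_
    rw [mul_smul_comm, smul_mul_assoc, hP]
  have hXT : ∀ q : Q, ∀ x ∈ X1, mop Qᵐᵒᵖ (T q) x ∈ X1 := by
    intro q x hx
    by_cases hq : q = 0
    · rw [hq, map_zero, mop_zero]
      exact X1.zero_mem
    · refine stabQ hMAX hWTA hNB hX1 (T q) (T q⁻¹) ?_ ?_ ?_ x hx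
      · rw [← map_mul, mul_inv_cancel₀ hq, map_one]
      · rw [← map_mul, inv_mul_cancel₀ hq, map_one]
      · exact hνNQ _ fun i => hνT i q
  have hXC : ∀ c ∈ {c : Q | ∀ o ∈ O, o * c = c * o}, ∀ x ∈ X1, (fun i => c * x i) ∈ X1 := by
    intro c hc x hx
    by_cases hq : c = 0
    · rw [hq]
      simp only [zero_mul]
      exact X1.zero_mem
    · have h1 := stabQ hMAX hWTA hNB hX1 (Matrix.scalar (Fin n) c) (Matrix.scalar (Fin n) c⁻¹)
        (by rw [← map_mul, mul_inv_cancel₀ hq, map_one])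
        (by rw [← map_mul, inv_mul_cancel₀ hq, map_one]) (hνNQ _ fun i => by
          ext p q
          simp only [Matrix.scalar_apply, Matrix.mul_diagonal, Matrix.diagonal_mul, νQ,
            Matrix.map_apply]
          exact hc _ (ν i p q).2) x hx
      have h2 : mop Qᵐᵒᵖ (Matrix.scalar (Fin n) c) x = fun i => c * x i := by
        funext i
        simp [Matrix.scalar_apply, Matrix.diagonal_apply]
      rw [← h2]
      exact h1
  obtain ⟨J, u, hu1, hu2, hu3, hu4, hu5⟩ := hECH Q n X1 _ hXC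
  have huO : ∀ j ∈ J, ∀ i, u j i ∈ O := fun j hj i => hO _ fun c hc => hu5 j hj i c hc
  let uO : Fin n → Fin n → O := fun j i => if h : j ∈ J then ⟨u j i, huO j h i⟩ else 0
  have huO1 : ∀ j ∈ J, ∀ i, (uO j i : Q) = u j i := by
    intro j hj i
    simp only [uO, dif_pos hj]
  have huO2 : ∀ j ∈ J, ∀ j' ∈ J, uO j j' = if j' = j then 1 else 0 := by
    intro j hj j' hj'
    apply Subtype.ext
    rw [huO1 j hj, hu2 j hj j' hj']
    split_ifs <;> simp
  have hX : ∀ x, x ∈ X1 ↔ ∀ i, x i = ∑ j ∈ J, (uO j i : Q) * x j := by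
    intro x
    constructor
    · intro hx i
      rw [hu3 x hx i]
      exact Finset.sum_congr rfl fun j hj => by rw [huO1 j hj]
    · intro hx
      have h1 : x = ∑ j ∈ J, op (x j) • u j := by
        funext i
        rw [hx i, Finset.sum_apply]
        exact Finset.sum_congr rfl fun j hj => by
          rw [huO1 j hj, Pi.smul_apply, op_smul_eq_mul]
      rw [h1]
      exact Submodule.sum_mem _ fun j hj => Submodule.smul_mem _ _ (hu1 j hj)
  -- stability of `Y1`
  have hYL : ∀ q, ∀ y ∈ Y1, Δ q * y ∈ Y1 := by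
    intro q y hy
    refine stabK hMAX hWTA hsB hY1 (LinearMap.mulLeft K (Δ q)) (fun t x => ?_) y hy
    simp only [LinearMap.mulLeft_apply, ← mul_assoc, st, Finset.mul_sum, Finset.sum_mul]
    refine Finset.sum_congr rfl fun i _ => ?_
    rw [mul_smul_comm, smul_mul_assoc, smul_mul_assoc, smul_mul_assoc, hs3]
  have hYr : ∀ y ∈ Y1, ∀ m, y * m ∈ Y1 := by
    intro y hy m
    refine stabK hMAX hWTA hsB hY1 (LinearMap.mulRight K m) (fun t x => ?_) y hy
    simp [mul_assoc]
  have hYst : LSt (lac K Δ) Y1 := fun q v hv => hYL q v hv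
  -- the space `(W ⊗ 1) M`
  have hW : ∀ z ∈ Wsp K J (fun j i => ℓ (uO j i)), ∀ m,
      mop K (ρ m) z ∈ Wsp K J (fun j i => ℓ (uO j i)) := by
    intro z hz m
    refine Wsp_stab (fun j hj i => hSTB J uO huO2 (fun q j hj i => ?_) m j hj i) hz
    have h1 : mop Qᵐᵒᵖ (T q) (u j) ∈ X1 := hXT q _ (hu1 j hj)
    have h2 := (hX _).1 h1 i
    simp only [mop_apply, smul_eq_mul] at h2
    rw [Finset.sum_congr rfl fun l _ => by rw [huO1 j hj l], h2]
    exact Finset.sum_congr rfl fun j' hj' => by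
      congr 1
      exact Finset.sum_congr rfl fun l _ => by rw [huO1 j hj l]
  obtain ⟨hS1, hS2, hS3⟩ := xside hRBC hXSD hGDG O ℓ ρ ν s a ha3 hspan hB1 hB2 hB3 hB4 l hl X1 Y1
    μ σ J uO huO2 hX hu4 hX1.eq hY1.eq hYr hW
  -- the tensor product side
  have hbal := isBal (K := K) Δ n hBAL
  have hcov : ∀ t, (∀ a, LSt (lac K Δ) (wt (LinearMap.mulLeft K (st t)) a)) ∧
      ∀ c, conv (bet K Δ n) (wt (mop Qᵐᵒᵖ (NQ t) : Module.End Qᵐᵒᵖ (Fin n → Q)))
        (wt (LinearMap.mulLeft K (st t))) c =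
        wt (mop K (ρ (∑ i, t i • s i) + ∑ i, t i • a i) : Module.End K (Fin n → M)) c := by
    intro t
    have h1 : (NQ t).map (fun q => Δ q) + Matrix.scalar (Fin n) (st t) =
        ρ (∑ i, t i • s i) + ∑ i, t i • a i := by
      have h2 : ∀ i, (νQ i).map (fun q => Δ q) + Matrix.scalar (Fin n) (s i) =
          ρ (s i) + a i := by
        intro i
        rw [← hid i]
        rfl
      have h3 : (NQ t).map (fun q => Δ q) = ∑ i, t i • (νQ i).map (fun q => Δ q) := by
        rw [hNQ]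
        show Δ.mapMatrix _ = _
        rw [map_sum]
        exact Finset.sum_congr rfl fun i _ => map_smul Δ.mapMatrix _ _
      have h4 : Matrix.scalar (Fin n) (st t) = ∑ i, t i • Matrix.scalar (Fin n) (s i) := by
        show Matrix.scalar (Fin n) (∑ i, t i • s i) = _
        rw [map_sum]
        refine Finset.sum_congr rfl fun i _ => ?_
        ext p q
        simp only [Matrix.scalar_apply, Matrix.diagonal_apply, Matrix.smul_apply]
        split_ifs <;> simp
      rw [h3, h4, ← Finset.sum_add_distrib, map_sum, ← Finset.sum_add_distrib]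
      refine Finset.sum_congr rfl fun i _ => ?_
      rw [← smul_add, h2, smul_add, map_smul]
    have hst : ∀ q, st t * Δ q = Δ q * st t := by
      intro q
      simp only [st, Finset.sum_mul, Finset.mul_sum]
      refine Finset.sum_congr rfl fun i _ => ?_
      rw [smul_mul_assoc, mul_smul_comm, hs3]
    have h5 := hCOV Q K (Fin n → Q) M (Fin n → M) (lac K Δ) (bet K Δ n) hbal
      (mop Qᵐᵒᵖ (NQ t)) (LinearMap.mulLeft K (st t))
      (mop K ((NQ t).map (fun q => Δ q) + Matrix.scalar (Fin n) (st t))) B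
      (fun x y => op_bet Δ n (NQ t) (st t) hst x y) (fun q v => by
        simp only [lac_apply, LinearMap.mulLeft_apply, ← mul_assoc, hst])
      (hNB t) (hsB t)
    rw [h1] at h5
    exact ⟨h5.2.1, h5.2.2⟩
  have hle : prm (ρ : M →+* Matrix (Fin n) (Fin n) M) Y1 (Wsp K J fun j i => ℓ (uO j i)) ≤
      tns (bet K Δ n) X1 Y1 := by
    refine (hTMX Q K (Fin n → Q) M (Fin n → M) (lac K Δ) (bet K Δ n) hbal (Fin R → k) l B
      (fun t => wt (mop Qᵐᵒᵖ (NQ t))) (fun t => wt (LinearMap.mulLeft K (st t))) μ σ X1 Y1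
      (fun t => (hWTA.2.2 Qᵐᵒᵖ (Fin n → Q) _ B (hNB t)).1)
      (fun t => (hWTA.2.2 K M _ B (hsB t)).1) (fun t a => (hcov t).1 a) hYst hX1 hY1 _).2 ?_
    filter_upwards [hS3] with t ht
    have h6 : conv (bet K Δ n) (wt (mop Qᵐᵒᵖ (NQ t) : Module.End Qᵐᵒᵖ (Fin n → Q)))
        (wt (LinearMap.mulLeft K (st t))) =
        wt (mop K (ρ (∑ i, t i • s i) + ∑ i, t i • a i) : Module.End K (Fin n → M)) :=
      funext (hcov t).2
    rw [h6]
    exact ht
  have hfM : Module.Finite K (Fin n → M) := inferInstance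
  have heq : prm (ρ : M →+* Matrix (Fin n) (Fin n) M) Y1 (Wsp K J fun j i => ℓ (uO j i)) =
      tns (bet K Δ n) X1 Y1 := by
    refine Submodule.eq_of_le_of_finrank_eq hle ?_
    rw [hS2, (hTPB Q K (Fin n → Q) M (Fin n → M) (lac K Δ) (bet K Δ n) hbal).2.2.2.1 X1 Y1 hYst,
      hu4]
  -- the entries are constants
  have hconst : ∀ j ∈ J, ∀ i, ∃ c : k, algebraMap k Q c = u j i := by
    intro j hj i
    have h1 := hT1 (uO j i) Y1 hY1.ne (fun y hy q' => hYL q' y hy) (fun y hy => ?_)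
    · rw [huO1 j hj] at h1
      exact h1
    · have h2 : bet K Δ n (u j) y ∈ tns (bet K Δ n) X1 Y1 :=
        Submodule.subset_span ⟨u j, hu1 j hj, y, hy, rfl⟩
      rw [← heq] at h2
      have h3 := mem_Wsp.1 (hS1 h2) i
      simp only [bet_apply] at h3
      rw [huO1 j hj, h3, Finset.sum_eq_single j]
      · rw [hu2 j hj j hj, if_pos rfl, map_one, one_mul]
      · intro j' hj' hne'
        rw [hu2 j hj j' hj', if_neg hne', map_zero, zero_mul, mul_zero]
      · intro h
        exact absurd hj h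
  -- positivity
  have hcharQ : ∀ t, (mop Z (NQ t) : Module.End Z (Fin n → Q)) =
      ∑ i, algebraMap k Z (t i) • mop Z (νQ i) := by
    intro t
    rw [hNQ]
    refine LinearMap.ext fun v => funext fun p => ?_
    rw [LinearMap.sum_apply, Finset.sum_apply, mop_apply]
    simp only [Matrix.sum_apply, Matrix.smul_apply, LinearMap.smul_apply, Pi.smul_apply, mop_apply,
      smul_eq_mul, algebraMap_smul, Finset.sum_mul, Finset.smul_sum, smul_mul_assoc]
    exact Finset.sum_comm
  have hfZ : Module.Finite Z (Fin n → Q) := inferInstance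
  have hraise : ∀ᶠ t in (l : Filter (Fin R → k)), ∀ (b : ℤ) (x : Fin n → Q),
      x ∈ wt (mop Qᵐᵒᵖ (NQ t) : Module.End Qᵐᵒᵖ (Fin n → Q)) b →
        mop Qᵐᵒᵖ (νQ i0) x ∈ wt (mop Qᵐᵒᵖ (NQ t) : Module.End Qᵐᵒᵖ (Fin n → Q)) (b + 1) := by
    have h1 := hl (raise hGRR hRSE (k := k) (fun i => (mop Z (νQ i) : Module.End Z (Fin n → Q)))
      (fun i j => by rw [← mop_mul, ← mop_mul, hνQ2]) hB5 i0)
    filter_upwards [h1] with t ht b x hx
    rw [← hcharQ] at ht
    exact wt_zq (NQ t) (ht b x (wt_qz (NQ t) hx))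
  have hp0 : (mop Qᵐᵒᵖ (νQ i0) : Module.End Qᵐᵒᵖ (Fin n → Q)) ≠ 0 := by
    intro h
    apply hi0
    apply hmQi
    rw [map_zero]
    show νQ i0 = 0
    ext p q
    have h1 := congrFun (LinearMap.congr_fun h (Pi.single q 1)) p
    simp only [mop_apply, LinearMap.zero_apply, Pi.zero_apply] at h1
    rw [Finset.sum_eq_single q] at h1
    · simpa using h1
    · intro b _ hb
      simp [hb]
    · intro hh
      exact absurd (Finset.mem_univ q) hh
  have hμ : 0 < μ := hPOS Qᵐᵒᵖ (Fin n → Q) (Fin R → k) l B (fun t => mop Qᵐᵒᵖ (NQ t))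
    (mop Qᵐᵒᵖ (νQ i0)) μ X1 hNB hraise hp0 hX1
  -- the multiplication map
  let m : (Fin n → Q) →ₗ[Qᵐᵒᵖ] Q :=
    { toFun := fun x => ∑ p, e p * x p
      map_add' := fun x y => by simp [mul_add, Finset.sum_add_distrib]
      map_smul' := fun q x => by
        simp only [Pi.smul_apply, RingHom.id_apply, Finset.smul_sum]
        refine Finset.sum_congr rfl fun p _ => ?_
        rw [MulOpposite.smul_eq_mul_unop, MulOpposite.smul_eq_mul_unop, mul_assoc] }
  have hm0 : ∀ t x, m (mop Qᵐᵒᵖ (NQ t) x) = 0 := by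
    intro t x
    show ∑ p, e p * (∑ q, NQ t p q • x q) = 0
    have h1 : ∀ q, ∑ p, e p * NQ t p q = 0 := by
      intro q
      rw [hNQ]
      simp only [Matrix.sum_apply, Matrix.smul_apply, Finset.mul_sum, mul_smul_comm]
      rw [Finset.sum_comm]
      refine Finset.sum_eq_zero fun i _ => ?_
      rw [← Finset.smul_sum]
      have h2 := he2 i q
      show t i • ∑ p, e p * (ν i p q : Q) = 0
      rw [h2, smul_zero]
    calc ∑ p, e p * (∑ q, NQ t p q • x q) = ∑ q, (∑ p, e p * NQ t p q) * x q := by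
          simp only [Finset.mul_sum, Finset.sum_mul, smul_eq_mul, mul_assoc]
          exact Finset.sum_comm
      _ = 0 := Finset.sum_eq_zero fun q _ => by rw [h1, zero_mul]
  have hker := hMUZ Qᵐᵒᵖ (Fin n → Q) Q (Fin R → k) l B (fun t => mop Qᵐᵒᵖ (NQ t)) m μ X1 hNB hm0
    hX1 hμ
  -- contradiction
  have hJ : J.Nonempty := by
    rw [Finset.nonempty_iff_ne_empty]
    intro hJ0
    apply hX1.ne
    rw [eq_bot_iff]
    intro x hx
    rw [Submodule.mem_bot]
    funext i
    rw [(hX x).1 hx i, hJ0, Finset.sum_empty]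
    rfl
  obtain ⟨j, hj⟩ := hJ
  choose c hc using fun i => hconst j hj i
  have h1 : m (u j) = 0 := hker (hu1 j hj)
  have h2 : ∑ p, c p • e p = 0 := by
    rw [← h1]
    show _ = ∑ p, e p * u j p
    refine Finset.sum_congr rfl fun p _ => ?_
    rw [← hc p, Algebra.smul_def, Algebra.commutes]
  have h3 := Fintype.linearIndependent_iff.1 he1 c h2 j
  have h4 := hc j
  rw [h3, map_zero, hu2 j hj j hj, if_pos rfl] at h4
  exact zero_ne_one h4

end Pool.Agent.Lib.MP_c37a72_al.NI
end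

section
/-!
# POS: the maximal slope is positive
-/
set_option autoImplicit false

open Module

namespace Pool.Agent.Lib.MP_c37a72_al.NI

universe u v w

namespace POSM

theorem shift (B : ℕ) (f : ℤ → ℤ) :
    ∑ a ∈ Finset.Ioc (-(B : ℤ)) B, f (a + 1) + f (1 - B) =
      ∑ a ∈ Finset.Ioc (-(B : ℤ)) B, f a + f (B + 1) := by
  have h1 : ∑ a ∈ Finset.Ioc (-(B : ℤ)) B, f (a + 1) =
      ∑ a ∈ Finset.Ioc (-(B : ℤ) + 1) (B + 1), f a := by
    rw [← Finset.map_add_right_Ioc, Finset.sum_map]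
    rfl
  have h2 : Finset.Ioc (-(B : ℤ)) (B + 1) = insert (1 - (B : ℤ)) (Finset.Ioc (-(B : ℤ) + 1) (B + 1)) := by
    ext x
    simp only [Finset.mem_Ioc, Finset.mem_insert]
    omega
  have h3 : Finset.Ioc (-(B : ℤ)) (B + 1) = insert ((B : ℤ) + 1) (Finset.Ioc (-(B : ℤ)) B) := by
    ext x
    simp only [Finset.mem_Ioc, Finset.mem_insert]
    omega
  have h4 : (1 - (B : ℤ)) ∉ Finset.Ioc (-(B : ℤ) + 1) (B + 1) := by
    simp only [Finset.mem_Ioc]
    omega
  have h5 : ((B : ℤ) + 1) ∉ Finset.Ioc (-(B : ℤ)) B := by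
    simp only [Finset.mem_Ioc]
    omega
  have h6 : ∑ a ∈ Finset.Ioc (-(B : ℤ)) (B + 1), f a =
      f (1 - B) + ∑ a ∈ Finset.Ioc (-(B : ℤ) + 1) (B + 1), f a := by
    rw [h2, Finset.sum_insert h4]
  have h7 : ∑ a ∈ Finset.Ioc (-(B : ℤ)) (B + 1), f a =
      f (B + 1) + ∑ a ∈ Finset.Ioc (-(B : ℤ)) B, f a := by
    rw [h3, Finset.sum_insert h5]
  rw [h1]
  linarith

section

variable {D V : Type v} [DivisionRing D] [AddCommGroup V] [Module D V] [Module.Finite D V]

theorem rank_null (p : Module.End D V) (F : Submodule D V) :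
    finrank D (F.map p) + finrank D ↥(LinearMap.ker p ⊓ F) = finrank D F := by
  have h1 := LinearMap.finrank_range_add_finrank_ker (p ∘ₗ F.subtype)
  rw [LinearMap.range_comp, Submodule.range_subtype, LinearMap.ker_comp] at h1
  have h2 : finrank D ↥((LinearMap.ker p).comap F.subtype) = finrank D ↥(LinearMap.ker p ⊓ F) := by
    rw [← Submodule.finrank_map_subtype_eq F, Submodule.map_comap_subtype, inf_comm]
  rw [h2] at h1
  exact h1

/-- The computation for one filtration. -/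
theorem core (p : Module.End D V) (B : ℕ) (F : ℤ → Submodule D V) (hF : IsFil B F)
    (h0 : deg B F ⊤ = 0) (htop : F (1 - B) = ⊤)
    (hp : ∀ (a : ℤ) (x : V), x ∈ F a → p x ∈ F (a + 1)) :
    (finrank D (LinearMap.range p) : ℤ) ≤ deg B F (LinearMap.range p) + deg B F (LinearMap.ker p) := by
  have h1 : ∀ a, (finrank D (F a) : ℤ) - finrank D ↥(LinearMap.ker p ⊓ F a) ≤
      finrank D ↥(LinearMap.range p ⊓ F (a + 1)) := by
    intro a
    have h2 := rank_null p (F a)
    have h3 : (F a).map p ≤ LinearMap.range p ⊓ F (a + 1) := by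
      rintro _ ⟨x, hx, rfl⟩
      exact ⟨⟨x, rfl⟩, hp a x hx⟩
    have h4 := Submodule.finrank_mono h3
    omega
  have h5 : ∑ a ∈ Finset.Ioc (-(B : ℤ)) B, (finrank D (F a) : ℤ) -
      ∑ a ∈ Finset.Ioc (-(B : ℤ)) B, (finrank D ↥(LinearMap.ker p ⊓ F a) : ℤ) ≤
      ∑ a ∈ Finset.Ioc (-(B : ℤ)) B, (finrank D ↥(LinearMap.range p ⊓ F (a + 1)) : ℤ) := by
    rw [← Finset.sum_sub_distrib]
    exact Finset.sum_le_sum fun a _ => h1 a
  have h6 := shift B (fun a => (finrank D ↥(LinearMap.range p ⊓ F a) : ℤ))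
  have h7 : F ((B : ℤ) + 1) = ⊥ := hF.bot _ (by omega)
  rw [h7, htop, inf_bot_eq, finrank_bot, inf_top_eq] at h6
  have h8 := LinearMap.finrank_range_add_finrank_ker p
  unfold deg at h0 ⊢
  have h10 : ∀ a, finrank D ↥((⊤ : Submodule D V) ⊓ F a) = finrank D (F a) := fun a => by
    rw [top_inf_eq]
  simp only [h10] at h0
  rw [finrank_top] at h0
  have h9 : (B : ℤ) * (finrank D (LinearMap.range p) : ℤ) + B * (finrank D (LinearMap.ker p) : ℤ) =
      B * finrank D V := by
    rw [← h8]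
    push_cast
    ring
  push_cast at h6
  linarith

end

end POSM

open POSM in
theorem specPOS (hWTA : SpecWTA.{v}) : SpecPOS.{v, w} := by
  intro D V _ _ _ _ 𝒯 l _ B N p μ V1 hN hp hp0 hMx
  by_contra hμ
  rw [not_lt] at hμ
  have e1 := hMx.le (LinearMap.range p)
  have e2 := hMx.le (LinearMap.ker p)
  obtain ⟨t, ⟨h1, h2⟩, h3⟩ := ((e1.and e2).and hp).exists
  obtain ⟨hA, -, hC⟩ := hWTA
  obtain ⟨hfil, hdeg⟩ := hC D V (N t) B (hN t)
  obtain ⟨-, htop⟩ := ((hA D V (N t)).2.1 B (hN t)).2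
  have hc := core p B (wt (N t)) hfil hdeg (htop _ le_rfl) h3
  have hr : 0 < finrank D (LinearMap.range p) := by
    rw [Nat.pos_iff_ne_zero]
    intro h0
    rw [Submodule.finrank_eq_zero] at h0
    exact hp0 (LinearMap.range_eq_bot.1 h0)
  have h4 : (deg B (wt (N t)) (LinearMap.range p) : ℚ) ≤ 0 :=
    h1.trans (mul_nonpos_of_nonpos_of_nonneg hμ (Nat.cast_nonneg _))
  have h5 : (deg B (wt (N t)) (LinearMap.ker p) : ℚ) ≤ 0 :=
    h2.trans (mul_nonpos_of_nonpos_of_nonneg hμ (Nat.cast_nonneg _))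
  have h4' : deg B (wt (N t)) (LinearMap.range p) ≤ 0 := by exact_mod_cast h4
  have h5' : deg B (wt (N t)) (LinearMap.ker p) ≤ 0 := by exact_mod_cast h5
  omega

end Pool.Agent.Lib.MP_c37a72_al.NI
end

section
/-!
# RBC: base change of degrees
-/
set_option autoImplicit false

open Module

namespace Pool.Agent.Lib.MP_c37a72_al.NI

universe u v w

namespace RBCM

/-- The base change for arbitrary spaces. -/
theorem bcA {Q K X V S : Type v} [DivisionRing Q] [Field K] [AddCommGroup X] [Module Qᵐᵒᵖ X]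
    [Module.Finite Qᵐᵒᵖ X] [AddCommGroup V] [Module K V] [Module.Finite K V] [AddCommGroup S]
    [Module K S] [CharZero K]
    (hWTA : SpecWTA.{v}) (hFDA : SpecFDA.{v}) (hCOV : SpecCOV.{v})
    (hTDG : SpecTDG.{v}) [Module.Finite K S] (L : Q →+* Module.End K V) (β : X →+ V →ₗ[K] S)
    (hbal : IsBal L β) (n : Module.End Qᵐᵒᵖ X) (T : Module.End K S) (B : ℕ)
    (hT : ∀ x y, T (β x y) = β (n x) y) (hn : n ^ B = 0) (hTB : T ^ B = 0)
    (X' : Submodule Qᵐᵒᵖ X) :
    deg B (wt T) (tns β X' ⊤) = finrank K V * deg B (wt n) X' := by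
  obtain ⟨-, -, hC⟩ := hWTA
  have hfT := (hC K S T B hTB).1
  have hfn := (hC Qᵐᵒᵖ X n B hn).1
  obtain ⟨hf0, hd0⟩ := hC K V 0 1 (pow_one 0)
  obtain ⟨-, hst, hconv⟩ := hCOV Q K X V S L β hbal n 0 T (B + 1) (by
      intro x y
      rw [hT, LinearMap.zero_apply, map_zero, add_zero]) (by
      intro q y
      rw [LinearMap.zero_apply, LinearMap.zero_apply, map_zero])
    (by rw [pow_succ, hn, zero_mul]) (by rw [pow_succ, mul_zero])
  have hconv' : conv β (wt n) (wt (0 : Module.End K V)) = wt T := funext hconv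
  have h2 := hTDG Q K X V S L β hbal B 1 (wt n) (wt (0 : Module.End K V)) hfn hf0 hst X' ⊤
    (fun _ _ _ => trivial)
  rw [hconv', hd0, mul_zero, add_zero, finrank_top] at h2
  rw [← h2]
  exact ((hFDA K S B (wt T) hfT).2.1 (B + 1) _ (Nat.le_succ B)).symm

section bc

variable {O' K V : Type v} [DivisionRing O'] [Field K] [AddCommGroup V] [Module K V]

/-- `β x v i = L (x i) v`. -/
def beta (L : O' →+* Module.End K V) (n : ℕ) : (Fin n → O') →+ V →ₗ[K] (Fin n → V) where
  toFun x := LinearMap.pi fun i => L (x i)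
  map_zero' := by
    refine LinearMap.ext fun v => funext fun i => ?_
    show L 0 v = 0
    rw [map_zero]
    rfl
  map_add' x y := by
    refine LinearMap.ext fun v => funext fun i => ?_
    show L (x i + y i) v = L (x i) v + L (y i) v
    rw [map_add]
    rfl

theorem beta_apply (L : O' →+* Module.End K V) (n : ℕ) (x : Fin n → O') (v : V) (i : Fin n) :
    beta L n x v i = L (x i) v := rfl

variable (O') in
/-- The right space `O'^n`. -/
def opE (n : ℕ) : (Fin n → O') ≃ₗ[O'ᵐᵒᵖ] (Fin n → O'ᵐᵒᵖ) where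
  toFun x i := MulOpposite.op (x i)
  map_add' _ _ := rfl
  map_smul' _ _ := rfl
  invFun y i := MulOpposite.unop (y i)
  left_inv _ := rfl
  right_inv _ := rfl

variable (O') in
/-- The standard basis. -/
noncomputable def bs (n : ℕ) : Basis (Fin n) O'ᵐᵒᵖ (Fin n → O') := Basis.ofEquivFun (opE O' n)

theorem bs_apply (n : ℕ) (j i : Fin n) : bs O' n j i = if i = j then 1 else 0 := by
  unfold bs
  rw [Basis.coe_ofEquivFun]
  show MulOpposite.unop ((Pi.single j 1 : Fin n → O'ᵐᵒᵖ) i) = _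
  rw [Pi.single_apply]
  by_cases h : i = j
  · simp [h]
  · simp [h]

theorem isBal (hBAL : SpecBAL.{v}) (L : O' →+* Module.End K V) (n : ℕ) : IsBal L (beta L n) := by
  refine hBAL O' K (Fin n → O') V (Fin n → V) L (beta L n) ?_ n (bs O' n) ?_
  · intro x q v
    funext i
    show L (x i * q) v = L (x i) (L q v)
    rw [map_mul]
    rfl
  · have h : (fun v : Fin n → V => ∑ i, beta L n (bs O' n i) (v i)) = id := by
      funext v
      funext k
      rw [Finset.sum_apply, Finset.sum_eq_single k]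
      · rw [beta_apply, bs_apply, if_pos rfl, map_one]
        rfl
      · intro j _ hj
        rw [beta_apply, bs_apply, if_neg (Ne.symm hj), map_zero]
        rfl
      · intro h
        exact absurd (Finset.mem_univ _) h
    rw [h]
    exact Function.bijective_id

/-- The operator of a matrix. -/
def TT (L : O' →+* Module.End K V) {n : ℕ} (P : Matrix (Fin n) (Fin n) O') :
    Module.End K (Fin n → V) :=
  LinearMap.pi fun i => ∑ j, (L (P i j)) ∘ₗ LinearMap.proj j

theorem TT_apply (L : O' →+* Module.End K V) {n : ℕ} (P : Matrix (Fin n) (Fin n) O')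
    (z : Fin n → V) (i : Fin n) : TT L P z i = ∑ j, L (P i j) (z j) := by
  show (∑ j, (L (P i j)) ∘ₗ LinearMap.proj j) z = _
  rw [LinearMap.sum_apply]
  rfl

theorem TT_mul (L : O' →+* Module.End K V) {n : ℕ} (P P' : Matrix (Fin n) (Fin n) O')
    (z : Fin n → V) : TT L (P * P') z = TT L P (TT L P' z) := by
  funext i
  simp only [TT_apply, Matrix.mul_apply, map_sum, map_mul, LinearMap.sum_apply,
    Module.End.mul_apply]
  exact Finset.sum_comm

theorem TT_one (L : O' →+* Module.End K V) {n : ℕ} (z : Fin n → V) :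
    TT L (1 : Matrix (Fin n) (Fin n) O') z = z := by
  funext i
  rw [TT_apply, Finset.sum_eq_single i]
  · rw [Matrix.one_apply_eq, map_one]
    rfl
  · intro j _ hj
    rw [Matrix.one_apply_ne (Ne.symm hj), map_zero]
    rfl
  · intro h
    exact absurd (Finset.mem_univ _) h

theorem TT_zero (L : O' →+* Module.End K V) {n : ℕ} (z : Fin n → V) :
    TT L (0 : Matrix (Fin n) (Fin n) O') z = 0 := by
  funext i
  rw [TT_apply]
  refine Finset.sum_eq_zero fun j _ => ?_
  rw [Matrix.zero_apply, map_zero]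
  rfl

theorem TT_pow (L : O' →+* Module.End K V) {n : ℕ} (P : Matrix (Fin n) (Fin n) O') (B : ℕ) :
    TT L P ^ B = TT L (P ^ B) := by
  induction B with
  | zero =>
    refine LinearMap.ext fun z => ?_
    rw [pow_zero, pow_zero, TT_one]
    rfl
  | succ B ih =>
    refine LinearMap.ext fun z => ?_
    rw [pow_succ, pow_succ, ih, TT_mul]
    rfl

theorem mop_mul' {n : ℕ} (P P' : Matrix (Fin n) (Fin n) O') (z : Fin n → O') :
    mop O'ᵐᵒᵖ (P * P') z = mop O'ᵐᵒᵖ P (mop O'ᵐᵒᵖ P' z) := by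
  funext i
  simp only [mop_apply, smul_eq_mul, Matrix.mul_apply, Finset.sum_mul, Finset.mul_sum]
  rw [Finset.sum_comm]
  refine Finset.sum_congr rfl fun j _ => Finset.sum_congr rfl fun l _ => ?_
  rw [mul_assoc]

theorem mop_pow' {n : ℕ} (P : Matrix (Fin n) (Fin n) O') (B : ℕ) :
    (mop O'ᵐᵒᵖ P : Module.End O'ᵐᵒᵖ (Fin n → O')) ^ B = mop O'ᵐᵒᵖ (P ^ B) := by
  induction B with
  | zero =>
    refine LinearMap.ext fun z => ?_
    funext i
    rw [pow_zero, pow_zero, mop_apply, Finset.sum_eq_single i]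
    · simp
    · intro j _ hj
      simp [Matrix.one_apply_ne (Ne.symm hj)]
    · intro h
      exact absurd (Finset.mem_univ _) h
  | succ B ih =>
    refine LinearMap.ext fun z => ?_
    rw [pow_succ, pow_succ, ih, mop_mul']
    rfl

/-- The subspace of `O'^n`. -/
def XX {n : ℕ} (J : Finset (Fin n)) (u : Fin n → Fin n → O') : Submodule O'ᵐᵒᵖ (Fin n → O') where
  carrier := {x | ∀ i, x i = ∑ j ∈ J, u j i * x j}
  add_mem' := by
    intro x y hx hy i
    rw [Pi.add_apply, hx i, hy i, ← Finset.sum_add_distrib]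
    refine Finset.sum_congr rfl fun j _ => ?_
    rw [Pi.add_apply, mul_add]
  zero_mem' := by
    intro i
    simp
  smul_mem' := by
    intro q x hx i
    show x i * q.unop = ∑ j ∈ J, u j i * (x j * q.unop)
    rw [hx i, Finset.sum_mul]
    refine Finset.sum_congr rfl fun j _ => ?_
    rw [mul_assoc]

theorem mem_XX {n : ℕ} {J : Finset (Fin n)} {u : Fin n → Fin n → O'} {x : Fin n → O'} :
    x ∈ XX J u ↔ ∀ i, x i = ∑ j ∈ J, u j i * x j := Iff.rfl

theorem dimW [Module.Finite K V] (L : O' →+* Module.End K V) {n : ℕ} (J : Finset (Fin n))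
    (u : Fin n → Fin n → O') (hu : ∀ j ∈ J, ∀ j' ∈ J, u j j' = if j' = j then 1 else 0)
    (W : Submodule K (Fin n → V)) (hW : ∀ z, z ∈ W ↔ ∀ i, z i = ∑ j ∈ J, L (u j i) (z j)) :
    finrank K W = finrank K V * J.card := by
  have hval : ∀ (c : J → V) (j' : J), ∑ j ∈ J.attach, L (u j j') (c j) = c j' := by
    intro c j'
    rw [Finset.sum_eq_single j']
    · rw [hu j' j'.2 j' j'.2, if_pos rfl, map_one]
      rfl
    · intro j _ hj
      rw [hu j j.2 j' j'.2, if_neg (fun h => hj (Subtype.ext h.symm)), map_zero]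
      rfl
    · intro h
      exact absurd (Finset.mem_attach _ _) h
  let e : W ≃ₗ[K] (J → V) :=
    { toFun := fun z j => (z : Fin n → V) j
      map_add' := fun _ _ => rfl
      map_smul' := fun _ _ => rfl
      invFun := fun c => ⟨fun i => ∑ j ∈ J.attach, L (u j i) (c j), by
        rw [hW]
        intro i
        rw [← Finset.sum_attach J]
        refine Finset.sum_congr rfl fun j _ => ?_
        rw [hval c j]⟩
      left_inv := by
        intro z
        refine Subtype.ext (funext fun i => ?_)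
        show ∑ j ∈ J.attach, L (u j i) ((z : Fin n → V) j) = (z : Fin n → V) i
        rw [Finset.sum_attach J (fun j => L (u j i) ((z : Fin n → V) j))]
        exact ((hW z).1 z.2 i).symm
      right_inv := by
        intro c
        funext j'
        exact hval c j' }
  rw [LinearEquiv.finrank_eq e, Module.finrank_pi_fintype]
  simp [mul_comm]

/-- The base change. -/
theorem bc (hWTA : SpecWTA.{v}) (hFDA : SpecFDA.{v}) (hBAL : SpecBAL.{v}) (hCOV : SpecCOV.{v})
    (hTDG : SpecTDG.{v}) [CharZero K] [Module.Finite K V] (L : O' →+* Module.End K V) (n B : ℕ)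
    (ν : Matrix (Fin n) (Fin n) O') (J : Finset (Fin n)) (u : Fin n → Fin n → O')
    (hu : ∀ j ∈ J, ∀ j' ∈ J, u j j' = if j' = j then 1 else 0) (hν : ν ^ B = 0)
    (W : Submodule K (Fin n → V)) (hW : ∀ z, z ∈ W ↔ ∀ i, z i = ∑ j ∈ J, L (u j i) (z j)) :
    deg B (wt (TT L ν)) W = finrank K V * deg B (wt (mop O'ᵐᵒᵖ ν)) (XX J u) := by
  have hbal := isBal hBAL L n
  have hfin : Module.Finite O'ᵐᵒᵖ (Fin n → O') := Module.Finite.of_basis (bs O' n)
  have hTB : TT L ν ^ B = 0 := by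
    rw [TT_pow, hν]
    exact LinearMap.ext fun z => TT_zero L z
  have hnB : (mop O'ᵐᵒᵖ ν : Module.End O'ᵐᵒᵖ (Fin n → O')) ^ B = 0 := by
    rw [mop_pow', hν]
    refine LinearMap.ext fun z => funext fun i => ?_
    simp [mop_apply]
  have htns : tns (beta L n) (XX J u) (⊤ : Submodule K V) = W := by
    apply le_antisymm
    · unfold tns
      rw [Submodule.span_le]
      rintro _ ⟨x, hx, y, -, rfl⟩
      rw [SetLike.mem_coe, hW]
      intro i
      rw [beta_apply, hx i, map_sum, LinearMap.sum_apply]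
      refine Finset.sum_congr rfl fun j _ => ?_
      rw [map_mul]
      rfl
    · intro z hz
      have h1 : z = ∑ j ∈ J, beta L n (u j) (z j) := by
        funext i
        rw [Finset.sum_apply, (hW z).1 hz i]
        rfl
      rw [h1]
      refine Submodule.sum_mem _ fun j hj => Submodule.subset_span ⟨u j, ?_, z j, trivial, rfl⟩
      intro i
      rw [Finset.sum_eq_single j]
      · rw [hu j hj j hj, if_pos rfl, mul_one]
      · intro j' hj' hne
        rw [hu j hj j' hj', if_neg hne, mul_zero]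
      · intro h
        exact absurd hj h
  have hβ : ∀ (x : Fin n → O') (y : V), TT L ν (beta L n x y) =
      beta L n ((mop O'ᵐᵒᵖ ν : Module.End O'ᵐᵒᵖ (Fin n → O')) x) y := by
    intro x y
    funext i
    rw [TT_apply, beta_apply, mop_apply, map_sum, LinearMap.sum_apply]
    refine Finset.sum_congr rfl fun j _ => ?_
    rw [smul_eq_mul, map_mul]
    rfl
  have h2 := bcA hWTA hFDA hCOV hTDG L (beta L n) hbal (mop O'ᵐᵒᵖ ν) (TT L ν) B hβ hnB hTB (XX J u)
  rw [htns] at h2
  exact h2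

end bc

section cc

variable {Z Q : Type v} [Field Z] [DivisionRing Q] [Algebra Z Q] [Module.Finite Z Q]

theorem fr_restrict {n : ℕ} (X : Submodule Qᵐᵒᵖ (Fin n → Q)) :
    finrank Z (X.restrictScalars Z) = finrank Z Q * finrank Qᵐᵒᵖ X := by
  have h1 : finrank Z (X.restrictScalars Z) = finrank Z X := rfl
  have h2 : finrank Z Q = finrank Z Qᵐᵒᵖ := LinearEquiv.finrank_eq (MulOpposite.opLinearEquiv Z)
  rw [h1, h2]
  exact (Module.finrank_mul_finrank Z Qᵐᵒᵖ X).symm

omit [Module.Finite Z Q] in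
theorem wt_restrict {n : ℕ} (P : Matrix (Fin n) (Fin n) Q) (a : ℤ) :
    wt (mop Z P : Module.End Z (Fin n → Q)) a =
      (wt (mop Qᵐᵒᵖ P : Module.End Qᵐᵒᵖ (Fin n → Q)) a).restrictScalars Z := by
  ext x
  rw [Submodule.restrictScalars_mem]
  constructor
  · intro hx
    exact wt_map (mop Z P : Module.End Z (Fin n → Q)) (mop Qᵐᵒᵖ P : Module.End Qᵐᵒᵖ (Fin n → Q))
      (AddMonoidHom.id _) (fun _ => rfl) hx
  · intro hx
    exact wt_map (mop Qᵐᵒᵖ P : Module.End Qᵐᵒᵖ (Fin n → Q)) (mop Z P : Module.End Z (Fin n → Q))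
      (AddMonoidHom.id _) (fun _ => rfl) hx

theorem deg_restrict {n : ℕ} (B : ℕ) (P : Matrix (Fin n) (Fin n) Q)
    (X : Submodule Qᵐᵒᵖ (Fin n → Q)) :
    deg B (wt (mop Z P : Module.End Z (Fin n → Q))) (X.restrictScalars Z) =
      finrank Z Q * deg B (wt (mop Qᵐᵒᵖ P : Module.End Qᵐᵒᵖ (Fin n → Q))) X := by
  unfold deg
  have h1 : ∀ a, finrank Z ↥(X.restrictScalars Z ⊓ wt (mop Z P : Module.End Z (Fin n → Q)) a) =
      finrank Z Q * finrank Qᵐᵒᵖ ↥(X ⊓ wt (mop Qᵐᵒᵖ P : Module.End Qᵐᵒᵖ (Fin n → Q)) a) := by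
    intro a
    rw [← fr_restrict, wt_restrict]
    rfl
  simp only [h1]
  rw [fr_restrict]
  push_cast
  rw [← Finset.mul_sum]
  ring

end cc

end RBCM

open RBCM in
theorem specRBC (hWTA : SpecWTA.{v}) (hFDA : SpecFDA.{v}) (hBAL : SpecBAL.{v}) (hCOV : SpecCOV.{v})
    (hTDG : SpecTDG.{v}) : SpecRBC.{v} := by
  intro Z Q K M _ _ _ _ _ _ _ _ _ _ _ O ℓ n B ν J u hu hν X1 W hX1 hW
  let _ : DivisionRing O := divisionRingOfFiniteDimensional Z O
  -- (a)
  have ha := bc hWTA hFDA hBAL hCOV hTDG (O' := O) (K := K) (V := M)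
    ((Algebra.lmul K M).toRingHom.comp ℓ) n B ν J u hu hν W hW
  have ha1 := dimW (O' := O) (K := K) (V := M)
    ((Algebra.lmul K M).toRingHom.comp ℓ) J u hu W hW
  have haT : TT (O' := O) ((Algebra.lmul K M).toRingHom.comp ℓ) ν = mop K (ν.map ℓ) := by
    refine LinearMap.ext fun z => funext fun i => ?_
    rw [TT_apply]
    rfl
  rw [haT] at ha
  -- (b)
  have hb := bc hWTA hFDA hBAL hCOV hTDG (O' := O) (K := Z) (V := Q)
    ((Algebra.lmul Z Q).toRingHom.comp O.val.toRingHom) n B ν J u hu hν (X1.restrictScalars Z) hX1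
  have hbT : TT (O' := O) ((Algebra.lmul Z Q).toRingHom.comp O.val.toRingHom) ν =
      mop Z (ν.map (fun o : O => (o : Q))) := by
    refine LinearMap.ext fun z => funext fun i => ?_
    rw [TT_apply]
    rfl
  rw [hbT, deg_restrict] at hb
  refine ⟨ha1, ?_⟩
  rw [ha]
  congr 1
  have hZQ : (finrank Z Q : ℤ) ≠ 0 := by
    have : 0 < finrank Z Q := finrank_pos
    exact_mod_cast this.ne'
  exact (mul_left_cancel₀ hZQ hb).symm

end Pool.Agent.Lib.MP_c37a72_al.NI
end
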