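import Pool.Agent.Lib.MP_c37a72_al.PU.Spec
import Pool.Agent.Lib.MP_c37a72_al.NI.SpecN
import Pool.Agent.Lib.MP_c37a72_al.PUR

section
/-!
# MP_c37a72_al, block PU, module ALF: descent of points, uniqueness of lifts
-/
set_option autoImplicit false

open scoped TensorProduct
open Coalgebra HopfAlgebra Module
open Pool.Agent.Lib.MP_c37a72_al.LB

namespace Pool.Agent.Lib.MP_c37a72_al.PU

universe u v w

namespace ALFM

/-- `mu` and a homomorphism of the target. -/
theorem mu_comp {k : Type u} {A B : Type*} {F Ω : Type*} [Field k] [Ring A] [Algebra k A] [Ring B]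
    [Algebra k B] [Ring F] [Algebra k F] [Ring Ω] [Algebra k Ω] (xt : F →ₐ[k] Ω)
    (f : A →ₐ[k] F) (g : B →ₐ[k] F) (z : A →ₐ[k] Ω) (x : B →ₐ[k] Ω)
    (hz : ∀ a, z a = xt (f a)) (hx : ∀ b, x b = xt (g b)) (t : A ⊗[k] B) :
    mu k z x t = xt (mu k f g t) := by
  have : mu k z x = xt.toLinearMap ∘ₗ mu k f g := by
    apply TensorProduct.ext'
    intro a b
    simp [hz, hx]
  rw [this]
  rfl

/-- A root in `Ω` of a nonzero polynomial over an algebraically closed field `F ⊆ Ω` is in `F`. -/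
theorem mem_range {F Ω : Type*} [Field F] [IsAlgClosed F] [Field Ω] (xt : F →+* Ω) (y : Ω)
    (p : Polynomial F) (hp : p ≠ 0) (h : p.eval₂ xt y = 0) : ∃ b, xt b = y := by
  refine (IsAlgClosed.splits p).mem_range_of_isRoot hp (i := xt) (x := y) ?_
  rw [Polynomial.IsRoot, Polynomial.eval_map]
  exact h

/-- factoring a point through `φ` -/
theorem descend {k : Type u} {Z Ω₁ Ω : Type*} [Field k] [Field Z] [Algebra k Z] [Field Ω₁]
    [Algebra k Ω₁] [Field Ω] [Algebra k Ω] (φ : Ω₁ →ₐ[k] Ω) (w : Z →ₐ[k] Ω)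
    (h : ∀ z, ∃ b, φ b = w z) : ∃ w₁ : Z →ₐ[k] Ω₁, ∀ a, w a = φ (w₁ a) := by
  refine ⟨(AlgEquiv.ofInjective φ φ.injective).symm.toAlgHom.comp
    (w.codRestrict φ.range fun z => ?_), fun a => ?_⟩
  · obtain ⟨b, hb⟩ := h z
    exact ⟨b, hb⟩
  · have h1 := (AlgEquiv.ofInjective φ φ.injective).apply_symm_apply
      (w.codRestrict φ.range (fun z => by obtain ⟨b, hb⟩ := h z; exact ⟨b, hb⟩) a)
    have h2 := congrArg (fun t : φ.range => (t : Ω)) h1
    exact h2.symm

theorem part1 (k : Type u) (Z F Ω₁ Ω : Type v) [Field k] [Field Z] [Algebra k Z] [Field F] [Algebra k F]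
    [Algebra Z F] [IsScalarTower k Z F] [Algebra.IsAlgebraic Z F] [Field Ω₁] [IsAlgClosed Ω₁]
    [Algebra k Ω₁] [Field Ω] [Algebra k Ω] (φ : Ω₁ →ₐ[k] Ω) (x₁ : Z →ₐ[k] Ω₁) (xt : F →ₐ[k] Ω)
    (hx : ∀ a, xt (algebraMap Z F a) = φ (x₁ a)) :
      ∃ xt₁ : F →ₐ[k] Ω₁, (∀ a, xt₁ (algebraMap Z F a) = x₁ a) ∧ ∀ a, xt a = φ (xt₁ a) := by
  have h : ∀ a, ∃ b, φ b = xt a := by
    intro a
    obtain ⟨p, hp, he⟩ := Algebra.IsAlgebraic.isAlgebraic (R := Z) a
    have hp1 : p.map x₁.toRingHom ≠ 0 := (Polynomial.map_ne_zero_iff x₁.toRingHom.injective).2 hp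
    refine mem_range φ.toRingHom (xt a) (p.map x₁.toRingHom) hp1 ?_
    rw [Polynomial.eval₂_map]
    have h1 : φ.toRingHom.comp x₁.toRingHom = xt.toRingHom.comp (algebraMap Z F) := by
      ext z
      exact (hx z).symm
    rw [h1]
    have h2 := congrArg xt.toRingHom he
    rw [map_zero, Polynomial.aeval_def, Polynomial.hom_eval₂] at h2
    exact h2
  obtain ⟨xt₁, h1⟩ := descend φ xt h
  refine ⟨xt₁, fun a => ?_, h1⟩
  apply φ.injective
  show φ _ = φ _
  rw [← h1, hx]

theorem part2 (k : Type u) (Z Q F2 R2 Ω₁ Ω : Type v) [Field k] [Field Z] [Algebra k Z] [DivisionRing Q]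
    [Algebra k Q] [Algebra Z Q] [IsScalarTower k Z Q] [Field F2] [Algebra k F2] [Ring R2]
    [Algebra k R2] [Algebra F2 R2] [IsScalarTower k F2 R2] [Module.Finite F2 R2]
    (D : Q →ₐ[k] R2) (K : Subalgebra F2 R2) [Field Ω₁] [IsAlgClosed Ω₁]
    [Algebra k Ω₁] [Field Ω] [Algebra k Ω] (φ : Ω₁ →ₐ[k] Ω) (kap₁ : K →ₐ[k] Ω₁)
    (w : Z →ₐ[k] Ω) (hS : Star D K (φ.comp kap₁) w) :
      ∃ w₁ : Z →ₐ[k] Ω₁, Star D K kap₁ w₁ ∧ ∀ a, w a = φ (w₁ a) := by
  have h : ∀ z, ∃ b, φ b = w z := by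
    intro z
    obtain ⟨p, hp, he⟩ := IsIntegral.of_finite F2 (DZ D Z z)
    let c : F2 →+* Ω₁ := kap₁.toRingHom.comp (algebraMap F2 K)
    have hp1 : p.map c ≠ 0 := (hp.map c).ne_zero
    refine mem_range φ.toRingHom (w z) (p.map c) hp1 ?_
    rw [Polynomial.eval₂_map]
    let t : K ⊗[k] Z := ∑ i ∈ Finset.range (p.natDegree + 1), (algebraMap F2 K (p.coeff i)) ⊗ₜ[k] (z ^ i)
    have ht : mu k (K.val.restrictScalars k) (DZ D Z) t = 0 := by
      rw [Polynomial.eval₂_eq_sum_range] at he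
      rw [map_sum, ← he]
      refine Finset.sum_congr rfl fun i _ => ?_
      rw [mu_tmul, map_pow]
      rfl
    have h2 := hS t ht
    rw [map_sum] at h2
    rw [Polynomial.eval₂_eq_sum_range, ← h2]
    refine Finset.sum_congr rfl fun i _ => ?_
    rw [mu_tmul, map_pow]
    rfl
  obtain ⟨w₁, h1⟩ := descend φ w h
  refine ⟨w₁, fun t ht => ?_, h1⟩
  have h2 := hS t ht
  rw [mu_comp φ kap₁ w₁ (φ.comp kap₁) w (fun _ => rfl) h1 t] at h2
  exact φ.injective (h2.trans (map_zero φ).symm)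

theorem part3 (k : Type u) (Z F Ω : Type v) [Field k] [Field Z] [Algebra k Z] [Field F] [IsAlgClosed F]
    [Algebra k F] [Algebra Z F] [IsScalarTower k Z F] [Algebra.IsAlgebraic Z F] [Field Ω]
    [Algebra k Ω] (w : Z →ₐ[k] Ω) (wt wt' : F →ₐ[k] Ω) (hw : ∀ a, wt (algebraMap Z F a) = w a)
    (hw' : ∀ a, wt' (algebraMap Z F a) = w a) : ∃ σ ∈ gZ k Z F, ∀ a, wt' a = wt (σ a) := by
  obtain ⟨s, hs1, hs2⟩ := part1 k Z F F Ω wt (IsScalarTower.toAlgHom k Z F) wt' (fun a => by
    rw [hw' a, ← hw a]; rfl)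
  let s' : F →ₐ[Z] F := { s.toRingHom with commutes' := fun a => hs1 a }
  have hb : Function.Bijective s := Algebra.IsAlgebraic.algHom_bijective s'
  refine ⟨AlgEquiv.ofBijective s hb, fun z => hs1 z, fun a => hs2 a⟩

theorem part4 (k : Type u) (Z F Ω : Type v) [Field k] [Field Z] [Algebra k Z] [Field F]
    [Algebra k F] [Algebra Z F] [IsScalarTower k Z F] [Algebra.IsAlgebraic Z F] [Field Ω]
    [IsAlgClosed Ω] [Algebra k Ω] (w : Z →ₐ[k] Ω) :
    ∃ wt : F →ₐ[k] Ω, ∀ a, wt (algebraMap Z F a) = w a := by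
  let _ : Algebra Z Ω := w.toRingHom.toAlgebra
  have : IsScalarTower k Z Ω := IsScalarTower.of_algebraMap_eq fun x => (w.commutes x).symm
  let f : F →ₐ[Z] Ω := IsAlgClosed.lift
  exact ⟨f.restrictScalars k, fun a => f.commutes a⟩

end ALFM

open ALFM in
/-- **ALF**. -/
theorem specALF : SpecALF.{u, v} :=
  ⟨fun k Z F Ω₁ Ω _ _ _ _ _ _ _ _ _ _ _ _ _ φ x₁ xt h => part1 k Z F Ω₁ Ω φ x₁ xt h,
    fun k Z Q F2 R2 Ω₁ Ω _ _ _ _ _ _ _ _ _ _ _ _ _ _ D K _ _ _ _ _ φ kap₁ w h =>
      part2 k Z Q F2 R2 Ω₁ Ω D K φ kap₁ w h,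
    fun k Z F Ω _ _ _ _ _ _ _ _ _ _ _ w wt wt' h h' => part3 k Z F Ω w wt wt' h h',
    fun k Z F Ω _ _ _ _ _ _ _ _ _ _ _ w => part4 k Z F Ω w⟩

end Pool.Agent.Lib.MP_c37a72_al.PU
end

section
set_option autoImplicit false

open scoped TensorProduct
open Coalgebra HopfAlgebra Module
open Pool.Agent.Lib.MP_c37a72_al.LB

namespace Pool.Agent.Lib.MP_c37a72_al.PU

universe u v

/-- **EID**: the idempotent of the top points. -/
theorem specEID (hSTM : LB.SpecSTM.{u, v}) (hIDR : SpecIDR.{u, v}) (hINV : SpecINV.{u, v}) :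
    SpecEID.{u, v} := by
  intro k Z Q F2 R2 F _ _ _ _ _ _ _ _ _ _ _ _ _ _ _ _ _ _ _ _ D M K hMK G lam htop
  have hcom : ∀ c c' : K, (c : R2) * (c' : R2) = (c' : R2) * (c : R2) := fun c c' =>
    hMK.comm c c.2 c' (hMK.le c'.2)
  obtain ⟨te, hte, hval⟩ := hIDR k F2 R2 K Z (K.val.restrictScalars k) (DZ D Z)
    (fun a a' => hcom a a')
    (fun b b' => by rw [← map_mul, mul_comm, map_mul])
    (fun a b => hMK.comm a a.2 _ (hMK.D_mem _))
    (fun x => ⟨(algebraMap F2 K x) ⊗ₜ[k] (1 : Z), by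
      rw [mu_tmul, map_one, mul_one]
      rfl⟩)
    (fun Ω _ _ kap w => IsTop G lam D K kap w)
    (fun Ω₁ Ω _ _ _ _ _ _ φ f g _ =>
      ((hINV k Z Q F2 R2 F D K ∅ G lam 0 Ω₁ Ω φ).2 f g).1)
  refine ⟨te, ?_, hte, ?_⟩
  · intro h0
    obtain ⟨-, -, -, hS4⟩ := hSTM k Z Q F2 R2 D M K hMK (AlgebraicClosure F2)
    obtain ⟨kap, -⟩ := hS4 (IsScalarTower.toAlgHom k F2 (AlgebraicClosure F2))
    obtain ⟨w, hw⟩ := htop (AlgebraicClosure F2) kap
    have h1 := (hval (AlgebraicClosure F2) kap w hw.1).1 hw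
    have h2 := hw.1 te h0
    rw [h1] at h2
    exact one_ne_zero h2
  · intro Ω _ _ _ kap w hS
    exact hval Ω kap w hS

end Pool.Agent.Lib.MP_c37a72_al.PU
end

section
/-!
# MP_c37a72_al, block PU, module IDM: idempotents with prescribed values at the points
-/
set_option autoImplicit false

namespace Pool.Agent.Lib.MP_c37a72_al.PU

universe u v w

theorem specIDM : SpecIDM.{u, v} := by
  intro k F P _ _ _ _ _ _ S hS
  have hart : IsArtinianRing P := IsArtinianRing.of_finite F P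
  let Ωm : PrimeSpectrum P → Type v := fun m => AlgebraicClosure (FractionRing (P ⧸ m.asIdeal))
  let ψm : ∀ m : PrimeSpectrum P, P →ₐ[k] Ωm m := fun m =>
    (IsScalarTower.toAlgHom k (P ⧸ m.asIdeal) (Ωm m)).comp (Ideal.Quotient.mkₐ k m.asIdeal)
  let 𝒮 : Set (PrimeSpectrum P) := {m | S (Ωm m) (ψm m)}
  obtain ⟨e, he, he2⟩ := PrimeSpectrum.exists_idempotent_basicOpen_eq_of_isClopen
    (isClopen_discrete 𝒮)
  refine ⟨e, he, ?_⟩
  intro Ω _ _ _ ψ
  have hker : (RingHom.ker ψ.toRingHom).IsPrime := RingHom.ker_isPrime _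
  let m : PrimeSpectrum P := ⟨RingHom.ker ψ.toRingHom, hker⟩
  -- `ψ` factors through `ψm m`
  obtain ⟨φ, hφ⟩ : ∃ φ : Ωm m →ₐ[k] Ω, ψ = φ.comp (ψm m) := by
    let ψ1 : (P ⧸ m.asIdeal) →ₐ[k] Ω := Ideal.Quotient.liftₐ m.asIdeal ψ (fun a ha => ha)
    have hψ1 : Function.Injective ψ1 := by
      rw [injective_iff_map_eq_zero]
      intro a
      obtain ⟨b, rfl⟩ := Ideal.Quotient.mk_surjective a
      intro hb
      rw [Ideal.Quotient.eq_zero_iff_mem]
      exact hb
    let _ : Algebra (P ⧸ m.asIdeal) Ω := ψ1.toRingHom.toAlgebra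
    have : IsScalarTower k (P ⧸ m.asIdeal) Ω := IsScalarTower.of_algebraMap_eq fun x =>
      (ψ1.commutes x).symm
    have : Module.IsTorsionFree (P ⧸ m.asIdeal) Ω :=
      Module.isTorsionFree_iff_algebraMap_injective.2 hψ1
    have : Module.IsTorsionFree (P ⧸ m.asIdeal) (Ωm m) := by
      rw [Module.isTorsionFree_iff_algebraMap_injective,
        IsScalarTower.algebraMap_eq _ (FractionRing (P ⧸ m.asIdeal))]
      exact (algebraMap (FractionRing (P ⧸ m.asIdeal)) (Ωm m)).injective.comp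
        (IsFractionRing.injective _ _)
    have : Algebra.IsAlgebraic (P ⧸ m.asIdeal) (Ωm m) := by
      have h1 : Algebra.IsAlgebraic (FractionRing (P ⧸ m.asIdeal)) (Ωm m) :=
        AlgebraicClosure.isAlgebraic _
      exact (IsFractionRing.comap_isAlgebraic_iff (A := P ⧸ m.asIdeal)
        (K := FractionRing (P ⧸ m.asIdeal))).2 h1
    let φ : Ωm m →ₐ[P ⧸ m.asIdeal] Ω := IsAlgClosed.lift
    refine ⟨φ.restrictScalars k, ?_⟩
    apply AlgHom.ext
    intro a
    show ψ a = φ (algebraMap (P ⧸ m.asIdeal) (Ωm m) (Ideal.Quotient.mk m.asIdeal a))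
    rw [φ.commutes]
    rfl
  have h1 : S Ω ψ ↔ m ∈ 𝒮 := by
    rw [hφ]
    exact (hS (Ωm m) Ω φ (ψm m)).symm
  rw [he2] at h1
  have h2 : (ψ e = 0 ∨ ψ e = 1) := by
    have : ψ e * ψ e = ψ e := by rw [← map_mul, he.eq]
    by_cases h0 : ψ e = 0
    · exact Or.inl h0
    · exact Or.inr (mul_left_cancel₀ h0 (by rw [this, mul_one]))
  have h3 : m ∈ (PrimeSpectrum.basicOpen e : Set (PrimeSpectrum P)) ↔ ψ e ≠ 0 := by
    rw [PrimeSpectrum.basicOpen_eq_zeroLocus_compl]
    simp only [Set.mem_compl_iff, PrimeSpectrum.mem_zeroLocus, Set.singleton_subset_iff]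
    exact Iff.rfl
  constructor
  · intro h
    rcases h2 with h2 | h2
    · exact absurd h2 (h3.1 (h1.1 h))
    · exact h2
  · intro h
    rcases h2 with h2 | h2
    · exact h2
    · exact absurd (h1.2 (h3.2 (by rw [h2]; exact one_ne_zero))) h

end Pool.Agent.Lib.MP_c37a72_al.PU
end

section
/-!
# MP_c37a72_al, block PU, module IDR: idempotents of the commutative algebra generated by the images
of two homomorphisms, with prescribed values at the points
-/
set_option autoImplicit false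

open scoped TensorProduct
open Pool.Agent.Lib.MP_c37a72_al.LB

namespace Pool.Agent.Lib.MP_c37a72_al.PU

universe u v w

namespace IDRM

section

variable {k : Type*} {A B R S : Type*} [Field k] [Ring A] [Algebra k A] [Ring B] [Algebra k B]
  [Ring R] [Algebra k R] [Ring S] [Algebra k S]

theorem mu_mul (p : A →ₐ[k] R) (q : B →ₐ[k] R) (h : ∀ a b, p a * q b = q b * p a)
    (s t : A ⊗[k] B) : mu k p q (s * t) = mu k p q s * mu k p q t := by
  induction s using TensorProduct.induction_on with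
  | zero => rw [zero_mul, map_zero, zero_mul]
  | add x y hx hy => rw [add_mul, map_add, map_add, hx, hy, add_mul]
  | tmul a b =>
    induction t using TensorProduct.induction_on with
    | zero => rw [mul_zero, map_zero, mul_zero]
    | add x y hx hy => rw [mul_add, map_add, map_add, hx, hy, mul_add]
    | tmul a' b' =>
      rw [Algebra.TensorProduct.tmul_mul_tmul, mu_tmul, mu_tmul, mu_tmul, map_mul, map_mul,
        mul_assoc (p a), ← mul_assoc (p a') (q b), h a' b, mul_assoc (q b), ← mul_assoc (p a)]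

theorem mu_one (p : A →ₐ[k] R) (q : B →ₐ[k] R) : mu k p q (1 : A ⊗[k] B) = 1 := by
  rw [Algebra.TensorProduct.one_def, mu_tmul, map_one, map_one, mul_one]

theorem mu_alg (p : A →ₐ[k] R) (q : B →ₐ[k] R) (r : k) :
    mu k p q (algebraMap k A r ⊗ₜ (1 : B)) = algebraMap k R r := by
  rw [mu_tmul, map_one, mul_one, AlgHom.commutes]

theorem mu_comp (φ : R →ₐ[k] S) (p : A →ₐ[k] R) (q : B →ₐ[k] R) (t : A ⊗[k] B) :
    mu k (φ.comp p) (φ.comp q) t = φ (mu k p q t) := by
  induction t using TensorProduct.induction_on with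
  | zero => rw [map_zero, map_zero, map_zero]
  | add x y hx hy => rw [map_add, map_add, map_add, hx, hy]
  | tmul a b => rw [mu_tmul, mu_tmul, map_mul]; rfl

end

section

variable {k : Type*} {A B P Ω : Type*} [Field k] [Ring A] [Algebra k A] [Ring B] [Algebra k B]
  [CommRing P] [Algebra k P] [Field Ω] [Algebra k Ω]

/-- a pair of homomorphisms with `Kill` is a point of the algebra generated by the images. -/
theorem point (p : A →ₐ[k] P) (q : B →ₐ[k] P) (hs : ∀ x : P, ∃ t : A ⊗[k] B, mu k p q t = x)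
    (f : A →ₐ[k] Ω) (g : B →ₐ[k] Ω) (hk : Kill k p q f g) :
    ∃ ψ : P →ₐ[k] Ω, ψ.comp p = f ∧ ψ.comp q = g := by
  choose s hs using hs
  have key : ∀ t, mu k f g (s (mu k p q t)) = mu k f g t := by
    intro t
    have h := hk (s (mu k p q t) - t) (by rw [map_sub, hs, sub_self])
    rwa [map_sub, sub_eq_zero] at h
  have hc : ∀ a b, p a * q b = q b * p a := fun a b => mul_comm _ _
  have hc' : ∀ a b, f a * g b = g b * f a := fun a b => mul_comm _ _
  let ψ : P →ₐ[k] Ω :=
    { toFun := fun x => mu k f g (s x)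
      map_one' := by
        have h := key 1
        rwa [mu_one, mu_one] at h
      map_mul' := by
        intro x y
        have h := key (s x * s y)
        rwa [mu_mul p q hc, mu_mul f g hc', hs, hs] at h
      map_zero' := by
        have h := key 0
        rwa [map_zero, map_zero] at h
      map_add' := by
        intro x y
        have h := key (s x + s y)
        rwa [map_add, map_add, hs, hs] at h
      commutes' := by
        intro r
        have h := key (algebraMap k A r ⊗ₜ (1 : B))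
        rwa [mu_alg, mu_alg] at h }
  have hψ : ∀ x, ψ x = mu k f g (s x) := fun x => rfl
  refine ⟨ψ, ?_, ?_⟩
  · apply AlgHom.ext
    intro a
    have h := key (a ⊗ₜ 1)
    rw [mu_tmul, mu_tmul, map_one, map_one, mul_one, mul_one] at h
    exact h
  · apply AlgHom.ext
    intro b
    have h := key (1 ⊗ₜ b)
    rw [mu_tmul, mu_tmul, map_one, map_one, one_mul, one_mul] at h
    exact h

end

/-- the statement for a commutative algebra `P` with an injection into `R`. -/
theorem aux (hIDM : SpecIDM.{u, v}) (k : Type u) (F R A B P : Type v) [Field k] [Field F]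
    [Ring R] [Algebra k R] [Ring A] [Algebra k A]
    [Ring B] [Algebra k B] [CommRing P] [Algebra k P] [Algebra F P]
    [Module.Finite F P] (p : A →ₐ[k] R) (q : B →ₐ[k] R) (p' : A →ₐ[k] P) (q' : B →ₐ[k] P)
    (i : P →ₐ[k] R) (hi : Function.Injective i) (hp : ∀ a, i (p' a) = p a)
    (hq : ∀ b, i (q' b) = q b) (hs : ∀ x : P, ∃ t : A ⊗[k] B, mu k p' q' t = x)
    (S : ∀ (Ω : Type v) [Field Ω] [Algebra k Ω], (A →ₐ[k] Ω) → (B →ₐ[k] Ω) → Prop)
    (hS : ∀ (Ω₁ Ω : Type v) [Field Ω₁] [IsAlgClosed Ω₁] [Algebra k Ω₁] [Field Ω] [IsAlgClosed Ω]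
      [Algebra k Ω] (φ : Ω₁ →ₐ[k] Ω) (f : A →ₐ[k] Ω₁) (g : B →ₐ[k] Ω₁), Kill k p q f g →
      (S Ω₁ f g ↔ S Ω (φ.comp f) (φ.comp g))) :
    ∃ t : A ⊗[k] B, mu k p q t * mu k p q t = mu k p q t ∧
      ∀ (Ω : Type v) [Field Ω] [IsAlgClosed Ω] [Algebra k Ω] (f : A →ₐ[k] Ω) (g : B →ₐ[k] Ω),
        Kill k p q f g → (S Ω f g → mu k f g t = 1) ∧ (¬ S Ω f g → mu k f g t = 0) := by
  have hp1 : p = i.comp p' := AlgHom.ext fun a => (hp a).symm
  have hq1 : q = i.comp q' := AlgHom.ext fun b => (hq b).symm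
  -- `Kill` for `p, q` and for `p', q'`
  have hmu : ∀ t, mu k p q t = i (mu k p' q' t) := by
    intro t
    rw [hp1, hq1, mu_comp]
  have hkill : ∀ (Ω : Type v) [Field Ω] [Algebra k Ω] (f : A →ₐ[k] Ω) (g : B →ₐ[k] Ω),
      Kill k p q f g ↔ Kill k p' q' f g := by
    intro Ω _ _ f g
    constructor
    · intro h t ht
      exact h t (by rw [hmu, ht, map_zero])
    · intro h t ht
      exact h t (hi (by rw [← hmu, ht, map_zero]))
  have hkψ : ∀ (Ω : Type v) [Field Ω] [Algebra k Ω] (ψ : P →ₐ[k] Ω),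
      Kill k p q (ψ.comp p') (ψ.comp q') := by
    intro Ω _ _ ψ
    rw [hkill]
    intro t ht
    rw [mu_comp, ht, map_zero]
  obtain ⟨e, he, he2⟩ := hIDM k F P (fun Ω _ _ ψ => S Ω (ψ.comp p') (ψ.comp q'))
    (by
      intro Ω₁ Ω _ _ _ _ _ _ φ ψ
      rw [hS Ω₁ Ω φ _ _ (hkψ Ω₁ ψ), AlgHom.comp_assoc, AlgHom.comp_assoc])
  obtain ⟨t, ht⟩ := hs e
  refine ⟨t, ?_, ?_⟩
  · rw [hmu, ht, ← map_mul, he]
  · intro Ω _ _ _ f g hk
    obtain ⟨ψ, rfl, rfl⟩ := point p' q' hs f g ((hkill Ω f g).1 hk)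
    rw [mu_comp, ht]
    exact he2 Ω ψ

end IDRM

open IDRM in
theorem specIDR (hIDM : SpecIDM.{u, v}) : SpecIDR.{u, v} := by
  intro k F R A B _ _ _ _ _ _ _ _ _ _ _ _ p q hpp hqq hpq hF S hS
  let P : Subalgebra F R :=
    { carrier := {r | ∃ t : A ⊗[k] B, mu k p q t = r}
      mul_mem' := by
        rintro _ _ ⟨s, rfl⟩ ⟨t, rfl⟩
        exact ⟨s * t, mu_mul p q hpq s t⟩
      add_mem' := by
        rintro _ _ ⟨s, rfl⟩ ⟨t, rfl⟩
        exact ⟨s + t, map_add _ _ _⟩
      algebraMap_mem' := hF }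
  have hcomm : ∀ x y : P, x * y = y * x := by
    rintro ⟨_, s, rfl⟩ ⟨_, t, rfl⟩
    apply Subtype.ext
    show mu k p q s * mu k p q t = mu k p q t * mu k p q s
    induction s using TensorProduct.induction_on with
    | zero => rw [map_zero, zero_mul, mul_zero]
    | add x y hx hy => rw [map_add, add_mul, mul_add, hx, hy]
    | tmul a b =>
      induction t using TensorProduct.induction_on with
      | zero => rw [map_zero, zero_mul, mul_zero]
      | add x y hx hy => rw [map_add, add_mul, mul_add, hx, hy]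
      | tmul a' b' =>
        rw [← mu_mul p q hpq, ← mu_mul p q hpq, Algebra.TensorProduct.tmul_mul_tmul,
          Algebra.TensorProduct.tmul_mul_tmul, mu_tmul, mu_tmul, map_mul, map_mul, map_mul,
          map_mul, hpp a a', hqq b b']
  let _ : CommRing P := { (inferInstance : Ring P) with mul_comm := hcomm }
  have hfin : Module.Finite F P :=
    Module.Finite.of_injective (P.val.toLinearMap) Subtype.val_injective
  let p' : A →ₐ[k] P :=
    { toFun := fun a => ⟨p a, a ⊗ₜ 1, by rw [mu_tmul, map_one, mul_one]⟩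
      map_one' := Subtype.ext (map_one p)
      map_mul' := fun a b => Subtype.ext (map_mul p a b)
      map_zero' := Subtype.ext (map_zero p)
      map_add' := fun a b => Subtype.ext (map_add p a b)
      commutes' := fun r => Subtype.ext (p.commutes r) }
  let q' : B →ₐ[k] P :=
    { toFun := fun b => ⟨q b, 1 ⊗ₜ b, by rw [mu_tmul, map_one, one_mul]⟩
      map_one' := Subtype.ext (map_one q)
      map_mul' := fun a b => Subtype.ext (map_mul q a b)
      map_zero' := Subtype.ext (map_zero q)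
      map_add' := fun a b => Subtype.ext (map_add q a b)
      commutes' := fun r => Subtype.ext (q.commutes r) }
  let i : P →ₐ[k] R := P.val.restrictScalars k
  have hmu : ∀ t, i (mu k p' q' t) = mu k p q t := by
    intro t
    rw [← mu_comp]
    rfl
  refine aux hIDM k F R A B P p q p' q' i Subtype.val_injective (fun a => rfl) (fun b => rfl)
    ?_ S hS
  rintro ⟨_, t, rfl⟩
  exact ⟨t, Subtype.ext (hmu t)⟩

end Pool.Agent.Lib.MP_c37a72_al.PU
end

section
/-!
# MP_c37a72_al, block PU, module INV: invariance under extension of the algebraically closed field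
-/
set_option autoImplicit false

open scoped TensorProduct
open Coalgebra HopfAlgebra Module
open Pool.Agent.Lib.MP_c37a72_al.LB

namespace Pool.Agent.Lib.MP_c37a72_al.PU

universe u v w

namespace INVM

/-- `mu` and a homomorphism of the target. -/
theorem mu_comp {k : Type u} {A B : Type*} {F Ω : Type*} [Field k] [Ring A] [Algebra k A] [Ring B]
    [Algebra k B] [Ring F] [Algebra k F] [Ring Ω] [Algebra k Ω] (xt : F →ₐ[k] Ω)
    (f : A →ₐ[k] F) (g : B →ₐ[k] F) (z : A →ₐ[k] Ω) (x : B →ₐ[k] Ω)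
    (hz : ∀ a, z a = xt (f a)) (hx : ∀ b, x b = xt (g b)) (t : A ⊗[k] B) :
    mu k z x t = xt (mu k f g t) := by
  have : mu k z x = xt.toLinearMap ∘ₗ mu k f g := by
    apply TensorProduct.ext'
    intro a b
    simp [hz, hx]
  rw [this]
  rfl

theorem via {k : Type u} {Z F Ω₁ Ω : Type v} [Field k] [Field Z] [Algebra k Z] [Field F] [Algebra k F]
    [Algebra Z F] [IsScalarTower k Z F] [Algebra.IsAlgebraic Z F] [Field Ω₁] [IsAlgClosed Ω₁]
    [Algebra k Ω₁] [Field Ω] [Algebra k Ω] (hALF : SpecALF.{u, v}) (φ : Ω₁ →ₐ[k] Ω)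
    (v₁ w₁ : Z →ₐ[k] Ω₁) (b : F ≃ₐ[k] F) :
    Via b v₁ w₁ ↔ Via b (φ.comp v₁) (φ.comp w₁) := by
  constructor
  · rintro ⟨wt, h1, h2⟩
    refine ⟨φ.comp wt, fun a => ?_, fun a => ?_⟩
    · show φ (wt _) = φ (w₁ a)
      rw [h1]
    · show φ (v₁ a) = φ (wt _)
      rw [h2]
  · rintro ⟨wt, h1, h2⟩
    obtain ⟨wt₁, h3, h4⟩ := hALF.1 k Z F Ω₁ Ω φ w₁ wt h1
    refine ⟨wt₁, h3, fun a => ?_⟩
    have h5 := h2 a
    rw [h4] at h5
    exact φ.toRingHom.injective h5

theorem star {k : Type u} {Z Q F2 R2 Ω₁ Ω : Type v} [Field k] [Field Z] [Algebra k Z] [DivisionRing Q]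
    [Algebra k Q] [Algebra Z Q] [IsScalarTower k Z Q] [Field F2] [Algebra k F2] [Ring R2]
    [Algebra k R2] [Algebra F2 R2] [IsScalarTower k F2 R2]
    (D : Q →ₐ[k] R2) (K : Subalgebra F2 R2) [Field Ω₁]
    [Algebra k Ω₁] [Field Ω] [Algebra k Ω] (φ : Ω₁ →ₐ[k] Ω) (kap₁ : K →ₐ[k] Ω₁)
    (w₁ : Z →ₐ[k] Ω₁) : Star D K kap₁ w₁ ↔ Star D K (φ.comp kap₁) (φ.comp w₁) := by
  constructor
  · intro h t ht
    rw [mu_comp φ kap₁ w₁ (φ.comp kap₁) (φ.comp w₁) (fun _ => rfl) (fun _ => rfl) t, h t ht, map_zero]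
  · intro h t ht
    have h2 := h t ht
    rw [mu_comp φ kap₁ w₁ (φ.comp kap₁) (φ.comp w₁) (fun _ => rfl) (fun _ => rfl) t] at h2
    exact φ.toRingHom.injective (h2.trans (map_zero φ).symm)

theorem lab {k : Type u} {Z F Ω₁ Ω : Type v} [Field k] [Field Z] [Algebra k Z] [Field F] [Algebra k F]
    [Algebra Z F] [IsScalarTower k Z F] [Algebra.IsAlgebraic Z F] [Field Ω₁] [IsAlgClosed Ω₁]
    [Algebra k Ω₁] [Field Ω] [Algebra k Ω] (hALF : SpecALF.{u, v}) (φ : Ω₁ →ₐ[k] Ω)
    (L : Set (F ≃ₐ[k] F)) (lam : (F ≃ₐ[k] F) → ℤ) (M : ℤ)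
    (v₁ w₁ : Z →ₐ[k] Ω₁) :
    HasLab L lam M v₁ w₁ ↔ HasLab L lam M (φ.comp v₁) (φ.comp w₁) := by
  constructor
  · rintro ⟨b, hb, hm, hv⟩
    exact ⟨b, hb, hm, (via hALF φ v₁ w₁ b).1 hv⟩
  · rintro ⟨b, hb, hm, hv⟩
    exact ⟨b, hb, hm, (via hALF φ v₁ w₁ b).2 hv⟩

theorem top {k : Type u} {Z Q F2 R2 F Ω₁ Ω : Type v} [Field k] [Field Z] [Algebra k Z] [DivisionRing Q]
    [Algebra k Q] [Algebra Z Q] [IsScalarTower k Z Q] [Field F2] [Algebra k F2] [Ring R2]
    [Algebra k R2] [Algebra F2 R2] [IsScalarTower k F2 R2] [Module.Finite F2 R2] [Field F]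
    [Algebra k F] [Algebra Z F] [IsScalarTower k Z F] [Algebra.IsAlgebraic Z F] (hALF : SpecALF.{u, v})
    (D : Q →ₐ[k] R2) (K : Subalgebra F2 R2) (G : Subgroup (F ≃ₐ[k] F))
    (lam : (F ≃ₐ[k] F) → ℤ) [Field Ω₁] [IsAlgClosed Ω₁] [Algebra k Ω₁]
    [Field Ω] [Algebra k Ω] (φ : Ω₁ →ₐ[k] Ω) (kap₁ : K →ₐ[k] Ω₁) (w₁ : Z →ₐ[k] Ω₁) :
    IsTop G lam D K kap₁ w₁ ↔ IsTop G lam D K (φ.comp kap₁) (φ.comp w₁) := by
  constructor
  · rintro ⟨h1, h2⟩
    refine ⟨(star D K φ kap₁ w₁).1 h1, fun w' hw' b hb hv => ?_⟩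
    obtain ⟨w'₁, h3, h4⟩ := hALF.2.1 k Z Q F2 R2 Ω₁ Ω D K φ kap₁ w' hw'
    have h5 : w' = φ.comp w'₁ := AlgHom.ext h4
    subst h5
    exact h2 w'₁ h3 b hb ((via hALF φ w'₁ w₁ b).2 hv)
  · rintro ⟨h1, h2⟩
    refine ⟨(star D K φ kap₁ w₁).2 h1, fun w' hw' b hb hv => ?_⟩
    exact h2 (φ.comp w') ((star D K φ kap₁ w').1 hw') b hb ((via hALF φ w' w₁ b).1 hv)

end INVM

open INVM in
/-- **INV**. -/
theorem specINV (hALF : SpecALF.{u, v}) : SpecINV.{u, v} := by
  intro k Z Q F2 R2 F _ _ _ _ _ _ _ _ _ _ _ _ _ _ _ _ _ _ _ D K L G lam M Ω₁ Ω _ _ _ _ _ _ φ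
  refine ⟨fun v₁ w₁ => ⟨fun b => via hALF φ v₁ w₁ b, lab hALF φ L lam M v₁ w₁⟩,
    fun kap₁ w₁ => ⟨top hALF D K G lam φ kap₁ w₁, ?_⟩⟩
  constructor
  · rintro ⟨w, h1, h2⟩
    exact ⟨φ.comp w, (top hALF D K G lam φ kap₁ w).1 h1, (lab hALF φ L lam M w₁ w).1 h2⟩
  · rintro ⟨w, h1, h2⟩
    obtain ⟨w'₁, h3, h4⟩ := hALF.2.1 k Z Q F2 R2 Ω₁ Ω D K φ kap₁ w h1.1
    have h5 : w = φ.comp w'₁ := AlgHom.ext h4
    subst h5
    exact ⟨w'₁, (top hALF D K G lam φ kap₁ w'₁).2 h1, (lab hALF φ L lam M w₁ w'₁).2 h2⟩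

end Pool.Agent.Lib.MP_c37a72_al.PU
end

section
/-!
# MP_c37a72_al, block PU, module LWD: heights of pairs are well defined and additive
-/
set_option autoImplicit false

namespace Pool.Agent.Lib.MP_c37a72_al.PU

open Pool.Agent.Lib.MP_c37a72_al.LB

universe u v w

theorem specLWD (hALF : SpecALF.{u, v}) : SpecLWD.{u, v} := by
  intro k Z F Ω _ _ _ _ _ _ _ _ _ _ _ G lam hG hlam u v w
  have h3 := hALF.2.2.1
  constructor
  · rintro b hb b' hb' ⟨wt, hw1, hw2⟩ ⟨wt', hw1', hw2'⟩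
    obtain ⟨σ, hσ, hσ2⟩ := h3 k Z F Ω w wt wt' hw1 hw1'
    have hρ : b'⁻¹ * σ⁻¹ * b ∈ gZ k Z F := by
      intro z
      have e1 : b (algebraMap Z F z) = σ (b' (algebraMap Z F z)) := by
        apply wt.toRingHom.injective
        show wt (b (algebraMap Z F z)) = wt (σ (b' (algebraMap Z F z)))
        rw [← hw2, ← hσ2, ← hw2']
      show b'.symm (σ.symm (b (algebraMap Z F z))) = _
      rw [e1, AlgEquiv.symm_apply_apply, AlgEquiv.symm_apply_apply]
    have e2 : b = σ * (b' * (b'⁻¹ * σ⁻¹ * b)) := by group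
    have hρG := hG hρ
    rw [e2, hlam.mul _ (hG hσ) _ (G.mul_mem hb' hρG), hlam.mul _ hb' _ hρG, hlam.gz _ hρ,
      hlam.gz _ hσ]
    ring
  · rintro a ha b hb ⟨ut, hu1, hu2⟩ ⟨wt, hw1, hw2⟩
    obtain ⟨σ, hσ, hσ2⟩ := h3 k Z F Ω w (ut.comp a.toAlgHom) wt
      (fun z => (hu2 z).symm) hw1
    refine ⟨a * (σ * b), G.mul_mem ha (G.mul_mem (hG hσ) hb), ⟨ut, hu1, ?_⟩, ?_⟩
    · intro z
      rw [hw2, hσ2]
      rfl
    · rw [hlam.mul _ ha _ (G.mul_mem (hG hσ) hb), hlam.mul _ (hG hσ) _ hb, hlam.gz _ hσ]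
      ring

end Pool.Agent.Lib.MP_c37a72_al.PU
end

section
/-!
# MP_c37a72_al, block PU, module NZP: a non-nilpotent element has a nonzero value at a point
-/
set_option autoImplicit false

namespace Pool.Agent.Lib.MP_c37a72_al.PU

universe u v w

theorem specNZP : SpecNZP.{u, v} := by
  intro k P _ _ _ y hy
  have h1 : y ∉ nilradical P := fun h => hy (mem_nilradical.1 h)
  rw [nilradical_eq_sInf, Ideal.mem_sInf] at h1
  push Not at h1
  obtain ⟨m, hm, hym⟩ := h1
  have hmp : Ideal.IsPrime m := hm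
  let Ω := AlgebraicClosure (FractionRing (P ⧸ m))
  refine ⟨Ω, inferInstance, inferInstance, inferInstance,
    (IsScalarTower.toAlgHom k (P ⧸ m) Ω).comp (Ideal.Quotient.mkₐ k m), ?_⟩
  show algebraMap (P ⧸ m) Ω (Ideal.Quotient.mk m y) ≠ 0
  rw [IsScalarTower.algebraMap_eq (P ⧸ m) (FractionRing (P ⧸ m)) Ω]
  intro h
  have h2 : Function.Injective ((algebraMap (FractionRing (P ⧸ m)) Ω).comp
      (algebraMap (P ⧸ m) (FractionRing (P ⧸ m)))) :=
    (algebraMap (FractionRing (P ⧸ m)) Ω).injective.comp (IsFractionRing.injective _ _)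
  have h3 : Ideal.Quotient.mk m y = 0 := h2 (by rw [h, map_zero])
  exact hym (Ideal.Quotient.eq_zero_iff_mem.1 h3)

end Pool.Agent.Lib.MP_c37a72_al.PU
end

section
/-!
# MP_c37a72_al, block PU, module P3A (helper60)

`ϖ D(p) e = D(p) e`.
-/
set_option autoImplicit false

open scoped TensorProduct
open Coalgebra HopfAlgebra Module
open Pool.Agent.Lib.MP_c37a72_al.LB

namespace Pool.Agent.Lib.MP_c37a72_al.PU

universe u v w

namespace P3AM

variable {k : Type*} {A B R S : Type*} [Field k] [Ring A] [Algebra k A] [Ring B] [Algebra k B]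
  [Ring R] [Algebra k R] [Ring S] [Algebra k S]

theorem mu_map (f : R →ₐ[k] S) (p : A →ₐ[k] R) (q : B →ₐ[k] R) (t : A ⊗[k] B) :
    mu k (f.comp p) (f.comp q) t = f (mu k p q t) := by
  induction t with
  | zero => rw [map_zero, map_zero, map_zero]
  | add x y hx hy => rw [map_add, map_add, map_add, hx, hy]
  | tmul a b =>
    rw [mu_tmul, mu_tmul, map_mul]
    rfl

theorem mu_comm (p : A →ₐ[k] R) (q : B →ₐ[k] R) (h : ∀ a b, p a * q b = q b * p a)
    (t : A ⊗[k] B) : mu k q p (TensorProduct.comm k A B t) = mu k p q t := by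
  induction t with
  | zero => rw [map_zero, map_zero, map_zero]
  | add x y hx hy => rw [map_add, map_add, map_add, hx, hy]
  | tmul a b => rw [TensorProduct.comm_tmul, mu_tmul, mu_tmul, h]

end P3AM

open P3AM in
/-- **P3A**. -/
theorem specP3A (hTRI : SpecTRI.{u, v}) : SpecP3A.{u, v} := by
  intro k Z Q F2 R2 F _ _ _ _ _ _ _ _ _ _ _ _ _ _ _ _ _ _ D M K hMK L G lam m n T te tp tv
    e p ϖ he hp hϖ hee hpp hϖϖ hTe hTp hTv
  have hK : ∀ (c : K) (q : Q), (c : R2) * D q = D q * c := fun c q =>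
    hMK.comm c c.2 (D q) (hMK.D_mem q)
  -- the three maps
  let P1 : K →ₐ[k] Matrix (Fin n) (Fin n) R2 := (sc k n R2).comp (K.val.restrictScalars k)
  let P2 : Z →ₐ[k] Matrix (Fin n) (Fin n) R2 := (sc k n R2).comp (DZ D Z)
  let P3 : Z →ₐ[k] Matrix (Fin n) (Fin n) R2 := (DT D T).comp (zQ k Z Q)
  have h11 : ∀ a a' : K, P1 a * P1 a' = P1 a' * P1 a := by
    intro a a'
    rw [← map_mul, ← map_mul]
    congr 1
    apply Subtype.ext
    exact hMK.comm a a.2 a' (hMK.le a'.2)
  have h22 : ∀ b b' : Z, P2 b * P2 b' = P2 b' * P2 b := fun b b' => by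
    rw [← map_mul, ← map_mul, mul_comm]
  have h33 : ∀ b b' : Z, P3 b * P3 b' = P3 b' * P3 b := fun b b' => by
    rw [← map_mul, ← map_mul, mul_comm]
  have h12 : ∀ (a : K) (b : Z), P1 a * P2 b = P2 b * P1 a := by
    intro a b
    show sc k n R2 (a : R2) * sc k n R2 (DZ D Z b) = sc k n R2 (DZ D Z b) * sc k n R2 (a : R2)
    rw [← map_mul, ← map_mul, DZ_apply, hK]
  have h13 : ∀ (a : K) (b : Z), P1 a * P3 b = P3 b * P1 a := by
    intro a b
    show Matrix.scalar (Fin n) (a : R2) * DT D T (zQ k Z Q b) =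
      DT D T (zQ k Z Q b) * Matrix.scalar (Fin n) (a : R2)
    ext i l
    rw [Matrix.scalar_apply, Matrix.diagonal_mul, Matrix.mul_diagonal, DT_apply, hK]
  have h23 : ∀ (b c : Z), P2 b * P3 c = P3 c * P2 b := by
    intro b c
    show Matrix.scalar (Fin n) (DZ D Z b) * DT D T (zQ k Z Q c) =
      DT D T (zQ k Z Q c) * Matrix.scalar (Fin n) (DZ D Z b)
    ext i l
    rw [Matrix.scalar_apply, Matrix.diagonal_mul, Matrix.mul_diagonal, DT_apply, DZ_apply,
      ← map_mul, ← map_mul, Algebra.commutes]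
  -- the images of the three tensors
  have hP2 : D.mapMatrix.comp (IsScalarTower.toAlgHom k Z (Matrix (Fin n) (Fin n) Q)) = P2 := by
    apply AlgHom.ext
    intro z
    show (algebraMap Z (Matrix (Fin n) (Fin n) Q) z).map D = Matrix.scalar (Fin n) (DZ D Z z)
    rw [Matrix.algebraMap_eq_diagonal, Matrix.diagonal_map (map_zero D), Matrix.scalar_apply]
    rfl
  have hP3 : D.mapMatrix.comp (T.comp (zQ k Z Q)) = P3 := rfl
  have e12 : ∀ t, mu k P1 P2 t =
      Matrix.scalar (Fin n) (mu k (K.val.restrictScalars k) (DZ D Z) t) := fun t =>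
    mu_map (sc k n R2) _ _ t
  have e32 : ∀ t, mu k P3 P2 t =
      (mu k (T.comp (zQ k Z Q)) (IsScalarTower.toAlgHom k Z _) t).map D := by
    intro t
    have h1 := mu_map D.mapMatrix (T.comp (zQ k Z Q))
      (IsScalarTower.toAlgHom k Z (Matrix (Fin n) (Fin n) Q)) t
    rw [hP2, hP3] at h1
    exact h1
  have e23 : ∀ t, mu k P2 P3 (TensorProduct.comm k Z Z t) =
      (mu k (T.comp (zQ k Z Q)) (IsScalarTower.toAlgHom k Z _) t).map D := by
    intro t
    rw [mu_comm P3 P2 (fun a b => (h23 b a).symm), e32]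
  have h1 := (hTRI k (Matrix (Fin n) (Fin n) R2) K Z Z P1 P2 P3 h11 h22 h33 h12 h13 h23).1
    te tv (TensorProduct.comm k Z Z tp)
  rw [e12, e23, ← he, ← hp] at h1
  have h2 : mu k P1 P3 tv = ϖ := hϖ.symm
  rw [h2] at h1
  apply h1 hϖϖ
  · rw [← map_mul, hee]
  · show D.mapMatrix p * D.mapMatrix p = D.mapMatrix p
    rw [← map_mul, hpp]
  · intro Ω _ _ _ kap w v hk12 hk13 hk23 hte htp
    have hstar : Star D K kap w := by
      intro t ht
      apply hk12
      rw [e12, ht, map_zero]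
    have hTop : IsTop G lam D K kap w := by
      by_contra hn
      exact hte (hTe Ω kap w hstar hn)
    have hcm : ∀ t, mu k w v (TensorProduct.comm k Z Z t) = mu k v w t := fun t =>
      mu_comm v w (fun a b => mul_comm _ _) t
    have hrel : RelT T v w := by
      intro t ht
      rw [← hcm]
      apply hk23
      rw [e23, ht]
      exact Matrix.map_zero D (map_zero D)
    have hlab : HasLab L lam m v w := by
      by_contra hn
      rw [hcm] at htp
      exact htp (hTp Ω v w hrel hn)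
    exact hTv Ω kap v hk13 ⟨w, hTop, hlab⟩

end Pool.Agent.Lib.MP_c37a72_al.PU
end

section
/-!
# MP_c37a72_al, block PU, module P3B

`(p ⊗ 1) ϖ = ϖ`: the place where the two filtrations are compared.
-/
set_option autoImplicit false

open scoped TensorProduct
open Coalgebra HopfAlgebra Module
open Pool.Agent.Lib.MP_c37a72_al.LB

namespace Pool.Agent.Lib.MP_c37a72_al.PU

universe u v w

/-- **P3B**. -/
theorem specP3B (hTRI : SpecTRI.{u, v}) (hTRM : NI.SpecTRM.{u, v}) : SpecP3B.{u, v} := by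
  classical
  intro k H Z Q F2 R2 F _ _ _ _ _ _ _ _ _ _ _ _ _ _ _ _ _ _ _ _ ι jF j D hQ hR hS K hMK n f T hT
    τ hτ1 hτ2 W lam m tp tv p ϖ hH21 hm hvia hp hϖ hpp hϖϖ hvp hvv
  have hK : ∀ (c : K) (q : Q), (c : R2) * D q = D q * c := fun c q =>
    hMK.comm c c.2 (D q) (hMK.D_mem q)
  have hτD : ∀ q, τ (D q) = DT D T q := fun q => by
    ext i l
    rw [hτ2, DT_apply]
  -- the inclusions of `Z`
  let i1 : Z →ₐ[k] K := (IsScalarTower.toAlgHom k F2 K).comp
    (jF.comp (Algebra.TensorProduct.includeLeft : Z →ₐ[k] Z ⊗[k] Z))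
  let i2 : Z →ₐ[k] K := (IsScalarTower.toAlgHom k F2 K).comp
    (jF.comp (Algebra.TensorProduct.includeRight : Z →ₐ[k] Z ⊗[k] Z))
  have hi1 : ∀ z, ((i1 z : K) : R2) = j (algebraMap Z Q z ⊗ₜ[k] 1) := by
    intro z
    show algebraMap F2 R2 (jF (z ⊗ₜ[k] 1)) = _
    rw [← hR.cl.comp, iZ_tmul, map_one]
  have hi2 : ∀ z, ((i2 z : K) : R2) = j ((1 : Q) ⊗ₜ[k] algebraMap Z Q z) := by
    intro z
    show algebraMap F2 R2 (jF (1 ⊗ₜ[k] z)) = _
    rw [← hR.cl.comp, iZ_tmul, map_one]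
  have hi12 : ∀ a b, algebraMap F2 K (jF (a ⊗ₜ[k] b)) = i1 a * i2 b := by
    intro a b
    show _ = algebraMap F2 K (jF (a ⊗ₜ[k] 1)) * algebraMap F2 K (jF (1 ⊗ₜ[k] b))
    rw [← map_mul, ← map_mul, Algebra.TensorProduct.tmul_mul_tmul, mul_one, one_mul]
  -- the three maps
  let P1 : K →ₐ[k] Matrix (Fin n) (Fin n) R2 := (sc k n R2).comp (K.val.restrictScalars k)
  let P2 : K →ₐ[k] Matrix (Fin n) (Fin n) R2 := τ.comp (K.val.restrictScalars k)
  let P3 : Z →ₐ[k] Matrix (Fin n) (Fin n) R2 := (DT D T).comp (zQ k Z Q)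
  have hKK : ∀ a a' : K, a * a' = a' * a := fun a a' =>
    Subtype.ext (hMK.comm a a.2 a' (hMK.le a'.2))
  have h11 : ∀ a a' : K, P1 a * P1 a' = P1 a' * P1 a := by
    intro a a'
    rw [← map_mul, ← map_mul, hKK]
  have h22 : ∀ a a' : K, P2 a * P2 a' = P2 a' * P2 a := by
    intro a a'
    rw [← map_mul, ← map_mul, hKK]
  have h33 : ∀ b b' : Z, P3 b * P3 b' = P3 b' * P3 b := fun b b' => by
    rw [← map_mul, ← map_mul, mul_comm]
  have h12 : ∀ (a b : K), P1 a * P2 b = P2 b * P1 a := by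
    intro a b
    show Matrix.scalar (Fin n) (a : R2) * τ (b : R2) = τ (b : R2) * Matrix.scalar (Fin n) (a : R2)
    ext i l
    rw [Matrix.scalar_apply, Matrix.diagonal_mul, Matrix.mul_diagonal]
    exact hMK.comm a a.2 _ (hTRM k H Z Q F2 R2 ι jF j D hQ hR hS n f T hT τ hτ1 hτ2 b
      (hMK.le b.2) i l)
  have h13 : ∀ (a : K) (b : Z), P1 a * P3 b = P3 b * P1 a := by
    intro a b
    show Matrix.scalar (Fin n) (a : R2) * DT D T (zQ k Z Q b) =
      DT D T (zQ k Z Q b) * Matrix.scalar (Fin n) (a : R2)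
    ext i l
    rw [Matrix.scalar_apply, Matrix.diagonal_mul, Matrix.mul_diagonal, DT_apply, hK]
  have h23 : ∀ (b : K) (c : Z), P2 b * P3 c = P3 c * P2 b := by
    intro b c
    show τ (b : R2) * DT D T (zQ k Z Q c) = DT D T (zQ k Z Q c) * τ (b : R2)
    rw [← hτD, ← map_mul, ← map_mul, hK]
  -- `p ⊗ 1` in terms of `P1`, `P2`
  let fL : Q →ₐ[k] R2 := j.comp (Algebra.TensorProduct.includeLeft : Q →ₐ[k] Q ⊗[k] Q)
  let Ψ : Z ⊗[k] Z →ₗ[k] K ⊗[k] K :=
    (TensorProduct.map i1.toLinearMap i1.toLinearMap) ∘ₗ (TensorProduct.comm k Z Z).toLinearMap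
  have hΨ : ∀ a b, Ψ (a ⊗ₜ[k] b) = i1 b ⊗ₜ[k] i1 a := fun a b => rfl
  have key1 : ∀ t, mu k P1 P2 (Ψ t) =
      fL.mapMatrix (mu k (T.comp (zQ k Z Q)) (IsScalarTower.toAlgHom k Z _) t) := by
    intro t
    induction t using TensorProduct.induction_on with
    | zero => simp only [map_zero]
    | add x y hx hy => simp only [map_add, hx, hy]
    | tmul a b =>
      rw [hΨ, mu_tmul, mu_tmul]
      show Matrix.scalar (Fin n) ((i1 b : K) : R2) * τ ((i1 a : K) : R2) =
        fL.mapMatrix (T (algebraMap Z Q a) * algebraMap Z (Matrix (Fin n) (Fin n) Q) b)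
      ext i l
      rw [Matrix.scalar_apply, Matrix.diagonal_mul, Matrix.algebraMap_eq_diagonal,
        AlgHom.mapMatrix_apply, Matrix.map_apply, Matrix.mul_diagonal, hi1, hi1, hτ1]
      show _ = j ((T (algebraMap Z Q a) i l * algebraMap Z Q b) ⊗ₜ[k] 1)
      rw [← map_mul, Algebra.TensorProduct.tmul_mul_tmul, mul_one, Algebra.commutes]
  have e12 : mu k P1 P2 (Ψ tp) = p.map (fun q => j (q ⊗ₜ[k] (1 : Q))) := by
    rw [key1, ← hp]
    rfl
  have e13 : mu k P1 P3 tv = ϖ := hϖ.symm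
  have h1 := (hTRI k (Matrix (Fin n) (Fin n) R2) K K Z P1 P2 P3 h11 h22 h33 h12 h13 h23).2
    (Ψ tp) tv
  rw [e13, e12] at h1
  apply h1 hϖϖ
  · show fL.mapMatrix p * fL.mapMatrix p = fL.mapMatrix p
    rw [← map_mul, hpp]
  · intro Ω _ _ _ kap kap' v hk12 hk13 hk23 htv
    have hup : IsUp (Lab F Z D W) (G0 F Z D W) lam m D K kap v := by
      by_contra hn
      exact htv (hvv Ω kap v hk13 hn)
    obtain ⟨w, hw, b, hb, hlb, hbv⟩ := hup
    have key2 : ∀ t, mu k kap kap' (Ψ t) = mu k (kap'.comp i1) (kap.comp i1) t := by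
      intro t
      induction t using TensorProduct.induction_on with
      | zero => simp only [map_zero]
      | add x y hx hy => simp only [map_add, hx, hy]
      | tmul a b =>
        rw [hΨ, mu_tmul, mu_tmul, mul_comm]
        rfl
    have hrel : RelT T (kap'.comp i1) (kap.comp i1) := by
      intro t ht
      rw [← key2]
      apply hk12
      rw [key1, ht, map_zero]
    obtain ⟨a, ha, hav⟩ := hvia Ω _ _ hrel
    have hi2' : ∀ z, kap (i2 z) = kap' (i2 z) := by
      intro z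
      have h3 := hk12 ((i2 z) ⊗ₜ[k] 1 - 1 ⊗ₜ[k] (i2 z)) (by
        rw [map_sub, mu_tmul, mu_tmul, map_one, map_one, mul_one, one_mul, sub_eq_zero]
        show Matrix.scalar (Fin n) ((i2 z : K) : R2) = τ ((i2 z : K) : R2)
        ext i l
        rw [Matrix.scalar_apply, hi2, hτ1, map_one, Matrix.diagonal_apply, Matrix.one_apply]
        split_ifs with hil
        · rfl
        · rw [TensorProduct.zero_tmul, map_zero])
      rw [map_sub, mu_tmul, mu_tmul, map_one, map_one, mul_one, one_mul, sub_eq_zero] at h3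
      exact h3
    have hstar : Star D K kap' v := by
      intro t ht
      apply hk23
      have h4 : ∀ s, mu k P2 P3 s = τ (mu k (K.val.restrictScalars k) (DZ D Z) s) := by
        intro s
        have h5 := P3AM.mu_map τ (K.val.restrictScalars k) (DZ D Z) s
        rw [← h5]
        congr 1
        congr 1
        apply AlgHom.ext
        intro z
        show DT D T (zQ k Z Q z) = τ (D (algebraMap Z Q z))
        rw [hτD]; rfl
      rw [h4, ht, map_zero]
    have h6 : lam b ≤ lam a := by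
      refine hH21 Ω (kap.comp i1) (kap.comp i2) (kap'.comp i1)
        (kap.comp (IsScalarTower.toAlgHom k F2 K)) (kap'.comp (IsScalarTower.toAlgHom k F2 K))
        (fun x y => ?_) (fun x y => ?_) kap kap' (fun _ => rfl) (fun _ => rfl) a ha hav w hw v b hb
        hbv hstar
      · show kap (algebraMap F2 K (jF (x ⊗ₜ[k] y))) = kap (i1 x) * kap (i2 y)
        rw [hi12, map_mul]
      · show kap' (algebraMap F2 K (jF (x ⊗ₜ[k] y))) = kap' (i1 x) * kap (i2 y)
        rw [hi12, map_mul, hi2']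
    have h7 : lam a = m := le_antisymm (hm a ha) (by rw [← hlb]; exact h6)
    rw [key2]
    exact hvp Ω _ _ hrel ⟨a, ha, h7, hav⟩

end Pool.Agent.Lib.MP_c37a72_al.PU
end

section
set_option autoImplicit false

open scoped TensorProduct
open Coalgebra HopfAlgebra Module
open Pool.Agent.Lib.MP_c37a72_al.LB

namespace Pool.Agent.Lib.MP_c37a72_al.PU

universe u v

/-- **PID**: the idempotent of the labels of height `M`. -/
theorem specPID (hIDR : SpecIDR.{u, v}) (hINV : SpecINV.{u, v}) : SpecPID.{u, v} := by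
  intro k Z Q F _ _ _ _ _ _ _ _ _ _ _ _ _ L lam M n T
  obtain ⟨tp, htp, hval⟩ := hIDR k Z (Matrix (Fin n) (Fin n) Q) Z Z (T.comp (zQ k Z Q))
    (IsScalarTower.toAlgHom k Z (Matrix (Fin n) (Fin n) Q))
    (fun a a' => by rw [← map_mul, mul_comm, map_mul])
    (fun b b' => by rw [← map_mul, mul_comm, map_mul])
    (fun a b => (Algebra.commutes b _).symm)
    (fun x => ⟨(1 : Z) ⊗ₜ[k] x, by
      rw [mu_tmul, map_one, one_mul]
      rfl⟩)
    (fun Ω _ _ z x => HasLab L lam M z x)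
    (fun Ω₁ Ω _ _ _ _ _ _ φ f g _ =>
      ((hINV k Z Q Z Q F (AlgHom.id k Q) ⊥ L ⊥ lam M Ω₁ Ω φ).1 f g).2)
  exact ⟨tp, htp, fun Ω _ _ _ z x hR => hval Ω z x hR⟩

end Pool.Agent.Lib.MP_c37a72_al.PU
end

section
/-!
# MP_c37a72_al, block PU, module PUF: `lam = 0` on the labels
-/
set_option autoImplicit false

open scoped TensorProduct
open Coalgebra HopfAlgebra Module
open Pool.Agent.Lib.MP_c37a72_al.LB

namespace Pool.Agent.Lib.MP_c37a72_al.PU

universe u v w

namespace PUFM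

/-- purity gives the contradiction -/
theorem no_pure {k : Type u} {H Z Q F2 R2 : Type v} [Field k] [IsAlgClosed k] [Ring H] [IsDomain H]
    [HopfAlgebra k H] [Field Z] [Algebra k Z] [DivisionRing Q] [Algebra k Q] [Algebra Z Q]
    [IsScalarTower k Z Q] [Field F2] [Algebra k F2] [Ring R2] [Algebra k R2] [Algebra F2 R2]
    [IsScalarTower k F2 R2] {ι : H →ₐ[k] Q} {jF : Z ⊗[k] Z →ₐ[k] F2} {j : Q ⊗[k] Q →ₐ[k] R2}
    {D : Q →ₐ[k] R2} (hQ : IsCQ k H Z Q ι) (hR : IsR2 ι jF j D) {n : ℕ} (ev : Fin n → Q)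
    (T : Q →ₐ[k] Matrix (Fin n) (Fin n) Q) (tp : Z ⊗[k] Z) (p : Matrix (Fin n) (Fin n) Q) (e : R2)
    (hind : LinearIndependent k ev) (hT : ∀ q l, ∑ i, ev i * T q i l = q * ev l) (he : e ≠ 0)
    (hcom : ∀ q, e * D q = D q * e)
    (hp : p = mu k (T.comp (zQ k Z Q)) (IsScalarTower.toAlgHom k Z _) tp) (hpp : p * p = p)
    (h31 : p.map (fun q => j (q ⊗ₜ[k] (1 : Q))) * (p.map D * Matrix.scalar (Fin n) e) =
      p.map D * Matrix.scalar (Fin n) e)
    (h0 : mu k (AlgHom.id k Z) (AlgHom.id k Z) tp = 0) (hp0 : p ≠ 0) : False := by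
  classical
  let T' : Submodule Qᵐᵒᵖ (Fin n → Q) :=
    { carrier := {u | ∀ i, ∑ l, p i l * u l = u i}
      add_mem' := fun {a b} ha hb i => by
        rw [Pi.add_apply, ← ha i, ← hb i, ← Finset.sum_add_distrib]
        exact Finset.sum_congr rfl fun l _ => by rw [Pi.add_apply, mul_add]
      zero_mem' := fun i => by simp
      smul_mem' := fun c u hu i => by
        rw [Pi.smul_apply, MulOpposite.smul_eq_mul_unop, ← hu i, Finset.sum_mul]
        exact Finset.sum_congr rfl fun l _ => by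
          rw [Pi.smul_apply, MulOpposite.smul_eq_mul_unop, mul_assoc] }
  have hT' : ∀ u, u ∈ T' ↔ ∀ i, ∑ l, p i l * u l = u i := fun u => Iff.rfl
  have hcol : ∀ l, (fun i => p i l) ∈ T' := by
    intro l
    rw [hT']
    intro i
    have := congrFun (congrFun hpp i) l
    rwa [Matrix.mul_apply] at this
  have h31' : ∀ i l, ∑ s, j (p i s ⊗ₜ[k] 1) * (D (p s l) * e) = D (p i l) * e := by
    intro i l
    have h1 := congrFun (congrFun h31 i) l
    rw [Matrix.mul_apply, Matrix.scalar_apply, Matrix.mul_diagonal, Matrix.map_apply] at h1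
    rw [← h1]
    refine Finset.sum_congr rfl fun s _ => ?_
    rw [Matrix.mul_diagonal, Matrix.map_apply, Matrix.map_apply]
  have hpur := pur_R2 (D := D) hQ hR.frc hR.cl hR.D_ι he T' (by
    intro u hu φ hφ
    have hφp : ∀ s, ∑ i, φ i * p i s = 0 := fun s => hφ _ (hcol s)
    have h2 : ∀ i, j (φ i ⊗ₜ[k] 1) * e * D (u i) =
        ∑ l, ∑ s, j ((φ i * p i s) ⊗ₜ[k] 1) * (D (p s l) * e) * D (u l) := by
      intro i
      conv_lhs => rw [← (hT' u).1 hu i]
      rw [map_sum, Finset.mul_sum]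
      refine Finset.sum_congr rfl fun l _ => ?_
      rw [map_mul, ← mul_assoc, mul_assoc (j (φ i ⊗ₜ[k] 1)) e, hcom, ← h31' i l, Finset.mul_sum,
        Finset.sum_mul]
      refine Finset.sum_congr rfl fun s _ => ?_
      rw [← mul_assoc, ← map_mul, Algebra.TensorProduct.tmul_mul_tmul, mul_one]
    rw [Finset.sum_congr rfl fun i _ => h2 i, Finset.sum_comm]
    refine Finset.sum_eq_zero fun l _ => ?_
    rw [Finset.sum_comm]
    refine Finset.sum_eq_zero fun s _ => ?_
    rw [← Finset.sum_mul, ← Finset.sum_mul, ← map_sum, ← TensorProduct.sum_tmul, hφp,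
      TensorProduct.zero_tmul, map_zero, zero_mul, zero_mul])
  -- a nonzero vector of `T'` with entries in `k`
  have hex : ∃ u ∈ T', (∀ i, u i ∈ Set.range (algebraMap k Q)) ∧ u ≠ 0 := by
    by_contra hno
    push Not at hno
    have h3 : T' = ⊥ := by
      rw [hpur, Submodule.span_eq_bot]
      rintro u ⟨hu1, hu2⟩
      exact hno u hu1 hu2
    apply hp0
    ext i l
    have h4 := hcol l
    rw [h3, Submodule.mem_bot] at h4
    exact congrFun h4 i
  obtain ⟨u, huT, huk, hu0⟩ := hex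
  choose c hc using huk
  have hmu : ∀ (t : Z ⊗[k] Z) (v : Fin n → Q),
      ∑ i, ∑ l, ev i * (mu k (T.comp (zQ k Z Q))
        (IsScalarTower.toAlgHom k Z (Matrix (Fin n) (Fin n) Q)) t i l * v l) =
      algebraMap Z Q (mu k (AlgHom.id k Z) (AlgHom.id k Z) t) * ∑ i, ev i * v i := by
    intro t v
    induction t using TensorProduct.induction_on with
    | zero => simp
    | add x y hx hy =>
      rw [map_add, map_add, map_add, add_mul, ← hx, ← hy, ← Finset.sum_add_distrib]
      refine Finset.sum_congr rfl fun i _ => ?_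
      rw [← Finset.sum_add_distrib]
      refine Finset.sum_congr rfl fun l _ => ?_
      rw [Matrix.add_apply, add_mul, mul_add]
    | tmul a b =>
      have h5 : ∀ i l, mu k (T.comp (zQ k Z Q))
          (IsScalarTower.toAlgHom k Z (Matrix (Fin n) (Fin n) Q)) (a ⊗ₜ[k] b) i l =
          T (algebraMap Z Q a) i l * algebraMap Z Q b := by
        intro i l
        rw [mu_tmul]
        show (T (algebraMap Z Q a) * algebraMap Z (Matrix (Fin n) (Fin n) Q) b) i l = _
        rw [Matrix.algebraMap_eq_diagonal, Matrix.mul_diagonal]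
        rfl
      have h6 : mu k (AlgHom.id k Z) (AlgHom.id k Z) (a ⊗ₜ[k] b) = a * b := by
        rw [mu_tmul]; rfl
      rw [h6, Finset.sum_comm]
      have h7 : ∀ l, ∑ i, ev i * (mu k (T.comp (zQ k Z Q))
          (IsScalarTower.toAlgHom k Z (Matrix (Fin n) (Fin n) Q)) (a ⊗ₜ[k] b) i l * v l) =
          algebraMap Z Q (a * b) * (ev l * v l) := by
        intro l
        have h8 := hT (algebraMap Z Q a) l
        calc _ = (∑ i, ev i * T (algebraMap Z Q a) i l) * (algebraMap Z Q b * v l) := by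
              rw [Finset.sum_mul]
              refine Finset.sum_congr rfl fun i _ => ?_
              rw [h5, mul_assoc, mul_assoc]
          _ = algebraMap Z Q a * (ev l * algebraMap Z Q b) * v l := by
              rw [h8]; simp only [mul_assoc]
          _ = _ := by
              rw [← Algebra.commutes b (ev l), map_mul]; simp only [mul_assoc]
      rw [Finset.sum_congr rfl fun l _ => h7 l, ← Finset.mul_sum]
  have h9 := hmu tp u
  rw [h0, map_zero, zero_mul, ← hp] at h9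
  have h10 : ∑ i, ev i * u i = 0 := by
    rw [← h9]
    refine Finset.sum_congr rfl fun i _ => ?_
    rw [← Finset.mul_sum, (hT' u).1 huT i]
  have h11 : ∑ i, c i • ev i = 0 := by
    rw [← h10]
    refine Finset.sum_congr rfl fun i _ => ?_
    rw [← hc i, Algebra.smul_def, Algebra.commutes]
  have h12 := Fintype.linearIndependent_iff.1 hind c h11
  apply hu0
  ext i
  rw [← hc i, h12 i, map_zero]
  rfl

end PUFM

theorem specPUF (hR2S : SpecR2S.{u, v}) (hE0X : SpecE0X.{u, v}) (hLCL : SpecLCL.{u, v})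
    (hBIF : SpecBIF.{u, v}) (hM2D : SpecM2D.{u, v}) (hSYM : SpecSYM.{u, v})
    (hP31 : SpecP31.{u, v}) : SpecPUF.{u, v} := by
  intro k H Z Q F2 R2 F _ _ _ _ _ _ _ _ _ _ _ _ _ _ _ _ _ _ _ _ _ _ _ ι jF j D hQ hR hS K hMK E
    hE lam hlam hH21
  obtain ⟨hfin, hsim, hcen⟩ := hR2S k H Z Q F2 R2 ι jF j D hQ hR
  have hfinZ : Module.Finite Z Q := hQ.fin
  obtain ⟨El', Er, hEl', hEr⟩ := hE0X k H Z Q ι hQ
  have hbif := (hBIF k H Z Q F2 R2 ι jF j D hQ hR hS E Er hE hEr).1
  have hspanM := (hM2D k H Z Q F2 R2 ι jF j D hQ hR hS E Er hE hEr).1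
  have hLG : ∀ a ∈ Lab F Z D (embL j E), a ∈ G0 F Z D (embL j E) := fun a ha =>
    Subgroup.subset_closure (Or.inl ha)
  have hgG : gZ k Z F ≤ G0 F Z D (embL j E) := fun a ha => Subgroup.subset_closure (Or.inr ha)
  have hnt : Nontrivial R2 := inferInstance
  have h1E : (1 : R2) ∈ embL j E := by
    refine ⟨1, hE.one, ?_⟩
    show j ((1 : Q) ⊗ₜ[k] (1 : Q)) = 1
    exact map_one j
  obtain ⟨-, ⟨S, hS1, hS2⟩, h1⟩ := hLCL k Z Q F2 R2 D (embL j E) hbif F
  have h1Lab := h1 hnt h1E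
  have hlam1 : lam 1 = 0 := hlam.gz 1 (one_mem _)
  have hSne : S.Nonempty := by
    obtain ⟨s, hs, -⟩ := hS2 1 h1Lab
    exact ⟨s, hs⟩
  obtain ⟨s0, hs0, hmax⟩ := Finset.exists_max_image S lam hSne
  have hle : ∀ a ∈ Lab F Z D (embL j E), lam a ≤ lam s0 := by
    intro a ha
    obtain ⟨s, hs, σ, hσ, rfl⟩ := hS2 a ha
    rw [hlam.mul s (hLG s (hS1 s hs)) σ (hgG hσ), hlam.gz σ hσ, add_zero]
    exact hmax s hs
  have hm0 : lam s0 = 0 := by
    by_contra hm
    obtain ⟨n, ev, T, tp, p, e, hind, hT, he, hcom, hp, hpp, h31, h5, h6⟩ :=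
      hP31 k H Z Q F2 R2 F ι jF j D hQ hR hS K hMK E hE lam hlam hH21 (lam s0) hle
    refine PUFM.no_pure hQ hR ev T tp p e hind hT he hcom hp hpp h31 ?_ (h6 ⟨s0, hS1 s0 hs0, rfl⟩)
    have h7 := h5 hm
    apply (algebraMap Z F).injective
    rw [map_zero, ← h7]
    generalize tp = t
    induction t using TensorProduct.induction_on with
    | zero => simp
    | add x y hx hy => rw [map_add, map_add, map_add, hx, hy]
    | tmul a b =>
      rw [mu_tmul, mu_tmul]
      show algebraMap Z F (a * b) = algebraMap Z F a * algebraMap Z F b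
      rw [map_mul]
  have hinv : ∀ a ∈ Lab F Z D (embL j E), a⁻¹ ∈ Lab F Z D (embL j E) := by
    intro a ha
    have h8 := (hSYM k Z Q F2 R2 D (M2 Z F2 ι j D) K hMK (embL j E) (embL j E) (by
      rintro _ ⟨q, hq, rfl⟩
      exact Algebra.subset_adjoin (Or.inl ⟨q, hE.sub q hq, rfl⟩)) hbif hspanM F _ _ ha).2
    intro t ht
    have h9 := h8 t ht
    have h10 : mu k (rs Z a⁻¹) (rs Z (1 : F ≃ₐ[k] F)) t =
        a⁻¹ (mu k (rs Z (1 : F ≃ₐ[k] F)) (rs Z a) t) := by
      generalize t = t'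
      induction t' using TensorProduct.induction_on with
      | zero => simp
      | add x y hx hy => rw [map_add, map_add, map_add, hx, hy]
      | tmul x y =>
        rw [mu_tmul, mu_tmul, map_mul]
        congr 1
        show algebraMap Z F y = a.symm (a (algebraMap Z F y))
        rw [AlgEquiv.symm_apply_apply]
    rw [h10, h9, map_zero]
  intro a ha
  have h11 := hle a ha
  have h12 := hle _ (hinv a ha)
  have h13 := hlam.mul a (hLG a ha) a⁻¹ (inv_mem (hLG a ha))
  rw [mul_inv_cancel, hlam1] at h13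
  rw [hm0] at h11 h12
  omega

end Pool.Agent.Lib.MP_c37a72_al.PU
end

section
set_option autoImplicit false

open scoped TensorProduct
open Coalgebra HopfAlgebra Module
open Pool.Agent.Lib.MP_c37a72_al.LB

namespace Pool.Agent.Lib.MP_c37a72_al.PU

universe u v

/-- **TPX**: every `kap` has a top point. -/
theorem specTPX (hSTM : LB.SpecSTM.{u, v}) (hFIN : LB.SpecFIN.{u, v}) (hR11 : LB.SpecR11.{u, v})
    (hLAB : LB.SpecLAB.{u, v}) (hALF : SpecALF.{u, v}) (hLWD : SpecLWD.{u, v}) :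
    SpecTPX.{u, v} := by
  classical
  intro k Z Q F2 R2 F _ _ _ _ _ _ _ _ _ _ _ _ _ _ _ _ _ _ _ _ _ D M K hMK W hW hspan
    lam hlam Ω _ _ _ kap
  obtain ⟨hS1, -, hS3, -⟩ := hSTM k Z Q F2 R2 D M K hMK Ω
  obtain ⟨w0, hw0⟩ := hS3 kap
  have hfin : {w : Z →ₐ[k] Ω | Star D K kap w}.Finite :=
    (hFIN k Z Q F2 R2 D K hMK.fieldK Ω
      (kap.comp (IsScalarTower.toAlgHom k F2 K))).1.subset (fun w hw => hS1 kap w hw)
  obtain ⟨w0t, hw0t⟩ := hALF.2.2.2 k Z F Ω w0
  have hlab : ∀ w : Z →ₐ[k] Ω, Star D K kap w → ∃ b ∈ G0 F Z D W, Via b w w0 := by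
    intro w hw
    have hrel := hR11 k Z Q F2 R2 D M K hMK W hspan Ω kap w0 w hw0 hw
    obtain ⟨τ, hτ, hτ'⟩ := (hLAB k Z Q F2 R2 D W hW F Ω w w0 w0t hw0t).1 hrel
    exact ⟨τ, Subgroup.subset_closure (Or.inl hτ), w0t, hw0t, hτ'⟩
  have hle : gZ k Z F ≤ G0 F Z D W := fun σ hσ => Subgroup.subset_closure (Or.inr hσ)
  let f : (Z →ₐ[k] Ω) → ℤ := fun w =>
    if h : Star D K kap w then lam (hlab w h).choose else 0
  obtain ⟨w, hw, hmax⟩ := Set.exists_max_image {w : Z →ₐ[k] Ω | Star D K kap w} f hfin ⟨w0, hw0⟩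
  have hw' : Star D K kap w := hw
  refine ⟨w, hw', ?_⟩
  intro w' hw'' b hb hvia
  obtain ⟨hbG, hbV⟩ := (hlab w hw').choose_spec
  obtain ⟨hbG', hbV'⟩ := (hlab w' hw'').choose_spec
  obtain ⟨c, hcG, hcV, hc⟩ := (hLWD k Z F Ω (G0 F Z D W) lam hle hlam w0 w' w).2
    (hlab w hw').choose hbG b hb hbV hvia
  have h1 := (hLWD k Z F Ω (G0 F Z D W) lam hle hlam w0 w' w0).1 c hcG
    (hlab w' hw'').choose hbG' hcV hbV'
  have h2 : f w' ≤ f w := hmax w' hw''
  have hf1 : f w = lam (hlab w hw').choose := dif_pos hw'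
  have hf2 : f w' = lam (hlab w' hw'').choose := dif_pos hw''
  rw [hf1, hf2] at h2
  linarith

end Pool.Agent.Lib.MP_c37a72_al.PU
end

section
/-!
# MP_c37a72_al, block PU, module TRI: two idempotents in the algebra generated by three maps
-/
set_option autoImplicit false

open scoped TensorProduct

namespace Pool.Agent.Lib.MP_c37a72_al.PU

open Pool.Agent.Lib.MP_c37a72_al.LB

universe u v w

namespace TRIM

theorem map_mu {k : Type u} {A B R S : Type v} [Field k] [Ring A] [Algebra k A] [Ring B]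
    [Algebra k B] [Ring R] [Algebra k R] [Ring S] [Algebra k S] (i : R →ₐ[k] S) (p : A →ₐ[k] R)
    (q : B →ₐ[k] R) (t : A ⊗[k] B) : i (mu k p q t) = mu k (i.comp p) (i.comp q) t := by
  induction t using TensorProduct.induction_on with
  | zero => simp
  | tmul a b => simp
  | add x y hx hy => rw [map_add, map_add, map_add, hx, hy]

/-- three commuting maps factor through a commutative algebra. -/
theorem factor {k : Type u} {R A B C : Type v} [Field k] [Ring R] [Algebra k R] [Ring A]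
    [Algebra k A] [Ring B] [Algebra k B] [Ring C] [Algebra k C] (p : A →ₐ[k] R) (q : B →ₐ[k] R)
    (r : C →ₐ[k] R) (hpp : ∀ a a', p a * p a' = p a' * p a) (hqq : ∀ b b', q b * q b' = q b' * q b)
    (hrr : ∀ c c', r c * r c' = r c' * r c) (hpq : ∀ a b, p a * q b = q b * p a)
    (hpr : ∀ a c, p a * r c = r c * p a) (hqr : ∀ b c, q b * r c = r c * q b) :
    ∃ (P : Type v) (_ : CommRing P) (_ : Algebra k P) (i : P →ₐ[k] R) (p' : A →ₐ[k] P)
      (q' : B →ₐ[k] P) (r' : C →ₐ[k] P), Function.Injective i ∧ i.comp p' = p ∧ i.comp q' = q ∧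
      i.comp r' = r := by
  let S : Set R := Set.range p ∪ Set.range q ∪ Set.range r
  have hS : ∀ a ∈ S, ∀ b ∈ S, a * b = b * a := by
    rintro _ ((⟨a, rfl⟩ | ⟨a, rfl⟩) | ⟨a, rfl⟩) _ ((⟨b, rfl⟩ | ⟨b, rfl⟩) | ⟨b, rfl⟩)
    · exact hpp a b
    · exact hpq a b
    · exact hpr a b
    · exact (hpq b a).symm
    · exact hqq a b
    · exact hqr a b
    · exact (hpr b a).symm
    · exact (hqr b a).symm
    · exact hrr a b
  refine ⟨Algebra.adjoin k S, Algebra.adjoinCommRingOfComm k hS, Subalgebra.algebra _,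
    (Algebra.adjoin k S).val,
    p.codRestrict (Algebra.adjoin k S) (fun a => Algebra.subset_adjoin (Or.inl (Or.inl ⟨a, rfl⟩))),
    q.codRestrict (Algebra.adjoin k S) (fun a => Algebra.subset_adjoin (Or.inl (Or.inr ⟨a, rfl⟩))),
    r.codRestrict (Algebra.adjoin k S) (fun a => Algebra.subset_adjoin (Or.inr ⟨a, rfl⟩)),
    Subtype.val_injective, ?_, ?_, ?_⟩
  · ext a; rfl
  · ext a; rfl
  · ext a; rfl

theorem zero_of_pts (hNZP : SpecNZP.{u, v}) {k : Type u} {P : Type v} [Field k] [CommRing P]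
    [Algebra k P] (y : P) (hy : y * y = y) (h : ∀ (Ω : Type v) [Field Ω] [IsAlgClosed Ω]
      [Algebra k Ω] (ψ : P →ₐ[k] Ω), ψ y = 0) : y = 0 := by
  by_contra h0
  have hn : ¬ IsNilpotent y := by
    rintro ⟨n, hn⟩
    have hp : ∀ m : ℕ, y ^ (m + 1) = y := by
      intro m
      induction m with
      | zero => rw [zero_add, pow_one]
      | succ m ih => rw [pow_succ, ih, hy]
    apply h0
    rw [← hp n, pow_succ, hn, zero_mul]
  obtain ⟨Ω, i1, i2, i3, ψ, hψ⟩ := hNZP k P y hn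
  exact hψ (h Ω ψ)

theorem kill_of {k : Type u} {A B R P Ω : Type v} [Field k] [Ring A] [Algebra k A] [Ring B]
    [Algebra k B] [Ring R] [Algebra k R] [CommRing P] [Algebra k P] [Field Ω] [Algebra k Ω]
    {i : P →ₐ[k] R} (hi : Function.Injective i) (p' : A →ₐ[k] P) (q' : B →ₐ[k] P)
    (ψ : P →ₐ[k] Ω) : Kill k (i.comp p') (i.comp q') (ψ.comp p') (ψ.comp q') := by
  intro t ht
  rw [← map_mu] at ht
  rw [← map_mu, hi (a₁ := mu k p' q' t) (a₂ := 0) (by rw [ht, map_zero]), map_zero]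

end TRIM

open TRIM

theorem specTRI (hNZP : SpecNZP.{u, v}) : SpecTRI.{u, v} := by
  intro k R A B C _ _ _ _ _ _ _ _ _ p q r hpp hqq hrr hpq hpr hqr
  obtain ⟨P, iP1, iP2, i, p', q', r', hi, rfl, rfl, rfl⟩ := factor p q r hpp hqq hrr hpq hpr hqr
  constructor
  · intro tpq tpr tqr h1 h2 h3 H
    rw [← map_mu, ← map_mul] at h1 h2 h3
    rw [← map_mu, ← map_mu, ← map_mu, ← map_mul, ← map_mul]
    have h1 := hi h1
    have h2 := hi h2
    have h3 := hi h3
    congr 1
    have h4 : (1 - mu k p' r' tpr) * (mu k q' r' tqr * mu k p' q' tpq) = 0 := by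
      apply zero_of_pts hNZP (k := k)
      · generalize mu k p' r' tpr = e at h1 ⊢
        generalize mu k p' q' tpq = m at h2 ⊢
        generalize mu k q' r' tqr = l at h3 ⊢
        linear_combination (l * m * l * m) * h1 + (1 - e) * (l * l) * h2 + (1 - e) * m * h3
      · intro Ω _ _ _ ψ
        by_contra h0
        rw [map_mul, map_mul, map_sub, map_one, map_mu, map_mu, map_mu] at h0
        have h5 := H Ω (ψ.comp p') (ψ.comp q') (ψ.comp r') (kill_of hi p' q' ψ)
          (kill_of hi p' r' ψ) (kill_of hi q' r' ψ)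
          (fun h => h0 (by rw [h]; ring)) (fun h => h0 (by rw [h]; ring))
        exact h0 (by rw [h5]; ring)
    linear_combination -h4
  · intro tpq tpr h1 h2 H
    rw [← map_mu, ← map_mul] at h1 h2
    rw [← map_mu, ← map_mu, ← map_mul]
    have h1 := hi h1
    have h2 := hi h2
    congr 1
    have h4 : (1 - mu k p' q' tpq) * mu k p' r' tpr = 0 := by
      apply zero_of_pts hNZP (k := k)
      · generalize mu k p' r' tpr = e at h1 ⊢
        generalize mu k p' q' tpq = m at h2 ⊢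
        linear_combination (1 - m) ^ 2 * h1 + e * h2
      · intro Ω _ _ _ ψ
        by_contra h0
        rw [map_mul, map_sub, map_one, map_mu, map_mu] at h0
        have h5 := H Ω (ψ.comp p') (ψ.comp q') (ψ.comp r') (kill_of hi p' q' ψ)
          (kill_of hi p' r' ψ) (kill_of hi q' r' ψ) (fun h => h0 (by rw [h]; ring))
        exact h0 (by rw [h5]; ring)
    linear_combination -h4

end Pool.Agent.Lib.MP_c37a72_al.PU
end

section
/-!
# MP_c37a72_al, block NI, module DCO: double centraliser of a division subring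

Direct proof: if `q ∉ O` there is a left `O`-linear map `θ : Q → O ≤ Q` with `θ 1 = 0`, `θ q ≠ 0`; by density
`θ x = ∑ α_i x β_i` with a `Z`-basis `β_i`, and `O`-linearity gives `α_i ∈ C(O)`, so `α_i` commutes with `q` and
`θ q = q θ 1 = 0`.
-/
set_option autoImplicit false

open Module

namespace Pool.Agent.Lib.MP_c37a72_al.NI

universe u v w

namespace DCOM

section

variable {Z Q : Type v} [Field Z] [DivisionRing Q] [Algebra Z Q] [Module.Finite Z Q]

omit [Module.Finite Z Q] in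
/-- Coordinates by operators. -/
theorem coord_op (hJD : LB.SpecJD.{v})
    (hcen : ∀ q : Q, (∀ x : Q, x * q = q * x) → ∃ z : Z, algebraMap Z Q z = q)
    (N : ℕ) (β : Basis (Fin N) Z Q) (i0 : Fin N) :
    ∃ (m : ℕ) (a b : Fin m → Q), (∀ i, ∑ l, a l * β i * b l = if i = i0 then 1 else 0) ∧
      ∀ x, ∑ l, a l * x * b l = β.repr x i0 • (1 : Q) := by
  obtain ⟨m, a, b, h⟩ := hJD Z Q hcen N β β.linearIndependent i0
  refine ⟨m, a, b, h, ?_⟩
  let P : Q →ₗ[Z] Q := ∑ l, (LinearMap.mulLeft Z (a l)).comp (LinearMap.mulRight Z (b l))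
  have hP : ∀ x, P x = ∑ l, a l * x * b l := by
    intro x
    simp only [P, LinearMap.sum_apply, LinearMap.comp_apply, LinearMap.mulLeft_apply,
      LinearMap.mulRight_apply, mul_assoc]
  have heq : P = (β.coord i0).smulRight (1 : Q) := by
    apply β.ext
    intro i
    rw [hP, h i, LinearMap.smulRight_apply, Basis.coord_apply, Basis.repr_self,
      Finsupp.single_apply]
    by_cases hi : i = i0
    · rw [if_pos hi, if_pos hi, one_smul]
    · rw [if_neg hi, if_neg hi, zero_smul]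
  intro x
  rw [← hP, heq, LinearMap.smulRight_apply, Basis.coord_apply]

omit [Module.Finite Z Q] in
/-- Every linear map is an operator. -/
theorem all_op (hJD : LB.SpecJD.{v})
    (hcen : ∀ q : Q, (∀ x : Q, x * q = q * x) → ∃ z : Z, algebraMap Z Q z = q)
    (N : ℕ) (β : Basis (Fin N) Z Q) (θ : Q →ₗ[Z] Q) :
    ∃ α : Fin N → Q, ∀ x, θ x = ∑ i, α i * x * β i := by
  choose m a b _ hab using coord_op hJD hcen N β
  refine ⟨fun i => ∑ i0, ∑ l, β.repr (b i0 l) i • (θ (β i0) * a i0 l), fun x => ?_⟩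
  have h1 : ∀ i0 l, ∑ i, (β.repr (b i0 l) i • (θ (β i0) * a i0 l)) * x * β i
      = θ (β i0) * (a i0 l * x * b i0 l) := by
    intro i0 l
    conv_rhs => rw [← β.sum_repr (b i0 l)]
    rw [Finset.mul_sum, Finset.mul_sum]
    refine Finset.sum_congr rfl fun i _ => ?_
    rw [mul_smul_comm, mul_smul_comm, smul_mul_assoc, smul_mul_assoc, mul_assoc, mul_assoc,
      mul_assoc]
  calc θ x = θ (∑ i0, β.repr x i0 • β i0) := by rw [β.sum_repr]
    _ = ∑ i0, β.repr x i0 • θ (β i0) := by simp only [map_sum, map_smul]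
    _ = ∑ i0, ∑ l, θ (β i0) * (a i0 l * x * b i0 l) := by
        refine Finset.sum_congr rfl fun i0 _ => ?_
        rw [← Finset.mul_sum, hab, mul_smul_comm, mul_one]
    _ = ∑ i0, ∑ l, ∑ i, (β.repr (b i0 l) i • (θ (β i0) * a i0 l)) * x * β i := by
        refine Finset.sum_congr rfl fun i0 _ => Finset.sum_congr rfl fun l _ => ?_
        rw [h1]
    _ = ∑ i0, ∑ i, ∑ l, (β.repr (b i0 l) i • (θ (β i0) * a i0 l)) * x * β i :=
        Finset.sum_congr rfl fun i0 _ => Finset.sum_comm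
    _ = ∑ i, ∑ i0, ∑ l, (β.repr (b i0 l) i • (θ (β i0) * a i0 l)) * x * β i :=
        Finset.sum_comm
    _ = _ := by
        refine Finset.sum_congr rfl fun i _ => ?_
        simp only [Finset.sum_mul]

omit [Module.Finite Z Q] in
/-- The coefficients of an operator are unique. -/
theorem uniq_op (hJD : LB.SpecJD.{v})
    (hcen : ∀ q : Q, (∀ x : Q, x * q = q * x) → ∃ z : Z, algebraMap Z Q z = q)
    (N : ℕ) (β : Basis (Fin N) Z Q) (c : Fin N → Q) (h : ∀ x, ∑ i, c i * x * β i = 0) :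
    ∀ i, c i = 0 := by
  intro i0
  obtain ⟨m, a, b, hab, -⟩ := coord_op hJD hcen N β i0
  have h1 : ∑ l, (∑ i, c i * a l * β i) * b l = c i0 := by
    calc ∑ l, (∑ i, c i * a l * β i) * b l = ∑ l, ∑ i, c i * (a l * β i * b l) := by
          refine Finset.sum_congr rfl fun l _ => ?_
          rw [Finset.sum_mul]
          refine Finset.sum_congr rfl fun i _ => ?_
          simp only [mul_assoc]
      _ = ∑ i, ∑ l, c i * (a l * β i * b l) := Finset.sum_comm
      _ = ∑ i, c i * (if i = i0 then 1 else 0) := by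
          refine Finset.sum_congr rfl fun i _ => ?_
          rw [← Finset.mul_sum, hab]
      _ = c i0 := by
          rw [Finset.sum_eq_single i0]
          · rw [if_pos rfl, mul_one]
          · intro i _ hi
            rw [if_neg hi, mul_zero]
          · intro hn; exact absurd (Finset.mem_univ _) hn
  rw [← h1]
  apply Finset.sum_eq_zero
  intro l _
  rw [h, zero_mul]

end

section

variable {O Q : Type v} [DivisionRing O] [AddCommGroup Q] [Module O Q]

theorem exists_functional (v w : Q) (h : ∀ a : O, a • v ≠ w) :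
    ∃ f : Q →ₗ[O] O, f v = 0 ∧ f w ≠ 0 := by
  have hnot : w ∉ Submodule.span O {v} := by
    rw [Submodule.mem_span_singleton]
    rintro ⟨a, ha⟩
    exact h a ha
  obtain ⟨f, hf, hk⟩ := Submodule.exists_le_ker_of_notMem hnot
  exact ⟨f, hk (Submodule.mem_span_singleton_self v), hf⟩

end

end DCOM

open DCOM in
theorem specDCO (hJD : LB.SpecJD.{v}) : SpecDCO.{v} := by
  intro Z Q _ _ _ _ hcen O hO q hq
  by_contra hqO
  obtain ⟨θ, hθ1, hθq, hθ⟩ : ∃ θ : Q →ₗ[Z] Q, θ 1 = 0 ∧ θ q ≠ 0 ∧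
      ∀ o ∈ O, ∀ x, θ (o * x) = o * θ x := by
    let _ : DivisionRing O := DivisionRing.ofIsUnitOrEqZero (fun a => by
      by_cases ha : (a : Q) = 0
      · right; exact Subtype.ext ha
      · left
        refine ⟨⟨a, ⟨(a : Q)⁻¹, hO _ a.2⟩, ?_, ?_⟩, rfl⟩
        · exact Subtype.ext (mul_inv_cancel₀ ha)
        · exact Subtype.ext (inv_mul_cancel₀ ha))
    obtain ⟨f, hf1, hfq⟩ := exists_functional (O := O) (1 : Q) q (fun a ha => by
      apply hqO
      have h1 : (a : Q) * 1 = q := ha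
      rw [← h1, mul_one]
      exact a.2)
    have hf : ∀ o : O, ∀ x : Q, f ((o : Q) * x) = o * f x := fun o x => by
      have := f.map_smul o x
      exact this
    refine ⟨{ toFun := fun x => (f x : Q), map_add' := fun x y => ?_, map_smul' := fun z x => ?_ },
      ?_, ?_, ?_⟩
    · rw [map_add]; rfl
    · have h1 : z • x = ((algebraMap Z O z : O) : Q) * x := by
        rw [Algebra.smul_def]; rfl
      rw [h1, hf]
      change ((algebraMap Z O z : O) : Q) * (f x : Q) = _
      rw [RingHom.id_apply, Algebra.smul_def]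
      rfl
    · change ((f 1 : O) : Q) = 0
      rw [hf1]; rfl
    · change ((f q : O) : Q) ≠ 0
      intro h0
      exact hfq (Subtype.ext h0)
    · intro o ho x
      change ((f (o * x) : O) : Q) = o * (f x : Q)
      have := hf ⟨o, ho⟩ x
      change f (o * x) = _ at this
      rw [this]
      rfl
  obtain ⟨α, hα⟩ := all_op hJD hcen _ (Module.finBasis Z Q) θ
  have hcomm : ∀ i, ∀ o ∈ O, o * α i = α i * o := by
    intro i o ho
    have h1 := uniq_op hJD hcen _ (Module.finBasis Z Q) (fun i => α i * o - o * α i) (fun x => by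
      have h2 := hθ o ho x
      rw [hα, hα, Finset.mul_sum] at h2
      have h3 : ∀ i, (α i * o - o * α i) * x * (Module.finBasis Z Q) i
          = α i * (o * x) * (Module.finBasis Z Q) i
            - o * (α i * x * (Module.finBasis Z Q) i) := by
        intro i
        rw [sub_mul, sub_mul]
        simp only [mul_assoc]
      simp only [h3]
      rw [Finset.sum_sub_distrib, h2, sub_self]) i
    exact (sub_eq_zero.1 h1).symm
  apply hθq
  rw [hα]
  have h4 : ∀ i, α i * q * (Module.finBasis Z Q) i = q * (α i * 1 * (Module.finBasis Z Q) i) := by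
    intro i
    rw [hq (α i) (hcomm i), mul_one, mul_assoc]
  simp only [h4]
  rw [← Finset.mul_sum, ← hα, hθ1, mul_zero]

end Pool.Agent.Lib.MP_c37a72_al.NI
end

section
/-!
# MP_c37a72_al, block NI: module LGI (the logarithms and their relations)
-/
set_option autoImplicit false

open Module

namespace Pool.Agent.Lib.MP_c37a72_al.NI

universe u v w

namespace LGIM

section Gen

variable {F R : Type v} [Field F] [Ring R] [Algebra F R]

theorem com (r : F) {A y : R} (h : A * y = y * A) :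
    (r⁻¹ • (A - algebraMap F R r)) * y = y * (r⁻¹ • (A - algebraMap F R r)) := by
  rw [smul_mul_assoc, mul_smul_comm, sub_mul, mul_sub, h, Algebra.commutes]

theorem nil_smul (r : F) {x : R} (h : IsNilpotent x) : IsNilpotent (r • x) := by
  obtain ⟨m, hm⟩ := h
  exact ⟨m, by rw [smul_pow, hm, smul_zero]⟩

theorem nil_map {R' : Type v} [Ring R'] (φ : R →+* R') {x : R} (h : IsNilpotent x) :
    IsNilpotent (φ x) := by
  obtain ⟨m, hm⟩ := h
  exact ⟨m, by rw [← map_pow, hm, map_zero]⟩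

end Gen

section Mat

variable {R R' : Type v} [Ring R] [Ring R']

theorem mm_apply (φ : R →+* R') (n : ℕ) (A : Matrix (Fin n) (Fin n) R) :
    φ.mapMatrix A = A.map φ := rfl

theorem map_scalar' (φ : R →+* R') (n : ℕ) (x : R) :
    (Matrix.scalar (Fin n) x).map φ = Matrix.scalar (Fin n) (φ x) := by
  ext i j
  by_cases h : i = j
  · subst h
    simp [Matrix.scalar_apply]
  · simp [Matrix.scalar_apply, h]

theorem alg_scalar {F : Type v} [Field F] [Algebra F R] (n : ℕ) (r : F) :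
    algebraMap F (Matrix (Fin n) (Fin n) R) r = Matrix.scalar (Fin n) (algebraMap F R r) := by
  rw [Matrix.algebraMap_eq_diagonal]
  rfl

theorem scalar_comm (n : ℕ) {x : R} {A : Matrix (Fin n) (Fin n) R}
    (h : ∀ i j, x * A i j = A i j * x) :
    Matrix.scalar (Fin n) x * A = A * Matrix.scalar (Fin n) x := by
  ext i j
  rw [Matrix.scalar_apply, Matrix.diagonal_mul, Matrix.mul_diagonal]
  exact h i j

end Mat

/-- the algebraic identity -/
theorem ident {R : Type v} [Ring R] {p q r t x y x' y' c : R} (hx : 1 + x = p) (hy : 1 + y = q)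
    (hx' : 1 + x' = r) (hy' : 1 + y' = t) (h1 : p * q = c) (h2 : r * t = c) :
    x + y + x * y = x' + y' + x' * y' := by
  have e1 : x + y + x * y = (1 + x) * (1 + y) - 1 := by noncomm_ring
  have e2 : x' + y' + x' * y' = (1 + x') * (1 + y') - 1 := by noncomm_ring
  rw [e1, e2, hx, hy, hx', hy', h1, h2]

end LGIM

open LGIM

set_option maxHeartbeats 1000000 in
/-- **LGI** -/
theorem specLGI (hLOG : SpecLOG.{u, v}) : SpecLGI.{u, v} := by
  intro k Z Q K M _ _ _ _ _ _ _ _ _ _ _ _ _ _ O _ _ Δ ℓ l n T TO ρ E δ e h1 h2 h3 h4 h5 h6 h7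
    ν s a hν hs ha
  have hQ0 : CharZero Q := charZero_of_injective_algebraMap (algebraMap k Q).injective
  -- the elements before taking logarithms
  let fQ : E → Q := fun f => algebraMap Z Q (f : Z)
  let fO : E → O := fun f => algebraMap Z O (f : Z)
  have hfQO : ∀ f, ((fO f : O) : Q) = fQ f := fun f => rfl
  have hcen : ∀ (f : E) (q : Q), fQ f * q = q * fQ f := fun f q => Algebra.commutes _ _
  let φQ : Matrix (Fin n) (Fin n) O →+* Matrix (Fin n) (Fin n) Q :=
    (O.val : O →+* Q).mapMatrix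
  let φΔ : Matrix (Fin n) (Fin n) Q →+* Matrix (Fin n) (Fin n) M := (Δ : Q →+* M).mapMatrix
  let φℓ : Matrix (Fin n) (Fin n) O →+* Matrix (Fin n) (Fin n) M := (ℓ : O →+* M).mapMatrix
  have hφQinj : Function.Injective φQ := by
    intro A B hAB
    ext i j
    exact congrFun (congrFun hAB i) j
  have hφQT : ∀ o : O, φQ (TO o) = T (o : Q) := by
    intro o
    ext i j
    exact h1 o i j
  have hφQalg : ∀ z : Z, φQ (algebraMap Z (Matrix (Fin n) (Fin n) O) z) =
      algebraMap Z (Matrix (Fin n) (Fin n) Q) z := by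
    intro z
    rw [alg_scalar, alg_scalar]
    exact map_scalar' (O.val : O →+* Q) n _
  have hφℓalg : ∀ z : Z, φℓ (algebraMap Z (Matrix (Fin n) (Fin n) O) z) =
      algebraMap K (Matrix (Fin n) (Fin n) M) (l z) := by
    intro z
    rw [alg_scalar, alg_scalar, ← h4]
    exact map_scalar' (ℓ : O →+* M) n _
  have hφΔalg : ∀ z : Z, φΔ (algebraMap Z (Matrix (Fin n) (Fin n) Q) z) =
      Matrix.scalar (Fin n) (Δ (algebraMap Z Q z)) := by
    intro z
    rw [alg_scalar]
    exact map_scalar' (Δ : Q →+* M) n _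
  have hφΔT : ∀ q, φΔ (T q) = ρ (Δ q) := fun q => (h2 q).symm
  have hφℓT : ∀ o, φℓ (TO o) = ρ (ℓ o) := fun o => (h3 o).symm
  have hTOmul : ∀ o o' : O, TO o * TO o' = TO (o * o') := by
    intro o o'
    apply hφQinj
    rw [map_mul, hφQT, hφQT, hφQT, ← map_mul]
    rfl
  -- nilpotency before taking logarithms
  have nδ : ∀ f : E, IsNilpotent (ρ (algebraMap K M (δ f)) -
      algebraMap K (Matrix (Fin n) (Fin n) M) (δ f)) := by
    intro f
    have c1 : ρ (Δ (fQ f)) * Matrix.scalar (Fin n) (Δ (fQ f)) =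
        Matrix.scalar (Fin n) (Δ (fQ f)) * ρ (Δ (fQ f)) := by
      rw [h2]
      refine (scalar_comm n fun i j => ?_).symm
      rw [Matrix.map_apply, ← map_mul, hcen, map_mul]
    have n1 : IsNilpotent (ρ (Δ (fQ f)) - Matrix.scalar (Fin n) (Δ (fQ f))) := by
      have := nil_map φΔ (nil_map φQ (h6 f))
      rw [map_sub, map_sub, hφQT, hφQalg, hφΔT, hφΔalg] at this
      exact this
    have n2 : IsNilpotent (Matrix.scalar (Fin n) (Δ (fQ f) - algebraMap K M (δ f))) :=
      nil_map _ (h7 f)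
    have n3 : IsNilpotent (ρ (Δ (fQ f)) - algebraMap K (Matrix (Fin n) (Fin n) M) (δ f)) := by
      have e1 : ρ (Δ (fQ f)) - algebraMap K (Matrix (Fin n) (Fin n) M) (δ f) =
          (ρ (Δ (fQ f)) - Matrix.scalar (Fin n) (Δ (fQ f))) +
            Matrix.scalar (Fin n) (Δ (fQ f) - algebraMap K M (δ f)) := by
        rw [map_sub, alg_scalar]
        abel
      rw [e1]
      refine Commute.isNilpotent_add ?_ n1 n2
      rw [map_sub, ← alg_scalar (R := M) n (δ f)]
      refine Commute.sub_left (Commute.sub_right c1 ?_) (Commute.sub_right (Commute.refl _) ?_)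
      · exact (Algebra.commutes (δ f) _).symm
      · exact (Algebra.commutes (δ f) _).symm
    have n4 : IsNilpotent (ρ (Δ (fQ f) - algebraMap K M (δ f))) :=
      nil_map (ρ : M →+* Matrix (Fin n) (Fin n) M) (h7 f)
    have e2 : ρ (algebraMap K M (δ f)) - algebraMap K (Matrix (Fin n) (Fin n) M) (δ f) =
        (ρ (Δ (fQ f)) - algebraMap K (Matrix (Fin n) (Fin n) M) (δ f)) -
          ρ (Δ (fQ f) - algebraMap K M (δ f)) := by
      rw [map_sub]
      abel
    rw [e2]
    refine Commute.isNilpotent_sub ?_ n3 n4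
    refine Commute.sub_left ?_ (Algebra.commutes (δ f) _)
    change ρ (Δ (fQ f)) * ρ (Δ (fQ f) - algebraMap K M (δ f)) =
      ρ (Δ (fQ f) - algebraMap K M (δ f)) * ρ (Δ (fQ f))
    rw [← map_mul, ← map_mul, mul_sub, sub_mul, Algebra.commutes]
  have nν : ∀ f : E, IsNilpotent ((f : Z)⁻¹ • (TO (fO f) -
      algebraMap Z (Matrix (Fin n) (Fin n) O) (f : Z))) := fun f => nil_smul _ (h6 f)
  have ns : ∀ f : E, IsNilpotent ((δ f)⁻¹ • (Δ (fQ f) - algebraMap K M (δ f))) :=
    fun f => nil_smul _ (h7 f)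
  have na : ∀ f : E, IsNilpotent ((δ f)⁻¹ • (ρ (algebraMap K M (δ f)) -
      algebraMap K (Matrix (Fin n) (Fin n) M) (δ f))) := fun f => nil_smul _ (nδ f)
  -- images of the elements
  have hφQs : ∀ f : E, φQ ((f : Z)⁻¹ • (TO (fO f) -
      algebraMap Z (Matrix (Fin n) (Fin n) O) (f : Z))) =
      (f : Z)⁻¹ • (T (fQ f) - algebraMap Z (Matrix (Fin n) (Fin n) Q) (f : Z)) := by
    intro f
    rw [Algebra.smul_def, map_mul, map_sub, hφQT, hφQalg, hφQalg, Algebra.smul_def]
    rfl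
  have hφℓs : ∀ f : E, φℓ ((f : Z)⁻¹ • (TO (fO f) -
      algebraMap Z (Matrix (Fin n) (Fin n) O) (f : Z))) =
      (l f)⁻¹ • (ρ (algebraMap K M (l (f : Z))) -
        algebraMap K (Matrix (Fin n) (Fin n) M) (l (f : Z))) := by
    intro f
    rw [Algebra.smul_def, map_mul, map_sub, hφℓT, hφℓalg, hφℓalg, h4, map_inv₀ l,
      ← Algebra.smul_def]
  have hνQ : ∀ f, (ν f).map (fun o : O => (o : Q)) =
      ulog ((f : Z)⁻¹ • (T (fQ f) - algebraMap Z (Matrix (Fin n) (Fin n) Q) (f : Z))) := by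
    intro f
    have e1 := hLOG.2.1 _ _ φQ _ (nν f)
    rw [hφQs f] at e1
    rw [hν f]
    exact e1
  have nνQ : ∀ f : E, IsNilpotent ((f : Z)⁻¹ • (T (fQ f) -
      algebraMap Z (Matrix (Fin n) (Fin n) Q) (f : Z))) := by
    intro f
    have := nil_map φQ (nν f)
    rw [hφQs f] at this
    exact this
  have cδ : ∀ (f : E) (m : M), ρ (algebraMap K M (δ f)) * ρ m = ρ m * ρ (algebraMap K M (δ f)) := by
    intro f m
    rw [← map_mul ρ (algebraMap K M (δ f)) m, Algebra.commutes, map_mul]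
  have cΔ : ∀ (f : E) (q : Q), Δ (fQ f) * Δ q = Δ q * Δ (fQ f) := by
    intro f q
    rw [← map_mul, hcen, map_mul]
  refine ⟨?_, ?_, ?_, ?_, ?_, ?_, ?_, ?_, ?_, ?_⟩
  · intro f
    refine ⟨?_, ?_, ?_, nδ f⟩
    · rw [hν f]
      exact (hLOG.1 _ _ (nν f)).1
    · rw [hs f]
      exact (hLOG.1 _ _ (ns f)).1
    · rw [ha f]
      exact (hLOG.1 _ _ (na f)).1
  · intro f g
    refine ⟨?_, ?_, ?_⟩
    · rw [hν f, hν g]
      refine (hLOG.1 _ _ (nν f)).2.1 _ (com _ ?_)
      refine ((hLOG.1 _ _ (nν g)).2.1 _ (com _ ?_)).symm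
      rw [hTOmul, hTOmul]
      exact congrArg TO (Algebra.commutes (g : Z) (fO f))
    · rw [hs f, hs g]
      refine (hLOG.1 _ _ (ns f)).2.1 _ (com _ ?_)
      refine ((hLOG.1 _ _ (ns g)).2.1 _ (com _ ?_)).symm
      exact cΔ g (fQ f)
    · rw [ha f, ha g]
      refine (hLOG.1 _ _ (na f)).2.1 _ (com _ ?_)
      refine ((hLOG.1 _ _ (na g)).2.1 _ (com _ ?_)).symm
      exact cδ g _
  · intro f q
    rw [hs f]
    exact (hLOG.1 _ _ (ns f)).2.1 _ (com _ (cΔ f q))
  · intro f m
    rw [ha f]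
    exact ((hLOG.1 _ _ (na f)).2.1 _ (com _ (cδ f m))).symm
  · intro f hf
    have hf0 : (f : Z) ≠ 0 := fun h => hf (Subtype.ext h)
    have hδ0 : δ f ≠ 0 := (map_ne_zero δ).2 hf
    set sc : M →+* Matrix (Fin n) (Fin n) M := Matrix.scalar (Fin n) with hsc
    set x : Matrix (Fin n) (Fin n) Q := (f : Z)⁻¹ • (T (fQ f) -
      algebraMap Z (Matrix (Fin n) (Fin n) Q) (f : Z)) with hx
    set y : M := (δ f)⁻¹ • (Δ (fQ f) - algebraMap K M (δ f)) with hy
    set y' : Matrix (Fin n) (Fin n) M := (δ f)⁻¹ • (ρ (algebraMap K M (δ f)) -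
      algebraMap K (Matrix (Fin n) (Fin n) M) (δ f)) with hy'
    -- the four logarithms
    have L1 : (ν f).map (fun o : O => Δ (o : Q)) = ulog (φΔ x) := by
      have e1 := hLOG.2.1 _ _ φΔ x (nνQ f)
      rw [← hνQ f] at e1
      rw [← e1]
      rfl
    have L2 : sc (s f) = ulog (sc y) := by
      rw [hs f]
      exact hLOG.2.1 _ _ sc y (ns f)
    have L3 : ρ (s f) = ulog (ρ y) := by
      rw [hs f]
      exact hLOG.2.1 _ _ (ρ : M →+* Matrix (Fin n) (Fin n) M) y (ns f)
    have L4 : a f = ulog y' := ha f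
    -- 1 + x etc.
    have hΔ0 : Δ (algebraMap Z Q (f : Z)⁻¹) * Δ (fQ f) = 1 := by
      rw [← map_mul, ← map_mul, inv_mul_cancel₀ hf0, map_one, map_one]
    have hΔ0' : Δ (fQ f) * Δ (algebraMap Z Q (f : Z)⁻¹) = 1 := by
      rw [← map_mul, ← map_mul, mul_inv_cancel₀ hf0, map_one, map_one]
    have E1 : 1 + φΔ x = sc (Δ (algebraMap Z Q (f : Z)⁻¹)) * ρ (Δ (fQ f)) := by
      rw [hx, Algebra.smul_def, map_mul, map_sub, hφΔalg, hφΔalg, hφΔT, mul_sub]
      change 1 + (sc _ * _ - sc _ * sc (Δ (fQ f))) = _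
      rw [← map_mul sc, hΔ0, map_one]
      abel
    have E2 : 1 + sc y = sc ((δ f)⁻¹ • Δ (fQ f)) := by
      have : 1 + sc y = sc (1 + y) := by rw [map_add, map_one]
      rw [this, hy, smul_sub, Algebra.smul_def (δ f)⁻¹ (algebraMap K M (δ f)), ← map_mul,
        inv_mul_cancel₀ hδ0, map_one]
      congr 1
      abel
    have E3 : 1 + ρ y = ρ ((δ f)⁻¹ • Δ (fQ f)) := by
      have : 1 + ρ y = ρ (1 + y) := by rw [map_add, map_one]
      rw [this, hy, smul_sub, Algebra.smul_def (δ f)⁻¹ (algebraMap K M (δ f)), ← map_mul,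
        inv_mul_cancel₀ hδ0, map_one]
      congr 1
      abel
    have E4 : 1 + y' = (δ f)⁻¹ • ρ (algebraMap K M (δ f)) := by
      rw [hy', smul_sub, Algebra.smul_def (δ f)⁻¹ (algebraMap K (Matrix (Fin n) (Fin n) M) (δ f)),
        ← map_mul, inv_mul_cancel₀ hδ0, map_one]
      abel
    have cs : ∀ q : Q, sc (Δ (fQ f)) * ρ (Δ q) = ρ (Δ q) * sc (Δ (fQ f)) := by
      intro q
      rw [h2]
      refine scalar_comm n fun i j => ?_
      rw [Matrix.map_apply]
      exact cΔ f _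
    have cs' : ∀ q : Q, sc (Δ (algebraMap Z Q (f : Z)⁻¹)) * ρ (Δ q) =
        ρ (Δ q) * sc (Δ (algebraMap Z Q (f : Z)⁻¹)) := by
      intro q
      rw [h2]
      refine scalar_comm n fun i j => ?_
      rw [Matrix.map_apply, ← map_mul, Algebra.commutes, map_mul]
    have P1 : (sc (Δ (algebraMap Z Q (f : Z)⁻¹)) * ρ (Δ (fQ f))) * sc ((δ f)⁻¹ • Δ (fQ f)) =
        (δ f)⁻¹ • ρ (Δ (fQ f)) := by
      have e1 : sc ((δ f)⁻¹ • Δ (fQ f)) = (δ f)⁻¹ • sc (Δ (fQ f)) := by
        ext i j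
        rw [Matrix.smul_apply, hsc, Matrix.scalar_apply, Matrix.scalar_apply]
        by_cases hij : i = j
        · subst hij
          rw [Matrix.diagonal_apply_eq, Matrix.diagonal_apply_eq]
        · rw [Matrix.diagonal_apply_ne _ hij, Matrix.diagonal_apply_ne _ hij, smul_zero]
      rw [e1, mul_smul_comm, mul_assoc, ← cs, ← mul_assoc, ← map_mul sc, hΔ0, map_one, one_mul]
    have P2 : ρ ((δ f)⁻¹ • Δ (fQ f)) * ((δ f)⁻¹ • ρ (algebraMap K M (δ f))) =
        (δ f)⁻¹ • ρ (Δ (fQ f)) := by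
      rw [mul_smul_comm, ← map_mul ρ, smul_mul_assoc, ← Algebra.commutes, ← Algebra.smul_def,
        smul_smul, inv_mul_cancel₀ hδ0, one_smul]
    have hid := ident E1 E2 E3 E4 P1 P2
    have A1 := (hLOG.1 _ (φΔ x) (nil_map φΔ (nνQ f))).2.2.2.2 (sc y) (nil_map sc (ns f)) ?_
    have A2 := (hLOG.1 _ (ρ y) (nil_map (ρ : M →+* Matrix (Fin n) (Fin n) M) (ns f))).2.2.2.2
      y' (na f) ?_
    · rw [L1, L2, L3, L4, ← A1, ← A2, hid]
    · -- ρ y commutes with y'
      rw [hy']
      refine (com _ ?_).symm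
      exact cδ f y
    · -- φΔ x commutes with sc y
      refine (scalar_comm n fun i j => ?_).symm
      rw [hy]
      exact com _ (cΔ f (x i j))
  · intro f q
    rw [hνQ f]
    refine (hLOG.1 _ _ (nνQ f)).2.1 _ (com _ ?_)
    rw [← map_mul, ← map_mul, hcen]
  · intro f
    have e1 := hLOG.2.1 _ _ φℓ _ (nν f)
    rw [hφℓs f] at e1
    rw [hν f]
    exact e1
  · intro f
    have e1 := nil_map φℓ (h6 f)
    rw [map_sub, hφℓT, hφℓalg, h4] at e1
    exact e1
  · intro f i
    let N : Submodule ℚ (Matrix (Fin n) (Fin n) Q) :=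
      { carrier := {Y | ∀ i, ∑ p, e p * Y p i = 0}
        add_mem' := by
          intro Y Y' hY hY' i
          simp only [Matrix.add_apply, mul_add, Finset.sum_add_distrib]
          rw [hY i, hY' i, add_zero]
        zero_mem' := by
          intro i
          simp
        smul_mem' := by
          intro r Y hY i
          simp only [Matrix.smul_apply, mul_smul_comm]
          rw [← Finset.smul_sum, hY i, smul_zero] }
    have hN : ∀ Y ∈ N, ∀ Y' : Matrix (Fin n) (Fin n) Q, Y * Y' ∈ N := by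
      intro Y hY Y' i
      have e1 : ∀ p, e p * (Y * Y') p i = ∑ q, e p * Y p q * Y' q i := by
        intro p
        rw [Matrix.mul_apply, Finset.mul_sum]
        refine Finset.sum_congr rfl fun q _ => ?_
        rw [mul_assoc]
      simp only [e1]
      rw [Finset.sum_comm]
      refine Finset.sum_eq_zero fun q _ => ?_
      rw [← Finset.sum_mul, hY q, zero_mul]
    have hX : (f : Z)⁻¹ • (T (fQ f) - algebraMap Z (Matrix (Fin n) (Fin n) Q) (f : Z)) ∈ N := by
      intro i
      have e1 : ∀ p, e p * ((f : Z)⁻¹ • (T (fQ f) -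
          algebraMap Z (Matrix (Fin n) (Fin n) Q) (f : Z))) p i =
          (f : Z)⁻¹ • (e p * T (fQ f) p i -
            e p * algebraMap Z (Matrix (Fin n) (Fin n) Q) (f : Z) p i) := by
        intro p
        rw [Matrix.smul_apply, mul_smul_comm, Matrix.sub_apply, mul_sub]
      simp only [e1]
      rw [← Finset.smul_sum, Finset.sum_sub_distrib, h5]
      have e2 : ∑ p, e p * algebraMap Z (Matrix (Fin n) (Fin n) Q) (f : Z) p i =
          e i * fQ f := by
        rw [Finset.sum_eq_single i]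
        · rw [Matrix.algebraMap_matrix_apply, if_pos rfl]
        · intro p _ hp
          rw [Matrix.algebraMap_matrix_apply, if_neg hp, mul_zero]
        · intro h
          exact absurd (Finset.mem_univ i) h
      rw [e2, hcen, sub_self, smul_zero]
    have h8 := (hLOG.1 _ _ (nνQ f)).2.2.2.1 N hX (fun y _ => hN _ hX y)
    rw [← hνQ f] at h8
    exact h8 i
  · intro f hf h0
    have hf0 : (f : Z) ≠ 0 := fun h => hf (Subtype.ext h)
    have e1 := hνQ f
    rw [h0] at e1
    have e2 : (0 : Matrix (Fin n) (Fin n) O).map (fun o : O => (o : Q)) = 0 := by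
      ext i j
      rfl
    rw [e2] at e1
    have e3 := (hLOG.1 _ _ (nνQ f)).2.2.1 e1.symm
    rw [smul_eq_zero] at e3
    rcases e3 with e3 | e3
    · exact absurd e3 (inv_ne_zero hf0)
    · exact sub_eq_zero.1 e3

end Pool.Agent.Lib.MP_c37a72_al.NI
end

section
/-!
# MP_c37a72_al, block NI, module NLF (helper60)

`N_f = T(f) - f` is nilpotent.
-/
set_option autoImplicit false

open scoped TensorProduct
open Coalgebra HopfAlgebra Module
open Pool.Agent.Lib.MP_c37a72_al.LB

namespace Pool.Agent.Lib.MP_c37a72_al.NI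

universe u v w

namespace NLFM

variable {k : Type*} {Q R2 : Type*} [Field k] [Ring Q] [Algebra k Q] [Ring R2] [Algebra k R2]

/-- `ad(D z)^m (X) = X D(N^m)`. -/
theorem key (D : Q →ₐ[k] R2) {n : ℕ} (X : Fin n → R2) (T : Q →ₐ[k] Matrix (Fin n) (Fin n) Q)
    (hrule : ∀ q i, D q * X i = ∑ l, X l * D (T q l i)) (z : Q) (hz : ∀ q, q * z = z * q)
    (m : ℕ) (i : Fin n) :
    ((LinearMap.mulLeft k (D z) - LinearMap.mulRight k (D z)) ^ m) (X i) =
      ∑ l, X l * D (((T z - Matrix.scalar (Fin n) z) ^ m) l i) := by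
  induction m with
  | zero =>
    rw [pow_zero, pow_zero, Module.End.one_apply, Finset.sum_eq_single i]
    · rw [Matrix.one_apply_eq, map_one, mul_one]
    · intro l _ hl
      rw [Matrix.one_apply_ne hl, map_zero, mul_zero]
    · intro hi
      exact absurd (Finset.mem_univ i) hi
  | succ m ih =>
    rw [pow_succ' (LinearMap.mulLeft k (D z) - LinearMap.mulRight k (D z)), Module.End.mul_apply,
      ih, pow_succ' (T z - Matrix.scalar (Fin n) z)]
    generalize (T z - Matrix.scalar (Fin n) z) ^ m = A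
    have h1 : ∀ p, ((T z - Matrix.scalar (Fin n) z) * A) p i =
        (∑ l, T z p l * A l i) - A p i * z := by
      intro p
      rw [sub_mul, Matrix.sub_apply, Matrix.mul_apply, Matrix.scalar_apply, Matrix.diagonal_mul,
        hz]
    simp only [h1, map_sub, map_sum, map_mul, mul_sub, Finset.sum_sub_distrib,
      LinearMap.sub_apply, LinearMap.mulLeft_apply, LinearMap.mulRight_apply, Finset.mul_sum]
    congr 1
    · simp only [← mul_assoc, hrule, Finset.sum_mul]
      exact Finset.sum_comm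
    · simp only [mul_assoc]

/-- `ad` of a nilpotent element is nilpotent. -/
theorem ad_nil {u : R2} (hu : IsNilpotent u) :
    IsNilpotent (LinearMap.mulLeft k u - LinearMap.mulRight k u) := by
  obtain ⟨r, hr⟩ := hu
  apply Commute.isNilpotent_sub
  · exact LinearMap.commute_mulLeft_right u u
  · refine ⟨r, ?_⟩
    rw [LinearMap.pow_mulLeft, hr, LinearMap.mulLeft_zero_eq_zero]
  · refine ⟨r, ?_⟩
    rw [LinearMap.pow_mulRight, hr, LinearMap.mulRight_zero_eq_zero]

end NLFM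

open NLFM in
/-- **NLF**. -/
theorem specNLF (hMIS : LB.SpecMIS.{u, v}) : SpecNLF.{u, v} := by
  intro k H Z Q F2 R2 _ _ _ _ _ _ _ _ _ _ _ _ _ _ _ _ ι jF j D hQ hR hS M K hMK n T e he heM
    hrule z d hd hnil
  obtain ⟨m, hm⟩ := ad_nil (k := k) hnil
  have hz : ∀ q : Q, q * algebraMap Z Q z = algebraMap Z Q z * q := fun q =>
    (Algebra.commutes z q).symm
  generalize algebraMap Z Q z = q at hnil hm hz ⊢
  -- on `M` the operators `ad (D q)` and `ad (D q - d)` agree
  have h1 : ∀ (s : ℕ) (y : R2), y ∈ M →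
      ((LinearMap.mulLeft k (D q - d) - LinearMap.mulRight k (D q - d)) ^ s) y ∈ M ∧
      ((LinearMap.mulLeft k (D q) - LinearMap.mulRight k (D q)) ^ s) y =
        ((LinearMap.mulLeft k (D q - d) - LinearMap.mulRight k (D q - d)) ^ s) y := by
    intro s
    induction s with
    | zero =>
      intro y hy
      exact ⟨hy, rfl⟩
    | succ s ih =>
      intro y hy
      obtain ⟨h2, h3⟩ := ih y hy
      rw [pow_succ' (LinearMap.mulLeft k (D q - d) - LinearMap.mulRight k (D q - d)),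
        pow_succ' (LinearMap.mulLeft k (D q) - LinearMap.mulRight k (D q)), Module.End.mul_apply,
        Module.End.mul_apply, h3]
      generalize ((LinearMap.mulLeft k (D q - d) - LinearMap.mulRight k (D q - d)) ^ s) y = w
        at h2
      have h4 := hMK.comm d hd w h2
      have hu : D q - d ∈ M := M.sub_mem (hMK.D_mem q) (hMK.le hd)
      constructor
      · exact M.sub_mem (M.mul_mem hu h2) (M.mul_mem h2 hu)
      · show D q * w - w * D q = (D q - d) * w - w * (D q - d)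
        rw [sub_mul, mul_sub, h4]
        abel
  refine ⟨m, ?_⟩
  ext l i
  have h5 := key D (fun i => j (e i ⊗ₜ[k] 1)) T hrule q hz m i
  rw [(h1 m _ (heM i)).2, hm, LinearMap.zero_apply] at h5
  exact (hMIS k H Z Q F2 R2 ι jF j D hQ hR hS n e he
    (fun l => ((T q - Matrix.scalar (Fin n) q) ^ m) l i)).1 h5.symm l

end Pool.Agent.Lib.MP_c37a72_al.NI
end

section
set_option autoImplicit false

namespace Pool.Agent.Lib.MP_c37a72_al.NI.SELM

/-- in a Noetherian module the span of a family is the span of finitely many members. -/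
theorem fin {K A ι : Type*} [Field K] [AddCommGroup A] [Module K A] [Module.Finite K A]
    (a : ι → A) : ∃ s : Finset ι, Submodule.span K (Set.range a) ≤ Submodule.span K (a '' (s : Set ι)) := by
  classical
  have hfg : (Submodule.span K (Set.range a)).FG := IsNoetherian.noetherian _
  obtain ⟨t, ht1, ht2⟩ := (Submodule.fg_span_iff_fg_span_finset_subset _).1 hfg
  have ht1' : (t : Set A) ⊆ a '' (Set.univ : Set ι) := by
    rw [Set.image_univ]; exact ht1
  obtain ⟨s, -, hs⟩ := Finset.subset_set_image_iff.1 ht1'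
  refine ⟨s, ?_⟩
  rw [ht2, ← hs, Finset.coe_image]

/-- a larger finite set, enumerated, also spans. -/
theorem sand {K A ι : Type*} [Field K] [AddCommGroup A] [Module K A] (a : ι → A) (s U : Finset ι)
    (hs : Submodule.span K (Set.range a) ≤ Submodule.span K (a '' (s : Set ι))) (hU : s ⊆ U) :
    Submodule.span K (Set.range (a ∘ fun j : Fin U.card => ((U.equivFin.symm j : U) : ι))) =
      Submodule.span K (Set.range a) := by
  refine le_antisymm (Submodule.span_mono ?_) (hs.trans (Submodule.span_mono ?_))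
  · rintro _ ⟨j, rfl⟩
    exact ⟨_, rfl⟩
  · rintro _ ⟨x, hx, rfl⟩
    refine ⟨U.equivFin ⟨x, hU hx⟩, ?_⟩
    simp

end Pool.Agent.Lib.MP_c37a72_al.NI.SELM

namespace Pool.Agent.Lib.MP_c37a72_al.NI

universe v

/-- **SEL**: one finite selection of indices for three families. -/
theorem specSEL : SpecSEL.{v} := by
  classical
  intro K Z A C _ _ _ _ _ _ _ _ ι a b c
  obtain ⟨s, hs⟩ := SELM.fin (K := K) a
  obtain ⟨t, ht⟩ := SELM.fin (K := K) b
  obtain ⟨w, hw⟩ := SELM.fin (K := Z) c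
  have h1 : s ⊆ s ∪ (t ∪ w) := Finset.subset_union_left
  have h2 : t ⊆ s ∪ (t ∪ w) := Finset.subset_union_left.trans Finset.subset_union_right
  have h3 : w ⊆ s ∪ (t ∪ w) := Finset.subset_union_right.trans Finset.subset_union_right
  exact ⟨_, _, SELM.sand a s _ hs h1, SELM.sand b t _ ht h2, SELM.sand c w _ hw h3⟩

end Pool.Agent.Lib.MP_c37a72_al.NI
end

section
/-!
# MP_c37a72_al, block NI: module SPN (span lemma)
-/
set_option autoImplicit false
set_option linter.unusedSectionVars false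

open Polynomial

namespace Pool.Agent.Lib.MP_c37a72_al.NI

universe u v w

namespace SPNM

section Comm

variable {k : Type u} {E K A : Type v} [Field k] [Infinite k] [Field E] [Algebra k E] [Field K]
  [CharZero K] [Algebra k K] [CommRing A] [Algebra ℚ A] [Algebra K A] [Algebra k A]
  [IsScalarTower k K A] (ρ : K →ₐ[k] A)

/-- the difference of `ρ` and the structure map -/
def al (c : K) : A := ρ c - algebraMap K A c

theorem rho_eq (c : K) : ρ c = algebraMap K A c + al ρ c := by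
  unfold al
  ring

theorem al_add (c c' : K) : al ρ (c + c') = al ρ c + al ρ c' := by
  unfold al
  rw [map_add, map_add]
  ring

theorem al_mul (c c' : K) :
    al ρ (c * c') = al ρ c * al ρ c' + c • al ρ c' + c' • al ρ c := by
  rw [Algebra.smul_def, Algebra.smul_def]
  unfold al
  rw [map_mul, map_mul]
  ring

theorem al_k (l : k) : al ρ (algebraMap k K l) = 0 := by
  unfold al
  rw [AlgHom.commutes, ← IsScalarTower.algebraMap_apply, sub_self]

theorem al_zero : al ρ (0 : K) = 0 := by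
  unfold al
  rw [map_zero, map_zero, sub_self]

variable (d : E →ₐ[k] K)

/-- the span -/
def VV : Submodule K A := Submodule.span K (Set.range fun f : E => al ρ (d f))

theorem VV_mul : VV ρ d * VV ρ d ≤ VV ρ d := by
  unfold VV
  rw [Submodule.span_mul_span, Submodule.span_le]
  rintro _ ⟨_, ⟨f, rfl⟩, _, ⟨g, rfl⟩, rfl⟩
  have h1 : al ρ (d f) * al ρ (d g) = al ρ (d (f * g)) - d f • al ρ (d g) - d g • al ρ (d f) := by
    rw [map_mul, al_mul]
    abel
  change al ρ (d f) * al ρ (d g) ∈ _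
  rw [h1]
  refine Submodule.sub_mem _ (Submodule.sub_mem _ ?_ ?_) ?_
  · exact Submodule.subset_span ⟨f * g, rfl⟩
  · exact Submodule.smul_mem _ _ (Submodule.subset_span ⟨g, rfl⟩)
  · exact Submodule.smul_mem _ _ (Submodule.subset_span ⟨f, rfl⟩)

theorem VV_nil (hd : ∀ f : E, IsNilpotent (al ρ (d f))) {x : A} (hx : x ∈ VV ρ d) :
    IsNilpotent x := by
  unfold VV at hx
  induction hx using Submodule.span_induction with
  | mem x hx =>
    obtain ⟨f, rfl⟩ := hx
    exact hd f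
  | zero => exact IsNilpotent.zero
  | add x y _ _ hx hy => exact (Commute.all x y).isNilpotent_add hx hy
  | smul a x _ hx =>
    obtain ⟨n, hn⟩ := hx
    exact ⟨n, by rw [_root_.smul_pow, hn, smul_zero]⟩

/-- inverse of `1 + x` stays in the span -/
theorem aux_inv (V : Submodule K A) (hV : V * V ≤ V) {u x : A} (hu : u ∈ V) (hun : IsNilpotent u)
    (hx : x ∈ V) {y : A} (hy : y * (1 + u) = x) : y ∈ V := by
  obtain ⟨n, hn⟩ := hun
  have h1 : ∀ m : ℕ, y * u ^ m ∈ V → y ∈ V := by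
    intro m
    induction m with
    | zero => intro h; simpa using h
    | succ m ih =>
      intro h
      apply ih
      have h2 : y * u ^ m = x * u ^ m - y * u ^ (m + 1) := by
        rw [← hy]
        ring
      rw [h2]
      refine Submodule.sub_mem _ ?_ h
      clear h h2 ih
      induction m with
      | zero => simpa using hx
      | succ m ih =>
        rw [pow_succ, ← mul_assoc]
        exact hV (Submodule.mul_mem_mul ih hu)
  exact h1 n (by rw [hn, mul_zero]; exact V.zero_mem)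

theorem al_inv {c : K} (hc : c ≠ 0) :
    al ρ c⁻¹ * (1 + c⁻¹ • al ρ c) = - (c⁻¹ ^ 2 • al ρ c) := by
  have h1 : ρ c⁻¹ * ρ c = 1 := by
    rw [← map_mul, inv_mul_cancel₀ hc, map_one]
  rw [rho_eq ρ c⁻¹, rho_eq ρ c] at h1
  have h2 : algebraMap K A c⁻¹ * algebraMap K A c = 1 := by
    rw [← map_mul, inv_mul_cancel₀ hc, map_one]
  rw [Algebra.smul_def, Algebra.smul_def, map_pow]
  generalize algebraMap K A c⁻¹ = p at *
  generalize algebraMap K A c = q at *
  generalize al ρ c⁻¹ = x at *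
  generalize al ρ c = y at *
  have h3 : p * (p * y + x * q + x * y) = 0 := by
    have : p * y + x * q + x * y = (p + x) * (q + y) - p * q := by ring
    rw [this, h1, h2]
    ring
  have h4 : x * (p * q) = x := by rw [h2, mul_one]
  calc x * (1 + p * y) = x * (p * q) + x * (p * y) := by rw [h4]; ring
    _ = p * (p * y + x * q + x * y) - p ^ 2 * y := by ring
    _ = - (p ^ 2 * y) := by rw [h3]; ring

theorem field_mem (hd : ∀ f : E, IsNilpotent (al ρ (d f))) (Z1 : Set K)
    (hZ : ∀ z ∈ Z1, al ρ z = 0) (c : K)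
    (hc : c ∈ IntermediateField.adjoin k (Set.range d ∪ Z1)) : al ρ c ∈ VV ρ d := by
  induction hc using IntermediateField.adjoin_induction with
  | mem x hx =>
    rcases hx with ⟨f, rfl⟩ | hx
    · exact Submodule.subset_span ⟨f, rfl⟩
    · rw [hZ x hx]
      exact Submodule.zero_mem _
  | algebraMap l =>
    rw [al_k]
    exact Submodule.zero_mem _
  | add x y _ _ hx hy =>
    rw [al_add]
    exact Submodule.add_mem _ hx hy
  | inv x _ hx =>
    by_cases hx0 : x = 0
    · rw [hx0, inv_zero, al_zero]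
      exact Submodule.zero_mem _
    · refine aux_inv (VV ρ d) (VV_mul ρ d) (u := x⁻¹ • al ρ x) (Submodule.smul_mem _ _ hx) ?_
        (Submodule.neg_mem _ (Submodule.smul_mem _ _ hx)) (al_inv ρ hx0)
      exact VV_nil ρ d hd (Submodule.smul_mem _ _ hx)
  | mul x y _ _ hx hy =>
    rw [al_mul]
    exact Submodule.add_mem _ (Submodule.add_mem _ (VV_mul ρ d (Submodule.mul_mem_mul hx hy))
      (Submodule.smul_mem _ _ hy)) (Submodule.smul_mem _ _ hx)

theorem desc {Q : ℕ → Prop} (h : ∀ j, Q (j + 1) → Q j) {N : ℕ} (hN : Q N) : Q 0 := by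
  induction N with
  | zero => exact hN
  | succ n ih => exact ih (h n hN)

/-- the algebra generated by `a` as a submodule -/
def TT (K : Type v) {A : Type v} [Field K] [CommRing A] [Algebra K A] (a : A) : Submodule K A :=
  Subalgebra.toSubmodule (Algebra.adjoin K {a})

theorem TT_mul {a x y : A} (hx : x ∈ TT K a) (hy : y ∈ TT K a) : x * y ∈ TT K a :=
  (Algebra.adjoin K {a}).mul_mem hx hy

theorem TT_pow {a x : A} (hx : x ∈ TT K a) (n : ℕ) : x ^ n ∈ TT K a :=
  (Algebra.adjoin K {a}).pow_mem hx n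

theorem TT_self (a : A) : a ∈ TT K a := Algebra.self_mem_adjoin_singleton K a

theorem TT_alg (a : A) (c : K) : algebraMap K A c ∈ TT K a :=
  (Algebra.adjoin K {a}).algebraMap_mem c

theorem TT_aeval (a : A) (p : K[X]) : aeval a p ∈ TT K a := by
  change aeval a p ∈ Algebra.adjoin K {a}
  exact Polynomial.aeval_mem_adjoin_singleton K a

theorem TT_dec {a x : A} (hx : x ∈ TT K a) : ∃ (c : K) (y : A), y ∈ TT K a ∧
    x = algebraMap K A c + a * y := by
  change x ∈ Algebra.adjoin K {a} at hx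
  rw [Algebra.adjoin_singleton_eq_range_aeval] at hx
  obtain ⟨p, rfl⟩ := hx
  refine ⟨p.coeff 0, aeval a p.divX, TT_aeval a _, ?_⟩
  have h1 : aeval a p = aeval a (p.divX * X + C (p.coeff 0)) := by rw [divX_mul_X_add]
  change aeval a p = _
  rw [h1, map_add, map_mul, aeval_X, aeval_C]
  ring

theorem mulT {V : Submodule K A} {a x y : A} (hx : x ∈ V * TT K a) (hy : y ∈ TT K a) :
    x * y ∈ V * TT K a := by
  induction hx using Submodule.mul_induction_on' with
  | mem_mul_mem v hv t ht =>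
    rw [mul_assoc]
    exact Submodule.mul_mem_mul hv (TT_mul ht hy)
  | add x _ z _ hx hz =>
    rw [add_mul]
    exact Submodule.add_mem _ hx hz

/-- if `a ∈ V K[a]` and `V` is nilpotent then `a ∈ V` -/
theorem absorb {V : Submodule K A} (hV : V * V ≤ V) {a : A} (ha : a ∈ V * TT K a) {N : ℕ}
    (hN : V ^ (N + 1) = ⊥) : a ∈ V := by
  have h1 : V * TT K a ≤ V ⊔ V ^ 2 * TT K a := by
    rw [Submodule.mul_le]
    intro v hv t ht
    obtain ⟨c, y, hy, rfl⟩ := TT_dec ht
    have e : v * (algebraMap K A c + a * y) = c • v + v * (a * y) := by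
      rw [Algebra.smul_def]
      ring
    rw [e]
    refine Submodule.add_mem_sup (V.smul_mem c hv) ?_
    rw [pow_two, mul_assoc]
    exact Submodule.mul_mem_mul hv (mulT ha hy)
  have hpow : ∀ n : ℕ, V ^ (n + 1) ≤ V := by
    intro n
    induction n with
    | zero => simp
    | succ n ih =>
      rw [pow_succ]
      exact (mul_le_mul' ih le_rfl).trans hV
  have h2 : ∀ n : ℕ, V * TT K a ≤ V ⊔ V ^ (n + 1) * TT K a := by
    intro n
    induction n with
    | zero => simp
    | succ n ih =>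
      refine ih.trans (sup_le le_sup_left ?_)
      calc V ^ (n + 1) * TT K a = V ^ n * (V * TT K a) := by rw [pow_succ, mul_assoc]
        _ ≤ V ^ n * (V ⊔ V ^ 2 * TT K a) := mul_le_mul' le_rfl h1
        _ = V ^ (n + 1) ⊔ V ^ (n + 1 + 1) * TT K a := by
          rw [Submodule.mul_sup, ← pow_succ, ← mul_assoc, ← pow_add]
        _ ≤ _ := sup_le_sup (hpow n) le_rfl
  have h3 := h2 N ha
  rw [hN, Submodule.bot_mul, sup_bot_eq] at h3
  exact h3

theorem nil_pow [Module.Finite K A] {V : Submodule K A} (hV : ∀ x ∈ V, IsNilpotent x) :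
    ∃ N : ℕ, V ^ (N + 1) = ⊥ := by
  have h0 : IsArtinianRing A := IsArtinianRing.of_finite K A
  obtain ⟨N, hN⟩ := IsArtinianRing.isNilpotent_nilradical (R := A)
  refine ⟨N, ?_⟩
  have h1 : ∀ n : ℕ, ∀ x ∈ V ^ (n + 1), x ∈ (nilradical A) ^ (n + 1) := by
    intro n
    induction n with
    | zero =>
      intro x hx
      rw [zero_add, pow_one] at hx ⊢
      exact hV x hx
    | succ n ih =>
      intro x hx
      rw [pow_succ] at hx
      induction hx using Submodule.mul_induction_on' with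
      | mem_mul_mem y hy z hz =>
        rw [pow_succ]
        exact Ideal.mul_mem_mul (ih y hy) (hV z hz)
      | add y _ z _ hy hz => exact Ideal.add_mem _ hy hz
  rw [eq_bot_iff]
  intro x hx
  have h2 := h1 N x hx
  rw [pow_succ, hN] at h2
  simpa using h2

theorem alg_mem [Module.Finite K A] (hd : ∀ f : E, IsNilpotent (al ρ (d f))) (Z1 : Set K)
    (hZ : ∀ z ∈ Z1, al ρ z = 0) (c : K)
    (hca : IsAlgebraic (IntermediateField.adjoin k (Set.range d ∪ Z1)) c)
    (hcn : IsNilpotent (al ρ c)) : al ρ c ∈ VV ρ d := by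
  have hL := field_mem ρ d hd Z1 hZ
  generalize IntermediateField.adjoin k (Set.range d ∪ Z1) = L at hca hL
  have hint : IsIntegral L c := hca.isIntegral
  have hch : CharZero L := (algebraMap L K).charZero
  set m : K[X] := (minpoly L c).map (algebraMap L K) with hm
  have hm0 : m.eval c = 0 := by rw [hm, eval_map_algebraMap, minpoly.aeval]
  have hm1 : m.derivative.eval c ≠ 0 := by
    rw [hm, derivative_map, eval_map_algebraMap]
    exact (minpoly.irreducible hint).separable.aeval_derivative_ne_zero (minpoly.aeval _ _)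
  have hcoef : ∀ i, m.coeff i ∈ L := by
    intro i
    rw [hm, coeff_map]
    exact ((minpoly L c).coeff i).2
  set a : A := al ρ c with ha
  have hρT : ρ c ∈ TT K a := by
    rw [rho_eq ρ c]
    exact Submodule.add_mem _ (TT_alg a c) (TT_self a)
  -- step B
  have hB : aeval (ρ c) m ∈ VV ρ d * TT K a := by
    have e1 : ρ (m.eval c) = ∑ i ∈ Finset.range (m.natDegree + 1), ρ (m.coeff i) * ρ c ^ i := by
      rw [eval_eq_sum_range, map_sum]
      refine Finset.sum_congr rfl fun i _ => ?_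
      rw [map_mul, map_pow]
    have e2 : aeval (ρ c) m =
        ∑ i ∈ Finset.range (m.natDegree + 1), algebraMap K A (m.coeff i) * ρ c ^ i := by
      rw [aeval_eq_sum_range]
      refine Finset.sum_congr rfl fun i _ => ?_
      rw [Algebra.smul_def]
    rw [hm0, map_zero] at e1
    have e3 : aeval (ρ c) m =
        - ∑ i ∈ Finset.range (m.natDegree + 1), al ρ (m.coeff i) * ρ c ^ i := by
      rw [e2, eq_neg_iff_add_eq_zero, ← Finset.sum_add_distrib, e1]
      refine Finset.sum_congr rfl fun i _ => ?_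
      rw [rho_eq ρ (m.coeff i)]
      ring
    rw [e3]
    refine Submodule.neg_mem _ (Submodule.sum_mem _ fun i _ => ?_)
    exact Submodule.mul_mem_mul (hL _ (hcoef i)) (TT_pow hρT i)
  -- step C
  set w : K := m.derivative.eval c with hw
  obtain ⟨q, hq, hC⟩ : ∃ q ∈ TT K a, w • a + q * a ^ 2 ∈ VV ρ d * TT K a := by
    set g : K[X] := taylor c m with hg
    refine ⟨aeval a g.divX.divX, TT_aeval a _, ?_⟩
    have e1 : g = (g.divX.divX * X + C w) * X := by
      have h1 := divX_mul_X_add g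
      have h2 := divX_mul_X_add g.divX
      have h3 : g.coeff 0 = 0 := by rw [hg, taylor_coeff_zero, hm0]
      have h4 : g.divX.coeff 0 = w := by rw [coeff_divX, hg, zero_add, taylor_coeff_one]
      rw [h3, C_0, add_zero] at h1
      rw [h4] at h2
      rw [h2, h1]
    have e2 : aeval a g = aeval (ρ c) m := by
      rw [hg, taylor_apply, aeval_comp, map_add, aeval_X, aeval_C, rho_eq ρ c, add_comm]
    have e3 : aeval a g = w • a + aeval a g.divX.divX * a ^ 2 := by
      conv_lhs => rw [e1]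
      rw [map_mul, map_add, map_mul, aeval_X, aeval_C, Algebra.smul_def]
      ring
    rw [← e3, e2]
    exact hB
  -- step D
  have hD : a ∈ VV ρ d * TT K a := by
    obtain ⟨N, hN⟩ := hcn
    have h1 : ∀ j : ℕ, a ^ (j + 1 + 1) ∈ VV ρ d * TT K a → a ^ (j + 1) ∈ VV ρ d * TT K a := by
      intro j hj
      have h2 : (w • a + q * a ^ 2) * a ^ j ∈ VV ρ d * TT K a := mulT hC (TT_pow (TT_self a) j)
      have h3 : a ^ (j + 1 + 1) * q ∈ VV ρ d * TT K a := mulT hj hq
      have h4 : a ^ (j + 1) = w⁻¹ • ((w • a + q * a ^ 2) * a ^ j - a ^ (j + 1 + 1) * q) := by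
        have h5 : (w • a + q * a ^ 2) * a ^ j - a ^ (j + 1 + 1) * q = w • a ^ (j + 1) := by
          rw [Algebra.smul_def, Algebra.smul_def]
          ring
        rw [h5, smul_smul, inv_mul_cancel₀ hm1, one_smul]
      rw [h4]
      exact Submodule.smul_mem _ _ (Submodule.sub_mem _ h2 h3)
    have h6 := desc (Q := fun j => a ^ (j + 1) ∈ VV ρ d * TT K a) h1 (N := N) (by
      rw [pow_succ, hN, zero_mul]
      exact Submodule.zero_mem _)
    simpa using h6
  obtain ⟨N, hN⟩ := nil_pow (V := VV ρ d) (fun x hx => VV_nil ρ d hd hx)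
  exact absorb (VV_mul ρ d) hD hN

/-- the span of the logarithms -/
theorem VV_le (hLOG : SpecLOG.{u, v}) (hd : ∀ f : E, IsNilpotent (al ρ (d f))) :
    VV ρ d ≤ Submodule.span K {x | ∃ f : E, f ≠ 0 ∧ x = ulog ((d f)⁻¹ • al ρ (d f))} := by
  unfold VV
  rw [Submodule.span_le]
  rintro _ ⟨f, rfl⟩
  change al ρ (d f) ∈ _
  by_cases hf : ∃ l : k, algebraMap k K l = d f
  · obtain ⟨l, hl⟩ := hf
    rw [← hl, al_k]
    exact Submodule.zero_mem _
  · push Not at hf
    have h1 := hLOG.2.2 k K A (al ρ (d f)) (d f) (hd f) hf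
    refine Submodule.span_mono ?_ h1
    rintro _ ⟨l, rfl⟩
    refine ⟨f + algebraMap k E l, ?_, ?_⟩
    · intro h0
      apply hf (-l)
      have h2 : d (f + algebraMap k E l) = 0 := by rw [h0, map_zero]
      rw [map_add, AlgHom.commutes] at h2
      rw [map_neg]
      exact (eq_neg_of_add_eq_zero_left h2).symm
    · rw [map_add, AlgHom.commutes, al_add, al_k, add_zero]

theorem main [Module.Finite K A] (hLOG : SpecLOG.{u, v})
    (hd : ∀ f : E, IsNilpotent (al ρ (d f))) (Z1 : Set K)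
    (hZ : ∀ z ∈ Z1, al ρ z = 0) (c : K)
    (hca : IsAlgebraic (IntermediateField.adjoin k (Set.range d ∪ Z1)) c)
    (hcn : IsNilpotent (al ρ c)) : ulog (c⁻¹ • al ρ c) ∈
      Submodule.span K {x | ∃ f : E, f ≠ 0 ∧ x = ulog ((d f)⁻¹ • al ρ (d f))} := by
  apply VV_le ρ d hLOG hd
  have h1 : c⁻¹ • al ρ c ∈ VV ρ d :=
    Submodule.smul_mem _ _ (alg_mem ρ d hd Z1 hZ c hca hcn)
  have h2 := (hLOG.1 A (c⁻¹ • al ρ c) (VV_nil ρ d hd h1)).2.2.2.1
    ((VV ρ d).restrictScalars ℚ) h1
    (fun y hy => VV_mul ρ d (Submodule.mul_mem_mul h1 hy))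
  exact h2

end Comm

end SPNM

open SPNM

open scoped IsMulCommutative in
/-- **SPN** -/
theorem specSPN (hLOG : SpecLOG.{u, v}) : SpecSPN.{u, v} := by
  intro k E K A _ _ _ _ _ _ _ _ _ _ _ _ _ ρ d Z1 hZ hd c hc hca hcn
  let C : Subalgebra K A := Algebra.adjoin K (Set.range ρ)
  have hcomm : IsMulCommutative C := Algebra.isMulCommutative_adjoin K (by
    rintro _ ⟨x, rfl⟩ _ ⟨y, rfl⟩
    rw [← map_mul, mul_comm, map_mul])
  have hmem : ∀ x, ρ x ∈ C := fun x => Algebra.subset_adjoin ⟨x, rfl⟩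
  let ρC : K →ₐ[k] C :=
    { toFun := fun x => ⟨ρ x, hmem x⟩
      map_one' := Subtype.ext (map_one ρ)
      map_mul' := fun x y => Subtype.ext (map_mul ρ x y)
      map_zero' := Subtype.ext (map_zero ρ)
      map_add' := fun x y => Subtype.ext (map_add ρ x y)
      commutes' := fun r => Subtype.ext (ρ.commutes r) }
  have hal : ∀ x, ((al ρC x : C) : A) = ρ x - algebraMap K A x := fun x => rfl
  have hnil : ∀ y : C, IsNilpotent (y : A) → IsNilpotent y := by
    rintro y ⟨n, hn⟩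
    exact ⟨n, Subtype.ext (by simpa using hn)⟩
  have h1 := main ρC d hLOG (fun f => hnil _ (by rw [hal]; exact hd f)) Z1
    (fun z hz => Subtype.ext (by rw [hal, hZ z hz, sub_self]; rfl)) c hca
    (hnil _ (by rw [hal]; exact hcn))
  have hv : ∀ (x : K), IsNilpotent (al ρC x) →
      ((ulog (x⁻¹ • al ρC x) : C) : A) = ulog (x⁻¹ • (ρ x - algebraMap K A x)) := by
    intro x hx
    have h2 := hLOG.2.1 C A C.val.toRingHom (x⁻¹ • al ρC x) (by
      obtain ⟨n, hn⟩ := hx
      exact ⟨n, by rw [_root_.smul_pow, hn, smul_zero]⟩)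
    exact h2
  rw [← hv c (hnil _ (by rw [hal]; exact hcn))]
  have h3 := Submodule.mem_map_of_mem (f := C.val.toLinearMap) h1
  rw [Submodule.map_span] at h3
  refine Submodule.span_mono ?_ h3
  rintro _ ⟨_, ⟨f, hf, rfl⟩, rfl⟩
  exact ⟨f, hf, hv (d f) (hnil _ (by rw [hal]; exact hd f))⟩

end Pool.Agent.Lib.MP_c37a72_al.NI
end

section
/-!
# MP_c37a72_al, block NI, module STB: stability under `τ(R2)` of the space `(W ⊗ 1) R2`
-/
set_option autoImplicit false

open scoped TensorProduct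
open Coalgebra HopfAlgebra Module
open Pool.Agent.Lib.MP_c37a72_al.LB

namespace Pool.Agent.Lib.MP_c37a72_al.NI

universe u v w

namespace STBM

section

variable (F : Type*) {R : Type*} [Field F] [Ring R] [Algebra F R] {n : ℕ}

/-- The space spanned by the columns `v i`, `i ∈ J`. -/
def WW (J : Finset (Fin n)) (v : Fin n → Fin n → R) : Submodule F (Fin n → R) where
  carrier := {z | ∀ p, z p = ∑ i ∈ J, v i p * z i}
  add_mem' := fun {z w} hz hw p => by
    simp only [Pi.add_apply, mul_add, Finset.sum_add_distrib]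
    rw [← hz p, ← hw p]
  zero_mem' := fun p => by simp
  smul_mem' := fun c z hz p => by
    simp only [Pi.smul_apply, mul_smul_comm]
    rw [← Finset.smul_sum, ← hz p]

variable {F}

theorem mem_WW {J : Finset (Fin n)} {v : Fin n → Fin n → R} {z : Fin n → R} :
    z ∈ WW F J v ↔ ∀ p, z p = ∑ i ∈ J, v i p * z i := Iff.rfl

/-- Cancelling an invertible matrix. -/
theorem inv_stab [Module.Finite F R] (W : Submodule F (Fin n → R))
    (A A' C : Matrix (Fin n) (Fin n) R) (hA : A' * A = 1) (hW : ∀ z ∈ W, A.mulVec z ∈ W)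
    (hC : ∀ z ∈ W, (A * C).mulVec z ∈ W) : ∀ z ∈ W, C.mulVec z ∈ W := by
  let f : W →ₗ[F] W :=
    { toFun := fun z => ⟨A.mulVec z, hW z z.2⟩
      map_add' := fun z w => Subtype.ext (by
        change A.mulVec ((z : Fin n → R) + (w : Fin n → R))
          = A.mulVec (z : Fin n → R) + A.mulVec (w : Fin n → R)
        exact Matrix.mulVec_add _ _ _)
      map_smul' := fun c z => Subtype.ext (by
        change A.mulVec (c • (z : Fin n → R)) = c • A.mulVec (z : Fin n → R)
        exact Matrix.mulVec_smul _ _ _) }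
  have hinj : Function.Injective f := by
    intro z w h
    have h1 : A.mulVec (z : Fin n → R) = A.mulVec (w : Fin n → R) := congrArg Subtype.val h
    have h2 := congrArg A'.mulVec h1
    rw [Matrix.mulVec_mulVec, Matrix.mulVec_mulVec, hA, Matrix.one_mulVec, Matrix.one_mulVec] at h2
    exact Subtype.ext h2
  have hsurj : Function.Surjective f := LinearMap.surjective_of_injective hinj
  intro z hz
  obtain ⟨w, hw⟩ := hsurj ⟨_, hC z hz⟩
  have h1 : A.mulVec (w : Fin n → R) = (A * C).mulVec z := congrArg Subtype.val hw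
  have h2 := congrArg A'.mulVec h1
  rw [Matrix.mulVec_mulVec, Matrix.mulVec_mulVec, hA, Matrix.one_mulVec, ← Matrix.mul_assoc, hA,
    Matrix.one_mul] at h2
  rw [← h2]
  exact w.2

end

end STBM

open STBM in
theorem specSTB : SpecSTB.{u, v} := by
  intro k H Z Q F2 R2 _ _ _ _ _ _ _ _ _ _ _ _ _ _ _ _ ι jF j D hCQ hR2 n T τ hτ J u hu hT
  have := hCQ.fin
  have hfin : Module.Finite F2 R2 := hR2.cl.finite_iZ hR2.frc
  let v : Fin n → Fin n → R2 := fun i l => j (u i l ⊗ₜ 1)
  -- pure tensors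
  have hcol : ∀ (a b : Q) (i : Fin n) (p : Fin n),
      ∑ l, τ (j (a ⊗ₜ b)) p l * v i l = j ((∑ l, T a p l * u i l) ⊗ₜ b) := by
    intro a b i p
    rw [TensorProduct.sum_tmul, map_sum]
    refine Finset.sum_congr rfl fun l _ => ?_
    rw [hτ, ← map_mul, Algebra.TensorProduct.tmul_mul_tmul, mul_one]
  have hcol2 : ∀ (a b : Q), ∀ i ∈ J, ∀ p,
      j ((∑ l, T a p l * u i l) ⊗ₜ b)
        = ∑ i' ∈ J, v i' p * j ((∑ l, T a i' l * u i l) ⊗ₜ b) := by
    intro a b i hi p
    rw [hT a i hi p, TensorProduct.sum_tmul, map_sum]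
    refine Finset.sum_congr rfl fun i' _ => ?_
    rw [← map_mul, Algebra.TensorProduct.tmul_mul_tmul, one_mul]
  have hx : ∀ x : Q ⊗[k] Q, ∀ z ∈ WW F2 J v, (τ (j x)).mulVec z ∈ WW F2 J v := by
    intro x
    induction x using TensorProduct.induction_on with
    | zero =>
      intro z _
      rw [map_zero, map_zero, Matrix.zero_mulVec]
      exact Submodule.zero_mem _
    | add x y hx hy =>
      intro z hz
      rw [map_add, map_add, Matrix.add_mulVec]
      exact Submodule.add_mem _ (hx z hz) (hy z hz)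
    | tmul a b =>
      intro z hz
      have h1 : ∀ p, (τ (j (a ⊗ₜ b))).mulVec z p
          = ∑ i ∈ J, j ((∑ l, T a p l * u i l) ⊗ₜ b) * z i := by
        intro p
        calc (τ (j (a ⊗ₜ b))).mulVec z p = ∑ l, τ (j (a ⊗ₜ b)) p l * z l := rfl
          _ = ∑ l, ∑ i ∈ J, τ (j (a ⊗ₜ b)) p l * v i l * z i := by
              refine Finset.sum_congr rfl fun l _ => ?_
              rw [mem_WW.1 hz l, Finset.mul_sum]
              refine Finset.sum_congr rfl fun i _ => ?_
              rw [mul_assoc]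
          _ = ∑ i ∈ J, ∑ l, τ (j (a ⊗ₜ b)) p l * v i l * z i := Finset.sum_comm
          _ = _ := by
              refine Finset.sum_congr rfl fun i _ => ?_
              rw [← hcol a b i p, Finset.sum_mul]
      rw [mem_WW]
      intro p
      rw [h1 p]
      calc ∑ i ∈ J, j ((∑ l, T a p l * u i l) ⊗ₜ b) * z i
          = ∑ i ∈ J, ∑ i' ∈ J, v i' p * (j ((∑ l, T a i' l * u i l) ⊗ₜ b) * z i) := by
            refine Finset.sum_congr rfl fun i hi => ?_
            rw [hcol2 a b i hi p, Finset.sum_mul]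
            refine Finset.sum_congr rfl fun i' _ => ?_
            rw [mul_assoc]
        _ = ∑ i' ∈ J, ∑ i ∈ J, v i' p * (j ((∑ l, T a i' l * u i l) ⊗ₜ b) * z i) :=
            Finset.sum_comm
        _ = _ := by
            refine Finset.sum_congr rfl fun i' _ => ?_
            rw [h1 i', Finset.mul_sum]
  have hr : ∀ r : R2, ∀ z ∈ WW F2 J v, (τ r).mulVec z ∈ WW F2 J v := by
    intro r
    obtain ⟨a, c, hc, hac⟩ := hR2.cl.surj r
    have hc' : jF c ≠ 0 := hR2.frc.ne' hc
    refine inv_stab (WW F2 J v) (τ (algebraMap F2 R2 (jF c))) (τ (algebraMap F2 R2 (jF c)⁻¹))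
      (τ r) ?_ ?_ ?_
    · rw [← map_mul, ← map_mul, inv_mul_cancel₀ hc', map_one, map_one]
    · intro z hz
      rw [← hR2.cl.comp c]
      exact hx _ z hz
    · intro z hz
      rw [← map_mul, hac]
      exact hx _ z hz
  intro r i hi p
  have hv : (fun l => v i l) ∈ WW F2 J v := by
    rw [mem_WW]
    intro p
    have h1 : ∀ i' ∈ J, v i' p * v i i' = if i' = i then v i p else 0 := by
      intro i' hi'
      change j (u i' p ⊗ₜ 1) * j (u i i' ⊗ₜ 1) = _
      rw [hu i hi i' hi', ← map_mul, Algebra.TensorProduct.tmul_mul_tmul]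
      by_cases h : i' = i
      · subst h
        rw [if_pos rfl, if_pos rfl, mul_one, mul_one]
      · rw [if_neg h, if_neg h, mul_zero, TensorProduct.zero_tmul, map_zero]
    rw [Finset.sum_congr rfl h1, Finset.sum_ite_eq', if_pos hi]
  exact mem_WW.1 (hr r _ hv) p

end Pool.Agent.Lib.MP_c37a72_al.NI
end

section
/-!
# MP_c37a72_al, block NI, module T1R: T1''

`D(q) y = j(q ⊗ 1) y` on a nonzero `D(Q)`-stable subspace implies `q ∈ k`. Instead of a resultant: in the
domain `Z(q) ⊗ Z(q)`, integral over `Z ⊗ Z`, the element `q ⊗ 1 - 1 ⊗ q` divides a nonzero element of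
`Z ⊗ Z`, if it is not zero.
-/
set_option autoImplicit false

open scoped TensorProduct
open Coalgebra HopfAlgebra Module
open Pool.Agent.Lib.MP_c37a72_al.LB

namespace Pool.Agent.Lib.MP_c37a72_al.NI

universe u v w

namespace T1RM

/-- In `Z(q) ⊗ Z(q)`: if `q ∉ k` then `q ⊗ 1 - 1 ⊗ q` divides a nonzero element of `Z ⊗ Z`. Here `L`
is any domain over `Z` with `x ∈ L` integral over `Z`. -/
theorem exists_dvd (k : Type u) (Z L : Type v) [Field k] [IsAlgClosed k] [Field Z] [Algebra k Z]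
    [CommRing L] [IsDomain L] [Algebra k L] [Algebra Z L] [IsScalarTower k Z L] (x : L)
    (hx : IsIntegral Z x) (hw : x ⊗ₜ[k] (1 : L) - (1 : L) ⊗ₜ[k] x ≠ 0) :
    ∃ (ρ : Z ⊗[k] Z) (w' : L ⊗[k] L), ρ ≠ 0 ∧
      Algebra.TensorProduct.map (IsScalarTower.toAlgHom k Z L) (IsScalarTower.toAlgHom k Z L) ρ =
        w' * (x ⊗ₜ[k] (1 : L) - (1 : L) ⊗ₜ[k] x) := by
  have hdom : NoZeroDivisors (L ⊗[k] L) := noZeroDivisors_tensor k L L
  set g : Z ⊗[k] Z →ₐ[k] L ⊗[k] L :=
    Algebra.TensorProduct.map (IsScalarTower.toAlgHom k Z L) (IsScalarTower.toAlgHom k Z L) with hg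
  let iL : L →+* L ⊗[k] L := (Algebra.TensorProduct.includeLeft : L →ₐ[k] L ⊗[k] L).toRingHom
  let iR : L →+* L ⊗[k] L := (Algebra.TensorProduct.includeRight : L →ₐ[k] L ⊗[k] L).toRingHom
  let jL : Z →+* Z ⊗[k] Z := (Algebra.TensorProduct.includeLeft : Z →ₐ[k] Z ⊗[k] Z).toRingHom
  let jR : Z →+* Z ⊗[k] Z := (Algebra.TensorProduct.includeRight : Z →ₐ[k] Z ⊗[k] Z).toRingHom
  obtain ⟨p, hp, hpx⟩ := hx
  have hL : g.toRingHom.IsIntegralElem (x ⊗ₜ[k] (1 : L)) := by
    refine ⟨p.map jL, hp.map _, ?_⟩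
    rw [Polynomial.eval₂_map]
    have e : g.toRingHom.comp jL = iL.comp (algebraMap Z L) := by
      ext z
      show g (z ⊗ₜ 1) = algebraMap Z L z ⊗ₜ 1
      rw [hg, Algebra.TensorProduct.map_tmul, map_one]
      rfl
    rw [e]
    show Polynomial.eval₂ (iL.comp (algebraMap Z L)) (iL x) p = 0
    rw [← Polynomial.hom_eval₂, hpx, map_zero]
  have hR : g.toRingHom.IsIntegralElem ((1 : L) ⊗ₜ[k] x) := by
    refine ⟨p.map jR, hp.map _, ?_⟩
    rw [Polynomial.eval₂_map]
    have e : g.toRingHom.comp jR = iR.comp (algebraMap Z L) := by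
      ext z
      show g (1 ⊗ₜ z) = 1 ⊗ₜ algebraMap Z L z
      rw [hg, Algebra.TensorProduct.map_tmul, map_one]
      rfl
    rw [e]
    show Polynomial.eval₂ (iR.comp (algebraMap Z L)) (iR x) p = 0
    rw [← Polynomial.hom_eval₂, hpx, map_zero]
  have h1 := hL.sub _ hR
  let _ : Algebra (Z ⊗[k] Z) (L ⊗[k] L) := g.toRingHom.toAlgebra
  have h2 : IsIntegral (Z ⊗[k] Z) (x ⊗ₜ[k] (1 : L) - (1 : L) ⊗ₜ[k] x) := h1
  have : Nontrivial (Z ⊗[k] Z) := by
    by_contra h
    rw [not_nontrivial_iff_subsingleton] at h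
    apply hw
    have h3 : (1 : Z ⊗[k] Z) = 0 := Subsingleton.elim _ _
    have h4 : (1 : L ⊗[k] L) = 0 := by rw [← map_one g, h3, map_zero]
    rw [← mul_one (x ⊗ₜ[k] (1 : L) - (1 : L) ⊗ₜ[k] x), h4, mul_zero]
  obtain ⟨ρ, hρ, w', hw'⟩ := h2.isAlgebraic.exists_nonzero_dvd (mem_nonZeroDivisors_of_ne_zero hw)
  exact ⟨ρ, w', hρ, by rw [mul_comm]; exact hw'⟩

section

variable {k : Type u} {H : Type v} {Z Q : Type w} [Field k] [Ring H] [IsDomain H]
  [HopfAlgebra k H] [Field Z] [Algebra k Z] [DivisionRing Q] [Algebra k Q] [Algebra Z Q]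
  [IsScalarTower k Z Q] {ι : H →ₐ[k] Q} (hQ : IsCQ k H Z Q ι) {F2 R2 : Type*} [Field F2]
  [Algebra k F2] [Ring R2] [Algebra k R2] [Algebra F2 R2] {jF : Z ⊗[k] Z →ₐ[k] F2}
  (hF : IsFrc jF) {j : Q ⊗[k] Q →ₐ[k] R2} (h2 : IsCL (iZ k Z Z Q Q) jF j)
  {D : Q →ₐ[k] R2} (hD : ∀ h, D (ι h) = j (dQ ι h))

include h2 in
theorem Phi_mul_iZ (x : Q ⊗[k] Q) (ρ : Z ⊗[k] Z) :
    Phi j D (x * iZ k Z Z Q Q ρ) = Phi j D x * Phi j D (iZ k Z Z Q Q ρ) := by
  induction ρ using TensorProduct.induction_on with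
  | zero => simp
  | add ρ σ h1 h2 => simp only [map_add, mul_add, h1, h2]
  | tmul z z' =>
    induction x using TensorProduct.induction_on with
    | zero => simp
    | add x y h1 h2 => simp only [map_add, add_mul, h1, h2]
    | tmul a b =>
      have e : j (algebraMap Z Q z ⊗ₜ 1) = algebraMap F2 R2 (jF (z ⊗ₜ 1)) := by
        rw [← h2.comp, iZ_tmul, map_one]
      rw [iZ_tmul, Algebra.TensorProduct.tmul_mul_tmul, Phi_tmul, Phi_tmul, Phi_tmul, e,
        map_mul D, mul_assoc, ← mul_assoc (D b), ← Algebra.commutes (jF (z ⊗ₜ[k] (1 : Z))) (D b),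
        ← mul_assoc, ← mul_assoc, ← mul_assoc, ← e, ← map_mul,
        Algebra.TensorProduct.tmul_mul_tmul, mul_one]

include hQ hF h2 hD in
theorem left_inv {ρ : Z ⊗[k] Z} (hρ : ρ ≠ 0) : ∃ s : R2, s * Phi j D (iZ k Z Z Q Q ρ) = 1 := by
  have := hQ.fin
  have hfin : Module.Finite F2 R2 := h2.finite_iZ hF
  let f : R2 →ₗ[F2] R2 := LinearMap.mulRight F2 (Phi j D (iZ k Z Z Q Q ρ))
  have hinj : Function.Injective f := by
    rw [injective_iff_map_eq_zero]
    intro r hr
    have hr' : r * Phi j D (iZ k Z Z Q Q ρ) = 0 := hr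
    obtain ⟨t, x, ht, hx⟩ := Phi_surj hQ hF h2 hD r
    have ht' : jF t ≠ 0 := hF.ne' ht
    have h3 : Phi j D (x * iZ k Z Z Q Q ρ) = 0 := by
      rw [Phi_mul_iZ h2, ← hx, mul_assoc, hr', mul_zero]
    have h4 : x * iZ k Z Z Q Q ρ = 0 := by
      apply Phi_injective hQ hF h2 hD
      rw [h3, map_zero]
    have h5 : j x * algebraMap F2 R2 (jF ρ) = 0 := by
      rw [← h2.comp, ← map_mul, h4, map_zero]
    have hρ' : jF ρ ≠ 0 := hF.ne' hρ
    have h6 : j x = 0 := by
      have := congrArg (fun r => r * algebraMap F2 R2 (jF ρ)⁻¹) h5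
      simpa only [mul_assoc, ← map_mul, mul_inv_cancel₀ hρ', map_one, mul_one, zero_mul] using this
    have h7 : x = 0 := h2.inj (by rw [h6, map_zero])
    rw [h7, map_zero] at hx
    have := congrArg (fun r => algebraMap F2 R2 (jF t)⁻¹ * r) hx
    simpa only [← mul_assoc, ← map_mul, inv_mul_cancel₀ ht', map_one, one_mul, mul_zero] using this
  obtain ⟨s, hs⟩ := (LinearMap.injective_iff_surjective.1 hinj) 1
  exact ⟨s, hs⟩

include hQ hF h2 hD in
theorem t1r [IsAlgClosed k] (q : Q) (Y : Submodule k R2) (hY : Y ≠ ⊥)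
    (hst : ∀ y ∈ Y, ∀ q' : Q, D q' * y ∈ Y) (hq : ∀ y ∈ Y, D q * y = j (q ⊗ₜ 1) * y) :
    ∃ c : k, algebraMap k Q c = q := by
  have := hQ.fin
  -- the commutative domain `L = Z(q)`
  let f : Polynomial Z →ₐ[Z] Q := Polynomial.aeval q
  have hprime : (RingHom.ker f).IsPrime := RingHom.ker_isPrime f
  let L : Type w := Polynomial Z ⧸ RingHom.ker f
  have : IsDomain L := Ideal.Quotient.isDomain (RingHom.ker f)
  let φZ : L →ₐ[Z] Q := Ideal.kerLiftAlg f
  have hφinj : Function.Injective φZ := Ideal.kerLiftAlg_injective f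
  let φ : L →ₐ[k] Q := φZ.restrictScalars k
  let x : L := Ideal.Quotient.mk (RingHom.ker f) Polynomial.X
  have hφx : φ x = q := by
    show f Polynomial.X = q
    exact Polynomial.aeval_X q
  have hint : IsIntegral Z x := by
    rw [← isIntegral_algHom_iff φZ hφinj]
    exact Algebra.IsIntegral.isIntegral _
  by_cases hw : x ⊗ₜ[k] (1 : L) - (1 : L) ⊗ₜ[k] x = 0
  · have h3 := congrArg (Algebra.TensorProduct.map φ φ) hw
    rw [map_sub, Algebra.TensorProduct.map_tmul, Algebra.TensorProduct.map_tmul, map_zero, map_one,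
      hφx, sub_eq_zero] at h3
    have h1 : (1 : Q ⊗[k] Q) ≠ 0 := by
      obtain ⟨y, hy, hy0⟩ := (Submodule.ne_bot_iff Y).1 hY
      intro h0
      apply hy0
      rw [← one_mul y, ← map_one j, h0, map_zero, zero_mul]
    obtain ⟨c, hc, -⟩ := t1 (D := Q) (D' := Q) (W := (1 : Q ⊗[k] Q)) h1 (q := q) (q' := q)
      (by rw [mul_one, one_mul]; exact h3)
    exact ⟨c, hc⟩
  · obtain ⟨ρ, w', hρ, hw'⟩ := exists_dvd k Z L x hint hw
    exfalso
    apply hY
    rw [eq_bot_iff]
    intro y hy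
    rw [Submodule.mem_bot]
    -- left multiplication by `Φ(ρ)` kills `y`
    have h4 : ∀ w : L ⊗[k] L, Phi j D (Algebra.TensorProduct.map φ φ
        (w * (x ⊗ₜ[k] (1 : L) - (1 : L) ⊗ₜ[k] x))) * y = 0 := by
      intro w
      induction w using TensorProduct.induction_on with
      | zero => simp
      | add a b ha hb => rw [add_mul, map_add, map_add, add_mul, ha, hb, add_zero]
      | tmul c d =>
        rw [mul_sub, Algebra.TensorProduct.tmul_mul_tmul, Algebra.TensorProduct.tmul_mul_tmul,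
          mul_one, mul_one, map_sub, map_sub, Algebra.TensorProduct.map_tmul,
          Algebra.TensorProduct.map_tmul, Phi_tmul, Phi_tmul, sub_mul, sub_eq_zero, map_mul φ c x,
          mul_comm d x, map_mul φ x d, hφx, map_mul D, mul_assoc, mul_assoc, mul_assoc (D q),
          hq _ (hst y hy (φ d)), ← mul_assoc (j (φ c ⊗ₜ[k] (1 : Q))), ← map_mul j,
          Algebra.TensorProduct.tmul_mul_tmul, mul_one]
    have h5 := h4 w'
    rw [← hw'] at h5
    have h6 : Algebra.TensorProduct.map φ φ (Algebra.TensorProduct.map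
        (IsScalarTower.toAlgHom k Z L) (IsScalarTower.toAlgHom k Z L) ρ) = iZ k Z Z Q Q ρ := by
      have h7 : (Algebra.TensorProduct.map φ φ).comp (Algebra.TensorProduct.map
          (IsScalarTower.toAlgHom k Z L) (IsScalarTower.toAlgHom k Z L)) = iZ k Z Z Q Q := by
        refine Algebra.TensorProduct.ext' fun a b => ?_
        rw [AlgHom.comp_apply, Algebra.TensorProduct.map_tmul, Algebra.TensorProduct.map_tmul,
          iZ_tmul]
        show φZ (algebraMap Z L a) ⊗ₜ[k] φZ (algebraMap Z L b) = _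
        rw [φZ.commutes, φZ.commutes]
      exact AlgHom.congr_fun h7 ρ
    rw [h6] at h5
    obtain ⟨s, hs⟩ := left_inv hQ hF h2 hD hρ
    rw [← one_mul y, ← hs, mul_assoc, h5, mul_zero]

end

end T1RM

theorem specT1R : SpecT1R.{u, v} := by
  intro k H Z Q F2 R2 _ _ _ _ _ _ _ _ _ _ _ _ _ _ _ _ _ ι jF j D hQ hR q Y hY hst hq
  exact T1RM.t1r hQ hR.frc hR.cl hR.D_ι q Y hY hst hq

end Pool.Agent.Lib.MP_c37a72_al.NI
end
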