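import Pool.Agent.Lib.MP_c37a72_al.NI.Spec

section
set_option autoImplicit false

open Module

namespace Pool.Agent.Lib.MP_c37a72_al.NI

universe u v w

namespace ADBM

variable {D : Type v} {V : Type v} [DivisionRing D] [AddCommGroup V] [Module D V]

lemma adp_cons {n : ℕ} {e : V} (H : ℤ → Submodule D V) (anti : Antitone H) (w0 : ℤ)
    (he : ∀ x, e ∈ H x ↔ x ≤ w0) (u : Fin n → V) (u' : Basis (Fin n) D (V ⧸ (Submodule.span D {e})))
    (hu : ∀ i, (Submodule.span D {e}).mkQ (u i) = u' i) (q : Fin n → ℤ) (hq : ∀ i, u i ∈ H (q i))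
    (hA : Adp (fun x => (H x).map (Submodule.span D {e}).mkQ) u' q) (b : Basis (Fin (n + 1)) D V)
    (hb0 : b 0 = e) (hbs : ∀ i : Fin n, b i.succ = u i) :
    Adp H b (Fin.cons w0 q : Fin (n + 1) → ℤ) := by
  intro x
  apply le_antisymm
  · intro v hv
    have h1 : (Submodule.span D {e}).mkQ v ∈ (H x).map (Submodule.span D {e}).mkQ :=
      Submodule.mem_map_of_mem hv
    have h2 := hA x
    simp only at h2
    rw [h2] at h1
    have h3 : (⇑u' '' {i | x ≤ q i}) = (Submodule.span D {e}).mkQ '' (u '' {i | x ≤ q i}) := by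
      rw [Set.image_image]
      exact Set.image_congr fun i _ => (hu i).symm
    rw [h3, ← Submodule.map_span] at h1
    obtain ⟨w, hw, hwv⟩ := h1
    have h4 : v - w ∈ Submodule.span D {e} := by
      rw [← Submodule.ker_mkQ (Submodule.span D {e}), LinearMap.mem_ker, map_sub, hwv, sub_self]
    have h5 : w ∈ Submodule.span D (⇑b '' {i | x ≤ (Fin.cons w0 q : Fin (n + 1) → ℤ) i}) := by
      refine Submodule.span_mono ?_ hw
      rintro _ ⟨i, hi, rfl⟩
      exact ⟨i.succ, by simpa using hi, hbs i⟩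
    have h6 : w ∈ H x := by
      refine (Submodule.span_le.mpr ?_) hw
      rintro _ ⟨i, hi, rfl⟩
      exact anti hi (hq i)
    have h7 : v - w ∈ Submodule.span D (⇑b '' {i | x ≤ (Fin.cons w0 q : Fin (n + 1) → ℤ) i}) := by
      by_cases hx : x ≤ w0
      · refine (Submodule.span_le.mpr ?_) h4
        rw [Set.singleton_subset_iff]
        apply Submodule.subset_span
        exact ⟨0, by simpa using hx, hb0⟩
      · rw [Submodule.mem_span_singleton] at h4
        obtain ⟨l, hl⟩ := h4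
        by_cases hl0 : l = 0
        · rw [← hl, hl0, zero_smul]
          exact Submodule.zero_mem _
        · exfalso
          apply hx
          rw [← he]
          have h8 : l • e ∈ H x := by
            rw [hl]
            exact Submodule.sub_mem _ hv h6
          have h9 := Submodule.smul_mem _ l⁻¹ h8
          rwa [smul_smul, inv_mul_cancel₀ hl0, one_smul] at h9
    have := Submodule.add_mem _ h7 h5
    rwa [sub_add_cancel] at this
  · rw [Submodule.span_le]
    rintro _ ⟨i, hi, rfl⟩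
    refine Fin.cases ?_ (fun i => ?_) i (motive := fun i => x ≤ (Fin.cons w0 q : Fin (n + 1) → ℤ) i → b i ∈ H x) hi
    · intro h
      rw [hb0, he]
      simpa using h
    · intro h
      rw [hbs]
      rw [Fin.cons_succ] at h
      exact anti h (hq i)

lemma main : ∀ (n : ℕ) (V : Type v) [AddCommGroup V] [Module D V] [Module.Finite D V]
    (B : ℕ) (F G : ℤ → Submodule D V), IsFil B F → IsFil B G → finrank D V = n →
    ∃ (b : Basis (Fin n) D V) (p q : Fin n → ℤ), Adp F b p ∧ Adp G b q := by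
  intro n
  induction n with
  | zero =>
    intro V _ _ _ B F G hF hG hn
    have hs : Subsingleton V := Module.finrank_zero_iff.mp hn
    refine ⟨Module.finBasisOfFinrankEq D V hn, fun _ => 0, fun _ => 0, ?_, ?_⟩
    · intro c
      exact Subsingleton.elim _ _
    · intro c
      exact Subsingleton.elim _ _
  | succ n ih =>
    intro V _ _ _ B F G hF hG hn
    have hnt : Nontrivial V := Module.nontrivial_of_finrank_pos (R := D) (by omega)
    obtain ⟨a, ha, hamax⟩ : ∃ a : ℤ, F a ≠ ⊥ ∧ ∀ z : ℤ, F z ≠ ⊥ → z ≤ a := by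
      apply Int.exists_greatest_of_bdd
      · refine ⟨B, fun z hz => ?_⟩
        by_contra hcon
        exact hz (hF.bot z (by omega))
      · refine ⟨-B, ?_⟩
        rw [hF.top _ le_rfl]
        exact top_ne_bot
    obtain ⟨e, heF, he0⟩ := (Submodule.ne_bot_iff _).mp ha
    obtain ⟨c, hc, hcmax⟩ : ∃ c : ℤ, e ∈ G c ∧ ∀ z : ℤ, e ∈ G z → z ≤ c := by
      apply Int.exists_greatest_of_bdd
      · refine ⟨B, fun z hz => ?_⟩
        by_contra hcon
        rw [hG.bot z (by omega), Submodule.mem_bot] at hz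
        exact he0 hz
      · refine ⟨-B, ?_⟩
        rw [hG.top _ le_rfl]
        exact Submodule.mem_top
    have hFe : ∀ x, e ∈ F x ↔ x ≤ a := by
      intro x
      constructor
      · intro h
        apply hamax
        intro hb
        rw [hb, Submodule.mem_bot] at h
        exact he0 h
      · intro h
        exact hF.anti h heF
    have hGe : ∀ x, e ∈ G x ↔ x ≤ c := fun x => ⟨hcmax x, fun h => hG.anti h hc⟩
    have hfil : ∀ H : ℤ → Submodule D V, IsFil B H →
        IsFil B (fun x => (H x).map (Submodule.span D {e}).mkQ) := by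
      intro H hH
      refine ⟨fun x y hxy => Submodule.map_mono (hH.anti hxy), fun x hx => ?_, fun x hx => ?_⟩
      · rw [hH.top x hx, Submodule.map_top, Submodule.range_mkQ]
      · rw [hH.bot x hx, Submodule.map_bot]
    have hfr : finrank D (V ⧸ (Submodule.span D {e})) = n := by
      have h1 := Submodule.finrank_quotient_add_finrank (Submodule.span D {e})
      rw [finrank_span_singleton he0, hn] at h1
      omega
    obtain ⟨u', p, q, hp, hq⟩ := ih (V ⧸ (Submodule.span D {e})) B _ _ (hfil F hF) (hfil G hG) hfr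
    have hu'F : ∀ i, u' i ∈ (F (p i)).map (Submodule.span D {e}).mkQ := by
      intro i
      have h1 := hp (p i)
      simp only at h1
      rw [h1]
      exact Submodule.subset_span ⟨i, le_refl (p i), rfl⟩
    have hu'G : ∀ i, u' i ∈ (G (q i)).map (Submodule.span D {e}).mkQ := by
      intro i
      have h1 := hq (q i)
      simp only at h1
      rw [h1]
      exact Submodule.subset_span ⟨i, le_refl (q i), rfl⟩
    choose u huG hu using hu'G
    have huF : ∀ i, u i ∈ F (p i) := by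
      intro i
      obtain ⟨f, hf, hfu⟩ := hu'F i
      have h1 : p i ≤ a := by
        apply hamax
        intro hb
        have h2 := hu'F i
        rw [hb, Submodule.map_bot, Submodule.mem_bot] at h2
        exact u'.ne_zero i h2
      have h3 : u i - f ∈ Submodule.span D {e} := by
        rw [← Submodule.ker_mkQ (Submodule.span D {e}), LinearMap.mem_ker, map_sub, hfu, hu i, sub_self]
      have h4 : Submodule.span D {e} ≤ F (p i) := by
        rw [Submodule.span_le, Set.singleton_subset_iff]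
        exact (hFe _).mpr h1
      have := Submodule.add_mem _ (h4 h3) hf
      rwa [sub_add_cancel] at this
    have hli : LinearIndependent D (Fin.cons e u : Fin (n + 1) → V) := by
      rw [Fintype.linearIndependent_iff]
      intro g hg
      rw [Fin.sum_univ_succ] at hg
      simp only [Fin.cons_zero, Fin.cons_succ] at hg
      have h1 : ∑ i : Fin n, g i.succ • u' i = 0 := by
        have h2 := congrArg (Submodule.span D {e}).mkQ hg
        rw [map_add, map_smul, map_sum, map_zero] at h2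
        have h3 : (Submodule.span D {e}).mkQ e = 0 := by
          rw [← LinearMap.mem_ker, Submodule.ker_mkQ]
          exact Submodule.mem_span_singleton_self e
        rw [h3, smul_zero, zero_add] at h2
        rw [← h2]
        exact Finset.sum_congr rfl fun i _ => by rw [map_smul, hu]
      have h4 := Fintype.linearIndependent_iff.mp u'.linearIndependent (fun i => g i.succ) h1
      have h5 : g 0 = 0 := by
        simp only [h4, zero_smul, Finset.sum_const_zero, add_zero] at hg
        exact (smul_eq_zero.mp hg).resolve_right he0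
      intro i
      refine Fin.cases h5 (fun i => h4 i) i
    refine ⟨basisOfLinearIndependentOfCardEqFinrank hli (by rw [Fintype.card_fin, hn]),
      Fin.cons a p, Fin.cons c q, ?_, ?_⟩
    · exact adp_cons F hF.anti a hFe u u' hu p huF hp _ (by simp) (by simp)
    · exact adp_cons G hG.anti c hGe u u' hu q huG hq _ (by simp) (by simp)

end ADBM

theorem specADB : SpecADB.{v} := by
  intro D V _ _ _ _ B F G hF hG
  exact ADBM.main (finrank D V) V B F G hF hG rfl

end Pool.Agent.Lib.MP_c37a72_al.NI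
end

section
/-!
# NI.BAL : `IsBal` can be checked on one basis
-/
set_option autoImplicit false

open Module

namespace Pool.Agent.Lib.MP_c37a72_al.NI

universe v

namespace BALM

variable {Q : Type v} {K X V S : Type v} [DivisionRing Q] [Field K] [AddCommGroup X]
  [Module Qᵐᵒᵖ X] [AddCommGroup V] [Module K V] [AddCommGroup S] [Module K S]

/-- The change of coordinates `(Fin m → V) → (Fin n → V)`. -/
noncomputable def chg (L : Q →+* Module.End K V) {n m : ℕ} (b : Basis (Fin n) Qᵐᵒᵖ X)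
    (b' : Basis (Fin m) Qᵐᵒᵖ X) (v : Fin m → V) : Fin n → V :=
  fun j => ∑ k, L (MulOpposite.unop (b.repr (b' k) j)) (v k)

/-- The product of the two matrices of change of coordinates. -/
theorem coeff {n m : ℕ} (b : Basis (Fin n) Qᵐᵒᵖ X) (b' : Basis (Fin m) Qᵐᵒᵖ X) (i k : Fin m) :
    ∑ j, MulOpposite.unop (b'.repr (b j) i) * MulOpposite.unop (b.repr (b' k) j) =
      if k = i then 1 else 0 := by
  have h1 : ∑ j, MulOpposite.unop (b'.repr (b j) i) * MulOpposite.unop (b.repr (b' k) j) =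
      MulOpposite.unop (∑ j, b.repr (b' k) j * b'.repr (b j) i) := by
    rw [Finset.unop_sum]
    exact Finset.sum_congr rfl fun j _ => (MulOpposite.unop_mul _ _).symm
  have h2 : ∑ j, b.repr (b' k) j * b'.repr (b j) i = b'.repr (b' k) i := by
    conv_rhs => rw [← b.sum_repr (b' k)]
    rw [map_sum, Finsupp.finsetSum_apply]
    refine Finset.sum_congr rfl fun j _ => ?_
    rw [map_smul, Finsupp.smul_apply, smul_eq_mul]
  rw [h1, h2, Basis.repr_self, Finsupp.single_apply]
  split_ifs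
  · rfl
  · rfl

theorem chg_chg (L : Q →+* Module.End K V) {n m : ℕ} (b : Basis (Fin n) Qᵐᵒᵖ X)
    (b' : Basis (Fin m) Qᵐᵒᵖ X) (v : Fin m → V) : chg L b' b (chg L b b' v) = v := by
  funext i
  show ∑ j, L (MulOpposite.unop (b'.repr (b j) i))
    (∑ k, L (MulOpposite.unop (b.repr (b' k) j)) (v k)) = v i
  have h1 : ∀ j, L (MulOpposite.unop (b'.repr (b j) i))
      (∑ k, L (MulOpposite.unop (b.repr (b' k) j)) (v k)) =
      ∑ k, L (MulOpposite.unop (b'.repr (b j) i) * MulOpposite.unop (b.repr (b' k) j)) (v k) := by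
    intro j
    rw [map_sum]
    refine Finset.sum_congr rfl fun k _ => ?_
    rw [map_mul, Module.End.mul_apply]
  rw [Finset.sum_congr rfl fun j _ => h1 j, Finset.sum_comm]
  have h2 : ∀ k, ∑ j, L (MulOpposite.unop (b'.repr (b j) i) *
      MulOpposite.unop (b.repr (b' k) j)) (v k) = if k = i then v k else 0 := by
    intro k
    rw [← LinearMap.sum_apply, ← map_sum, coeff]
    split_ifs
    · rw [map_one, Module.End.one_apply]
    · rw [map_zero, LinearMap.zero_apply]
  rw [Finset.sum_congr rfl fun k _ => h2 k, Finset.sum_ite_eq', if_pos (Finset.mem_univ i)]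

theorem chg_bijective (L : Q →+* Module.End K V) {n m : ℕ} (b : Basis (Fin n) Qᵐᵒᵖ X)
    (b' : Basis (Fin m) Qᵐᵒᵖ X) : Function.Bijective (chg L b b') :=
  Function.bijective_iff_has_inverse.2
    ⟨chg L b' b, fun v => chg_chg L b b' v, fun v => chg_chg L b' b v⟩

theorem sum_chg (L : Q →+* Module.End K V) (β : X →+ V →ₗ[K] S)
    (hbal : ∀ (x : X) (q : Q) (v : V), β (MulOpposite.op q • x) v = β x (L q v)) {n m : ℕ}
    (b : Basis (Fin n) Qᵐᵒᵖ X) (b' : Basis (Fin m) Qᵐᵒᵖ X) (v : Fin m → V) :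
    ∑ k, β (b' k) (v k) = ∑ j, β (b j) (chg L b b' v j) := by
  have h1 : ∀ k, β (b' k) (v k) =
      ∑ j, β (b j) (L (MulOpposite.unop (b.repr (b' k) j)) (v k)) := by
    intro k
    conv_lhs => rw [← b.sum_repr (b' k)]
    rw [map_sum, LinearMap.sum_apply]
    refine Finset.sum_congr rfl fun j _ => ?_
    rw [← hbal, MulOpposite.op_unop]
  rw [Finset.sum_congr rfl fun k _ => h1 k, Finset.sum_comm]
  refine Finset.sum_congr rfl fun j _ => ?_
  rw [← map_sum]
  rfl

end BALM

theorem specBAL : SpecBAL := by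
  intro Q K X V S _ _ _ _ _ _ _ _ L β hbal n b hb
  refine ⟨hbal, fun m b' => ?_⟩
  have h1 : (fun v : Fin m → V => ∑ i, β (b' i) (v i)) =
      (fun v : Fin n → V => ∑ i, β (b i) (v i)) ∘ BALM.chg L b b' := by
    funext v
    exact BALM.sum_chg L β hbal b b' v
  rw [h1]
  exact hb.comp (BALM.chg_bijective L b b')

end Pool.Agent.Lib.MP_c37a72_al.NI
end

section
/-!
# MP_c37a72_al, block NI, module BOX: the sum of two filtrations
-/
set_option autoImplicit false

open Module

namespace Pool.Agent.Lib.MP_c37a72_al.NI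

universe u v w

namespace BOXM

section

variable {D : Type u} {V : Type v} [DivisionRing D] [AddCommGroup V] [Module D V]

theorem isFil_mono {B B' : ℕ} (h : B ≤ B') {F : ℤ → Submodule D V} (hF : IsFil B F) :
    IsFil B' F :=
  ⟨hF.anti, fun a ha => hF.top a (by omega), fun a ha => hF.bot a (by omega)⟩

theorem span_inf {ι : Type*} (b : Basis ι D V) (I J : Set ι) :
    Submodule.span D (b '' I) ⊓ Submodule.span D (b '' J) = Submodule.span D (b '' (I ∩ J)) := by
  ext v
  rw [Submodule.mem_inf, b.mem_span_image, b.mem_span_image, b.mem_span_image,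
    Set.subset_inter_iff]

/-- The box filtration in an adapted basis. -/
theorem box_adp {ι : Type*} {F G : ℤ → Submodule D V} (b : Basis ι D V) (p q : ι → ℤ)
    (hF : Adp F b p) (hG : Adp G b q) : Adp (box F G) b (fun i => p i + q i) := by
  intro c
  unfold box
  have h1 : ∀ a, F a ⊓ G (c - a) = Submodule.span D (b '' ({i | a ≤ p i} ∩ {i | c - a ≤ q i})) := by
    intro a
    rw [hF a, hG (c - a), span_inf]
  simp only [h1]
  rw [← Submodule.span_iUnion, ← Set.image_iUnion]
  congr 2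
  ext i
  simp only [Set.mem_iUnion, Set.mem_inter_iff, Set.mem_ofPred_eq]
  constructor
  · rintro ⟨a, h1, h2⟩
    omega
  · intro h
    exact ⟨p i, le_rfl, by omega⟩

/-- A filtration with an adapted basis. -/
theorem isFil_of_adp {ι : Type*} {F : ℤ → Submodule D V} (b : Basis ι D V) (w : ι → ℤ) (B : ℕ)
    (hF : Adp F b w) (hw : ∀ i, -(B : ℤ) ≤ w i ∧ w i ≤ B) : IsFil B F := by
  refine ⟨?_, ?_, ?_⟩
  · intro a a' h
    rw [hF a, hF a']
    apply Submodule.span_mono
    apply Set.image_mono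
    intro i hi
    have hi' : a' ≤ w i := hi
    exact le_trans h hi'
  · intro a ha
    rw [hF a]
    have : {i | a ≤ w i} = Set.univ := by
      ext i
      simp only [Set.mem_ofPred_eq, Set.mem_univ, iff_true]
      have := (hw i).1
      omega
    rw [this, Set.image_univ, b.span_eq]
  · intro a ha
    rw [hF a]
    have : {i | a ≤ w i} = ∅ := by
      ext i
      simp only [Set.mem_ofPred_eq, Set.mem_empty_iff_false, iff_false]
      have := (hw i).2
      omega
    rw [this, Set.image_empty, Submodule.span_empty]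

end

/-- The first part. -/
theorem part1 (hADB : SpecADB.{v}) (hFDA : SpecFDA.{v}) (D : Type v) (V : Type v) [DivisionRing D]
    [AddCommGroup V] [Module D V] [Module.Finite D V] (B B' : ℕ) (F G : ℤ → Submodule D V)
    (hF : IsFil B F) (hG : IsFil B' G) : IsFil (B + B') (box F G) := by
  obtain ⟨b, p, q, hp, hq⟩ := hADB D V (B + B') F G (isFil_mono (by omega) hF)
    (isFil_mono (by omega) hG)
  refine isFil_of_adp b (fun i => p i + q i) (B + B') (box_adp b p q hp hq) ?_
  intro i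
  have h1 := ((hFDA D V B F hF).1 _ b p hp).1 i
  have h2 := ((hFDA D V B' G hG).1 _ b q hq).1 i
  push_cast
  exact ⟨by linarith [h1.1, h2.1], by linarith [h1.2, h2.2]⟩

section

variable {Q : Type v} {K X V S : Type v} [DivisionRing Q] [Field K] [AddCommGroup X]
  [Module Qᵐᵒᵖ X] [AddCommGroup V] [Module K V] [AddCommGroup S] [Module K S]

theorem box_st (L : Q →+* Module.End K V) {G N : ℤ → Submodule K V} (hG : ∀ a, LSt L (G a))
    (hN : ∀ a, LSt L (N a)) (c : ℤ) : LSt L (box G N c) := by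
  intro q
  have : box G N c ≤ (box G N c).comap (L q) := by
    unfold box
    refine iSup_le (fun a => ?_)
    intro v hv
    rw [Submodule.mem_comap]
    exact Submodule.mem_iSup_of_mem a ⟨hG a q v hv.1, hN (c - a) q v hv.2⟩
  exact fun v hv => this hv

end

end BOXM

open BOXM in
theorem specBOX (hADB : SpecADB.{v}) (hFDA : SpecFDA.{v}) (hTPB : SpecTPB.{v}) : SpecBOX.{v} := by
  refine ⟨?_, ?_⟩
  · intro D V _ _ _ _ B B' F G hF hG
    exact ⟨part1 hADB hFDA D V B B' F G hF hG, fun n b p q hp hq => box_adp b p q hp hq⟩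
  · intro Q K X V S _ _ _ _ _ _ _ _ _ _ L β hβ B B' F M G N hF hG hM hN hGs hNs
    refine ⟨box_st L hGs hNs, ?_⟩
    intro S'
    obtain ⟨hfin, hb, hc, -, -⟩ := hTPB Q K X V S L β hβ
    -- the common adapted bases
    obtain ⟨x, p, p', hp, hp'⟩ := hADB Qᵐᵒᵖ X (B + B') F M (isFil_mono (by omega) hF)
      (isFil_mono (by omega) hM)
    obtain ⟨y, q, q', hq, hq'⟩ := hADB K V (B + B') G N (isFil_mono (by omega) hG)
      (isFil_mono (by omega) hN)
    obtain ⟨z, -, hz⟩ := hb _ _ x y
    have z1 := hz F G p q hGs hp hq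
    have z2 := hz M N p' q' hNs hp' hq'
    have z3 := hz (box F M) (box G N) _ _ (box_st L hGs hNs) (box_adp x p p' hp hp')
      (box_adp y q q' hq hq')
    have key : ∀ c d : ℤ, conv β F G c ⊓ conv β M N d ≤ conv β (box F M) (box G N) (c + d) := by
      intro c d
      rw [z1 c, z2 d, z3 (c + d), span_inf]
      apply Submodule.span_mono
      apply Set.image_mono
      rintro ij ⟨h1, h2⟩
      simp only [Set.mem_ofPred_eq] at h1 h2 ⊢
      omega
    have f1 : IsFil (B + B) (conv β F G) := hc B B F G hF hG hGs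
    have f2 : IsFil (B' + B') (conv β M N) := hc B' B' M N hM hN hNs
    have f3 : IsFil ((B + B') + (B + B')) (conv β (box F M) (box G N)) :=
      hc (B + B') (B + B') _ _ (part1 hADB hFDA Qᵐᵒᵖ X B B' F M hF hM)
        (part1 hADB hFDA K V B B' G N hG hN) (box_st L hGs hNs)
    have e1 : B + B = 2 * B := by omega
    have e2 : B' + B' = 2 * B' := by omega
    have e3 : (B + B') + (B + B') = 2 * (B + B') := by omega
    rw [e1] at f1
    rw [e2] at f2
    rw [e3] at f3
    have f1' : IsFil (2 * (B + B')) (conv β F G) := isFil_mono (by omega) f1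
    have f2' : IsFil (2 * (B + B')) (conv β M N) := isFil_mono (by omega) f2
    obtain ⟨-, a2, -, -, a5⟩ := hFDA K S (2 * B) (conv β F G) f1
    obtain ⟨-, b2, -, -, -⟩ := hFDA K S (2 * B') (conv β M N) f2
    obtain ⟨-, -, -, -, c5⟩ := hFDA K S (2 * (B + B')) (conv β F G) f1'
    obtain ⟨-, -, -, d4, -⟩ := hFDA K S (2 * (B + B')) _ f3
    obtain ⟨s, c, d, hs, hspan, hsc, hsd, hc1, hd1⟩ := c5 (conv β M N) f2' S'
    rw [← a2 (2 * (B + B')) S' (by omega), ← b2 (2 * (B + B')) S' (by omega), ← hc1, ← hd1,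
      ← Finset.sum_add_distrib]
    have := d4 (Fin (finrank K S')) s (fun i => c i + d i) hs
      (fun i => key (c i) (d i) ⟨hsc i, hsd i⟩)
    rw [hspan] at this
    exact this

end Pool.Agent.Lib.MP_c37a72_al.NI
end

section
/-!
# MP_c37a72_al, block NI, module COV: the weight filtration of a tensor product
-/
set_option autoImplicit false

open Module

namespace Pool.Agent.Lib.MP_c37a72_al.NI

universe u v w

namespace COVM

section

variable {Q : Type u} {K X V S : Type v} [DivisionRing Q] [Field K] [AddCommGroup X]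
  [Module Qᵐᵒᵖ X] [Module.Finite Qᵐᵒᵖ X] [AddCommGroup V] [Module K V] [AddCommGroup S]
  [Module K S]

theorem mem_tns_top (L : Q →+* Module.End K V) (β : X →+ V →ₗ[K] S) (hβ : IsBal L β) (s : S) :
    s ∈ Submodule.span K {s | ∃ x : X, ∃ v : V, s = β x v} := by
  obtain ⟨v, hv⟩ := (hβ.bij _ (Module.finBasis Qᵐᵒᵖ X)).2 s
  rw [← hv]
  refine Submodule.sum_mem _ fun i _ => Submodule.subset_span ⟨_, _, rfl⟩

theorem tns_top (L : Q →+* Module.End K V) (β : X →+ V →ₗ[K] S) (hβ : IsBal L β) :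
    tns β (⊤ : Submodule Qᵐᵒᵖ X) (⊤ : Submodule K V) = ⊤ := by
  rw [eq_top_iff]
  intro s _
  refine Submodule.span_mono ?_ (mem_tns_top L β hβ s)
  rintro _ ⟨x, v, rfl⟩
  exact ⟨x, Submodule.mem_top, v, Submodule.mem_top, rfl⟩

theorem pow_zero_gen (n : Module.End Qᵐᵒᵖ X) (s : Module.End K V) (T : Module.End K S)
    (β : X →+ V →ₗ[K] S) (hT : ∀ x y, T (β x y) = β (n x) y + β x (s y)) (B : ℕ)
    (hn : n ^ B = 0) (hs : s ^ B = 0) (m a b : ℕ) (h : 2 * B ≤ a + b + m + 1) (x : X) (v : V) :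
    (T ^ m) (β ((n ^ a) x) ((s ^ b) v)) = 0 := by
  induction m generalizing a b with
  | zero =>
    rw [pow_zero, Module.End.one_apply]
    by_cases ha : B ≤ a
    · obtain ⟨d, rfl⟩ := Nat.exists_eq_add_of_le ha
      rw [pow_add, hn, zero_mul, LinearMap.zero_apply, map_zero, LinearMap.zero_apply]
    · have hb : B ≤ b := by omega
      obtain ⟨d, rfl⟩ := Nat.exists_eq_add_of_le hb
      rw [pow_add, hs, zero_mul, LinearMap.zero_apply, map_zero]
  | succ m ih =>
    rw [pow_succ, Module.End.mul_apply, hT, map_add, ← Module.End.mul_apply n,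
      ← Module.End.mul_apply s, ← pow_succ', ← pow_succ', ih (a + 1) b (by omega),
      ih a (b + 1) (by omega), add_zero]

end

end COVM

open COVM in
theorem specCOV (hTPB : SpecTPB.{v}) (hTDG : SpecTDG.{v})
    (hWTA : SpecWTA.{v}) (hTWT : SpecTWT.{v}) : SpecCOV.{v} := by
  intro Q K X V S _ _ _ _ _ _ _ _ _ _ _ L β hβ n s T B hT hL hn hs
  obtain ⟨hfin, -, h3, -, -⟩ := hTPB Q K X V S L β hβ
  have hTB : T ^ (2 * B) = 0 := by
    refine LinearMap.ext fun y => ?_
    rw [LinearMap.zero_apply]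
    refine Submodule.span_induction (p := fun y _ => (T ^ (2 * B)) y = 0) ?_ ?_ ?_ ?_
      (mem_tns_top L β hβ y)
    · rintro _ ⟨x, v, rfl⟩
      have := pow_zero_gen n s T β hT B hn hs (2 * B) 0 0 (by omega) x v
      simpa using this
    · exact map_zero _
    · intro a b _ _ ha hb
      rw [map_add, ha, hb, add_zero]
    · intro c a _ ha
      rw [map_smul, ha, smul_zero]
  have hst : ∀ a, LSt L (wt s a) := by
    intro a q v hv
    exact wt_map s s (L q).toAddMonoidHom (fun x => hL q x) hv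
  refine ⟨hTB, hst, ?_⟩
  have hle : ∀ c, conv β (wt n) (wt s) c ≤ wt T c := by
    let _ : Module ℚ S := Module.compHom S (algebraMap ℚ K)
    intro c
    refine iSup_le fun a => Submodule.span_le.2 ?_
    rintro _ ⟨x, hx, v, hv, rfl⟩
    have := hTWT Qᵐᵒᵖ K K X V S n s T (LinearMap.toAddMonoidHom'.comp β) (fun x y => hT x y)
      a (c - a) x v hx hv
    rw [add_sub_cancel] at this
    exact this
  obtain ⟨hFn, hdn⟩ := hWTA.2.2 Qᵐᵒᵖ X n B hn
  have hV : Module.Finite K V := inferInstance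
  obtain ⟨hFs, hds⟩ := hWTA.2.2 K V s B hs
  obtain ⟨hFT, hdT⟩ := hWTA.2.2 K S T (2 * B) hTB
  have hFc : IsFil (B + B) (conv β (wt n) (wt s)) := h3 B B (wt n) (wt s) hFn hFs hst
  have hdc := hTDG Q K X V S L β hβ B B (wt n) (wt s) hFn hFs hst ⊤ ⊤
    (fun _ _ _ => Submodule.mem_top)
  rw [tns_top L β hβ, hdn, hds, mul_zero, mul_zero, add_zero] at hdc
  rw [← two_mul] at hFc hdc
  unfold deg at hdT hdc
  have hsum : ∑ a ∈ Finset.Ioc (-((2 * B : ℕ) : ℤ)) ((2 * B : ℕ) : ℤ),
      (finrank K ↥((⊤ : Submodule K S) ⊓ conv β (wt n) (wt s) a) : ℤ) =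
      ∑ a ∈ Finset.Ioc (-((2 * B : ℕ) : ℤ)) ((2 * B : ℕ) : ℤ),
        (finrank K ↥((⊤ : Submodule K S) ⊓ wt T a) : ℤ) := by
    linarith
  have hmono : ∀ a, (finrank K ↥((⊤ : Submodule K S) ⊓ conv β (wt n) (wt s) a) : ℤ) ≤
      (finrank K ↥((⊤ : Submodule K S) ⊓ wt T a) : ℤ) := by
    intro a
    rw [top_inf_eq, top_inf_eq]
    exact_mod_cast Submodule.finrank_mono (hle a)
  have heq := (Finset.sum_eq_sum_iff_of_le (fun a _ => hmono a)).1 hsum
  intro c
  by_cases h1 : c ≤ -((2 * B : ℕ) : ℤ)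
  · rw [hFc.top c h1, hFT.top c h1]
  · by_cases h2 : ((2 * B : ℕ) : ℤ) < c
    · rw [hFc.bot c h2, hFT.bot c h2]
    · have h3 := heq c (Finset.mem_Ioc.2 ⟨by omega, by omega⟩)
      rw [top_inf_eq, top_inf_eq] at h3
      exact Submodule.eq_of_le_of_finrank_eq (hle c) (by exact_mod_cast h3)

end Pool.Agent.Lib.MP_c37a72_al.NI
end

section
set_option autoImplicit false

open Module

namespace Pool.Agent.Lib.MP_c37a72_al.NI

universe u v w

namespace FDAM

variable {D : Type v} {V : Type v} [DivisionRing D] [AddCommGroup V] [Module D V]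

lemma cnt (B : ℕ) (c : ℤ) (hc : c ≤ B) :
    c + B ≤ ∑ a ∈ Finset.Ioc (-(B : ℤ)) B, (if a ≤ c then (1 : ℤ) else 0) := by
  rw [Finset.sum_boole]
  have h1 : (Finset.Ioc (-(B : ℤ)) B).filter (fun a => a ≤ c) = Finset.Ioc (-(B : ℤ)) c := by
    ext a
    simp only [Finset.mem_filter, Finset.mem_Ioc]
    omega
  rw [h1, Int.card_Ioc]
  omega

lemma cnt' (B : ℕ) (c : ℤ) (hc : c ≤ B) (hc' : -(B : ℤ) ≤ c) :
    ∑ a ∈ Finset.Ioc (-(B : ℤ)) B, (if a ≤ c then (1 : ℤ) else 0) = c + B := by
  rw [Finset.sum_boole]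
  have h1 : (Finset.Ioc (-(B : ℤ)) B).filter (fun a => a ≤ c) = Finset.Ioc (-(B : ℤ)) c := by
    ext a
    simp only [Finset.mem_filter, Finset.mem_Ioc]
    omega
  rw [h1, Int.card_Ioc]
  omega

/-- dimension of the span of an independent family restricted to a finset -/
lemma fr {ι : Type} {x : ι → V} (hx : LinearIndependent D x) (S : Finset ι) :
    finrank D (Submodule.span D (x '' (S : Set ι))) = S.card := by
  have h1 : LinearIndependent D (fun i : S => x i) := hx.comp _ Subtype.val_injective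
  have h2 : x '' (S : Set ι) = Set.range (fun i : S => x i) := by
    ext v
    simp
  rw [h2, finrank_span_eq_card h1, Fintype.card_coe]

lemma inf_span {ι : Type} (b : Basis ι D V) (S T : Set ι) :
    Submodule.span D (b '' S) ⊓ Submodule.span D (b '' T) = Submodule.span D (b '' (S ∩ T)) := by
  ext m
  rw [Submodule.mem_inf, b.mem_span_image, b.mem_span_image, b.mem_span_image, Set.subset_inter_iff]

section A

variable {B : ℕ} {F : ℤ → Submodule D V} (hF : IsFil B F) {ι : Type} [Fintype ι] (b : Basis ι D V)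
  (p : ι → ℤ) (hA : Adp F b p)

include hF hA

lemma a1 (i : ι) : -(B : ℤ) ≤ p i ∧ p i ≤ B := by
  constructor
  · have h1 : b i ∈ Submodule.span D (b '' {i | -(B : ℤ) ≤ p i}) := by
      rw [← hA, hF.top _ le_rfl]
      exact Submodule.mem_top
    rw [b.mem_span_image, b.repr_self] at h1
    have h2 : i ∈ ((Finsupp.single i (1 : D)).support : Set ι) := by
      simp
    exact h1 h2
  · by_contra hcon
    have h1 : b i ∈ F (p i) := by
      rw [hA (p i)]
      exact Submodule.subset_span ⟨i, le_refl (p i), rfl⟩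
    rw [hF.bot _ (by omega), Submodule.mem_bot] at h1
    exact b.ne_zero i h1

lemma a2 (J : Finset ι) : deg B F (Submodule.span D (b '' (J : Set ι))) = ∑ i ∈ J, p i := by
  classical
  unfold deg
  have h1 : ∀ a : ℤ, (finrank D ↥(Submodule.span D (b '' (J : Set ι)) ⊓ F a) : ℤ) =
      ∑ i ∈ J, (if a ≤ p i then (1 : ℤ) else 0) := by
    intro a
    rw [hA a, inf_span]
    have h2 : (J : Set ι) ∩ {i | a ≤ p i} = ((J.filter fun i => a ≤ p i : Finset ι) : Set ι) := by
      ext i
      simp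
    rw [h2, fr b.linearIndependent, Finset.sum_boole]
  simp only [h1]
  rw [Finset.sum_comm, fr b.linearIndependent]
  have h3 : ∀ i ∈ J, ∑ a ∈ Finset.Ioc (-(B : ℤ)) B, (if a ≤ p i then (1 : ℤ) else 0) = p i + B :=
    fun i _ => cnt' B (p i) (a1 hF b p hA i).2 (a1 hF b p hA i).1
  rw [Finset.sum_congr rfl h3, Finset.sum_add_distrib, Finset.sum_const, nsmul_eq_mul]
  ring

lemma a3 : deg B F ⊤ = ∑ i, p i := by
  have h1 := a2 hF b p hA Finset.univ
  rwa [Finset.coe_univ, Set.image_univ, b.span_eq] at h1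

lemma a4 (g : ℤ → ℤ) : wsum B F g = ∑ i, g (p i) := by
  classical
  unfold wsum
  have h1 : ∀ a : ℤ, (finrank D (F a) : ℤ) = ∑ i, (if a ≤ p i then (1 : ℤ) else 0) := by
    intro a
    rw [hA a]
    have h2 : {i | a ≤ p i} = ((Finset.univ.filter fun i => a ≤ p i : Finset ι) : Set ι) := by
      ext i
      simp
    rw [h2, fr b.linearIndependent, Finset.sum_boole]
  have h3 : ∀ a : ℤ, g a * ((finrank D (F a) : ℤ) - finrank D (F (a + 1))) =
      ∑ i, (if p i = a then g a else 0) := by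
    intro a
    rw [h1, h1, ← Finset.sum_sub_distrib, Finset.mul_sum]
    refine Finset.sum_congr rfl fun i _ => ?_
    by_cases h4 : p i = a
    · rw [if_pos h4, if_pos (by omega), if_neg (by omega)]
      ring
    · rw [if_neg h4]
      by_cases h5 : a ≤ p i
      · rw [if_pos h5, if_pos (by omega)]
        ring
      · rw [if_neg h5, if_neg (by omega)]
        ring
  simp only [h3]
  rw [Finset.sum_comm]
  refine Finset.sum_congr rfl fun i _ => ?_
  have h6 := a1 hF b p hA i
  rw [Finset.sum_ite_eq, if_pos]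
  rw [Finset.mem_Icc]
  exact h6

end A

lemma bstep {B C : ℕ} (hBC : B ≤ C) {F : ℤ → Submodule D V} (hF : IsFil B F) (W : Submodule D V) :
    deg (C + 1) F W = deg C F W := by
  unfold deg
  have h1 : Finset.Ioc (-((C + 1 : ℕ) : ℤ)) ((C + 1 : ℕ) : ℤ) =
      insert (-(C : ℤ)) (insert ((C : ℤ) + 1) (Finset.Ioc (-(C : ℤ)) C)) := by
    ext a
    simp only [Finset.mem_insert, Finset.mem_Ioc]
    push_cast
    omega
  rw [h1, Finset.sum_insert (by
      simp only [Finset.mem_insert, Finset.mem_Ioc]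
      omega), Finset.sum_insert (by
      simp only [Finset.mem_Ioc]
      omega), hF.top _ (by omega), hF.bot _ (by omega), inf_top_eq, inf_bot_eq, finrank_bot]
  push_cast
  ring

lemma bb {B B' : ℕ} (hB : B ≤ B') {F : ℤ → Submodule D V} (hF : IsFil B F) (W : Submodule D V) :
    deg B' F W = deg B F W := by
  induction B', hB using Nat.le_induction with
  | base => rfl
  | succ C hC ih => rw [bstep hC hF, ih]

lemma cc [Module.Finite D V] {B : ℕ} {F F' : ℤ → Submodule D V} (h : ∀ a, F a ≤ F' a) (W : Submodule D V) :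
    deg B F W ≤ deg B F' W := by
  unfold deg
  have h1 : ∑ a ∈ Finset.Ioc (-(B : ℤ)) B, (finrank D ↥(W ⊓ F a) : ℤ) ≤
      ∑ a ∈ Finset.Ioc (-(B : ℤ)) B, (finrank D ↥(W ⊓ F' a) : ℤ) := by
    refine Finset.sum_le_sum fun a _ => ?_
    have := Submodule.finrank_mono (inf_le_inf_left W (h a))
    exact_mod_cast this
  linarith

lemma dd [Module.Finite D V] {B : ℕ} {F : ℤ → Submodule D V} (hF : IsFil B F) {ι : Type} [Fintype ι]
    (x : ι → V) (c : ι → ℤ) (hx : LinearIndependent D x) (hc : ∀ i, x i ∈ F (c i)) :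
    ∑ i, c i ≤ deg B F (Submodule.span D (Set.range x)) := by
  classical
  unfold deg
  have hcB : ∀ i, c i ≤ B := by
    intro i
    by_contra hcon
    have h1 := hc i
    rw [hF.bot _ (by omega), Submodule.mem_bot] at h1
    exact hx.ne_zero i h1
  have h1 : ∀ a : ℤ, ∑ i, (if a ≤ c i then (1 : ℤ) else 0) ≤
      (finrank D ↥(Submodule.span D (Set.range x) ⊓ F a) : ℤ) := by
    intro a
    have h2 : Submodule.span D (x '' ((Finset.univ.filter fun i => a ≤ c i : Finset ι) : Set ι)) ≤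
        Submodule.span D (Set.range x) ⊓ F a := by
      apply le_inf
      · exact Submodule.span_mono (Set.image_subset_range _ _)
      · rw [Submodule.span_le]
        rintro _ ⟨i, hi, rfl⟩
        have hi' : a ≤ c i := by simpa using hi
        exact hF.anti hi' (hc i)
    have h3 := Submodule.finrank_mono h2
    rw [fr hx] at h3
    rw [Finset.sum_boole]
    exact_mod_cast h3
  have h4 : ∑ i, (c i + (B : ℤ)) ≤ ∑ a ∈ Finset.Ioc (-(B : ℤ)) B,
      (finrank D ↥(Submodule.span D (Set.range x) ⊓ F a) : ℤ) := by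
    calc ∑ i, (c i + (B : ℤ)) ≤ ∑ i, ∑ a ∈ Finset.Ioc (-(B : ℤ)) B, (if a ≤ c i then (1 : ℤ) else 0) :=
          Finset.sum_le_sum fun i _ => cnt B (c i) (hcB i)
      _ = ∑ a ∈ Finset.Ioc (-(B : ℤ)) B, ∑ i, (if a ≤ c i then (1 : ℤ) else 0) := Finset.sum_comm
      _ ≤ _ := Finset.sum_le_sum fun a _ => h1 a
  rw [Finset.sum_add_distrib, Finset.sum_const, nsmul_eq_mul, Finset.card_univ] at h4
  rw [finrank_span_eq_card hx]
  linarith

lemma ee (hADB : SpecADB.{v}) [Module.Finite D V] {B : ℕ} {F G : ℤ → Submodule D V} (hF : IsFil B F)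
    (hG : IsFil B G) (W : Submodule D V) :
    ∃ (x : Fin (finrank D W) → V) (c d : Fin (finrank D W) → ℤ), LinearIndependent D x ∧
        Submodule.span D (Set.range x) = W ∧ (∀ i, x i ∈ F (c i)) ∧ (∀ i, x i ∈ G (d i)) ∧
        ∑ i, c i = deg B F W ∧ ∑ i, d i = deg B G W := by
  have hfil : ∀ H : ℤ → Submodule D V, IsFil B H → IsFil B (fun a => (H a).comap W.subtype) := by
    intro H hH
    refine ⟨fun x y hxy => Submodule.comap_mono (hH.anti hxy), fun x hx => ?_, fun x hx => ?_⟩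
    · rw [hH.top x hx, Submodule.comap_top]
    · rw [hH.bot x hx, Submodule.comap_bot, Submodule.ker_subtype]
  have hdeg : ∀ H : ℤ → Submodule D V, deg B (fun a => (H a).comap W.subtype) ⊤ = deg B H W := by
    intro H
    unfold deg
    have h1 : ∀ a : ℤ, finrank D ↥((⊤ : Submodule D W) ⊓ (H a).comap W.subtype) = finrank D ↥(W ⊓ H a) := by
      intro a
      rw [top_inf_eq, ← Submodule.map_comap_subtype, Submodule.finrank_map_subtype_eq]
    simp only [h1, finrank_top]
  obtain ⟨b, p, q, hp, hq⟩ := hADB D W B _ _ (hfil F hF) (hfil G hG)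
  refine ⟨fun i => (b i : V), p, q, ?_, ?_, ?_, ?_, ?_, ?_⟩
  · exact b.linearIndependent.map' W.subtype (Submodule.ker_subtype W)
  · have h1 : Set.range (fun i => (b i : V)) = W.subtype '' Set.range b := by
      rw [← Set.range_comp]
      rfl
    rw [h1, ← Submodule.map_span, b.span_eq, Submodule.map_top, Submodule.range_subtype]
  · intro i
    have h1 : b i ∈ (F (p i)).comap W.subtype := by
      have h2 := hp (p i)
      simp only at h2
      rw [h2]
      exact Submodule.subset_span ⟨i, le_refl (p i), rfl⟩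
    exact h1
  · intro i
    have h1 : b i ∈ (G (q i)).comap W.subtype := by
      have h2 := hq (q i)
      simp only at h2
      rw [h2]
      exact Submodule.subset_span ⟨i, le_refl (q i), rfl⟩
    exact h1
  · rw [← hdeg F, a3 (hfil F hF) b p hp]
  · rw [← hdeg G, a3 (hfil G hG) b q hq]

end FDAM

theorem specFDA (hADB : SpecADB.{v}) : SpecFDA.{v} := by
  intro D V _ _ _ _ B F hF
  refine ⟨fun ι _ b p hA => ⟨FDAM.a1 hF b p hA, FDAM.a2 hF b p hA, FDAM.a3 hF b p hA, FDAM.a4 hF b p hA⟩,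
    fun B' W hB => FDAM.bb hB hF W, fun F' W h => FDAM.cc h W, fun ι _ x c hx hc => FDAM.dd hF x c hx hc,
    fun G hG W => FDAM.ee hADB hF hG W⟩

end Pool.Agent.Lib.MP_c37a72_al.NI
end

section
/-!
# MP_c37a72_al, block NI, module FDB (helper60)

Degrees of sums, quotients, images.
-/
set_option autoImplicit false

open Module

namespace Pool.Agent.Lib.MP_c37a72_al.NI

universe u v w

namespace FDBM

variable {D : Type u} {V : Type v} [DivisionRing D] [AddCommGroup V] [Module D V]
  [Module.Finite D V]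

theorem rn (U V1 : Submodule D V) :
    finrank D U = finrank D ↥(U ⊓ V1) + finrank D ↥(U.map V1.mkQ) := by
  have h1 := LinearMap.finrank_range_add_finrank_ker (V1.mkQ.domRestrict U)
  have h2 : LinearMap.range (V1.mkQ.domRestrict U) = U.map V1.mkQ := by
    ext x
    constructor
    · rintro ⟨⟨y, hy⟩, rfl⟩
      exact ⟨y, hy, rfl⟩
    · rintro ⟨y, hy, rfl⟩
      exact ⟨⟨y, hy⟩, rfl⟩
  have h3 : LinearMap.ker (V1.mkQ.domRestrict U) = V1.comap U.subtype := by
    ext x
    rw [LinearMap.mem_ker, Submodule.mem_comap]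
    show V1.mkQ (x : V) = 0 ↔ _
    rw [Submodule.mkQ_apply, Submodule.Quotient.mk_eq_zero]
    rfl
  have h4 : finrank D ↥(V1.comap U.subtype) = finrank D ↥(U ⊓ V1) := by
    rw [← Submodule.map_comap_subtype, Submodule.finrank_map_subtype_eq]
  rw [h2, h3, h4] at h1
  omega

theorem sup_le (F W W' : Submodule D V) :
    finrank D ↥(W ⊓ F) + finrank D ↥(W' ⊓ F) ≤
      finrank D ↥((W ⊔ W') ⊓ F) + finrank D ↥((W ⊓ W') ⊓ F) := by
  have h1 := Submodule.finrank_sup_add_finrank_inf_eq (W ⊓ F) (W' ⊓ F)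
  have h2 : (W ⊓ F) ⊔ (W' ⊓ F) ≤ (W ⊔ W') ⊓ F :=
    _root_.sup_le (inf_le_inf_right _ le_sup_left) (inf_le_inf_right _ le_sup_right)
  have h3 : (W ⊓ F) ⊓ (W' ⊓ F) = (W ⊓ W') ⊓ F := by
    rw [← inf_inf_distrib_right]
  have h4 := Submodule.finrank_mono h2
  rw [h3] at h1
  omega

theorem card_Ioc (B : ℕ) : (Finset.Ioc (-(B : ℤ)) B).card = 2 * B := by
  rw [Int.card_Ioc]
  omega

end FDBM

open FDBM in
/-- **FDB**. -/
theorem specFDB : SpecFDB.{v} := by
  intro D V _ _ _ _ B F hF
  refine ⟨?_, ?_, ?_, ?_, ?_⟩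
  · intro W W'
    unfold deg
    have h1 := Submodule.finrank_sup_add_finrank_inf_eq W W'
    have h2 : ∑ a ∈ Finset.Ioc (-(B : ℤ)) B, (finrank D ↥(W ⊓ F a) : ℤ) +
        ∑ a ∈ Finset.Ioc (-(B : ℤ)) B, (finrank D ↥(W' ⊓ F a) : ℤ) ≤
        ∑ a ∈ Finset.Ioc (-(B : ℤ)) B, (finrank D ↥((W ⊔ W') ⊓ F a) : ℤ) +
        ∑ a ∈ Finset.Ioc (-(B : ℤ)) B, (finrank D ↥((W ⊓ W') ⊓ F a) : ℤ) := by
      rw [← Finset.sum_add_distrib, ← Finset.sum_add_distrib]
      apply Finset.sum_le_sum
      intro a _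
      exact_mod_cast FDBM.sup_le (F a) W W'
    have h3 : (B : ℤ) * finrank D ↥(W ⊔ W') + B * finrank D ↥(W ⊓ W') =
        B * finrank D W + B * finrank D W' := by
      rw [← mul_add, ← mul_add]
      congr 1
      exact_mod_cast h1
    linarith
  · intro V1
    refine ⟨⟨?_, ?_, ?_⟩, ?_⟩
    · intro a b hab
      exact Submodule.map_mono (hF.anti hab)
    · intro a ha
      show (F a).map V1.mkQ = ⊤
      rw [hF.top a ha, Submodule.map_top, Submodule.range_mkQ]
    · intro a ha
      show (F a).map V1.mkQ = ⊥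
      rw [hF.bot a ha, Submodule.map_bot]
    · intro W
      have hle : ∀ a, (finrank D ↥(W ⊓ F a) : ℤ) ≤ finrank D ↥((W ⊓ V1) ⊓ F a) +
          finrank D ↥(W.map V1.mkQ ⊓ (F a).map V1.mkQ) := by
        intro a
        have h1 := rn (W ⊓ F a) V1
        have h2 : (W ⊓ F a).map V1.mkQ ≤ W.map V1.mkQ ⊓ (F a).map V1.mkQ :=
          le_inf (Submodule.map_mono inf_le_left) (Submodule.map_mono inf_le_right)
        have h3 := Submodule.finrank_mono h2
        have h4 : (W ⊓ F a) ⊓ V1 = (W ⊓ V1) ⊓ F a := by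
          rw [inf_assoc, inf_comm (F a), ← inf_assoc]
        rw [h4] at h1
        exact_mod_cast (by omega : finrank D ↥(W ⊓ F a) ≤ finrank D ↥((W ⊓ V1) ⊓ F a) +
          finrank D ↥(W.map V1.mkQ ⊓ (F a).map V1.mkQ))
      have hW : (finrank D W : ℤ) = finrank D ↥(W ⊓ V1) + finrank D ↥(W.map V1.mkQ) := by
        exact_mod_cast rn W V1
      constructor
      · unfold deg
        have h5 := Finset.sum_le_sum (s := Finset.Ioc (-(B : ℤ)) B) fun a _ => hle a
        rw [Finset.sum_add_distrib] at h5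
        rw [hW, mul_add]
        linarith
      · intro hV
        have heq : ∀ a, (finrank D ↥(W ⊓ F a) : ℤ) = finrank D ↥(V1 ⊓ F a) +
            finrank D ↥(W.map V1.mkQ ⊓ (F a).map V1.mkQ) := by
          intro a
          have h1 := rn (W ⊓ F a) V1
          have h2 : (W ⊓ F a).map V1.mkQ = W.map V1.mkQ ⊓ (F a).map V1.mkQ := by
            apply le_antisymm
            · exact le_inf (Submodule.map_mono inf_le_left) (Submodule.map_mono inf_le_right)
            · rintro x ⟨⟨y, hy, rfl⟩, ⟨z, hz, hzy⟩⟩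
              have hzy' : z - y ∈ V1 := by
                rw [← Submodule.Quotient.mk_eq_zero, Submodule.Quotient.mk_sub, sub_eq_zero]
                exact hzy
              refine ⟨z, ⟨?_, hz⟩, hzy⟩
              have h3 : z = (z - y) + y := by abel
              show z ∈ W
              rw [h3]
              exact W.add_mem (hV hzy') hy
          have h4 : (W ⊓ F a) ⊓ V1 = V1 ⊓ F a := by
            rw [inf_assoc, inf_comm (F a), ← inf_assoc, inf_eq_right.2 hV]
          rw [h4, h2] at h1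
          exact_mod_cast h1
        rw [inf_eq_right.2 hV] at hW
        unfold deg
        rw [Finset.sum_congr rfl fun a _ => heq a, Finset.sum_add_distrib, hW]
        ring
  · intro V' _ _ e W
    unfold deg
    have h1 : ∀ U : Submodule D V, finrank D ↥(U.map (e : V →ₗ[D] V')) = finrank D U :=
      fun U => LinearEquiv.finrank_map_eq e U
    rw [h1]
    congr 1
    apply Finset.sum_congr rfl
    intro a _
    rw [← Submodule.map_inf _ e.injective, h1]
  · intro W
    unfold deg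
    have h0 : ∀ a, (finrank D ↥(W ⊓ F a) : ℤ) ≤ finrank D W := fun a => by
      exact_mod_cast Submodule.finrank_mono (inf_le_left : W ⊓ F a ≤ W)
    have h1 : ∑ a ∈ Finset.Ioc (-(B : ℤ)) B, (finrank D ↥(W ⊓ F a) : ℤ) ≤
        ∑ a ∈ Finset.Ioc (-(B : ℤ)) B, (finrank D W : ℤ) :=
      Finset.sum_le_sum fun a _ => h0 a
    have h2 : 0 ≤ ∑ a ∈ Finset.Ioc (-(B : ℤ)) B, (finrank D ↥(W ⊓ F a) : ℤ) :=
      Finset.sum_nonneg fun a _ => Int.natCast_nonneg _
    rw [Finset.sum_const, card_Ioc, nsmul_eq_mul] at h1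
    push_cast at h1
    rw [abs_le]
    constructor <;> linarith
  · unfold deg
    have h1 : ∑ a ∈ Finset.Ioc (-(B : ℤ)) B,
        (finrank D ↥((⊥ : Submodule D V) ⊓ F a) : ℤ) = 0 := by
      apply Finset.sum_eq_zero
      intro a _
      rw [bot_inf_eq, finrank_bot]
      rfl
    rw [h1, finrank_bot]
    simp

end Pool.Agent.Lib.MP_c37a72_al.NI
end

section
/-!
# MP_c37a72_al, block NI: module GRK (generic rank and pull-back)
-/
set_option autoImplicit false

open Module

namespace Pool.Agent.Lib.MP_c37a72_al.NI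

universe u v w

namespace GRKM

/-- a matrix of rank `r` has a compression to the identity matrix of size `r` -/
theorem exists_compress {K : Type v} [Field K] {p q : ℕ} (P : Matrix (Fin p) (Fin q) K) (r : ℕ)
    (hPr : P.rank = r) :
    ∃ (A : Matrix (Fin r) (Fin p) K) (B : Matrix (Fin q) (Fin r) K), A * P * B = 1 := by
  subst hPr
  let f := P.mulVecLin
  have hr : finrank K (LinearMap.range f) = P.rank := rfl
  let b : Basis (Fin P.rank) K (LinearMap.range f) := finBasisOfFinrankEq K _ hr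
  let j : (Fin P.rank → K) →ₗ[K] (Fin p → K) :=
    (LinearMap.range f).subtype ∘ₗ (b.equivFun.symm : (Fin P.rank → K) →ₗ[K] LinearMap.range f)
  have hj : LinearMap.ker j = ⊥ := by
    rw [LinearMap.ker_eq_bot]
    exact (Submodule.injective_subtype _).comp b.equivFun.symm.injective
  obtain ⟨α, hα⟩ := LinearMap.exists_leftInverse_of_injective j hj
  obtain ⟨s, hs⟩ := LinearMap.exists_rightInverse_of_surjective f.rangeRestrict
    (LinearMap.range_rangeRestrict f)
  let β : (Fin P.rank → K) →ₗ[K] (Fin q → K) :=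
    s ∘ₗ (b.equivFun.symm : (Fin P.rank → K) →ₗ[K] LinearMap.range f)
  have hfβ : f ∘ₗ β = j := by
    ext1 i
    ext1
    have h1 := congrArg (fun g => ((g (b.equivFun.symm (Pi.single i 1)) : LinearMap.range f) :
      Fin p → K)) hs
    exact h1
  refine ⟨LinearMap.toMatrix' α, LinearMap.toMatrix' β, ?_⟩
  have h2 : LinearMap.toMatrix' (α ∘ₗ (f ∘ₗ β)) = 1 := by
    rw [hfβ, hα]
    exact LinearMap.toMatrix'_id
  rw [LinearMap.toMatrix'_comp, LinearMap.toMatrix'_comp] at h2
  have h3 : LinearMap.toMatrix' f = P := by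
    change LinearMap.toMatrix' (Matrix.toLin' P) = P
    exact LinearMap.toMatrix'_toLin' P
  rw [h3] at h2
  rw [Matrix.mul_assoc]
  exact h2

theorem part1 (K : Type v) [Field K] (m p q : ℕ)
    (P : Matrix (Fin p) (Fin q) (MvPolynomial (Fin m) K)) :
    ∃ (r : ℕ) (g : MvPolynomial (Fin m) K), g ≠ 0 ∧
      (∀ x : Fin m → K, (P.map (MvPolynomial.eval x)).rank ≤ r) ∧
      ∀ x : Fin m → K, MvPolynomial.eval x g ≠ 0 → (P.map (MvPolynomial.eval x)).rank = r := by
  classical
  let S : Set ℕ := {r | ∃ x : Fin m → K, (P.map (MvPolynomial.eval x)).rank = r}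
  have hSne : S.Nonempty := ⟨_, 0, rfl⟩
  have hSb : BddAbove S := by
    refine ⟨q, ?_⟩
    rintro _ ⟨x, rfl⟩
    exact (Matrix.rank_le_card_width _).trans (by simp)
  obtain ⟨x0, hx0⟩ := Nat.sSup_mem hSne hSb
  have hmax : ∀ x : Fin m → K, (P.map (MvPolynomial.eval x)).rank ≤ sSup S := fun x =>
    le_csSup hSb ⟨x, rfl⟩
  obtain ⟨A, B, hAB⟩ := exists_compress (P.map (MvPolynomial.eval x0)) (sSup S) hx0
  let g : MvPolynomial (Fin m) K :=
    (A.map (MvPolynomial.C (σ := Fin m)) * P * B.map (MvPolynomial.C (σ := Fin m))).det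
  have hev : ∀ x : Fin m → K, MvPolynomial.eval x g =
      (A * P.map (MvPolynomial.eval x) * B).det := by
    intro x
    change MvPolynomial.eval x (Matrix.det _) = _
    rw [RingHom.map_det]
    congr 1
    rw [RingHom.mapMatrix_apply, Matrix.map_mul, Matrix.map_mul, Matrix.map_map, Matrix.map_map]
    congr 1
    · congr 1
      ext i j
      simp
    · ext i j
      simp
  refine ⟨sSup S, g, ?_, hmax, ?_⟩
  · intro h
    have h1 := hev x0
    rw [h, map_zero, hAB, Matrix.det_one] at h1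
    exact zero_ne_one h1
  · intro x hx
    refine le_antisymm (hmax x) ?_
    rw [hev] at hx
    have h1 : (A * P.map (MvPolynomial.eval x) * B).rank = sSup S := by
      rw [Matrix.rank_of_isUnit _ ((Matrix.isUnit_iff_isUnit_det _).2 (isUnit_iff_ne_zero.2 hx))]
      simp
    have h2 : (A * P.map (MvPolynomial.eval x) * B).rank ≤ (P.map (MvPolynomial.eval x)).rank :=
      (Matrix.rank_mul_le_left _ _).trans (Matrix.rank_mul_le_right _ _)
    rw [← h1]
    exact h2

theorem part2 (k : Type u) (K : Type v) [Field k] [Infinite k] [Field K] [Algebra k K]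
    (m R : ℕ) (C : Matrix (Fin m) (Fin R) K) (hC : Function.Surjective C.mulVec)
    (g : MvPolynomial (Fin m) K) (hg : g ≠ 0) :
    ∀ᶠ t in gen k R, MvPolynomial.eval (C.mulVec fun i => algebraMap k K (t i)) g ≠ 0 := by
  classical
  have hinf : Infinite K := Infinite.of_injective _ (algebraMap k K).injective
  let G : MvPolynomial (Fin R) K :=
    MvPolynomial.bind₁ (fun i => ∑ l, MvPolynomial.C (C i l) * MvPolynomial.X l) g
  have hG : ∀ x : Fin R → K, MvPolynomial.eval x G = MvPolynomial.eval (C.mulVec x) g := by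
    intro x
    change MvPolynomial.eval x (MvPolynomial.bind₁ _ g) = _
    have h1 := MvPolynomial.eval₂Hom_bind₁ (RingHom.id K) x
      (fun i => ∑ l, MvPolynomial.C (C i l) * MvPolynomial.X l) g
    change MvPolynomial.eval₂Hom (RingHom.id K) x _ = _
    rw [h1]
    change MvPolynomial.eval₂Hom (RingHom.id K) _ g = MvPolynomial.eval₂Hom (RingHom.id K) _ g
    congr 2
    funext i
    simp [Matrix.mulVec, dotProduct]
  have hG0 : G ≠ 0 := by
    intro h0
    apply hg
    refine MvPolynomial.funext fun y => ?_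
    obtain ⟨x, rfl⟩ := hC y
    rw [← hG, h0, map_zero, map_zero]
  obtain ⟨s, hs⟩ := MvPolynomial.ne_zero_iff.1 hG0
  obtain ⟨lam, hlam⟩ : ∃ lam : K →ₗ[k] k, lam (MvPolynomial.coeff s G) ≠ 0 := by
    by_contra hcon
    push Not at hcon
    exact hs ((Module.forall_dual_apply_eq_zero_iff k _).1 hcon)
  let f : MvPolynomial (Fin R) k :=
    ∑ d ∈ G.support, MvPolynomial.monomial d (lam (MvPolynomial.coeff d G))
  have hcf : MvPolynomial.coeff s f = lam (MvPolynomial.coeff s G) := by
    change MvPolynomial.coeff s (∑ d ∈ G.support, _) = _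
    rw [MvPolynomial.coeff_sum, Finset.sum_eq_single s]
    · rw [MvPolynomial.coeff_monomial, if_pos rfl]
    · intro d _ hd
      rw [MvPolynomial.coeff_monomial, if_neg hd]
    · intro h
      exact absurd (MvPolynomial.mem_support_iff.2 hs) h
  refine mem_gen.2 ⟨f, ?_, ?_⟩
  · intro h
    rw [h, MvPolynomial.coeff_zero] at hcf
    exact hlam hcf.symm
  · intro t ht
    rw [Set.mem_ofPred_eq, ← hG]
    intro h
    apply ht
    have h1 : MvPolynomial.eval t f = lam (MvPolynomial.eval (fun i => algebraMap k K (t i)) G) := by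
      change MvPolynomial.eval t (∑ d ∈ G.support, _) = _
      rw [map_sum, MvPolynomial.eval_eq', map_sum]
      refine Finset.sum_congr rfl fun d _ => ?_
      rw [MvPolynomial.eval_monomial, Finsupp.prod_fintype _ _ (fun i => pow_zero _)]
      have h2 : (∏ i, (algebraMap k K (t i)) ^ d i) = algebraMap k K (∏ i, t i ^ d i) := by
        rw [map_prod]
        exact Finset.prod_congr rfl fun i _ => by rw [map_pow]
      rw [h2, mul_comm (MvPolynomial.coeff d G), ← Algebra.smul_def, map_smul, smul_eq_mul,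
        mul_comm]
    rw [h1, h, map_zero]

end GRKM

theorem specGRK : SpecGRK.{u, v} := by
  intro k K _ _ _ _
  exact ⟨GRKM.part1 K, GRKM.part2 k K⟩

end Pool.Agent.Lib.MP_c37a72_al.NI
end

section
/-!
# MP_c37a72_al, block NI: module GDG (generic degrees depend on the span only)
-/
set_option autoImplicit false

open Module

namespace Pool.Agent.Lib.MP_c37a72_al.NI

universe u v w

namespace GDGM

section PF

variable {K : Type v} [Field K] {m : ℕ}

/-- a polynomial family of linear maps -/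
def PF {A B : Type*} [AddCommGroup A] [Module K A] [AddCommGroup B] [Module K B]
    (L : (Fin m → K) → A →ₗ[K] B) : Prop :=
  ∀ (a : A) (φ : B →ₗ[K] K), ∃ g : MvPolynomial (Fin m) K, ∀ x, φ (L x a) = MvPolynomial.eval x g

variable {A B C : Type*} [AddCommGroup A] [Module K A] [AddCommGroup B] [Module K B]
  [AddCommGroup C] [Module K C]

theorem PF.const (L : A →ₗ[K] B) : PF (fun _ : Fin m → K => L) := fun a φ =>
  ⟨MvPolynomial.C (φ (L a)), fun x => by rw [MvPolynomial.eval_C]⟩

theorem PF.sum {ι : Type*} (s : Finset ι) (L : ι → (Fin m → K) → A →ₗ[K] B)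
    (h : ∀ i ∈ s, PF (L i)) : PF (fun x => ∑ i ∈ s, L i x) := by
  classical
  intro a φ
  choose! g hg using fun i (hi : i ∈ s) => h i hi a φ
  refine ⟨∑ i ∈ s, g i, fun x => ?_⟩
  rw [LinearMap.sum_apply, map_sum, map_sum]
  exact Finset.sum_congr rfl fun i hi => hg i hi x

theorem PF.comp [Module.Finite K B] {L : (Fin m → K) → A →ₗ[K] B}
    {M : (Fin m → K) → B →ₗ[K] C} (hL : PF L) (hM : PF M) : PF (fun x => M x ∘ₗ L x) := by
  intro a φ
  let e := Module.finBasis K B
  choose g hg using fun j => hL a (e.coord j)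
  choose h hh using fun j => hM (e j) φ
  refine ⟨∑ j, g j * h j, fun x => ?_⟩
  rw [LinearMap.comp_apply, map_sum]
  conv_lhs => rw [← e.sum_repr (L x a)]
  rw [map_sum, map_sum]
  refine Finset.sum_congr rfl fun j _ => ?_
  rw [map_smul, map_smul, smul_eq_mul, map_mul, ← hg, ← hh]
  rfl

theorem PF.pi {ι : Type*} [Fintype ι] {D : ι → Type*} [∀ i, AddCommGroup (D i)]
    [∀ i, Module K (D i)] {L : ∀ i, (Fin m → K) → A →ₗ[K] D i} (h : ∀ i, PF (L i)) :
    PF (fun x => LinearMap.pi fun i => L i x) := by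
  classical
  intro a φ
  choose g hg using fun i => h i a (φ ∘ₗ LinearMap.single K D i)
  refine ⟨∑ i, g i, fun x => ?_⟩
  rw [map_sum]
  have h1 : (LinearMap.pi fun i => L i x) a = ∑ i, LinearMap.single K D i (L i x a) := by
    funext i
    rw [Finset.sum_apply]
    simp [LinearMap.single_apply]
  rw [h1, map_sum]
  exact Finset.sum_congr rfl fun i _ => hg i x

theorem PF.prod {L : (Fin m → K) → A →ₗ[K] B} {M : (Fin m → K) → A →ₗ[K] C} (hL : PF L)
    (hM : PF M) : PF (fun x => (L x).prod (M x)) := by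
  intro a φ
  obtain ⟨g, hg⟩ := hL a (φ ∘ₗ LinearMap.inl K B C)
  obtain ⟨h, hh⟩ := hM a (φ ∘ₗ LinearMap.inr K B C)
  refine ⟨g + h, fun x => ?_⟩
  rw [map_add, ← hg, ← hh]
  have h1 : ((L x).prod (M x)) a = LinearMap.inl K B C (L x a) + LinearMap.inr K B C (M x a) := by
    simp
  rw [h1, map_add]
  rfl

theorem PF.lin (v : Fin m → A →ₗ[K] B) : PF (fun x : Fin m → K => ∑ i, x i • v i) := by
  intro a φ
  refine ⟨∑ i, MvPolynomial.X i * MvPolynomial.C (φ (v i a)), fun x => ?_⟩
  rw [LinearMap.sum_apply, map_sum, map_sum]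
  refine Finset.sum_congr rfl fun i _ => ?_
  rw [map_mul, MvPolynomial.eval_X, MvPolynomial.eval_C, LinearMap.smul_apply, map_smul,
    smul_eq_mul]

theorem PF.pow [Module.Finite K A] {L : (Fin m → K) → Module.End K A} (hL : PF L) (n : ℕ) :
    PF (fun x => (L x) ^ n) := by
  induction n with
  | zero => exact PF.const 1
  | succ n ih => exact PF.comp hL ih

/-- generic rank of a polynomial family -/
theorem PF.rank [Module.Finite K A] [Module.Finite K B] {L : (Fin m → K) → A →ₗ[K] B}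
    (hL : PF L) : ∃ (r : ℕ) (g : MvPolynomial (Fin m) K), g ≠ 0 ∧
      ∀ x, MvPolynomial.eval x g ≠ 0 → finrank K (LinearMap.range (L x)) = r := by
  let bA := Module.finBasis K A
  let bB := Module.finBasis K B
  choose P hP using fun (i : Fin (finrank K B)) (j : Fin (finrank K A)) => hL (bA j) (bB.coord i)
  obtain ⟨r, g, hg, -, h⟩ := GRKM.part1 K m (finrank K B) (finrank K A) (Matrix.of P)
  refine ⟨r, g, hg, fun x hx => ?_⟩
  rw [← h x hx]
  have h1 : (Matrix.of P).map (MvPolynomial.eval x) = LinearMap.toMatrix bA bB (L x) := by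
    ext i j
    rw [LinearMap.toMatrix_apply, Matrix.map_apply, Matrix.of_apply, ← hP]
    rfl
  rw [h1, Matrix.rank_eq_finrank_range_toLin _ bB bA, Matrix.toLin_toMatrix]

end PF

section Form

variable {K : Type v} [Field K] {V : Type v} [AddCommGroup V] [Module K V]

theorem mem_ker_prod {E E' F' : Type*} [AddCommGroup E] [Module K E] [AddCommGroup E']
    [Module K E'] [AddCommGroup F'] [Module K F'] (f : E →ₗ[K] F') (g : E →ₗ[K] E') (x : E) :
    x ∈ LinearMap.ker (f.prod g) ↔ f x = 0 ∧ g x = 0 := by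
  rw [LinearMap.ker_prod, Submodule.mem_inf, LinearMap.mem_ker, LinearMap.mem_ker]

theorem dim_formula {E E' : Type*} [AddCommGroup E] [Module K E] [Module.Finite K E]
    [AddCommGroup E'] [Module K E'] (Φ : E →ₗ[K] V) (Ψ : E →ₗ[K] E') (W : Submodule K V) :
    finrank K ↥(W ⊓ (LinearMap.ker Ψ).map Φ) + finrank K (LinearMap.range ((W.mkQ ∘ₗ Φ).prod Ψ)) =
      finrank K (LinearMap.range (Φ.prod Ψ)) := by
  have e1 := LinearMap.finrank_range_add_finrank_ker ((W.mkQ ∘ₗ Φ).prod Ψ)
  have e2 := LinearMap.finrank_range_add_finrank_ker (Φ.prod Ψ)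
  set N := LinearMap.ker ((W.mkQ ∘ₗ Φ).prod Ψ) with hN
  have e3 := LinearMap.finrank_range_add_finrank_ker (Φ.domRestrict N)
  have h1 : LinearMap.range (Φ.domRestrict N) = W ⊓ (LinearMap.ker Ψ).map Φ := by
    ext y
    constructor
    · rintro ⟨⟨x, hx⟩, rfl⟩
      rw [hN, mem_ker_prod] at hx
      refine ⟨?_, x, hx.2, rfl⟩
      have h2 : W.mkQ (Φ x) = 0 := hx.1
      rw [Submodule.mkQ_apply, Submodule.Quotient.mk_eq_zero] at h2
      exact h2
    · rintro ⟨hy, x, hx, rfl⟩
      refine ⟨⟨x, ?_⟩, rfl⟩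
      rw [hN, mem_ker_prod]
      refine ⟨?_, hx⟩
      change W.mkQ (Φ x) = 0
      rw [Submodule.mkQ_apply, Submodule.Quotient.mk_eq_zero]
      exact hy
  have h2 : (LinearMap.ker (Φ.domRestrict N)).map N.subtype = LinearMap.ker (Φ.prod Ψ) := by
    ext x
    constructor
    · rintro ⟨⟨y, hy⟩, hy2, rfl⟩
      rw [hN, mem_ker_prod] at hy
      rw [mem_ker_prod]
      exact ⟨hy2, hy.2⟩
    · intro hx
      rw [mem_ker_prod] at hx
      refine ⟨⟨x, ?_⟩, hx.1, rfl⟩
      rw [hN, mem_ker_prod]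
      refine ⟨?_, hx.2⟩
      change W.mkQ (Φ x) = 0
      rw [hx.1, map_zero]
  have h3 : finrank K (LinearMap.ker (Φ.domRestrict N)) = finrank K (LinearMap.ker (Φ.prod Ψ)) := by
    rw [← h2]
    exact (LinearEquiv.finrank_eq (Submodule.equivMapOfInjective N.subtype
      N.injective_subtype _))
  rw [h1, h3] at e3
  omega

/-- the generators of the weight filtration -/
noncomputable def Phi (a : ℤ) (B : ℕ) (v : Module.End K V) : (Fin B → V) →ₗ[K] V :=
  ∑ i : Fin B, if a ≤ ((i : ℕ) : ℤ) then (v ^ (i : ℕ)) ∘ₗ LinearMap.proj i else 0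

/-- the relations -/
noncomputable def Psi (a : ℤ) (B : ℕ) (v : Module.End K V) : (Fin B → V) →ₗ[K] (Fin B → V) :=
  LinearMap.pi fun i : Fin B => if a ≤ ((i : ℕ) : ℤ) then
    (v ^ (2 * ((i : ℕ) : ℤ) + 1 - a).toNat) ∘ₗ LinearMap.proj i else 0

theorem map_eq (a : ℤ) (B : ℕ) (v : Module.End K V) (hv : v ^ B = 0) :
    (LinearMap.ker (Psi a B v)).map (Phi a B v) = wt v a := by
  apply le_antisymm
  · rintro _ ⟨x, hx, rfl⟩
    have hx1 : ∀ i : Fin B, a ≤ ((i : ℕ) : ℤ) →
        (v ^ (2 * ((i : ℕ) : ℤ) + 1 - a).toNat) (x i) = 0 := by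
      intro i hi
      have h1 := congrFun (LinearMap.mem_ker.1 hx) i
      rw [Psi, LinearMap.pi_apply, if_pos hi] at h1
      exact h1
    rw [Phi, LinearMap.sum_apply]
    refine Submodule.sum_mem _ fun i _ => ?_
    by_cases hi : a ≤ ((i : ℕ) : ℤ)
    · rw [if_pos hi]
      exact wt_gen v hi (by rw [Int.toNat_of_nonneg (by omega)]) (hx1 i hi)
    · rw [if_neg hi]
      exact Submodule.zero_mem _
  · intro x hx
    refine wt_induction v (p := fun x => x ∈ (LinearMap.ker (Psi a B v)).map (Phi a B v))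
      (fun i m y hi hm hy => ?_) (Submodule.zero_mem _) (fun x y hx hy => Submodule.add_mem _ hx hy)
      hx
    change (v ^ i) y ∈ _
    by_cases hiB : i < B
    · refine ⟨Pi.single ⟨i, hiB⟩ y, ?_, ?_⟩
      · change Psi a B v (Pi.single ⟨i, hiB⟩ y) = 0
        funext j
        rw [Psi, LinearMap.pi_apply]
        by_cases hj : a ≤ ((j : ℕ) : ℤ)
        · rw [if_pos hj]
          change (v ^ _) ((Pi.single (⟨i, hiB⟩ : Fin B) y : Fin B → V) j) = 0
          by_cases hij : j = ⟨i, hiB⟩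
          · subst hij
            rw [Pi.single_eq_same]
            have h1 : (2 * (((⟨i, hiB⟩ : Fin B) : ℕ) : ℤ) + 1 - a).toNat = m := by
              change (2 * (i : ℤ) + 1 - a).toNat = m
              omega
            rw [h1, hy]
          · rw [Pi.single_eq_of_ne hij, map_zero]
        · rw [if_neg hj]
          rfl
      · rw [Phi, LinearMap.sum_apply, Finset.sum_eq_single (⟨i, hiB⟩ : Fin B)]
        · have hi' : a ≤ (((⟨i, hiB⟩ : Fin B) : ℕ) : ℤ) := hi
          rw [if_pos hi']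
          change (v ^ i) ((Pi.single (⟨i, hiB⟩ : Fin B) y : Fin B → V) ⟨i, hiB⟩) = _
          rw [Pi.single_eq_same]
        · intro j _ hj
          by_cases hj2 : a ≤ ((j : ℕ) : ℤ)
          · rw [if_pos hj2]
            change (v ^ (j : ℕ)) ((Pi.single (⟨i, hiB⟩ : Fin B) y : Fin B → V) j) = 0
            rw [Pi.single_eq_of_ne hj, map_zero]
          · rw [if_neg hj2]
            rfl
        · intro h
          exact absurd (Finset.mem_univ _) h
    · have h1 : (v ^ i) y = 0 := by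
        obtain ⟨d, rfl⟩ := Nat.exists_eq_add_of_le (not_lt.1 hiB)
        rw [pow_add, hv, zero_mul]
        rfl
      rw [h1]
      exact Submodule.zero_mem _

/-- the generic degree is constant -/
theorem generic_deg [Module.Finite K V] {m : ℕ} (B : ℕ) (v : Fin m → Module.End K V)
    (hv : ∀ x : Fin m → K, (∑ i, x i • v i) ^ B = 0) (W : Submodule K V) :
    ∃ (d : ℤ) (g : MvPolynomial (Fin m) K), g ≠ 0 ∧
      ∀ x, MvPolynomial.eval x g ≠ 0 → deg B (wt (∑ i, x i • v i)) W = d := by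
  have hL := PF.lin (K := K) v
  have hPhi : ∀ a, PF (fun x : Fin m → K => Phi a B (∑ i, x i • v i)) := by
    intro a
    refine PF.sum _ _ fun i _ => ?_
    by_cases hi : a ≤ ((i : ℕ) : ℤ)
    · simp only [if_pos hi]
      exact PF.comp (PF.const _) (PF.pow hL _)
    · simp only [if_neg hi]
      exact PF.const 0
  have hPsi : ∀ a, PF (fun x : Fin m → K => Psi a B (∑ i, x i • v i)) := by
    intro a
    refine PF.pi fun i => ?_
    by_cases hi : a ≤ ((i : ℕ) : ℤ)
    · simp only [if_pos hi]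
      exact PF.comp (PF.const _) (PF.pow hL _)
    · simp only [if_neg hi]
      exact PF.const 0
  have h1 : ∀ a : ℤ, ∃ (d : ℤ) (g : MvPolynomial (Fin m) K), g ≠ 0 ∧
      ∀ x, MvPolynomial.eval x g ≠ 0 →
        (finrank K ↥(W ⊓ wt (∑ i, x i • v i) a) : ℤ) = d := by
    intro a
    obtain ⟨r, g, hg, h⟩ := PF.rank (PF.prod (hPhi a) (hPsi a))
    obtain ⟨r', g', hg', h'⟩ := PF.rank (PF.prod (PF.comp (hPhi a) (PF.const W.mkQ)) (hPsi a))
    refine ⟨(r : ℤ) - r', g * g', mul_ne_zero hg hg', fun x hx => ?_⟩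
    rw [map_mul] at hx
    have h2 := dim_formula (Phi a B (∑ i, x i • v i)) (Psi a B (∑ i, x i • v i)) W
    rw [map_eq a B _ (hv x), h x (left_ne_zero_of_mul hx), h' x (right_ne_zero_of_mul hx)] at h2
    omega
  choose d g hg h using h1
  refine ⟨∑ a ∈ Finset.Ioc (-(B : ℤ)) B, d a - B * finrank K W,
    ∏ a ∈ Finset.Ioc (-(B : ℤ)) B, g a, Finset.prod_ne_zero_iff.2 fun a _ => hg a,
    fun x hx => ?_⟩
  rw [map_prod, Finset.prod_ne_zero_iff] at hx
  rw [deg]
  congr 1
  exact Finset.sum_congr rfl fun a ha => h a x (hx a ha)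

end Form

end GDGM

open GDGM in
theorem specGDG : SpecGDG.{u, v} := by
  intro k K V _ _ _ _ _ _ _ R B α α' hαα' hnil W
  let VV := Submodule.span K (Set.range α)
  let b := Module.finBasis K VV
  let v : Fin (finrank K VV) → Module.End K V := fun i => (b i : Module.End K V)
  have hnil2 : ∀ w ∈ VV, w ^ B = 0 := by
    intro w hw
    obtain ⟨c, rfl⟩ := (Submodule.mem_span_range_iff_exists_fun K).1 hw
    exact hnil c
  have hv : ∀ x : Fin (finrank K VV) → K, (∑ i, x i • v i) ^ B = 0 := by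
    intro x
    exact hnil2 _ (Submodule.sum_mem _ fun i _ => Submodule.smul_mem _ _ (b i).2)
  obtain ⟨d, g, hg, h⟩ := generic_deg B v hv W
  have key : ∀ γ : Fin R → Module.End K V, Submodule.span K (Set.range γ) = VV →
      ∀ᶠ t in gen k R, deg B (wt (∑ i, algebraMap k K (t i) • γ i)) W = d := by
    intro γ hγ
    have hmem : ∀ j, γ j ∈ VV := fun j => hγ ▸ Submodule.subset_span ⟨j, rfl⟩
    let C : Matrix (Fin (finrank K VV)) (Fin R) K := fun i j => b.repr ⟨γ j, hmem j⟩ i
    have hC1 : ∀ j, γ j = ∑ i, C i j • v i := by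
      intro j
      have h1 := congrArg (Submodule.subtype VV) (b.sum_repr ⟨γ j, hmem j⟩)
      rw [map_sum] at h1
      simp only [map_smul] at h1
      exact h1.symm
    have hC2 : ∀ t : Fin R → K, ∑ j, t j • γ j = ∑ i, (C.mulVec t) i • v i := by
      intro t
      calc ∑ j, t j • γ j = ∑ j, ∑ i, (t j * C i j) • v i := by
            refine Finset.sum_congr rfl fun j _ => ?_
            rw [hC1 j, Finset.smul_sum]
            exact Finset.sum_congr rfl fun i _ => by rw [smul_smul]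
        _ = ∑ i, ∑ j, (t j * C i j) • v i := Finset.sum_comm
        _ = ∑ i, (C.mulVec t) i • v i := by
            refine Finset.sum_congr rfl fun i _ => ?_
            rw [← Finset.sum_smul]
            congr 1
            rw [Matrix.mulVec, dotProduct]
            exact Finset.sum_congr rfl fun j _ => mul_comm _ _
    have hCs : Function.Surjective C.mulVec := by
      intro x
      have hx : ∑ i, x i • v i ∈ Submodule.span K (Set.range γ) := by
        rw [hγ]
        exact Submodule.sum_mem _ fun i _ => Submodule.smul_mem _ _ (b i).2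
      obtain ⟨t, ht⟩ := (Submodule.mem_span_range_iff_exists_fun K).1 hx
      refine ⟨t, ?_⟩
      rw [hC2] at ht
      have h3 : ∑ i, (C.mulVec t) i • b i = ∑ i, x i • b i := by
        apply Subtype.ext
        have e1 : ∀ y : Fin (finrank K VV) → K,
            ((∑ i, y i • b i : VV) : Module.End K V) = ∑ i, y i • v i := by
          intro y
          rw [AddSubmonoidClass.coe_finsetSum]
          rfl
        rw [e1, e1]
        exact ht
      have h4 := b.linearIndependent
      rw [Fintype.linearIndependent_iff] at h4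
      funext i
      have h5 := h4 (fun i => (C.mulVec t) i - x i) (by
        simp only [sub_smul, Finset.sum_sub_distrib]
        rw [h3, sub_self]) i
      exact sub_eq_zero.1 h5
    filter_upwards [GRKM.part2 k K _ R C hCs g hg] with t ht
    have h6 := h _ ht
    rw [← hC2] at h6
    exact h6
  exact ⟨d, key α rfl, key α' hαα'.symm⟩

end Pool.Agent.Lib.MP_c37a72_al.NI
end

section
/-!
# MP_c37a72_al, block NI, module MAX (helper60)

The maximal subspace of maximal slope along an ultrafilter.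
-/
set_option autoImplicit false

open Module

namespace Pool.Agent.Lib.MP_c37a72_al.NI

universe u v w

/-- **MAX**. -/
theorem specMAX (hFDB : SpecFDB.{v}) : SpecMAX.{v, w} := by
  classical
  intro D V _ _ _ _ _ 𝒯 l B M hM
  constructor
  · -- eventual values
    have hex : ∀ W : Submodule D V, ∃ d : ℤ, |d| ≤ B * finrank D W ∧
        ∀ᶠ t in (l : Filter 𝒯), deg B (M t) W = d := by
      intro W
      let f : 𝒯 → ℤ := fun t => deg B (M t) W
      have h1 : Set.Icc (-((B : ℤ) * finrank D W)) (B * finrank D W) ∈ l.map f := by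
        rw [Ultrafilter.mem_map]
        apply Filter.mem_of_superset Filter.univ_mem
        intro t _
        have h2 := (hFDB D V B (M t) (hM t)).2.2.2.1 W
        exact abs_le.1 h2
      obtain ⟨d, hd, h3⟩ := Ultrafilter.eq_pure_of_finite_mem (Set.finite_Icc _ _) h1
      refine ⟨d, abs_le.2 hd, ?_⟩
      have h4 : ({d} : Set ℤ) ∈ l.map f := by
        rw [h3]
        exact Filter.mem_pure.2 rfl
      rw [Ultrafilter.mem_map] at h4
      exact h4
    choose dg hb hdg using hex
    have hN : ∀ W : Submodule D V, finrank D W ≤ finrank D V := fun W => Submodule.finrank_le W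
    -- modularity
    have hmod : ∀ W W' : Submodule D V, dg W + dg W' ≤ dg (W ⊔ W') + dg (W ⊓ W') := by
      intro W W'
      obtain ⟨t, ⟨⟨h1, h2⟩, h3⟩, h4⟩ := (((hdg W).and (hdg W')).and (hdg (W ⊔ W'))).and
        (hdg (W ⊓ W')) |>.exists
      have h5 := (hFDB D V B (M t) (hM t)).1 W W'
      rw [h1, h2, h3, h4] at h5
      exact h5
    let P : Set (ℤ × ℕ) := {x | ∃ W : Submodule D V, W ≠ ⊥ ∧ x = (dg W, finrank D W)}
    have hPf : P.Finite := by
      apply Set.Finite.subset
        ((Set.finite_Icc (-((B : ℤ) * finrank D V)) (B * finrank D V)).prod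
          (Set.finite_Iic (finrank D V)))
      rintro x ⟨W, _, rfl⟩
      have h1 : (B : ℤ) * finrank D W ≤ B * finrank D V :=
        mul_le_mul_of_nonneg_left (by exact_mod_cast hN W) (Int.natCast_nonneg _)
      have h2 := abs_le.1 (hb W)
      exact ⟨⟨by linarith [h2.1], by linarith [h2.2]⟩, hN W⟩
    have hPn : P.Nonempty := ⟨_, ⊤, top_ne_bot, rfl⟩
    obtain ⟨x, ⟨W0, hW0, rfl⟩, hmax⟩ := Set.exists_max_image P
      (fun x => (x.1 : ℚ) / x.2) hPf hPn
    let μ : ℚ := (dg W0 : ℚ) / finrank D W0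
    have hpos : ∀ W : Submodule D V, W ≠ ⊥ → (0 : ℚ) < finrank D W := by
      intro W hW
      have h1 : 0 < finrank D W := by
        rw [Nat.pos_iff_ne_zero]
        intro h2
        exact hW (Submodule.finrank_eq_zero.1 h2)
      exact_mod_cast h1
    have hle : ∀ W : Submodule D V, (dg W : ℚ) ≤ μ * finrank D W := by
      intro W
      by_cases hW : W = ⊥
      · subst hW
        have h1 := hb ⊥
        rw [finrank_bot] at h1 ⊢
        have h2 := (abs_le.1 h1).2
        simp only [Nat.cast_zero, mul_zero] at h2 ⊢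
        exact_mod_cast h2
      · have h1 := hmax _ ⟨W, hW, rfl⟩
        rw [← div_le_iff₀ (hpos W hW)]
        exact h1
    let S : Set (Submodule D V) := {W | W ≠ ⊥ ∧ (dg W : ℚ) = μ * finrank D W}
    have hS0 : W0 ∈ S := ⟨hW0, by
      show (dg W0 : ℚ) = (dg W0 : ℚ) / finrank D W0 * finrank D W0
      rw [div_mul_cancel₀ _ (hpos W0 hW0).ne']⟩
    have hwf : WellFounded (α := Submodule D V) (· > ·) := wellFounded_gt
    obtain ⟨V1, hV1, hmx⟩ := hwf.has_min S ⟨W0, hS0⟩
    have hsup : ∀ W ∈ S, W ≤ V1 := by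
      intro W hW
      have h1 : W ⊔ V1 ∈ S := by
        refine ⟨fun h => hW.1 (le_bot_iff.1 (h ▸ le_sup_left)), ?_⟩
        apply le_antisymm (hle _)
        have h2 : (dg W : ℚ) + dg V1 ≤ dg (W ⊔ V1) + dg (W ⊓ V1) := by
          exact_mod_cast hmod W V1
        have h3 := hle (W ⊓ V1)
        have h4 : ((finrank D ↥(W ⊔ V1) : ℕ) : ℚ) + finrank D ↥(W ⊓ V1) =
            finrank D W + finrank D V1 := by
          exact_mod_cast Submodule.finrank_sup_add_finrank_inf_eq W V1
        rw [hW.2, hV1.2] at h2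
        have h5 : μ * ((finrank D ↥(W ⊔ V1) : ℕ) : ℚ) + μ * finrank D ↥(W ⊓ V1) =
            μ * finrank D W + μ * finrank D V1 := by
          rw [← mul_add, ← mul_add, h4]
        linarith
      have h2 : ¬ V1 < W ⊔ V1 := hmx _ h1
      have h3 : V1 = W ⊔ V1 := le_sup_right.eq_of_not_lt h2
      rw [h3]
      exact le_sup_left
    refine ⟨μ, V1, hV1.1, ?_, ?_, ?_⟩
    · filter_upwards [hdg V1] with t ht
      rw [ht]
      exact hV1.2
    · intro W
      filter_upwards [hdg W] with t ht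
      rw [ht]
      exact hle W
    · intro W hW
      filter_upwards [hdg W] with t ht
      rw [ht]
      refine lt_of_le_of_ne (hle W) fun h => hW (hsup W ⟨?_, h⟩)
      rintro rfl
      exact hW bot_le
  · intro μ V1 hMx e he
    have hdeg : ∀ t, deg B (M t) (V1.map (e : V →ₗ[D] V)) = deg B (M t) V1 := by
      intro t
      have h1 := (hFDB D V B (M t) (hM t)).2.2.1 V e V1
      have h2 : (fun a => (M t a).map (e : V →ₗ[D] V)) = M t := funext fun a => he t a
      rw [h2] at h1
      exact h1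
    have hdim : finrank D ↥(V1.map (e : V →ₗ[D] V)) = finrank D V1 :=
      LinearEquiv.finrank_map_eq e V1
    have hle : V1.map (e : V →ₗ[D] V) ≤ V1 := by
      by_contra hn
      obtain ⟨t, h1, h2⟩ := ((hMx.lt _ hn).and hMx.eq).exists
      rw [hdeg, hdim, h2] at h1
      exact lt_irrefl _ h1
    exact Submodule.eq_of_le_of_finrank_eq hle hdim

end Pool.Agent.Lib.MP_c37a72_al.NI
end

section
/-!
# MP_c37a72_al, block NI: MIN (inequalities at a maximiser)
-/
set_option autoImplicit false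

open Module

namespace Pool.Agent.Lib.MP_c37a72_al.NI

namespace MINM

universe v

section One

variable {D V : Type v} [DivisionRing D] [AddCommGroup V] [Module D V]

/-- The constant filtration of weight `r`. -/
def cst (D V : Type v) [DivisionRing D] [AddCommGroup V] [Module D V] (r c : ℤ) :
    Submodule D V := if c ≤ r then ⊤ else ⊥

theorem cst_fil (B : ℕ) (r : ℤ) (h1 : -(B : ℤ) ≤ r) (h2 : r ≤ B) : IsFil B (cst D V r) where
  anti := by
    intro s t hst
    unfold cst
    by_cases ht : t ≤ r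
    · rw [if_pos ht, if_pos (hst.trans ht)]
    · rw [if_neg ht]; exact bot_le
  top := fun a ha => if_pos (ha.trans h1)
  bot := fun a ha => if_neg (by omega)

theorem cst_adp {ι : Type*} (b : Basis ι D V) (r : ℤ) : Adp (cst D V r) b (fun _ => r) := by
  intro c
  unfold cst
  by_cases h : c ≤ r
  · rw [if_pos h]
    have : {i : ι | c ≤ r} = Set.univ := by ext i; simp [h]
    rw [this, Set.image_univ, b.span_eq]
  · rw [if_neg h]
    have : {i : ι | c ≤ r} = ∅ := by ext i; simp [h]
    rw [this, Set.image_empty, Submodule.span_empty]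

/-- The filtration with minimal weight raised by one. -/
theorem raise {ι : Type*} (B : ℕ) (F : ℤ → Submodule D V) (hF : IsFil B F) (b : Basis ι D V)
    (p : ι → ℤ) (hA : Adp F b p) (hp : ∀ i, -(B : ℤ) ≤ p i ∧ p i ≤ B) (i0 : ι) :
    IsFil (B + 1) (fun r => if r ≤ p i0 + 1 then ⊤ else F r) ∧
    Adp (fun r => if r ≤ p i0 + 1 then ⊤ else F r) b (fun i => max (p i) (p i0 + 1)) ∧
    ∀ a, F a ≤ (fun r => if r ≤ p i0 + 1 then ⊤ else F r) a := by
  refine ⟨⟨?_, ?_, ?_⟩, ?_, ?_⟩
  · intro s t hst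
    show (if t ≤ p i0 + 1 then ⊤ else F t) ≤ (if s ≤ p i0 + 1 then ⊤ else F s)
    by_cases hs : s ≤ p i0 + 1
    · rw [if_pos hs]; exact le_top
    · rw [if_neg hs, if_neg (by omega)]
      exact hF.anti hst
  · intro a ha
    show (if a ≤ p i0 + 1 then ⊤ else F a) = ⊤
    split_ifs
    · rfl
    · exact hF.top a (by push_cast at ha; omega)
  · intro a ha
    show (if a ≤ p i0 + 1 then ⊤ else F a) = ⊥
    have := (hp i0).2
    push_cast at ha
    rw [if_neg (by omega)]
    exact hF.bot a (by omega)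
  · intro c
    show (if c ≤ p i0 + 1 then ⊤ else F c) = _
    by_cases h : c ≤ p i0 + 1
    · rw [if_pos h]
      have : {i : ι | c ≤ max (p i) (p i0 + 1)} = Set.univ := by
        ext i; simp [h]
      rw [this, Set.image_univ, b.span_eq]
    · rw [if_neg h]
      have : {i : ι | c ≤ max (p i) (p i0 + 1)} = {i : ι | c ≤ p i} := by
        ext i; simp [h]
      rw [this]
      exact hA c
  · intro a
    show F a ≤ (if a ≤ p i0 + 1 then ⊤ else F a)
    split_ifs
    · exact le_top
    · exact le_rfl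

end One

section Alg

/-- The algebra of (3). -/
theorem alg {n N : ℕ} (a : Fin n → ℤ) (b : Fin N → ℤ) (i0 : Fin n) (hmin : ∀ i, a i0 ≤ a i)
    (h : ∑ i, ∑ j, (a i + b j) ^ 2 ≤ ∑ i, ∑ j, (max (a i) (a i0 + 1) + b j) ^ 2) :
    -(N : ℤ) ≤ 2 * (N * a i0 + ∑ j, b j) := by
  have key : ∑ i, ∑ j, (max (a i) (a i0 + 1) + b j) ^ 2 - ∑ i, ∑ j, (a i + b j) ^ 2 =
      ((Finset.univ.filter fun i => a i = a i0).card : ℤ) * (2 * (N * a i0 + ∑ j, b j) + N) := by
    rw [← Finset.sum_sub_distrib]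
    have h1 : ∀ i, (∑ j, (max (a i) (a i0 + 1) + b j) ^ 2 - ∑ j, (a i + b j) ^ 2) =
        if a i = a i0 then (2 * (N * a i0 + ∑ j, b j) + N) else 0 := by
      intro i
      rw [← Finset.sum_sub_distrib]
      by_cases hi : a i = a i0
      · rw [if_pos hi]
        have h2 : ∀ j, (max (a i) (a i0 + 1) + b j) ^ 2 - (a i + b j) ^ 2 =
            2 * a i0 + 2 * b j + 1 := by
          intro j
          rw [hi, max_eq_right (by omega)]
          ring
        rw [Finset.sum_congr rfl fun j _ => h2 j, Finset.sum_add_distrib, Finset.sum_add_distrib,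
          ← Finset.mul_sum (s := Finset.univ) (f := b)]
        simp only [Finset.sum_const, Finset.card_univ, Fintype.card_fin, nsmul_eq_mul, mul_one]
        ring
      · rw [if_neg hi]
        refine Finset.sum_eq_zero fun j _ => ?_
        have := hmin i
        rw [max_eq_left (by omega)]
        ring
    rw [Finset.sum_congr rfl fun i _ => h1 i, ← Finset.sum_filter, Finset.sum_const, nsmul_eq_mul]
  have hc : 0 < (Finset.univ.filter fun i => a i = a i0).card :=
    Finset.card_pos.2 ⟨i0, by simp⟩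
  have h0 : 0 ≤ ((Finset.univ.filter fun i => a i = a i0).card : ℤ) *
      (2 * (N * a i0 + ∑ j, b j) + N) := by
    rw [← key]; linarith
  have hc' : (0 : ℤ) < ((Finset.univ.filter fun i => a i = a i0).card : ℤ) := by exact_mod_cast hc
  have := nonneg_of_mul_nonneg_right h0 hc'
  linarith

end Alg

section Ten

variable {Q K X V S : Type v} [DivisionRing Q] [Field K] [AddCommGroup X] [Module Qᵐᵒᵖ X]
  [AddCommGroup V] [Module K V] [AddCommGroup S] [Module K S] {L : Q →+* Module.End K V}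

/-- `|P|²` in adapted bases. -/
theorem sq_eq [Module.Finite Qᵐᵒᵖ X] [Module.Finite K V] (hFDA : SpecFDA.{v}) (P : PP X L) {n N : ℕ} (x : Basis (Fin n) Qᵐᵒᵖ X)
    (y : Basis (Fin N) K V) (a : Fin n → ℤ) (b : Fin N → ℤ) (hx : Adp P.FX x a)
    (hy : Adp P.FV y b) : P.sq = ∑ i, ∑ j, (a i + b j) ^ 2 := by
  obtain ⟨h1, -⟩ := hFDA Qᵐᵒᵖ X P.B P.FX P.filX
  obtain ⟨-, -, -, h2⟩ := h1 (Fin n) x a hx
  obtain ⟨h3, -⟩ := hFDA K V P.B P.FV P.filV
  obtain ⟨-, -, -, h4⟩ := h3 (Fin N) y b hy
  unfold PP.sq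
  rw [h2, h2, h4, h4, finrank_eq_card_basis x, finrank_eq_card_basis y, Fintype.card_fin,
    Fintype.card_fin]
  have : ∀ i, ∑ j, (a i + b j) ^ 2 = N * a i ^ 2 + 2 * (a i * ∑ j, b j) + ∑ j, b j ^ 2 := by
    intro i
    have h5 : ∀ j, (a i + b j) ^ 2 = a i ^ 2 + 2 * a i * b j + b j ^ 2 := fun j => by ring
    rw [Finset.sum_congr rfl fun j _ => h5 j, Finset.sum_add_distrib, Finset.sum_add_distrib,
      ← Finset.mul_sum]
    simp
    ring
  rw [Finset.sum_congr rfl fun i _ => this i, Finset.sum_add_distrib, Finset.sum_add_distrib,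
    ← Finset.mul_sum, ← Finset.mul_sum, ← Finset.sum_mul]
  simp

end Ten

end MINM

open MINM

universe v

/-- The module MIN. -/
theorem specMIN (hFDA : SpecFDA.{v}) (hTPB : SpecTPB.{v}) (hBOX : SpecBOX.{v}) : SpecMIN.{v} := by
  intro Q K X V S _ _ _ _ _ _ _ _ _ _ L β hβ m S' P hmax n N x y a b hx hy
  obtain ⟨hfinS, hT1, hT2, -, -⟩ := hTPB Q K X V S L β hβ
  obtain ⟨hB1, hB2⟩ := hBOX
  have hsq := sq_eq hFDA P x y a b hx hy
  have hone : ∀ (B' : ℕ) (M : ℤ → Submodule Qᵐᵒᵖ X) (M' : ℤ → Submodule K V) (c : Fin n → ℤ)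
      (d : Fin N → ℤ), IsFil B' M → IsFil B' M' → (∀ r, LSt L (M' r)) → Adp M x c → Adp M' y d →
      2 * m * deg (2 * B') (conv β M M') S' ≤
        2 * ∑ i, ∑ j, (a i + b j) * (c i + d j) + ∑ i, ∑ j, (c i + d j) ^ 2 := by
    intro B' M M' c d hM hM' hst hc hd
    obtain ⟨hf1, ha1⟩ := hB1 Qᵐᵒᵖ X P.B B' P.FX M P.filX hM
    obtain ⟨hf2, ha2⟩ := hB1 K V P.B B' P.FV M' P.filV hM'
    obtain ⟨hst2, hdeg⟩ := hB2 Q K X V S L β hβ P.B B' P.FX M P.FV M' P.filX P.filV hM hM' P.st hst
    let P' : PP X L := ⟨P.B + B', box P.FX M, box P.FV M', hf1, hf2, hst2⟩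
    have h1 := hmax P'
    have h2 := sq_eq hFDA P' x y (fun i => a i + c i) (fun j => b j + d j) (ha1 n x a c hx hc)
      (ha2 N y b d hy hd)
    have h3 := hdeg S'
    unfold fL at h1
    rw [h2, hsq] at h1
    have h4 : ∑ i, ∑ j, ((a i + c i) + (b j + d j)) ^ 2 = ∑ i, ∑ j, (a i + b j) ^ 2 +
        (2 * ∑ i, ∑ j, (a i + b j) * (c i + d j) + ∑ i, ∑ j, (c i + d j) ^ 2) := by
      rw [Finset.mul_sum, ← Finset.sum_add_distrib, ← Finset.sum_add_distrib]
      refine Finset.sum_congr rfl fun i _ => ?_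
      rw [Finset.mul_sum, ← Finset.sum_add_distrib, ← Finset.sum_add_distrib]
      exact Finset.sum_congr rfl fun j _ => by ring
    have h5 : (2 * m : ℤ) * (deg (2 * P.B) (conv β P.FX P.FV) S' +
        deg (2 * B') (conv β M M') S') ≤ 2 * m * deg (2 * (P.B + B'))
          (conv β (box P.FX M) (box P.FV M')) S' :=
      mul_le_mul_of_nonneg_left h3 (by positivity)
    have h6 : 2 * m * deg (2 * P'.B) (conv β P'.FX P'.FV) S' =
      2 * m * deg (2 * (P.B + B')) (conv β (box P.FX M) (box P.FV M')) S' := rfl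
    rw [h6, h4] at h1
    linarith
  refine ⟨hone, ?_, ?_, ?_⟩
  · have hs : ∀ r : ℤ, -1 ≤ r → r ≤ 1 → deg (2 * 1) (conv β (cst Qᵐᵒᵖ X r) (cst K V 0)) S' =
        r * finrank K S' := by
      intro r hr1 hr2
      obtain ⟨z, hz, hz2⟩ := hT1 n N x y
      have h1 := hz2 (cst Qᵐᵒᵖ X r) (cst K V 0) (fun _ => r) (fun _ => 0)
        (fun a q v hv => by
          unfold cst at hv ⊢
          split_ifs at hv ⊢ with h
          · trivial
          · rw [Submodule.mem_bot] at hv ⊢
            rw [hv, map_zero])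
        (cst_adp x r) (cst_adp y 0)
      have h2 : conv β (cst Qᵐᵒᵖ X r) (cst K V 0) = cst K S r := by
        funext c
        rw [h1 c, cst_adp z r c]
        simp
      rw [h2]
      unfold deg cst
      have h3 : Finset.Ioc (-((2 * 1 : ℕ) : ℤ)) ((2 * 1 : ℕ) : ℤ) = {-1, 0, 1, 2} := by
        decide
      rw [h3]
      have hr : r = -1 ∨ r = 0 ∨ r = 1 := by omega
      rw [Finset.sum_insert (by decide), Finset.sum_insert (by decide),
        Finset.sum_insert (by decide), Finset.sum_singleton]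
      rcases hr with rfl | rfl | rfl
      · rw [if_pos (by norm_num), if_neg (by norm_num), if_neg (by norm_num),
          if_neg (by norm_num), inf_top_eq, inf_bot_eq, finrank_bot]
        push_cast
        ring
      · rw [if_pos (by norm_num), if_pos (by norm_num), if_neg (by norm_num),
          if_neg (by norm_num), inf_top_eq, inf_bot_eq, finrank_bot]
        push_cast
        ring
      · rw [if_pos (by norm_num), if_pos (by norm_num), if_pos (by norm_num),
          if_neg (by norm_num), inf_top_eq, inf_bot_eq, finrank_bot]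
        push_cast
        ring
    have hst : ∀ r, LSt L (cst K V 0 r) := by
      intro r q v hv
      unfold cst at hv ⊢
      split_ifs at hv ⊢ with h
      · trivial
      · rw [Submodule.mem_bot] at hv ⊢
        rw [hv, map_zero]
    have h1 := hone 1 (cst Qᵐᵒᵖ X 1) (cst K V 0) (fun _ => 1) (fun _ => 0)
      (cst_fil 1 1 (by norm_num) (by norm_num)) (cst_fil 1 0 (by norm_num) (by norm_num)) hst
      (cst_adp x 1) (cst_adp y 0)
    have h2 := hone 1 (cst Qᵐᵒᵖ X (-1)) (cst K V 0) (fun _ => -1) (fun _ => 0)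
      (cst_fil 1 (-1) (by norm_num) (by norm_num)) (cst_fil 1 0 (by norm_num) (by norm_num)) hst
      (cst_adp x (-1)) (cst_adp y 0)
    rw [hs 1 (by norm_num) le_rfl] at h1
    rw [hs (-1) le_rfl (by norm_num)] at h2
    have h3 : ∑ i, ∑ j, (a i + b j) = N * ∑ i, a i + n * ∑ j, b j := by
      rw [Finset.sum_congr rfl fun i _ => Finset.sum_add_distrib (f := fun _ => a i) (g := b),
        Finset.sum_add_distrib]
      simp [Finset.mul_sum]
    simp only [add_zero, mul_one, mul_neg, Finset.sum_neg_distrib, h3, one_pow, even_two, Even.neg_pow,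
      Finset.sum_const, Finset.card_univ, Fintype.card_fin, nsmul_eq_mul] at h1 h2
    rw [abs_le]
    constructor
    · linarith
    · linarith
  · intro i
    have hne : (Finset.univ : Finset (Fin n)).Nonempty := ⟨i, Finset.mem_univ i⟩
    obtain ⟨i0, -, hi0⟩ := Finset.exists_min_image Finset.univ a hne
    obtain ⟨h1, -⟩ := hFDA Qᵐᵒᵖ X P.B P.FX P.filX
    obtain ⟨hb, -⟩ := h1 (Fin n) x a hx
    obtain ⟨r1, r2, r3⟩ := raise P.B P.FX P.filX x a hx hb i0
    have hfV : IsFil (P.B + 1) P.FV := ⟨P.filV.anti, fun a ha => P.filV.top a (by push_cast at ha; omega),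
      fun a ha => P.filV.bot a (by push_cast at ha; omega)⟩
    let P' : PP X L := ⟨P.B + 1, (fun r => if r ≤ a i0 + 1 then ⊤ else P.FX r), P.FV, r1, hfV, P.st⟩
    have h2 := hmax P'
    have h3 := sq_eq hFDA P' x y _ b r2 hy
    unfold fL at h2
    rw [h3, hsq] at h2
    have hF : IsFil (2 * P.B) (conv β P.FX P.FV) := by
      rw [two_mul]; exact hT2 P.B P.B P.FX P.FV P.filX P.filV P.st
    obtain ⟨-, hd1, hd2, -⟩ := hFDA K S (2 * P.B) (conv β P.FX P.FV) hF
    have hF' : IsFil (2 * (P.B + 1)) (conv β P.FX P.FV) := ⟨hF.anti,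
      fun a ha => hF.top a (by push_cast at ha ⊢; omega),
      fun a ha => hF.bot a (by push_cast at ha ⊢; omega)⟩
    obtain ⟨-, -, hd3, -⟩ := hFDA K S (2 * (P.B + 1)) (conv β P.FX P.FV) hF'
    have h4 : deg (2 * P.B) (conv β P.FX P.FV) S' ≤ deg (2 * P'.B) (conv β P'.FX P'.FV) S' := by
      rw [← hd1 (2 * (P.B + 1)) S' (by omega)]
      refine hd3 (conv β P'.FX P'.FV) S' (fun c => ?_)
      refine iSup_mono fun r => ?_
      refine Submodule.span_mono ?_
      rintro s ⟨u, hu, w, hw, rfl⟩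
      exact ⟨u, r3 r hu, w, hw, rfl⟩
    have h5 : (2 * m : ℤ) * deg (2 * P.B) (conv β P.FX P.FV) S' ≤
        2 * m * deg (2 * P'.B) (conv β P'.FX P'.FV) S' :=
      mul_le_mul_of_nonneg_left h4 (by positivity)
    have h6 := alg a b i0 (fun i => hi0 i (Finset.mem_univ i)) (by linarith)
    have h7 : (N : ℤ) * a i0 ≤ N * a i :=
      mul_le_mul_of_nonneg_left (hi0 i (Finset.mem_univ i)) (by positivity)
    linarith
  · intro j
    have hne : (Finset.univ : Finset (Fin N)).Nonempty := ⟨j, Finset.mem_univ j⟩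
    obtain ⟨j0, -, hj0⟩ := Finset.exists_min_image Finset.univ b hne
    obtain ⟨h1, -⟩ := hFDA K V P.B P.FV P.filV
    obtain ⟨hb, -⟩ := h1 (Fin N) y b hy
    obtain ⟨r1, r2, r3⟩ := raise P.B P.FV P.filV y b hy hb j0
    have hfX : IsFil (P.B + 1) P.FX := ⟨P.filX.anti, fun a ha => P.filX.top a (by push_cast at ha; omega),
      fun a ha => P.filX.bot a (by push_cast at ha; omega)⟩
    have hst : ∀ r, LSt L ((fun r => if r ≤ b j0 + 1 then ⊤ else P.FV r) r) := by
      intro r q v hv
      show L q v ∈ (if r ≤ b j0 + 1 then ⊤ else P.FV r : Submodule K V)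
      have hv' : v ∈ (if r ≤ b j0 + 1 then ⊤ else P.FV r : Submodule K V) := hv
      split_ifs at hv' ⊢ with h
      · trivial
      · exact P.st r q v hv'
    let P' : PP X L := ⟨P.B + 1, P.FX, (fun r => if r ≤ b j0 + 1 then ⊤ else P.FV r), hfX, r1, hst⟩
    have h2 := hmax P'
    have h3 := sq_eq hFDA P' x y a _ hx r2
    unfold fL at h2
    rw [h3, hsq] at h2
    have hF : IsFil (2 * P.B) (conv β P.FX P.FV) := by
      rw [two_mul]; exact hT2 P.B P.B P.FX P.FV P.filX P.filV P.st
    obtain ⟨-, hd1, hd2, -⟩ := hFDA K S (2 * P.B) (conv β P.FX P.FV) hF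
    have hF' : IsFil (2 * (P.B + 1)) (conv β P.FX P.FV) := ⟨hF.anti,
      fun a ha => hF.top a (by push_cast at ha ⊢; omega),
      fun a ha => hF.bot a (by push_cast at ha ⊢; omega)⟩
    obtain ⟨-, -, hd3, -⟩ := hFDA K S (2 * (P.B + 1)) (conv β P.FX P.FV) hF'
    have h4 : deg (2 * P.B) (conv β P.FX P.FV) S' ≤ deg (2 * P'.B) (conv β P'.FX P'.FV) S' := by
      rw [← hd1 (2 * (P.B + 1)) S' (by omega)]
      refine hd3 (conv β P'.FX P'.FV) S' (fun c => ?_)
      refine iSup_mono fun r => ?_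
      refine Submodule.span_mono ?_
      rintro s ⟨u, hu, w, hw, rfl⟩
      exact ⟨u, hu, w, r3 _ hw, rfl⟩
    have h5 : (2 * m : ℤ) * deg (2 * P.B) (conv β P.FX P.FV) S' ≤
        2 * m * deg (2 * P'.B) (conv β P'.FX P'.FV) S' :=
      mul_le_mul_of_nonneg_left h4 (by positivity)
    have h8 : ∑ i, ∑ j, (a i + b j) ^ 2 = ∑ j, ∑ i, (b j + a i) ^ 2 := by
      rw [Finset.sum_comm]
      exact Finset.sum_congr rfl fun i _ => Finset.sum_congr rfl fun j _ => by ring
    have h9 : ∑ i, ∑ j, (a i + max (b j) (b j0 + 1)) ^ 2 =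
        ∑ j, ∑ i, (max (b j) (b j0 + 1) + a i) ^ 2 := by
      rw [Finset.sum_comm]
      exact Finset.sum_congr rfl fun i _ => Finset.sum_congr rfl fun j _ => by ring
    have h6 := alg b a j0 (fun i => hj0 i (Finset.mem_univ i)) (by rw [← h8, ← h9]; linarith)
    have h7 : (n : ℤ) * b j0 ≤ n * b j :=
      mul_le_mul_of_nonneg_left (hj0 j (Finset.mem_univ j)) (by positivity)
    linarith

end Pool.Agent.Lib.MP_c37a72_al.NI
end

section
/-!
# MP_c37a72_al, block NI, module MXZ: `f_m` has a maximum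
-/
set_option autoImplicit false

open Module

namespace Pool.Agent.Lib.MP_c37a72_al.NI

universe v

namespace MXZM

/-- Abel summation. -/
theorem abel (f : ℤ → ℤ) (l : ℤ) (n : ℕ) :
    ∑ a ∈ Finset.Icc l (l + n), a * (f a - f (a + 1)) =
      ∑ a ∈ Finset.Ioc l (l + n), f a + l * f l - (l + n) * f (l + n + 1) := by
  induction n with
  | zero => simp; ring
  | succ n ih =>
    have h1 : Finset.Icc l (l + ((n + 1 : ℕ) : ℤ)) = insert (l + n + 1) (Finset.Icc l (l + n)) := by
      ext a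
      simp only [Finset.mem_Icc, Finset.mem_insert]
      push_cast
      omega
    have h2 : Finset.Ioc l (l + ((n + 1 : ℕ) : ℤ)) = insert (l + n + 1) (Finset.Ioc l (l + n)) := by
      ext a
      simp only [Finset.mem_Ioc, Finset.mem_insert]
      push_cast
      omega
    rw [h1, h2, Finset.sum_insert (by simp only [Finset.mem_Icc]; omega),
      Finset.sum_insert (by simp only [Finset.mem_Ioc]; omega), ih]
    push_cast
    have e1 : l + (n : ℤ) + 1 + 1 = l + ((n : ℤ) + 1) + 1 := by ring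
    rw [e1]
    ring

theorem tele (f : ℤ → ℤ) (l : ℤ) (n : ℕ) :
    ∑ a ∈ Finset.Icc l (l + n), (f a - f (a + 1)) = f l - f (l + n + 1) := by
  induction n with
  | zero => simp
  | succ n ih =>
    have h1 : Finset.Icc l (l + ((n + 1 : ℕ) : ℤ)) = insert (l + n + 1) (Finset.Icc l (l + n)) := by
      ext a
      simp only [Finset.mem_Icc, Finset.mem_insert]
      push_cast
      omega
    rw [h1, Finset.sum_insert (by simp only [Finset.mem_Icc]; omega), ih]
    push_cast
    have e1 : l + (n : ℤ) + 1 + 1 = l + ((n : ℤ) + 1) + 1 := by ring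
    rw [e1]
    ring

section

variable {D : Type v} {V : Type v} [DivisionRing D] [AddCommGroup V] [Module D V]
  [Module.Finite D V]

/-- The degree as a weighted sum. -/
theorem deg_eq {B : ℕ} {F : ℤ → Submodule D V} (hF : IsFil B F) (W : Submodule D V) :
    deg B F W = ∑ a ∈ Finset.Icc (-(B : ℤ)) B,
      a * ((finrank D ↥(W ⊓ F a) : ℤ) - finrank D ↥(W ⊓ F (a + 1))) := by
  have h := abel (fun a => (finrank D ↥(W ⊓ F a) : ℤ)) (-(B : ℤ)) (2 * B)
  have e1 : -(B : ℤ) + ((2 * B : ℕ) : ℤ) = B := by push_cast; ring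
  rw [e1] at h
  rw [h]
  unfold deg
  have e2 : (finrank D ↥(W ⊓ F (-(B : ℤ))) : ℤ) = finrank D W := by
    rw [hF.top _ le_rfl, inf_top_eq]
  have e3 : (finrank D ↥(W ⊓ F ((B : ℤ) + 1)) : ℤ) = 0 := by
    rw [hF.bot _ (by omega), inf_bot_eq, finrank_bot]
    rfl
  simp only [e2, e3]
  ring

theorem dim_eq {B : ℕ} {F : ℤ → Submodule D V} (hF : IsFil B F) (W : Submodule D V) :
    (finrank D W : ℤ) = ∑ a ∈ Finset.Icc (-(B : ℤ)) B,
      ((finrank D ↥(W ⊓ F a) : ℤ) - finrank D ↥(W ⊓ F (a + 1))) := by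
  have h := tele (fun a => (finrank D ↥(W ⊓ F a) : ℤ)) (-(B : ℤ)) (2 * B)
  have e1 : -(B : ℤ) + ((2 * B : ℕ) : ℤ) = B := by push_cast; ring
  rw [e1] at h
  rw [h]
  have e2 : (finrank D ↥(W ⊓ F (-(B : ℤ))) : ℤ) = finrank D W := by
    rw [hF.top _ le_rfl, inf_top_eq]
  have e3 : (finrank D ↥(W ⊓ F ((B : ℤ) + 1)) : ℤ) = 0 := by
    rw [hF.bot _ (by omega), inf_bot_eq, finrank_bot]
    rfl
  simp only [e2, e3]
  ring

theorem step_nonneg {B : ℕ} {F : ℤ → Submodule D V} (hF : IsFil B F) (W : Submodule D V)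
    (a : ℤ) : 0 ≤ (finrank D ↥(W ⊓ F a) : ℤ) - finrank D ↥(W ⊓ F (a + 1)) := by
  have h : finrank D ↥(W ⊓ F (a + 1)) ≤ finrank D ↥(W ⊓ F a) :=
    Submodule.finrank_mono (inf_le_inf_left _ (hF.anti (by omega)))
  omega

theorem step_le {B : ℕ} {F : ℤ → Submodule D V} (hF : IsFil B F) (W : Submodule D V)
    (a : ℤ) : (finrank D ↥(W ⊓ F a) : ℤ) - finrank D ↥(W ⊓ F (a + 1)) ≤
      (finrank D (F a) : ℤ) - finrank D (F (a + 1)) := by
  have h1 := Submodule.finrank_sup_add_finrank_inf_eq (W ⊓ F a) (F (a + 1))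
  have h2 : (W ⊓ F a) ⊓ F (a + 1) = W ⊓ F (a + 1) := by
    rw [inf_assoc, inf_eq_right.2 (hF.anti (by omega : a ≤ a + 1))]
  have h3 : finrank D ↥((W ⊓ F a) ⊔ F (a + 1)) ≤ finrank D (F a) :=
    Submodule.finrank_mono (sup_le inf_le_right (hF.anti (by omega)))
  rw [h2] at h1
  omega

/-- The bound `2 m deg W - |F|² ≤ m² dim W`. -/
theorem bound {B : ℕ} {F : ℤ → Submodule D V} (hF : IsFil B F) (W : Submodule D V) (m : ℕ) :
    2 * m * deg B F W - wsum B F (fun a => a ^ 2) ≤ m ^ 2 * (finrank D W : ℤ) := by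
  rw [deg_eq hF, dim_eq hF, wsum, Finset.mul_sum, Finset.mul_sum, ← Finset.sum_sub_distrib]
  refine Finset.sum_le_sum fun a _ => ?_
  have h1 := step_nonneg hF W a
  have h2 := step_le hF W a
  set s := (finrank D ↥(W ⊓ F a) : ℤ) - finrank D ↥(W ⊓ F (a + 1))
  set d := (finrank D (F a) : ℤ) - finrank D (F (a + 1))
  have h3 : a ^ 2 * s ≤ a ^ 2 * d := mul_le_mul_of_nonneg_left h2 (sq_nonneg a)
  have h4 : 0 ≤ (a - m) ^ 2 * s := mul_nonneg (sq_nonneg _) h1
  nlinarith [h3, h4]

end

theorem wsum_sq {ι κ : Type} [Fintype ι] [Fintype κ] (a : ι → ℤ) (b : κ → ℤ) :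
    (Fintype.card κ : ℤ) * ∑ i, a i ^ 2 + 2 * ((∑ i, a i) * ∑ j, b j) +
      (Fintype.card ι : ℤ) * ∑ j, b j ^ 2 = ∑ ij : ι × κ, (a ij.1 + b ij.2) ^ 2 := by
  rw [Fintype.sum_prod_type]
  have h1 : ∀ i, ∑ j, (a i + b j) ^ 2 =
      (Fintype.card κ : ℤ) * a i ^ 2 + 2 * (a i * ∑ j, b j) + ∑ j, b j ^ 2 := by
    intro i
    have h2 : ∀ j, (a i + b j) ^ 2 = a i ^ 2 + 2 * (a i * b j) + b j ^ 2 := fun j => by ring
    simp only [h2, Finset.sum_add_distrib, Finset.sum_const, Finset.card_univ, nsmul_eq_mul,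
      ← Finset.mul_sum]
  simp only [h1, Finset.sum_add_distrib, Finset.sum_const, Finset.card_univ, nsmul_eq_mul,
    ← Finset.mul_sum, ← Finset.sum_mul]

end MXZM

open MXZM

theorem specMXZ (hADB : SpecADB.{v}) (hFDA : SpecFDA.{v}) (hTPB : SpecTPB.{v}) : SpecMXZ.{v} := by
  intro Q K X V S _ _ _ _ _ _ _ _ _ _ L β hβ m S'
  obtain ⟨hfin, hz, hfil, -, -⟩ := hTPB Q K X V S L β hβ
  have := hfin
  -- the trivial pair
  have htriv : ∀ {D : Type v} {W : Type v} [DivisionRing D] [AddCommGroup W] [Module D W],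
      IsFil 0 (fun a : ℤ => if a ≤ 0 then (⊤ : Submodule D W) else ⊥) := by
    intro D W _ _ _
    refine ⟨?_, ?_, ?_⟩
    · intro a b hab
      by_cases hb : b ≤ 0
      · simp [hb, hab.trans hb]
      · simp [hb]
    · intro a ha
      have : a ≤ 0 := by simpa using ha
      simp [this]
    · intro a ha
      have : ¬ a ≤ 0 := by simpa using ha
      simp [this]
  let P0 : PP X L :=
    { B := 0
      FX := fun a => if a ≤ 0 then ⊤ else ⊥
      FV := fun a => if a ≤ 0 then ⊤ else ⊥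
      filX := htriv
      filV := htriv
      st := fun a q v hv => by
        by_cases ha : a ≤ 0
        · simp [ha]
        · simp only [ha, if_false, Submodule.mem_bot] at hv ⊢
          rw [hv, map_zero] }
  have hb : ∀ P : PP X L, fL β m S' P ≤ m ^ 2 * (finrank K S' : ℤ) := by
    intro P
    obtain ⟨x, a, -, ha, -⟩ := hADB Qᵐᵒᵖ X P.B P.FX P.FX P.filX P.filX
    obtain ⟨y, b, -, hb, -⟩ := hADB K V P.B P.FV P.FV P.filV P.filV
    obtain ⟨z, -, hzz⟩ := hz _ _ x y
    have hA := hzz P.FX P.FV a b P.st ha hb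
    have hF : IsFil (2 * P.B) (conv β P.FX P.FV) := by
      rw [two_mul]
      exact hfil P.B P.B P.FX P.FV P.filX P.filV P.st
    have hsq : P.sq = wsum (2 * P.B) (conv β P.FX P.FV) (fun a => a ^ 2) := by
      rw [((hFDA K S (2 * P.B) _ hF).1 _ z _ hA).2.2.2]
      have hX := ((hFDA Qᵐᵒᵖ X P.B _ P.filX).1 _ x _ ha).2.2.2
      have hV := ((hFDA K V P.B _ P.filV).1 _ y _ hb).2.2.2
      unfold PP.sq
      rw [hX, hX, hV, hV, ← wsum_sq]
      simp
    unfold fL
    rw [hsq]
    exact bound hF S' m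
  obtain ⟨u, ⟨P, hP⟩, hu⟩ := Int.exists_greatest_of_bdd (P := fun z => ∃ P : PP X L, fL β m S' P = z)
    ⟨m ^ 2 * (finrank K S' : ℤ), fun z ⟨P, hP⟩ => hP ▸ hb P⟩ ⟨_, P0, rfl⟩
  exact ⟨P, fun P' => hP ▸ hu _ ⟨P', rfl⟩⟩

end Pool.Agent.Lib.MP_c37a72_al.NI
end

section
/-!
# MP_c37a72_al, block NI, module RSE: the raising lemma
-/
set_option autoImplicit false

open Module

namespace Pool.Agent.Lib.MP_c37a72_al.NI

universe u v w

namespace RSEM

/-- A polynomial family of operators which is `1` at `0` is injective at some `c ≠ 0`. -/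
theorem exists_inj (k : Type u) (Z W : Type v) [Field k] [CharZero k] [Field Z] [Algebra k Z]
    [AddCommGroup W] [Module Z W] [Module.Finite Z W] (d : ℕ) (L : ℕ → Module.End Z W)
    (h0 : L 0 = 1) : ∃ c : k, c ≠ 0 ∧
      LinearMap.ker (∑ j ∈ Finset.range (d + 1), (algebraMap k Z c) ^ j • L j) = ⊥ := by
  classical
  let b := Module.finBasis Z W
  let M : ℕ → Matrix (Fin (finrank Z W)) (Fin (finrank Z W)) Z := fun j =>
    LinearMap.toMatrix b b (L j)
  let P : Matrix (Fin (finrank Z W)) (Fin (finrank Z W)) (Polynomial Z) :=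
    ∑ j ∈ Finset.range (d + 1), (Polynomial.X ^ j : Polynomial Z) • (M j).map Polynomial.C
  have hP : ∀ z : Z, (P.map (Polynomial.eval z)) =
      LinearMap.toMatrix b b (∑ j ∈ Finset.range (d + 1), z ^ j • L j) := by
    intro z
    rw [map_sum]
    ext i j
    simp only [P, M, Matrix.map_apply, Matrix.sum_apply, Matrix.smul_apply, smul_eq_mul,
      Polynomial.eval_finsetSum, Polynomial.eval_mul, Polynomial.eval_pow, Polynomial.eval_X,
      Polynomial.eval_C, map_smul]
  have hdet : ∀ z : Z, Polynomial.eval z P.det =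
      LinearMap.det (∑ j ∈ Finset.range (d + 1), z ^ j • L j) := by
    intro z
    rw [← LinearMap.det_toMatrix b, ← hP z]
    exact RingHom.map_det (Polynomial.evalRingHom z) P
  have h1 : Polynomial.eval 0 P.det = 1 := by
    rw [hdet, Finset.sum_eq_single 0]
    · rw [pow_zero, one_smul, h0]
      exact LinearMap.det_id
    · intro j _ hj
      rw [zero_pow hj, zero_smul]
    · intro h
      exact absurd (Finset.mem_range.2 (by omega)) h
  have hne : P.det * Polynomial.X ≠ 0 := by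
    refine mul_ne_zero ?_ Polynomial.X_ne_zero
    intro h
    rw [h, Polynomial.eval_zero] at h1
    exact zero_ne_one h1
  have hinf : (Set.range (algebraMap k Z)).Infinite :=
    Set.infinite_range_of_injective (algebraMap k Z).injective
  have hfin : ((P.det * Polynomial.X).roots.toFinset : Set Z).Finite := Finset.finite_toSet _
  obtain ⟨z, ⟨c, rfl⟩, hc⟩ := hinf.exists_notMem_finite hfin
  have hc2 : Polynomial.eval (algebraMap k Z c) (P.det * Polynomial.X) ≠ 0 := by
    intro h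
    apply hc
    rw [Finset.mem_coe, Multiset.mem_toFinset, Polynomial.mem_roots hne]
    exact h
  rw [Polynomial.eval_mul, Polynomial.eval_X] at hc2
  refine ⟨c, ?_, ?_⟩
  · rintro rfl
    rw [map_zero, mul_zero] at hc2
    exact hc2 rfl
  · have h3 := left_ne_zero_of_mul hc2
    rw [hdet] at h3
    exact (LinearMap.isUnit_iff_ker_eq_bot _).1
      ((LinearMap.isUnit_iff_isUnit_det _).2 (isUnit_iff_ne_zero.2 h3))

theorem key (k : Type u) (Z V : Type v) [Field k] [CharZero k] [Field Z] [Algebra k Z]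
    [AddCommGroup V] [Module Z V] [Module.Finite Z V] (n p : Module.End Z V) (hnp : n * p = p * n)
    (m : ℕ) (hr : ∀ (c : k), finrank Z (LinearMap.range ((n + algebraMap k Z c • p) ^ m)) ≤
      finrank Z (LinearMap.range (n ^ m))) (hm : 1 ≤ m) (u : V) (hu : (n ^ m) u = 0) :
    ∃ w, (n ^ m) w = (m : Z) • ((n ^ (m - 1)) (p u)) := by
  by_contra hcon
  have hcomm : Commute p n := hnp.symm
  let N : ℕ → Module.End Z V := fun i => (m.choose i : Z) • (p ^ i * n ^ (m - i))
  have hA : ∀ c : Z, (n + c • p) ^ m = ∑ i ∈ Finset.range (m + 1), c ^ i • N i := by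
    intro c
    rw [add_comm, (hcomm.smul_left c).add_pow]
    apply Finset.sum_congr rfl
    intro i _
    simp only [N]
    rw [smul_pow, smul_mul_assoc, smul_mul_assoc, ← nsmul_eq_mul', ← Nat.cast_smul_eq_nsmul Z]
  have hN0 : N 0 = n ^ m := by
    simp [N]
  have hN1 : ∀ x, N 1 x = (m : Z) • ((n ^ (m - 1)) (p x)) := by
    intro x
    simp only [N, Nat.choose_one_right, pow_one, LinearMap.smul_apply, Module.End.mul_apply]
    congr 1
    have := (hcomm.pow_right (m - 1)).eq
    rw [← Module.End.mul_apply, this, Module.End.mul_apply]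
  have hNtop : N (m + 1) = 0 := by
    simp [N]
  obtain ⟨U1, hU1⟩ := Submodule.exists_isCompl (LinearMap.ker (n ^ m))
  let Ψ : ℕ → (U1 × Z) →ₗ[Z] V := fun i =>
    ((N i).comp U1.subtype).coprod (LinearMap.toSpanSingleton Z V (N (i + 1) u))
  have hΨ : ∀ i x, Ψ i x = N i x.1 + x.2 • N (i + 1) u := by
    intro i x
    simp [Ψ, LinearMap.coprod_apply, LinearMap.toSpanSingleton_apply]
  have hΨ0 : LinearMap.ker (Ψ 0) = ⊥ := by
    rw [LinearMap.ker_eq_bot']
    rintro ⟨x, z⟩ hx
    rw [hΨ, hN0, hN1] at hx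
    by_cases hz : z = 0
    · rw [hz, zero_smul, add_zero] at hx
      have h1 : (x : V) ∈ LinearMap.ker (n ^ m) ⊓ U1 := ⟨hx, x.2⟩
      rw [hU1.inf_eq_bot, Submodule.mem_bot] at h1
      rw [hz]
      ext
      · exact h1
      · rfl
    · exfalso
      apply hcon
      refine ⟨-(z⁻¹ • (x : V)), ?_⟩
      rw [map_neg, map_smul]
      have h2 : (n ^ m) (x : V) = -(z • (m : Z) • ((n ^ (m - 1)) (p u))) :=
        eq_neg_of_add_eq_zero_left hx
      rw [h2, smul_neg, neg_neg, smul_smul, inv_mul_cancel₀ hz, one_smul]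
  obtain ⟨Φ, hΦ⟩ := (Ψ 0).exists_leftInverse_of_injective hΨ0
  obtain ⟨c, hc0, hc⟩ := exists_inj k Z (U1 × Z) m (fun i => Φ.comp (Ψ i)) (by
    show Φ ∘ₗ (Ψ 0) = 1
    rw [hΦ]
    rfl)
  have hcz : algebraMap k Z c ≠ 0 := by
    rw [Ne, map_eq_zero]
    exact hc0
  set z := algebraMap k Z c with hz
  let Ψc : (U1 × Z) →ₗ[Z] V := ∑ i ∈ Finset.range (m + 1), z ^ i • Ψ i
  have hcomp : ∑ j ∈ Finset.range (m + 1), z ^ j • (Φ.comp (Ψ j)) = Φ.comp Ψc := by
    refine LinearMap.ext fun x => ?_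
    simp only [Ψc, LinearMap.coe_comp, Function.comp_apply, LinearMap.sum_apply,
      LinearMap.smul_apply, map_sum, map_smul]
  have hinj : Function.Injective Ψc := by
    have h1 : Function.Injective (Φ.comp Ψc) := by
      rw [← hcomp]
      exact LinearMap.ker_eq_bot.1 hc
    exact Function.Injective.of_comp (f := Φ) h1
  have hu1 : z • Ψc (0, 1) = ((n + z • p) ^ m) u := by
    have h1 : Ψc (0, 1) = ∑ i ∈ Finset.range (m + 1), z ^ i • N (i + 1) u := by
      simp only [Ψc, LinearMap.sum_apply, LinearMap.smul_apply, hΨ, one_smul,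
        Submodule.coe_zero, map_zero, zero_add]
    have h2 : ((n + z • p) ^ m) u = ∑ i ∈ Finset.range m, z ^ (i + 1) • N (i + 1) u := by
      rw [hA, LinearMap.sum_apply, Finset.sum_range_succ' _ m, LinearMap.smul_apply, hN0, hu,
        smul_zero, add_zero]
      rfl
    rw [h1, h2, Finset.sum_range_succ, hNtop, LinearMap.zero_apply, smul_zero, add_zero,
      Finset.smul_sum]
    apply Finset.sum_congr rfl
    intro i _
    rw [smul_smul, pow_succ']
  have hu2 : ∀ x : U1, Ψc (x, 0) = ((n + z • p) ^ m) x := by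
    intro x
    rw [hA, LinearMap.sum_apply]
    simp only [LinearMap.sum_apply, LinearMap.smul_apply, hΨ, zero_smul, add_zero]
  have hrange : LinearMap.range Ψc ≤ LinearMap.range ((n + z • p) ^ m) := by
    rintro _ ⟨⟨x, y⟩, rfl⟩
    refine ⟨(x : V) + (z⁻¹ * y) • u, ?_⟩
    rw [map_add, map_smul, ← hu1, ← hu2, smul_smul, mul_comm z⁻¹ y, mul_assoc,
      inv_mul_cancel₀ hcz, mul_one, ← map_smul, ← map_add]
    congr 1
    ext
    · simp
    · simp
  have h1 : finrank Z (U1 × Z) ≤ finrank Z (LinearMap.range (n ^ m)) := by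
    calc finrank Z (U1 × Z) = finrank Z (LinearMap.range Ψc) :=
          (LinearMap.finrank_range_of_inj hinj).symm
      _ ≤ finrank Z (LinearMap.range ((n + z • p) ^ m)) := Submodule.finrank_mono hrange
      _ ≤ _ := hr c
  have h2 := LinearMap.finrank_range_add_finrank_ker (n ^ m)
  have h3 := Submodule.finrank_add_eq_of_isCompl hU1
  rw [Module.finrank_prod, Module.finrank_self] at h1
  omega

end RSEM

theorem specRSE : SpecRSE.{u, v} := by
  intro k Z V _ _ _ _ _ _ _ n p hnp hr a x hx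
  have : CharZero Z := charZero_of_injective_algebraMap (algebraMap k Z).injective
  have hpn : ∀ (i : ℕ) (y : V), p ((n ^ i) y) = (n ^ i) (p y) := by
    intro i y
    have h : Commute n p := hnp
    have := (h.pow_left i).eq
    rw [← Module.End.mul_apply, ← this, Module.End.mul_apply]
  refine wt_induction n (p := fun x => p x ∈ wt n (a + 1)) ?_ ?_ ?_ hx
  · intro i m u hi hm hu
    show p ((n ^ i) u) ∈ wt n (a + 1)
    obtain ⟨w, hw⟩ := RSEM.key k Z V n p hnp m (hr m) (by omega) u hu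
    have hm0 : (m : Z) ≠ 0 := by
      have : m ≠ 0 := by omega
      exact_mod_cast this
    set u' := p u - (m : Z)⁻¹ • n w with hu'
    have hnm : ∀ y, (n ^ (m - 1)) (n y) = (n ^ m) y := by
      intro y
      rw [← Module.End.mul_apply, ← pow_succ, Nat.sub_add_cancel (by omega)]
    have h1 : (n ^ (m - 1)) u' = 0 := by
      rw [hu', map_sub, map_smul, hnm, hw, smul_smul, inv_mul_cancel₀ hm0, one_smul, sub_self]
    have h2 : (n ^ (m + 1)) w = 0 := by
      rw [pow_succ', Module.End.mul_apply, hw, map_smul, ← Module.End.mul_apply, ← pow_succ',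
        Nat.sub_add_cancel (by omega), ← hpn, hu, map_zero, smul_zero]
    have h3 : p ((n ^ i) u) = (m : Z)⁻¹ • (n ^ (i + 1)) w + (n ^ i) u' := by
      rw [hpn, hu', map_sub, map_smul, pow_succ, Module.End.mul_apply, add_sub_cancel]
    rw [h3]
    refine Submodule.add_mem _ (Submodule.smul_mem _ _ ?_) ?_
    · exact wt_gen n (m := m + 1) (by push_cast; omega) (by push_cast; omega) h2
    · by_cases h4 : a + 1 ≤ (i : ℤ)
      · exact wt_gen n (m := m - 1) h4 (by omega) h1
      · have h5 : m - 1 = i := by omega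
        rw [← h5, h1]
        exact Submodule.zero_mem _
  · show p 0 ∈ _
    rw [map_zero]
    exact Submodule.zero_mem _
  · intro x y h1 h2
    show p (x + y) ∈ _
    rw [map_add]
    exact Submodule.add_mem _ h1 h2

end Pool.Agent.Lib.MP_c37a72_al.NI
end

section
/-!
# MP_c37a72_al, block NI, module TDG: the degree of a tensor product of subspaces
-/
set_option autoImplicit false

open Module

namespace Pool.Agent.Lib.MP_c37a72_al.NI

universe u v w

namespace TDGM

/-- the two step filtration `⊤ ⊇ W ⊇ ⊥` -/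
def two {D V : Type v} [DivisionRing D] [AddCommGroup V] [Module D V] (W : Submodule D V) (a : ℤ) :
    Submodule D V :=
  if a ≤ 0 then ⊤ else if a ≤ 1 then W else ⊥

/-- a basis adapted to a filtration and to a subspace -/
theorem adp_sub (hADB : SpecADB.{v}) {D V : Type v} [DivisionRing D] [AddCommGroup V] [Module D V]
    [Module.Finite D V] (B : ℕ) (F : ℤ → Submodule D V) (hF : IsFil B F) (W : Submodule D V) :
    ∃ (n : ℕ) (b : Basis (Fin n) D V) (p : Fin n → ℤ) (J : Finset (Fin n)), Adp F b p ∧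
      W = Submodule.span D (b '' (J : Set (Fin n))) := by
  classical
  have hF' : IsFil (B + 1) F :=
    ⟨hF.anti, fun a ha => hF.top a (by push_cast at ha; omega),
      fun a ha => hF.bot a (by push_cast at ha; omega)⟩
  have hE : IsFil (B + 1) (two W) := by
    refine ⟨?_, ?_, ?_⟩
    · intro a b hab
      unfold two
      by_cases h1 : a ≤ 0
      · rw [if_pos h1]
        exact le_top
      · rw [if_neg h1, if_neg (show ¬ b ≤ 0 by omega)]
        by_cases h2 : b ≤ 1
        · rw [if_pos h2, if_pos (show a ≤ 1 by omega)]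
        · rw [if_neg h2]
          exact bot_le
    · intro a ha
      unfold two
      rw [if_pos (show a ≤ 0 by push_cast at ha; omega)]
    · intro a ha
      unfold two
      rw [if_neg (show ¬ a ≤ 0 by push_cast at ha; omega),
        if_neg (show ¬ a ≤ 1 by push_cast at ha; omega)]
  obtain ⟨b, p, q, hp, hq⟩ := hADB D V (B + 1) F (two W) hF' hE
  refine ⟨_, b, p, Finset.univ.filter (fun i => 1 ≤ q i), hp, ?_⟩
  have h1 := hq 1
  have h2 : two W 1 = W := by
    unfold two
    rw [if_neg (by norm_num), if_pos le_rfl]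
  rw [h2] at h1
  rw [h1]
  congr 2
  ext i
  simp

/-- the dimension of the span of a part of a basis -/
theorem card_span {D V ι : Type*} [DivisionRing D] [AddCommGroup V] [Module D V] (b : Basis ι D V)
    (J : Finset ι) : finrank D (Submodule.span D (b '' (J : Set ι))) = J.card := by
  have h := finrank_span_eq_card (b.linearIndependent.comp (fun i : J => (i : ι))
    Subtype.val_injective)
  have e : Set.range (b ∘ fun i : J => (i : ι)) = b '' (J : Set ι) := by
    rw [Set.range_comp]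
    congr 1
    exact Subtype.range_coe
  rw [e] at h
  rw [h, Fintype.card_coe]

end TDGM

open TDGM

theorem specTDG (hADB : SpecADB.{v}) (hFDA : SpecFDA.{v}) (hTPB : SpecTPB.{v}) :
    SpecTDG.{v} := by
  classical
  intro Q K X V S _ _ _ _ _ _ _ _ _ _ L β hβ B B' F G hF hG hst X' V' hV'
  obtain ⟨hfin, t1, t3, t4, _⟩ := hTPB Q K X V S L β hβ
  obtain ⟨n, x, p, I, hxp, hX'⟩ := adp_sub hADB B F hF X'
  obtain ⟨N, y, q, J, hyq, hV''⟩ := adp_sub hADB B' G hG V'
  obtain ⟨z, hz, hzadp⟩ := t1 n N x y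
  have hadp := hzadp F G p q hst hxp hyq
  have hfil := t3 B B' F G hF hG hst
  have hcX : finrank Qᵐᵒᵖ X' = I.card := by rw [hX']; exact card_span x I
  have hcV : finrank K V' = J.card := by rw [hV'']; exact card_span y J
  have htns : tns β X' V' = Submodule.span K (z '' ((I ×ˢ J : Finset (Fin n × Fin N)) :
      Set (Fin n × Fin N))) := by
    symm
    refine Submodule.eq_of_le_of_finrank_eq ?_ ?_
    · rw [Submodule.span_le]
      rintro _ ⟨⟨i, j⟩, hij, rfl⟩
      rw [Finset.mem_coe, Finset.mem_product] at hij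
      rw [hz]
      refine Submodule.subset_span ⟨x i, ?_, y j, ?_, rfl⟩
      · rw [hX']
        exact Submodule.subset_span ⟨i, hij.1, rfl⟩
      · rw [hV'']
        exact Submodule.subset_span ⟨j, hij.2, rfl⟩
    · rw [t4 X' V' hV', card_span z (I ×ˢ J), Finset.card_product, hcX, hcV]
  have d1 := ((hFDA K S (B + B') (conv β F G) hfil).1 (Fin n × Fin N) z _ hadp).2.1 (I ×ˢ J)
  have d2 := ((hFDA Qᵐᵒᵖ X B F hF).1 (Fin n) x p hxp).2.1 I
  have d3 := ((hFDA K V B' G hG).1 (Fin N) y q hyq).2.1 J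
  rw [← htns] at d1
  rw [← hX'] at d2
  rw [← hV''] at d3
  rw [d1, d2, d3, hcX, hcV, Finset.sum_product]
  simp only [Finset.sum_add_distrib, Finset.sum_const, nsmul_eq_mul]
  rw [Finset.mul_sum, Finset.mul_sum]

end Pool.Agent.Lib.MP_c37a72_al.NI
end

section
/-!
# MP_c37a72_al, block NI: TEN (the tensor product theorem)
-/
set_option autoImplicit false

open Module

namespace Pool.Agent.Lib.MP_c37a72_al.NI

namespace TENM

/-- Abel summation. -/
theorem abel {n : ℕ} (a c : Fin n → ℤ) (α R : ℤ) (h1 : ∀ i, α ≤ a i) (h2 : ∀ i, a i ≤ R) (μ : ℚ)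
    (h3 : ∀ r ∈ Finset.Ioc α R, ((∑ i ∈ Finset.univ.filter (fun i => r ≤ a i), c i : ℤ) : ℚ) ≤
      μ * ((Finset.univ.filter (fun i => r ≤ a i)).card : ℚ)) :
    ((∑ i, a i * c i : ℤ) : ℚ) ≤ α * ((∑ i, c i : ℤ) : ℚ) + μ * ((∑ i, a i : ℤ) - n * α) := by
  have key : ∀ g : Fin n → ℤ, ∑ i, (a i - α) * g i =
      ∑ r ∈ Finset.Ioc α R, ∑ i ∈ Finset.univ.filter (fun i => r ≤ a i), g i := by
    intro g
    have h4 : ∀ i, (a i - α) * g i = ∑ r ∈ Finset.Ioc α R, if r ≤ a i then g i else 0 := by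
      intro i
      rw [← Finset.sum_filter, Finset.sum_const]
      have h5 : (Finset.Ioc α R).filter (fun r => r ≤ a i) = Finset.Ioc α (a i) := by
        ext r
        simp only [Finset.mem_filter, Finset.mem_Ioc]
        have := h2 i
        constructor
        · rintro ⟨⟨p, q⟩, s⟩; exact ⟨p, s⟩
        · rintro ⟨p, s⟩; exact ⟨⟨p, s.trans this⟩, s⟩
      rw [h5, Int.card_Ioc, nsmul_eq_mul]
      have := h1 i
      rw [Int.toNat_of_nonneg (by omega)]
    rw [Finset.sum_congr rfl fun i _ => h4 i, Finset.sum_comm]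
    exact Finset.sum_congr rfl fun r _ => (Finset.sum_filter _ _).symm
  have h4 := key c
  have h5 := key (fun _ => 1)
  have h6 : ((∑ i, (a i - α) * c i : ℤ) : ℚ) ≤ μ * ((∑ i, (a i - α) * 1 : ℤ) : ℚ) := by
    rw [h4, h5, Int.cast_sum, Int.cast_sum, Finset.mul_sum]
    refine Finset.sum_le_sum fun r hr => ?_
    refine (h3 r hr).trans (le_of_eq ?_)
    rw [Finset.sum_const, nsmul_eq_mul, mul_one]
    push_cast
    rfl
  have h7 : ∑ i, (a i - α) * c i = ∑ i, a i * c i - α * ∑ i, c i := by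
    rw [Finset.mul_sum, ← Finset.sum_sub_distrib]
    exact Finset.sum_congr rfl fun i _ => by ring
  have h8 : ∑ i, (a i - α) * 1 = ∑ i, a i - n * α := by
    simp only [mul_one, Finset.sum_sub_distrib, Finset.sum_const, Finset.card_univ,
      Fintype.card_fin, nsmul_eq_mul]
  rw [h7, h8] at h6
  push_cast at h6 ⊢
  linarith

/-- Dimension of the span of a part of a basis. -/
theorem fr {D V ι : Type*} [DivisionRing D] [AddCommGroup V] [Module D V] (b : Basis ι D V)
    (J : Finset ι) : finrank D (Submodule.span D (b '' (J : Set ι))) = J.card := by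
  have h1 : LinearIndependent D fun j : J => b j :=
    b.linearIndependent.comp _ Subtype.val_injective
  have h2 := finrank_span_eq_card h1
  have h3 : Set.range (fun j : J => b j) = b '' (J : Set ι) := by
    ext v
    simp
  rw [h3] at h2
  rw [h2, Fintype.card_coe]

/-- The set version. -/
theorem fr' {D V ι : Type*} [DivisionRing D] [AddCommGroup V] [Module D V] [Fintype ι]
    (b : Basis ι D V) (p : ι → ℤ) (r : ℤ) :
    Submodule.span D (b '' {i | r ≤ p i}) =
      Submodule.span D (b '' ((Finset.univ.filter (fun i => r ≤ p i) : Finset ι) : Set ι)) := by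
  simp

/-- The expansion of the scalar product. -/
theorem expand {n N : ℕ} (a : Fin n → ℤ) (b : Fin N → ℤ) (c : Fin n → ℤ) (d : Fin N → ℤ) :
    ∑ i, ∑ j, (a i + b j) * (c i + d j) = N * ∑ i, a i * c i +
        (∑ i, a i) * (∑ j, d j) + (∑ j, b j) * (∑ i, c i) + n * ∑ j, b j * d j := by
  have h1 : ∀ i, ∑ j, (a i + b j) * (c i + d j) = N * (a i * c i) + a i * ∑ j, d j +
      (∑ j, b j) * c i + ∑ j, b j * d j := by
    intro i
    have h2 : ∀ j, (a i + b j) * (c i + d j) = a i * c i + a i * d j + b j * c i + b j * d j :=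
      fun j => by ring
    rw [Finset.sum_congr rfl fun j _ => h2 j, Finset.sum_add_distrib, Finset.sum_add_distrib,
      Finset.sum_add_distrib, Finset.mul_sum, Finset.sum_mul]
    simp
  rw [Finset.sum_congr rfl fun i _ => h1 i, Finset.sum_add_distrib, Finset.sum_add_distrib,
    Finset.sum_add_distrib, Finset.sum_mul, Finset.mul_sum, Finset.mul_sum]
  simp

/-- The final inequality. -/
theorem fin (μ σ n N B m A Bb C D α β U W s d E : ℚ) (hn : 0 ≤ n) (hN : 0 ≤ N)
    (hU : U ≤ α * C + μ * (A - n * α)) (hW : W ≤ β * D + σ * (Bb - N * β))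
    (hC : C ≤ μ * n) (hD : D ≤ σ * N) (hC' : -(n * B) ≤ C) (hD' : -(N * B) ≤ D)
    (h1 : -N ≤ 2 * (N * α + Bb)) (h2 : -n ≤ 2 * (n * β + A))
    (h3 : |2 * (N * A + n * Bb) - 2 * m * s| ≤ n * N)
    (h4 : 2 * m * d ≤ 2 * (N * U + A * D + Bb * C + n * W) + E) :
    2 * (m * d) ≤ 2 * ((μ + σ) * (m * s)) + (|μ + σ| * (n * N) + n * N * (μ + σ + 2 * B) + E) := by
  have e1 : N * U ≤ N * (α * C + μ * (A - n * α)) := mul_le_mul_of_nonneg_left hU hN
  have e2 : n * W ≤ n * (β * D + σ * (Bb - N * β)) := mul_le_mul_of_nonneg_left hW hn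
  have e3 : 0 ≤ (μ * n - C) * (2 * (N * α + Bb) + N) := mul_nonneg (by linarith) (by linarith)
  have e4 : 0 ≤ (σ * N - D) * (2 * (n * β + A) + n) := mul_nonneg (by linarith) (by linarith)
  have e5 : (μ * n - C) * N ≤ (μ * n + n * B) * N := mul_le_mul_of_nonneg_right (by linarith) hN
  have e6 : (σ * N - D) * n ≤ (σ * N + N * B) * n := mul_le_mul_of_nonneg_right (by linarith) hn
  have e7 : (μ + σ) * (2 * (N * A + n * Bb) - 2 * m * s) ≤ |μ + σ| * (n * N) := by
    calc (μ + σ) * (2 * (N * A + n * Bb) - 2 * m * s)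
        ≤ |(μ + σ) * (2 * (N * A + n * Bb) - 2 * m * s)| := le_abs_self _
      _ = |μ + σ| * |2 * (N * A + n * Bb) - 2 * m * s| := abs_mul _ _
      _ ≤ |μ + σ| * (n * N) := mul_le_mul_of_nonneg_left h3 (abs_nonneg _)
  nlinarith [e1, e2, e3, e4, e5, e6, e7, h4]

/-- Integrality. -/
theorem arch (x C : ℚ) : ∃ m : ℕ, ∀ d : ℤ, 2 * ((m : ℚ) * d) ≤ 2 * (m * x) + C → (d : ℚ) ≤ x := by
  have hδ : 0 < (⌊x⌋ : ℚ) + 1 - x := by linarith [Int.lt_floor_add_one x]
  obtain ⟨m, hm⟩ := exists_nat_gt (C / (2 * ((⌊x⌋ : ℚ) + 1 - x)))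
  refine ⟨m, fun d hd => ?_⟩
  by_contra hlt
  rw [not_le] at hlt
  have h1 : ⌊x⌋ + 1 ≤ d := by
    have := Int.floor_lt.2 hlt
    omega
  have h2 : (⌊x⌋ : ℚ) + 1 ≤ d := by exact_mod_cast h1
  rw [div_lt_iff₀ (by positivity)] at hm
  have h3 : (m : ℚ) * ((⌊x⌋ : ℚ) + 1 - x) ≤ m * (d - x) :=
    mul_le_mul_of_nonneg_left (by linarith) (by positivity)
  nlinarith

end TENM

open TENM

universe v w

/-- The module TEN. -/
theorem specTEN (hADB : SpecADB.{v}) (hFDA : SpecFDA.{v}) (hFDB : SpecFDB.{v}) (hTPB : SpecTPB.{v})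
    (hMXZ : SpecMXZ.{v}) (hMIN : SpecMIN.{v}) : SpecTEN.{v, w} := by
  intro Q K X V S _ _ _ _ _ _ _ _ _ _ L β hβ 𝒯 l _ B MX MV μ σ hMX hMV hst hμ hσ S'
  obtain ⟨hfinS, hT1, hT2, -, -⟩ := hTPB Q K X V S L β hβ
  set n := finrank Qᵐᵒᵖ X with hn
  set N := finrank K V with hN
  by_cases hz : n = 0 ∨ N = 0
  · have hS : finrank K S = 0 := by
      obtain ⟨z, -⟩ := hT1 n N (finBasis Qᵐᵒᵖ X) (finBasis K V)
      rw [finrank_eq_card_basis z]
      rcases hz with h | h
      · rw [h]; simp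
      · rw [h]; simp
    have hS' : finrank K S' = 0 := by
      have := Submodule.finrank_le S'
      omega
    refine Filter.Eventually.of_forall fun t => ?_
    have hf : IsFil (2 * B) (conv β (MX t) (MV t)) := by
      rw [two_mul]; exact hT2 B B (MX t) (MV t) (hMX t) (hMV t) (hst t)
    obtain ⟨-, -, -, h1, -⟩ := hFDB K S (2 * B) _ hf
    have h2 := h1 S'
    rw [hS'] at h2 ⊢
    simp only [Nat.cast_zero, mul_zero, abs_nonpos_iff] at h2
    rw [h2]
    simp
  · push Not at hz
    obtain ⟨m, hm⟩ := arch ((μ + σ) * finrank K S')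
      (|μ + σ| * (n * N) + n * N * (μ + σ + 2 * B) + 4 * (n * N * B ^ 2))
    obtain ⟨P, hP⟩ := hMXZ Q K X V S L β hβ m S'
    have hev1 : ∀ᶠ t in l, ∀ r ∈ Finset.Icc (-(P.B : ℤ)) P.B,
        (deg B (MX t) (P.FX r) : ℚ) ≤ μ * finrank Qᵐᵒᵖ (P.FX r) :=
      (Finset.eventually_all _).2 fun r _ => hμ (P.FX r)
    have hev2 : ∀ᶠ t in l, ∀ r ∈ Finset.Icc (-(P.B : ℤ)) P.B,
        (deg B (MV t) (P.FV r) : ℚ) ≤ σ * finrank K (P.FV r) :=
      (Finset.eventually_all _).2 fun r _ => hσ (P.FV r) (P.st r)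
    filter_upwards [hev1, hev2] with t ht1 ht2
    have mono : ∀ {D V' : Type v} [DivisionRing D] [AddCommGroup V'] [Module D V']
        (F : ℤ → Submodule D V') (b b' : ℕ), b ≤ b' → IsFil b F → IsFil b' F := by
      intro D V' _ _ _ F b b' hb hF
      exact ⟨hF.anti, fun a ha => hF.top a (by omega), fun a ha => hF.bot a (by omega)⟩
    obtain ⟨x, a, c, hxa, hxc⟩ := hADB Qᵐᵒᵖ X (P.B + B) P.FX (MX t)
      (mono _ _ _ (Nat.le_add_right _ _) P.filX) (mono _ _ _ (Nat.le_add_left _ _) (hMX t))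
    obtain ⟨y, b, d, hyb, hyd⟩ := hADB K V (P.B + B) P.FV (MV t)
      (mono _ _ _ (Nat.le_add_right _ _) P.filV) (mono _ _ _ (Nat.le_add_left _ _) (hMV t))
    obtain ⟨m1, m2, m3, m4⟩ := hMIN Q K X V S L β hβ m S' P hP n N x y a b hxa hyb
    have m1' := m1 B (MX t) (MV t) c d (hMX t) (hMV t) (hst t) hxc hyd
    -- degrees
    obtain ⟨fX, -⟩ := hFDA Qᵐᵒᵖ X P.B P.FX P.filX
    obtain ⟨ba, -⟩ := fX (Fin n) x a hxa
    obtain ⟨fV, -⟩ := hFDA K V P.B P.FV P.filV
    obtain ⟨bb, -⟩ := fV (Fin N) y b hyb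
    obtain ⟨gX, -⟩ := hFDA Qᵐᵒᵖ X B (MX t) (hMX t)
    obtain ⟨bc, dc, -⟩ := gX (Fin n) x c hxc
    obtain ⟨gV, -⟩ := hFDA K V B (MV t) (hMV t)
    obtain ⟨bd, dd, -⟩ := gV (Fin N) y d hyd
    have : Nonempty (Fin n) := ⟨⟨0, Nat.pos_of_ne_zero hz.1⟩⟩
    have : Nonempty (Fin N) := ⟨⟨0, Nat.pos_of_ne_zero hz.2⟩⟩
    obtain ⟨i0, -, hi0⟩ := Finset.exists_min_image Finset.univ a Finset.univ_nonempty
    obtain ⟨j0, -, hj0⟩ := Finset.exists_min_image Finset.univ b Finset.univ_nonempty
    have stepX : ∀ r ∈ Finset.Icc (-(P.B : ℤ)) P.B,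
        ((∑ i ∈ Finset.univ.filter (fun i => r ≤ a i), c i : ℤ) : ℚ) ≤
          μ * ((Finset.univ.filter (fun i => r ≤ a i)).card : ℚ) := by
      intro r hr
      have h1 := ht1 r hr
      rw [hxa r, fr' x a r, dc, fr] at h1
      exact h1
    have stepV : ∀ r ∈ Finset.Icc (-(P.B : ℤ)) P.B,
        ((∑ i ∈ Finset.univ.filter (fun i => r ≤ b i), d i : ℤ) : ℚ) ≤
          σ * ((Finset.univ.filter (fun i => r ≤ b i)).card : ℚ) := by
      intro r hr
      have h1 := ht2 r hr
      rw [hyb r, fr' y b r, dd, fr] at h1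
      exact h1
    have hU := abel a c (a i0) P.B (fun i => hi0 i (Finset.mem_univ i)) (fun i => (ba i).2) μ
      (fun r hr => stepX r (Finset.mem_Icc.2 ⟨by
        have := (ba i0).1; have := (Finset.mem_Ioc.1 hr).1; omega, (Finset.mem_Ioc.1 hr).2⟩))
    have hW := abel b d (b j0) P.B (fun i => hj0 i (Finset.mem_univ i)) (fun i => (bb i).2) σ
      (fun r hr => stepV r (Finset.mem_Icc.2 ⟨by
        have := (bb j0).1; have := (Finset.mem_Ioc.1 hr).1; omega, (Finset.mem_Ioc.1 hr).2⟩))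
    have hC : ((∑ i, c i : ℤ) : ℚ) ≤ μ * n := by
      have h1 := stepX (-(P.B : ℤ)) (Finset.mem_Icc.2 ⟨le_rfl, by omega⟩)
      have h2 : Finset.univ.filter (fun i => -(P.B : ℤ) ≤ a i) = Finset.univ :=
        Finset.filter_true_of_mem fun i _ => (ba i).1
      rw [h2] at h1
      simpa using h1
    have hD : ((∑ i, d i : ℤ) : ℚ) ≤ σ * N := by
      have h1 := stepV (-(P.B : ℤ)) (Finset.mem_Icc.2 ⟨le_rfl, by omega⟩)
      have h2 : Finset.univ.filter (fun i => -(P.B : ℤ) ≤ b i) = Finset.univ :=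
        Finset.filter_true_of_mem fun i _ => (bb i).1
      rw [h2] at h1
      simpa using h1
    have hC' : -((n : ℚ) * B) ≤ ((∑ i, c i : ℤ) : ℚ) := by
      have h1 : ∑ i : Fin n, (-(B : ℤ)) ≤ ∑ i, c i := Finset.sum_le_sum fun i _ => (bc i).1
      rw [Finset.sum_const, Finset.card_univ, Fintype.card_fin, nsmul_eq_mul] at h1
      have h2 : (((n : ℤ) * (-(B : ℤ)) : ℤ) : ℚ) ≤ ((∑ i, c i : ℤ) : ℚ) := by exact_mod_cast h1
      push_cast at h2 ⊢
      linarith
    have hD' : -((N : ℚ) * B) ≤ ((∑ i, d i : ℤ) : ℚ) := by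
      have h1 : ∑ i : Fin N, (-(B : ℤ)) ≤ ∑ i, d i := Finset.sum_le_sum fun i _ => (bd i).1
      rw [Finset.sum_const, Finset.card_univ, Fintype.card_fin, nsmul_eq_mul] at h1
      have h2 : (((N : ℤ) * (-(B : ℤ)) : ℤ) : ℚ) ≤ ((∑ i, d i : ℤ) : ℚ) := by exact_mod_cast h1
      push_cast at h2 ⊢
      linarith
    have m3' := m3 i0
    have m4' := m4 j0
    have hexp := expand a b c d
    have hE : ∑ i, ∑ j, (c i + d j) ^ 2 ≤ 4 * ((n : ℤ) * N * (B : ℤ) ^ 2) := by
      have h1 : ∀ i j, (c i + d j) ^ 2 ≤ 4 * (B : ℤ) ^ 2 := by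
        intro i j
        have h2 := bc i
        have h3 := bd j
        nlinarith [abs_le.2 (⟨by linarith, by linarith⟩ :
          -(2 * (B : ℤ)) ≤ c i + d j ∧ c i + d j ≤ 2 * B)]
      calc ∑ i, ∑ j, (c i + d j) ^ 2 ≤ ∑ i : Fin n, ∑ j : Fin N, 4 * (B : ℤ) ^ 2 :=
            Finset.sum_le_sum fun i _ => Finset.sum_le_sum fun j _ => h1 i j
        _ = 4 * ((n : ℤ) * N * (B : ℤ) ^ 2) := by
            simp only [Finset.sum_const, Finset.card_univ, Fintype.card_fin, nsmul_eq_mul]
            ring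
    refine hm _ ?_
    rw [hexp] at m1'
    have m1q : 2 * (m : ℚ) * (deg (2 * B) (conv β (MX t) (MV t)) S' : ℚ) ≤
        2 * ((N : ℚ) * ((∑ i, a i * c i : ℤ) : ℚ) +
        ((∑ i, a i : ℤ) : ℚ) * ((∑ j, d j : ℤ) : ℚ) + ((∑ j, b j : ℤ) : ℚ) * ((∑ i, c i : ℤ) : ℚ) +
        n * ((∑ j, b j * d j : ℤ) : ℚ)) + 4 * ((n : ℚ) * N * (B : ℚ) ^ 2) := by
      have := m1'.trans (add_le_add_right hE _)
      exact_mod_cast this
    have m2q : |2 * ((N : ℚ) * ((∑ i, a i : ℤ) : ℚ) + n * ((∑ j, b j : ℤ) : ℚ)) -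
        2 * m * (finrank K S' : ℚ)| ≤ n * N := by
      exact_mod_cast m2
    have m3q : -(N : ℚ) ≤ 2 * ((N : ℚ) * (a i0 : ℚ) + ((∑ j, b j : ℤ) : ℚ)) := by
      exact_mod_cast m3'
    have m4q : -(n : ℚ) ≤ 2 * ((n : ℚ) * (b j0 : ℚ) + ((∑ j, a j : ℤ) : ℚ)) := by
      exact_mod_cast m4'
    have := fin μ σ n N B m _ _ _ _ _ _ _ _ (finrank K S') _ _ (by positivity) (by positivity) hU hW hC
      hD hC' hD' m3q m4q m2q m1q
    linarith

end Pool.Agent.Lib.MP_c37a72_al.NI
end

section
/-!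
# MP_c37a72_al, block NI, module TMX: subspaces of maximal slope of the tensor product
-/
set_option autoImplicit false

open Module

namespace Pool.Agent.Lib.MP_c37a72_al.NI

universe v w

namespace TMXM

section Lin

variable {D : Type v} {V : Type v} [DivisionRing D] [AddCommGroup V] [Module D V]
  [Module.Finite D V]

theorem dimq (W V1 : Submodule D V) :
    finrank D (W.map V1.mkQ) + finrank D ↥(W ⊓ V1) = finrank D W := by
  have h := LinearMap.finrank_range_add_finrank_ker (V1.mkQ.domRestrict W)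
  rw [LinearMap.range_domRestrict, LinearMap.ker_domRestrict, Submodule.ker_mkQ] at h
  rw [← h, ← Submodule.map_comap_subtype, Submodule.finrank_map_subtype_eq]

theorem gap (hFDB : SpecFDB.{v}) {𝒯 : Type w} {l : Filter 𝒯} {B : ℕ}
    {M : 𝒯 → ℤ → Submodule D V} (hM : ∀ t, IsFil B (M t)) {μ : ℚ} {V1 : Submodule D V}
    (h : IsMx l B M μ V1) (W : Submodule D (V ⧸ V1)) :
    ∀ᶠ t in l, (deg B (fun a => (M t a).map V1.mkQ) W : ℚ) ≤
      (μ - 1 / (μ.den * (finrank D V + 1))) * finrank D W := by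
  by_cases hW : W = ⊥
  · subst hW
    refine Filter.Eventually.of_forall fun t => ?_
    have h1 := ((hFDB D V B (M t) (hM t)).2.1 V1).1
    have h2 := (hFDB D (V ⧸ V1) B _ h1).2.2.2.2
    rw [h2, finrank_bot]
    simp
  · set W' : Submodule D V := W.comap V1.mkQ with hW'
    have e1 : W'.map V1.mkQ = W := Submodule.map_comap_eq_of_surjective V1.mkQ_surjective W
    have e2 : V1 ≤ W' := by
      intro x hx
      show V1.mkQ x ∈ W
      rw [Submodule.mkQ_apply, (Submodule.Quotient.mk_eq_zero V1).2 hx]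
      exact W.zero_mem
    have e3 : ¬ W' ≤ V1 := by
      intro h3
      apply hW
      rw [← e1, eq_bot_iff]
      refine (Submodule.map_mono h3).trans ?_
      rintro _ ⟨x, hx, rfl⟩
      rw [Submodule.mem_bot, Submodule.mkQ_apply, (Submodule.Quotient.mk_eq_zero V1).2 hx]
    have e4 := dimq W' V1
    rw [e1, inf_eq_right.2 e2] at e4
    filter_upwards [h.eq, h.lt W' e3] with t h1 h2
    have h3 := (((hFDB D V B (M t) (hM t)).2.1 V1).2 W').2 e2
    rw [e1] at h3
    set dW := deg B (fun a => (M t a).map V1.mkQ) W with hdW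
    have h4 : (dW : ℚ) < μ * finrank D W := by
      rw [h3, ← e4] at h2
      push_cast at h2
      rw [h1] at h2
      linarith
    have hq : (0 : ℚ) < μ.den := by exact_mod_cast μ.den_pos
    have hμ : μ * μ.den = μ.num := Rat.mul_den_eq_num μ
    have h5 : dW * μ.den + 1 ≤ μ.num * finrank D W := by
      have h6 : (dW : ℚ) * μ.den < μ.num * finrank D W := by
        rw [← hμ]
        nlinarith
      have h7 : dW * μ.den < μ.num * finrank D W := by exact_mod_cast h6
      omega
    have h8 : (dW : ℚ) * μ.den + 1 ≤ μ * μ.den * finrank D W := by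
      rw [hμ]
      exact_mod_cast h5
    have h9 : finrank D W ≤ finrank D V := by
      have := Submodule.finrank_le W'
      omega
    have h10 : (finrank D W : ℚ) ≤ finrank D V := by exact_mod_cast h9
    have h11 : (0 : ℚ) ≤ finrank D V := by positivity
    have h12 : (finrank D W : ℚ) / (finrank D V + 1) ≤ 1 := by
      rw [div_le_one (by linarith)]
      linarith
    have h13 : (μ - 1 / (μ.den * (finrank D V + 1))) * finrank D W =
        μ * finrank D W - ((finrank D W : ℚ) / (finrank D V + 1)) / μ.den := by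
      field_simp
    rw [h13]
    have h14 : (dW : ℚ) ≤ μ * finrank D W - 1 / μ.den := by
      rw [le_sub_iff_add_le, ← mul_le_mul_iff_left₀ hq, add_mul, one_div,
        inv_mul_cancel₀ hq.ne']
      linarith
    have h15 : ((finrank D W : ℚ) / (finrank D V + 1)) / μ.den ≤ 1 / μ.den :=
      div_le_div_of_nonneg_right h12 hq.le
    linarith

theorem step (hFDB : SpecFDB.{v}) {𝒯 : Type w} {l : Filter 𝒯} [l.NeBot] {B : ℕ}
    {F : 𝒯 → ℤ → Submodule D V} (hF : ∀ t, IsFil B (F t)) {c c' : ℚ} (hc : c' < c)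
    (T1 S' : Submodule D V)
    (h1 : ∀ᶠ t in l, (deg B (F t) (S' ⊓ T1) : ℚ) ≤ c * finrank D ↥(S' ⊓ T1))
    (h2 : ∀ᶠ t in l, (deg B (fun a => (F t a).map T1.mkQ) (S'.map T1.mkQ) : ℚ) ≤
      c' * finrank D (S'.map T1.mkQ))
    (h3 : ∀ᶠ t in l, c * finrank D S' ≤ (deg B (F t) S' : ℚ)) : S' ≤ T1 := by
  obtain ⟨t, h1, h2, h3⟩ := (h1.and (h2.and h3)).exists
  have h4 := (((hFDB D V B (F t) (hF t)).2.1 T1).2 S').1
  have h4' : (deg B (F t) S' : ℚ) ≤ deg B (F t) (S' ⊓ T1) +
      deg B (fun a => (F t a).map T1.mkQ) (S'.map T1.mkQ) := by exact_mod_cast h4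
  have h5 : (finrank D S' : ℚ) = finrank D (S'.map T1.mkQ) + finrank D ↥(S' ⊓ T1) := by
    rw [← dimq S' T1]
    push_cast
    ring
  rw [h5] at h3
  have h6 : (c - c') * finrank D (S'.map T1.mkQ) ≤ 0 := by linarith
  have h7 : (0 : ℚ) ≤ finrank D (S'.map T1.mkQ) := by positivity
  have h8 : (finrank D (S'.map T1.mkQ) : ℚ) = 0 := by
    by_contra h9
    have h10 : (0 : ℚ) < finrank D (S'.map T1.mkQ) := lt_of_le_of_ne h7 (Ne.symm h9)
    have h11 := mul_pos (sub_pos.2 hc) h10
    linarith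
  have h9 : finrank D (S'.map T1.mkQ) = 0 := by exact_mod_cast h8
  have h10 : S'.map T1.mkQ = ⊥ := Submodule.finrank_eq_zero.1 h9
  intro x hx
  have h11 : T1.mkQ x ∈ S'.map T1.mkQ := ⟨x, hx, rfl⟩
  rw [h10, Submodule.mem_bot, Submodule.mkQ_apply, Submodule.Quotient.mk_eq_zero] at h11
  exact h11

end Lin

section Ten

variable {Q : Type v} {K X V S : Type v} [DivisionRing Q] [Field K] [AddCommGroup X]
  [Module Qᵐᵒᵖ X] [AddCommGroup V] [Module K V] [AddCommGroup S] [Module K S]

theorem map_tns {X' V' S' : Type v} [AddCommGroup X'] [Module Qᵐᵒᵖ X'] [AddCommGroup V']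
    [Module K V'] [AddCommGroup S'] [Module K S'] (β : X →+ V →ₗ[K] S) (β' : X' →+ V' →ₗ[K] S')
    (f : X →ₗ[Qᵐᵒᵖ] X') (g : V →ₗ[K] V') (h : S →ₗ[K] S')
    (hh : ∀ x v, h (β x v) = β' (f x) (g v)) (A : Submodule Qᵐᵒᵖ X) (C : Submodule K V) :
    (tns β A C).map h = tns β' (A.map f) (C.map g) := by
  unfold tns
  rw [Submodule.map_span]
  congr 1
  ext s
  constructor
  · rintro ⟨_, ⟨x, hx, v, hv, rfl⟩, rfl⟩
    exact ⟨f x, ⟨x, hx, rfl⟩, g v, ⟨v, hv, rfl⟩, hh x v⟩
  · rintro ⟨_, ⟨x, hx, rfl⟩, _, ⟨v, hv, rfl⟩, rfl⟩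
    exact ⟨β x v, ⟨x, hx, v, hv, rfl⟩, hh x v⟩

theorem map_conv {X' V' S' : Type v} [AddCommGroup X'] [Module Qᵐᵒᵖ X'] [AddCommGroup V']
    [Module K V'] [AddCommGroup S'] [Module K S'] (β : X →+ V →ₗ[K] S) (β' : X' →+ V' →ₗ[K] S')
    (f : X →ₗ[Qᵐᵒᵖ] X') (g : V →ₗ[K] V') (h : S →ₗ[K] S')
    (hh : ∀ x v, h (β x v) = β' (f x) (g v)) (F : ℤ → Submodule Qᵐᵒᵖ X) (G : ℤ → Submodule K V)
    (c : ℤ) : (conv β F G c).map h = conv β' (fun a => (F a).map f) (fun a => (G a).map g) c := by
  unfold conv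
  rw [Submodule.map_iSup]
  exact iSup_congr fun a => map_tns β β' f g h hh _ _

/-- `S` has dimension `dim X · dim V`. -/
theorem dimS (hTPB : SpecTPB.{v}) [Module.Finite Qᵐᵒᵖ X] [Module.Finite K V]
    {L : Q →+* Module.End K V} {β : X →+ V →ₗ[K] S} (hβ : IsBal L β) :
    finrank K S = finrank Qᵐᵒᵖ X * finrank K V := by
  obtain ⟨z, -, -⟩ := (hTPB Q K X V S L β hβ).2.1 _ _ (finBasis Qᵐᵒᵖ X) (finBasis K V)
  rw [finrank_eq_card_basis z]
  simp

/-- The linear map `(v_i) ↦ ∑ β (b i) (v i)`. -/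
def sumB (β : X →+ V →ₗ[K] S) {n : ℕ} (b : Fin n → X) : (Fin n → V) →ₗ[K] S where
  toFun v := ∑ i, β (b i) (v i)
  map_add' v w := by simp [Finset.sum_add_distrib]
  map_smul' c v := by simp [Finset.smul_sum]

theorem quotX (hTPB : SpecTPB.{v}) [Module.Finite Qᵐᵒᵖ X] [Module.Finite K V]
    {L : Q →+* Module.End K V} {β : X →+ V →ₗ[K] S} (hβ : IsBal L β) (X1 : Submodule Qᵐᵒᵖ X) :
    ∃ β' : (X ⧸ X1) →+ V →ₗ[K] (S ⧸ tns β X1 ⊤), IsBal L β' ∧
      ∀ x v, β' (X1.mkQ x) v = (tns β X1 ⊤).mkQ (β x v) := by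
  obtain ⟨hfin, -, -, hdim, -⟩ := hTPB Q K X V S L β hβ
  have := hfin
  set T := tns β X1 ⊤ with hT
  -- the lift
  let β0 : X →+ V →ₗ[K] (S ⧸ T) :=
    { toFun := fun x => T.mkQ ∘ₗ β x
      map_zero' := by rw [map_zero, LinearMap.comp_zero]
      map_add' := fun x y => by rw [map_add, LinearMap.comp_add] }
  have hker : ∀ x ∈ X1, β0 x = 0 := by
    intro x hx
    refine LinearMap.ext fun v => ?_
    show T.mkQ (β x v) = 0
    rw [Submodule.mkQ_apply, Submodule.Quotient.mk_eq_zero]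
    exact Submodule.subset_span ⟨x, hx, v, Submodule.mem_top, rfl⟩
  let β' : (X ⧸ X1) →+ V →ₗ[K] (S ⧸ T) :=
    (QuotientAddGroup.lift X1.toAddSubgroup β0 (fun x hx => hker x hx) :
      (X ⧸ X1.toAddSubgroup) →+ V →ₗ[K] (S ⧸ T))
  have hβ' : ∀ x v, β' (X1.mkQ x) v = T.mkQ (β x v) := fun x v => rfl
  refine ⟨β', ⟨?_, ?_⟩, hβ'⟩
  · intro x q v
    obtain ⟨x, rfl⟩ := X1.mkQ_surjective x
    rw [← map_smul, hβ', hβ', hβ.bal]
  · intro n b
    have hn : n = finrank Qᵐᵒᵖ (X ⧸ X1) := by
      rw [finrank_eq_card_basis b, Fintype.card_fin]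
    have hd1 : finrank K (S ⧸ T) + finrank K T = finrank K S :=
      Submodule.finrank_quotient_add_finrank T
    have hd2 : finrank Qᵐᵒᵖ (X ⧸ X1) + finrank Qᵐᵒᵖ X1 = finrank Qᵐᵒᵖ X :=
      Submodule.finrank_quotient_add_finrank X1
    have hd3 : finrank K T = finrank Qᵐᵒᵖ X1 * finrank K V := by
      rw [hT, hdim X1 ⊤ (fun q v _ => Submodule.mem_top), finrank_top]
    have hd4 := dimS hTPB hβ
    have hd5 : finrank K (Fin n → V) = finrank K (S ⧸ T) := by
      rw [finrank_pi_fintype, Finset.sum_const, Finset.card_univ, Fintype.card_fin, smul_eq_mul]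
      have : n * finrank K V + finrank Qᵐᵒᵖ X1 * finrank K V = finrank K S := by
        rw [hd4, ← hd2, hn, add_mul]
      omega
    have hsurj : Function.Surjective (sumB β' (fun i => b i)) := by
      intro s
      obtain ⟨s, rfl⟩ := T.mkQ_surjective s
      obtain ⟨w, hw⟩ := (hβ.bij _ (finBasis Qᵐᵒᵖ X)).2 s
      have hx : ∀ (x : X ⧸ X1) (v : V), β' x v ∈ LinearMap.range (sumB β' (fun i => b i)) := by
        intro x v
        rw [← b.sum_repr x, map_sum, LinearMap.sum_apply]
        refine Submodule.sum_mem _ fun i _ => ?_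
        refine ⟨Pi.single i (L (MulOpposite.unop (b.repr x i)) v), ?_⟩
        show ∑ j, β' (b j) (Pi.single (M := fun _ => V) i
          (L (MulOpposite.unop (b.repr x i)) v) j) = _
        rw [Finset.sum_eq_single i]
        · rw [Pi.single_eq_same]
          obtain ⟨y, hy⟩ := X1.mkQ_surjective (b i)
          rw [← hy, ← map_smul, hβ', hβ', ← hβ.bal, MulOpposite.op_unop]
        · intro j _ hj
          rw [Pi.single_eq_of_ne hj, map_zero]
        · intro h
          exact absurd (Finset.mem_univ i) h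
      have hs : T.mkQ s ∈ LinearMap.range (sumB β' (fun i => b i)) := by
        rw [← hw]
        show T.mkQ (∑ i, β (finBasis Qᵐᵒᵖ X i) (w i)) ∈ _
        rw [map_sum]
        refine Submodule.sum_mem _ fun i _ => ?_
        rw [← hβ']
        exact hx _ _
      exact hs
    exact ⟨(LinearMap.injective_iff_surjective_of_finrank_eq_finrank hd5).2 hsurj, hsurj⟩

theorem quotV (hTPB : SpecTPB.{v}) [Module.Finite Qᵐᵒᵖ X] [Module.Finite K V]
    {L : Q →+* Module.End K V} {β : X →+ V →ₗ[K] S} (hβ : IsBal L β) (Y1 : Submodule K V)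
    (hY : LSt L Y1) :
    ∃ (L' : Q →+* Module.End K (V ⧸ Y1)) (β' : X →+ (V ⧸ Y1) →ₗ[K] (S ⧸ tns β (⊤ : Submodule Qᵐᵒᵖ X) Y1)),
      IsBal L' β' ∧ (∀ q v, L' q (Y1.mkQ v) = Y1.mkQ (L q v)) ∧
      ∀ x v, β' x (Y1.mkQ v) = (tns β (⊤ : Submodule Qᵐᵒᵖ X) Y1).mkQ (β x v) := by
  obtain ⟨hfin, -, -, hdim, -⟩ := hTPB Q K X V S L β hβ
  have := hfin
  set T := tns β (⊤ : Submodule Qᵐᵒᵖ X) Y1 with hT
  let L' : Q →+* Module.End K (V ⧸ Y1) :=
    { toFun := fun q => Y1.mapQ Y1 (L q) (fun v hv => hY q v hv)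
      map_one' := by
        refine Submodule.linearMap_qext _ (LinearMap.ext fun v => ?_)
        simp
      map_mul' := fun a b => by
        refine Submodule.linearMap_qext _ (LinearMap.ext fun v => ?_)
        simp
      map_zero' := by
        refine Submodule.linearMap_qext _ (LinearMap.ext fun v => ?_)
        simp
      map_add' := fun a b => by
        refine Submodule.linearMap_qext _ (LinearMap.ext fun v => ?_)
        simp }
  have hL' : ∀ q v, L' q (Y1.mkQ v) = Y1.mkQ (L q v) := fun q v => rfl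
  have hk : ∀ x, Y1 ≤ T.comap (β x) := fun x v hv =>
    Submodule.subset_span ⟨x, Submodule.mem_top, v, hv, rfl⟩
  let β' : X →+ (V ⧸ Y1) →ₗ[K] (S ⧸ T) :=
    { toFun := fun x => Y1.mapQ T (β x) (hk x)
      map_zero' := by
        refine Submodule.linearMap_qext _ (LinearMap.ext fun v => ?_)
        simp
      map_add' := fun x y => by
        refine Submodule.linearMap_qext _ (LinearMap.ext fun v => ?_)
        simp }
  have hβ' : ∀ x v, β' x (Y1.mkQ v) = T.mkQ (β x v) := fun x v => rfl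
  refine ⟨L', β', ⟨?_, ?_⟩, hL', hβ'⟩
  · intro x q v
    obtain ⟨v, rfl⟩ := Y1.mkQ_surjective v
    rw [hL', hβ', hβ', hβ.bal]
  · intro n b
    have hn : n = finrank Qᵐᵒᵖ X := by
      rw [finrank_eq_card_basis b, Fintype.card_fin]
    have hd1 : finrank K (S ⧸ T) + finrank K T = finrank K S :=
      Submodule.finrank_quotient_add_finrank T
    have hd2 : finrank K (V ⧸ Y1) + finrank K Y1 = finrank K V :=
      Submodule.finrank_quotient_add_finrank Y1
    have hd3 : finrank K T = finrank Qᵐᵒᵖ X * finrank K Y1 := by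
      rw [hT, hdim ⊤ Y1 hY, finrank_top]
    have hd4 := dimS hTPB hβ
    have hd5 : finrank K (Fin n → V ⧸ Y1) = finrank K (S ⧸ T) := by
      rw [finrank_pi_fintype, Finset.sum_const, Finset.card_univ, Fintype.card_fin, smul_eq_mul]
      have : n * finrank K (V ⧸ Y1) + finrank Qᵐᵒᵖ X * finrank K Y1 = finrank K S := by
        rw [hd4, ← hd2, hn, mul_add]
      omega
    have hsurj : Function.Surjective (sumB β' (fun i => b i)) := by
      intro s
      obtain ⟨s, rfl⟩ := T.mkQ_surjective s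
      obtain ⟨w, hw⟩ := (hβ.bij _ b).2 s
      refine ⟨fun i => Y1.mkQ (w i), ?_⟩
      rw [← hw]
      show ∑ i, β' (b i) (Y1.mkQ (w i)) = T.mkQ (∑ i, β (b i) (w i))
      rw [map_sum]
      exact Finset.sum_congr rfl fun i _ => hβ' _ _
    exact ⟨(LinearMap.injective_iff_surjective_of_finrank_eq_finrank hd5).2 hsurj, hsurj⟩

end Ten

end TMXM

open TMXM

theorem specTMX (hFDB : SpecFDB.{v}) (hTPB : SpecTPB.{v}) (hTEN : SpecTEN.{v, w}) :
    SpecTMX.{v, w} := by
  intro Q K X V S _ _ _ _ _ _ _ _ _ _ L β hβ 𝒯 l B MX MV μ σ X1 Y1 hX hV hst hY hMX hMV S'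
  obtain ⟨hfin, -, hfil, -, hinf⟩ := hTPB Q K X V S L β hβ
  have := hfin
  have h1 : ∀ S' : Submodule K S, ∀ᶠ t in (l : Filter 𝒯),
      (deg (2 * B) (conv β (MX t) (MV t)) S' : ℚ) ≤ (μ + σ) * finrank K S' := fun S' =>
    hTEN Q K X V S L β hβ 𝒯 l B MX MV μ σ hX hV hst hMX.le (fun W _ => hMV.le W) S'
  refine ⟨h1 S', fun h2 => ?_⟩
  have hF : ∀ t, IsFil (2 * B) (conv β (MX t) (MV t)) := by
    intro t
    rw [two_mul]
    exact hfil B B _ _ (hX t) (hV t) (hst t)
  rw [← hinf X1 Y1 hY]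
  refine le_inf ?_ ?_
  · obtain ⟨β', hβ', hc⟩ := quotX hTPB hβ X1
    have hpos : (0 : ℚ) < 1 / (μ.den * (finrank Qᵐᵒᵖ X + 1)) := by
      have : (0 : ℚ) < μ.den := by exact_mod_cast μ.den_pos
      positivity
    refine step hFDB hF (c := μ + σ) (c' := (μ - 1 / (μ.den * (finrank Qᵐᵒᵖ X + 1))) + σ)
      (by linarith) _ S' (h1 _) ?_ h2
    have h3 := hTEN Q K (X ⧸ X1) V (S ⧸ tns β X1 ⊤) L β' hβ' 𝒯 l B
      (fun t a => (MX t a).map X1.mkQ) MV _ σ
      (fun t => ((hFDB Qᵐᵒᵖ X B (MX t) (hX t)).2.1 X1).1) hV hst (gap hFDB hX hMX)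
      (fun W _ => hMV.le W) (S'.map (tns β X1 ⊤).mkQ)
    filter_upwards [h3] with t ht
    have e : (fun a => (conv β (MX t) (MV t) a).map (tns β X1 ⊤).mkQ) =
        conv β' (fun a => (MX t a).map X1.mkQ) (MV t) := by
      funext c
      rw [map_conv β β' X1.mkQ LinearMap.id (tns β X1 ⊤).mkQ (fun x v => (hc x v).symm)]
      simp only [Submodule.map_id]
    rw [e]
    exact ht
  · obtain ⟨L', β', hβ', hL', hc⟩ := quotV hTPB hβ Y1 hY
    have hpos : (0 : ℚ) < 1 / (σ.den * (finrank K V + 1)) := by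
      have : (0 : ℚ) < σ.den := by exact_mod_cast σ.den_pos
      positivity
    refine step hFDB hF (c := μ + σ) (c' := μ + (σ - 1 / (σ.den * (finrank K V + 1))))
      (by linarith) _ S' (h1 _) ?_ h2
    have h3 := hTEN Q K X (V ⧸ Y1) (S ⧸ tns β (⊤ : Submodule Qᵐᵒᵖ X) Y1) L' β' hβ' 𝒯 l B MX
      (fun t a => (MV t a).map Y1.mkQ) μ _
      hX (fun t => ((hFDB K V B (MV t) (hV t)).2.1 Y1).1)
      (by
        rintro t a q _ ⟨v, hv, rfl⟩
        rw [hL']
        exact ⟨_, hst t a q v hv, rfl⟩)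
      hMX.le (fun W _ => gap hFDB hV hMV W) (S'.map (tns β (⊤ : Submodule Qᵐᵒᵖ X) Y1).mkQ)
    filter_upwards [h3] with t ht
    have e : (fun a => (conv β (MX t) (MV t) a).map (tns β (⊤ : Submodule Qᵐᵒᵖ X) Y1).mkQ) =
        conv β' (MX t) (fun a => (MV t a).map Y1.mkQ) := by
      funext c
      rw [map_conv β β' LinearMap.id Y1.mkQ (tns β (⊤ : Submodule Qᵐᵒᵖ X) Y1).mkQ (fun x v => (hc x v).symm)]
      simp only [Submodule.map_id]
    rw [e]
    exact ht

end Pool.Agent.Lib.MP_c37a72_al.NI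
end

section
set_option autoImplicit false

open Module

namespace Pool.Agent.Lib.MP_c37a72_al.NI

universe u v w

namespace TPBM

section lin

variable {D : Type v} {V : Type v} [DivisionRing D] [AddCommGroup V] [Module D V]

/-- dimension of the span of an independent family restricted to a finset -/
lemma fr {ι : Type} {x : ι → V} (hx : LinearIndependent D x) (S : Finset ι) :
    finrank D (Submodule.span D (x '' (S : Set ι))) = S.card := by
  have h1 : LinearIndependent D (fun i : S => x i) := hx.comp _ Subtype.val_injective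
  have h2 : x '' (S : Set ι) = Set.range (fun i : S => x i) := by
    ext v
    simp
  rw [h2, finrank_span_eq_card h1, Fintype.card_coe]

lemma inf_span {ι : Type} (b : Basis ι D V) (S T : Set ι) :
    Submodule.span D (b '' S) ⊓ Submodule.span D (b '' T) = Submodule.span D (b '' (S ∩ T)) := by
  ext m
  rw [Submodule.mem_inf, b.mem_span_image, b.mem_span_image, b.mem_span_image, Set.subset_inter_iff]

/-- the filtration `⊤ ⊇ W ⊇ ⊥` -/
def stp (W : Submodule D V) (a : ℤ) : Submodule D V := if a ≤ 0 then ⊤ else if a ≤ 1 then W else ⊥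

lemma stp_fil (W : Submodule D V) : IsFil 1 (stp W) where
  anti := by
    intro a c hac
    unfold stp
    by_cases h1 : a ≤ 0
    · rw [if_pos h1]
      exact le_top
    · rw [if_neg h1, if_neg (by omega)]
      by_cases h2 : c ≤ 1
      · rw [if_pos h2, if_pos (by omega)]
      · rw [if_neg h2]
        exact bot_le
  top := by
    intro a ha
    unfold stp
    push_cast at ha
    rw [if_pos (by omega)]
  bot := by
    intro a ha
    unfold stp
    push_cast at ha
    rw [if_neg (by omega), if_neg (by omega)]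

lemma adb (hADB : SpecADB.{v}) [Module.Finite D V] (W : Submodule D V) :
    ∃ (b : Basis (Fin (finrank D V)) D V) (I : Finset (Fin (finrank D V))),
      W = Submodule.span D (b '' (I : Set (Fin (finrank D V)))) := by
  obtain ⟨b, p, _, hp, _⟩ := hADB D V 1 (stp W) (stp W) (stp_fil W) (stp_fil W)
  refine ⟨b, Finset.univ.filter fun i => 1 ≤ p i, ?_⟩
  have h1 := hp 1
  have h2 : stp W 1 = W := by
    unfold stp
    rw [if_neg (by omega), if_pos le_rfl]
  rw [h2] at h1
  have h3 : ((Finset.univ.filter fun i => 1 ≤ p i : Finset (Fin (finrank D V))) :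
      Set (Fin (finrank D V))) = {i | 1 ≤ p i} := by
    ext i
    simp
  rw [h3]
  exact h1

end lin

section bal

variable {Q : Type v} {K X V S : Type v} [DivisionRing Q] [Field K] [AddCommGroup X]
  [Module Qᵐᵒᵖ X] [AddCommGroup V] [Module K V] [AddCommGroup S] [Module K S]
  {L : Q →+* Module.End K V} {β : X →+ V →ₗ[K] S}

/-- the linear isomorphism `V^n ≃ S` given by a basis of `X` -/
noncomputable def phi (hβ : IsBal L β) {n : ℕ} (x : Basis (Fin n) Qᵐᵒᵖ X) : (Fin n → V) ≃ₗ[K] S :=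
  LinearEquiv.ofBijective
    ({ toFun := fun v => ∑ i, β (x i) (v i)
       map_add' := fun v w => by simp [Finset.sum_add_distrib]
       map_smul' := fun c v => by simp [Finset.smul_sum] } : (Fin n → V) →ₗ[K] S) (hβ.bij n x)

lemma phi_apply (hβ : IsBal L β) {n : ℕ} (x : Basis (Fin n) Qᵐᵒᵖ X) (v : Fin n → V) :
    phi hβ x v = ∑ i, β (x i) (v i) := rfl

/-- the product basis -/
noncomputable def zb (hβ : IsBal L β) {n N : ℕ} (x : Basis (Fin n) Qᵐᵒᵖ X) (y : Basis (Fin N) K V) :
    Basis (Fin n × Fin N) K S :=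
  ((Pi.basis fun _ : Fin n => y).reindex (Equiv.sigmaEquivProd (Fin n) (Fin N))).map (phi hβ x)

lemma zb_apply (hβ : IsBal L β) {n N : ℕ} (x : Basis (Fin n) Qᵐᵒᵖ X) (y : Basis (Fin N) K V)
    (i : Fin n) (j : Fin N) : zb hβ x y (i, j) = β (x i) (y j) := by
  unfold zb
  rw [Basis.map_apply, Basis.reindex_apply, phi_apply]
  have h1 : (Equiv.sigmaEquivProd (Fin n) (Fin N)).symm (i, j) = ⟨i, j⟩ := rfl
  rw [h1, Pi.basis_apply]
  rw [Finset.sum_eq_single i]
  · simp
  · intro k _ hk
    rw [Pi.single_eq_of_ne hk, map_zero]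
  · intro h
    exact absurd (Finset.mem_univ i) h

lemma tns_eq (hβ : IsBal L β) {n N : ℕ} (x : Basis (Fin n) Qᵐᵒᵖ X) (y : Basis (Fin N) K V)
    (I : Set (Fin n)) (J : Set (Fin N)) (X' : Submodule Qᵐᵒᵖ X) (V' : Submodule K V)
    (hX : X' = Submodule.span Qᵐᵒᵖ (x '' I)) (hV : V' = Submodule.span K (y '' J)) (hs : LSt L V') :
    tns β X' V' = Submodule.span K (zb hβ x y '' (I ×ˢ J)) := by
  apply le_antisymm
  · unfold tns
    rw [Submodule.span_le]
    rintro _ ⟨a, ha, v, hv, rfl⟩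
    have key : ∀ a ∈ Submodule.span Qᵐᵒᵖ (x '' I), ∀ v ∈ V',
        β a v ∈ Submodule.span K (zb hβ x y '' (I ×ˢ J)) := by
      intro a ha
      induction ha using Submodule.span_induction with
      | mem a ha =>
        obtain ⟨i, hi, rfl⟩ := ha
        intro v hv
        rw [hV] at hv
        induction hv using Submodule.span_induction with
        | mem v hv =>
          obtain ⟨j, hj, rfl⟩ := hv
          rw [← zb_apply hβ x y]
          exact Submodule.subset_span ⟨(i, j), ⟨hi, hj⟩, rfl⟩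
        | zero => rw [map_zero]; exact Submodule.zero_mem _
        | add v w _ _ h1 h2 => rw [map_add]; exact Submodule.add_mem _ h1 h2
        | smul c v _ h1 => rw [map_smul]; exact Submodule.smul_mem _ _ h1
      | zero =>
        intro v hv
        rw [map_zero]
        exact Submodule.zero_mem _
      | add a c _ _ h1 h2 =>
        intro v hv
        rw [map_add]
        exact Submodule.add_mem _ (h1 v hv) (h2 v hv)
      | smul c a _ h1 =>
        intro v hv
        have h2 := hβ.bal a (MulOpposite.unop c) v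
        rw [MulOpposite.op_unop] at h2
        rw [h2]
        exact h1 _ (hs _ v hv)
    exact key a (hX ▸ ha) v hv
  · rw [Submodule.span_le]
    rintro _ ⟨⟨i, j⟩, ⟨hi, hj⟩, rfl⟩
    rw [zb_apply]
    refine Submodule.subset_span ⟨x i, ?_, y j, ?_, rfl⟩
    · rw [hX]
      exact Submodule.subset_span ⟨i, hi, rfl⟩
    · rw [hV]
      exact Submodule.subset_span ⟨j, hj, rfl⟩

lemma adapted (hβ : IsBal L β) {n N : ℕ} (x : Basis (Fin n) Qᵐᵒᵖ X) (y : Basis (Fin N) K V)
    (F : ℤ → Submodule Qᵐᵒᵖ X) (G : ℤ → Submodule K V) (p : Fin n → ℤ) (q : Fin N → ℤ)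
    (hs : ∀ a, LSt L (G a)) (hF : Adp F x p) (hG : Adp G y q) :
    Adp (conv β F G) (zb hβ x y) (fun ij => p ij.1 + q ij.2) := by
  intro c
  unfold conv
  have h1 : ∀ a : ℤ, tns β (F a) (G (c - a)) =
      Submodule.span K (zb hβ x y '' ({i | a ≤ p i} ×ˢ {j | c - a ≤ q j})) :=
    fun a => tns_eq hβ x y _ _ _ _ (hF a) (hG (c - a)) (hs _)
  simp only [h1]
  rw [← Submodule.span_iUnion, ← Set.image_iUnion]
  congr 2
  ext ⟨i, j⟩
  simp only [Set.mem_iUnion, Set.mem_prod]
  constructor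
  · rintro ⟨a, h2, h3⟩
    have h2' : a ≤ p i := h2
    have h3' : c - a ≤ q j := h3
    change c ≤ p i + q j
    omega
  · intro h
    have h' : c ≤ p i + q j := h
    refine ⟨p i, le_refl (p i), ?_⟩
    change c - p i ≤ q j
    omega

lemma lst_top : LSt L (⊤ : Submodule K V) := fun _ _ _ => Submodule.mem_top

end bal

end TPBM

open TPBM in
theorem specTPB (hADB : SpecADB.{v}) (hFDA : SpecFDA.{v}) : SpecTPB.{v} := by
  intro Q K X V S _ _ _ _ _ _ _ _ _ _ L β hβ
  refine ⟨?_, ?_, ?_, ?_, ?_⟩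
  · exact Module.Finite.equiv (phi hβ (Module.finBasis Qᵐᵒᵖ X))
  · intro n N x y
    exact ⟨zb hβ x y, zb_apply hβ x y, fun F G p q hs hF hG => adapted hβ x y F G p q hs hF hG⟩
  · intro B B' F G hF hG hs
    obtain ⟨x, p, _, hp, _⟩ := hADB Qᵐᵒᵖ X B F F hF hF
    obtain ⟨y, q, _, hq, _⟩ := hADB K V B' G G hG hG
    have h1 := adapted hβ x y F G p q hs hp hq
    have hp1 := ((hFDA Qᵐᵒᵖ X B F hF).1 _ x p hp).1
    have hq1 := ((hFDA K V B' G hG).1 _ y q hq).1
    refine ⟨?_, ?_, ?_⟩
    · intro a c hac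
      rw [h1 a, h1 c]
      apply Submodule.span_mono
      apply Set.image_mono
      intro i hi
      exact le_trans hac hi
    · intro a ha
      rw [h1 a]
      have h2 : {ij : Fin (finrank Qᵐᵒᵖ X) × Fin (finrank K V) | a ≤ p ij.1 + q ij.2} = Set.univ := by
        ext ⟨i, j⟩
        simp only [Set.mem_univ, iff_true]
        change a ≤ p i + q j
        have := hp1 i
        have := hq1 j
        push_cast at ha
        omega
      rw [h2, Set.image_univ, (zb hβ x y).span_eq]
    · intro a ha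
      rw [h1 a]
      have h2 : {ij : Fin (finrank Qᵐᵒᵖ X) × Fin (finrank K V) | a ≤ p ij.1 + q ij.2} = ∅ := by
        ext ⟨i, j⟩
        simp only [Set.mem_empty_iff_false, iff_false]
        change ¬ (a ≤ p i + q j)
        have := hp1 i
        have := hq1 j
        push_cast at ha
        omega
      rw [h2, Set.image_empty, Submodule.span_empty]
  · intro X' V' hs
    obtain ⟨x, I, hI⟩ := adb hADB X'
    obtain ⟨y, J, hJ⟩ := adb hADB V'
    rw [tns_eq hβ x y _ _ X' V' hI hJ hs]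
    have h1 := fr (zb hβ x y).linearIndependent (I ×ˢ J)
    rw [Finset.coe_product] at h1
    rw [h1, Finset.card_product]
    have h2 := fr x.linearIndependent I
    have h3 := fr y.linearIndependent J
    rw [← hI] at h2
    rw [← hJ] at h3
    rw [h2, h3]
  · intro X' V' hs
    obtain ⟨x, I, hI⟩ := adb hADB X'
    obtain ⟨y, J, hJ⟩ := adb hADB V'
    have hx : (⊤ : Submodule Qᵐᵒᵖ X) = Submodule.span Qᵐᵒᵖ (x '' Set.univ) := by
      rw [Set.image_univ, x.span_eq]
    have hy : (⊤ : Submodule K V) = Submodule.span K (y '' Set.univ) := by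
      rw [Set.image_univ, y.span_eq]
    rw [tns_eq hβ x y _ _ X' V' hI hJ hs, tns_eq hβ x y _ _ X' ⊤ hI hy lst_top,
      tns_eq hβ x y _ _ ⊤ V' hx hJ hs, inf_span]
    congr 2
    ext ⟨i, j⟩
    simp

end Pool.Agent.Lib.MP_c37a72_al.NI
end
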