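import Pool.Agent.Lib.MP_c37a72_al.NI.Spec

/-!
# MP_c37a72_al, block NI, module WED: products of right ideals of a simple algebra with a module
-/

set_option autoImplicit false

open Module

namespace Pool.Agent.Lib.MP_c37a72_al.NI

universe u v w

namespace WEDM

/-! ### Matrices -/

section Mat

variable {D : Type v} [DivisionRing D] {n : ℕ} [NeZero n]

/-- The matrix with the first column `x`. -/
def cm (x : Fin n → D) : Matrix (Fin n) (Fin n) D := Matrix.of fun i j => if j = 0 then x i else 0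

theorem cm_apply (x : Fin n → D) (i j : Fin n) : cm x i j = if j = 0 then x i else 0 := rfl

theorem cm_add (x y : Fin n → D) : cm (x + y) = cm x + cm y := by
  ext i j
  rw [Matrix.add_apply, cm_apply, cm_apply, cm_apply]
  by_cases h : j = 0
  · simp [h]
  · simp [h]

theorem cm_zero : cm (0 : Fin n → D) = 0 := by
  ext i j
  simp [cm_apply]

theorem cm_inj {x : Fin n → D} (h : cm x = 0) : x = 0 := by
  funext i
  have := congrFun (congrFun h i) 0
  simpa [cm_apply] using this

theorem cm_scalar (x : Fin n → D) (q : D) :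
    cm x * Matrix.scalar (Fin n) q = cm (MulOpposite.op q • x) := by
  ext i j
  rw [Matrix.scalar_apply, Matrix.mul_diagonal, cm_apply, cm_apply]
  by_cases h : j = 0
  · simp [h]
  · simp [h]

theorem mul_single_col (A : Matrix (Fin n) (Fin n) D) (j : Fin n) :
    A * Matrix.single j 0 1 = cm (fun i => A i j) := by
  ext a b
  rw [cm_apply]
  by_cases h : b = 0
  · subst h
    rw [Matrix.mul_single_apply_same, mul_one, if_pos rfl]
  · rw [if_neg h, Matrix.mul_single_apply_of_ne (hbj := h)]

omit [NeZero n] in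
theorem scalar_single (q : D) (i j : Fin n) :
    Matrix.scalar (Fin n) q * Matrix.single i j 1 = Matrix.single i j 1 * Matrix.scalar (Fin n) q := by
  ext a b
  rw [Matrix.scalar_apply, Matrix.mul_diagonal, Matrix.diagonal_mul, Matrix.single_apply]
  by_cases h : i = a ∧ j = b
  · simp [h]
  · simp [h]

omit [NeZero n] in
theorem sum_single : ∑ i : Fin n, (Matrix.single i i 1 : Matrix (Fin n) (Fin n) D) = 1 := by
  ext a b
  rw [Matrix.sum_apply, Matrix.one_apply]
  by_cases h : a = b
  · subst h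
    rw [if_pos rfl, Finset.sum_eq_single a]
    · simp
    · intro c _ hc
      rw [Matrix.single_apply, if_neg (fun h => hc h.1)]
    · intro h; exact absurd (Finset.mem_univ _) h
  · rw [if_neg h]
    apply Finset.sum_eq_zero
    intro c _
    rw [Matrix.single_apply, if_neg (fun h' => h (h'.1.symm.trans h'.2))]

end Mat

/-! ### The algebra -/

section Alg

variable {K M D : Type v} [Field K] [Ring M] [Algebra K M] {n : ℕ} [NeZero n]
  [DivisionRing D] [Algebra K D] (φ : Matrix (Fin n) (Fin n) D ≃ₐ[K] M)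

/-- The matrix units. -/
def U (i j : Fin n) : M := φ (Matrix.single i j 1)

/-- The elements of `M` given by a column. -/
def C (x : Fin n → D) : M := φ (cm x)

omit [NeZero n] in
theorem U_mul (i j k : Fin n) : U φ i j * U φ j k = U φ i k := by
  unfold U
  rw [← map_mul, Matrix.single_mul_single_same, mul_one]

omit [NeZero n] in
theorem U_mul_ne (i j k l : Fin n) (h : j ≠ k) : U φ i j * U φ k l = 0 := by
  unfold U
  rw [← map_mul, Matrix.single_mul_single_of_ne (h := h), map_zero]

omit [NeZero n] in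
theorem sum_U : ∑ i, U φ i i = 1 := by
  unfold U
  rw [← map_sum, sum_single, map_one]

theorem C_add (x y : Fin n → D) : C φ (x + y) = C φ x + C φ y := by
  unfold C
  rw [cm_add, map_add]

theorem C_zero : C φ (0 : Fin n → D) = 0 := by
  unfold C
  rw [cm_zero, map_zero]

theorem C_inj {x : Fin n → D} (h : C φ x = 0) : x = 0 := by
  apply cm_inj
  apply φ.injective
  rw [map_zero]
  exact h

theorem C_scalar (x : Fin n → D) (q : D) :
    C φ x * φ (Matrix.scalar (Fin n) q) = C φ (MulOpposite.op q • x) := by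
  unfold C
  rw [← map_mul, cm_scalar]

theorem mul_U (y : M) (j : Fin n) : y * U φ j 0 = C φ (fun i => φ.symm y i j) := by
  unfold C U
  rw [← mul_single_col, map_mul, AlgEquiv.apply_symm_apply]

theorem C_U (x : Fin n → D) : C φ x * U φ 0 0 = C φ x := by
  rw [mul_U]
  congr 1
  funext i
  unfold C
  rw [AlgEquiv.symm_apply_apply, cm_apply, if_pos rfl]

omit [NeZero n] in
theorem scalar_U (q : D) (i j : Fin n) :
    φ (Matrix.scalar (Fin n) q) * U φ i j = U φ i j * φ (Matrix.scalar (Fin n) q) := by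
  unfold U
  rw [← map_mul, ← map_mul, scalar_single]

theorem C_alg (x : Fin n → D) (k : K) : C φ (k • x) = k • C φ x := by
  unfold C
  rw [← map_smul]
  congr 1
  ext i j
  rw [Matrix.smul_apply, cm_apply, cm_apply]
  by_cases h : j = 0
  · simp [h]
  · simp [h]

theorem C_single (i : Fin n) : C φ (Pi.single i (1 : D)) = U φ i 0 := by
  unfold C U
  congr 1
  ext a b
  rw [cm_apply, Matrix.single_apply]
  by_cases h : b = 0
  · subst h
    by_cases h' : a = i
    · subst h'; simp
    · rw [if_pos rfl, Pi.single_eq_of_ne h', if_neg (fun h => h' h.1.symm)]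
  · rw [if_neg h, if_neg (fun h' => h h'.2.symm)]

/-- The right `D`-subspace of the columns in a right ideal. -/
def cp (Y : Submodule K M) (hY : ∀ y ∈ Y, ∀ m : M, y * m ∈ Y) : Submodule Dᵐᵒᵖ (Fin n → D) where
  carrier := {x | C φ x ∈ Y}
  add_mem' := fun {x y} hx hy => by
    change C φ (x + y) ∈ Y
    rw [C_add]
    exact Y.add_mem hx hy
  zero_mem' := by
    change C φ 0 ∈ Y
    rw [C_zero]
    exact Y.zero_mem
  smul_mem' := fun q x hx => by
    change C φ (q • x) ∈ Y
    have : q = MulOpposite.op (MulOpposite.unop q) := rfl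
    rw [this, ← C_scalar]
    exact hY _ hx _

theorem mem_cp {Y : Submodule K M} {hY : ∀ y ∈ Y, ∀ m : M, y * m ∈ Y} {x : Fin n → D} :
    x ∈ cp φ Y hY ↔ C φ x ∈ Y := Iff.rfl

/-- The map from tuples of columns to the right ideal. -/
def tup (Y : Submodule K M) (hY : ∀ y ∈ Y, ∀ m : M, y * m ∈ Y) :
    (Fin n → cp φ Y hY) →ₗ[K] Y where
  toFun w := ⟨∑ j, C φ (w j : Fin n → D) * U φ 0 j, Y.sum_mem fun j _ => hY _ (w j).2 _⟩
  map_add' w w' := by
    apply Subtype.ext
    simp only [Pi.add_apply, Submodule.coe_add, C_add, add_mul, Finset.sum_add_distrib]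
  map_smul' k w := by
    apply Subtype.ext
    simp only [Pi.smul_apply, RingHom.id_apply, Submodule.coe_smul, Finset.smul_sum]
    refine Finset.sum_congr rfl fun j _ => ?_
    rw [← smul_mul_assoc, ← C_alg]
    rfl

theorem tup_bij (Y : Submodule K M) (hY : ∀ y ∈ Y, ∀ m : M, y * m ∈ Y) :
    Function.Bijective (tup φ Y hY) := by
  constructor
  · rw [injective_iff_map_eq_zero]
    intro w hw
    funext k
    have h1 : ∑ j, C φ (w j : Fin n → D) * U φ 0 j = 0 := congrArg Subtype.val hw
    have h2 : (∑ j, C φ (w j : Fin n → D) * U φ 0 j) * U φ k 0 = C φ (w k : Fin n → D) := by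
      rw [Finset.sum_mul, Finset.sum_eq_single k]
      · rw [mul_assoc, U_mul, C_U]
      · intro j _ hj
        rw [mul_assoc, U_mul_ne φ _ _ _ _ hj, mul_zero]
      · intro h; exact absurd (Finset.mem_univ _) h
    rw [h1, zero_mul] at h2
    exact Subtype.ext (C_inj φ h2.symm)
  · intro y
    have hm : ∀ j, (fun i => φ.symm (y : M) i j) ∈ cp φ Y hY := by
      intro j
      rw [mem_cp, ← mul_U]
      exact hY _ y.2 _
    refine ⟨fun j => ⟨_, hm j⟩, ?_⟩
    apply Subtype.ext
    change ∑ j, C φ (fun i => φ.symm (y : M) i j) * U φ 0 j = y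
    have : ∀ j, C φ (fun i => φ.symm (y : M) i j) * U φ 0 j = (y : M) * U φ j j := by
      intro j
      rw [← mul_U, mul_assoc, U_mul]
    simp only [this]
    rw [← Finset.mul_sum, sum_U, mul_one]

theorem finrank_cp [Module.Finite K D] [Module.Finite K M] (Y : Submodule K M)
    (hY : ∀ y ∈ Y, ∀ m : M, y * m ∈ Y) :
    finrank K Y = n * (finrank K Dᵐᵒᵖ * finrank Dᵐᵒᵖ (cp φ Y hY)) := by
  have e := LinearEquiv.ofBijective (tup φ Y hY) (tup_bij φ Y hY)
  have hfin : Module.Finite K (cp φ Y hY) := by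
    apply Module.Finite.of_injective (M := cp φ Y hY) (N := Fin n → D)
      ((cp φ Y hY).subtype.restrictScalars K)
    exact Subtype.val_injective
  rw [← e.finrank_eq, Module.finrank_pi_fintype, Finset.sum_const, Finset.card_univ,
    Fintype.card_fin, smul_eq_mul, Module.finrank_mul_finrank]

end Alg

/-! ### The module -/

section Mod

variable {K M D S : Type v} [Field K] [Ring M] [Algebra K M] {n : ℕ} [NeZero n]
  [DivisionRing D] [Algebra K D] [AddCommGroup S] [Module K S]
  (φ : Matrix (Fin n) (Fin n) D ≃ₐ[K] M) (r : M →+* Module.End K S)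

/-- `V = E S`. -/
def VV : Submodule K S := LinearMap.range (r (U φ 0 0))

omit [Algebra K M] in
theorem rmul (a b : M) (s : S) : r a (r b s) = r (a * b) s := by
  rw [map_mul, Module.End.mul_apply]

theorem mem_VV {s : S} : s ∈ VV φ r ↔ r (U φ 0 0) s = s := by
  constructor
  · rintro ⟨t, rfl⟩
    rw [rmul, U_mul]
  · intro h
    exact ⟨s, h⟩

theorem U_mem (i : Fin n) (s : S) : r (U φ 0 i) s ∈ VV φ r := by
  rw [mem_VV, rmul, U_mul]

/-- The action of `D` on `V`. -/
def LL : D →+* Module.End K (VV φ r) where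
  toFun q := (r (φ (Matrix.scalar (Fin n) q))).restrict (fun x hx => by
    rw [mem_VV] at hx ⊢
    rw [rmul, ← scalar_U, ← rmul, hx])
  map_one' := by
    ext x
    rw [LinearMap.coe_restrict_apply, map_one, map_one, map_one]
    rfl
  map_mul' p q := by
    ext x
    rw [LinearMap.coe_restrict_apply, map_mul, map_mul, map_mul]
    rfl
  map_zero' := by
    ext x
    rw [LinearMap.coe_restrict_apply, map_zero, map_zero, map_zero]
    rfl
  map_add' p q := by
    ext x
    rw [LinearMap.coe_restrict_apply, map_add, map_add, map_add]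
    rfl

theorem LL_coe (q : D) (v : VV φ r) :
    ((LL φ r q v : VV φ r) : S) = r (φ (Matrix.scalar (Fin n) q)) (v : S) := rfl

/-- The pairing. -/
def bet : (Fin n → D) →+ VV φ r →ₗ[K] S where
  toFun x := (r (C φ x)).comp (VV φ r).subtype
  map_zero' := by rw [C_zero, map_zero, LinearMap.zero_comp]
  map_add' x y := by rw [C_add, map_add, LinearMap.add_comp]

theorem bet_apply (x : Fin n → D) (v : VV φ r) : bet φ r x v = r (C φ x) (v : S) := rfl

/-- The equivalence of columns with columns over the opposite ring. -/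
def opE : (Fin n → D) ≃ₗ[Dᵐᵒᵖ] (Fin n → Dᵐᵒᵖ) where
  toFun x i := MulOpposite.op (x i)
  invFun x i := MulOpposite.unop (x i)
  map_add' x y := by funext i; rfl
  map_smul' q x := by funext i; rfl
  left_inv x := rfl
  right_inv x := rfl

/-- The standard basis. -/
noncomputable def bs : Basis (Fin n) Dᵐᵒᵖ (Fin n → D) := Basis.ofEquivFun opE

omit [NeZero n] in
theorem bs_apply (i : Fin n) : (bs (D := D) : Basis (Fin n) Dᵐᵒᵖ (Fin n → D)) i = Pi.single i 1 := by
  rw [bs, Basis.coe_ofEquivFun]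
  change (fun j => MulOpposite.unop ((Pi.single i (1 : Dᵐᵒᵖ) : Fin n → Dᵐᵒᵖ) j)) = Pi.single i 1
  funext j
  by_cases h : j = i
  · subst h; simp
  · rw [Pi.single_eq_of_ne h, Pi.single_eq_of_ne h]; rfl

theorem isBal (hBAL : SpecBAL.{v}) : IsBal (LL φ r) (bet φ r) := by
  have hbal : ∀ (x : Fin n → D) (q : D) (v : VV φ r),
      bet φ r (MulOpposite.op q • x) v = bet φ r x (LL φ r q v) := by
    intro x q v
    rw [bet_apply, bet_apply, LL_coe, rmul, C_scalar]
  refine hBAL D K (Fin n → D) (VV φ r) S (LL φ r) (bet φ r) hbal n bs ?_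
  have e : ∀ v : Fin n → VV φ r, ∑ i, bet φ r (bs i) (v i) = ∑ i, r (U φ i 0) (v i : S) := by
    intro v
    refine Finset.sum_congr rfl fun i _ => ?_
    rw [bs_apply, bet_apply, C_single]
  constructor
  · intro v w hvw
    simp only [e] at hvw
    funext j
    have key : ∀ v : Fin n → VV φ r, r (U φ 0 j) (∑ i, r (U φ i 0) (v i : S)) = (v j : S) := by
      intro v
      rw [map_sum, Finset.sum_eq_single j]
      · rw [rmul, U_mul, (mem_VV φ r).1 (v j).2]
      · intro i _ hi
        rw [rmul, U_mul_ne φ _ _ _ _ (Ne.symm hi), map_zero, LinearMap.zero_apply]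
      · intro h; exact absurd (Finset.mem_univ _) h
    apply Subtype.ext
    rw [← key v, ← key w, hvw]
  · intro s
    refine ⟨fun i => ⟨r (U φ 0 i) s, U_mem φ r i s⟩, ?_⟩
    simp only [e]
    have : ∀ i, r (U φ i 0) (r (U φ 0 i) s) = r (U φ i i) s := by
      intro i
      rw [rmul, U_mul]
    simp only [this]
    rw [← LinearMap.sum_apply, ← map_sum, sum_U, map_one, Module.End.one_apply]

/-- `G ∩ V` -/
def gv (G : Submodule K S) : Submodule K (VV φ r) := G.comap (VV φ r).subtype

theorem mem_gv {G : Submodule K S} {v : VV φ r} : v ∈ gv φ r G ↔ (v : S) ∈ G := Iff.rfl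

theorem gv_st {G : Submodule K S} (hG : ∀ w ∈ G, ∀ m : M, r m w ∈ G) : LSt (LL φ r) (gv φ r G) := by
  intro q v hv
  rw [mem_gv] at hv ⊢
  rw [LL_coe]
  exact hG _ hv _

/-- The product as a tensor product. -/
theorem prd_eq (Y : Submodule K M) (hY : ∀ y ∈ Y, ∀ m : M, y * m ∈ Y) (G : Submodule K S)
    (hG : ∀ w ∈ G, ∀ m : M, r m w ∈ G) :
    prd r Y G = tns (bet φ r) (cp φ Y hY) (gv φ r G) := by
  unfold prd tns
  apply le_antisymm
  · rw [Submodule.span_le]
    rintro _ ⟨y, hy, w, hw, rfl⟩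
    have hw1 : r y w = ∑ i, r (y * U φ i 0) (r (U φ 0 i) w) := by
      have : ∀ i, r (y * U φ i 0) (r (U φ 0 i) w) = r (y * U φ i i) w := by
        intro i
        rw [rmul, mul_assoc, U_mul]
      simp only [this]
      rw [← LinearMap.sum_apply, ← map_sum, ← Finset.mul_sum, sum_U, mul_one]
    rw [hw1]
    refine Submodule.sum_mem _ fun i _ => Submodule.subset_span ?_
    refine ⟨fun a => φ.symm y a i, ?_, ⟨r (U φ 0 i) w, U_mem φ r i w⟩, ?_, ?_⟩
    · rw [mem_cp, ← mul_U]
      exact hY _ hy _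
    · rw [mem_gv]
      exact hG _ hw _
    · rw [bet_apply, ← mul_U]
  · rw [Submodule.span_le]
    rintro _ ⟨x, hx, v, hv, rfl⟩
    rw [bet_apply]
    exact Submodule.subset_span ⟨C φ x, hx, v, hv, rfl⟩

theorem prd_top (G : Submodule K S) (hG : ∀ w ∈ G, ∀ m : M, r m w ∈ G) :
    prd r ⊤ G = G := by
  unfold prd
  apply le_antisymm
  · rw [Submodule.span_le]
    rintro _ ⟨y, -, w, hw, rfl⟩
    exact hG w hw y
  · intro w hw
    refine Submodule.subset_span ⟨1, Submodule.mem_top, w, hw, ?_⟩
    rw [map_one, Module.End.one_apply]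

end Mod

end WEDM

open WEDM in
theorem specWED (hTPB : SpecTPB.{v}) (hTDG : SpecTDG.{v}) (hBAL : SpecBAL.{v}) : SpecWED.{v} := by
  intro K M S _ _ _ _ _ _ _ _ r B R G hR hG hRr hGr Y hY
  have hart : IsArtinianRing M := IsArtinianRing.of_finite K M
  obtain ⟨n, hn, D, _, _, hD, ⟨ψ⟩⟩ := IsSimpleRing.exists_algEquiv_matrix_divisionRing_finite K M
  let φ : Matrix (Fin n) (Fin n) D ≃ₐ[K] M := ψ.symm
  have hB := isBal φ r hBAL
  have hXfin : Module.Finite Dᵐᵒᵖ (Fin n → D) := Module.Finite.of_basis bs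
  obtain ⟨-, -, t3, t4, -⟩ := hTPB D K (Fin n → D) (VV φ r) S (LL φ r) (bet φ r) hB
  have t5 := hTDG D K (Fin n → D) (VV φ r) S (LL φ r) (bet φ r) hB
  let R' : ℤ → Submodule Dᵐᵒᵖ (Fin n → D) := fun a => cp φ (R a) (hRr a)
  let G' : ℤ → Submodule K (VV φ r) := fun a => gv φ r (G a)
  have hGst : ∀ a, LSt (LL φ r) (G' a) := fun a => gv_st φ r (hGr a)
  have htst : LSt (LL φ r) (⊤ : Submodule K (VV φ r)) := fun _ _ _ => Submodule.mem_top
  have fR : IsFil B R' := by
    refine ⟨?_, ?_, ?_⟩
    · intro a b hab x hx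
      exact hR.anti hab hx
    · intro a ha
      ext x
      simp only [Submodule.mem_top, iff_true]
      change C φ x ∈ R a
      rw [hR.top a ha]
      exact Submodule.mem_top
    · intro a ha
      rw [eq_bot_iff]
      intro x hx
      have hx' : C φ x ∈ R a := hx
      rw [hR.bot a ha, Submodule.mem_bot] at hx'
      rw [Submodule.mem_bot]
      exact C_inj φ hx'
  have fG : IsFil B G' := by
    refine ⟨?_, ?_, ?_⟩
    · intro a b hab x hx
      exact hG.anti hab hx
    · intro a ha
      ext x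
      simp only [Submodule.mem_top, iff_true]
      change (x : S) ∈ G a
      rw [hG.top a ha]
      exact Submodule.mem_top
    · intro a ha
      rw [eq_bot_iff]
      intro x hx
      have hx' : (x : S) ∈ G a := hx
      rw [hG.bot a ha, Submodule.mem_bot] at hx'
      rw [Submodule.mem_bot]
      exact Subtype.ext hx'
  have hconv : (fun c => ⨆ a, prd r (R a) (G (c - a))) = conv (bet φ r) R' G' := by
    funext c
    unfold conv
    exact iSup_congr fun a => prd_eq φ r (R a) (hRr a) (G (c - a)) (hGr _)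
  have hgt : gv φ r (⊤ : Submodule K S) = ⊤ := by
    unfold gv
    exact Submodule.comap_top _
  have hYt : prd r Y ⊤ = tns (bet φ r) (cp φ Y hY) ⊤ := by
    rw [prd_eq φ r Y hY ⊤ (fun _ _ _ => Submodule.mem_top), hgt]
  -- the dimensions
  have hX : finrank Dᵐᵒᵖ (⊤ : Submodule Dᵐᵒᵖ (Fin n → D)) = n := by
    rw [finrank_top, finrank_eq_card_basis bs, Fintype.card_fin]
  have hMt : ∀ y ∈ (⊤ : Submodule K M), ∀ m : M, y * m ∈ (⊤ : Submodule K M) :=
    fun _ _ _ => Submodule.mem_top
  have hcpt : cp φ (⊤ : Submodule K M) hMt = ⊤ := by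
    ext x
    simp only [Submodule.mem_top, iff_true]
    exact Submodule.mem_top
  have hM : finrank K M = n * (finrank K Dᵐᵒᵖ * n) := by
    have := finrank_cp φ (⊤ : Submodule K M) hMt
    rwa [hcpt, hX, finrank_top] at this
  have hGfin : ∀ G0 : Submodule K S, (∀ w ∈ G0, ∀ m : M, r m w ∈ G0) →
      finrank K G0 = n * finrank K (gv φ r G0) := by
    intro G0 h0
    have h1 := prd_eq φ r ⊤ hMt G0 h0
    rw [prd_top r G0 h0, hcpt] at h1
    have h2 := t4 ⊤ (gv φ r G0) (gv_st φ r h0)
    rw [← h1, hX] at h2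
    exact h2
  have hS : finrank K S = n * finrank K (VV φ r) := by
    have := hGfin ⊤ (fun _ _ _ => Submodule.mem_top)
    rwa [hgt, finrank_top, finrank_top] at this
  have hYf := finrank_cp φ Y hY
  have hdegR : deg B R Y = n * finrank K Dᵐᵒᵖ * deg B R' (cp φ Y hY) := by
    unfold deg
    have h1 : ∀ a, (finrank K ↥(Y ⊓ R a) : ℤ) =
        n * finrank K Dᵐᵒᵖ * (finrank Dᵐᵒᵖ ↥(cp φ Y hY ⊓ R' a) : ℤ) := by
      intro a
      have hYR : ∀ y ∈ Y ⊓ R a, ∀ m : M, y * m ∈ Y ⊓ R a :=
        fun y hy m => ⟨hY y hy.1 m, hRr a y hy.2 m⟩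
      have h2 : cp φ (Y ⊓ R a) hYR = cp φ Y hY ⊓ R' a := by
        ext x
        exact Iff.rfl
      rw [finrank_cp φ (Y ⊓ R a) hYR, h2]
      push_cast
      ring
    simp only [h1]
    rw [← Finset.mul_sum, hYf]
    push_cast
    ring
  have hdegG : deg B G ⊤ = n * deg B G' ⊤ := by
    unfold deg
    have h1 : ∀ a, (finrank K ↥(⊤ ⊓ G a) : ℤ) =
        n * (finrank K ↥(⊤ ⊓ G' a) : ℤ) := by
      intro a
      rw [top_inf_eq, top_inf_eq, hGfin (G a) (hGr a)]
      push_cast
      rfl
    simp only [h1]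
    rw [← Finset.mul_sum, finrank_top, finrank_top, hS]
    push_cast
    ring
  refine ⟨?_, ?_, ?_⟩
  · rw [hconv, two_mul]
    exact t3 B B R' G' fR fG hGst
  · rw [hYt, t4 _ ⊤ htst, finrank_top, hM, hS, hYf]
    ring
  · have h5 := t5 B B R' G' fR fG hGst (cp φ Y hY) ⊤ htst
    rw [hconv, hYt, two_mul, h5, hdegR, hdegG, hM, hS, hYf, finrank_top]
    push_cast
    ring

end Pool.Agent.Lib.MP_c37a72_al.NI
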