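import Pool.Agent.Lib.MP_c37a72_al.NI.Spec

section
/-!
# MP_c37a72_al, block NI, module TWT: weights are additive

No `sl_2`: the truncated multiplication by `(1 + X)^k` is bijective (`lef_inj`, derivative argument), so in
`ℚ[x,y]/(x^m, y^m')` every form of degree `N - e` is `(x+y)^(N-2e)` times a form of degree `e`
(`N = m + m' - 2`), and the forms of degree `e` are in `wt (x+y) (2e - N)`.
-/
set_option autoImplicit false

open Polynomial Module

namespace Pool.Agent.Lib.MP_c37a72_al.NI

universe u v w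

namespace TWTM

theorem natDegree_one_add_X : (1 + X : ℚ[X]).natDegree = 1 := by
  rw [add_comm]
  exact natDegree_X_add_C (1 : ℚ)

theorem one_add_X_ne : (1 + X : ℚ[X]) ≠ 0 := by
  intro h
  have := natDegree_one_add_X
  rw [h, natDegree_zero] at this
  exact absurd this (by omega)

/-- injectivity of the truncated multiplication by a power of `1 + X`. -/
theorem lef_inj (m m' e : ℕ) (hm : 1 ≤ m) (hmm : m ≤ m') (he : 2 * e + 2 ≤ m + m') (f : ℚ[X])
    (hf : f.natDegree ≤ min e (m - 1))
    (h0 : ∀ j, m - 1 - min e (m - 1) ≤ j → j ≤ m - 1 →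
      ((1 + X) ^ (m + m' - 2 - 2 * e) * f).coeff j = 0) : f = 0 := by
  by_contra hf0
  set hi := min e (m - 1) with hhi
  set d := m - 1 - hi with hd
  set k := m + m' - 2 - 2 * e with hk
  have h1X := one_add_X_ne
  have hP : (1 + X) ^ k * f ≠ 0 := mul_ne_zero (pow_ne_zero _ h1X) hf0
  have hdeg : ((1 + X) ^ k * f).natDegree = k + f.natDegree := by
    rw [natDegree_mul (pow_ne_zero _ h1X) hf0, natDegree_pow, natDegree_one_add_X, mul_one]
  set P := (1 + X) ^ k * f with hPdef
  have hcoe : ∀ j, (derivative^[d] P).coeff j = (j + d).descFactorial d • P.coeff (j + d) := by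
    intro j
    rw [coeff_iterate_derivative]
  have hX : X ^ (hi + 1) ∣ derivative^[d] P := by
    rw [X_pow_dvd_iff]
    intro j hj
    rw [hcoe, h0 (j + d) (by omega) (by omega), smul_zero]
  have h1 : (1 + X : ℚ[X]) ^ (k - d) ∣ derivative^[d] P :=
    pow_sub_dvd_iterate_derivative_of_pow_dvd d (Dvd.intro _ rfl)
  have hcop : IsCoprime (X ^ (hi + 1) : ℚ[X]) ((1 + X) ^ (k - d)) := by
    apply IsCoprime.pow
    exact ⟨-1, 1, by ring⟩
  have hdvd : X ^ (hi + 1) * (1 + X) ^ (k - d) ∣ derivative^[d] P := hcop.mul_dvd hX h1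
  have hQ : derivative^[d] P = 0 := by
    by_contra hQ
    have h2 := natDegree_le_of_dvd hdvd hQ
    rw [natDegree_mul (pow_ne_zero _ X_ne_zero) (pow_ne_zero _ h1X), natDegree_pow, natDegree_pow,
      natDegree_X, natDegree_one_add_X] at h2
    have h3 := natDegree_iterate_derivative P d
    omega
  have hlow : ∀ j, P.coeff (j + d) = 0 := by
    intro j
    have := hcoe j
    rw [hQ, coeff_zero] at this
    have h2 : ((j + d).descFactorial d : ℚ) ≠ 0 := by
      have : 0 < (j + d).descFactorial d := Nat.descFactorial_pos.2 (by omega)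
      exact_mod_cast this.ne'
    rw [nsmul_eq_mul] at this
    exact (mul_eq_zero.1 this.symm).resolve_left h2
  have hlt : P.natDegree < d := by
    by_contra hge
    have := hlow (P.natDegree - d)
    rw [Nat.sub_add_cancel (by omega)] at this
    rw [coeff_natDegree, leadingCoeff_eq_zero] at this
    exact hP this
  omega

theorem lef_surj (m m' e : ℕ) (hm : 1 ≤ m) (hmm : m ≤ m') (he : 2 * e + 2 ≤ m + m') (c : ℕ → ℚ) :
    ∃ f : ℚ[X], f.natDegree ≤ min e (m - 1) ∧ ∀ j, m - 1 - min e (m - 1) ≤ j → j ≤ m - 1 →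
      ((1 + X) ^ (m + m' - 2 - 2 * e) * f).coeff j = c j := by
  set hi := min e (m - 1) with hhi
  set d := m - 1 - hi with hd
  set k := m + m' - 2 - 2 * e with hk
  let F : (Fin (hi + 1) → ℚ) →ₗ[ℚ] ℚ[X] :=
    { toFun := fun g => ∑ i : Fin (hi + 1), monomial (i : ℕ) (g i)
      map_add' := by
        intro a b
        simp [Finset.sum_add_distrib]
      map_smul' := by
        intro r a
        simp [Finset.smul_sum, smul_monomial] }
  have hFdeg : ∀ g, (F g).natDegree ≤ hi := by
    intro g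
    change (∑ i : Fin (hi + 1), monomial (i : ℕ) (g i) : ℚ[X]).natDegree ≤ hi
    refine natDegree_sum_le_of_forall_le _ _ ?_
    intro i _
    exact (natDegree_monomial_le _).trans (by omega)
  have hFinj : ∀ g, F g = 0 → g = 0 := by
    intro g hg
    funext i
    have := congrArg (fun p : ℚ[X] => coeff p (i : ℕ)) hg
    simp only [F, LinearMap.coe_mk, AddHom.coe_mk, finsetSum_coeff, coeff_monomial,
      coeff_zero] at this
    rw [Finset.sum_eq_single i] at this
    · simpa using this
    · intro b _ hb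
      rw [if_neg]
      intro h
      exact hb (Fin.ext h)
    · intro h
      exact absurd (Finset.mem_univ i) h
  let G : (Fin (hi + 1) → ℚ) →ₗ[ℚ] (Fin (hi + 1) → ℚ) :=
    { toFun := fun g j => ((1 + X) ^ k * F g).coeff (d + j)
      map_add' := by
        intro a b
        funext j
        simp [mul_add]
      map_smul' := by
        intro r a
        funext j
        simp }
  have hGinj : Function.Injective G := by
    rw [injective_iff_map_eq_zero]
    intro g hg
    apply hFinj
    apply lef_inj m m' e hm hmm he (F g) (hFdeg g)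
    intro j hj1 hj2
    have := congrFun hg ⟨j - d, by omega⟩
    simp only [G, LinearMap.coe_mk, AddHom.coe_mk, Pi.zero_apply] at this
    rw [Nat.add_sub_cancel' hj1] at this
    exact this
  have hGsurj := LinearMap.injective_iff_surjective.1 hGinj
  obtain ⟨g, hg⟩ := hGsurj (fun j => c (d + j))
  refine ⟨F g, hFdeg g, ?_⟩
  intro j hj1 hj2
  have := congrFun hg ⟨j - d, by omega⟩
  simp only [G, LinearMap.coe_mk, AddHom.coe_mk] at this
  rw [Nat.add_sub_cancel' hj1] at this
  exact this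

section Ev

variable {A : Type u} {W : Type v} [Ring A] [AddCommGroup W] [Module A W] [Module ℚ W]

/-- value of the form of degree `e` with coefficients `f`. -/
noncomputable def ev (B : ℕ → ℕ → W) (e : ℕ) (f : ℚ[X]) : W :=
  ∑ r ∈ Finset.range (e + 1), f.coeff r • B r (e - r)

theorem ev_step (T : Module.End A W) (B : ℕ → ℕ → W)
    (hT : ∀ r t, T (B r t) = B (r + 1) t + B r (t + 1)) (e : ℕ) (f : ℚ[X])
    (hf : f.natDegree ≤ e) : T (ev B e f) = ev B (e + 1) ((1 + X) * f) := by
  have hc : f.coeff (e + 1) = 0 := coeff_eq_zero_of_natDegree_lt (by omega)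
  have h1 : T (ev B e f) = (∑ r ∈ Finset.range (e + 1), f.coeff r • B (r + 1) (e - r)) +
      ∑ r ∈ Finset.range (e + 1), f.coeff r • B r (e + 1 - r) := by
    unfold ev
    rw [map_sum, ← Finset.sum_add_distrib]
    apply Finset.sum_congr rfl
    intro r hr
    have hr' : r ≤ e := by simpa [Nat.lt_succ_iff] using hr
    rw [map_rat_smul T, hT, smul_add, Nat.succ_sub hr']
  have h3 : ev B (e + 1) ((1 + X) * f) = ev B (e + 1) f + ev B (e + 1) (X * f) := by
    unfold ev
    rw [← Finset.sum_add_distrib]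
    apply Finset.sum_congr rfl
    intro r _
    rw [add_mul, one_mul, coeff_add, add_smul]
  have h4 : ev B (e + 1) f = ∑ r ∈ Finset.range (e + 1), f.coeff r • B r (e + 1 - r) := by
    unfold ev
    rw [Finset.sum_range_succ _ (e + 1), hc, zero_smul, add_zero]
  have h5 : ev B (e + 1) (X * f) =
      ∑ r ∈ Finset.range (e + 1), f.coeff r • B (r + 1) (e - r) := by
    unfold ev
    rw [Finset.sum_range_succ' _ (e + 1), mul_coeff_zero, coeff_X_zero, zero_mul, zero_smul,
      add_zero]
    apply Finset.sum_congr rfl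
    intro r _
    rw [coeff_X_mul, Nat.add_sub_add_right]
  rw [h1, h3, h4, h5, add_comm]

theorem natDegree_pow_mul (k e : ℕ) (f : ℚ[X]) (hf : f.natDegree ≤ e) :
    ((1 + X) ^ k * f).natDegree ≤ e + k := by
  refine natDegree_mul_le.trans ?_
  have : ((1 + X : ℚ[X]) ^ k).natDegree ≤ k := by
    rw [natDegree_pow, natDegree_one_add_X, mul_one]
  omega

theorem ev_pow (T : Module.End A W) (B : ℕ → ℕ → W)
    (hT : ∀ r t, T (B r t) = B (r + 1) t + B r (t + 1)) (e k : ℕ) (f : ℚ[X])
    (hf : f.natDegree ≤ e) : (T ^ k) (ev B e f) = ev B (e + k) ((1 + X) ^ k * f) := by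
  induction k with
  | zero => simp
  | succ k ih =>
    rw [pow_succ', Module.End.mul_apply, ih, ev_step T B hT _ _ (natDegree_pow_mul k e f hf),
      ← mul_assoc, ← pow_succ', add_assoc]

/-- Lefschetz: every form of degree `N - e` is `T^(N-2e)` of a form of degree `e`. -/
theorem lef (T : Module.End A W) (B : ℕ → ℕ → W)
    (hT : ∀ r t, T (B r t) = B (r + 1) t + B r (t + 1)) (m m' e e' : ℕ)
    (hm : 1 ≤ m) (hmm : m ≤ m') (he : 2 * e + 2 ≤ m + m') (hn : ∀ r t, m ≤ r → B r t = 0)
    (hs : ∀ r t, m' ≤ t → B r t = 0) (hpq : e' + e + 2 = m + m') (h : ℚ[X]) :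
    ∃ f : ℚ[X], f.natDegree ≤ e ∧ (T ^ (m + m' - 2 - 2 * e)) (ev B e f) = ev B e' h := by
  obtain ⟨f, hf1, hf2⟩ := lef_surj m m' e hm hmm he (fun j => h.coeff j)
  refine ⟨f, hf1.trans (min_le_left _ _), ?_⟩
  rw [ev_pow T B hT e _ f (hf1.trans (min_le_left _ _))]
  have hee : e + (m + m' - 2 - 2 * e) = e' := by omega
  rw [hee]
  unfold ev
  apply Finset.sum_congr rfl
  intro r _
  by_cases hr : m ≤ r
  · rw [hn r _ hr, smul_zero, smul_zero]
  · by_cases hr2 : m - 1 - min e (m - 1) ≤ r
    · rw [hf2 r hr2 (by omega)]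
    · rw [hs r _ (by omega), smul_zero, smul_zero]

theorem wt_T (T : Module.End A W) (a : ℤ) (x : W) (hx : x ∈ wt T a) : T x ∈ wt T (a + 2) := by
  refine wt_induction T (p := fun x => T x ∈ wt T (a + 2)) ?_ ?_ ?_ hx
  · intro i m y hi hm hy
    have h1 : T ((T ^ i) y) = (T ^ (i + 1)) y := by
      rw [pow_succ', Module.End.mul_apply]
    show T ((T ^ i) y) ∈ _
    rw [h1]
    by_cases h2 : a + 2 ≤ ((i + 1 : ℕ) : ℤ)
    · exact wt_gen T h2 (m := m) (by push_cast; omega) hy
    · have h3 : m = i + 1 := by omega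
      rw [← h3, hy]
      exact Submodule.zero_mem _
  · show T 0 ∈ _
    rw [map_zero]
    exact Submodule.zero_mem _
  · intro x y hx hy
    show T (x + y) ∈ _
    rw [map_add]
    exact Submodule.add_mem _ hx hy

theorem wt_Tpow (T : Module.End A W) (a : ℤ) (x : W) (hx : x ∈ wt T a) (k : ℕ) :
    (T ^ k) x ∈ wt T (a + 2 * k) := by
  induction k with
  | zero => simpa using hx
  | succ k ih =>
    rw [pow_succ', Module.End.mul_apply]
    have := wt_T T _ _ ih
    have h : a + 2 * ((k : ℕ) : ℤ) + 2 = a + 2 * ((k + 1 : ℕ) : ℤ) := by push_cast; ring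
    rwa [h] at this

/-- lower half. -/
theorem low (T : Module.End A W) (B : ℕ → ℕ → W)
    (hT : ∀ r t, T (B r t) = B (r + 1) t + B r (t + 1)) (m m' : ℕ)
    (hm : 1 ≤ m) (hmm : m ≤ m') (hn : ∀ r t, m ≤ r → B r t = 0)
    (hs : ∀ r t, m' ≤ t → B r t = 0) (e : ℕ) (he : 2 * e + 2 ≤ m + m') (f : ℚ[X])
    (hf : f.natDegree ≤ e) : ev B e f ∈ wt T (2 * e + 2 - (m + m')) := by
  induction e generalizing f with
  | zero =>
    have h0 : (T ^ (m + m' - 1)) (ev B 0 f) = 0 := by
      rw [ev_pow T B hT 0 _ f hf]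
      unfold ev
      apply Finset.sum_eq_zero
      intro r _
      by_cases hr : m ≤ r
      · rw [hn r _ hr, smul_zero]
      · rw [hs r _ (by omega), smul_zero]
    have := wt_gen T (a := 2 * ((0 : ℕ) : ℤ) + 2 - (m + m')) (i := 0) (m := m + m' - 1)
      (by push_cast; omega) (by push_cast; omega) h0
    rwa [pow_zero, Module.End.one_apply] at this
  | succ e ih =>
    have hdeg := natDegree_pow_mul (m + m' - 2 - 2 * (e + 1) + 1) (e + 1) f hf
    obtain ⟨g, hg1, hg2⟩ := lef T B hT m m' e (m + m' - 2 - e) hm hmm (by omega) hn hs (by omega)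
      ((1 + X) ^ (m + m' - 2 - 2 * (e + 1) + 1) * f)
    have h1 : (T ^ (m + m' - 2 - 2 * (e + 1) + 1)) (ev B (e + 1) f - T (ev B e g)) = 0 := by
      rw [map_sub, ev_pow T B hT (e + 1) _ f hf, ← Module.End.mul_apply, ← pow_succ]
      have h2 : m + m' - 2 - 2 * (e + 1) + 1 + 1 = m + m' - 2 - 2 * e := by omega
      rw [h2, hg2]
      have h3 : e + 1 + (m + m' - 2 - 2 * (e + 1) + 1) = m + m' - 2 - e := by omega
      rw [h3, sub_self]
    have h4 := wt_gen T (a := 2 * ((e + 1 : ℕ) : ℤ) + 2 - (m + m')) (i := 0)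
      (m := m + m' - 2 - 2 * (e + 1) + 1) (by push_cast; omega) (by push_cast; omega) h1
    rw [pow_zero, Module.End.one_apply] at h4
    have h5 := wt_T T _ _ (ih (by omega) g hg1)
    have h6 : (2 * (e : ℤ) + 2 - (m + m')) + 2 = 2 * ((e + 1 : ℕ) : ℤ) + 2 - (m + m') := by
      push_cast
      ring
    rw [h6] at h5
    have := Submodule.add_mem _ h4 h5
    rwa [sub_add_cancel] at this

theorem ev_monomial (B : ℕ → ℕ → W) (p q : ℕ) : ev B (p + q) (monomial p 1) = B p q := by
  unfold ev
  rw [Finset.sum_eq_single p]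
  · rw [coeff_monomial, if_pos rfl, one_smul, Nat.add_sub_cancel_left]
  · intro r _ hr
    rw [coeff_monomial, if_neg (Ne.symm hr), zero_smul]
  · intro hp
    exact absurd (Finset.mem_range.2 (by omega)) hp

theorem core' (T : Module.End A W) (B : ℕ → ℕ → W)
    (hT : ∀ r t, T (B r t) = B (r + 1) t + B r (t + 1)) (m m' : ℕ)
    (hm : 1 ≤ m) (hmm : m ≤ m') (hn : ∀ r t, m ≤ r → B r t = 0)
    (hs : ∀ r t, m' ≤ t → B r t = 0) (p q : ℕ) :
    B p q ∈ wt T (2 * (p + q) + 2 - (m + m')) := by
  by_cases h1 : m ≤ p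
  · rw [hn p q h1]
    exact Submodule.zero_mem _
  by_cases h2 : m' ≤ q
  · rw [hs p q h2]
    exact Submodule.zero_mem _
  by_cases h3 : 2 * (p + q) + 2 ≤ m + m'
  · have := low T B hT m m' hm hmm hn hs (p + q) h3 (monomial p 1)
      ((natDegree_monomial_le _).trans (by omega))
    rw [ev_monomial] at this
    have h : (2 * ((p + q : ℕ) : ℤ) + 2 - (m + m')) = 2 * ((p : ℤ) + q) + 2 - (m + m') := by
      push_cast
      ring
    rwa [h] at this
  · obtain ⟨g, hg1, hg2⟩ := lef T B hT m m' (m + m' - 2 - (p + q)) (p + q) hm hmm (by omega) hn hs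
      (by omega) (monomial p 1)
    rw [ev_monomial] at hg2
    have h4 := low T B hT m m' hm hmm hn hs (m + m' - 2 - (p + q)) (by omega) g hg1
    have h5 := wt_Tpow T _ _ h4 (m + m' - 2 - 2 * (m + m' - 2 - (p + q)))
    rw [hg2] at h5
    have h : (2 * ((m + m' - 2 - (p + q) : ℕ) : ℤ) + 2 - (m + m')) +
        2 * ((m + m' - 2 - 2 * (m + m' - 2 - (p + q)) : ℕ) : ℤ) =
        2 * ((p : ℤ) + q) + 2 - (m + m') := by
      omega
    rwa [h] at h5

theorem core (T : Module.End A W) (B : ℕ → ℕ → W)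
    (hT : ∀ r t, T (B r t) = B (r + 1) t + B r (t + 1)) (m m' : ℕ)
    (hm : 1 ≤ m) (hm' : 1 ≤ m') (hn : ∀ r t, m ≤ r → B r t = 0)
    (hs : ∀ r t, m' ≤ t → B r t = 0) (p q : ℕ) :
    B p q ∈ wt T (2 * (p + q) + 2 - (m + m')) := by
  by_cases h : m ≤ m'
  · exact core' T B hT m m' hm h hn hs p q
  · have := core' T (fun r t => B t r) (fun r t => by rw [hT, add_comm]) m' m hm' (by omega)
      (fun r t hr => hs t r hr) (fun r t hr => hn t r hr) q p
    have h2 : 2 * ((q : ℤ) + p) + 2 - (m' + m) = 2 * ((p : ℤ) + q) + 2 - (m + m') := by ring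
    rwa [h2] at this

end Ev

end TWTM

open TWTM in
theorem specTWT : SpecTWT.{v} := by
  intro A A' A'' V V' W _ _ _ _ _ _ _ _ _ _ n s T β hT a b x y hx hy
  have key : ∀ (i p : ℕ) (u : V) (_ : a ≤ i) (_ : (p : ℤ) = 2 * i + 1 - a) (_ : (n ^ p) u = 0)
      (j q : ℕ) (v : V') (_ : b ≤ j) (_ : (q : ℤ) = 2 * j + 1 - b) (_ : (s ^ q) v = 0),
      β ((n ^ i) u) ((s ^ j) v) ∈ wt T (a + b) := by
    intro i p u hi hp hu j q v hj hq hv
    have hpow : ∀ r, p ≤ r → (n ^ r) u = 0 := by
      intro r hr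
      obtain ⟨d, rfl⟩ := Nat.exists_eq_add_of_le' hr
      rw [pow_add, Module.End.mul_apply, hu, map_zero]
    have hpow' : ∀ r, q ≤ r → (s ^ r) v = 0 := by
      intro r hr
      obtain ⟨d, rfl⟩ := Nat.exists_eq_add_of_le' hr
      rw [pow_add, Module.End.mul_apply, hv, map_zero]
    have h := core T (fun r t => β ((n ^ r) u) ((s ^ t) v)) (fun r t => by
        rw [hT]
        congr 1
        · rw [pow_succ', Module.End.mul_apply]
        · rw [pow_succ', Module.End.mul_apply]) p q (by omega) (by omega)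
      (fun r t hr => by rw [hpow r hr, map_zero, AddMonoidHom.zero_apply])
      (fun r t ht => by rw [hpow' t ht, map_zero]) i j
    have h2 : 2 * ((i : ℤ) + j) + 2 - (p + q) = a + b := by
      rw [hp, hq]
      ring
    rwa [h2] at h
  refine wt_induction n (p := fun x => β x y ∈ wt T (a + b)) ?_ ?_ ?_ hx
  · intro i p u hi hp hu
    refine wt_induction s (p := fun y => β ((n ^ i) u) y ∈ wt T (a + b)) ?_ ?_ ?_ hy
    · intro j q v hj hq hv
      exact key i p u hi hp hu j q v hj hq hv
    · show β _ 0 ∈ _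
      rw [map_zero]
      exact Submodule.zero_mem _
    · intro y y' h1 h2
      show β _ (y + y') ∈ _
      rw [map_add]
      exact Submodule.add_mem _ h1 h2
  · show β 0 y ∈ _
    rw [map_zero, AddMonoidHom.zero_apply]
    exact Submodule.zero_mem _
  · intro x x' h1 h2
    show β (x + x') y ∈ _
    rw [map_add, AddMonoidHom.add_apply]
    exact Submodule.add_mem _ h1 h2

end Pool.Agent.Lib.MP_c37a72_al.NI
end

section
/-!
# MP_c37a72_al, block NI, module WTA: the weight filtration of a nilpotent operator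
-/
set_option autoImplicit false

open Module

namespace Pool.Agent.Lib.MP_c37a72_al.NI.WTAM

universe u v

section

variable {A : Type u} {V : Type v} [Ring A] [AddCommGroup V] [Module A V] (n : Module.End A V)

theorem anti : Antitone (wt n) := by
  intro a b hab x hx
  refine wt_induction n (p := fun x => x ∈ wt n a) (fun i m y hi hm hy => ?_) (zero_mem _)
    (fun x y hx hy => add_mem hx hy) hx
  exact wt_gen n (hab.trans hi) (by omega) hy

theorem bot_of (b : ℕ) (hb : n ^ b = 0) (a : ℤ) (ha : (b : ℤ) ≤ a) : wt n a = ⊥ := by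
  rw [eq_bot_iff]
  intro x hx
  refine wt_induction n (p := fun x => x ∈ (⊥ : Submodule A V)) (fun i m y hi hm hy => ?_)
    (zero_mem _) (fun x y hx hy => add_mem hx hy) hx
  have h1 : b ≤ i := by omega
  obtain ⟨d, rfl⟩ := Nat.exists_eq_add_of_le h1
  change (n ^ (b + d)) y ∈ _
  rw [pow_add, hb, zero_mul, LinearMap.zero_apply]
  exact zero_mem _

theorem top_of (b : ℕ) (hb : n ^ b = 0) (a : ℤ) (ha : a ≤ 1 - (b : ℤ)) : wt n a = ⊤ := by
  rw [eq_top_iff]
  intro x _
  rcases Nat.eq_zero_or_pos b with h0 | h0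
  · subst h0
    have h1 : x = 0 := by
      have := congrArg (fun f : Module.End A V => f x) hb
      simpa using this
    rw [h1]
    exact zero_mem _
  · have h1 : (n ^ 0) x ∈ wt n a := wt_gen n (i := 0) (m := b) (by push_cast; omega)
      (by push_cast; omega) (by rw [hb, LinearMap.zero_apply])
    simpa using h1

theorem le_range (a : ℤ) (ha : 1 ≤ a) : wt n a ≤ LinearMap.range n := by
  intro x hx
  refine wt_induction n (p := fun x => x ∈ LinearMap.range n) (fun i m y hi hm hy => ?_)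
    (zero_mem _) (fun x y hx hy => add_mem hx hy) hx
  obtain ⟨d, rfl⟩ : ∃ d, i = d + 1 := ⟨i - 1, by omega⟩
  exact ⟨(n ^ d) y, by rw [pow_succ', Module.End.mul_apply]⟩

theorem up (a : ℤ) (x : V) (hx : x ∈ wt n a) : n x ∈ wt n (a + 2) := by
  refine wt_induction n (p := fun x => n x ∈ wt n (a + 2)) (fun i m y hi hm hy => ?_)
    ?_ (fun x y hx hy => ?_) hx
  · have h1 : n ((n ^ i) y) = (n ^ (i + 1)) y := by rw [pow_succ', Module.End.mul_apply]
    change n ((n ^ i) y) ∈ _
    rw [h1]
    by_cases h2 : a + 2 ≤ (i : ℤ) + 1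
    · exact wt_gen n (i := i + 1) (m := m) (by push_cast; omega) (by push_cast; omega) hy
    · have h3 : m = i + 1 := by omega
      rw [← h3, hy]
      exact zero_mem _
  · rw [map_zero]
    exact zero_mem _
  · rw [map_add]
    exact add_mem hx hy

theorem up_pow (m : ℕ) (a : ℤ) (x : V) (hx : x ∈ wt n a) : (n ^ m) x ∈ wt n (a + 2 * m) := by
  induction m with
  | zero => simpa using hx
  | succ m ih =>
    have h1 := up n _ _ ih
    rw [pow_succ', Module.End.mul_apply]
    have h2 : a + 2 * ((m + 1 : ℕ) : ℤ) = a + 2 * m + 2 := by push_cast; ring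
    rw [h2]
    exact h1

theorem equiv_map (e : V ≃ₗ[A] V) (he : ∀ x, e (n x) = n (e x)) (a : ℤ) :
    (wt n a).map (e : V →ₗ[A] V) = wt n a := by
  apply le_antisymm
  · rintro _ ⟨x, hx, rfl⟩
    exact wt_map n n (e : V →ₗ[A] V).toAddMonoidHom he hx
  · intro x hx
    refine ⟨e.symm x, ?_, e.apply_symm_apply x⟩
    refine wt_map n n (e.symm : V →ₗ[A] V).toAddMonoidHom (fun y => ?_) hx
    change e.symm (n y) = n (e.symm y)
    apply e.injective
    rw [e.apply_symm_apply, he, e.apply_symm_apply]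

theorem map_pow (a : ℕ) (c : ℤ) (hc : -(a : ℤ) ≤ c) :
    (wt n c).map (n ^ a) = wt n (c + 2 * a) := by
  apply le_antisymm
  · rintro _ ⟨x, hx, rfl⟩
    exact up_pow n a c x hx
  · intro x hx
    refine wt_induction n (p := fun x => x ∈ (wt n c).map (n ^ a)) (fun i m y hi hm hy => ?_)
      (zero_mem _) (fun x y hx hy => add_mem hx hy) hx
    obtain ⟨d, rfl⟩ : ∃ d, i = a + d := ⟨i - a, by omega⟩
    refine ⟨(n ^ d) y, ?_, by rw [pow_add, Module.End.mul_apply]⟩
    exact wt_gen n (m := m) (by omega) (by push_cast at hm; omega) hy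

theorem ker_le (a : ℕ) (c : ℤ) (hc : c ≤ 1 - (a : ℤ)) : LinearMap.ker (n ^ a) ≤ wt n c := by
  intro x hx
  rcases Nat.eq_zero_or_pos a with h0 | h0
  · subst h0
    have h1 : x = 0 := by simpa using hx
    rw [h1]
    exact zero_mem _
  · have h1 : (n ^ 0) x ∈ wt n c := wt_gen n (i := 0) (m := a) (by push_cast; omega)
      (by push_cast; omega) hx
    simpa using h1

end

section

variable {D V : Type v} [DivisionRing D] [AddCommGroup V] [Module D V] [Module.Finite D V]
  (n : Module.End D V)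

theorem dim_eq (a : ℕ) (c : ℤ) (hc : -(a : ℤ) ≤ c) (hc' : c ≤ 1 - (a : ℤ)) :
    finrank D (wt n c) = finrank D (wt n (c + 2 * a)) + finrank D (LinearMap.ker (n ^ a)) := by
  have h1 := LinearMap.finrank_range_add_finrank_ker ((n ^ a).domRestrict (wt n c))
  rw [LinearMap.range_domRestrict, map_pow n a c hc, LinearMap.ker_domRestrict] at h1
  have h2 := (Submodule.comapSubtypeEquivOfLe (ker_le n a c hc')).finrank_eq
  rw [← h1, h2]

theorem g_step (a : ℕ) : finrank D (wt n ((a : ℤ) + 1)) + finrank D (wt n (-(a : ℤ))) =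
    finrank D (wt n (a : ℤ)) + finrank D (wt n (1 - (a : ℤ))) := by
  have h1 := dim_eq n a (-(a : ℤ)) le_rfl (by omega)
  have h2 := dim_eq n a (1 - (a : ℤ)) (by omega) le_rfl
  have e1 : -(a : ℤ) + 2 * a = a := by ring
  have e2 : 1 - (a : ℤ) + 2 * a = a + 1 := by ring
  rw [e1] at h1
  rw [e2] at h2
  omega

theorem g_eq (B : ℕ) (hB : n ^ B = 0) (a : ℕ) :
    finrank D (wt n (a : ℤ)) + finrank D (wt n (1 - (a : ℤ))) = finrank D V := by
  have key : ∀ d a : ℕ, finrank D (wt n (a : ℤ)) + finrank D (wt n (1 - (a : ℤ))) =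
      finrank D (wt n ((a + d : ℕ) : ℤ)) + finrank D (wt n (1 - ((a + d : ℕ) : ℤ))) := by
    intro d
    induction d with
    | zero => intro a; rfl
    | succ d ih =>
      intro a
      have e1 : ((a + (d + 1) : ℕ) : ℤ) = ((a + d : ℕ) : ℤ) + 1 := by push_cast; ring
      have e2 : (1 : ℤ) - ((a + (d + 1) : ℕ) : ℤ) = -((a + d : ℕ) : ℤ) := by push_cast; ring
      rw [ih a, ← g_step n (a + d), e2, e1]
  rw [key B a, bot_of n B hB _ (by push_cast; omega), top_of n B hB _ (by push_cast; omega),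
    finrank_bot, finrank_top, zero_add]

omit [Module.Finite D V] in
theorem isFil (B : ℕ) (hB : n ^ B = 0) : IsFil B (wt n) :=
  ⟨anti n, fun a ha => top_of n B hB a (by omega), fun a ha => bot_of n B hB a ha.le⟩

theorem deg_eq (B : ℕ) (hB : n ^ B = 0) : deg B (wt n) ⊤ = 0 := by
  unfold deg
  have h1 : ∀ a : ℤ, finrank D ↥((⊤ : Submodule D V) ⊓ wt n a) = finrank D (wt n a) := by
    intro a
    rw [top_inf_eq]
  have key : ∀ b : ℕ, ∑ a ∈ Finset.Ioc (-(b : ℤ)) b, (finrank D (wt n a) : ℤ) =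
      b * finrank D V := by
    intro b
    induction b with
    | zero => simp
    | succ b ih =>
      have e1 : Finset.Ioc (-((b + 1 : ℕ) : ℤ)) ((b + 1 : ℕ) : ℤ) =
          insert ((b : ℤ) + 1) (insert (-(b : ℤ)) (Finset.Ioc (-(b : ℤ)) b)) := by
        ext x
        simp only [Finset.mem_Ioc, Finset.mem_insert]
        push_cast
        omega
      have e2 := g_step n b
      have e3 := g_eq n B hB b
      rw [e1, Finset.sum_insert, Finset.sum_insert, ih]
      · have e4 : (finrank D (wt n ((b : ℤ) + 1)) : ℤ) + finrank D (wt n (-(b : ℤ))) =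
            finrank D V := by
          exact_mod_cast e2.trans e3
        push_cast
        linarith
      · simp
      · simp only [Finset.mem_Ioc, Finset.mem_insert]
        omega
  simp only [h1, key B, finrank_top, sub_self]

end

end Pool.Agent.Lib.MP_c37a72_al.NI.WTAM

namespace Pool.Agent.Lib.MP_c37a72_al.NI

open WTAM

universe v

theorem specWTA : SpecWTA.{v} := by
  refine ⟨?_, ?_, ?_⟩
  · intro A V _ _ _ n
    exact ⟨anti n, fun b hb => ⟨⟨b, hb⟩, bot_of n b hb, top_of n b hb⟩, le_range n, up n,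
      equiv_map n⟩
  · intro A A' V V' _ _ _ _ _ _ n n' φ h a x hx
    exact wt_map n n' φ h hx
  · intro D V _ _ _ _ n B hB
    exact ⟨isFil n B hB, deg_eq n B hB⟩

end Pool.Agent.Lib.MP_c37a72_al.NI
end
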