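import Pool.Agent.Lib.MP_c37a72_al.NI.SpecC

/-!
# XSD: the other side
-/

set_option autoImplicit false

open Module

namespace Pool.Agent.Lib.MP_c37a72_al.NI

universe u v w

namespace XSDM

section Abs

variable {K M S : Type v} [Field K] [Ring M] [Algebra K M] [AddCommGroup S] [Module K S]

theorem fr_map (W : Submodule K S) (X : Submodule K W) :
    finrank K (X.map W.subtype) = finrank K X := Submodule.finrank_map_subtype_eq W X

theorem deg_comap (B : ℕ) (F : ℤ → Submodule K S)
    (W : Submodule K S) : deg B (fun c => (F c).comap W.subtype) ⊤ = deg B F W := by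
  unfold deg
  rw [finrank_top]
  congr 1
  refine Finset.sum_congr rfl fun c _ => ?_
  rw [top_inf_eq, ← fr_map, Submodule.map_comap_subtype]

theorem fil_comap {B : ℕ} {F : ℤ → Submodule K S}
    (hF : IsFil B F) (W : Submodule K S) : IsFil B (fun c => (F c).comap W.subtype) := by
  refine ⟨?_, ?_, ?_⟩
  · intro c d h
    exact Submodule.comap_mono (hF.anti h)
  · intro c hc
    show (F c).comap W.subtype = ⊤
    rw [hF.top c hc, Submodule.comap_top]
  · intro c hc
    show (F c).comap W.subtype = ⊥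
    rw [hF.bot c hc, Submodule.comap_bot, Submodule.ker_subtype]

theorem deg_le [Module.Finite K S] (B : ℕ) (W : Submodule K S) (P : ℤ → Submodule K W)
    (X : Submodule K W) (F : ℤ → Submodule K S) (hP : ∀ c, (P c).map W.subtype ≤ F c) :
    deg B P X ≤ deg B F (X.map W.subtype) := by
  unfold deg
  rw [fr_map]
  refine sub_le_sub_right ?_ _
  refine Finset.sum_le_sum fun c _ => ?_
  have h1 : (X ⊓ P c).map W.subtype ≤ X.map W.subtype ⊓ F c :=
    le_inf (Submodule.map_mono inf_le_left) ((Submodule.map_mono inf_le_right).trans (hP c))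
  have h2 := Submodule.finrank_mono h1
  rw [fr_map] at h2
  exact_mod_cast h2

theorem wt_comm (n e : Module.End K S)
    (h : ∀ x, e (n x) = n (e x)) {c : ℤ} {x : S} (hx : x ∈ wt n c) : e x ∈ wt n c :=
  wt_map n n e.toAddMonoidHom h hx

/-- The restriction of `r` to `W`. -/
def rr (r : M →+* Module.End K S) (W : Submodule K S)
    (hW : ∀ z ∈ W, ∀ m, r m z ∈ W) : M →+* Module.End K W where
  toFun m := (r m).restrict (fun z hz => hW z hz m)
  map_one' := by
    refine LinearMap.ext fun z => Subtype.ext ?_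
    show r 1 (z : S) = z
    rw [map_one]
    rfl
  map_mul' m m' := by
    refine LinearMap.ext fun z => Subtype.ext ?_
    show r (m * m') (z : S) = r m (r m' (z : S))
    rw [map_mul]
    rfl
  map_zero' := by
    refine LinearMap.ext fun z => Subtype.ext ?_
    show r 0 (z : S) = 0
    rw [map_zero]
    rfl
  map_add' m m' := by
    refine LinearMap.ext fun z => Subtype.ext ?_
    show r (m + m') (z : S) = r m (z : S) + r m' (z : S)
    rw [map_add]
    rfl

theorem map_prd (r : M →+* Module.End K S) (W : Submodule K S)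
    (hW : ∀ z ∈ W, ∀ m, r m z ∈ W) (Y : Submodule K M) (G : Submodule K S) :
    (prd (rr r W hW) Y (G.comap W.subtype)).map W.subtype = prd r Y (W ⊓ G) := by
  unfold prd
  rw [Submodule.map_span]
  congr 1
  ext z
  constructor
  · rintro ⟨_, ⟨y, hy, w, hw, rfl⟩, rfl⟩
    exact ⟨y, hy, w, ⟨w.2, hw⟩, rfl⟩
  · rintro ⟨y, hy, w, hw, rfl⟩
    exact ⟨rr r W hW y ⟨w, hw.1⟩, ⟨y, hy, ⟨w, hw.1⟩, hw.2, rfl⟩, rfl⟩

theorem prd_top (r : M →+* Module.End K S) (W : Submodule K S)
    (hW : ∀ z ∈ W, ∀ m, r m z ∈ W) (Y : Submodule K M) :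
    (prd (rr r W hW) Y ⊤).map W.subtype = prd r Y W := by
  have h := map_prd r W hW Y ⊤
  rw [Submodule.comap_top, inf_top_eq] at h
  exact h

/-- `β(m, z) = r(m) z`. -/
def bb (r : M →+* Module.End K S) : M →+ S →+ S where
  toFun m := (r m).toAddMonoidHom
  map_zero' := by
    refine AddMonoidHom.ext fun z => ?_
    show r 0 z = 0
    rw [map_zero]
    rfl
  map_add' m m' := by
    refine AddMonoidHom.ext fun z => ?_
    show r (m + m') z = r m z + r m' z
    rw [map_add]
    rfl

/-- The statement for an arbitrary space `S`. -/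
theorem abs (hWTA : SpecWTA.{v}) (hTWT : SpecTWT.{v}) (hWED : SpecWED.{v}) [CharZero K]
    [Module.Finite K M] [IsSimpleRing M] [Module.Finite K S] (r : M →+* Module.End K S) (s : M)
    (A T : Module.End K S) (B : ℕ) (W : Submodule K S) (Y : Submodule K M)
    (hs : s ^ B = 0) (hA : A ^ B = 0) (hrA : ∀ m z, r m (A z) = A (r m z))
    (hT : ∀ m z, T (r m z) = r (s * m) z + r m (A z)) (hW : ∀ z ∈ W, ∀ m, r m z ∈ W)
    (hY : ∀ y ∈ Y, ∀ m, y * m ∈ Y) :
    prd r Y W ≤ W ∧ finrank K M * finrank K (prd r Y W) = finrank K Y * finrank K W ∧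
    finrank K W * deg B (wt (LinearMap.mulLeft K s)) Y + finrank K Y * deg B (wt A) W ≤
      finrank K M * deg (2 * B) (wt T) (prd r Y W) := by
  obtain ⟨-, -, hC⟩ := hWTA
  have hR : IsFil B (wt (LinearMap.mulLeft K s)) := by
    refine (hC K M (LinearMap.mulLeft K s) B ?_).1
    rw [LinearMap.pow_mulLeft, hs, LinearMap.mulLeft_zero_eq_zero]
  have hFA : IsFil B (wt A) := (hC K S A B hA).1
  have hRr : ∀ c, ∀ y ∈ wt (LinearMap.mulLeft K s) c, ∀ m : M,
      y * m ∈ wt (LinearMap.mulLeft K s) c := by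
    intro c y hy m
    exact wt_map (LinearMap.mulLeft K s) (LinearMap.mulLeft K s) (AddMonoidHom.mulRight m)
      (fun x => by simp [mul_assoc]) hy
  have hGr : ∀ c, ∀ w ∈ (wt A c).comap W.subtype, ∀ m : M,
      rr r W hW m w ∈ (wt A c).comap W.subtype := by
    intro c w hw m
    exact wt_comm A (r m) (hrA m) (x := (w : S)) hw
  obtain ⟨-, hW2, hW3⟩ := hWED K M W (rr r W hW) B (wt (LinearMap.mulLeft K s))
    (fun c => (wt A c).comap W.subtype) hR (fil_comap hFA W) hRr hGr Y hY
  have hmap := prd_top r W hW Y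
  refine ⟨?_, ?_, ?_⟩
  · rw [← hmap]
    exact Submodule.map_subtype_le W _
  · rw [← hmap, fr_map]
    exact hW2
  · rw [deg_comap B (wt A) W] at hW3
    rw [← hW3]
    refine mul_le_mul_of_nonneg_left ?_ (Int.natCast_nonneg _)
    rw [← hmap]
    refine deg_le (2 * B) W _ _ (wt T) ?_
    intro c
    let _ : Module ℚ S := Module.compHom S (algebraMap ℚ K)
    rw [Submodule.map_iSup]
    refine iSup_le fun b => ?_
    rw [map_prd]
    unfold prd
    rw [Submodule.span_le]
    rintro _ ⟨y, hy, w, hw, rfl⟩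
    have h := hTWT K K K M S S (LinearMap.mulLeft K s) A T (bb r)
      (fun x z => hT x z) b (c - b) y w hy hw.2
    rw [add_sub_cancel] at h
    exact h

end Abs

section

variable {K M : Type v} [Field K] [Ring M] [Algebra K M] {n : ℕ}

theorem mop_mul (P Q : Matrix (Fin n) (Fin n) M) (z : Fin n → M) :
    mop K (P * Q) z = mop K P (mop K Q z) := by
  funext i
  simp only [mop_apply, smul_eq_mul, Matrix.mul_apply, Finset.sum_mul, Finset.mul_sum]
  rw [Finset.sum_comm]
  refine Finset.sum_congr rfl fun j _ => Finset.sum_congr rfl fun l _ => ?_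
  rw [mul_assoc]

theorem mop_add (P Q : Matrix (Fin n) (Fin n) M) (z : Fin n → M) :
    mop K (P + Q) z = mop K P z + mop K Q z := by
  funext i
  simp only [mop_apply, smul_eq_mul, Matrix.add_apply, add_mul, Pi.add_apply,
    Finset.sum_add_distrib]

theorem mop_one (z : Fin n → M) : mop K (1 : Matrix (Fin n) (Fin n) M) z = z := by
  funext i
  simp only [mop_apply, smul_eq_mul, Matrix.one_apply]
  rw [Finset.sum_eq_single i]
  · simp
  · intro j _ hj
    simp [Ne.symm hj]
  · intro h
    exact absurd (Finset.mem_univ _) h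

theorem mop_zero (z : Fin n → M) : mop K (0 : Matrix (Fin n) (Fin n) M) z = 0 := by
  funext i
  simp [mop_apply]

theorem mop_pow (P : Matrix (Fin n) (Fin n) M) (B : ℕ) :
    (mop K P : Module.End K (Fin n → M)) ^ B = mop K (P ^ B) := by
  induction B with
  | zero =>
    refine LinearMap.ext fun z => ?_
    rw [pow_zero, pow_zero, mop_one]
    rfl
  | succ B ih =>
    refine LinearMap.ext fun z => ?_
    rw [pow_succ, pow_succ, ih, mop_mul]
    rfl

theorem mop_comm {P Q : Matrix (Fin n) (Fin n) M} (h : P * Q = Q * P) (z : Fin n → M) :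
    mop K P (mop K Q z) = mop K Q (mop K P z) := by
  rw [← mop_mul, ← mop_mul, h]

/-- `ρ` as a representation on `M^n`. -/
def r0 (K : Type v) [Field K] [Algebra K M] (ρ : M →+* Matrix (Fin n) (Fin n) M) :
    M →+* Module.End K (Fin n → M) where
  toFun m := mop K (ρ m)
  map_one' := by
    refine LinearMap.ext fun z => ?_
    rw [map_one, mop_one]
    rfl
  map_mul' m m' := by
    refine LinearMap.ext fun z => ?_
    rw [map_mul, mop_mul]
    rfl
  map_zero' := by
    refine LinearMap.ext fun z => ?_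
    rw [map_zero, mop_zero]
    rfl
  map_add' m m' := by
    refine LinearMap.ext fun z => ?_
    rw [map_add, mop_add]
    rfl

theorem r0_apply (ρ : M →+* Matrix (Fin n) (Fin n) M) (m : M) (z : Fin n → M) :
    r0 K ρ m z = mop K (ρ m) z := rfl

theorem prm_eq (ρ : M →+* Matrix (Fin n) (Fin n) M) (Y : Submodule K M)
    (W : Submodule K (Fin n → M)) : prm ρ Y W = prd (r0 K ρ) Y W := rfl

end

end XSDM

open XSDM in
theorem specXSD (hWTA : SpecWTA.{v}) (hTWT : SpecTWT.{v}) (hWED : SpecWED.{v}) : SpecXSD.{v} := by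
  intro K M _ _ _ _ _ _ n B ρ s a W Y hs ha hρa hW hY
  rw [prm_eq]
  refine abs hWTA hTWT hWED (r0 K ρ) s (mop K a) (mop K (ρ s + a)) B W Y hs ?_ ?_ ?_ hW hY
  · rw [mop_pow, ha]
    exact LinearMap.ext fun z => mop_zero z
  · intro m z
    exact mop_comm (hρa m) z
  · intro m z
    rw [r0_apply, r0_apply, r0_apply, ← mop_mul, ← mop_mul, add_mul, mop_add, map_mul, hρa]

end Pool.Agent.Lib.MP_c37a72_al.NI
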