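import Mathlib

/-!
# MP_c37a72_al, block NI (nilpotent step): definitions, pure linear algebra

Text: `/team-store/MP_c37a72_NIL.md`.

* `IsFil B F`: `F` is a decreasing filtration of `V` by `D`-subspaces, indexed by `ℤ`, equal to `⊤` for
  `a ≤ -B` and to `⊥` for `a > B`;
* `deg B F W = ∑_a a · dim gr^a (W ∩ F)` (Abel summation), the degree of the subspace `W`;
* `wsum B F g = ∑_a g(a) · dim gr^a F`;
* `Adp F b w`: the basis `b` with weights `w` is adapted to `F`;
* `box F G c = ∑_a F a ∩ G (c - a)`;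
* `IsBal L β`: `S = X ⊗_Q V`, where `X` is a right `Q`-space, `V` a `K`-space with left action `L` of `Q`;
* `conv β F G c = ∑_a F a ⊗ G (c - a)`;
* `wt n a`: the weight filtration of the nilpotent operator `n`;
* `IsMx l B M μ V1`: `V1` is the largest subspace of maximal slope `μ` for the family `M t` along `l`;
* `gen k R`: the filter of the nonempty Zariski open subsets of `k^R`;
* `mop E P`: the operator of `B^n` given by a matrix `P` over `A`, `B` a left `A`-module;
* `ulog x`: the logarithm of `1 + x`, `x` nilpotent.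
-/

set_option autoImplicit false

open Module

namespace Pool.Agent.Lib.MP_c37a72_al.NI

universe u v w

section Fil

variable {D : Type u} {V : Type v} [DivisionRing D] [AddCommGroup V] [Module D V]

/-- A decreasing filtration, `⊤` for `a ≤ -B`, `⊥` for `a > B`. -/
structure IsFil (B : ℕ) (F : ℤ → Submodule D V) : Prop where
  anti : Antitone F
  top : ∀ a : ℤ, a ≤ -(B : ℤ) → F a = ⊤
  bot : ∀ a : ℤ, (B : ℤ) < a → F a = ⊥

/-- The degree `∑_a a · dim gr^a (W ∩ F)` of `W`. -/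
noncomputable def deg (B : ℕ) (F : ℤ → Submodule D V) (W : Submodule D V) : ℤ :=
  ∑ a ∈ Finset.Ioc (-(B : ℤ)) B, (finrank D ↥(W ⊓ F a) : ℤ) - B * finrank D W

/-- `∑_a g(a) · dim gr^a F`. -/
noncomputable def wsum (B : ℕ) (F : ℤ → Submodule D V) (g : ℤ → ℤ) : ℤ :=
  ∑ a ∈ Finset.Icc (-(B : ℤ)) B, g a * ((finrank D (F a) : ℤ) - finrank D (F (a + 1)))

/-- The basis `b` with weights `w` is adapted to `F`. -/
def Adp {ι : Type*} (F : ℤ → Submodule D V) (b : Basis ι D V) (w : ι → ℤ) : Prop :=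
  ∀ c, F c = Submodule.span D (b '' {i | c ≤ w i})

/-- `∑_a F a ∩ G (c - a)`. -/
def box (F G : ℤ → Submodule D V) (c : ℤ) : Submodule D V :=
  ⨆ a, F a ⊓ G (c - a)

/-- `V1` is the largest subspace of maximal slope `μ` for the family `M t`, along the filter `l`. -/
structure IsMx {𝒯 : Type w} (l : Filter 𝒯) (B : ℕ) (M : 𝒯 → ℤ → Submodule D V) (μ : ℚ)
    (V1 : Submodule D V) : Prop where
  ne : V1 ≠ ⊥
  eq : ∀ᶠ t in l, (deg B (M t) V1 : ℚ) = μ * finrank D V1
  le : ∀ W : Submodule D V, ∀ᶠ t in l, (deg B (M t) W : ℚ) ≤ μ * finrank D W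
  lt : ∀ W : Submodule D V, ¬ W ≤ V1 → ∀ᶠ t in l, (deg B (M t) W : ℚ) < μ * finrank D W

end Fil

section Bal

variable {Q : Type u} {K X V S : Type v} [DivisionRing Q] [Field K] [AddCommGroup X]
  [Module Qᵐᵒᵖ X] [AddCommGroup V] [Module K V] [AddCommGroup S] [Module K S]

/-- `S = X ⊗_Q V` through `β`: `X` is a right `Q`-space, `V` a `K`-space with a left action `L` of `Q`. -/
structure IsBal (L : Q →+* Module.End K V) (β : X →+ V →ₗ[K] S) : Prop where
  bal : ∀ (x : X) (q : Q) (v : V), β (MulOpposite.op q • x) v = β x (L q v)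
  bij : ∀ (n : ℕ) (b : Basis (Fin n) Qᵐᵒᵖ X),
    Function.Bijective fun v : Fin n → V => ∑ i, β (b i) (v i)

/-- `V'` is stable under `L`. -/
def LSt (L : Q →+* Module.End K V) (V' : Submodule K V) : Prop :=
  ∀ q, ∀ v ∈ V', L q v ∈ V'

/-- The span of the `β x v`, `x ∈ X'`, `v ∈ V'`. -/
def tns (β : X →+ V →ₗ[K] S) (X' : Submodule Qᵐᵒᵖ X) (V' : Submodule K V) : Submodule K S :=
  Submodule.span K {s | ∃ x ∈ X', ∃ v ∈ V', s = β x v}

/-- `∑_a F a ⊗ G (c - a)`. -/
def conv (β : X →+ V →ₗ[K] S) (F : ℤ → Submodule Qᵐᵒᵖ X) (G : ℤ → Submodule K V) (c : ℤ) :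
    Submodule K S :=
  ⨆ a, tns β (F a) (G (c - a))

end Bal

section Wt

/-- The weight filtration of a nilpotent operator: `∑_{i ≥ max(0,a)} n^i ker n^(2i+1-a)`. -/
def wt {A : Type u} {V : Type v} [Ring A] [AddCommGroup V] [Module A V] (n : Module.End A V)
    (a : ℤ) : Submodule A V :=
  ⨆ (i : ℕ) (_ : a ≤ (i : ℤ)),
    (LinearMap.ker (n ^ (2 * (i : ℤ) + 1 - a).toNat)).map (n ^ i)

theorem wt_gen {A : Type u} {V : Type v} [Ring A] [AddCommGroup V] [Module A V]
    (n : Module.End A V) {a : ℤ} {i m : ℕ} (ha : a ≤ i) (hm : (m : ℤ) ≤ 2 * i + 1 - a) {x : V}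
    (hx : (n ^ m) x = 0) : (n ^ i) x ∈ wt n a := by
  refine Submodule.mem_iSup_of_mem i (Submodule.mem_iSup_of_mem ha ?_)
  refine ⟨x, ?_, rfl⟩
  have h1 : m ≤ (2 * (i : ℤ) + 1 - a).toNat := by omega
  obtain ⟨d, hd⟩ := Nat.exists_eq_add_of_le' h1
  show (n ^ (2 * (i : ℤ) + 1 - a).toNat) x = 0
  rw [hd, pow_add, Module.End.mul_apply, hx, map_zero]

/-- Induction on `wt n a`. -/
theorem wt_induction {A : Type u} {V : Type v} [Ring A] [AddCommGroup V] [Module A V]
    (n : Module.End A V) {a : ℤ} {p : V → Prop}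
    (h1 : ∀ (i m : ℕ) (x : V), a ≤ i → (m : ℤ) = 2 * i + 1 - a → (n ^ m) x = 0 → p ((n ^ i) x))
    (h0 : p 0) (h2 : ∀ x y, p x → p y → p (x + y)) {x : V} (hx : x ∈ wt n a) : p x := by
  unfold wt at hx
  induction hx using Submodule.iSup_induction' with
  | mem i x hx =>
    induction hx using Submodule.iSup_induction' with
    | mem hi x hx =>
      obtain ⟨y, hy, rfl⟩ := hx
      exact h1 i (2 * (i : ℤ) + 1 - a).toNat y hi (Int.toNat_of_nonneg (by omega)) hy
    | zero => exact h0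
    | add x y _ _ hx hy => exact h2 x y hx hy
  | zero => exact h0
  | add x y _ _ hx hy => exact h2 x y hx hy

/-- The weight filtration is functorial (for additive maps). -/
theorem wt_map {A : Type*} {V : Type*} [Ring A] [AddCommGroup V] [Module A V] {A' : Type*}
    {V' : Type*} [Ring A'] [AddCommGroup V'] [Module A' V'] (n : Module.End A V)
    (n' : Module.End A' V') (φ : V →+ V') (h : ∀ x, φ (n x) = n' (φ x)) {a : ℤ} {x : V}
    (hx : x ∈ wt n a) : φ x ∈ wt n' a := by
  have hp : ∀ (m : ℕ) (x : V), φ ((n ^ m) x) = (n' ^ m) (φ x) := by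
    intro m
    induction m with
    | zero => intro x; simp
    | succ m ih => intro x; rw [pow_succ, Module.End.mul_apply, ih, h, pow_succ,
        Module.End.mul_apply]
  refine wt_induction n (p := fun x => φ x ∈ wt n' a) (fun i m y hi hm hy => ?_) ?_ ?_ hx
  · show φ ((n ^ i) y) ∈ _
    rw [hp]
    exact wt_gen n' hi hm.le (by rw [← hp, hy, map_zero])
  · show φ 0 ∈ _
    rw [map_zero]
    exact Submodule.zero_mem _
  · intro x y hx hy
    show φ (x + y) ∈ _
    rw [map_add]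
    exact Submodule.add_mem _ hx hy

/-- The operator `v ↦ (i ↦ ∑ j, P i j • v j)` of `B^n`, `P` a matrix over `A`, `E`-linear. -/
def mop {A B : Type*} (E : Type*) [Ring A] [Ring E] [AddCommGroup B] [Module A B] [Module E B]
    [SMulCommClass A E B] {n : ℕ} (P : Matrix (Fin n) (Fin n) A) : Module.End E (Fin n → B) where
  toFun v i := ∑ j, P i j • v j
  map_add' v v' := by
    funext i
    simp [Finset.sum_add_distrib]
  map_smul' e v := by
    funext i
    simp only [Pi.smul_apply, RingHom.id_apply, Finset.smul_sum]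
    exact Finset.sum_congr rfl fun j _ => smul_comm _ _ _

@[simp] theorem mop_apply {A B : Type*} (E : Type*) [Ring A] [Ring E] [AddCommGroup B] [Module A B]
    [Module E B] [SMulCommClass A E B] {n : ℕ} (P : Matrix (Fin n) (Fin n) A) (v : Fin n → B)
    (i : Fin n) : mop E P v i = ∑ j, P i j • v j := rfl

end Wt

section Gen

/-- The filter of the subsets of `k^R` which contain a nonempty principal Zariski open subset. -/
def gen (k : Type u) [Field k] (R : ℕ) : Filter (Fin R → k) where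
  sets := {s | ∃ f : MvPolynomial (Fin R) k, f ≠ 0 ∧ ∀ t, MvPolynomial.eval t f ≠ 0 → t ∈ s}
  univ_sets := ⟨1, one_ne_zero, fun t _ => Set.mem_univ t⟩
  sets_of_superset := fun {x y} ⟨f, hf, h⟩ hxy => ⟨f, hf, fun t ht => hxy (h t ht)⟩
  inter_sets := fun {x y} ⟨f, hf, h⟩ ⟨g, hg, h'⟩ => ⟨f * g, mul_ne_zero hf hg, fun t ht => by
    rw [map_mul] at ht
    exact ⟨h t (left_ne_zero_of_mul ht), h' t (right_ne_zero_of_mul ht)⟩⟩

theorem mem_gen {k : Type u} [Field k] {R : ℕ} {s : Set (Fin R → k)} :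
    s ∈ gen k R ↔ ∃ f : MvPolynomial (Fin R) k, f ≠ 0 ∧ ∀ t, MvPolynomial.eval t f ≠ 0 → t ∈ s :=
  Iff.rfl

instance gen_neBot {k : Type u} [Field k] [Infinite k] {R : ℕ} : (gen k R).NeBot := by
  constructor
  intro h
  have h1 : (∅ : Set (Fin R → k)) ∈ gen k R := by rw [h]; exact Filter.mem_bot
  obtain ⟨f, hf, h2⟩ := mem_gen.1 h1
  apply hf
  apply MvPolynomial.funext
  intro t
  rw [map_zero]
  by_contra h3
  exact h2 t h3

end Gen

section Log

/-- `log (1 + x) = ∑_{j ≥ 0} (-1)^j x^(j+1) / (j+1)`, `x` nilpotent (`0` otherwise). -/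
noncomputable def ulog {A : Type u} [Ring A] [Algebra ℚ A] (x : A) : A :=
  ∑ j ∈ Finset.range (nilpotencyClass x), ((-1 : ℚ) ^ j / (j + 1)) • x ^ (j + 1)

end Log

end Pool.Agent.Lib.MP_c37a72_al.NI
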