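import Pool.Agent.Lib.MP_c37a72_al.NI.Spec

set_option autoImplicit false

open Module

namespace Pool.Agent.Lib.MP_c37a72_al.NI

universe u v w

namespace GRRM

variable {Z V : Type v} [Field Z] [AddCommGroup V] [Module Z V] [Module.Finite Z V]

/-- the generic matrix of the power -/
noncomputable def P {R : ℕ} (n : Fin R → Module.End Z V) (m : ℕ) :
    Matrix (Fin (finrank Z V)) (Fin (finrank Z V)) (MvPolynomial (Fin R) Z) :=
  (∑ i, (MvPolynomial.X i : MvPolynomial (Fin R) Z) •
    (LinearMap.toMatrix (Module.finBasis Z V) (Module.finBasis Z V) (n i)).map MvPolynomial.C) ^ m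

lemma P_map {R : ℕ} (n : Fin R → Module.End Z V) (m : ℕ) (x : Fin R → Z) :
    (P n m).map (MvPolynomial.eval x) =
      LinearMap.toMatrix (Module.finBasis Z V) (Module.finBasis Z V) ((∑ i, x i • n i) ^ m) := by
  unfold P
  have h1 : ∀ A : Matrix (Fin (finrank Z V)) (Fin (finrank Z V)) (MvPolynomial (Fin R) Z),
      A.map (MvPolynomial.eval x) = (MvPolynomial.eval x).mapMatrix A := fun A => rfl
  rw [h1, map_pow, map_sum]
  have h2 : ∀ f : Module.End Z V, LinearMap.toMatrix (Module.finBasis Z V) (Module.finBasis Z V) (f ^ m) =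
      (LinearMap.toMatrix (Module.finBasis Z V) (Module.finBasis Z V) f) ^ m := by
    intro f
    exact map_pow (LinearMap.toMatrixAlgEquiv (Module.finBasis Z V)) f m
  rw [h2, map_sum]
  congr 1
  refine Finset.sum_congr rfl fun i _ => ?_
  rw [LinearEquiv.map_smul, ← h1]
  ext a c
  simp only [Matrix.map_apply, Matrix.smul_apply, smul_eq_mul, map_mul, MvPolynomial.eval_X,
    MvPolynomial.eval_C]

lemma rk {R : ℕ} (n : Fin R → Module.End Z V) (m : ℕ) (x : Fin R → Z) :
    ((P n m).map (MvPolynomial.eval x)).rank = finrank Z (LinearMap.range ((∑ i, x i • n i) ^ m)) := by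
  rw [P_map, Matrix.rank_eq_finrank_range_toLin _ (Module.finBasis Z V) (Module.finBasis Z V),
    Matrix.toLin_toMatrix]

end GRRM

theorem specGRR (hGRK : SpecGRK.{u, v}) : SpecGRR.{u, v} := by
  intro k Z V _ _ _ _ _ _ _ R n m
  obtain ⟨h1, h2⟩ := hGRK k Z
  obtain ⟨r, g, hg, hle, heq⟩ := h1 R _ _ (GRRM.P n m)
  have h3 := h2 R R 1 (fun v => ⟨v, by rw [Matrix.one_mulVec]⟩) g hg
  filter_upwards [h3] with t ht t'
  rw [Matrix.one_mulVec] at ht
  have h4 := heq _ ht
  have h5 := hle (fun i => algebraMap k Z (t' i))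
  rw [GRRM.rk] at h4 h5
  rw [h4]
  exact h5

end Pool.Agent.Lib.MP_c37a72_al.NI
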