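import Pool.Agent.Lib.MP_c37a72_al.NI.Base

/-!
# MP_c37a72_al, block NI (nilpotent step), part 1: pure linear algebra

Text: `/team-store/MP_c37a72_NIL.md`, sections 1, 2, 3. Module `XXX` is the file
`Pool/Agent/Lib/MP_c37a72_al/NI/XXX.lean`, which imports `Pool.Agent.Lib.MP_c37a72_al.NI.Spec`, with
`theorem specXXX (hYYY : SpecYYY) .. : SpecXXX`; every Spec of this file may be taken as a hypothesis; own
lemmas in the namespace `Pool.Agent.Lib.MP_c37a72_al.NI.XXXM`. The Specs are universe polymorphic; if a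
module needs a Spec in other universes, take it as `SpecYYY.{a, b}` and mention it.
-/

set_option autoImplicit false

open Module

namespace Pool.Agent.Lib.MP_c37a72_al.NI

universe u v w

/-! ## Filtrations and degrees -/

/-- **ADB** (150 lines). Two filtrations have a common adapted basis.

PROOF. Induction on `dim V` (state it for every `B`, and first with an arbitrary finite index type or with
`∃ n, Basis (Fin n)`; `finrank` fixes `n`). `V = 0`: trivial. `V ≠ 0`: let `a` be maximal with `F a ≠ ⊥`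
(exists by `top`, `bot`), `0 ≠ e ∈ F a`, and `c` maximal with `e ∈ G c` (`-B ≤ c ≤ B`). On `V / ⟨e⟩` take the
filtrations `(F x).map mkQ`, `(G x).map mkQ` (they satisfy `IsFil B`); induction gives a basis `ū_i` with
weights `p_i, q_i`. Here `ū_i ∈ F̄(p_i) ∩ Ḡ(q_i)`, `ū_i ≠ 0`, so `F (p_i) ≠ ⊥`, `p_i ≤ a`, so `e ∈ F (p_i)` and
every lift of `ū_i` is in `F (p_i)`; choose the lift `u_i` in `G (q_i)`. The basis is `e, u_i` with weights
`(a, c)`, `(p_i, q_i)`. Adapted to `F`: `x ≤ a`: `e ∈ F x`, so `F x` is the preimage of `F̄ x`, which is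
the span of the `ū_i`, `p_i ≥ x`; `x > a`: `F x = ⊥` and no weight is `≥ x`. Adapted to `G`: `x ≤ c` the same;
`x > c`: `⊇` is clear (`G` antitone); `⊆`: `v ∈ G x`, modulo the `u_i`, `q_i ≥ x` (they are in `G x`), `v` is a
multiple of `e` in `G x`, so `0` since `e ∉ G x`. -/
def SpecADB : Prop :=
  ∀ (D : Type v) (V : Type v) [DivisionRing D] [AddCommGroup V] [Module D V] [Module.Finite D V]
    (B : ℕ) (F G : ℤ → Submodule D V), IsFil B F → IsFil B G →
    ∃ (b : Basis (Fin (finrank D V)) D V) (p q : Fin (finrank D V) → ℤ), Adp F b p ∧ Adp G b q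

/-- **FDA** (250 lines). Weights and degrees.

PROOF. (1) `b i ∈ F (p i) ≠ ⊥`, and `F (-B) = ⊤ = span (b '' {i | -B ≤ p i})`. (2) `F a = span (b '' ..)` has
dimension `#{i | a ≤ p i}`, and `span (b '' J) ∩ F a = span (b '' (J ∩ {i | a ≤ p i}))`. So
`deg = ∑_{i ∈ J} (#{a ∈ (-B, B] | a ≤ p i} - B) = ∑_{i ∈ J} p i`. (3) `dim F a - dim F (a+1) = #{i | p i = a}`;
exchange the sums. (4) the new summands are `dim W` (`B' - B` of them, negative `a`) and `0`. (5) termwise.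
(6) `dim (W ∩ F a) ≥ #{i | a ≤ c i}`, `W = span (range x)`, `c i ≤ B` since `x i ≠ 0`; so
`deg ≥ ∑_i (#{a ∈ (-B, B] | a ≤ c i} - B) ≥ ∑ c i`. (7) ADB for the space `W` with the filtrations
`(F a).comap W.subtype`, `(G a).comap W.subtype`, then (2) with `J = univ`
(`deg B (comap) ⊤ = deg B F W`). -/
def SpecFDA : Prop :=
  ∀ (D : Type v) (V : Type v) [DivisionRing D] [AddCommGroup V] [Module D V] [Module.Finite D V]
    (B : ℕ) (F : ℤ → Submodule D V), IsFil B F →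
    (∀ (ι : Type) [Fintype ι] (b : Basis ι D V) (p : ι → ℤ), Adp F b p →
      (∀ i, -(B : ℤ) ≤ p i ∧ p i ≤ B) ∧
      (∀ J : Finset ι, deg B F (Submodule.span D (b '' (J : Set ι))) = ∑ i ∈ J, p i) ∧
      deg B F ⊤ = ∑ i, p i ∧
      ∀ g : ℤ → ℤ, wsum B F g = ∑ i, g (p i)) ∧
    (∀ (B' : ℕ) (W : Submodule D V), B ≤ B' → deg B' F W = deg B F W) ∧
    (∀ (F' : ℤ → Submodule D V) (W : Submodule D V), (∀ a, F a ≤ F' a) →
      deg B F W ≤ deg B F' W) ∧
    (∀ (ι : Type) [Fintype ι] (x : ι → V) (c : ι → ℤ), LinearIndependent D x →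
      (∀ i, x i ∈ F (c i)) → ∑ i, c i ≤ deg B F (Submodule.span D (Set.range x))) ∧
    (∀ (G : ℤ → Submodule D V), IsFil B G → ∀ W : Submodule D V,
      ∃ (x : Fin (finrank D W) → V) (c d : Fin (finrank D W) → ℤ), LinearIndependent D x ∧
        Submodule.span D (Set.range x) = W ∧ (∀ i, x i ∈ F (c i)) ∧ (∀ i, x i ∈ G (d i)) ∧
        ∑ i, c i = deg B F W ∧ ∑ i, d i = deg B G W)

/-- **FDB** (200 lines). Degrees of sums, quotients, images.

PROOF. (1) `dim ((W ⊔ W') ∩ F a) + dim ((W ⊓ W') ∩ F a) ≥ dim (W ∩ F a) + dim (W' ∩ F a)`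
(`(W ∩ F a) ⊔ (W' ∩ F a) ≤ (W ⊔ W') ∩ F a`, `(W ∩ F a) ⊓ (W' ∩ F a) = (W ⊓ W') ∩ F a`, and
`Submodule.finrank_sup_add_finrank_inf_eq`). (2) `dim (W ∩ F a) = dim (W ∩ V1 ∩ F a) + dim` of the image of
`W ∩ F a` in `V / V1`, which is contained in `W̄ ∩ F̄ a`, with equality if `V1 ≤ W` (modular law); the same
for `W` itself instead of `W ∩ F a`. (3) `map` by an equivalence preserves `⊓` and `finrank`.
(4) `0 ≤ dim (W ∩ F a) ≤ dim W`, `2B` summands. (5) clear. -/
def SpecFDB : Prop :=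
  ∀ (D : Type v) (V : Type v) [DivisionRing D] [AddCommGroup V] [Module D V] [Module.Finite D V]
    (B : ℕ) (F : ℤ → Submodule D V), IsFil B F →
    (∀ W W' : Submodule D V, deg B F W + deg B F W' ≤ deg B F (W ⊔ W') + deg B F (W ⊓ W')) ∧
    (∀ V1 : Submodule D V, IsFil B (fun a => (F a).map V1.mkQ) ∧ ∀ W : Submodule D V,
      deg B F W ≤ deg B F (W ⊓ V1) + deg B (fun a => (F a).map V1.mkQ) (W.map V1.mkQ) ∧
      (V1 ≤ W → deg B F W = deg B F V1 + deg B (fun a => (F a).map V1.mkQ) (W.map V1.mkQ))) ∧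
    (∀ (V' : Type v) [AddCommGroup V'] [Module D V'] (e : V ≃ₗ[D] V') (W : Submodule D V),
      deg B (fun a => (F a).map (e : V →ₗ[D] V')) (W.map (e : V →ₗ[D] V')) = deg B F W) ∧
    (∀ W : Submodule D V, |deg B F W| ≤ B * finrank D W) ∧
    deg B F ⊥ = 0

/-- **MAX** (200 lines). Existence, uniqueness and stability of the maximal subspace of maximal slope, along
an ultrafilter `l`.

PROOF. Along an ultrafilter a bounded integer valued function is eventually constant (finitely many values):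
let `dg W` be the eventual value of `deg B (M t) W` (FDB (4)). The values `(dg W, dim W)` are in a finite set,
so the maximal slope `μ` of the `W ≠ ⊥` exists. `dg (W ⊔ W') + dg (W ⊓ W') ≥ dg W + dg W'` (FDB (1)): if
`W`, `W'` have slope `μ` then so has `W ⊔ W'` (`dg (W ⊓ W') ≤ μ dim (W ⊓ W')`, also for `⊥`). `V1` := a
subspace of slope `μ` of maximal dimension; every `W ≠ ⊥` of slope `μ` is in `V1`. `lt`: `W` not in `V1` is
`≠ ⊥`, its slope is `< μ`. Second part: by FDB (3) `V1.map e` has the same degree for every `t`, the same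
dimension, so by `lt` it is contained in `V1`. -/
def SpecMAX : Prop :=
  ∀ (D : Type v) (V : Type v) [DivisionRing D] [AddCommGroup V] [Module D V] [Module.Finite D V]
    [Nontrivial V] (𝒯 : Type w) (l : Ultrafilter 𝒯) (B : ℕ) (M : 𝒯 → ℤ → Submodule D V),
    (∀ t, IsFil B (M t)) →
    (∃ (μ : ℚ) (V1 : Submodule D V), IsMx (l : Filter 𝒯) B M μ V1) ∧
    ∀ (μ : ℚ) (V1 : Submodule D V), IsMx (l : Filter 𝒯) B M μ V1 → ∀ e : V ≃ₗ[D] V,
      (∀ t a, (M t a).map (e : V →ₗ[D] V) = M t a) → V1.map (e : V →ₗ[D] V) = V1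

/-! ## The tensor product theorem -/

section TenDefs

variable {Q : Type u} {K X V S : Type v} [DivisionRing Q] [Field K] [AddCommGroup X]
  [Module Qᵐᵒᵖ X] [AddCommGroup V] [Module K V] [AddCommGroup S] [Module K S]

variable (X) in
/-- A pair of filtrations of `X` and of `V`. -/
structure PP (L : Q →+* Module.End K V) where
  /-- bound -/
  B : ℕ
  /-- filtration of `X` -/
  FX : ℤ → Submodule Qᵐᵒᵖ X
  /-- filtration of `V` -/
  FV : ℤ → Submodule K V
  filX : IsFil B FX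
  filV : IsFil B FV
  st : ∀ a, LSt L (FV a)

/-- `|P|² = ∑_{ij} (a_i + b_j)²`. -/
noncomputable def PP.sq {L : Q →+* Module.End K V} (P : PP X L) : ℤ :=
  finrank K V * wsum P.B P.FX (fun a => a ^ 2) + 2 * (wsum P.B P.FX id * wsum P.B P.FV id) +
    finrank Qᵐᵒᵖ X * wsum P.B P.FV (fun a => a ^ 2)

/-- `f_m(P) = 2 m deg_P(S') - |P|²`. -/
noncomputable def fL {L : Q →+* Module.End K V} (β : X →+ V →ₗ[K] S) (m : ℕ) (S' : Submodule K S)
    (P : PP X L) : ℤ :=
  2 * m * deg (2 * P.B) (conv β P.FX P.FV) S' - P.sq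

end TenDefs

/-- **TPB** (200 lines). Tensor products of adapted bases.

PROOF. (1) `∑_ij k_ij β(x_i, y_j) = ∑_i β(x_i, ∑_j k_ij y_j)`: `bij` gives independence and spanning.
Adapted: `β(x, v)` with `x = ∑ x_i q_i ∈ F a` (only `i` with `p i ≥ a`), `v ∈ G (c - a)` is
`∑_i β(x_i, L(q_i) v)` with `L(q_i) v ∈ G (c - a) = span {y_j | q j ≥ c - a}`; conversely
`β(x_i, y_j)` with `p i + q j ≥ c` is in `tns (F (p i)) (G (c - p i))`. (2) the weights of `(i, j)` are in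
`[-(B + B'), B + B']` (FDA (1); take adapted bases from ADB). (3) bases of `X'` and `V'`, extended to bases of
`X`, `V` (for instance adapted bases of the filtrations `⊤ ⊇ X' ⊇ ⊥`), and (1): `tns β X' V'` is spanned by
the `β(x_i, y_j)` with `x_i ∈ X'`, `y_j ∈ V'`; the same bases give the last formula. -/
def SpecTPB : Prop :=
  ∀ (Q : Type v) (K X V S : Type v) [DivisionRing Q] [Field K] [AddCommGroup X] [Module Qᵐᵒᵖ X]
    [Module.Finite Qᵐᵒᵖ X] [AddCommGroup V] [Module K V] [Module.Finite K V] [AddCommGroup S]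
    [Module K S] (L : Q →+* Module.End K V) (β : X →+ V →ₗ[K] S), IsBal L β →
    Module.Finite K S ∧
    (∀ (n N : ℕ) (x : Basis (Fin n) Qᵐᵒᵖ X) (y : Basis (Fin N) K V),
      ∃ z : Basis (Fin n × Fin N) K S, (∀ i j, z (i, j) = β (x i) (y j)) ∧
      ∀ (F : ℤ → Submodule Qᵐᵒᵖ X) (G : ℤ → Submodule K V) (p : Fin n → ℤ) (q : Fin N → ℤ),
        (∀ a, LSt L (G a)) → Adp F x p → Adp G y q →
        Adp (conv β F G) z (fun ij => p ij.1 + q ij.2)) ∧
    (∀ (B B' : ℕ) (F : ℤ → Submodule Qᵐᵒᵖ X) (G : ℤ → Submodule K V), IsFil B F → IsFil B' G →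
      (∀ a, LSt L (G a)) → IsFil (B + B') (conv β F G)) ∧
    (∀ (X' : Submodule Qᵐᵒᵖ X) (V' : Submodule K V), LSt L V' →
      finrank K (tns β X' V') = finrank Qᵐᵒᵖ X' * finrank K V') ∧
    (∀ (X' : Submodule Qᵐᵒᵖ X) (V' : Submodule K V), LSt L V' →
      tns β X' (⊤ : Submodule K V) ⊓ tns β (⊤ : Submodule Qᵐᵒᵖ X) V' = tns β X' V')

/-- **TDG** (150 lines). The degree of a tensor product of subspaces.

PROOF. By FDA (7) (with `F = G`) `X'` has a basis `x_i` with weights `c_i`, `∑ c_i = deg X'`, extended to an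
adapted basis of `X`: better, take a common adapted basis (ADB) `x_i` of `X` for `F` and the filtration
`⊤ ⊇ X' ⊇ ⊥` (weights `0`, `1`), and the same for `V`. Then `tns β X' V'` is the span of the
`z (i, j)`, `i ∈ I`, `j ∈ J` (`I` = weight 1), and by FDA (2) its degree is
`∑_{I × J} (p i + q j) = #J ∑_I p + #I ∑_J q`. -/
def SpecTDG : Prop :=
  ∀ (Q : Type v) (K X V S : Type v) [DivisionRing Q] [Field K] [AddCommGroup X] [Module Qᵐᵒᵖ X]
    [Module.Finite Qᵐᵒᵖ X] [AddCommGroup V] [Module K V] [Module.Finite K V] [AddCommGroup S]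
    [Module K S] (L : Q →+* Module.End K V) (β : X →+ V →ₗ[K] S), IsBal L β →
    ∀ (B B' : ℕ) (F : ℤ → Submodule Qᵐᵒᵖ X) (G : ℤ → Submodule K V), IsFil B F → IsFil B' G →
    (∀ a, LSt L (G a)) → ∀ (X' : Submodule Qᵐᵒᵖ X) (V' : Submodule K V), LSt L V' →
    deg (B + B') (conv β F G) (tns β X' V') =
      finrank K V' * deg B F X' + finrank Qᵐᵒᵖ X' * deg B' G V'

/-- **BOX** (200 lines). The sum of two filtrations.

PROOF. (2) `box F G c` is the sum of the `span {b_i | p i ≥ a} ∩ span {b_i | q i ≥ c - a}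
= span {b_i | p i ≥ a, q i ≥ c - a}`; the union over `a` of these sets of indices is `{i | p i + q i ≥ c}`
(`a = p i`). (1) from (2) and ADB. (3) By FDA (7) `S'` has a basis `s_i` with
`s_i ∈ conv F G (c i) ∩ conv M N (d i)` and `∑ c i`, `∑ d i` the two degrees. By FDA (6) it is enough that
`conv F G c ∩ conv M N d ≤ conv (box F M) (box G N) (c + d)`: take common adapted bases `x_i` of `(F, M)`,
`y_j` of `(G, N)` (ADB); by TPB (1) `z (i, j)` is adapted to all three, with weights `p + q`, `p' + q'` and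
`(p + p') + (q + q')`. -/
def SpecBOX : Prop :=
  (∀ (D : Type v) (V : Type v) [DivisionRing D] [AddCommGroup V] [Module D V] [Module.Finite D V]
    (B B' : ℕ) (F G : ℤ → Submodule D V), IsFil B F → IsFil B' G →
    IsFil (B + B') (box F G) ∧
    ∀ (n : ℕ) (b : Basis (Fin n) D V) (p q : Fin n → ℤ), Adp F b p → Adp G b q →
      Adp (box F G) b (fun i => p i + q i)) ∧
  ∀ (Q : Type v) (K X V S : Type v) [DivisionRing Q] [Field K] [AddCommGroup X] [Module Qᵐᵒᵖ X]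
    [Module.Finite Qᵐᵒᵖ X] [AddCommGroup V] [Module K V] [Module.Finite K V] [AddCommGroup S]
    [Module K S] (L : Q →+* Module.End K V) (β : X →+ V →ₗ[K] S), IsBal L β →
    ∀ (B B' : ℕ) (F M : ℤ → Submodule Qᵐᵒᵖ X) (G N : ℤ → Submodule K V),
    IsFil B F → IsFil B G → IsFil B' M → IsFil B' N → (∀ a, LSt L (G a)) → (∀ a, LSt L (N a)) →
    (∀ a, LSt L (box G N a)) ∧
    ∀ S' : Submodule K S, deg (2 * B) (conv β F G) S' + deg (2 * B') (conv β M N) S' ≤
      deg (2 * (B + B')) (conv β (box F M) (box G N)) S'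

/-- **MXZ** (150 lines). `f_m` has a maximum.

PROOF. `f_m` is integer valued and the set of the `P` is not empty; a bound: `f_m(P) ≤ m² dim S'`. Adapted
bases `x_i` (weights `a_i`), `y_j` (weights `b_j`) of `P` (ADB), `z (i, j)` (TPB), `|P|² = ∑ (a_i + b_j)²`
(FDA (3)). Let `F := conv`, `d_c := dim F c - dim F (c+1) = #{(i,j) | a_i + b_j = c}`,
`s_c := dim (S' ∩ F c) - dim (S' ∩ F (c+1)) ≤ d_c` (`S' ∩ F c → F c / F (c+1)` has kernel `S' ∩ F (c+1)`).
`deg S' = ∑ c s_c` (Abel), `dim S' = ∑ s_c`, `|P|² = ∑ c² d_c`, so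
`f_m(P) = ∑ (2 m c s_c - c² d_c) ≤ ∑ (2 m c - c²) s_c ≤ m² ∑ s_c`. -/
def SpecMXZ : Prop :=
  ∀ (Q : Type v) (K X V S : Type v) [DivisionRing Q] [Field K] [AddCommGroup X] [Module Qᵐᵒᵖ X]
    [Module.Finite Qᵐᵒᵖ X] [AddCommGroup V] [Module K V] [Module.Finite K V] [AddCommGroup S]
    [Module K S] (L : Q →+* Module.End K V) (β : X →+ V →ₗ[K] S), IsBal L β →
    ∀ (m : ℕ) (S' : Submodule K S), ∃ P : PP X L, ∀ P' : PP X L, fL β m S' P' ≤ fL β m S' P

/-- **MIN** (300 lines). Inequalities at a maximiser `P` of `f_m`, with common adapted bases of `P` and of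
a second pair `(M, N)`: weights `a_i, c_i` on `X`, `b_j, d_j` on `V`.

PROOF. (1) Compare with `P' = (box F M, box G N)`: `|P'|² = ∑ (a_i + b_j + c_i + d_j)²
= |P|² + 2 ∑ (a_i + b_j)(c_i + d_j) + ∑ (c_i + d_j)²` (BOX (2), FDA (3)) and BOX (3).
(2) Compare with the shifts `F_±(a) = F (a ∓ 1)` of the filtration of `X`: `conv` is shifted, `deg S'` changes
by `± dim S'`, `|P|²` by `± 2 ∑ (a_i + b_j) + n N`. (3) Let `a_min` be the minimal `a_i`, and replace `F` by `F'`,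
`F' a = ⊤` for `a ≤ a_min + 1`, `F' a = F a` otherwise: the same basis is adapted, with weight `a_min`
replaced by `a_min + 1`. `F ≤ F'`, so `deg S'` does not decrease (FDA (5)), so `|P'|² ≥ |P|²`; the difference
is `ν ∑_j (2 (a_min + b_j) + 1)`, `ν = #{i | a_i = a_min} > 0`. The same for `V` (the new filtration is again
stable under `L`). -/
def SpecMIN : Prop :=
  ∀ (Q : Type v) (K X V S : Type v) [DivisionRing Q] [Field K] [AddCommGroup X] [Module Qᵐᵒᵖ X]
    [Module.Finite Qᵐᵒᵖ X] [AddCommGroup V] [Module K V] [Module.Finite K V] [AddCommGroup S]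
    [Module K S] (L : Q →+* Module.End K V) (β : X →+ V →ₗ[K] S), IsBal L β →
    ∀ (m : ℕ) (S' : Submodule K S) (P : PP X L), (∀ P' : PP X L, fL β m S' P' ≤ fL β m S' P) →
    ∀ (n N : ℕ) (x : Basis (Fin n) Qᵐᵒᵖ X) (y : Basis (Fin N) K V) (a : Fin n → ℤ) (b : Fin N → ℤ),
    Adp P.FX x a → Adp P.FV y b →
    (∀ (B' : ℕ) (M : ℤ → Submodule Qᵐᵒᵖ X) (M' : ℤ → Submodule K V) (c : Fin n → ℤ)
      (d : Fin N → ℤ), IsFil B' M → IsFil B' M' → (∀ r, LSt L (M' r)) → Adp M x c → Adp M' y d →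
      2 * m * deg (2 * B') (conv β M M') S' ≤
        2 * ∑ i, ∑ j, (a i + b j) * (c i + d j) + ∑ i, ∑ j, (c i + d j) ^ 2) ∧
    |2 * (N * ∑ i, a i + n * ∑ j, b j) - 2 * m * (finrank K S' : ℤ)| ≤ n * N ∧
    (∀ i, -(N : ℤ) ≤ 2 * (N * a i + ∑ j, b j)) ∧
    (∀ j, -(n : ℤ) ≤ 2 * (n * b j + ∑ i, a i))

/-- **TEN** (250 lines). The tensor product theorem.

PROOF. Text, section 3 (iv), (v). Let `m ≥ 1`, `P` a maximiser (MXZ). For almost all `t`: `deg (F_X^a) ≤
μ dim F_X^a` and `deg (F_V^b) ≤ σ dim F_V^b` for the finitely many steps. For such a `t` take common adapted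
bases of `(F_X, M_X(t))` and `(F_V, M_V(t))` (ADB), weights `a_i, c_i`, `b_j, d_j`. ABEL:
`∑ a_i c_i = a_min ∑ c + ∑_{a > a_min} ∑_{a_i ≥ a} c_i`, and `∑_{a_i ≥ a} c_i = deg_{M_X(t)} (F_X^a)
≤ μ #{i | a_i ≥ a}` (FDA (2)), so `∑ a_i c_i ≤ a_min ∑ c + μ (∑ a - n a_min)`; the same for `V`. With
`∑ c ≤ μ n`, `∑ d ≤ σ N` (steps `⊤`), `|∑ c|, |∑ d|` bounded by `n B`, `N B`, and MIN (3):
`∑ (a_i + b_j)(c_i + d_j) = N ∑ a_i c_i + n ∑ b_j d_j + ∑ a ∑ d + ∑ b ∑ c
≤ (∑ c)(N a_min + ∑ b) + (∑ d)(n b_min + ∑ a) + μ(N ∑ a - n N a_min) + σ(n ∑ b - n N b_min)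
≤ (μ + σ)(N ∑ a + n ∑ b) + C`, `C` independent of `m`, `t`. By MIN (1), (2):
`m deg S' ≤ (μ + σ) m dim S' + C'`. `deg S'` is an integer: for `m` large (depending on `μ + σ`, `C'`,
`dim S'` only) this implies `deg S' ≤ (μ + σ) dim S'`. (`n = 0` or `N = 0`: `S = 0`.) -/
def SpecTEN : Prop :=
  ∀ (Q : Type v) (K X V S : Type v) [DivisionRing Q] [Field K] [AddCommGroup X] [Module Qᵐᵒᵖ X]
    [Module.Finite Qᵐᵒᵖ X] [AddCommGroup V] [Module K V] [Module.Finite K V] [AddCommGroup S]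
    [Module K S] (L : Q →+* Module.End K V) (β : X →+ V →ₗ[K] S), IsBal L β →
    ∀ (𝒯 : Type w) (l : Filter 𝒯) [l.NeBot] (B : ℕ) (MX : 𝒯 → ℤ → Submodule Qᵐᵒᵖ X)
      (MV : 𝒯 → ℤ → Submodule K V) (μ σ : ℚ),
    (∀ t, IsFil B (MX t)) → (∀ t, IsFil B (MV t)) → (∀ t a, LSt L (MV t a)) →
    (∀ W : Submodule Qᵐᵒᵖ X, ∀ᶠ t in l, (deg B (MX t) W : ℚ) ≤ μ * finrank Qᵐᵒᵖ W) →
    (∀ W : Submodule K V, LSt L W → ∀ᶠ t in l, (deg B (MV t) W : ℚ) ≤ σ * finrank K W) →
    ∀ S' : Submodule K S,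
      ∀ᶠ t in l, (deg (2 * B) (conv β (MX t) (MV t)) S' : ℚ) ≤ (μ + σ) * finrank K S'

/-- **TMX** (300 lines). Subspaces of maximal slope of the tensor product.

PROOF. (1) is TEN. (2) Let `S'` have slope `μ + σ`. (a) `S' ≤ tns X1 ⊤`: let `X̄ = X ⧸ X1`,
`S̄ = S ⧸ tns β X1 ⊤`, `β̄ : X̄ → V → S̄` (well defined); `IsBal L β̄` (lift a basis of `X̄`, add a basis of `X1`,
use `bij`). The filtrations `M̄_X(t)`: images. Every `W̄ ≤ X̄`, `W̄ ≠ ⊥`, has preimage `W` not in `X1`, and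
`deg W = deg X1 + deg W̄` (FDB (2)), so `deg W̄ < μ dim W̄` eventually. Ultrafilter and integrality: the
pairs (eventual degree, dimension) of the `W̄ ≠ ⊥` are in a finite set, so there is `μ' < μ` with
`deg W̄ ≤ μ' dim W̄` eventually, for every `W̄`. The image filtration of `conv β (MX t) (MV t)` is
`conv β̄ (M̄X t) (MV t)`. FDB (2): `deg S' ≤ deg (S' ⊓ tns X1 ⊤) + deg S̄'`, so by (1) and TEN for `β̄`:
`(μ + σ) dim S' ≤ (μ + σ) dim (S' ⊓ ..) + (μ' + σ) dim S̄'`, so `S̄' = 0`. (b) `S' ≤ tns ⊤ Y1`: the same with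
`V̄ = V ⧸ Y1` (`Y1` is stable under `L`, so `L` acts on `V̄`), for subspaces of `V̄` (`lt` for all
subspaces of `V`). (c) TPB (5). -/
def SpecTMX : Prop :=
  ∀ (Q : Type v) (K X V S : Type v) [DivisionRing Q] [Field K] [AddCommGroup X] [Module Qᵐᵒᵖ X]
    [Module.Finite Qᵐᵒᵖ X] [AddCommGroup V] [Module K V] [Module.Finite K V] [AddCommGroup S]
    [Module K S] (L : Q →+* Module.End K V) (β : X →+ V →ₗ[K] S), IsBal L β →
    ∀ (𝒯 : Type w) (l : Ultrafilter 𝒯) (B : ℕ) (MX : 𝒯 → ℤ → Submodule Qᵐᵒᵖ X)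
      (MV : 𝒯 → ℤ → Submodule K V) (μ σ : ℚ) (X1 : Submodule Qᵐᵒᵖ X) (Y1 : Submodule K V),
    (∀ t, IsFil B (MX t)) → (∀ t, IsFil B (MV t)) → (∀ t a, LSt L (MV t a)) → LSt L Y1 →
    IsMx (l : Filter 𝒯) B MX μ X1 → IsMx (l : Filter 𝒯) B MV σ Y1 →
    ∀ S' : Submodule K S,
      (∀ᶠ t in (l : Filter 𝒯),
        (deg (2 * B) (conv β (MX t) (MV t)) S' : ℚ) ≤ (μ + σ) * finrank K S') ∧
      ((∀ᶠ t in (l : Filter 𝒯),
        (μ + σ) * finrank K S' ≤ (deg (2 * B) (conv β (MX t) (MV t)) S' : ℚ)) →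
        S' ≤ tns β X1 Y1)

/-! ## Weight filtrations -/

/-- **WTA** (250 lines). Properties of the weight filtration `wt n`.

PROOF. Generators: `n^i u` with `0 ≤ i`, `a ≤ i`, `n^(2i+1-a) u = 0`. (1) a generator of `wt n (a+1)` is one of
`wt n a`. (2) `wt_map` of `Base.lean`. (3) `a ≥ b`: `i ≥ b`, `n^i = 0`; `a ≤ 1 - b`: `i = 0`,
`ker n^(1-a) = ⊤`. (4) `i ≥ a ≥ 1`. (5) `n (n^i u) = n^(i+1) u`, `2(i+1)+1-(a+2) = 2i+1-a`... the generator
of `wt n (a+2)` with `i+1` if `i + 1 ≥ a + 2`; otherwise `i = a` and `n^(i+1) u = n^(2i+1-a) u = 0`.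
(6) For `a ≥ 0`: `n^a (wt n (-a)) = wt n a` (`⊇`: `n^i u = n^a (n^(i-a) u)`), `ker n^a ≤ wt n (1 - a)` for `a ≥ 1`,
and `n^a (wt n (1-a)) = wt n (a+1)` for `a ≥ 1` (also `a = 0`). Rank-nullity:
`dim wt(-a) - dim wt(a) = dim ker n^a = dim wt(1-a) - dim wt(a+1)`. So
`g(a) := dim wt(a) + dim wt(1-a)` satisfies `g(a+1) = g(a)` for `a ≥ 0`, so `g(a) = dim V` for all `a ≥ 0`
(large `a`), and `deg B (wt n) ⊤ = ∑_{a=1}^B (dim wt(a) + dim wt(1-a) - dim V) = 0`.
(7) (2) for the inclusion... `e` commutes with `n`: image of `wt n a` under `e` is in `wt n a`, the same for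
the inverse. -/
def SpecWTA : Prop :=
  (∀ (A : Type v) (V : Type v) [Ring A] [AddCommGroup V] [Module A V] (n : Module.End A V),
    Antitone (wt n) ∧
    (∀ b : ℕ, n ^ b = 0 → IsNilpotent n ∧ (∀ a : ℤ, (b : ℤ) ≤ a → wt n a = ⊥) ∧
      ∀ a : ℤ, a ≤ 1 - (b : ℤ) → wt n a = ⊤) ∧
    (∀ a : ℤ, 1 ≤ a → wt n a ≤ LinearMap.range n) ∧
    (∀ (a : ℤ) (x : V), x ∈ wt n a → n x ∈ wt n (a + 2)) ∧
    ∀ e : V ≃ₗ[A] V, (∀ x, e (n x) = n (e x)) → ∀ a, (wt n a).map (e : V →ₗ[A] V) = wt n a) ∧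
  (∀ (A A' : Type v) (V V' : Type v) [Ring A] [AddCommGroup V] [Module A V] [Ring A']
    [AddCommGroup V'] [Module A' V'] (n : Module.End A V) (n' : Module.End A' V') (φ : V →+ V'),
    (∀ x, φ (n x) = n' (φ x)) → ∀ (a : ℤ) (x : V), x ∈ wt n a → φ x ∈ wt n' a) ∧
  ∀ (D : Type v) (V : Type v) [DivisionRing D] [AddCommGroup V] [Module D V] [Module.Finite D V]
    (n : Module.End D V) (B : ℕ), n ^ B = 0 → IsFil B (wt n) ∧ deg B (wt n) ⊤ = 0

/-- **SL2** (120 lines). Weight vectors of an `sl_2`-triple lie in the weight filtration of `e`.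

PROOF. `e f - f e = h`, `h e - e h = 2 e`, `h f - f h = -2 f`. For `h x = c x`:
`f^m e x = e f^m x - m (c - m + 1) f^(m-1) x` and `f e^m x = e^m f x - m (c + m - 1) e^(m-1) x` (induction on
`m`).
CLAIM: `h x = c x`, `f^(r+1) x = 0`, `c > r` imply `x = 0`. Induction on `s` with `e^s x = 0`: for `x' = e x`:
`h x' = (c+2) x'`, `e^(s-1) x' = 0`, `f^(r+2) x' = e f^(r+2) x - (r+2)(..) f^(r+1) x = 0`, `c + 2 > r + 1`: `x' = 0`.
So `e x = 0` and `m (c - m + 1) f^(m-1) x = e f^m x` for all `m`: from `f^(r+1) x = 0` we get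
`f^r x = 0, .., x = 0` (`c - m + 1 > 0` for `m ≤ r + 1`).
THEOREM, induction on `r` with `f^r x = 0`. `r = 0`: `x = 0`. `f^(r+1) x = 0`: `w := f^r x`, `h w = (c - 2r) w`,
`f w = 0`, `a := 2r - c`. If `c > r` then `x = 0`. Otherwise `a ≥ r`; `f e^m w = m (a - m + 1) e^(m-1) w`, so from
`e^M w = 0` (`M` large) we get `e^(a+1) w = 0` (coefficients nonzero for `m > a + 1`), and
`f^r e^r w = γ w`, `γ = ∏_{m=1}^r m (a - m + 1) ≠ 0`. `x' := x - γ⁻¹ e^r w` satisfies `h x' = c x'`, `f^r x' = 0`, so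
`x' ∈ wt e c` by induction; `e^r w` is a generator of `wt e c`: `r ≥ c`, `e^(2r+1-c) w = 0`. -/
def SpecSL2 : Prop :=
  ∀ (V : Type v) [AddCommGroup V] [Module ℚ V] (e f h : Module.End ℚ V),
    e * f - f * e = h → h * e - e * h = 2 • e → h * f - f * h = -(2 • f) → IsNilpotent e →
    IsNilpotent f → ∀ (c : ℤ) (x : V), h x = (c : ℚ) • x → x ∈ wt e c

/-- **TWT** (200 lines). Weights are additive.

PROOF. By additivity `x = n^i u`, `y = s^j v` with `p := 2i+1-a`, `q := 2j+1-b`, `n^p u = 0`, `s^q v = 0`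
(`p ≥ i + 1`, `q ≥ j + 1`). Model: `E = Matrix (Fin p) (Fin q) ℚ`, `e(A) = S_p A + A S_qᵀ`,
`f(A) = G_p A + A G_qᵀ`, `h(A) = H_p A + A H_qᵀ`, where `S_p`: `E_i ↦ E_{i+1}` (`E_{p-1} ↦ 0`),
`G_p`: `E_i ↦ i (p - i) E_{i-1}`, `H_p = diag (2i - p + 1)`; `S G - G S = H`, `H S - S H = 2 S`,
`H G - G H = -2 G`; nilpotent. `φ : E → W`, `φ(E_{ij}) = β(n^i u, s^j v)` is additive (`W` is a `ℚ`-space) and
`φ(e A) = T φ(A)`. By SL2 `E_{ij} ∈ wt e ((2i - p + 1) + (2j - q + 1)) = wt e (a + b)`; WTA (2). -/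
def SpecTWT : Prop :=
  ∀ (A A' A'' : Type v) (V V' W : Type v) [Ring A] [AddCommGroup V] [Module A V] [Ring A']
    [AddCommGroup V'] [Module A' V'] [Ring A''] [AddCommGroup W] [Module A'' W] [Module ℚ W]
    (n : Module.End A V) (s : Module.End A' V') (T : Module.End A'' W) (β : V →+ V' →+ W),
    (∀ x y, T (β x y) = β (n x) y + β x (s y)) →
    ∀ (a b : ℤ) (x : V) (y : V'), x ∈ wt n a → y ∈ wt s b → β x y ∈ wt T (a + b)

/-- **COV** (150 lines). The weight filtration of a tensor product.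

PROOF. `≤`: TWT (`tns` is spanned by the `β x v`). Both are filtrations (`IsFil (2B)`: TPB (3); `T^(2B) = 0`,
since `T^m β(x, v) = ∑ binom β(n^i x, s^(m-i) v)` and the `β x v` span), both have total degree `0`: WTA (6) for
`wt T`, and TDG with `X' = ⊤`, `V' = ⊤` (`tns β ⊤ ⊤ = ⊤`) and WTA (6) for `conv`. Since
`∑_a dim` is equal and `conv a ≤ wt T a` for all `a`, they are equal (FDA (4) to adjust the bounds).
`wt s a` is stable under `L` since `L q` commutes with `s` (WTA (2)). -/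
def SpecCOV : Prop :=
  ∀ (Q : Type v) (K X V S : Type v) [DivisionRing Q] [Field K] [AddCommGroup X] [Module Qᵐᵒᵖ X]
    [Module.Finite Qᵐᵒᵖ X] [AddCommGroup V] [Module K V] [Module.Finite K V] [AddCommGroup S]
    [Module K S] [CharZero K] (L : Q →+* Module.End K V) (β : X →+ V →ₗ[K] S), IsBal L β →
    ∀ (n : Module.End Qᵐᵒᵖ X) (s : Module.End K V) (T : Module.End K S) (B : ℕ),
    (∀ x y, T (β x y) = β (n x) y + β x (s y)) → (∀ q v, L q (s v) = s (L q v)) →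
    n ^ B = 0 → s ^ B = 0 →
    T ^ (2 * B) = 0 ∧ (∀ a, LSt L (wt s a)) ∧ ∀ c, conv β (wt n) (wt s) c = wt T c

/-- **RSE** (150 lines). Raising lemma.

PROOF. Text (1.5). KEY: `n^m u = 0`, `m ≥ 1` imply `m n^(m-1) p u ∈ range (n^m)`. Suppose not. Let
`n^m u_1, .., n^m u_r` be a basis of `range (n^m)`; then `n^m u_1, .., n^m u_r, m n^(m-1) p u` are independent.
For `c ∈ k`: `(n + c p)^m = n^m + c m n^(m-1) p + c² N_2 + ..` (`n`, `p` commute), so
`(n + c p)^m u = c (m n^(m-1) p u + c N_2 u + ..)`. Choose linear functionals `φ_0, .., φ_r` with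
`det (φ_i (x_j)) ≠ 0` for these `r + 1` vectors `x_j`; the determinant of the `φ_i` at
`(n + c p)^m u_j`, `m n^(m-1) p u + c N_2 u + ..` is a polynomial in `c` which is not `0` at `c = 0`, hence not
`0` at some `0 ≠ c ∈ k` (`k` is infinite). For this `c`, `rank (n + c p)^m ≥ r + 1`, a contradiction.
CONCLUSION. `x = n^i u`, `n^m u = 0`, `m = 2i+1-a ≥ i + 1`, `i ≥ a`, `i ≥ 0`. `m n^(m-1) p u = - n^m û` for some `û`,
so `p u = -(1/m) n û + u'`, `n^(m-1) u' = 0`, and `n^(m+1) û = - m n^m p u = 0`. `p x = -(1/m) n^(i+1) û + n^i u'`: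
`n^(i+1) û` is a generator of `wt n (a+1)` (`2(i+1)+1-(a+1) = m + 1`); `n^i u'` is one if `i ≥ a + 1`
(`2i+1-(a+1) = m - 1`), and if `i = a` then `m - 1 = i`, so `n^i u' = 0`. -/
def SpecRSE : Prop :=
  ∀ (k : Type u) (Z V : Type v) [Field k] [CharZero k] [Field Z] [Algebra k Z] [AddCommGroup V] [Module Z V]
    [Module.Finite Z V] (n p : Module.End Z V), n * p = p * n →
    (∀ (m : ℕ) (c : k), finrank Z (LinearMap.range ((n + algebraMap k Z c • p) ^ m)) ≤
      finrank Z (LinearMap.range (n ^ m))) →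
    ∀ (a : ℤ) (x : V), x ∈ wt n a → p x ∈ wt n (a + 1)

/-! ## Generic elements -/

/-- **GRK** (200 lines). Generic rank, and pull-back to `k^R`.

PROOF. (1) `r` := the maximal rank of the `P x`, `x ∈ K^m`, attained at `x0`. Choose `u_1, .., u_r` with
`P(x0) u_i` independent and functionals `φ_i` with `det (φ_i (P(x0) u_j)) ≠ 0`; `g := det (φ_i (P u_j))`, a
polynomial. `g(x) ≠ 0` implies that the `P(x) u_j` are independent, so `rank = r`. (2) `g ∘ C` is the
polynomial `MvPolynomial.aeval (∑_l C i l • X l) g`; it is `≠ 0` because `C` is surjective and `g` is not zero as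
a function (`K` infinite). Let `λ : K → k` be `k`-linear, `λ ≠ 0` on some coefficient of `g ∘ C`; `f` := `λ`
applied to the coefficients; `f(t) = λ(g(C t))` for `t ∈ k^R`. (`λ` exists: `k` is a field.) -/
def SpecGRK : Prop :=
  ∀ (k : Type u) (K : Type v) [Field k] [Infinite k] [Field K] [Algebra k K],
    (∀ (m p q : ℕ) (P : Matrix (Fin p) (Fin q) (MvPolynomial (Fin m) K)),
      ∃ (r : ℕ) (g : MvPolynomial (Fin m) K), g ≠ 0 ∧
        (∀ x : Fin m → K, (P.map (MvPolynomial.eval x)).rank ≤ r) ∧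
        ∀ x : Fin m → K, MvPolynomial.eval x g ≠ 0 → (P.map (MvPolynomial.eval x)).rank = r) ∧
    ∀ (m R : ℕ) (C : Matrix (Fin m) (Fin R) K), Function.Surjective C.mulVec →
      ∀ g : MvPolynomial (Fin m) K, g ≠ 0 →
        ∀ᶠ t in gen k R, MvPolynomial.eval (C.mulVec fun i => algebraMap k K (t i)) g ≠ 0

/-- **GRR** (150 lines). Generic ranks of powers.

PROOF. GRK (1), (2) with `m = R`, `C = 1`: in a basis of `V` the matrix of `(∑ x_i n_i)^m` has polynomial entries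
(power of the matrix `∑ X_i N_i` over `MvPolynomial`). -/
def SpecGRR : Prop :=
  ∀ (k : Type u) (Z V : Type v) [Field k] [Infinite k] [Field Z] [Algebra k Z] [AddCommGroup V] [Module Z V]
    [Module.Finite Z V] (R : ℕ) (n : Fin R → Module.End Z V) (m : ℕ),
    ∀ᶠ t in gen k R, ∀ t' : Fin R → k,
      finrank Z (LinearMap.range ((∑ i, algebraMap k Z (t' i) • n i) ^ m)) ≤
        finrank Z (LinearMap.range ((∑ i, algebraMap k Z (t i) • n i) ^ m))

/-- **GDG** (300 lines). Generic degrees depend on the span only.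

PROOF. Let `VV` be the common span, `v_1, .., v_m` a basis of it. For `v ∈ VV`, `a ∈ ℤ`, `e_i := 2i+1-a`:
`wt v a` is the set of the `∑_{i < B, i ≥ a} v^i u_i` with `v^(e_i) u_i = 0` (`v^B = 0`). Let
`L_v : W × V^B → V × V^B`, `(w, u) ↦ (w - ∑_i v^i u_i, (v^(e_i) u_i for i ≥ a, u_i for i < a))`, and
`L'_v` its restriction to `w = 0`. The first projection maps `ker L_v` onto `W ∩ wt v a`, with kernel
`ker L'_v`. So `dim (W ∩ wt v a) = dim W - rank L_v + rank L'_v`. In bases the entries of `L_v`, `L'_v` are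
polynomials in the coordinates `x` of `v = ∑ x_i v_i`; by GRK (1) there is `g_a ≠ 0` such that both ranks are
constant where `g_a ≠ 0`. `g := ∏ g_a` over `a ∈ (-B, B]`: `deg B (wt v) W = d` if `g(x) ≠ 0`. Write
`α j = ∑_i C_ij v_i`: `C` is surjective (the `α j` span `VV`), so by GRK (2) `g(C t) ≠ 0` for almost all
`t ∈ k^R`. The same for `α'`. -/
def SpecGDG : Prop :=
  ∀ (k : Type u) (K V : Type v) [Field k] [Infinite k] [Field K] [Algebra k K] [AddCommGroup V] [Module K V]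
    [Module.Finite K V] (R B : ℕ) (α α' : Fin R → Module.End K V),
    Submodule.span K (Set.range α) = Submodule.span K (Set.range α') →
    (∀ c : Fin R → K, (∑ i, c i • α i) ^ B = 0) →
    ∀ W : Submodule K V, ∃ d : ℤ,
      (∀ᶠ t in gen k R, deg B (wt (∑ i, algebraMap k K (t i) • α i)) W = d) ∧
      ∀ᶠ t in gen k R, deg B (wt (∑ i, algebraMap k K (t i) • α' i)) W = d

/-! ## Logarithms -/

/-- **LOG** (250 lines). Logarithms of unipotent elements.

PROOF. For every `m ≥ nilpotencyClass x` (`x^m = 0`) `ulog x = ∑_{j < m} (-1)^j x^(j+1) / (j+1)`. (1), (2), (3),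
(5) follow. (4) `ulog x = x (1 - x (..)) = x · unit`. (2'): additivity. In the commutative subalgebra
`C = ℚ[x, y]` and `C[s]` put `u(s) = s x + s y + s² x y`, `L(u) = ∑_{j < m} (-1)^j u^(j+1)/(j+1)` with `m` large
(`u(s)^m = 0` in `C[s]`, since `x, y` are nilpotent). `g(s) = L(u(s)) - L(s x) - L(s y)`; the formal derivative:
`L(u)' = u' ∑_{j<m} (-1)^j u^j` and `(1 + u) ∑_{j<m} (-u)^j = 1 - (-u)^m = 1`. `1 + u(s) = (1 + s x)(1 + s y)`, so
`(1 + u) g' = u' - x (1 + s y) - y (1 + s x) = 0`, `g' = 0`; `C` is a `ℚ`-algebra: `g = g(0) = 0`; take `s = 1`.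
(6) `c + λ ≠ 0` for `λ ∈ k` since `c ∉ k`. `y^m = 0`; choose distinct `λ_1, .., λ_m ∈ k`, `θ_i = (c + λ_i)⁻¹`
distinct, `≠ 0`. The matrix `(θ_i^(j+1))` is `diag(θ)` times a Vandermonde matrix
(`Matrix.det_vandermonde_ne_zero_iff`), so there are `κ_i ∈ K` with `∑_i κ_i θ_i^(j+1) = δ_{j0}` for `j < m`,
and `∑ κ_i ulog (θ_i y) = y`. -/
def SpecLOG : Prop :=
  (∀ (A : Type v) [Ring A] [Algebra ℚ A] (x : A), IsNilpotent x →
    IsNilpotent (ulog x) ∧ (∀ y, x * y = y * x → ulog x * y = y * ulog x) ∧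
    (ulog x = 0 → x = 0) ∧
    (∀ T : Submodule ℚ A, x ∈ T → (∀ y ∈ T, x * y ∈ T) → ulog x ∈ T) ∧
    (∀ y : A, IsNilpotent y → x * y = y * x → ulog (x + y + x * y) = ulog x + ulog y)) ∧
  (∀ (A A' : Type v) [Ring A] [Algebra ℚ A] [Ring A'] [Algebra ℚ A'] (φ : A →+* A') (x : A),
    IsNilpotent x → φ (ulog x) = ulog (φ x)) ∧
  ∀ (k : Type u) (K A : Type v) [Field k] [Infinite k] [Field K] [Algebra k K] [CharZero K] [Ring A]
    [Algebra ℚ A] [Algebra K A] (y : A) (c : K), IsNilpotent y →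
    (∀ l : k, algebraMap k K l ≠ c) →
    y ∈ Submodule.span K {z | ∃ l : k, z = ulog ((c + algebraMap k K l)⁻¹ • y)}

/-! ## The core of the nilpotent step -/

/-- **BAL** (100 lines). `IsBal` can be checked on one basis.

PROOF. Let `b` be the given basis, `b'` another one (`Fin n'`, `n' = n` by invariance of the rank). `b'_i =
∑_j b_j q_ji` with an invertible matrix `(q_ji)` over `Q`; `∑_i β(b'_i, v_i) = ∑_j β(b_j, ∑_i L(q_ji) v_i)`,
and `v ↦ (∑_i L(q_ji) v_i)_j` is a bijection of `V^n` (its inverse is given by the inverse matrix, `L` is a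
ring homomorphism). -/
def SpecBAL : Prop :=
  ∀ (Q : Type v) (K X V S : Type v) [DivisionRing Q] [Field K] [AddCommGroup X] [Module Qᵐᵒᵖ X]
    [AddCommGroup V] [Module K V] [AddCommGroup S] [Module K S] (L : Q →+* Module.End K V)
    (β : X →+ V →ₗ[K] S), (∀ x q v, β (MulOpposite.op q • x) v = β x (L q v)) →
    ∀ (n : ℕ) (b : Basis (Fin n) Qᵐᵒᵖ X),
    (Function.Bijective fun v : Fin n → V => ∑ i, β (b i) (v i)) → IsBal L β

/-- The `K`-span of the `r y w`, `y ∈ Y`, `w ∈ G`. -/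
def prd {K M S : Type v} [Field K] [Ring M] [Algebra K M] [AddCommGroup S] [Module K S]
    (r : M →+* Module.End K S) (Y : Submodule K M) (G : Submodule K S) : Submodule K S :=
  Submodule.span K {s | ∃ y ∈ Y, ∃ w ∈ G, s = r y w}

/-- **WED** (350 lines). Products `Y S`, `Y` a right ideal of the simple algebra `M`, `S` a left `M`-module
(`r` is a ring homomorphism, not `K`-linear): dimension and degree.

PROOF. Wedderburn (`IsSimpleRing.exists_algEquiv_matrix_divisionRing_finite` or its variants):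
`M ≅ Mat_r(D)`, matrix units `E_ij ∈ M`, `ε : D → M` (scalar matrices, commutes with the `E_ij`), `d = dim_K D`.
`X := D^r` (columns, right `D`-space), `c(x) := ∑_i E_i1 ε(x_i) ∈ M`, `V := r(E_11) S` (left `D`-space through
`r ∘ ε`, `K`-space), `β(x, v) := r(c(x)) v ∈ S`. `IsBal` (BAL with the standard basis: `S = ⊕ r(E_ii) S`,
`r(E_i1) : V ≅ r(E_ii) S`). For a right ideal `Y` put `Y' = {x | c(x) ∈ Y}`:
`Y = ⊕_j Y E_j1 E_1j`, `Y E_j1 ≤ Y E_11 = c(Y')`, so `dim_K Y = r d dim_D Y'`, and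
`deg_K(R, Y) = r d deg_D(R', Y')`, `R' a = (R a)'`. For an `r(M)`-stable `G ≤ S`: `G = ⊕ r(E_i1)(G ∩ V)`,
`dim G = r dim (G ∩ V)`; `G' a := G a ∩ V`. `prd r Y G = tns β Y' (G ∩ V)`: `r(y) r(E_i1) v = r(y E_i1) v`,
`y E_i1 ∈ c(Y')`. So `fun c => ⨆ a, prd r (R a) (G (c - a)) = conv β R' G'`, and TPB (3), (4), TDG (with `V' = V`)
give the claims after multiplication by `dim_K M = r² d`. -/
def SpecWED : Prop :=
  ∀ (K M S : Type v) [Field K] [Ring M] [Algebra K M] [Module.Finite K M] [IsSimpleRing M]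
    [AddCommGroup S] [Module K S] [Module.Finite K S] (r : M →+* Module.End K S) (B : ℕ)
    (R : ℤ → Submodule K M) (G : ℤ → Submodule K S), IsFil B R → IsFil B G →
    (∀ a, ∀ y ∈ R a, ∀ m : M, y * m ∈ R a) → (∀ a, ∀ w ∈ G a, ∀ m : M, r m w ∈ G a) →
    ∀ Y : Submodule K M, (∀ y ∈ Y, ∀ m : M, y * m ∈ Y) →
    IsFil (2 * B) (fun c => ⨆ a, prd r (R a) (G (c - a))) ∧
    finrank K M * finrank K (prd r Y ⊤) = finrank K Y * finrank K S ∧
    (finrank K M : ℤ) * deg (2 * B) (fun c => ⨆ a, prd r (R a) (G (c - a))) (prd r Y ⊤) =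
      finrank K S * deg B R Y + finrank K Y * deg B G ⊤

end Pool.Agent.Lib.MP_c37a72_al.NI
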